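import Pool.Agent.U184.Ang1

set_option autoImplicit false
set_option linter.unusedSectionVars false
set_option linter.unusedVariables false

/-! # The multiplicities of the curves which meet a critical exceptional curve -/

namespace Pool.Agent.U184

open Polynomial Pool.Agent.W574.MO Pool.Agent.W574.SM Pool.Agent.W574.LM

/-- the identity of `blow_analysisM` without normalization -/
theorem phi_psi (S : Finset ℂ) (h0S : 0 ∈ S) (μ : ℂ → ℕ) (q0 qI n0 n1 u1 k1 u2 k2 : ℕ)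
    (h : ∀ (R : Type) [CommRing R] (Φ : ℕ → ℕ → R) (ell : R), Φ 0 1 = 1 →
          Φ qI n0 + Φ q0 n1 + ∑ c ∈ S.erase 0, Φ (μ c) 1 + (ell - S.card)
          = Φ u1 k1 + Φ u2 k2 + (ell - 1))
    (R : Type) [CommRing R] (Ψ : ℕ → ℕ → R) :
    Ψ qI n0 + Ψ q0 n1 + ∑ c ∈ S.erase 0, Ψ (μ c) 1
      = Ψ u1 k1 + Ψ u2 k2 + ((S.card : R) - 1) * Ψ 0 1 := by
  have h1 := h R (fun a n => Ψ a n - Ψ 0 1 + 1) 0 (by ring)
  have h2 : (((S.erase 0).card : ℕ) : R) = (S.card : R) - 1 := by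
    rw [Finset.card_erase_of_mem h0S, Nat.cast_sub (Finset.card_pos.2 ⟨0, h0S⟩), Nat.cast_one]
  simp only [Finset.sum_add_distrib, Finset.sum_sub_distrib, Finset.sum_const, nsmul_eq_mul,
    h2] at h1
  linear_combination h1

theorem mulAt_zero (a1 : ℕ) (e : ℂ → ℕ) : mulAt a1 e 0 = a1 + e 0 := by rw [mulAt, if_pos rfl]

theorem mulAt_ne (a1 : ℕ) (e : ℂ → ℕ) {c : ℂ} (hc : c ≠ 0) : mulAt a1 e c = e c := by
  rw [mulAt, if_neg hc]

/-- at most two other curves meet a critical curve -/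
theorem count_le (S : Finset ℂ) (h0S : 0 ∈ S) (e : ℂ → ℕ) (a1 qI n0 n1 u1 k1 u2 k2 : ℕ)
    (h : ∀ (R : Type) [CommRing R] (Ψ : ℕ → ℕ → R),
      Ψ qI n0 + Ψ (a1 + e 0) n1 + ∑ c ∈ S.erase 0, Ψ (e c) 1
      = Ψ u1 k1 + Ψ u2 k2 + ((S.card : R) - 1) * Ψ 0 1) :
    (S.filter fun c => mulAt a1 e c ≠ 0).card + (if qI = 0 then 0 else 1) ≤ 2 := by
  classical
  have h1 := h ℤ (fun a _ => if a = 0 then 0 else 1)
  rw [if_pos rfl, mul_zero, add_zero] at h1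
  have h2 : ((S.filter fun c => mulAt a1 e c ≠ 0).card : ℤ)
      = (if a1 + e 0 = 0 then 0 else 1) + ∑ c ∈ S.erase 0, (if e c = 0 then (0 : ℤ) else 1) := by
    rw [Finset.card_filter, Nat.cast_sum, ← Finset.add_sum_erase S _ h0S, mulAt_zero]
    congr 1
    · split_ifs <;> simp_all
    · refine Finset.sum_congr rfl fun c hc => ?_
      rw [mulAt_ne a1 e (Finset.ne_of_mem_erase hc)]
      split_ifs <;> simp_all
  have h3 : ((if qI = 0 then 0 else 1 : ℕ) : ℤ) = if qI = 0 then 0 else 1 := by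
    split_ifs <;> simp
  have h4 : ∀ u : ℕ, (if u = 0 then (0 : ℤ) else 1) ≤ 1 := by
    intro u
    split_ifs <;> simp
  have h5 := h4 u1
  have h6 := h4 u2
  have h7 : (((S.filter fun c => mulAt a1 e c ≠ 0).card + (if qI = 0 then 0 else 1) : ℕ) : ℤ)
      ≤ 2 := by
    rw [Nat.cast_add, h2, h3]
    linarith
  exact_mod_cast h7

/-- the greatest common divisor of the multiplicities -/
theorem gcd_eq (S : Finset ℂ) (h0S : 0 ∈ S) (e : ℂ → ℕ) (a1 qI n0 n1 u1 k1 u2 k2 : ℕ)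
    (h : ∀ (R : Type) [CommRing R] (Ψ : ℕ → ℕ → R),
      Ψ qI n0 + Ψ (a1 + e 0) n1 + ∑ c ∈ S.erase 0, Ψ (e c) 1
      = Ψ u1 k1 + Ψ u2 k2 + ((S.card : R) - 1) * Ψ 0 1) :
    Nat.gcd qI (S.gcd (mulAt a1 e)) = Nat.gcd u1 u2 := by
  classical
  have h1 : ∀ δ : ℕ, (if δ ∣ qI then (0 : ℤ) else 1) + (if δ ∣ a1 + e 0 then 0 else 1) +
      ∑ c ∈ S.erase 0, (if δ ∣ e c then (0 : ℤ) else 1)
      = (if δ ∣ u1 then 0 else 1) + (if δ ∣ u2 then 0 else 1) := by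
    intro δ
    have h2 := h ℤ (fun a _ => if δ ∣ a then 0 else 1)
    rw [if_pos (dvd_zero δ), mul_zero, add_zero] at h2
    exact h2
  have hnn : ∀ δ u : ℕ, 0 ≤ (if δ ∣ u then (0 : ℤ) else 1) := by
    intro δ u
    split_ifs <;> simp
  have hz : ∀ δ u : ℕ, (if δ ∣ u then (0 : ℤ) else 1) = 0 → δ ∣ u := by
    intro δ u h
    by_contra hc
    rw [if_neg hc] at h
    exact one_ne_zero h
  apply Nat.dvd_antisymm
  · set G := Nat.gcd qI (S.gcd (mulAt a1 e)) with hG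
    have hI : G ∣ qI := Nat.gcd_dvd_left _ _
    have hc : ∀ c ∈ S, G ∣ mulAt a1 e c := fun c hc =>
      (Nat.gcd_dvd_right _ _).trans (Finset.gcd_dvd hc)
    have h2 := h1 G
    rw [if_pos hI] at h2
    have h3 := hc 0 h0S
    rw [mulAt_zero] at h3
    rw [if_pos h3] at h2
    have h4 : ∑ c ∈ S.erase 0, (if G ∣ e c then (0 : ℤ) else 1) = 0 := by
      refine Finset.sum_eq_zero fun c hcS => ?_
      have h5 := hc c (Finset.mem_of_mem_erase hcS)
      rw [mulAt_ne a1 e (Finset.ne_of_mem_erase hcS)] at h5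
      rw [if_pos h5]
    rw [h4] at h2
    have h5 := hnn G u1
    have h6 := hnn G u2
    exact Nat.dvd_gcd (hz G u1 (by linarith)) (hz G u2 (by linarith))
  · set G := Nat.gcd u1 u2 with hG
    have h2 := h1 G
    rw [if_pos (Nat.gcd_dvd_left _ _), if_pos (Nat.gcd_dvd_right _ _), add_zero] at h2
    have h3 := hnn G qI
    have h4 := hnn G (a1 + e 0)
    have h5 : 0 ≤ ∑ c ∈ S.erase 0, (if G ∣ e c then (0 : ℤ) else 1) :=
      Finset.sum_nonneg fun c _ => hnn G (e c)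
    refine Nat.dvd_gcd (hz G qI (by linarith)) (Finset.dvd_gcd fun c hc => ?_)
    by_cases h0 : c = 0
    · rw [h0, mulAt_zero]
      exact hz G _ (by linarith)
    · rw [mulAt_ne a1 e h0]
      have h6 : ∑ c ∈ S.erase 0, (if G ∣ e c then (0 : ℤ) else 1) = 0 := by linarith
      have h7 := (Finset.sum_eq_zero_iff_of_nonneg fun c _ => hnn G (e c)).1 h6 c
        (Finset.mem_erase.2 ⟨h0, hc⟩)
      exact hz G _ h7

/-- the polynomial with the given zeros -/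
theorem res0_prod (q : MP) (S : Finset ℂ) (κ : ℂ) (e : ℂ → ℕ)
    (he : ∀ t : ℂ, MvPolynomial.eval ![0, t] q = κ * ∏ c ∈ S, (t - c) ^ e c) :
    res0 q = C κ * ∏ c ∈ S, (X - C c) ^ e c := by
  refine Polynomial.funext fun t => ?_
  rw [eval_res0, he, eval_mul, eval_C, eval_prod]
  congr 1
  refine Finset.prod_congr rfl fun c _ => ?_
  rw [eval_pow, eval_sub, eval_X, eval_C]

theorem prod_ne (S : Finset ℂ) (κ : ℂ) (hκ : κ ≠ 0) (e : ℂ → ℕ) :
    (C κ * ∏ c ∈ S, (X - C c) ^ e c : ℂ[X]) ≠ 0 :=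
  mul_ne_zero (C_ne_zero.2 hκ) (Finset.prod_ne_zero_iff.2 fun c _ =>
    pow_ne_zero _ (X_sub_C_ne_zero c))

theorem natDegree_prod' (S : Finset ℂ) (κ : ℂ) (hκ : κ ≠ 0) (e : ℂ → ℕ) :
    (C κ * ∏ c ∈ S, (X - C c) ^ e c : ℂ[X]).natDegree = ∑ c ∈ S, e c := by
  rw [natDegree_C_mul hκ, natDegree_prod _ _ fun c _ => pow_ne_zero _ (X_sub_C_ne_zero c)]
  refine Finset.sum_congr rfl fun c _ => ?_
  rw [natDegree_pow, natDegree_X_sub_C, mul_one]

theorem rootMult_prod (S : Finset ℂ) (κ : ℂ) (hκ : κ ≠ 0) (e : ℂ → ℕ) (c : ℂ) (hc : c ∈ S) :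
    (C κ * ∏ c ∈ S, (X - C c) ^ e c : ℂ[X]).rootMultiplicity c = e c := by
  classical
  have h1 : (C κ * ∏ c ∈ S, (X - C c) ^ e c : ℂ[X])
      = (C κ * ∏ c ∈ S.erase c, (X - C c) ^ e c) * (X - C c) ^ e c := by
    rw [← Finset.mul_prod_erase S _ hc]
    ring
  rw [h1, rootMultiplicity_mul_X_sub_C_pow (prod_ne _ κ hκ e)]
  have h2 : rootMultiplicity c (C κ * ∏ c ∈ S.erase c, (X - C c) ^ e c : ℂ[X]) = 0 := by
    apply rootMultiplicity_eq_zero
    rw [IsRoot, eval_mul, eval_C, eval_prod]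
    refine mul_ne_zero hκ (Finset.prod_ne_zero_iff.2 fun c' hc' => ?_)
    rw [eval_pow, eval_sub, eval_X, eval_C]
    exact pow_ne_zero _ (sub_ne_zero.2 (Finset.ne_of_mem_erase hc').symm)
  rw [h2, zero_add]

end Pool.Agent.U184
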