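import Pool.Agent.U184.Ang2

set_option autoImplicit false
set_option linter.unusedSectionVars false
set_option linter.unusedVariables false

/-! # The poles of the contribution of a point with angular component `1` -/

namespace Pool.Agent.U184

open Polynomial Pool.Agent.W574.MO Pool.Agent.W574.SM Pool.Agent.W574.LM

/-- the conclusion at a node -/
def GoodA {M : Type} [CommRing M] (L : Mˣ) (τ : ℕ → M) (s0 : ℂ) (g : MP) (a0 n0 a1 n1 : ℕ)
    (Z : PowerSeries M) : Prop :=
  ∃ c0 ∈ DenRing L (Kn s0), ∃ c1 ∈ DenRing L (Kn s0),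
    ((n0 : ℂ) + a0 * s0 = 0 → ∀ μ, Ord0 (fun _ : Unit => g) μ →
      c0 = PowerSeries.C (τ (Nat.gcd a0 (a1 + μ))) * mf L (a1 + μ) n1) ∧
    ((n1 : ℂ) + a1 * s0 = 0 → ∀ μ, Ord1 (fun _ : Unit => g) μ →
      c1 = PowerSeries.C (τ (Nat.gcd a1 (a0 + μ))) * mf L (a0 + μ) n0) ∧
    Z - c0 * ff L a0 n0 - c1 * ff L a1 n1 ∈ DenRing L (Kn s0)

section Leaves

variable {M : Type} [CommRing M] (L : Mˣ) (τ : ℕ → M)

theorem goodA_leaf (s0 : ℂ) (g : MP) (a0 n0 a1 n1 a n : ℕ) (hn : 1 ≤ n) (ha0 : 1 ≤ a0)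
    (hA0 : (n0 : ℂ) + a0 * s0 = 0) (hA1 : (n1 : ℂ) + a1 * s0 ≠ 0)
    (hA : (n : ℂ) + a * s0 ≠ 0) (μ : ℕ) (hμ : Ord0 (fun _ : Unit => g) μ) (h1 : a1 + μ = a)
    (h2 : n1 = n) :
    GoodA L τ s0 g a0 n0 a1 n1 (pt L τ a0 n0 a n) := by
  refine ⟨PowerSeries.C (τ (Nat.gcd a0 a)) * mf L a n,
    (DenRing L (Kn s0)).mul_mem (C_mem _) (mfK L hn hA), 0, (DenRing L (Kn s0)).zero_mem, ?_,
    fun h => absurd h hA1, ?_⟩
  · intro _ ν hν
    rw [← hμ.unique hν, h1, h2]
  · rw [pt_left τ ha0, zero_mul, sub_zero, sub_self]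
    exact (DenRing L (Kn s0)).zero_mem

theorem goodA_leaf' (s0 : ℂ) (g : MP) (a0 n0 a1 n1 a n : ℕ) (hn : 1 ≤ n) (ha1 : 1 ≤ a1)
    (hA1 : (n1 : ℂ) + a1 * s0 = 0) (hA0 : (n0 : ℂ) + a0 * s0 ≠ 0)
    (hA : (n : ℂ) + a * s0 ≠ 0) (μ : ℕ) (hμ : Ord1 (fun _ : Unit => g) μ) (h1 : a0 + μ = a)
    (h2 : n0 = n) :
    GoodA L τ s0 g a0 n0 a1 n1 (pt L τ a n a1 n1) := by
  refine ⟨0, (DenRing L (Kn s0)).zero_mem, PowerSeries.C (τ (Nat.gcd a1 a)) * mf L a n,
    (DenRing L (Kn s0)).mul_mem (C_mem _) (mfK L hn hA), fun h => absurd h hA0, ?_, ?_⟩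
  · intro _ ν hν
    rw [← hμ.unique hν, h1, h2]
  · rw [pt_right τ ha1, zero_mul, sub_zero, sub_self]
    exact (DenRing L (Kn s0)).zero_mem

theorem goodA_reg (s0 : ℂ) (g : MP) (a0 n0 a1 n1 : ℕ) (Z : PowerSeries M)
    (hA0 : (n0 : ℂ) + a0 * s0 ≠ 0) (hA1 : (n1 : ℂ) + a1 * s0 ≠ 0) (hZ : Z ∈ DenRing L (Kn s0)) :
    GoodA L τ s0 g a0 n0 a1 n1 Z := by
  refine ⟨0, (DenRing L (Kn s0)).zero_mem, 0, (DenRing L (Kn s0)).zero_mem,
    fun h => absurd h hA0, fun h => absurd h hA1, ?_⟩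
  rw [zero_mul, zero_mul, sub_zero, sub_zero]
  exact hZ

end Leaves

/-- **The poles of the contribution of a point with angular component `1`.** -/
theorem ang_main {M : Type} [CommRing M] (L : Mˣ) (τ : ℕ → M) (f : MP) (b : ℂ[X]) (H : MP)
    (hb : IsLocEq H (fun _ : Unit => f) b) (s0 : ℂ)
    (hs0 : b.eval s0 ≠ 0) {g : MP} {a0 n0 a1 n1 : ℕ} {Z : PowerSeries M}
    (hZ : AngLocal L τ g a0 n0 a1 n1 Z) :
    InvL H (fun _ : Unit => f) s0 (fun _ : Unit => g) a0 n0 a1 n1 →
      GoodA L τ s0 g a0 n0 a1 n1 Z := by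
  classical
  induction hZ with
  | unit g a0 n0 a1 n1 ha hj =>
    intro inv
    have ho0 : Ord0 (fun _ : Unit => g) 0 := ⟨fun i k hk => absurd hk (Nat.not_lt_zero k),
      ⟨(), by rw [coeff_res0]; exact hj⟩⟩
    have ho1 : Ord1 (fun _ : Unit => g) 0 := ⟨fun i k hk => absurd hk (Nat.not_lt_zero k),
      ⟨(), by rw [coeff_res1]; exact hj⟩⟩
    by_cases hA0 : (n0 : ℂ) + a0 * s0 = 0
    · have hA1 : (n1 : ℂ) + a1 * s0 ≠ 0 := by
        have := inv.hH0 hA0 0 ho0
        rw [add_zero] at this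
        intro h
        apply this
        rw [← h]
        ring
      exact goodA_leaf L τ s0 g a0 n0 a1 n1 a1 n1 inv.hn1
        (Nat.one_le_iff_ne_zero.2 (a_ne_zero inv.hz0 hA0)) hA0 hA1 hA1 0 ho0 rfl rfl
    · by_cases hA1 : (n1 : ℂ) + a1 * s0 = 0
      · exact goodA_leaf' L τ s0 g a0 n0 a1 n1 a0 n0 inv.hn0
          (Nat.one_le_iff_ne_zero.2 (a_ne_zero inv.hz1 hA1)) hA1 hA0 hA0 0 ho1 rfl rfl
      · exact goodA_reg L τ s0 g a0 n0 a1 n1 _ hA0 hA1
          (pt_mem τ inv.hn0 inv.hn1 (fun _ => hA0) (fun _ => hA1))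
  | curveV g a0 n0 m hm h k hg h0 h1 hj =>
    intro inv
    have hA1 : ((1 : ℕ) : ℂ) + ((0 : ℕ) : ℂ) * s0 ≠ 0 := by simp
    have hm1 : ((1 : ℕ) : ℂ) + (m : ℂ) * s0 ≠ 0 := by
      intro h2
      apply hs0
      have hmc : (m : ℂ) ≠ 0 := Nat.cast_ne_zero.2 (by omega)
      have h3 : s0 = -1 / (m : ℂ) := by
        rw [eq_div_iff hmc]
        push_cast at h2
        linear_combination h2
      rw [h3]
      obtain ⟨ξ, W, W', hW, hW', hf, hJ, hHc⟩ := inv.geom
      refine node_curveVL (fun _ : Unit => f) b H hb ξ hHc W W' hW hW' a0 n0 m (by omega) h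
        (fun _ => k) ?_ ?_ h0 h1 () hj
      · intro i
        rw [hf i, pow_zero, mul_one]
        simp only
        rw [hg]
      · rw [hJ, Nat.sub_self, pow_zero, mul_one]
    have ho := ord0_curve (fun _ : Unit => g) m h (fun _ => k) (fun _ => hg) h0 h1 () hj
    by_cases hA0 : (n0 : ℂ) + a0 * s0 = 0
    · exact goodA_leaf L τ s0 g a0 n0 0 1 m 1 le_rfl
        (Nat.one_le_iff_ne_zero.2 (a_ne_zero inv.hz0 hA0)) hA0 hA1 hm1 m ho (zero_add m) rfl
    · exact goodA_reg L τ s0 g a0 n0 0 1 _ hA0 hA1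
        (pt_mem τ inv.hn0 le_rfl (fun _ => hA0) (fun _ => hm1))
  | curveU g a1 n1 m hm h k hg h0 h1 hj =>
    intro inv
    have hA0 : ((1 : ℕ) : ℂ) + ((0 : ℕ) : ℂ) * s0 ≠ 0 := by simp
    have hm1 : ((1 : ℕ) : ℂ) + (m : ℂ) * s0 ≠ 0 := by
      intro h2
      apply hs0
      have hmc : (m : ℂ) ≠ 0 := Nat.cast_ne_zero.2 (by omega)
      have h3 : s0 = -1 / (m : ℂ) := by
        rw [eq_div_iff hmc]
        push_cast at h2
        linear_combination h2
      rw [h3]
      obtain ⟨ξ, W, W', hW, hW', hf, hJ, hHc⟩ := inv.geom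
      refine node_curveUL (fun _ : Unit => f) b H hb ξ hHc W W' hW hW' a1 n1 m (by omega) h
        (fun _ => k) ?_ ?_ h0 h1 () hj
      · intro i
        rw [hf i, pow_zero, one_mul]
        simp only
        rw [hg]
      · rw [hJ, Nat.sub_self, pow_zero, one_mul]
    have ho := ord1_curve (fun _ : Unit => g) m h (fun _ => k) (fun _ => hg) h0 h1 () hj
    by_cases hA1 : (n1 : ℂ) + a1 * s0 = 0
    · exact goodA_leaf' L τ s0 g 0 1 a1 n1 m 1 le_rfl
        (Nat.one_le_iff_ne_zero.2 (a_ne_zero inv.hz1 hA1)) hA1 hA0 hm1 m ho (zero_add m) rfl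
    · exact goodA_reg L τ s0 g 0 1 a1 n1 _ hA0 hA1
        (pt_mem τ le_rfl inv.hn1 (fun _ => hm1) (fun _ => hA1))
  | blowup g a0 n0 a1 n1 m hm gc gI hgc hgI S h0S lc hlc e he W hW Zc ZI h0 hc hI ih0 ihc ihI =>
    intro inv
    have hn0 := inv.hn0
    have hn1 := inv.hn1
    -- the restriction to the exceptional curve
    have hPe : res0 (gc 0) = C lc * ∏ c ∈ S, (X - C c) ^ e c := res0_prod (gc 0) S lc e he
    have hP0 : res0 (gc 0) ≠ 0 := by rw [hPe]; exact prod_ne S lc hlc e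
    have hPd : (res0 (gc 0)).natDegree = ∑ c ∈ S, e c := by
      rw [hPe]; exact natDegree_prod' S lc hlc e
    have hPr : ∀ c ∈ S, (res0 (gc 0)).rootMultiplicity c = e c := by
      intro c hcS
      rw [hPe]; exact rootMult_prod S lc hlc e c hcS
    have hresc : ∀ c, res0 (gc c) = (res0 (gc 0)).comp (X + C c) := fun c =>
      res0_chart g (gc 0) (gc c) m c (hgc 0) (hgc c)
    have hS : ∀ c ∉ S, ∃ j : Unit, MvPolynomial.constantCoeff (gc c) ≠ 0 := by
      intro c hcS
      refine ⟨(), ?_⟩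
      rw [← coeff_res0, hresc, coeff_zero_eq_eval_zero, eval_comp, eval_add, eval_X, eval_C,
        zero_add, hPe, eval_mul, eval_C, eval_prod]
      refine mul_ne_zero hlc (Finset.prod_ne_zero_iff.2 fun c' hc' => ?_)
      rw [eval_pow, eval_sub, eval_X, eval_C]
      exact pow_ne_zero _ (sub_ne_zero.2 fun h => hcS (h ▸ hc'))
    have hmult : IsMult (fun _ : Unit => g) m := ⟨⟨fun _ => gc 0, fun _ => hgc 0⟩,
      ⟨fun _ => gI, fun _ => hgI⟩⟩
    have hJ1 := inv.hJ1 m hmult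
    have hdeg := coeff_resI g (gc 0) gI m (hgc 0) hgI
    have hPc : ∀ c, res0 (gc c) ≠ 0 ∧ (res0 (gc c)).natDegree ≤ m := by
      intro c
      have h1 : (X + C c : ℂ[X]).natDegree = 1 := natDegree_X_add_C c
      constructor
      · intro h
        have h2 := ord_comp (res0 (gc 0)) hP0 c
        rw [hresc] at h
        rw [h, coeff_zero] at h2
        exact h2.2 rfl
      · rw [hresc, natDegree_comp, h1, mul_one]
        exact hdeg.1
    have hPI : res1 gI ≠ 0 := by
      intro h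
      have h2 := hdeg.2.2 (m - (res0 (gc 0)).natDegree) (by omega)
      rw [h, coeff_zero] at h2
      have h3 : m - (m - (res0 (gc 0)).natDegree) = (res0 (gc 0)).natDegree := by
        have := hdeg.1
        omega
      rw [h3] at h2
      exact hP0 (leadingCoeff_eq_zero.1 h2.symm)
    have hmc : ∀ c m', IsMult (fun _ : Unit => gc c) m' → m' ≤ m := by
      intro c m' hm'
      obtain ⟨g', hg'⟩ := hm'.2
      exact le_of_dvd (hPc c).1 (hPc c).2 (res0_of_chartI (hg' ()))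
    have hmI : ∀ m', IsMult (fun _ : Unit => gI) m' → m' ≤ m := by
      intro m' hm'
      obtain ⟨g', hg'⟩ := hm'.1
      exact le_of_dvd hPI hdeg.2.1 (res1_of_chart0 (hg' ()))
    have hresI : ∀ j : Unit, res0 ((fun _ : Unit => g) j) = X ^ m * res0 ((fun _ : Unit => gI) j) :=
      fun j => res0_of_chartI hgI
    have hres0 : ∀ j : Unit, res1 ((fun _ : Unit => g) j)
        = X ^ m * res1 ((fun _ : Unit => gc 0) j) := fun j => res1_of_chart0 (hgc 0)
    -- the orders
    have hord : ∀ c ∈ S, Ord0 (fun _ : Unit => gc c) (e c) := by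
      intro c hcS
      have h1 := ord_comp (res0 (gc 0)) hP0 c
      rw [hPr c hcS] at h1
      constructor
      · intro j k hk
        simp only
        rw [hresc]
        exact h1.1 k hk
      · refine ⟨(), ?_⟩
        simp only
        rw [hresc]
        exact h1.2
    have hordI : Ord1 (fun _ : Unit => gI) (m - ∑ c ∈ S, e c) := by
      rw [← hPd]
      constructor
      · intro j k hk
        simp only
        rw [hdeg.2.2 k (by omega), coeff_eq_zero_of_natDegree_lt (by omega)]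
      · refine ⟨(), ?_⟩
        simp only
        rw [hdeg.2.2 _ (by omega)]
        have h3 : m - (m - (res0 (gc 0)).natDegree) = (res0 (gc 0)).natDegree := by
          have := hdeg.1
          omega
        rw [h3]
        exact leadingCoeff_ne_zero.2 hP0
    -- the analysis of the new exceptional curve
    have han := fun hA => blow_analysisM (fun _ : Unit => f) b H hb (fun _ : Unit => g) a0 n0 a1 n1
      hn0 hn1 inv.geom m hm (fun c _ => gc c) (fun _ => gI) (fun c _ => hgc c) (fun _ => hgI) S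
      h0S hS hJ1 inv.hJ2 inv.hJ2' inv.hz0 inv.hz1 s0 hs0 hA
    have haz : a0 + a1 + m = 0 → n0 + n1 = 1 := by omega
    -- the invariants of the children
    have inv0 : InvL H (fun _ : Unit => f) s0 (fun _ : Unit => gc 0) (a0 + a1 + m) (n0 + n1) a1 n1 :=
      { geom := geom_chart0L H (fun _ : Unit => f) (fun _ : Unit => g) (fun _ : Unit => gc 0)
          a0 n0 a1 n1 hn0 hn1 inv.geom m (fun _ => hgc 0)
        hn0 := by omega
        hn1 := hn1
        hz0 := haz
        hz1 := inv.hz1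
        hJ1 := fun m' hm' => ⟨arith3 a0 n0 a1 n1 m m' hn0 hn1 (hmc 0 m' hm') hJ1.1 hJ1.2,
          (Nat.mul_le_mul_left _ (hmc 0 m' hm')).trans hJ1.2⟩
        hJ2 := fun _ => arith1 a0 n0 a1 n1 m hn0 hn1 hm inv.hz0 inv.hJ2
        hJ2' := fun ha1 => arith2 a0 n0 a1 n1 m hn0 hn1 ha1 hJ1.2 inv.hJ2'
        hH0 := by
          intro hA μ' hμ'
          obtain ⟨μ, μI, hμ, hμI, h2, h3, h4, h5⟩ := han hA
          rwa [← (hμ 0).unique hμ']
        hH1 := by
          intro hA1 μ' hμ'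
          have h2 := inv.hH1 hA1 (m + μ') (hμ'.shift hres0)
          intro h3
          apply h2
          push_cast at h3 ⊢
          linear_combination h3 - hA1 }
    have invc : ∀ c, c ≠ 0 → InvL H (fun _ : Unit => f) s0 (fun _ : Unit => gc c)
        (a0 + a1 + m) (n0 + n1) 0 1 := fun c hc0 =>
      { geom := geom_chartL H (fun _ : Unit => f) (fun _ : Unit => g) (fun _ : Unit => gc c)
          a0 n0 a1 n1 hn0 hn1 inv.geom m c hc0 (fun _ => hgc c)
        hn0 := by omega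
        hn1 := le_rfl
        hz0 := haz
        hz1 := fun _ => rfl
        hJ1 := fun m' hm' => ⟨arith3 a0 n0 a1 n1 m m' hn0 hn1 (hmc c m' hm') hJ1.1 hJ1.2,
          by simp⟩
        hJ2 := fun h => by rw [mul_zero, mul_one]; exact h
        hJ2' := fun h => absurd h (lt_irrefl 0)
        hH0 := by
          intro hA μ' hμ'
          obtain ⟨μ, μI, hμ, hμI, h2, h3, h4, h5⟩ := han hA
          have h6 := h4 c hc0
          rw [(hμ c).unique hμ'] at h6
          rw [zero_add]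
          push_cast
          exact h6
        hH1 := by
          intro hA1
          simp at hA1 }
    have invI : InvL H (fun _ : Unit => f) s0 (fun _ : Unit => gI) a0 n0 (a0 + a1 + m) (n0 + n1) :=
      { geom := geom_chartIL H (fun _ : Unit => f) (fun _ : Unit => g) (fun _ : Unit => gI)
          a0 n0 a1 n1 hn0 hn1 inv.geom m (fun _ => hgI)
        hn0 := hn0
        hn1 := by omega
        hz0 := inv.hz0
        hz1 := haz
        hJ1 := fun m' hm' => ⟨(Nat.mul_le_mul_left _ (hmI m' hm')).trans hJ1.1,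
          arith3 a0 n0 a1 n1 m m' hn0 hn1 (hmI m' hm') hJ1.1 hJ1.2⟩
        hJ2 := fun ha0 => by
          have := arith2 a1 n1 a0 n0 m hn1 hn0 ha0 hJ1.1 inv.hJ2
          rwa [add_comm a1 a0, add_comm n1 n0] at this
        hJ2' := fun _ => by
          have := arith1 a1 n1 a0 n0 m hn1 hn0 hm inv.hz1 inv.hJ2'
          rwa [add_comm a1 a0, add_comm n1 n0] at this
        hH0 := by
          intro hA0 μ' hμ'
          have h2 := inv.hH0 hA0 (m + μ') (hμ'.shift hresI)
          intro h3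
          apply h2
          push_cast at h3 ⊢
          linear_combination h3 - hA0
        hH1 := by
          intro hA μ' hμ'
          obtain ⟨μ, μI, hμ, hμI, h2, h3, h4, h5⟩ := han hA
          rwa [← hμI.unique hμ'] }
    obtain ⟨c00, m00, c01, m01, h00, h01, h02⟩ := ih0 inv0
    obtain ⟨cI0, mI0, cI1, mI1, hI0, hI1, hI2⟩ := ihI invI
    have hcc : ∀ c ∈ S.erase 0, ∃ κ : PowerSeries M, κ ∈ DenRing L (Kn s0) ∧
        (((n0 + n1 : ℕ) : ℂ) + ((a0 + a1 + m : ℕ) : ℂ) * s0 = 0 →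
          ∀ μ, Ord0 (fun _ : Unit => gc c) μ →
          κ = PowerSeries.C (τ (Nat.gcd (a0 + a1 + m) μ)) * mf L μ 1) ∧
        Zc c - κ * ff L (a0 + a1 + m) (n0 + n1) ∈ DenRing L (Kn s0) := by
      intro c hcS
      rw [Finset.mem_erase] at hcS
      obtain ⟨κ, mκ, κ', mκ', h2, h3, h4⟩ := ihc c hcS.2 hcS.1 (invc c hcS.1)
      refine ⟨κ, mκ, ?_, ?_⟩
      · intro hA μ hμ
        have h5 := h2 hA μ hμ
        rw [zero_add] at h5
        exact h5
      · rw [ff_zero, mul_zero, sub_zero] at h4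
        exact h4
    choose! κ hκ0 hκ1 hκ2 using hcc
    set facE := ff L (a0 + a1 + m) (n0 + n1) with hfacE
    set β : PowerSeries M := cI1 + c00 + ∑ c ∈ S.erase 0, κ c + PowerSeries.C W with hβ
    have hβE : β * facE ∈ DenRing L (Kn s0) := by
      by_cases hA : ((n0 + n1 : ℕ) : ℂ) + ((a0 + a1 + m : ℕ) : ℂ) * s0 = 0
      · obtain ⟨μ, μI, hμ, hμI, h2, h3, h4, u1, k1, u2, k2, h5, h6, h7, h8, h9, h10, h11, h12,
          h13⟩ := han hA
        have eμ : ∀ c ∈ S, μ c = e c := fun c hcS => (hμ c).unique (hord c hcS)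
        have eμI : μI = m - ∑ c ∈ S, e c := hμI.unique hordI
        have e2 := hI1 hA μI hμI
        have e3 := h00 hA (μ 0) (hμ 0)
        have e4 : ∀ c ∈ S.erase 0, κ c
            = PowerSeries.C (τ (Nat.gcd (a0 + a1 + m) (e c))) * mf L (e c) 1 := fun c hcS => by
          have := hκ1 c hcS hA (μ c) (hμ c)
          rwa [eμ c (Finset.mem_of_mem_erase hcS)] at this
        rw [eμI] at e2
        rw [eμ 0 h0S] at e3
        have e5 := phi_psi S h0S e (a1 + e 0) (a0 + (m - ∑ c ∈ S, e c)) n0 n1 u1 k1 u2 k2 (by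
          intro R _ Φ ell hΦ
          have h14 := h13 R Φ ell hΦ
          rw [eμI, eμ 0 h0S] at h14
          rw [← h14]
          congr 2
          refine Finset.sum_congr rfl fun c hcS => ?_
          rw [eμ c (Finset.mem_of_mem_erase hcS)])
        have e6 := e5 (PowerSeries M)
          (fun a n => PowerSeries.C (τ (Nat.gcd (a0 + a1 + m) a)) * mf L a n)
        have hr := count_le S h0S e a1 (a0 + (m - ∑ c ∈ S, e c)) n0 n1 u1 k1 u2 k2 e5
        have hG := gcd_eq S h0S e a1 (a0 + (m - ∑ c ∈ S, e c)) n0 n1 u1 k1 u2 k2 e5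
        have hW' := hW hr
        rw [hG] at hW'
        have g1 : Nat.gcd (a0 + a1 + m) u1 = Nat.gcd u1 u2 := by
          rw [← h5, Nat.gcd_comm, Nat.gcd_self_add_right]
        have g2 : Nat.gcd (a0 + a1 + m) u2 = Nat.gcd u1 u2 := by
          rw [← h5, add_comm u1 u2, Nat.gcd_comm, Nat.gcd_self_add_right, Nat.gcd_comm]
        have e7 : β = PowerSeries.C (τ (Nat.gcd u1 u2)) *
            (mf L u1 k1 + mf L u2 k2 + PowerSeries.C ((L : M) - 1)) := by
          simp only [g1, g2, Nat.gcd_zero_right, mf_zero, mul_one] at e6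
          rw [hβ, Finset.sum_congr rfl e4, e2, e3, e6, hW']
          simp only [map_sub, map_mul, map_one, map_natCast]
          ring
        rw [e7, hfacE, mul_assoc]
        refine (DenRing L (Kn s0)).mul_mem (C_mem _)
          (beta_mem' h5 h6 (by omega) h7 h8 h9 h10 ?_ ?_)
        · intro _
          rw [Kn, mul_comm]
          exact h11
        · intro _
          rw [Kn, mul_comm]
          exact h12
      · exact (DenRing L (Kn s0)).mul_mem ((DenRing L (Kn s0)).add_mem ((DenRing L (Kn s0)).add_mem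
          ((DenRing L (Kn s0)).add_mem mI1 m00) (Subring.sum_mem _ hκ0)) (C_mem _))
          (ff_mem (by omega) fun _ => hA)
    have hsum : ∑ c ∈ S.erase 0, (Zc c - κ c * facE) ∈ DenRing L (Kn s0) :=
      Subring.sum_mem _ fun c hcS => hκ2 c hcS
    rw [Finset.sum_sub_distrib, ← Finset.sum_mul] at hsum
    have hfin := (DenRing L (Kn s0)).add_mem ((DenRing L (Kn s0)).add_mem
      ((DenRing L (Kn s0)).add_mem h02 hI2) hsum) hβE
    have heq : ZI + ∑ c ∈ S, Zc c + PowerSeries.C W * facE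
          - cI0 * ff L a0 n0 - c01 * ff L a1 n1
        = Zc 0 - c00 * facE - c01 * ff L a1 n1
          + (ZI - cI0 * ff L a0 n0 - cI1 * facE)
          + (∑ c ∈ S.erase 0, Zc c - (∑ c ∈ S.erase 0, κ c) * facE)
          + β * facE := by
      rw [← Finset.add_sum_erase S Zc h0S, hβ]
      ring
    rw [← heq] at hfin
    -- the correction terms
    have hcor0 : ∃ c0 ∈ DenRing L (Kn s0),
        ((n0 : ℂ) + a0 * s0 = 0 → ∀ μ, Ord0 (fun _ : Unit => g) μ →
          c0 = PowerSeries.C (τ (Nat.gcd a0 (a1 + μ))) * mf L (a1 + μ) n1) ∧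
        (cI0 - c0) * ff L a0 n0 ∈ DenRing L (Kn s0) := by
      by_cases hc : (n0 : ℂ) + a0 * s0 = 0 ∧ ∃ μ, Ord0 (fun _ : Unit => g) μ
      · obtain ⟨hA0, μ, hμ⟩ := hc
        have hnz := inv.hH0 hA0 μ hμ
        obtain ⟨ν, rfl, hν⟩ := hμ.unshift hresI
        have h2 := hI0 hA0 ν hν
        have ha0 : 1 ≤ a0 := Nat.one_le_iff_ne_zero.2 (a_ne_zero inv.hz0 hA0)
        have hK1 : Kn s0 (a1 + (m + ν)) n1 := by
          rw [Kn, mul_comm]
          exact hnz
        have hK2 : Kn s0 (a0 + (a1 + (m + ν))) (n0 + n1) := by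
          rw [Kn]
          intro h3
          apply hnz
          push_cast at h3 ⊢
          linear_combination h3 - hA0
        refine ⟨PowerSeries.C (τ (Nat.gcd a0 (a1 + (m + ν)))) * mf L (a1 + (m + ν)) n1,
          (DenRing L (Kn s0)).mul_mem (C_mem _) (mf_mem hn1 fun _ => hK1), ?_, ?_⟩
        · intro _ μ' hμ'
          rw [← hμ.unique hμ']
        · rw [h2, show a0 + a1 + m + ν = a0 + (a1 + (m + ν)) by omega, Nat.gcd_self_add_right,
            ← mul_sub, mul_assoc]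
          exact (DenRing L (Kn s0)).mul_mem (C_mem _)
            (pass_mem' ha0 (by omega) hn0 hn1 hK1 hK2)
      · refine ⟨cI0, mI0, ?_, ?_⟩
        · intro h1 μ hμ
          exact absurd ⟨h1, μ, hμ⟩ hc
        · rw [sub_self, zero_mul]
          exact (DenRing L (Kn s0)).zero_mem
    have hcor1 : ∃ c1 ∈ DenRing L (Kn s0),
        ((n1 : ℂ) + a1 * s0 = 0 → ∀ μ, Ord1 (fun _ : Unit => g) μ →
          c1 = PowerSeries.C (τ (Nat.gcd a1 (a0 + μ))) * mf L (a0 + μ) n0) ∧
        (c01 - c1) * ff L a1 n1 ∈ DenRing L (Kn s0) := by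
      by_cases hc : (n1 : ℂ) + a1 * s0 = 0 ∧ ∃ μ, Ord1 (fun _ : Unit => g) μ
      · obtain ⟨hA1, μ, hμ⟩ := hc
        have hnz := inv.hH1 hA1 μ hμ
        obtain ⟨ν, rfl, hν⟩ := hμ.unshift hres0
        have h2 := h01 hA1 ν hν
        have ha1 : 1 ≤ a1 := Nat.one_le_iff_ne_zero.2 (a_ne_zero inv.hz1 hA1)
        have hK1 : Kn s0 (a0 + (m + ν)) n0 := by
          rw [Kn, mul_comm]
          exact hnz
        have hK2 : Kn s0 (a1 + (a0 + (m + ν))) (n1 + n0) := by
          rw [Kn]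
          intro h3
          apply hnz
          push_cast at h3 ⊢
          linear_combination h3 - hA1
        refine ⟨PowerSeries.C (τ (Nat.gcd a1 (a0 + (m + ν)))) * mf L (a0 + (m + ν)) n0,
          (DenRing L (Kn s0)).mul_mem (C_mem _) (mf_mem hn0 fun _ => hK1), ?_, ?_⟩
        · intro _ μ' hμ'
          rw [← hμ.unique hμ']
        · rw [h2, show a0 + a1 + m + ν = a1 + (a0 + (m + ν)) by omega, add_comm n0 n1,
            Nat.gcd_self_add_right, ← mul_sub, mul_assoc]
          exact (DenRing L (Kn s0)).mul_mem (C_mem _)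
            (pass_mem' ha1 (by omega) hn1 hn0 hK1 hK2)
      · refine ⟨c01, m01, ?_, ?_⟩
        · intro h1 μ hμ
          exact absurd ⟨h1, μ, hμ⟩ hc
        · rw [sub_self, zero_mul]
          exact (DenRing L (Kn s0)).zero_mem
    obtain ⟨c0, mc0, hc0, hc0'⟩ := hcor0
    obtain ⟨c1, mc1, hc1', hc1''⟩ := hcor1
    refine ⟨c0, mc0, c1, mc1, hc0, hc1', ?_⟩
    have := (DenRing L (Kn s0)).add_mem ((DenRing L (Kn s0)).add_mem hfin hc0') hc1''
    convert this using 1
    ring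

end Pool.Agent.U184
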