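import Pool.Agent.W574.MO.Ufd

set_option autoImplicit false
set_option linter.unusedSectionVars false
set_option linter.unusedVariables false

/-! # Denominators over a unique factorization domain -/

namespace Pool.Agent.U184.Uf

open Polynomial Pool.Agent.W574.MO

variable {A : Type} [CommRing A] [IsDomain A] [UniqueFactorizationMonoid A] (U : Aˣ)

/-- `1 - L⁻ⁿ Tᵃ` as a polynomial -/
noncomputable def dn (p : ℕ × ℕ) : A[X] := 1 - C ((U⁻¹ ^ p.2 : Aˣ) : A) * X ^ p.1

/-- a product of denominators -/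
noncomputable def dprod (s : Multiset (ℕ × ℕ)) : A[X] := (s.map (dn U)).prod

variable {U}

theorem coe_dn (p : ℕ × ℕ) : ((dn U p : A[X]) : PowerSeries A) = 1 - qq U p.1 p.2 := by
  rw [dn, qq]
  simp

theorem dn_ne_zero (p : ℕ × ℕ) (h : 1 ≤ p.1) : dn U p ≠ 0 := by
  intro h0
  have := congrArg (fun q : A[X] => q.coeff 0) h0
  simp only [dn, coeff_sub, coeff_one_zero, coeff_C_mul, coeff_X_pow, coeff_zero] at this
  rw [if_neg (by omega), mul_zero, sub_zero] at this
  exact one_ne_zero this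

theorem dvd_const (d : A[X]) (p p' : ℕ × ℕ) (h1 : d ∣ dn U p) (h2 : d ∣ dn U p') :
    d ∣ C (((U ^ (p.2 * p'.1) : Aˣ) : A) - ((U ^ (p'.2 * p.1) : Aˣ) : A)) := by
  have e1 : ∀ (p : ℕ × ℕ) (k : ℕ), dn U p ∣ 1 - C ((U⁻¹ ^ (p.2 * k) : Aˣ) : A) *
      X ^ (p.1 * k) := by
    intro p k
    have := sub_dvd_pow_sub_pow (1 : A[X]) (C ((U⁻¹ ^ p.2 : Aˣ) : A) * X ^ p.1) k
    rw [one_pow, mul_pow, ← map_pow, ← Units.val_pow_eq_pow_val, ← pow_mul, ← pow_mul] at this
    exact this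
  have h3 := h1.trans (e1 p p'.1)
  have h4 := h2.trans (e1 p' p.1)
  have h5 := dvd_sub (h3.mul_left (C ((U ^ (p.2 * p'.1) : Aˣ) : A)))
    (h4.mul_left (C ((U ^ (p'.2 * p.1) : Aˣ) : A)))
  have e2 : ∀ k : ℕ, (C ((U ^ k : Aˣ) : A) : A[X]) * C ((U⁻¹ ^ k : Aˣ) : A) = 1 := by
    intro k
    rw [← map_mul, ← Units.val_mul, inv_pow, mul_inv_cancel, Units.val_one, map_one]
  have e3 : (C ((U ^ (p.2 * p'.1) : Aˣ) : A) : A[X]) *
      (1 - C ((U⁻¹ ^ (p.2 * p'.1) : Aˣ) : A) * X ^ (p.1 * p'.1)) -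
      C ((U ^ (p'.2 * p.1) : Aˣ) : A) *
      (1 - C ((U⁻¹ ^ (p'.2 * p.1) : Aˣ) : A) * X ^ (p'.1 * p.1))
      = C (((U ^ (p.2 * p'.1) : Aˣ) : A) - ((U ^ (p'.2 * p.1) : Aˣ) : A)) := by
    rw [map_sub]
    have f1 := e2 (p.2 * p'.1)
    have f2 := e2 (p'.2 * p.1)
    rw [mul_comm p'.1 p.1]
    linear_combination (-(X ^ (p.1 * p'.1)) : A[X]) * f1 + (X ^ (p.1 * p'.1) : A[X]) * f2
  rw [← e3]
  exact h5

theorem relPrime (hU : ∀ k l : ℕ, k ≠ l → ((U ^ k : Aˣ) : A) - ((U ^ l : Aˣ) : A) ≠ 0)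
    (p p' : ℕ × ℕ) (hp : 1 ≤ p.1) (h : p.2 * p'.1 ≠ p'.2 * p.1) :
    IsRelPrime (dn U p) (dn U p') := by
  intro d h1 h2
  obtain ⟨g, hg⟩ := dvd_const d p p' h1 h2
  have hne : (C (((U ^ (p.2 * p'.1) : Aˣ) : A) - ((U ^ (p'.2 * p.1) : Aˣ) : A)) : A[X])
      ≠ 0 := C_ne_zero.2 (hU _ _ h)
  have hd : d ≠ 0 := by
    rintro rfl
    rw [zero_mul] at hg
    exact hne hg
  have hg0 : g ≠ 0 := by
    rintro rfl
    rw [mul_zero] at hg
    exact hne hg
  have hdeg := natDegree_mul hd hg0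
  rw [← hg, natDegree_C] at hdeg
  have hd0 : d.natDegree = 0 := by omega
  obtain ⟨e, rfl⟩ := natDegree_eq_zero.1 hd0
  obtain ⟨k, hk⟩ := h1
  have h3 := congrArg (fun q : A[X] => q.coeff 0) hk
  simp only [dn, coeff_sub, coeff_one_zero, coeff_C_mul, coeff_X_pow] at h3
  rw [if_neg (by omega), mul_zero, sub_zero] at h3
  exact (IsUnit.of_mul_eq_one _ h3.symm).map C

theorem dprod_add (s t : Multiset (ℕ × ℕ)) : dprod U (s + t) = dprod U s * dprod U t := by
  rw [dprod, Multiset.map_add, Multiset.prod_add]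
  rfl

theorem dprod_ne_zero (s : Multiset (ℕ × ℕ)) (hs : ∀ p ∈ s, 1 ≤ p.1) : dprod U s ≠ 0 := by
  rw [dprod, Ne, Multiset.prod_eq_zero_iff, Multiset.mem_map]
  rintro ⟨p, hp, h0⟩
  exact dn_ne_zero p (hs p hp) h0

theorem relPrime_dprod (hU : ∀ k l : ℕ, k ≠ l → ((U ^ k : Aˣ) : A) - ((U ^ l : Aˣ) : A) ≠ 0)
    (s t : Multiset (ℕ × ℕ)) (hs : ∀ p ∈ s, 1 ≤ p.1)
    (h : ∀ p ∈ s, ∀ p' ∈ t, p.2 * p'.1 ≠ p'.2 * p.1) : IsRelPrime (dprod U s) (dprod U t) := by
  induction s using Multiset.induction_on with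
  | empty =>
    rw [dprod, Multiset.map_zero, Multiset.prod_zero]
    exact isRelPrime_one_left
  | cons p s ih =>
    have h1 : dprod U (p ::ₘ s) = dn U p * dprod U s := by
      rw [dprod, Multiset.map_cons, Multiset.prod_cons]
      rfl
    rw [h1]
    refine IsRelPrime.mul_left ?_ (ih (fun q hq => hs q (Multiset.mem_cons_of_mem hq))
      (fun q hq => h q (Multiset.mem_cons_of_mem hq)))
    have h2 := h p (Multiset.mem_cons_self p s)
    have h3 := hs p (Multiset.mem_cons_self p s)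
    clear ih h hs h1
    induction t using Multiset.induction_on with
    | empty =>
      rw [dprod, Multiset.map_zero, Multiset.prod_zero]
      exact isRelPrime_one_right
    | cons q t ih =>
      have h1 : dprod U (q ::ₘ t) = dn U q * dprod U t := by
        rw [dprod, Multiset.map_cons, Multiset.prod_cons]
        rfl
      rw [h1]
      exact IsRelPrime.mul_right (relPrime hU p q h3 (h2 q (Multiset.mem_cons_self q t)))
        (ih fun q' hq' => h2 q' (Multiset.mem_cons_of_mem hq'))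

variable {K : ℕ → ℕ → Prop}

/-- the condition on the denominators -/
def Ok (K : ℕ → ℕ → Prop) (s : Multiset (ℕ × ℕ)) : Prop :=
  ∀ p ∈ s, 1 ≤ p.1 ∧ 1 ≤ p.2 ∧ K p.1 p.2

theorem exists_denom {Z : PowerSeries A} (hZ : Z ∈ DenRing U K) :
    ∃ s : Multiset (ℕ × ℕ), Ok K s ∧ ∃ P : A[X], (dprod U s : PowerSeries A) * Z = P := by
  induction hZ using Subring.closure_induction with
  | mem x hx =>
    rcases hx with ⟨P, rfl⟩ | ⟨a, n, ha, hn, hK, h⟩
    · exact ⟨0, fun p hp => absurd hp (Multiset.notMem_zero p), P, by simp [dprod]⟩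
    · refine ⟨{(a, n)}, ?_, 1, ?_⟩
      · intro p hp
        rw [Multiset.mem_singleton] at hp
        subst hp
        exact ⟨ha, hn, hK⟩
      · rw [dprod, Multiset.map_singleton, Multiset.prod_singleton, coe_dn, mul_comm,
          Polynomial.coe_one]
        exact h
  | zero => exact ⟨0, fun p hp => absurd hp (Multiset.notMem_zero p), 0, by simp⟩
  | one => exact ⟨0, fun p hp => absurd hp (Multiset.notMem_zero p), 1, by simp [dprod]⟩
  | add x y _ _ hx hy =>
    obtain ⟨s, hs, P, hP⟩ := hx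
    obtain ⟨t, ht, Q, hQ⟩ := hy
    refine ⟨s + t, ?_, dprod U t * P + dprod U s * Q, ?_⟩
    · intro p hp
      rcases Multiset.mem_add.1 hp with h | h
      · exact hs p h
      · exact ht p h
    · rw [dprod_add, Polynomial.coe_mul, Polynomial.coe_add, Polynomial.coe_mul,
        Polynomial.coe_mul, ← hP, ← hQ]
      ring
  | neg x _ hx =>
    obtain ⟨s, hs, P, hP⟩ := hx
    refine ⟨s, hs, -P, ?_⟩
    rw [Polynomial.coe_neg, ← hP]
    ring
  | mul x y _ _ hx hy =>
    obtain ⟨s, hs, P, hP⟩ := hx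
    obtain ⟨t, ht, Q, hQ⟩ := hy
    refine ⟨s + t, ?_, P * Q, ?_⟩
    · intro p hp
      rcases Multiset.mem_add.1 hp with h | h
      · exact hs p h
      · exact ht p h
    · rw [dprod_add, Polynomial.coe_mul, Polynomial.coe_mul, ← hP, ← hQ]
      ring

theorem mem_of_denom {Z : PowerSeries A} (s : Multiset (ℕ × ℕ)) (hs : Ok K s) (P : A[X])
    (h : (dprod U s : PowerSeries A) * Z = P) : Z ∈ DenRing U K := by
  induction s using Multiset.induction_on generalizing Z P with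
  | empty =>
    rw [dprod, Multiset.map_zero, Multiset.prod_zero, Polynomial.coe_one, one_mul] at h
    rw [h]
    exact Subring.subset_closure (Or.inl ⟨P, rfl⟩)
  | cons p s ih =>
    have h1 : dprod U (p ::ₘ s) = dn U p * dprod U s := by
      rw [dprod, Multiset.map_cons, Multiset.prod_cons]
      rfl
    have hp := hs p (Multiset.mem_cons_self p s)
    rw [h1, Polynomial.coe_mul, mul_assoc, mul_comm, mul_assoc] at h
    have h2 := ih (Z := Z * (dn U p : PowerSeries A))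
      (fun q hq => hs q (Multiset.mem_cons_of_mem hq)) P h
    have h3 := (DenRing U K).mul_mem h2 (geo_mem (L := U) hp.1 hp.2.1 hp.2.2)
    rw [coe_dn, mul_assoc, geo_mul U hp.1, mul_one] at h3
    exact h3

/-- **Removal of denominators.** -/
theorem descent (hU : ∀ k l : ℕ, k ≠ l → ((U ^ k : Aˣ) : A) - ((U ^ l : Aˣ) : A) ≠ 0)
    (G : ℕ → ℕ → Prop) (Z : PowerSeries A) (s : Multiset (ℕ × ℕ))
    (hs : ∀ p ∈ s, 1 ≤ p.1 ∧ 1 ≤ p.2)
    (h : ∀ a n : ℕ, 1 ≤ a → 1 ≤ n → ¬ G a n →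
      Z ∈ DenRing U (fun a' n' => n * a' ≠ n' * a)) (P : A[X])
    (hP : (dprod U s : PowerSeries A) * Z = P) : Z ∈ DenRing U G := by
  classical
  by_cases hG : ∀ p ∈ s, G p.1 p.2
  · exact mem_of_denom s (fun p hp => ⟨(hs p hp).1, (hs p hp).2, hG p hp⟩) P hP
  · push Not at hG
    obtain ⟨p, hp, hpG⟩ := hG
    set s1 := s.filter (fun q => p.2 * q.1 = q.2 * p.1) with hs1
    set s2 := s.filter (fun q => ¬ p.2 * q.1 = q.2 * p.1) with hs2
    have hsum : s1 + s2 = s := Multiset.filter_add_not _ _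
    obtain ⟨t, ht, Q, hQ⟩ := exists_denom (h p.1 p.2 (hs p hp).1 (hs p hp).2 hpG)
    have hp1 := (hs p hp).1
    have e1 : dprod U t * P = dprod U s1 * (dprod U s2 * Q) := by
      apply Polynomial.coe_injective
      rw [Polynomial.coe_mul, Polynomial.coe_mul, Polynomial.coe_mul, ← hP, ← hQ, ← hsum,
        dprod_add, Polynomial.coe_mul]
      ring
    have hrel : IsRelPrime (dprod U s1) (dprod U t) := by
      refine relPrime_dprod hU s1 t (fun q hq => (hs q (Multiset.mem_of_mem_filter hq)).1) ?_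
      intro q hq q' hq' heq
      have h1 : p.2 * q.1 = q.2 * p.1 := (Multiset.mem_filter.1 hq).2
      have h2 : p.2 * q'.1 ≠ q'.2 * p.1 := (ht q' hq').2.2
      have hq1 : 1 ≤ q.1 := (hs q (Multiset.mem_of_mem_filter hq)).1
      apply h2
      have h3 : q.1 * (p.2 * q'.1) = q.1 * (q'.2 * p.1) := by
        calc q.1 * (p.2 * q'.1) = (p.2 * q.1) * q'.1 := by ring
          _ = (q.2 * q'.1) * p.1 := by rw [h1]; ring
          _ = q.1 * (q'.2 * p.1) := by rw [heq]; ring
      exact Nat.eq_of_mul_eq_mul_left (by omega) h3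
    obtain ⟨P', hP'⟩ := hrel.dvd_of_dvd_mul_left (Dvd.intro _ e1.symm)
    have hne : (dprod U s1 : PowerSeries A) ≠ 0 := by
      intro h0
      apply dprod_ne_zero (U := U) s1 (fun q hq => (hs q (Multiset.mem_of_mem_filter hq)).1)
      apply Polynomial.coe_injective
      rw [h0, Polynomial.coe_zero]
    have e2 : (dprod U s2 : PowerSeries A) * Z = P' := by
      apply mul_left_cancel₀ hne
      rw [← Polynomial.coe_mul, ← hP', ← hP, ← hsum, dprod_add, Polynomial.coe_mul, mul_assoc]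
    have hcard : s2.card < s.card := by
      rw [← hsum, Multiset.card_add]
      have : 0 < s1.card := Multiset.card_pos.2 fun h0 => by
        have : p ∈ s1 := Multiset.mem_filter.2 ⟨hp, rfl⟩
        rw [h0] at this
        exact absurd this (Multiset.notMem_zero p)
      omega
    exact descent hU G Z s2 (fun q hq => hs q (Multiset.mem_of_mem_filter hq)) h P' e2
termination_by s.card

end Pool.Agent.U184.Uf
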