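import Pool.Agent.U184.Ang3
import Pool.Agent.U184.Uf

set_option autoImplicit false
set_option linter.unusedSectionVars false
set_option linter.unusedVariables false

/-! # The contribution of a point with angular component `1`: removal of all denominators -/

namespace Pool.Agent.U184

open Pool.Agent.W574.MO Pool.Agent.W574.SM Pool.Agent.W574.LM

section Hom

variable {A M : Type} [CommRing A] [CommRing M] (φ : A →+* M) (U : Aˣ) (L : Mˣ)
  (hφ : φ (U : A) = (L : M))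

include hφ in
theorem ph_pow (n : ℕ) : φ ((U⁻¹ ^ n : Aˣ) : A) = ((L⁻¹ ^ n : Mˣ) : M) := by
  have h1 : φ ((U⁻¹ : Aˣ) : A) = ((L⁻¹ : Mˣ) : M) := by
    have h2 : φ (U : A) * φ ((U⁻¹ : Aˣ) : A) = 1 := by
      rw [← map_mul, ← Units.val_mul, mul_inv_cancel, Units.val_one, map_one]
    rw [hφ] at h2
    rw [← Units.inv_mul_cancel_left L (φ ((U⁻¹ : Aˣ) : A)), h2, mul_one]
  rw [Units.val_pow_eq_pow_val, map_pow, h1, Units.val_pow_eq_pow_val]

theorem ph_C (x : A) : PowerSeries.map φ (PowerSeries.C x) = PowerSeries.C (φ x) :=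
  PowerSeries.map_C _ _

include hφ in
theorem ph_qq (a n : ℕ) : PowerSeries.map φ (qq U a n) = qq L a n := by
  rw [qq, qq, map_mul, map_pow, ph_C, ph_pow φ U L hφ, PowerSeries.map_X]

include hφ in
theorem ph_geo {a : ℕ} (ha : 1 ≤ a) (n : ℕ) : PowerSeries.map φ (geo U a n) = geo L a n := by
  have h1 := congrArg (PowerSeries.map φ) (geo_mul U ha n)
  rw [map_mul, map_sub, map_one, ph_qq φ U L hφ] at h1
  have h2 := geo_mul L ha n
  calc PowerSeries.map φ (geo U a n)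
      = (1 - qq L a n) * geo L a n * PowerSeries.map φ (geo U a n) := by rw [h2, one_mul]
    _ = geo L a n * ((1 - qq L a n) * PowerSeries.map φ (geo U a n)) := by ring
    _ = geo L a n := by rw [h1, mul_one]

include hφ in
theorem ph_ff (a n : ℕ) : PowerSeries.map φ (ff U a n) = ff L a n := by
  rcases Nat.eq_zero_or_pos a with h | h
  · rw [h, ff_zero, ff_zero, map_zero]
  · rw [ff_pos h, ff_pos h, map_mul, ph_qq φ U L hφ, ph_geo φ U L hφ h]

include hφ in
theorem ph_pt (τ' : ℕ → A) (τ : ℕ → M) (hτ : ∀ g, φ (τ' g) = τ g) (a0 n0 a1 n1 : ℕ) :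
    PowerSeries.map φ (pt U τ' a0 n0 a1 n1) = pt L τ a0 n0 a1 n1 := by
  rw [pt, pt]
  split_ifs
  · rw [map_mul, ph_C, ph_ff φ U L hφ, hτ]
  · rw [map_mul, ph_C, ph_ff φ U L hφ, hτ]
  · rw [map_mul, map_mul, ph_C, ph_ff φ U L hφ, ph_ff φ U L hφ, map_mul, map_sub, map_one, hφ, hτ]

include hφ in
theorem ph_mem {K : ℕ → ℕ → Prop} {x : PowerSeries A} (hx : x ∈ DenRing U K) :
    PowerSeries.map φ x ∈ DenRing L K := by
  induction hx using Subring.closure_induction with
  | mem x hx =>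
    rcases hx with ⟨P, rfl⟩ | ⟨a, n, ha, hn, hK, h⟩
    · refine Subring.subset_closure (Or.inl ⟨P.map φ, ?_⟩)
      exact Polynomial.polynomial_map_coe
    · refine Subring.subset_closure (Or.inr ⟨a, n, ha, hn, hK, ?_⟩)
      have h1 := congrArg (PowerSeries.map φ) h
      have h2 := ph_qq φ U L hφ a n
      rw [qq, qq] at h2
      rw [map_mul, map_sub, map_one, h2] at h1
      exact h1
  | zero => rw [map_zero]; exact (DenRing L K).zero_mem
  | one => rw [map_one]; exact (DenRing L K).one_mem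
  | add x y _ _ hx hy => rw [map_add]; exact (DenRing L K).add_mem hx hy
  | neg x _ hx => rw [map_neg]; exact (DenRing L K).neg_mem hx
  | mul x y _ _ hx hy => rw [map_mul]; exact (DenRing L K).mul_mem hx hy

include hφ in
theorem ph_W (τ' : ℕ → A) (τ : ℕ → M) (hτ : ∀ g, φ (τ' g) = τ g) (a b k : ℕ) :
    φ (((U : A) - 1) * τ' a - ((k : A) - 1) * τ' b) = ((L : M) - 1) * τ a - ((k : M) - 1) * τ b := by
  rw [map_sub, map_mul, map_mul, map_sub, map_sub, map_one, map_natCast, hφ, hτ, hτ]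

include hφ in
/-- the contribution of a point can be lifted along surjections -/
theorem ang_lift (hs : Function.Surjective φ) (τ' : ℕ → A) (τ : ℕ → M)
    (hτ : ∀ g, φ (τ' g) = τ g) {g : MP} {a0 n0 a1 n1 : ℕ} {Z : PowerSeries M}
    (hZ : AngLocal L τ g a0 n0 a1 n1 Z) :
    ∃ Z0 : PowerSeries A, AngLocal U τ' g a0 n0 a1 n1 Z0 ∧ PowerSeries.map φ Z0 = Z := by
  classical
  have hp := ph_pt φ U L hφ τ' τ hτ
  induction hZ with
  | unit g a0 n0 a1 n1 ha hj =>
    exact ⟨_, AngLocal.unit g a0 n0 a1 n1 ha hj, hp _ _ _ _⟩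
  | curveV g a0 n0 m hm h k hg h0 h1 hj =>
    exact ⟨_, AngLocal.curveV g a0 n0 m hm h k hg h0 h1 hj, hp _ _ _ _⟩
  | curveU g a1 n1 m hm h k hg h0 h1 hj =>
    exact ⟨_, AngLocal.curveU g a1 n1 m hm h k hg h0 h1 hj, hp _ _ _ _⟩
  | blowup g a0 n0 a1 n1 m hm gc gI hgc hgI S h0S lc hlc e he W hW Zc ZI h0 hc hI ih0 ihc ihI =>
    obtain ⟨Y0, hY0, e0⟩ := ih0
    obtain ⟨YI, hYI, eI⟩ := ihI
    have hch : ∀ c : ℂ, ∃ Y : PowerSeries A, (c ∈ S → c ≠ 0 →
        AngLocal U τ' (gc c) (a0 + a1 + m) (n0 + n1) 0 1 Y ∧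
        PowerSeries.map φ Y = Zc c) := by
      intro c
      by_cases hcS : c ∈ S ∧ c ≠ 0
      · obtain ⟨Y, hY, e⟩ := ihc c hcS.1 hcS.2
        exact ⟨Y, fun _ _ => ⟨hY, e⟩⟩
      · exact ⟨0, fun h1 h2 => absurd ⟨h1, h2⟩ hcS⟩
    choose Y hY using hch
    let Yc : ℂ → PowerSeries A := fun c => if c = 0 then Y0 else Y c
    have hYc : ∀ c ∈ S, PowerSeries.map φ (Yc c) = Zc c := by
      intro c hcS
      by_cases h : c = 0
      · simp only [Yc, if_pos h]
        rw [h]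
        exact e0
      · simp only [Yc, if_neg h]
        exact (hY c hcS h).2
    have hWW : ∃ W' : A, ((S.filter fun c => mulAt a1 e c ≠ 0).card +
          (if a0 + (m - ∑ c ∈ S, e c) = 0 then 0 else 1) ≤ 2 →
        W' = ((U : A) - 1) * τ' (Nat.gcd (a0 + (m - ∑ c ∈ S, e c)) (S.gcd (mulAt a1 e))) -
          ((S.card : A) - 1) * τ' (a0 + a1 + m)) ∧ φ W' = W := by
      by_cases hc : (S.filter fun c => mulAt a1 e c ≠ 0).card +
          (if a0 + (m - ∑ c ∈ S, e c) = 0 then 0 else 1) ≤ 2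
      · refine ⟨_, fun _ => rfl, ?_⟩
        rw [hW hc, ph_W φ U L hφ τ' τ hτ]
      · obtain ⟨W', hW'⟩ := hs W
        exact ⟨W', fun h => absurd h hc, hW'⟩
    obtain ⟨W', hW', eW⟩ := hWW
    refine ⟨_, AngLocal.blowup g a0 n0 a1 n1 m hm gc gI hgc hgI S h0S lc hlc e he W' hW' Yc YI
      ?_ ?_ hYI, ?_⟩
    · simp only [Yc, if_pos]
      exact hY0
    · intro c hcS h
      simp only [Yc, if_neg h]
      exact (hY c hcS h).1
    · rw [map_add, map_add, map_sum, eI, Finset.sum_congr rfl hYc, map_mul,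
        ph_ff φ U L hφ, ph_C, eW]

end Hom

section Univ

variable {M : Type} [CommRing M] (L : Mˣ) (τ : ℕ → M)

/-- the universal ring, with a variable for each element of `M` -/
abbrev UR (M : Type) : Type := MvPolynomial M AA

/-- the homomorphism to `M` -/
noncomputable def pr : UR M →+* M := MvPolynomial.eval₂Hom (phi L) id

/-- the class of the affine line -/
noncomputable def UL : (UR M)ˣ := Units.map (MvPolynomial.C : AA →+* UR M).toMonoidHom LL

theorem UL_val : ((UL : (UR M)ˣ) : UR M) = MvPolynomial.C (LL : AA) := rfl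

theorem pr_UL : pr L ((UL : (UR M)ˣ) : UR M) = L := by
  rw [UL_val, pr, MvPolynomial.eval₂Hom_C, phi_LL]

theorem pr_X (m : M) : pr L (MvPolynomial.X m) = m := by
  rw [pr, MvPolynomial.eval₂Hom_X']
  rfl

theorem UL_pow (k : ℕ) : ((UL ^ k : (UR M)ˣ) : UR M) = MvPolynomial.C ((LL ^ k : AAˣ) : AA) := by
  rw [Units.val_pow_eq_pow_val, UL_val, Units.val_pow_eq_pow_val, map_pow]

theorem UL_pow_ne (k l : ℕ) (h : k ≠ l) :
    ((UL ^ k : (UR M)ˣ) : UR M) - ((UL ^ l : (UR M)ˣ) : UR M) ≠ 0 := by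
  rw [UL_pow, UL_pow, ← map_sub, Ne, MvPolynomial.C_eq_zero]
  exact LL_pow_ne h

/-- the contribution of a point comes from the universal ring -/
theorem ang_univ {g : MP} {a0 n0 a1 n1 : ℕ} {Z : PowerSeries M}
    (hZ : AngLocal L τ g a0 n0 a1 n1 Z) :
    ∃ Z0 : PowerSeries (UR M), AngLocal UL (fun g => MvPolynomial.X (τ g)) g a0 n0 a1 n1 Z0 ∧
      PowerSeries.map (pr L) Z0 = Z :=
  ang_lift (pr L) UL L (pr_UL L) (fun m => ⟨MvPolynomial.X m, pr_X L m⟩) _ τ
    (fun g => pr_X L (τ g)) hZ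

variable {L τ}

theorem ang_all {g : MP} {a0 n0 a1 n1 : ℕ} {Z : PowerSeries M}
    (hZ : AngLocal L τ g a0 n0 a1 n1 Z) (hn0 : 1 ≤ n0) (hn1 : 1 ≤ n1) :
    Z ∈ DenRing L (fun _ _ => True) := by
  classical
  have hp : ∀ {a n a' n' : ℕ}, 1 ≤ n → 1 ≤ n' → pt L τ a n a' n' ∈ DenRing L (fun _ _ => True) :=
    fun h h' => pt_mem τ h h' (fun _ => trivial) (fun _ => trivial)
  induction hZ with
  | unit g a0 n0 a1 n1 ha hj => exact hp hn0 hn1
  | curveV g a0 n0 m hm h k hg h0 h1 hj => exact hp hn0 le_rfl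
  | curveU g a1 n1 m hm h k hg h0 h1 hj => exact hp le_rfl hn1
  | blowup g a0 n0 a1 n1 m hm gc gI hgc hgI S h0S lc hlc e he W hW Zc ZI h0 hc hI ih0 ihc ihI =>
    refine Subring.add_mem _ (Subring.add_mem _ (ihI hn0 (by omega)) ?_)
      (Subring.mul_mem _ (C_mem _) (ff_mem (by omega) fun _ => trivial))
    refine Subring.sum_mem _ fun c hcS => ?_
    by_cases h : c = 0
    · rw [h]
      exact ih0 (by omega) hn1
    · exact ihc c hcS h (by omega) le_rfl

/-- **The denominators of the contribution of the point `P` with angular component `1`** belong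
to roots of `b`, if `b` satisfies a functional equation near `P`. -/
theorem point_ang (f : MP) (b : Polynomial ℂ) (H : MP) (hb : IsLocEq H (fun _ : Unit => f) b)
    (P : Fin 2 → ℂ) (hH : MvPolynomial.eval P H ≠ 0) (Z : PowerSeries M)
    (hZ : AngLocal L τ (translate P f) 0 1 0 1 Z) : Z ∈ DenRing L (Kb b) := by
  classical
  obtain ⟨Z0, hZ0, rfl⟩ := ang_univ L τ hZ
  apply ph_mem (pr L) UL L (pr_UL L)
  obtain ⟨s, hs, Q, hQ⟩ := Uf.exists_denom (ang_all hZ0 le_rfl le_rfl)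
  refine Uf.descent (fun k l h => UL_pow_ne k l h) (Kb b) Z0 s
    (fun p hp => ⟨(hs p hp).1, (hs p hp).2.1⟩) ?_ Q hQ
  intro a n ha hn hne
  have hac : (a : ℂ) ≠ 0 := Nat.cast_ne_zero.2 (by omega)
  obtain ⟨c0, m0, c1, m1, _, _, h1⟩ := ang_main UL _ f b H hb (-(n : ℂ) / a) hne hZ0
    (inv_initialL H (fun _ : Unit => f) P hH _)
  rw [ff_zero, mul_zero, mul_zero, sub_zero, sub_zero] at h1
  refine Subring.closure_mono (Set.union_subset_union_right _ ?_) h1
  rintro u ⟨a', n', ha', hn', hK, hu⟩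
  refine ⟨a', n', ha', hn', ?_, hu⟩
  intro h3
  apply hK
  have h4 : (n : ℂ) * a' = n' * a := by exact_mod_cast h3
  field_simp
  linear_combination -h4

theorem locEq_one' {σ : Type} (f : MvPolynomial σ ℂ) (b : Polynomial ℂ)
    (hb : IsFunctionalEq (fun _ : Unit => f) b) : IsLocEq 1 (fun _ : Unit => f) b := by
  obtain ⟨S, P, h1, h2⟩ := hb
  exact ⟨S, P, h1, fun s => by rw [one_mul]; exact h2 s⟩

/-- the theorem for the plane -/
theorem plane_ang (f : MP) (b : Polynomial ℂ) (hb : IsFunctionalEq (fun _ : Unit => f) b)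
    (Z : PowerSeries M) (hZ : PlaneAng L f Z) : Z ∈ DenRing L (Kb b) := by
  obtain ⟨u₀, r, h, m, w, S, τ, ZP, hC, hP, rfl⟩ := hZ
  refine Subring.add_mem _ (Subring.add_mem _ (C_mem _) ?_) ?_
  · refine Subring.sum_mem _ fun i _ => Subring.mul_mem _ (C_mem _) (ff_mem le_rfl fun _ => ?_)
    have := Pool.Agent.W574.SM.curve_root (fun _ : Unit => f) b hb (h i) (m i) (hC i)
    rw [Kb, Nat.cast_one]
    exact this
  · refine Subring.sum_mem _ fun P hPS => ?_
    exact point_ang f b 1 (locEq_one' f b hb) P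
      (by rw [map_one]; exact one_ne_zero) _ (hP P hPS)

end Univ

end Pool.Agent.U184
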