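import Pool.Agent.U184.Defs
import Pool.Agent.W574.MO.FormDefs

set_option autoImplicit false

/-! # The denominators of the motivic zeta functions -/

namespace Pool.Agent.U184

open Pool.Agent.W574.MO

/-- The denominators which are allowed in the theorems on motivic zeta functions: `-n/a` is a root
of `b`, or `-n/a = -3/d`; the latter only if the singularities of the curve `f = 0` are not all
weighted homogeneous, or if there is a linear vector field `v` of trace zero with `v(f) = f`. -/
def TernPair (f : MvPolynomial (Fin 3) ℂ) (d : ℕ) (b : Polynomial ℂ) (a n : ℕ) : Prop :=
  RootPair b a n ∨ (3 * a = d * n ∧ ¬ (WHForm f d ∧ NoField f))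

end Pool.Agent.U184
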