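import Pool.Agent.U184.Core
import Pool.Agent.W574.MO.Cone
import Pool.Agent.U184.Defs2

set_option autoImplicit false
set_option linter.unusedSectionVars false

/-! # The zeta functions of ternary forms with weighted homogeneous singularities -/

namespace Pool.Agent.U184

open MvPolynomial Pool.Agent.W574.SM Pool.Agent.W574.CN Pool.Agent.W574.MO
open Pool.Agent.H628R4.TP

/-- the functional equation of a polynomial and the one of the principal ideal -/
theorem functionalEq_unit {σ : Type} (f : MvPolynomial σ ℂ) (b : Polynomial ℂ)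
    (hb : IsBFunction f b) : IsFunctionalEq (fun _ : Unit => f) b := by
  classical
  obtain ⟨P, hP⟩ := hb
  refine ⟨{fun _ => 1}, fun _ => P.mapDomain (fun m => Finsupp.single () m), ?_, ?_⟩
  · intro c hc
    rw [Finset.mem_singleton] at hc
    subst hc
    simp
  · intro s
    rw [Finset.sum_singleton]
    simp only [Finset.univ_unique, Finset.sum_singleton, Finset.prod_singleton,
      PUnit.default_eq_unit]
    rw [hP (s ())]
    have h1 : ((if (1 : ℤ) < 0 then (s ()).choose (-1 : ℤ).toNat else 1 : ℕ) : ℂ) = 1 := by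
      norm_num
    have h2 : ((s () : ℤ) + 1).toNat = s () + 1 := by omega
    rw [h1, h2, map_one, one_mul, applyAt]
    rw [Finsupp.sum_mapDomain_index]
    · refine Finsupp.sum_congr fun m _ => ?_
      simp only [Finset.univ_unique, Finset.prod_singleton, PUnit.default_eq_unit,
        Finsupp.single_eq_same]
    · intro β
      simp
    · intro β Q1 Q2
      simp [smul_add]

/-- the root `-3/d` -/
theorem root_d3 (f : MvPolynomial (Fin 3) ℂ) (d : ℕ) (h : WHForm f d ∧ NoField f)
    (b : Polynomial ℂ) (hb : IsBFunction f b) : b.eval (-3 / (d : ℂ)) = 0 := by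
  obtain ⟨⟨hd, hf, hf0, F, D, M, hF, hsq, hFf, hM, hWH⟩, hv⟩ := h
  by_contra hne
  exact hv (core f F d D M hd hf hf0 hF hsq hFf hM hWH b hb hne)

theorem top_main (f : MvPolynomial (Fin 3) ℂ) (d : ℕ) (hd : 0 < d) (hf : f.IsHomogeneous d)
    (b : Polynomial ℂ) (hb : IsBFunction f b) (Z : RatFunc ℂ)
    (hZ : ConeZeta (fun _ : Unit => f) d Z) (s₀ : ℂ) (hs₀ : Z.denom.eval s₀ = 0)
    (hc : s₀ ≠ -3 / d ∨ (WHForm f d ∧ NoField f)) : b.eval s₀ = 0 := by
  by_cases h3 : s₀ = -3 / d
  · rcases hc with hc | hc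
    · exact absurd h3 hc
    · rw [h3]
      exact root_d3 f d hc b hb
  · exact cone_main (fun _ : Unit => f) d hd (fun _ => hf) b (functionalEq_unit f b hb) Z hZ s₀
      hs₀ (Or.inl h3)

theorem pair_tern (f : MvPolynomial (Fin 3) ℂ) (d : ℕ) (b : Polynomial ℂ)
    (hb : IsBFunction f b) : TernPair f d b d 3 := by
  by_cases hv : WHForm f d ∧ NoField f
  · left
    rw [RootPair]
    have := root_d3 f d hv b hb
    push_cast
    exact this
  · exact Or.inr ⟨by ring, hv⟩

theorem proj_tern {M : Type} [CommRing M] (L : Mˣ) (f : MvPolynomial (Fin 3) ℂ) (d : ℕ)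
    (hf : f.IsHomogeneous d) (b : Polynomial ℂ) (hb : IsBFunction f b) (Z : PowerSeries M)
    (hZ : ProjMot L (fun _ : Unit => f) Z) : Z ∈ DenRing L (TernPair f d b) := by
  obtain ⟨Zc, hZc, rfl⟩ := hZ
  exact Subring.sum_mem _ fun i _ => DenRing_mono L (fun a n h => Or.inl h)
    (plane_mot L _ b (functionalEq_deh i (fun _ : Unit => f) d (fun _ => hf) b
      (functionalEq_unit f b hb)) _ (hZc i))

theorem local_tern {M : Type} [CommRing M] (L : Mˣ) (f : MvPolynomial (Fin 3) ℂ) (d : ℕ)
    (hf : f.IsHomogeneous d) (b : Polynomial ℂ) (hb : IsBFunction f b) (Z : PowerSeries M)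
    (hZ : ConeMot L (fun _ : Unit => f) d Z) : Z ∈ DenRing L (TernPair f d b) := by
  obtain ⟨Z', hZ', rfl⟩ := hZ
  exact Subring.mul_mem _ (Subring.mul_mem _ (C_mem _) (proj_tern L f d hf b hb Z' hZ'))
    (mf_mem (by norm_num) fun _ => pair_tern f d b hb)

end Pool.Agent.U184
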