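import Pool.Agent.U184.Ang4
import Pool.Agent.U184.Zeta

set_option autoImplicit false
set_option linter.unusedSectionVars false

/-! # The motivic zeta functions with angular component `1` of ternary forms -/

namespace Pool.Agent.U184

open MvPolynomial Pool.Agent.W574.SM Pool.Agent.W574.CN Pool.Agent.W574.MO
open Pool.Agent.H628R4.TP

variable {M : Type} [CommRing M] {L : Mˣ}

theorem functionalEq_deh' (i : Fin 3) (f : MvPolynomial (Fin 3) ℂ) (d : ℕ)
    (hf : f.IsHomogeneous d) (b : Polynomial ℂ) (hb : IsBFunction f b) :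
    IsFunctionalEq (fun _ : Unit => deh i f) b :=
  functionalEq_deh i (fun _ : Unit => f) d (fun _ => hf) b (functionalEq_unit f b hb)

theorem planeAng_tern (i : Fin 3) (f : MvPolynomial (Fin 3) ℂ) (d : ℕ)
    (hf : f.IsHomogeneous d) (b : Polynomial ℂ) (hb : IsBFunction f b) (Z : PowerSeries M)
    (hZ : PlaneAng L (deh i f) Z) : Z ∈ DenRing L (TernPair f d b) :=
  DenRing_mono L (fun a n h => Or.inl h)
    (plane_ang _ b (functionalEq_deh' i f d hf b hb) Z hZ)

/-- the part over the origin -/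
theorem coneAng_tern (f : MvPolynomial (Fin 3) ℂ) (d : ℕ)
    (hf : f.IsHomogeneous d) (b : Polynomial ℂ) (hb : IsBFunction f b) (Z : PowerSeries M)
    (hZ : ConeAng L f d Z) : Z ∈ DenRing L (TernPair f d b) := by
  obtain ⟨Zc, hZc, rfl⟩ := hZ
  exact Subring.mul_mem _ (Subring.sum_mem _ fun i _ => planeAng_tern i f d hf b hb _ (hZc i))
    (ff_mem (by norm_num) fun _ => pair_tern f d b hb)

/-- the whole zeta function -/
theorem spaceAng_tern (f : MvPolynomial (Fin 3) ℂ) (d : ℕ)
    (hf : f.IsHomogeneous d) (b : Polynomial ℂ) (hb : IsBFunction f b) (Z : PowerSeries M)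
    (hZ : SpaceAng L f d Z) : Z ∈ DenRing L (TernPair f d b) := by
  obtain ⟨Zc, Z₀, hZc, hZ₀, rfl⟩ := hZ
  exact Subring.add_mem _ (Subring.sum_mem _ fun i _ => planeAng_tern i f d hf b hb _ (hZc i))
    (coneAng_tern f d hf b hb Z₀ hZ₀)

/-- the local zeta function at the other points -/
theorem pointAng_tern (f : MvPolynomial (Fin 3) ℂ) (d : ℕ)
    (hf : f.IsHomogeneous d) (b : Polynomial ℂ) (hb : IsBFunction f b) (i : Fin 3)
    (P : Fin 2 → ℂ) (τ : ℕ → M) (Z : PowerSeries M)
    (hZ : AngLocal L τ (translate P (deh i f)) 0 1 0 1 Z) : Z ∈ DenRing L (RootPair b) :=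
  point_ang (deh i f) b 1 (locEq_one' _ b (functionalEq_deh' i f d hf b hb)) P
    (by rw [map_one]; exact one_ne_zero) Z hZ

end Pool.Agent.U184
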