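import Pool.Agent.U184.Defs2

set_option autoImplicit false

/-! # Motivic zeta functions with angular component `1`

`M` is a commutative ring with a unit `L`. The main examples are `M = K₀(Var_k)[1/L]` and the
Grothendieck ring `𝓜^μ_S` of varieties over `S` with a good action of `μ = lim μ_n`, localized at
`L`; there `L` is the class of the affine line. The variable `X` of the ring `M⟦X⟧` of formal power
series is denoted by `T` in the comments.

Let `f` be a function on a smooth variety `X` of dimension `n`, and let `Z(T)` be the series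
`∑_{m ≥ 1} [X_{m,1}] L^(-m n) T^m`, or its part over a locally closed subset `S` of `f = 0`, where `X_{m,1}`
is the set of the `m`-jets `γ` with `f(γ) = t^m` modulo `t^(m + 1)`. By a theorem of Denef and Loeser,
for a resolution `h` of `f = 0` with the components `E_i` and the numerical data `(N_i, ν_i)`,

`Z(T) = ∑_{I ≠ ∅} [U_I] ∏_{i ∈ I} L^(-ν_i) T^(N_i) / (1 - L^(-ν_i) T^(N_i))`,

where `U_I` is the set of all `(q, (a_i)_{i ∈ I})`, `q ∈ E_I° ∩ h⁻¹(S)`, `a_i` a nonzero normal vector of `E_i`
at `q`, at which the leading form of `f ∘ h`, of degree `N_i` in `a_i`, has the value `1`. (In their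
notation, `[U_I] = (L - 1)^(|I| - 1) [Ẽ_I°]`.) In coordinates at a point `q ∈ E_I°`, this condition on the
`a_i` is `c(q) ∏ a_i ^ (N_i) = 1`; so, for two divisors through the point `q`, the set of the `(a_1, a_2)`
is, after a monomial change of coordinates, the product of `ℂ ∖ 0` and of `{a | c a ^ g = 1}` with
`g = gcd(N_1, N_2)`. -/

namespace Pool.Agent.U184

open MvPolynomial Pool.Agent.W574.SM Pool.Agent.W574.MO Pool.Agent.W574.CN

variable {M : Type} [CommRing M]

/-- The series `L⁻ⁿ Tᵃ / (1 - L⁻ⁿ Tᵃ)` of a divisor with the numerical data `(N, ν) = (a, n)`, `a ≥ 1`;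
and `0` for `a = 0`. -/
noncomputable def ff (L : Mˣ) (a n : ℕ) : PowerSeries M :=
  if a = 0 then 0 else
    PowerSeries.C ((L⁻¹ ^ n : Mˣ) : M) * PowerSeries.X ^ a * geo L a n

/-- The contribution of a point `q` at which `f ∘ h` is a unit times `u ^ a₀ v ^ a₁` and the canonical
divisor is `(n₀ - 1) [u = 0] + (n₁ - 1) [v = 0]`, for `(a₀, a₁) ≠ (0, 0)`. Here `τ g` is the class of
`{a ≠ 0 | c a ^ g = 1}`: if only the divisor `u = 0` passes through the point, it is `τ(a₀)` times the
series of this divisor, and if both divisors pass through the point, it is `(L - 1) τ(gcd(a₀, a₁))`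
times the product of the two series. -/
noncomputable def pt (L : Mˣ) (τ : ℕ → M) (a₀ n₀ a₁ n₁ : ℕ) : PowerSeries M :=
  if a₀ = 0 then PowerSeries.C (τ a₁) * ff L a₁ n₁
  else if a₁ = 0 then PowerSeries.C (τ a₀) * ff L a₀ n₀
  else PowerSeries.C (((L : M) - 1) * τ (Nat.gcd a₀ a₁)) * ff L a₀ n₀ * ff L a₁ n₁

/-- The multiplicity of `f ∘ h` along the divisor which meets the new exceptional curve at the point
`v = c u`, where `e c` is the multiplicity of this direction in the tangent cone, and `a₁` the
multiplicity of the old exceptional curve `v = 0`. -/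
noncomputable def mulAt (a₁ : ℕ) (e : ℂ → ℕ) (c : ℂ) : ℕ := if c = 0 then a₁ + e 0 else e c

/-- `AngLocal L τ g a₀ n₀ a₁ n₁ Z`: the origin of the plane, with the coordinates `u = X 0` and
`v = X 1`, is a point of a partial resolution of a plane curve, near which `f ∘ h` is
`u ^ a₀ v ^ a₁ g` and the canonical divisor is `(n₀ - 1) [u = 0] + (n₁ - 1) [v = 0]`. (So `(a_i, n_i)` are
the numbers `(N_E, ν_E)` of the exceptional curve `u = 0` resp. `v = 0`, and `(a_i, n_i) = (0, 1)` if
there is no exceptional curve.) `Z` is the contribution of the origin to the motivic zeta function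
with angular component `1`, computed by blowing up points; `τ g` is the class of
`{a ≠ 0 | c a ^ g = 1}`, see above. The rules are

* `unit`: `g` does not vanish at the origin;
* `curveV`, `curveU`: near the origin, `g` is a unit times `h ^ m`, where the curve `h = 0` is
  smooth at the origin and transversal to the exceptional curve `u = 0` (resp. `v = 0`), the only
  one through the origin (if any);
* `blowup`: the origin is blown up. The number `m` is the multiplicity of `g`, the new exceptional
  curve `E` has `N_E = a₀ + a₁ + m` and `ν_E = n₀ + n₁`, and `gc c` and `gI` are the transforms of `g` at the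
  points of `E` (the directions `v = c u` and `u = 0`). The finite set `S` contains all directions
  `v = c u` in the tangent cone of `g`, and `e c` is the multiplicity of this direction in the tangent
  cone; the multiplicity of the direction `u = 0` is `m - ∑ e c`. So the restriction of `gc 0` to `E`
  is `κ ∏ (v - c) ^ (e c)`. `W` is the class of the set of the `(q, a)`, `q ∈ E` not in `S` and not
  the direction `u = 0`, `a` a nonzero normal vector of `E` at `q` at which the leading form of `f ∘ h`
  is `1`. It is arbitrary here if at least three other components meet `E` (the components of the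
  strict transform of the curve and the old exceptional curves, of the multiplicities `mulAt a₁ e c`
  and `a₀ + (m - ∑ e c)`). If there are at most two, then `W = (L - 1) τ(G) - (|S| - 1) τ(N_E)`, where `G` is the
  greatest common divisor of all these multiplicities: if there are two, then the leading form is
  `κ y ^ k a ^ (N_E)` on the set of the `(y, a)`, `y ≠ 0`, `a ≠ 0`, where `G = gcd(k, N_E)`; the class of
  this set is `(L - 1) τ(G)`, and one has to subtract `τ(N_E)` for each of the other `|S| - 1` points. If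
  there is only one, the sum over all other points of `E` is `L τ(N_E)`. -/
inductive AngLocal (L : Mˣ) (τ : ℕ → M) :
    MvPolynomial (Fin 2) ℂ → ℕ → ℕ → ℕ → ℕ → PowerSeries M → Prop
  | unit (g : MvPolynomial (Fin 2) ℂ) (a₀ n₀ a₁ n₁ : ℕ) (ha : 1 ≤ a₀ + a₁)
      (hg : constantCoeff g ≠ 0) : AngLocal L τ g a₀ n₀ a₁ n₁ (pt L τ a₀ n₀ a₁ n₁)
  | curveV (g : MvPolynomial (Fin 2) ℂ) (a₀ n₀ m : ℕ) (hm : 1 ≤ m) (h k : MvPolynomial (Fin 2) ℂ)
      (hg : g = h ^ m * k) (h0 : constantCoeff h = 0) (h1 : constantCoeff (pderiv 1 h) ≠ 0)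
      (hk : constantCoeff k ≠ 0) : AngLocal L τ g a₀ n₀ 0 1 (pt L τ a₀ n₀ m 1)
  | curveU (g : MvPolynomial (Fin 2) ℂ) (a₁ n₁ m : ℕ) (hm : 1 ≤ m) (h k : MvPolynomial (Fin 2) ℂ)
      (hg : g = h ^ m * k) (h0 : constantCoeff h = 0) (h1 : constantCoeff (pderiv 0 h) ≠ 0)
      (hk : constantCoeff k ≠ 0) : AngLocal L τ g 0 1 a₁ n₁ (pt L τ m 1 a₁ n₁)
  | blowup (g : MvPolynomial (Fin 2) ℂ) (a₀ n₀ a₁ n₁ m : ℕ) (hm : 1 ≤ m)
      (gc : ℂ → MvPolynomial (Fin 2) ℂ) (gI : MvPolynomial (Fin 2) ℂ)
      (hgc : ∀ c, aeval (chart c) g = X 0 ^ m * gc c) (hgI : aeval chartI g = X 1 ^ m * gI)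
      (S : Finset ℂ) (h0S : 0 ∈ S) (κ : ℂ) (hκ : κ ≠ 0) (e : ℂ → ℕ)
      (he : ∀ t : ℂ, eval ![0, t] (gc 0) = κ * ∏ c ∈ S, (t - c) ^ e c)
      (W : M)
      (hW : (S.filter fun c => mulAt a₁ e c ≠ 0).card +
          (if a₀ + (m - ∑ c ∈ S, e c) = 0 then 0 else 1) ≤ 2 →
        W = ((L : M) - 1) * τ (Nat.gcd (a₀ + (m - ∑ c ∈ S, e c)) (S.gcd (mulAt a₁ e))) -
          ((S.card : M) - 1) * τ (a₀ + a₁ + m))
      (Zc : ℂ → PowerSeries M) (ZI : PowerSeries M)
      (h0 : AngLocal L τ (gc 0) (a₀ + a₁ + m) (n₀ + n₁) a₁ n₁ (Zc 0))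
      (hc : ∀ c ∈ S, c ≠ 0 → AngLocal L τ (gc c) (a₀ + a₁ + m) (n₀ + n₁) 0 1 (Zc c))
      (hI : AngLocal L τ gI a₀ n₀ (a₀ + a₁ + m) (n₀ + n₁) ZI) :
      AngLocal L τ g a₀ n₀ a₁ n₁
        (ZI + ∑ c ∈ S, Zc c + PowerSeries.C W * ff L (a₀ + a₁ + m) (n₀ + n₁))

/-- `Z` is a sum of the form `u₀ + ∑_i w_i L⁻¹ T^(m_i) / (1 - L⁻¹ T^(m_i)) + ∑_{P ∈ S} Z_P`, where `u₀`, `w_i`
are elements of `M`, the `m_i` are the multiplicities of the irreducible curves `C_i` in the zero
locus of the polynomial `f` in two variables, and `Z_P` is the contribution of the point `P`,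
computed by a sequence of blow-ups of points, with some function `τ_P` (`AngLocal`).

The series `∑_m [X_{m,1}] L^(-2 m) T^m` of `f`, relative to the plane, is of this form, where
`u₀ = 0`, `S` is the set of the singular points of the reduced curve, `w_i` is the class of the set
`U_{C_i}` over `C_i ∖ S`, and `τ_P(g)` the class of `{a | c a ^ g = 1}`, mapped to `P`, with the natural
action of `μ_g`. The parts of the zeta function of a cone are of this form too, see `ConeAng` and
`SpaceAng`. -/
def PlaneAng (L : Mˣ) (f : MvPolynomial (Fin 2) ℂ) (Z : PowerSeries M) : Prop :=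
  ∃ (u₀ : M) (r : ℕ) (h : Fin r → MvPolynomial (Fin 2) ℂ) (m : Fin r → ℕ) (w : Fin r → M)
    (S : Finset (Fin 2 → ℂ)) (τ : (Fin 2 → ℂ) → ℕ → M) (ZP : (Fin 2 → ℂ) → PowerSeries M),
    (∀ i, IsCurve (fun _ : Unit => f) (h i) (m i)) ∧
    (∀ P ∈ S, AngLocal L (τ P) (translate P f) 0 1 0 1 (ZP P)) ∧
    Z = PowerSeries.C u₀ + ∑ i, PowerSeries.C (w i) * ff L (m i) 1 + ∑ P ∈ S, ZP P

/-- `Z` is (of the form of) the local motivic zeta function `∑_{m ≥ 1} [X_{m,1,0}] L^(-3 m) T^m` at
the origin of a homogeneous polynomial `f` of degree `d` in three variables: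
`Z = (Z₀ + Z₁ + Z₂) L⁻³ T^d / (1 - L⁻³ T^d)`, where `Z_i` is a sum of contributions of the strata and
points of the plane curve `f |_{x_i = 1} = 0`, see `PlaneAng`.

The blow-up of the origin of `ℂ ^ 3` is the total space `X'` of the line bundle `O(-1)` over the
projective plane `P²`. Let `Y → P²` be an embedded resolution of the curve `f = 0` by blow-ups of
points. Then `X' ×_{P²} Y` is an embedded resolution of `f`, and the strata over the origin are the
strata of `Y`, the transform `E` of the exceptional divisor being an additional component, which has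
the numerical data `(d, 3)`. The leading form of `f ∘ h` is `b ^ d` times the leading form `λ(q, (a_j))`
of the curve `f |_{x_i = 1} = 0` on `Y`, where `b` is the normal vector of `E`. So `Z_i` is obtained
from the formula for the plane by replacing each set of the `(q, (a_j))` with `λ = 1` by the set of the
`(q, (a_j), b)`, `b ≠ 0`, with `b ^ d λ = 1`; in particular `τ_P(g)` is the class of the set of the `(a, b)`
with `c a ^ g b ^ d = 1`, `w_i` the class of the set of the `(q, a, b)`, `q ∈ C_i ∖ S`, with
`λ(q, a) b ^ d = 1`, and `u₀` the class of the part of `{f = 1}` over the points not on the curve. As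
in the plane, monomial changes of coordinates in `(a_1, a_2)` resp. `(y, a)` show that the contributions
of the points with two components through them and of the curves with at most two other
components are as in `AngLocal`. The three sums belong to the points of `P²` with `x₀ ≠ 0`, to those
with `x₀ = 0`, `x₁ ≠ 0`, and to the point `x₀ = x₁ = 0`. -/
def ConeAng (L : Mˣ) (f : MvPolynomial (Fin 3) ℂ) (d : ℕ) (Z : PowerSeries M) : Prop :=
  ∃ Zc : Fin 3 → PowerSeries M, (∀ i, PlaneAng L (deh i f) (Zc i)) ∧ Z = (∑ i, Zc i) * ff L d 3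

/-- `Z` is (of the form of) the motivic zeta function `∑_{m ≥ 1} [X_{m,1}] L^(-3 m) T^m` of a
homogeneous polynomial `f` of degree `d` in three variables, relative to the surface `f = 0` in `ℂ ^ 3`
and with the action of `μ = lim μ_n`: `Z = Z' + Z_0`, where `Z_0` is the part over the origin, see
`ConeAng`, and `Z' = Z'₀ + Z'₁ + Z'₂` is the part over the other points of the surface.

The strata of the resolution described in `ConeAng` which are not over the origin are
`(ℂ ∖ 0)`-bundles over the strata of `Y` over the curve. With the coordinate `t ≠ 0` of the fibre,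
the leading form of `f ∘ h` is `t ^ d λ(q, (a_j))`, and one gets the same sets as in `ConeAng` (with
`t` in place of `b`), but mapped to `ℂ ^ 3` by `(q, (a_j), t) ↦ t P`, where `P` is the image of `q` in the
plane `x_i = 1`; in particular, `τ_P(g)` is the class of the set of the `(a, t)` with `c a ^ g t ^ d = 1`,
mapped to the line through `P` by `t`, with the action of `μ_g` on `a`. -/
def SpaceAng (L : Mˣ) (f : MvPolynomial (Fin 3) ℂ) (d : ℕ) (Z : PowerSeries M) : Prop :=
  ∃ (Zc : Fin 3 → PowerSeries M) (Z₀ : PowerSeries M), (∀ i, PlaneAng L (deh i f) (Zc i)) ∧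
    ConeAng L f d Z₀ ∧ Z = ∑ i, Zc i + Z₀

end Pool.Agent.U184
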