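import Pool.Agent.N127.PB.Defs

set_option autoImplicit false

/-! # A general member of a linear system which is smooth along its base locus is smooth -/

namespace Pool.Agent.U184

open MvPolynomial
open Pool.Agent.N127.PB (extD extD_alg)

section Chain

variable {κ : Type} [Field κ] [Algebra ℂ κ]

theorem bert_chain {σ : Type} [Fintype σ] (D : κ → κ)
    (hadd : ∀ a b, D (a + b) = D a + D b) (hmul : ∀ a b, D (a * b) = a * D b + b * D a)
    (hD : ∀ c : ℂ, D (algebraMap ℂ κ c) = 0) (x : σ → κ) (p : MvPolynomial σ ℂ) :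
    D (aeval x p) = ∑ l, aeval x (pderiv l p) * D (x l) := by
  classical
  induction p using MvPolynomial.induction_on with
  | C a =>
    rw [algHom_C, hD]
    symm
    refine Finset.sum_eq_zero fun l _ => ?_
    rw [pderiv_C, map_zero, zero_mul]
  | add p q hp hq =>
    rw [map_add, hadd, hp, hq, ← Finset.sum_add_distrib]
    refine Finset.sum_congr rfl fun l _ => ?_
    rw [map_add, map_add, add_mul]
  | mul_X p i hp =>
    rw [map_mul, aeval_X, hmul, hp]
    simp only [pderiv_mul, pderiv_X, map_add, map_mul, aeval_X, add_mul]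
    rw [Finset.sum_add_distrib, add_comm]
    congr 1
    · rw [Finset.mul_sum]
      refine Finset.sum_congr rfl fun l _ => ?_
      ring
    · rw [Finset.sum_eq_single i]
      · rw [Pi.single_eq_same, map_one, mul_one]
      · intro l _ hl
        rw [Pi.single_eq_of_ne (Ne.symm hl), map_zero, mul_zero, zero_mul]
      · intro h
        exact absurd (Finset.mem_univ i) h

/-- the base point lemma -/
theorem bert_base {σ ι : Type} [Fintype σ] [Fintype ι] [DecidableEq ι] [CharZero κ]
    (f : ι → MvPolynomial σ ℂ) (d : ℕ)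
    (hd : 0 < d) (hf : ∀ j, (f j).IsHomogeneous d)
    (D : ι → κ → κ) (hadd : ∀ k a b, D k (a + b) = D k a + D k b)
    (hmul : ∀ k a b, D k (a * b) = a * D k b + b * D k a)
    (hD : ∀ k (c : ℂ), D k (algebraMap ℂ κ c) = 0)
    (y : ι → κ) (hy : ∀ k j, D k (y j) = if j = k then 1 else 0)
    (x : σ → κ) (hx : ∀ l, ∑ j, y j * aeval x (pderiv l (f j)) = 0) (k : ι) :
    aeval x (f k) = 0 := by
  have h1 : ∑ j, y j * aeval x (f j) = 0 := by
    have hdc : (d : κ) ≠ 0 := Nat.cast_ne_zero.2 hd.ne'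
    apply mul_left_cancel₀ hdc
    rw [mul_zero, Finset.mul_sum]
    have h2 : ∀ j, (d : κ) * (y j * aeval x (f j)) =
        ∑ l, x l * (y j * aeval x (pderiv l (f j))) := by
      intro j
      have h3 := congrArg (aeval x) (hf j).sum_X_mul_pderiv
      rw [map_sum, map_nsmul, nsmul_eq_mul] at h3
      rw [mul_left_comm, ← h3, Finset.mul_sum]
      refine Finset.sum_congr rfl fun l _ => ?_
      rw [map_mul, aeval_X]
      ring
    rw [Finset.sum_congr rfl fun j _ => h2 j, Finset.sum_comm]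
    refine Finset.sum_eq_zero fun l _ => ?_
    rw [← Finset.mul_sum, hx, mul_zero]
  have h00 : D k 0 = 0 := by
    have := hadd k 0 0
    rw [add_zero] at this
    exact left_eq_add.1 this
  have hsum : ∀ g : ι → κ, D k (∑ j, g j) = ∑ j, D k (g j) := fun g =>
    map_sum ({ toFun := D k, map_zero' := h00, map_add' := hadd k } : κ →+ κ) g _
  have h2 := congrArg (D k) h1
  rw [hsum, h00] at h2
  have h3 : ∀ j, D k (y j * aeval x (f j)) =
      (∑ l, D k (x l) * (y j * aeval x (pderiv l (f j)))) +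
        (if j = k then 1 else 0) * aeval x (f j) := by
    intro j
    rw [hmul, hy, bert_chain (D k) (hadd k) (hmul k) (hD k), Finset.mul_sum]
    congr 1
    · refine Finset.sum_congr rfl fun l _ => ?_
      ring
    · ring
  rw [Finset.sum_congr rfl fun j _ => h3 j, Finset.sum_add_distrib, Finset.sum_comm] at h2
  have h4 : ∑ l, ∑ j, D k (x l) * (y j * aeval x (pderiv l (f j))) = 0 := by
    refine Finset.sum_eq_zero fun l _ => ?_
    rw [← Finset.mul_sum, hx, mul_zero]
  rw [h4, zero_add] at h2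
  simpa using h2

end Chain

/-- derivations extend to finite extensions -/
theorem bert_ext (K κ : Type) [Field K] [CharZero K] [Field κ] [Algebra K κ]
    [FiniteDimensional K κ] (E : K → K) (hadd : ∀ a b, E (a + b) = E a + E b)
    (hmul : ∀ a b, E (a * b) = a * E b + b * E a) :
    ∃ D : κ → κ, (∀ a b, D (a + b) = D a + D b) ∧ (∀ a b, D (a * b) = a * D b + b * D a) ∧
      ∀ a, D (algebraMap K κ a) = algebraMap K κ (E a) := by
  have h0 : E 0 = 0 := by
    have := hadd 0 0
    rw [add_zero] at this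
    exact left_eq_add.1 this
  let E' : K →+ K := { toFun := E, map_zero' := h0, map_add' := hadd }
  let _ : Differential K := ⟨Derivation.mk' E'.toIntLinearMap (fun a b => hmul a b)⟩
  let _ : Differential κ := Differential.differentialFiniteDimensional K κ
  have _ : DifferentialAlgebra K κ := Differential.differentialAlgebraFiniteDimensional
  exact ⟨fun a => (Differential.deriv : Derivation ℤ κ κ) a, fun a b => map_add _ a b,
    fun a b => Derivation.leibniz _ a b, fun a => DifferentialAlgebra.deriv_algebraMap a⟩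

/-- the Nullstellensatz -/
theorem bert_null {σ ι : Type} [Fintype σ] [Fintype ι] (f : ι → MvPolynomial σ ℂ)
    (H : ∀ z : σ → ℂ, z ≠ 0 → (∀ j, eval z (f j) = 0) →
      ∀ c : ι → ℂ, (∀ l, ∑ j, c j * eval z (pderiv l (f j)) = 0) → c = 0)
    {κ : Type} [Field κ] [Algebra ℂ κ] (x : σ → κ) (y : ι → κ)
    (hx : ∀ j, aeval x (f j) = 0)
    (hxy : ∀ l, ∑ j, y j * aeval x (pderiv l (f j)) = 0) (i : σ) (j : ι) :
    x i = 0 ∨ y j = 0 := by
  classical
  let J : Ideal (MvPolynomial (σ ⊕ ι) ℂ) :=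
    Ideal.span (Set.range (fun j => rename Sum.inl (f j)) ∪
      Set.range (fun l => ∑ j, X (Sum.inr j) * rename Sum.inl (pderiv l (f j))))
  have h1 : (X (Sum.inl i) * X (Sum.inr j) : MvPolynomial (σ ⊕ ι) ℂ) ∈ J.radical := by
    rw [← vanishingIdeal_zeroLocus_eq_radical (K := ℂ), mem_vanishingIdeal_iff]
    intro v hv
    rw [mem_zeroLocus_iff] at hv
    rw [map_mul, aeval_X, aeval_X]
    by_cases hz : (fun i => v (Sum.inl i)) = 0
    · rw [show v (Sum.inl i) = 0 from congrFun hz i, zero_mul]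
    · have h2 := H (fun i => v (Sum.inl i)) hz (fun j => by
        have := hv _ (Ideal.subset_span (Or.inl ⟨j, rfl⟩))
        rw [aeval_rename] at this
        rw [← coe_aeval_eq_eval]
        exact this) (fun j => v (Sum.inr j)) (fun l => by
        have := hv _ (Ideal.subset_span (Or.inr ⟨l, rfl⟩))
        rw [map_sum] at this
        rw [← this]
        refine Finset.sum_congr rfl fun j _ => ?_
        rw [map_mul, aeval_X, aeval_rename, ← coe_aeval_eq_eval]
        rfl)
      rw [show v (Sum.inr j) = 0 from congrFun h2 j, mul_zero]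
  obtain ⟨M, hM⟩ := h1
  have h2 : ∀ p ∈ J, aeval (Sum.elim x y) p = 0 := by
    intro p hp
    have : J ≤ RingHom.ker (aeval (Sum.elim x y) : MvPolynomial (σ ⊕ ι) ℂ →ₐ[ℂ] κ) := by
      rw [Ideal.span_le]
      rintro q (⟨j, rfl⟩ | ⟨l, rfl⟩)
      · show aeval (Sum.elim x y) (rename Sum.inl (f j)) = 0
        rw [aeval_rename]
        exact hx j
      · show aeval (Sum.elim x y) (∑ j, X (Sum.inr j) * rename Sum.inl (pderiv l (f j))) = 0
        rw [map_sum, ← hxy l]
        refine Finset.sum_congr rfl fun j _ => ?_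
        rw [map_mul, aeval_X, aeval_rename]
        rfl
    exact this hp
  have h3 := h2 _ hM
  rw [map_pow, map_mul, aeval_X, aeval_X] at h3
  by_contra hne
  push Not at hne
  exact pow_ne_zero M (mul_ne_zero hne.1 hne.2) h3

section Main

variable {σ ι : Type}

/-- the field-valued form -/
theorem bert_field [Fintype σ] [Fintype ι] [Nonempty ι] (f : ι → MvPolynomial σ ℂ) (d : ℕ)
    (hd : 0 < d) (hf : ∀ j, (f j).IsHomogeneous d)
    (H : ∀ z : σ → ℂ, z ≠ 0 → (∀ j, eval z (f j) = 0) →
      ∀ c : ι → ℂ, (∀ l, ∑ j, c j * eval z (pderiv l (f j)) = 0) → c = 0)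
    (K κ : Type) [Field K] [CharZero K] (φ : MvPolynomial ι ℂ →+* K)
    (hφ : Function.Injective φ) [Field κ] [Algebra K κ] [FiniteDimensional K κ]
    (E : ι → K → K) (hadd : ∀ k a b, E k (a + b) = E k a + E k b)
    (hmul : ∀ k a b, E k (a * b) = a * E k b + b * E k a)
    (hE : ∀ k a, E k (φ a) = φ (pderiv k a)) (x : σ → κ)
    (hx : ∀ l, ∑ j, algebraMap K κ (φ (X j)) *
      eval₂ ((algebraMap K κ).comp (φ.comp C)) x (pderiv l (f j)) = 0) (i : σ) : x i = 0 := by
  classical
  choose D hDadd hDmul hD using fun k => bert_ext K κ (E k) (hadd k) (hmul k)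
  let _ : Algebra ℂ κ := ((algebraMap K κ).comp (φ.comp C)).toAlgebra
  have hc : ∀ c : ℂ, algebraMap ℂ κ c = algebraMap K κ (φ (C c)) := fun c => rfl
  have _ : CharZero κ := charZero_of_injective_algebraMap (algebraMap K κ).injective
  have h1 := bert_base f d hd hf D hDadd hDmul (fun k c => by
      rw [hc, hD, hE, pderiv_C, map_zero, map_zero])
    (fun j => algebraMap K κ (φ (X j)))
    (fun k j => by
      rw [hD, hE, pderiv_X]
      by_cases hjk : j = k
      · subst hjk
        rw [if_pos rfl, Pi.single_eq_same, map_one, map_one]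
      · rw [if_neg hjk, Pi.single_eq_of_ne hjk, map_zero, map_zero])
    x hx
  obtain ⟨j⟩ := ‹Nonempty ι›
  rcases bert_null f H x (fun j => algebraMap K κ (φ (X j))) h1 hx i j with h2 | h2
  · exact h2
  · have h3 := (map_eq_zero (algebraMap K κ)).1 h2
    have h4 : (X j : MvPolynomial ι ℂ) = 0 := by
      apply hφ
      rw [h3, map_zero]
    exact absurd h4 (X_ne_zero j)

/-- the general member over the ring `ℂ[y]` -/
noncomputable def bertF [Fintype ι] (f : ι → MvPolynomial σ ℂ) :
    MvPolynomial σ (MvPolynomial ι ℂ) :=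
  ∑ j, C (X j) * map C (f j)

/-- the ideal of its partial derivatives -/
noncomputable def bertI [Fintype ι] (f : ι → MvPolynomial σ ℂ) :
    Ideal (MvPolynomial σ (MvPolynomial ι ℂ)) :=
  Ideal.span (Set.range fun l => pderiv l (bertF f))

theorem bert_pderiv [Fintype ι] (f : ι → MvPolynomial σ ℂ) (l : σ) :
    pderiv l (bertF f) = ∑ j, C (X j) * map C (pderiv l (f j)) := by
  rw [bertF, map_sum]
  refine Finset.sum_congr rfl fun j _ => ?_
  rw [pderiv_C_mul, pderiv_map]

/-- the `x_i` are in the radical over the field `ℂ(y)` -/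
theorem bert_rad [Fintype σ] [Fintype ι] [Nonempty ι] (f : ι → MvPolynomial σ ℂ) (d : ℕ)
    (hd : 0 < d) (hf : ∀ j, (f j).IsHomogeneous d)
    (H : ∀ z : σ → ℂ, z ≠ 0 → (∀ j, eval z (f j) = 0) →
      ∀ c : ι → ℂ, (∀ l, ∑ j, c j * eval z (pderiv l (f j)) = 0) → c = 0)
    (K : Type) [Field K] [CharZero K] (φ : MvPolynomial ι ℂ →+* K)
    (hφ : Function.Injective φ)
    (E : ι → K → K) (hadd : ∀ k a b, E k (a + b) = E k a + E k b)
    (hmul : ∀ k a b, E k (a * b) = a * E k b + b * E k a)
    (hE : ∀ k a, E k (φ a) = φ (pderiv k a)) (i : σ) :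
    (X i : MvPolynomial σ K) ∈ ((bertI f).map (map φ)).radical := by
  rw [Ideal.radical_eq_jacobson, Ideal.jacobson, Submodule.mem_sInf]
  rintro 𝔐 ⟨hle, hmax⟩
  let _ : Field (MvPolynomial σ K ⧸ 𝔐) := Ideal.Quotient.field 𝔐
  have _ : Module.Finite K (MvPolynomial σ K ⧸ 𝔐) :=
    finite_of_finite_type_of_isJacobsonRing K (MvPolynomial σ K ⧸ 𝔐)
  have hmk : ∀ p : MvPolynomial σ ℂ, Ideal.Quotient.mk 𝔐 (map φ (map C p)) =
      eval₂ ((algebraMap K (MvPolynomial σ K ⧸ 𝔐)).comp (φ.comp C))
        (fun l => Ideal.Quotient.mk 𝔐 (X l)) p := by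
    intro p
    induction p using MvPolynomial.induction_on with
    | C a =>
      rw [map_C, map_C, eval₂_C]
      rfl
    | add p q hp hq => simp only [map_add, hp, hq, eval₂_add]
    | mul_X p l hp => simp only [map_mul, hp, map_X, eval₂_mul, eval₂_X]
  have hA' : ∀ a, Ideal.Quotient.mk 𝔐 (map φ (C a)) =
      algebraMap K (MvPolynomial σ K ⧸ 𝔐) (φ a) := by
    intro a
    rw [map_C]
    rfl
  have hx : ∀ l, ∑ j, algebraMap K (MvPolynomial σ K ⧸ 𝔐) (φ (X j)) *
      eval₂ ((algebraMap K (MvPolynomial σ K ⧸ 𝔐)).comp (φ.comp C))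
        (fun l => Ideal.Quotient.mk 𝔐 (X l)) (pderiv l (f j)) = 0 := by
    intro l
    have h1 : map φ (pderiv l (bertF f)) ∈ 𝔐 :=
      hle (Ideal.mem_map_of_mem _ (Ideal.subset_span ⟨l, rfl⟩))
    rw [← Ideal.Quotient.eq_zero_iff_mem, bert_pderiv, map_sum, map_sum] at h1
    rw [← h1]
    refine Finset.sum_congr rfl fun j _ => ?_
    rw [map_mul, map_mul, hA', hmk]
  exact Ideal.Quotient.eq_zero_iff_mem.1
    (bert_field f d hd hf H K (MvPolynomial σ K ⧸ 𝔐) φ hφ E hadd hmul hE _ hx i)

attribute [local instance] MvPolynomial.algebraMvPolynomial in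
/-- clearing denominators -/
theorem bert_clear (A K : Type) [CommRing A] [IsDomain A] [Field K] [Algebra A K]
    [IsFractionRing A K] (I : Ideal (MvPolynomial σ A)) (p : MvPolynomial σ A)
    (h : map (algebraMap A K) p ∈ I.map (map (algebraMap A K))) :
    ∃ s : A, s ≠ 0 ∧ C s * p ∈ I := by
  have h2 : map (algebraMap A K) p ∈
      Ideal.map (algebraMap (MvPolynomial σ A) (MvPolynomial σ K)) I := h
  rw [IsLocalization.mem_map_algebraMap_iff ((nonZeroDivisors A).map (C (σ := σ)))] at h2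
  obtain ⟨⟨a, s⟩, h3⟩ := h2
  obtain ⟨s, t, ht, rfl⟩ := s
  refine ⟨t, nonZeroDivisors.ne_zero ht, ?_⟩
  have h4 : C t * p = (a : MvPolynomial σ A) := by
    apply map_injective (algebraMap A K) (IsFractionRing.injective A K)
    rw [map_mul, mul_comm]
    exact h3
  rw [h4]
  exact a.2

/-- **A general member of a linear system which is smooth along its base locus is smooth.** -/
theorem bert_exists [Fintype σ] [Fintype ι] [Nonempty ι] (f : ι → MvPolynomial σ ℂ) (d : ℕ)
    (hd : 0 < d) (hf : ∀ j, (f j).IsHomogeneous d)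
    (H : ∀ z : σ → ℂ, z ≠ 0 → (∀ j, eval z (f j) = 0) →
      ∀ c : ι → ℂ, (∀ l, ∑ j, c j * eval z (pderiv l (f j)) = 0) → c = 0) :
    ∃ c : ι → ℂ, ∀ z : σ → ℂ, (∀ l, eval z (pderiv l (∑ j, C (c j) * f j)) = 0) → z = 0 := by
  classical
  have _ : CharZero (FractionRing (MvPolynomial ι ℂ)) :=
    charZero_of_injective_algebraMap
      (FaithfulSMul.algebraMap_injective ℂ (FractionRing (MvPolynomial ι ℂ)))
  have h1 : ∀ i : σ, ∃ (M : ℕ) (s : MvPolynomial ι ℂ), s ≠ 0 ∧ C s * X i ^ M ∈ bertI f := by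
    intro i
    obtain ⟨M, hM⟩ := bert_rad f d hd hf H (FractionRing (MvPolynomial ι ℂ))
      (algebraMap (MvPolynomial ι ℂ) (FractionRing (MvPolynomial ι ℂ)))
      (IsFractionRing.injective _ _)
      (fun k a => extD (pderiv k : Derivation ℂ (MvPolynomial ι ℂ) (MvPolynomial ι ℂ)) a)
      (fun k a b => map_add _ a b) (fun k a b => Derivation.leibniz _ a b)
      (fun k a => extD_alg _ a) i
    obtain ⟨s, hs, hs'⟩ := bert_clear (MvPolynomial ι ℂ) (FractionRing (MvPolynomial ι ℂ))
      (bertI f) (X i ^ M) (by rw [map_pow, map_X]; exact hM)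
    exact ⟨M, s, hs, hs'⟩
  choose M s hs hM using h1
  obtain ⟨c, hc⟩ : ∃ c : ι → ℂ, eval c (∏ i, s i) ≠ 0 := by
    by_contra hall
    push Not at hall
    have : (∏ i, s i) = 0 := MvPolynomial.funext fun c => by rw [hall c, map_zero]
    exact Finset.prod_ne_zero_iff.2 (fun i _ => hs i) this
  refine ⟨c, fun z hz => ?_⟩
  funext i
  have hmap : ∀ p : MvPolynomial σ ℂ, eval₂Hom (eval c) z (map C p) = eval z p := by
    intro p
    induction p using MvPolynomial.induction_on with
    | C a => rw [map_C, eval₂Hom_C, eval_C, eval_C]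
    | add p q hp hq => rw [map_add, map_add, map_add, hp, hq]
    | mul_X p l hp => rw [map_mul, map_mul, map_mul, hp, map_X, eval₂Hom_X', eval_X]
  have h2 : bertI f ≤ RingHom.ker (eval₂Hom (eval c) z :
      MvPolynomial σ (MvPolynomial ι ℂ) →+* ℂ) := by
    rw [bertI, Ideal.span_le]
    rintro q ⟨l, rfl⟩
    show eval₂Hom (eval c) z (pderiv l (bertF f)) = 0
    rw [bert_pderiv, map_sum, ← hz l, map_sum, map_sum]
    refine Finset.sum_congr rfl fun j _ => ?_
    rw [map_mul, eval₂Hom_C, eval_X, pderiv_C_mul, map_mul, eval_C, hmap]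
  have h3 : eval₂Hom (eval c) z (C (s i) * X i ^ M i) = 0 := h2 (hM i)
  rw [map_mul, map_pow, eval₂Hom_C, eval₂Hom_X'] at h3
  rcases mul_eq_zero.1 h3 with h4 | h4
  · rw [map_prod] at hc
    exact absurd h4 (Finset.prod_ne_zero_iff.1 hc i (Finset.mem_univ i))
  · by_contra h0
    exact pow_ne_zero _ h0 h4

end Main

end Pool.Agent.U184
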