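import Pool.Agent.U184.Per3

set_option autoImplicit false

/-! # Definite forms have a period -/

namespace Pool.Agent.U184

open MvPolynomial MeasureTheory

section analysis

variable {σ : Type} [Fintype σ]

/-- the value at a real point -/
noncomputable def ev (p : MvPolynomial σ ℂ) (x : σ → ℝ) : ℂ := eval (fun i => (x i : ℂ)) p

theorem ev_cont (p : MvPolynomial σ ℂ) : Continuous (ev p) := by
  unfold ev
  have h1 : Continuous fun y : σ → ℂ => eval y p := MvPolynomial.continuous_eval p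
  exact h1.comp (continuous_pi fun i => Complex.continuous_ofReal.comp (continuous_apply i))

theorem ev_line [DecidableEq σ] (p : MvPolynomial σ ℂ) (x : σ → ℝ) (i : σ) :
    HasLineDerivAt ℝ (ev p) (ev (pderiv i p) x) x (Pi.single i 1) := by
  unfold ev
  induction p using MvPolynomial.induction_on with
  | C a =>
    simp only [eval_C, pderiv_C, map_zero]
    exact hasDerivAt_const _ _
  | add p q hp hq =>
    simp only [map_add]
    exact HasDerivAt.add hp hq
  | mul_X p j hp =>
    have h1 : HasDerivAt (fun t : ℝ => (((x + t • (Pi.single i 1 : σ → ℝ)) j : ℝ) : ℂ))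
        ((Pi.single i 1 : σ → ℝ) j : ℂ) 0 := by
      apply HasDerivAt.ofReal_comp
      have h2 : (fun t : ℝ => (x + t • (Pi.single i 1 : σ → ℝ)) j) =
          fun t : ℝ => x j + t * (Pi.single i 1 : σ → ℝ) j := by
        funext t
        rw [Pi.add_apply, Pi.smul_apply, smul_eq_mul]
      rw [h2]
      have h3 := ((hasDerivAt_id (0 : ℝ)).mul_const ((Pi.single i 1 : σ → ℝ) j)).const_add (x j)
      rw [one_mul] at h3
      exact h3
    have h4 := HasDerivAt.mul hp h1
    simp only [zero_smul, add_zero] at h4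
    have h5 : eval (fun i => (x i : ℂ)) (pderiv i (p * X j)) =
        eval (fun i => (x i : ℂ)) (pderiv i p) * (x j : ℂ) +
          eval (fun i => (x i : ℂ)) p * (((Pi.single i 1 : σ → ℝ) j : ℝ) : ℂ) := by
      rw [pderiv_mul, map_add, map_mul, map_mul, eval_X, pderiv_X]
      congr 2
      by_cases hij : j = i
      · subst hij
        rw [Pi.single_eq_same, Pi.single_eq_same, map_one, Complex.ofReal_one]
      · rw [Pi.single_eq_of_ne hij, Pi.single_eq_of_ne hij, map_zero,
          Complex.ofReal_zero]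
    rw [h5]
    refine HasDerivAt.congr_of_eventuallyEq h4 (Filter.Eventually.of_forall fun t => ?_)
    simp only [map_mul, eval_X]
    rfl

theorem ev_growth (p : MvPolynomial σ ℂ) :
    ∃ (K : ℝ) (N : ℕ), 0 ≤ K ∧ ∀ x, ‖ev p x‖ ≤ K * (1 + ‖x‖) ^ N := by
  unfold ev
  induction p using MvPolynomial.induction_on with
  | C a => exact ⟨‖a‖, 0, norm_nonneg _, fun x => by rw [eval_C, pow_zero, mul_one]⟩
  | add p q hp hq =>
    obtain ⟨K1, N1, h1, h2⟩ := hp
    obtain ⟨K2, N2, h3, h4⟩ := hq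
    refine ⟨K1 + K2, max N1 N2, add_nonneg h1 h3, fun x => ?_⟩
    have h5 : (1 : ℝ) ≤ 1 + ‖x‖ := le_add_of_nonneg_right (norm_nonneg _)
    rw [map_add]
    refine (norm_add_le _ _).trans ?_
    rw [add_mul]
    refine add_le_add ((h2 x).trans ?_) ((h4 x).trans ?_)
    · exact mul_le_mul_of_nonneg_left (pow_le_pow_right₀ h5 (le_max_left _ _)) h1
    · exact mul_le_mul_of_nonneg_left (pow_le_pow_right₀ h5 (le_max_right _ _)) h3
  | mul_X p i hp =>
    obtain ⟨K1, N1, h1, h2⟩ := hp
    refine ⟨K1, N1 + 1, h1, fun x => ?_⟩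
    rw [map_mul, eval_X, norm_mul, pow_succ, ← mul_assoc, Complex.norm_real]
    refine mul_le_mul (h2 x) ((norm_le_pi_norm x i).trans (by linarith)) (norm_nonneg _) ?_
    positivity

theorem exp_bound (c : ℝ) (hc : 0 < c) (e : ℕ) (he : 0 < e) (M : ℕ) :
    ∃ K : ℝ, 0 ≤ K ∧ ∀ t : ℝ, 0 ≤ t → (1 + t) ^ M * Real.exp (-(c * t ^ e)) ≤ K := by
  refine ⟨(M.factorial : ℝ) * (c⁻¹) ^ M * Real.exp (2 * c), by positivity, fun t ht => ?_⟩
  have h1 : t - 1 ≤ t ^ e := by
    rcases le_total 1 t with h | h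
    · have : t ≤ t ^ e := le_self_pow₀ h (by omega)
      linarith
    · have : 0 ≤ t ^ e := pow_nonneg ht e
      linarith
  have h2 : Real.exp (-(c * t ^ e)) ≤ Real.exp (2 * c - c * (1 + t)) := by
    apply Real.exp_le_exp.2
    nlinarith
  have h3 : (c * (1 + t)) ^ M / (M.factorial : ℝ) ≤ Real.exp (c * (1 + t)) :=
    Real.pow_div_factorial_le_exp _ (by positivity) M
  have hf : (0 : ℝ) < M.factorial := by exact_mod_cast Nat.factorial_pos M
  have h4 : (1 + t) ^ M ≤ (M.factorial : ℝ) * (c⁻¹) ^ M * Real.exp (c * (1 + t)) := by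
    rw [div_le_iff₀ hf, mul_pow] at h3
    have h5 : (c⁻¹) ^ M * (c ^ M * (1 + t) ^ M) ≤
        (c⁻¹) ^ M * (Real.exp (c * (1 + t)) * M.factorial) :=
      mul_le_mul_of_nonneg_left h3 (by positivity)
    rw [← mul_assoc, ← mul_pow, inv_mul_cancel₀ hc.ne', one_pow, one_mul] at h5
    linarith
  calc (1 + t) ^ M * Real.exp (-(c * t ^ e))
      ≤ ((M.factorial : ℝ) * (c⁻¹) ^ M * Real.exp (c * (1 + t))) *
          Real.exp (2 * c - c * (1 + t)) :=
        mul_le_mul h4 h2 (Real.exp_pos _).le (by positivity)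
    _ = (M.factorial : ℝ) * (c⁻¹) ^ M * Real.exp (2 * c) := by
        rw [mul_assoc, ← Real.exp_add]
        congr 2
        ring

theorem ev_lower (h : MvPolynomial σ ℂ) (e : ℕ) (hh : h.IsHomogeneous e)
    (hpos : ∀ x : σ → ℝ, x ≠ 0 → ∃ r : ℝ, 0 < r ∧ ev h x = r) :
    ∃ c : ℝ, 0 < c ∧ ∀ x, x ≠ 0 → c * ‖x‖ ^ e ≤ (ev h x).re := by
  have hhom : ∀ (t : ℝ) (x : σ → ℝ), ev h (t • x) = (t : ℂ) ^ e * ev h x := by
    intro t x
    have h1 := Pool.Agent.W574.CN.aeval_mul_homog (fun i : σ => (x i : ℂ)) (t : ℂ) h e hh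
    have h0 : ∀ y : σ → ℂ, aeval y h = eval y h := fun y => by
      rw [← coe_aeval_eq_eval]
      rfl
    rw [h0, h0] at h1
    unfold ev
    rw [← h1]
    congr 1
    refine congrArg _ (funext fun i => ?_)
    rw [Pi.smul_apply, smul_eq_mul, Complex.ofReal_mul]
  by_cases hne : (Metric.sphere (0 : σ → ℝ) 1).Nonempty
  · obtain ⟨y, hy, hmin⟩ := (isCompact_sphere (0 : σ → ℝ) 1).exists_isMinOn hne
      ((Complex.continuous_re.comp (ev_cont h)).continuousOn)
    have hy0 : y ≠ 0 := by
      intro h0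
      rw [h0] at hy
      simp at hy
    obtain ⟨r, hr, hyr⟩ := hpos y hy0
    refine ⟨r, hr, fun x hx => ?_⟩
    have hxn : ‖x‖ ≠ 0 := norm_ne_zero_iff.2 hx
    have h1 : x = ‖x‖ • (‖x‖⁻¹ • x) := by rw [smul_smul, mul_inv_cancel₀ hxn, one_smul]
    have h2 : ‖x‖⁻¹ • x ∈ Metric.sphere (0 : σ → ℝ) 1 := by
      rw [mem_sphere_zero_iff_norm, norm_smul, norm_inv, norm_norm, inv_mul_cancel₀ hxn]
    have h3 := hmin h2
    simp only [Function.comp_apply, Set.mem_ofPred_eq] at h3
    rw [hyr, Complex.ofReal_re] at h3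
    have h4 : (ev h x).re = ‖x‖ ^ e * (ev h (‖x‖⁻¹ • x)).re := by
      conv_lhs => rw [h1, hhom]
      rw [← Complex.ofReal_pow, Complex.re_ofReal_mul]
    rw [h4, mul_comm]
    exact mul_le_mul_of_nonneg_left h3 (by positivity)
  · refine ⟨1, one_pos, fun x hx => absurd ?_ hne⟩
    have hxn : ‖x‖ ≠ 0 := norm_ne_zero_iff.2 hx
    exact ⟨‖x‖⁻¹ • x, by
      rw [mem_sphere_zero_iff_norm, norm_smul, norm_inv, norm_norm, inv_mul_cancel₀ hxn]⟩

/-- the integrand -/
noncomputable def dens (h p : MvPolynomial σ ℂ) (x : σ → ℝ) : ℂ := ev p x * Complex.exp (-(ev h x))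

theorem dens_int [Nonempty σ] (h : MvPolynomial σ ℂ) (e : ℕ) (he : 0 < e) (hh : h.IsHomogeneous e)
    (hpos : ∀ x : σ → ℝ, x ≠ 0 → ∃ r : ℝ, 0 < r ∧ ev h x = r) (p : MvPolynomial σ ℂ) :
    Integrable (dens h p) := by
  obtain ⟨c, hc, hlow⟩ := ev_lower h e hh hpos
  obtain ⟨K, N, hK, hgr⟩ := ev_growth p
  set r : ℕ := Module.finrank ℝ (σ → ℝ) + 1 with hr
  obtain ⟨K', hK', hb⟩ := exp_bound c hc e he (N + r)
  have hr' : ((Module.finrank ℝ (σ → ℝ) : ℕ) : ℝ) < (r : ℝ) := by
    rw [hr]
    push_cast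
    linarith
  have hint := (integrable_one_add_norm (μ := (volume : Measure (σ → ℝ))) hr').const_mul (K * K')
  refine hint.mono' ?_ ?_
  · unfold dens
    exact ((ev_cont p).mul (Complex.continuous_exp.comp (ev_cont h).neg)).aestronglyMeasurable
  · have hae : ∀ᵐ x : σ → ℝ, x ≠ 0 := by
      rw [ae_iff]
      simp only [ne_eq, not_not]
      have : ({x : σ → ℝ | x = 0} : Set (σ → ℝ)) = {0} := rfl
      rw [this]
      exact measure_singleton 0
    filter_upwards [hae] with x hx
    unfold dens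
    rw [norm_mul, Complex.norm_exp, Complex.neg_re]
    have h1 : (0 : ℝ) ≤ ‖x‖ := norm_nonneg _
    have h2 : Real.exp (-(ev h x).re) ≤ Real.exp (-(c * ‖x‖ ^ e)) := by
      apply Real.exp_le_exp.2
      have := hlow x hx
      linarith
    have h3 := hb ‖x‖ h1
    have h4 : (0 : ℝ) < 1 + ‖x‖ := by linarith
    rw [Real.rpow_neg h4.le, Real.rpow_natCast]
    have h5 : (1 + ‖x‖) ^ N * Real.exp (-(c * ‖x‖ ^ e)) ≤ K' * ((1 + ‖x‖) ^ r)⁻¹ := by
      rw [le_mul_inv_iff₀ (by positivity)]
      calc (1 + ‖x‖) ^ N * Real.exp (-(c * ‖x‖ ^ e)) * (1 + ‖x‖) ^ r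
          = (1 + ‖x‖) ^ (N + r) * Real.exp (-(c * ‖x‖ ^ e)) := by rw [pow_add]; ring
        _ ≤ K' := h3
    calc ‖ev p x‖ * Real.exp (-(ev h x).re)
        ≤ (K * (1 + ‖x‖) ^ N) * Real.exp (-(c * ‖x‖ ^ e)) :=
          mul_le_mul (hgr x) h2 (Real.exp_pos _).le (by positivity)
      _ = K * ((1 + ‖x‖) ^ N * Real.exp (-(c * ‖x‖ ^ e))) := by ring
      _ ≤ K * (K' * ((1 + ‖x‖) ^ r)⁻¹) := mul_le_mul_of_nonneg_left h5 hK
      _ = K * K' * ((1 + ‖x‖) ^ r)⁻¹ := by ring

theorem dens_line [DecidableEq σ] (h p : MvPolynomial σ ℂ) (x : σ → ℝ) (i : σ) :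
    HasLineDerivAt ℝ (dens h p) (dens h (pderiv i p - pderiv i h * p) x) x (Pi.single i 1) := by
  have h1 := ev_line p x i
  have h2 := ev_line h x i
  have h3 : HasDerivAt (fun t : ℝ => Complex.exp (-(ev h (x + t • Pi.single i 1))))
      (Complex.exp (-(ev h x)) * -(ev (pderiv i h) x)) 0 := by
    have h4 := (HasDerivAt.neg h2).cexp
    have h6 : (-fun t : ℝ => ev h (x + t • Pi.single i 1)) 0 = -(ev h x) := by
      rw [Pi.neg_apply, zero_smul, add_zero]
    rw [h6] at h4
    exact h4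
  have h5 := HasDerivAt.mul h1 h3
  simp only [zero_smul, add_zero] at h5
  have h6 : dens h (pderiv i p - pderiv i h * p) x =
      ev (pderiv i p) x * Complex.exp (-(ev h x)) +
        ev p x * (Complex.exp (-(ev h x)) * -(ev (pderiv i h) x)) := by
    have h7 : ev (pderiv i p - pderiv i h * p) x =
        ev (pderiv i p) x - ev (pderiv i h) x * ev p x := by
      unfold ev
      rw [map_sub, map_mul]
    rw [dens, h7]
    ring
  rw [h6]
  exact h5

theorem dens_zero [DecidableEq σ] [Nonempty σ] (h : MvPolynomial σ ℂ) (e : ℕ) (he : 0 < e)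
    (hh : h.IsHomogeneous e)
    (hpos : ∀ x : σ → ℝ, x ≠ 0 → ∃ r : ℝ, 0 < r ∧ ev h x = r) (p : MvPolynomial σ ℂ) (i : σ) :
    ∫ x, dens h (pderiv i p - pderiv i h * p) x = 0 := by
  have h1 := dens_int h e he hh hpos (pderiv i p - pderiv i h * p)
  have h2 := dens_int h e he hh hpos p
  have h3 := integral_bilinear_hasLineDerivAt_right_eq_neg_left_of_integrable
    (μ := (volume : Measure (σ → ℝ))) (f := fun _ : σ → ℝ => (1 : ℂ)) (f' := fun _ => 0)
    (g := dens h p) (g' := dens h (pderiv i p - pderiv i h * p)) (v := Pi.single i 1)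
    (B := ContinuousLinearMap.mul ℝ ℂ) (by simp) (by simpa using h1) (by simpa using h2)
    (fun x _ => hasDerivAt_const _ _) (fun x _ => dens_line h p x i)
  simpa using h3

/-- **Forms which are positive on `ℝ ^ n` have a period.** -/
theorem period_of_pos [Nonempty σ] (h : MvPolynomial σ ℂ) (e : ℕ) (he : 0 < e)
    (hh : h.IsHomogeneous e)
    (hpos : ∀ x : σ → ℝ, x ≠ 0 → ∃ r : ℝ, 0 < r ∧ ev h x = r) : HasPeriod h := by
  classical
  have hint := dens_int h e he hh hpos
  set c : ℂ := ∫ x, dens h 1 x with hc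
  have hc0 : c ≠ 0 := by
    have h1 : ∀ᵐ x : σ → ℝ, dens h 1 x = ((Real.exp (-(ev h x).re) : ℝ) : ℂ) := by
      have hae : ∀ᵐ x : σ → ℝ, x ≠ 0 := by
        rw [ae_iff]
        simp only [ne_eq, not_not]
        have : ({x : σ → ℝ | x = 0} : Set (σ → ℝ)) = {0} := rfl
        rw [this]
        exact measure_singleton 0
      filter_upwards [hae] with x hx
      obtain ⟨r, hr, hxr⟩ := hpos x hx
      unfold dens
      rw [hxr, Complex.ofReal_re]
      have h2 : ev (1 : MvPolynomial σ ℂ) x = 1 := by unfold ev; rw [map_one]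
      rw [h2, one_mul]
      push_cast
      rfl
    have h2 : Integrable (fun x : σ → ℝ => Real.exp (-(ev h x).re)) := by
      have h3 := (hint 1).congr h1
      have h4 := h3.re
      exact h4.congr (Filter.Eventually.of_forall fun x => Complex.ofReal_re _)
    rw [hc, integral_congr_ae h1, integral_complex_ofReal]
    have h3 := integral_exp_pos (f := fun x : σ → ℝ => -(ev h x).re)
      (μ := (volume : Measure (σ → ℝ))) h2
    exact Complex.ofReal_ne_zero.2 h3.ne'
  have hadd : ∀ p q : MvPolynomial σ ℂ, dens h (p + q) = dens h p + dens h q := by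
    intro p q
    funext x
    rw [Pi.add_apply]
    unfold dens ev
    rw [map_add]
    ring
  have hsm : ∀ (a : ℂ) (p : MvPolynomial σ ℂ), dens h (a • p) = fun x => a * dens h p x := by
    intro a p
    funext x
    unfold dens ev
    rw [smul_eval]
    ring
  refine ⟨{ toFun := fun p => c⁻¹ * ∫ x, dens h p x
            map_add' := fun p q => ?_
            map_smul' := fun a p => ?_ }, fun i p => ?_, ?_⟩
  · rw [hadd, ← mul_add]
    congr 1
    exact integral_add (hint p) (hint q)
  · rw [hsm, integral_const_mul, RingHom.id_apply, smul_eq_mul]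
    ring
  · show c⁻¹ * ∫ x, dens h (pderiv i p) x = c⁻¹ * ∫ x, dens h (pderiv i h * p) x
    congr 1
    have h1 := dens_zero h e he hh hpos p i
    have h2 : dens h (pderiv i p - pderiv i h * p) =
        fun x => dens h (pderiv i p) x - dens h (pderiv i h * p) x := by
      funext x
      unfold dens ev
      rw [map_sub]
      ring
    rw [h2, integral_sub (hint _) (hint _), sub_eq_zero] at h1
    exact h1
  · show c⁻¹ * ∫ x, dens h 1 x = 1
    exact inv_mul_cancel₀ hc0

end analysis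

/-- linear changes of the variables -/
theorem period_linear {σ : Type} [Fintype σ] [DecidableEq σ] (A : Matrix σ σ ℂ) (hA : A.det ≠ 0)
    (h : MvPolynomial σ ℂ)
    (hp : HasPeriod (aeval (fun i => ∑ j, C (A i j) * X j : σ → MvPolynomial σ ℂ) h)) :
    HasPeriod h := by
  set θ : MvPolynomial σ ℂ →ₐ[ℂ] MvPolynomial σ ℂ := aeval fun i => ∑ j, C (A i j) * X j with hθ
  obtain ⟨L, hL, hL1⟩ := hp
  have hder : ∀ (j : σ) (p : MvPolynomial σ ℂ),
      pderiv j (θ p) = ∑ i, C (A i j) * θ (pderiv i p) := by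
    intro j p
    induction p using MvPolynomial.induction_on with
    | C a =>
      have h1 : θ (C a) = C a := aeval_C _ _
      rw [h1, pderiv_C]
      symm
      refine Finset.sum_eq_zero fun i _ => ?_
      rw [pderiv_C, map_zero, mul_zero]
    | add p q hp hq =>
      rw [map_add, map_add, hp, hq, ← Finset.sum_add_distrib]
      refine Finset.sum_congr rfl fun i _ => ?_
      rw [map_add, map_add, mul_add]
    | mul_X p l hp =>
      have h1 : θ (X l) = ∑ j, C (A l j) * X j := aeval_X _ _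
      have h2 : pderiv j (θ (X l)) = C (A l j) := by
        rw [h1, map_sum, Finset.sum_eq_single j]
        · rw [pderiv_C_mul, pderiv_X_self, mul_one]
        · intro k _ hk
          rw [pderiv_C_mul, pderiv_X_of_ne hk, mul_zero]
        · intro h0
          exact absurd (Finset.mem_univ j) h0
      rw [map_mul, pderiv_mul, hp, h2, Finset.sum_mul]
      have h3 : ∀ i, C (A i j) * θ (pderiv i (p * X l)) =
          C (A i j) * θ (pderiv i p) * θ (X l) +
            C (A i j) * (θ p * θ (pderiv i (X l))) := by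
        intro i
        rw [pderiv_mul, map_add, map_mul, map_mul]
        ring
      rw [Finset.sum_congr rfl fun i _ => h3 i, Finset.sum_add_distrib]
      congr 1
      rw [Finset.sum_eq_single l]
      · rw [pderiv_X_self, map_one, mul_one, mul_comm]
      · intro i _ hi
        rw [pderiv_X_of_ne (Ne.symm hi), map_zero, mul_zero, mul_zero]
      · intro h0
        exact absurd (Finset.mem_univ l) h0
  refine ⟨L ∘ₗ θ.toLinearMap, fun i p => ?_, ?_⟩
  · show L (θ (pderiv i p)) = L (θ (pderiv i h * p))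
    have hinv : ∀ q : MvPolynomial σ ℂ,
        θ (pderiv i q) = ∑ j, C (A⁻¹ j i) * pderiv j (θ q) := by
      intro q
      have h1 : ∀ j, C (A⁻¹ j i) * pderiv j (θ q) =
          ∑ k, C (A k j * A⁻¹ j i) * θ (pderiv k q) := by
        intro j
        rw [hder, Finset.mul_sum]
        refine Finset.sum_congr rfl fun k _ => ?_
        rw [map_mul]
        ring
      rw [Finset.sum_congr rfl fun j _ => h1 j, Finset.sum_comm]
      have h2 : ∀ k, ∑ j, C (A k j * A⁻¹ j i) * θ (pderiv k q) =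
          C ((A * A⁻¹) k i) * θ (pderiv k q) := by
        intro k
        rw [← Finset.sum_mul, Matrix.mul_apply, map_sum]
      rw [Finset.sum_congr rfl fun k _ => h2 k,
        Matrix.mul_nonsing_inv A ((isUnit_iff_ne_zero).2 hA), Finset.sum_eq_single i]
      · rw [Matrix.one_apply_eq, map_one, one_mul]
      · intro k _ hk
        rw [Matrix.one_apply_ne hk, map_zero, zero_mul]
      · intro h0
        exact absurd (Finset.mem_univ i) h0
    have hC : ∀ (a : ℂ) (W : MvPolynomial σ ℂ), L (C a * W) = a * L W := by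
      intro a W
      rw [← smul_eq_C_mul, map_smul, smul_eq_mul]
    rw [map_mul, hinv p, hinv h, map_sum, Finset.sum_mul, map_sum]
    refine Finset.sum_congr rfl fun j _ => ?_
    rw [hC, hL, mul_assoc, hC]
  · show L (θ 1) = 1
    rw [map_one, hL1]

end Pool.Agent.U184
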