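import Pool.Agent.U184.Mem
import Pool.Agent.U184.Real

set_option autoImplicit false

/-! # Smooth complete intersections of the same degree -/

namespace Pool.Agent.U184

open MvPolynomial Pool.Agent.H628R4.TP Pool.Agent.W574.HS Pool.Agent.W574.SM
  Pool.Agent.TH192.DT Pool.Agent.Y228.RR Pool.Agent.Y231.RF Pool.Agent.R852.SC

/-- The forms `f j` define a smooth complete intersection in the projective space: at each common
zero `z ≠ 0` of the `f j` the gradients of the `f j` are linearly independent. (If there is no common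
zero `z ≠ 0`, this is the case of an empty intersection.) -/
def SmoothCI {σ κ : Type} [Fintype κ] (f : κ → MvPolynomial σ ℂ) : Prop :=
  ∀ z : σ → ℂ, z ≠ 0 → (∀ j, eval z (f j) = 0) →
    ∀ c : κ → ℂ, (∀ l, ∑ j, c j * eval z (pderiv l (f j)) = 0) → c = 0

/-- a smooth member -/
theorem ci_member {σ κ : Type} [Fintype σ] [Nonempty σ] [Fintype κ] [Nonempty κ]
    (f : κ → MvPolynomial σ ℂ) (d : ℕ) (hd : 2 ≤ d) (hf : ∀ j, (f j).IsHomogeneous d)
    (H : SmoothCI f) :
    ∃ h : MvPolynomial σ ℂ, h ∈ Submodule.span ℂ (Set.range f) ∧ h.IsHomogeneous d ∧ h ≠ 0 ∧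
      IsoForm h d := by
  obtain ⟨c, hc⟩ := bert_exists f d (by omega) hf H
  refine ⟨∑ j, C (c j) * f j, ?_, ?_, ?_, hd, hc⟩
  · refine Submodule.sum_mem _ fun j _ => ?_
    rw [← smul_eq_C_mul]
    exact Submodule.smul_mem _ _ (Submodule.subset_span ⟨j, rfl⟩)
  · refine IsHomogeneous.sum _ _ _ fun j _ => ?_
    have := (isHomogeneous_C σ (c j)).mul (hf j)
    rwa [zero_add] at this
  · intro h0
    rw [h0] at hc
    obtain ⟨i⟩ := ‹Nonempty σ›
    have h1 := congrFun (hc (fun _ => 1) fun l => by rw [map_zero, map_zero]) i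
    exact one_ne_zero h1

theorem ci_good {σ κ : Type} [Fintype σ] [Nonempty σ] [Fintype κ] [Nonempty κ]
    (f : κ → MvPolynomial σ ℂ) (d : ℕ) (hd : 2 ≤ d) (hf : ∀ j, (f j).IsHomogeneous d)
    (H : SmoothCI f) (a : ℕ) (ha : a ≠ 0) : GoodSystem (fun _ : Unit => f) fun _ => a := by
  obtain ⟨h, hm, hh, h0, hI⟩ := ci_member f d hd hf H
  exact CommonMember.good (g := fun _ : Unit => f)
    ⟨d, h, hh, h0, period_of_iso h d hh hI,
      fun _ => ⟨1, 1, one_pos, one_pos, by rw [pow_one, pow_one]; exact hm⟩⟩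
    (fun _ => a) ⟨(), ha⟩

/-- near its points, the cone over a smooth complete intersection is smooth -/
theorem ci_smooth {σ κ : Type} [Fintype σ] [DecidableEq σ] [Fintype κ] [DecidableEq κ] [Nonempty κ]
    (f : κ → MvPolynomial σ ℂ) (H : SmoothCI f) (p : σ → ℂ) (hp : p ≠ 0)
    (hfp : ∀ j, eval p (f j) = 0) :
    PowersOfSmooth (fun _ : Unit => f) (Fintype.card κ) (fun _ => 1) p := by
  classical
  set v : κ → σ → ℂ := fun j l => eval p (pderiv l (f j)) with hv
  have hli : LinearIndependent ℂ v := by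
    rw [Fintype.linearIndependent_iff]
    intro c hc
    have h1 := H p hp hfp c fun l => by
      have := congrFun hc l
      simpa [hv] using this
    intro j
    exact congrFun h1 j
  have hvinj : Function.Injective v := hli.injective
  have hlo : LinearIndepOn ℂ id (Set.range v) := hli.linearIndepOn_id
  set W : Set (σ → ℂ) := hlo.extend (Set.subset_univ _) with hW
  set B : Module.Basis W ℂ (σ → ℂ) := Module.Basis.extend hlo with hB
  have hBx : ∀ x : W, B x = x := fun x => Module.Basis.extend_apply_self hlo x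
  have hBfin : Finite W := Module.Finite.finite_basis B
  have _ := Fintype.ofFinite W
  have hcard : Fintype.card W = Fintype.card σ := by
    rw [← Module.finrank_eq_card_basis B, Module.finrank_fintype_fun_eq_card]
  set ε : W ≃ σ := Fintype.equivOfCardEq hcard with hε
  have hsub : ∀ j, v j ∈ W := fun j => Module.Basis.subset_extend hlo ⟨j, rfl⟩
  set w : κ → W := fun j => ⟨v j, hsub j⟩ with hw
  have hwinj : Function.Injective w := fun x y hxy => hvinj (congrArg Subtype.val hxy)
  have hex : ∀ s : σ, ∃ q : MvPolynomial σ ℂ, (∀ i, eval p (pderiv i q) = (ε.symm s : σ → ℂ) i) ∧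
      ∀ j, ε (w j) = s → q = f j := by
    intro s
    by_cases hs : ∃ j, ε (w j) = s
    · obtain ⟨j, rfl⟩ := hs
      refine ⟨f j, fun i => ?_, fun j' hj' => ?_⟩
      · rw [Equiv.symm_apply_apply]
      · rw [hwinj (ε.injective hj')]
    · refine ⟨∑ i, C ((ε.symm s : σ → ℂ) i) * X i, fun i => ?_, fun j hj => absurd ⟨j, hj⟩ hs⟩
      rw [map_sum, map_sum, Finset.sum_eq_single i]
      · rw [pderiv_C_mul, pderiv_X_self, mul_one, eval_C]
      · intro l _ hl
        rw [pderiv_C_mul, pderiv_X_of_ne hl, mul_zero, map_zero]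
      · intro h0
        exact absurd (Finset.mem_univ i) h0
  choose h hder hhf using hex
  set N : Finset σ := Finset.univ.image fun j => ε (w j) with hN
  have hNr : h '' N = Set.range f := by
    ext q
    constructor
    · rintro ⟨s, hs, rfl⟩
      obtain ⟨j, _, hj⟩ := Finset.mem_image.1 (Finset.mem_coe.1 hs)
      exact ⟨j, (hhf s j hj).symm⟩
    · rintro ⟨j, rfl⟩
      exact ⟨ε (w j), Finset.mem_coe.2 (Finset.mem_image_of_mem _ (Finset.mem_univ j)),
        hhf _ j rfl⟩
  refine ⟨h, N, 1, ?_, ?_, ?_, ?_, by rw [map_one]; exact one_ne_zero, ?_⟩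
  · have hli2 : LinearIndependent ℂ fun s => B (ε.symm s) :=
      B.linearIndependent.comp _ ε.symm.injective
    have h2 : (Matrix.of fun i s => eval p (pderiv i (h s))).transpose =
        Matrix.of fun s => B (ε.symm s) := by
      ext s i
      rw [Matrix.transpose_apply, Matrix.of_apply, Matrix.of_apply, hder, hBx]
    have h3 : IsUnit (Matrix.of fun s => B (ε.symm s)) :=
      Matrix.linearIndependent_rows_iff_isUnit.1 hli2
    rw [← Matrix.det_transpose, h2]
    exact ((Matrix.isUnit_iff_isUnit_det _).1 h3).ne_zero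
  · obtain ⟨j⟩ := ‹Nonempty κ›
    exact ⟨_, Finset.mem_image_of_mem _ (Finset.mem_univ j)⟩
  · rw [hN, Finset.card_image_of_injective _ (fun x y hxy => hwinj (ε.injective hxy)),
      Finset.card_univ]
  · intro s hs
    obtain ⟨j, _, hj⟩ := Finset.mem_image.1 hs
    rw [hhf s j hj]
    exact hfp j
  · intro _
    rw [hNr, pow_one]
    exact ⟨fun j => by rw [one_mul]; exact Ideal.subset_span ⟨j, rfl⟩,
      fun x hx => by rw [one_mul]; exact hx⟩

/-- the exceptional divisor over a smooth cone is a Rees divisor -/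
theorem rees_of_smooth {σ T : Type} [Fintype σ] [DecidableEq σ] [Fintype T] [DecidableEq T]
    {κ : T → Type} [∀ t, Fintype (κ t)] [∀ t, DecidableEq (κ t)]
    (g : (t : T) → κ t → MvPolynomial σ ℂ) (a : T → ℕ) (c : ℕ) (m : T → ℕ) (p : σ → ℂ)
    (hp : PowersOfSmooth g c m p) (hm : 0 < ∑ t, a t * m t) :
    FromRees g a 1 c (∑ t, a t * m t) := by
  obtain ⟨t, _, ht⟩ := Finset.exists_ne_zero_of_sum_ne_zero hm.ne'
  obtain ⟨E, hk, hEm, hR, hc⟩ := smooth_chart g c m p hp (fun t => a t ≠ 0)
    ⟨t, left_ne_zero_of_mul ht, Nat.pos_of_ne_zero (right_ne_zero_of_mul ht)⟩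
  have h1 : E.mul a = ∑ t, a t * m t := by rw [Chart.mul, hEm]
  have h2 := fromRees_self E hR (hc 1 (by rw [map_one]; exact one_ne_zero)) (by rw [h1]; exact hm)
  rw [hk, h1] at h2
  exact h2

/-- The forms `g t j` are real and have no common real zero, in suitable linear coordinates: there is
an invertible complex matrix `A` such that, for all `t` with `a t ≠ 0` and all real vectors `x ≠ 0`,
the values `g t j (A x)` are real, and not all zero. -/
def RealSystem {σ T : Type} [Fintype σ] [DecidableEq σ] {κ : T → Type}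
    (g : (t : T) → κ t → MvPolynomial σ ℂ) (a : T → ℕ) : Prop :=
  ∃ A : Matrix σ σ ℂ, A.det ≠ 0 ∧ ∀ t, a t ≠ 0 → ∀ x : σ → ℝ, x ≠ 0 →
    (∀ j, ∃ r : ℝ, eval (A.mulVec fun i => (x i : ℂ)) (g t j) = r) ∧
      ∃ j, eval (A.mulVec fun i => (x i : ℂ)) (g t j) ≠ 0

/-- **Real systems without real base points.** -/
theorem real_good {σ T : Type} [Fintype σ] [DecidableEq σ] [Fintype T] [DecidableEq T]
    {κ : T → Type} [∀ t, Fintype (κ t)] [∀ t, DecidableEq (κ t)]
    (g : (t : T) → κ t → MvPolynomial σ ℂ) (δ : T → ℕ) (hδ : ∀ t, 0 < δ t)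
    (hg : ∀ t j, (g t j).IsHomogeneous (δ t)) (hg0 : ∀ t, ∃ j, g t j ≠ 0) (a : T → ℕ)
    (ha : ∃ t, a t ≠ 0) (h : RealSystem g a) : GoodSystem g a := by
  classical
  obtain ⟨A, hA, hx⟩ := h
  have : Nonempty T := ⟨ha.choose⟩
  have := nonempty_of g δ hδ hg hg0
  set H : MvPolynomial σ ℂ := ∏ t, (∑ j, g t j ^ 2) ^ a t with hH
  have hHh : H.IsHomogeneous (∑ t, (δ t * 2) * a t) := by
    rw [hH]
    refine IsHomogeneous.prod _ _ _ fun t _ => IsHomogeneous.pow ?_ _
    exact IsHomogeneous.sum _ _ _ fun j _ => (hg t j).pow 2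
  have hpos : 0 < ∑ t, (δ t * 2) * a t := by
    obtain ⟨t, ht⟩ := ha
    exact lt_of_lt_of_le (Nat.mul_pos (Nat.mul_pos (hδ t) two_pos) (Nat.pos_of_ne_zero ht))
      (Finset.single_le_sum (f := fun t => (δ t * 2) * a t) (fun _ _ => Nat.zero_le _)
        (Finset.mem_univ t))
  have hval : ∀ x : σ → ℝ, x ≠ 0 →
      ∃ r : ℝ, 0 < r ∧ eval (A.mulVec fun i => (x i : ℂ)) H = r := by
    intro x hx0
    have h1 : ∀ t, a t ≠ 0 → ∃ r : ℝ, 0 < r ∧
        eval (A.mulVec fun i => (x i : ℂ)) (∑ j, g t j ^ 2) = r := by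
      intro t ht
      obtain ⟨h2, j0, hj0⟩ := hx t ht x hx0
      choose r hr using h2
      refine ⟨∑ j, r j ^ 2, ?_, ?_⟩
      · have hr0 : r j0 ≠ 0 := by
          intro h0
          rw [hr, h0, Complex.ofReal_zero] at hj0
          exact hj0 rfl
        exact lt_of_lt_of_le (by positivity)
          (Finset.single_le_sum (f := fun j => r j ^ 2) (fun _ _ => sq_nonneg _)
            (Finset.mem_univ j0))
      · rw [map_sum]
        push_cast
        refine Finset.sum_congr rfl fun j _ => ?_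
        rw [map_pow, hr]
    have h2 : ∀ t, ∃ r : ℝ, 0 < r ∧
        eval (A.mulVec fun i => (x i : ℂ)) ((∑ j, g t j ^ 2) ^ a t) = r := by
      intro t
      by_cases ht : a t = 0
      · exact ⟨1, one_pos, by rw [ht, pow_zero, map_one, Complex.ofReal_one]⟩
      · obtain ⟨r, hr, hr2⟩ := h1 t ht
        exact ⟨r ^ a t, by positivity, by rw [map_pow, hr2, Complex.ofReal_pow]⟩
    choose r hr hr2 using h2
    refine ⟨∏ t, r t, Finset.prod_pos fun t _ => hr t, ?_⟩
    rw [hH, map_prod, Complex.ofReal_prod]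
    exact Finset.prod_congr rfl fun t _ => hr2 t
  have hH0 : H ≠ 0 := by
    intro h0
    obtain ⟨i⟩ := ‹Nonempty σ›
    obtain ⟨r, hr, hr2⟩ := hval (fun _ => 1) (fun h1 => one_ne_zero (congrFun h1 i))
    rw [h0, map_zero] at hr2
    exact hr.ne' (Complex.ofReal_eq_zero.1 hr2.symm)
  refine ⟨2, 1, _, H, two_pos, one_pos, hHh, hH0, ?_, ?_⟩
  · refine period_linear A hA H (period_of_pos _ _ hpos ?_ ?_)
    · have h1 := hHh.aeval (fun i => ∑ j, C (A i j) * X j : σ → MvPolynomial σ ℂ)
        (fun i => (IsHomogeneous.sum _ _ 1 fun j _ => by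
          have := (isHomogeneous_C σ (A i j)).mul (isHomogeneous_X ℂ j)
          rwa [zero_add] at this))
      rwa [one_mul] at h1
    · intro x hx0
      obtain ⟨r, hr, hr2⟩ := hval x hx0
      refine ⟨r, hr, ?_⟩
      rw [← hr2]
      unfold ev
      have h1 : ∀ p : MvPolynomial σ ℂ, eval (fun i => (x i : ℂ))
          (aeval (fun i => ∑ j, C (A i j) * X j : σ → MvPolynomial σ ℂ) p) =
            eval (A.mulVec fun i => (x i : ℂ)) p := by
        intro p
        induction p using MvPolynomial.induction_on with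
        | C c =>
          have h2 : aeval (fun i => ∑ j, C (A i j) * X j : σ → MvPolynomial σ ℂ) (C c) = C c :=
            aeval_C _ _
          rw [h2, eval_C, eval_C]
        | add p q hp hq => rw [map_add, map_add, hp, hq, map_add]
        | mul_X p i hp =>
          rw [map_mul, map_mul, hp, map_mul, eval_X, aeval_X, map_sum]
          congr 1
          rw [Matrix.mulVec, dotProduct]
          refine Finset.sum_congr rfl fun j _ => ?_
          rw [map_mul, eval_C, eval_X]
      exact h1 H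
  · rw [pow_one, hH, ← Finset.prod_pow]
    refine mem_prod _ _ fun t => ?_
    rw [← pow_mul, mul_comm, pow_mul]
    refine Submodule.pow_mem_pow _ ?_ _
    refine Submodule.sum_mem _ fun j _ => ?_
    exact Submodule.pow_mem_pow _ (Submodule.subset_span (Set.mem_range_self j)) _

end Pool.Agent.U184
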