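import Pool.Agent.W574.CN.Defs

set_option autoImplicit false

/-! # Ternary forms with weighted homogeneous singularities -/

namespace Pool.Agent.U184

open Pool.Agent.W574.SM Pool.Agent.W574.CN

/-- The germ at the point `p` of the plane curve `f = 0` is weighted homogeneous: there are a formal
change of coordinates at `p` (an automorphism `Φ` of `ℂ⟦u, v⟧`), positive weights of the variables
and weighted homogeneous polynomials `g` and `G` in `u` and `v` such that `f` becomes `g` and `F`
becomes a unit times `G`. It is applied to the reduced equation `F` of the curve `f = 0`. -/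
def WHSing (f F : MvPolynomial (Fin 2) ℂ) (p : Fin 2 → ℂ) : Prop :=
  ∃ (Φ : MvPowerSeries (Fin 2) ℂ ≃ₐ[ℂ] MvPowerSeries (Fin 2) ℂ) (w : Fin 2 → ℕ) (n N : ℕ)
    (g G : MvPolynomial (Fin 2) ℂ),
    (∀ i, 0 < w i) ∧ MvPolynomial.IsWeightedHomogeneous w g n ∧
    MvPolynomial.IsWeightedHomogeneous w G N ∧
    Φ (translate p f : MvPolynomial (Fin 2) ℂ) = (g : MvPowerSeries (Fin 2) ℂ) ∧
    Associated (Φ (translate p F : MvPolynomial (Fin 2) ℂ)) (G : MvPowerSeries (Fin 2) ℂ)

/-- All singularities of the plane projective curve `F = 0` are weighted homogeneous, with respect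
to the form `f`; here `F` is the reduced equation of `f = 0`. The curve is covered by the charts
`x_i = 1` (`deh i f` is the polynomial `f |_{x_i = 1}` in two variables). -/
def AllWH (f F : MvPolynomial (Fin 3) ℂ) : Prop :=
  ∀ (i : Fin 3) (p : Fin 2 → ℂ), MvPolynomial.eval p (deh i F) = 0 →
    (∀ t, MvPolynomial.eval p (MvPolynomial.pderiv t (deh i F)) = 0) →
    WHSing (deh i f) (deh i F) p

/-- `f` is a form of degree `d > 0` in three variables, `f ≠ 0`, and the singularities of the plane
projective curve `f = 0` are weighted homogeneous: `F` is the reduced equation of this curve (a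
squarefree form with `F ∣ f ∣ F ^ M`), and at every singular point of `F = 0` there is a formal change
of coordinates after which `f` is a weighted homogeneous polynomial and `F` a unit times a weighted
homogeneous polynomial (`WHSing`; the charts `x_i = 1` of the projective plane are used). -/
def WHForm (f : MvPolynomial (Fin 3) ℂ) (d : ℕ) : Prop :=
  0 < d ∧ f.IsHomogeneous d ∧ f ≠ 0 ∧ ∃ (F : MvPolynomial (Fin 3) ℂ) (D M : ℕ),
    F.IsHomogeneous D ∧ Squarefree F ∧ F ∣ f ∧ f ∣ F ^ M ∧ AllWH f F

/-- There is no linear vector field `v = ∑_l v_l ∂_l` of trace (divergence) zero with `v(f) = f`. -/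
def NoField (f : MvPolynomial (Fin 3) ℂ) : Prop :=
  ¬ ∃ v : Fin 3 → MvPolynomial (Fin 3) ℂ, (∀ l, (v l).IsHomogeneous 1) ∧
    ∑ l, MvPolynomial.pderiv l (v l) = 0 ∧ ∑ l, v l * MvPolynomial.pderiv l f = f

end Pool.Agent.U184
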