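import Pool.Agent.U184.Dg

set_option autoImplicit false

/-! # Flatness of the formal power series over the polynomials -/

namespace Pool.Agent.U184

section general

variable {R S : Type} [CommRing R] [CommRing S] [Algebra R S]

theorem triv2 [Module.Flat R S] (f0 f1 : R) (x0 x1 : S) (h : f0 • x0 + f1 • x1 = 0) :
    ∃ (k : ℕ) (a0 a1 : Fin k → R) (y : Fin k → S), x0 = ∑ j, a0 j • y j ∧
      x1 = ∑ j, a1 j • y j ∧ ∀ j, f0 * a0 j + f1 * a1 j = 0 := by
  have h1 : ∑ i : Fin 2, (![f0, f1] : Fin 2 → R) i • (![x0, x1] : Fin 2 → S) i = 0 := by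
    rw [Fin.sum_univ_two]
    exact h
  obtain ⟨k, a, y, h2, h3⟩ := Module.Flat.isTrivialRelation_of_sum_smul_eq_zero (R := R) (M := S)
    (f := ![f0, f1]) (x := ![x0, x1]) h1
  refine ⟨k, a 0, a 1, y, h2 0, h2 1, fun j => ?_⟩
  have := h3 j
  rw [Fin.sum_univ_two] at this
  exact this

theorem triv3 [Module.Flat R S] (f0 f1 f2 : R) (x0 x1 x2 : S)
    (h : f0 • x0 + f1 • x1 + f2 • x2 = 0) :
    ∃ (k : ℕ) (a0 a1 a2 : Fin k → R) (y : Fin k → S), x0 = ∑ j, a0 j • y j ∧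
      ∀ j, f0 * a0 j + f1 * a1 j + f2 * a2 j = 0 := by
  have h1 : ∑ i : Fin 3, (![f0, f1, f2] : Fin 3 → R) i • (![x0, x1, x2] : Fin 3 → S) i = 0 := by
    rw [Fin.sum_univ_three]
    exact h
  obtain ⟨k, a, y, h2, h3⟩ := Module.Flat.isTrivialRelation_of_sum_smul_eq_zero (R := R) (M := S)
    (f := ![f0, f1, f2]) (x := ![x0, x1, x2]) h1
  refine ⟨k, a 0, a 1, a 2, y, h2 0, fun j => ?_⟩
  have := h3 j
  rw [Fin.sum_univ_three] at this
  exact this

/-- a nonzerodivisor modulo `F` remains a nonzerodivisor modulo `F` -/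
theorem red_gen [Module.Flat R S] (F θ : R) (h : ∀ a, F ∣ θ * a → F ∣ a) (ψ : S)
    (hψ : algebraMap R S F ∣ algebraMap R S θ * ψ) : algebraMap R S F ∣ ψ := by
  obtain ⟨β, hβ⟩ := hψ
  have h1 : θ • ψ + (-F) • β = 0 := by
    rw [Algebra.smul_def, Algebra.smul_def, hβ, map_neg]
    ring
  obtain ⟨k, a0, a1, y, h2, -, h4⟩ := triv2 θ (-F) ψ β h1
  rw [h2]
  refine Finset.dvd_sum fun j _ => ?_
  have h5 : F ∣ a0 j := h _ ⟨a1 j, by linear_combination h4 j⟩
  rw [Algebra.smul_def]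
  exact Dvd.dvd.mul_right (map_dvd _ h5) _

/-- faithful flatness -/
theorem colon_gen [Module.Flat R S] (c : S →+* ℂ) (w θ F : R) (x z : S)
    (h : algebraMap R S w = x * algebraMap R S θ + z * algebraMap R S F) :
    ∃ a b d : R, c (algebraMap R S a) ≠ 0 ∧ a * w = b * θ + d * F := by
  have h1 : w • (1 : S) + (-θ) • x + (-F) • z = 0 := by
    rw [Algebra.smul_def, Algebra.smul_def, Algebra.smul_def, h, map_neg, map_neg]
    ring
  obtain ⟨k, a0, a1, a2, y, h2, h3⟩ := triv3 w (-θ) (-F) 1 x z h1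
  obtain ⟨j, hj⟩ : ∃ j, c (algebraMap R S (a0 j)) ≠ 0 := by
    by_contra hcon
    push Not at hcon
    have h5 := congrArg c h2
    rw [map_sum, map_one, Finset.sum_eq_zero] at h5
    · exact one_ne_zero h5
    · intro j _
      rw [Algebra.smul_def, map_mul, hcon j, zero_mul]
  exact ⟨a0 j, a1 j, a2 j, hj, by linear_combination h3 j⟩

end general

/-- polynomials in two variables -/
abbrev P2 : Type := MvPolynomial (Fin 2) ℂ

theorem flatT : Module.Flat P2 T :=
  Module.Flat.of_linearEquiv (MvPowerSeries.toAdicCompletionAlgEquiv (Fin 2) ℂ).toLinearEquiv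

theorem algMap_T (p : P2) : algebraMap P2 T p = (p : T) := rfl

theorem red_flat (F θ : P2) (h : ∀ a, F ∣ θ * a → F ∣ a) (ψ : T)
    (hψ : (F : T) ∣ (θ : T) * ψ) : (F : T) ∣ ψ := by
  have := flatT
  exact red_gen F θ h ψ hψ

theorem colon_flat (w θ F : P2) (x z : T) (h : (w : T) = x * (θ : T) + z * (F : T)) :
    ∃ a b d : P2, MvPolynomial.constantCoeff a ≠ 0 ∧ a * w = b * θ + d * F := by
  have := flatT
  exact colon_gen MvPowerSeries.constantCoeff w θ F x z h

end Pool.Agent.U184
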