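import Pool.Agent.U184.Loc
import Pool.Agent.U184.Flat
import Pool.Agent.W574.SM.ZetaDefs
import Pool.Agent.U184.Defs

set_option autoImplicit false

/-! # Weighted homogeneous singularities of plane curves, and the local lemma for polynomials -/

namespace Pool.Agent.U184

open MvPowerSeries Pool.Agent.W574.SM

/-- polynomials as power series -/
noncomputable def cT : P2 →ₐ[ℂ] T :=
  { (MvPolynomial.coeToMvPowerSeries.ringHom : P2 →+* T) with
    commutes' := fun r => MvPolynomial.coe_C r }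

theorem cT_apply (p : P2) : cT p = (p : T) := rfl

section jacobian

/-- a power series without constant coefficient -/
theorem split_cc (z : T) (hz : constantCoeff z = 0) : ∃ a b : T, z = X 0 * a + X 1 * b := by
  classical
  let z0 : T := fun m => if m 0 = 0 then coeff m z else 0
  have hz0 : ∀ m, coeff m z0 = if m 0 = 0 then coeff m z else 0 := fun m => rfl
  obtain ⟨a, ha⟩ : (X 0 : T) ∣ z - z0 := by
    rw [X_dvd_iff]
    intro m hm
    rw [map_sub, hz0, if_pos hm, sub_self]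
  obtain ⟨b, hb⟩ : (X 1 : T) ∣ z0 := by
    rw [X_dvd_iff]
    intro m hm
    rw [hz0]
    split_ifs with h
    · have : m = 0 := by
        ext i
        fin_cases i
        · exact h
        · exact hm
      rw [this, coeff_zero_eq_constantCoeff_apply, hz]
    · rfl
  exact ⟨a, b, by linear_combination ha + hb⟩

theorem unit_iff (z : T) : IsUnit z ↔ constantCoeff z ≠ 0 := by
  rw [isUnit_iff_constantCoeff, isUnit_iff_ne_zero]

theorem cc_Phi (Φ : T ≃ₐ[ℂ] T) (z : T) : constantCoeff (Φ z) = constantCoeff z := by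
  have h1 : ¬ IsUnit (z - C (constantCoeff z)) := by
    rw [unit_iff, map_sub, constantCoeff_C, sub_self]
    exact fun h => h rfl
  have h2 : ¬ IsUnit (Φ (z - C (constantCoeff z))) := by
    intro h
    apply h1
    have := h.map Φ.symm
    rwa [AlgEquiv.symm_apply_apply] at this
  rw [unit_iff, not_not, map_sub, map_sub] at h2
  have h3 : Φ (C (constantCoeff z)) = C (constantCoeff z) := Φ.commutes _
  rw [h3, constantCoeff_C, sub_eq_zero] at h2
  exact h2

/-- the Jacobian determinant of an automorphism -/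
theorem jac_unit (Φ : T ≃ₐ[ℂ] T) :
    IsUnit (pderiv ℂ 0 (Φ (X 0)) * pderiv ℂ 1 (Φ (X 1)) -
      pderiv ℂ 0 (Φ (X 1)) * pderiv ℂ 1 (Φ (X 0))) := by
  rw [unit_iff]
  have h0 : ∀ j : Fin 2, constantCoeff (Φ (X j)) = 0 := by
    intro j
    rw [cc_Phi, constantCoeff_X]
  have key : ∀ j : Fin 2, ∃ a b : ℂ, ∀ i : Fin 2,
      constantCoeff (pderiv ℂ i (X j : T)) =
        a * constantCoeff (pderiv ℂ i (Φ (X 0))) + b * constantCoeff (pderiv ℂ i (Φ (X 1))) := by
    intro j
    obtain ⟨a, b, hab⟩ := split_cc (Φ.symm (X j)) (by rw [cc_Phi, constantCoeff_X])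
    refine ⟨constantCoeff a, constantCoeff b, fun i => ?_⟩
    have h1 : (X j : T) = Φ (X 0) * Φ a + Φ (X 1) * Φ b := by
      rw [← map_mul, ← map_mul, ← map_add, ← hab, AlgEquiv.apply_symm_apply]
    rw [h1, map_add, Derivation.leibniz, Derivation.leibniz]
    simp only [smul_eq_mul, map_add, map_mul]
    rw [h0, h0, cc_Phi, cc_Phi]
    ring
  obtain ⟨a0, b0, k0⟩ := key 0
  obtain ⟨a1, b1, k1⟩ := key 1
  have c00 := k0 0
  have c01 := k0 1
  have c10 := k1 0
  have c11 := k1 1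
  rw [pderiv_X_self, map_one] at c00 c11
  rw [pderiv_X_of_ne (by decide), map_zero] at c01 c10
  rw [map_sub, map_mul, map_mul]
  intro h
  set p := constantCoeff (pderiv ℂ 0 (Φ (X 0)))
  set q := constantCoeff (pderiv ℂ 0 (Φ (X 1)))
  set r := constantCoeff (pderiv ℂ 1 (Φ (X 0)))
  set t := constantCoeff (pderiv ℂ 1 (Φ (X 1)))
  have : (1 : ℂ) = (a0 * b1 - a1 * b0) * (p * t - q * r) := by
    linear_combination (a1 * r + b1 * t) * c00 + c11 - (a1 * p + b1 * q) * c01
  rw [h, mul_zero] at this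
  exact one_ne_zero this

end jacobian

section pull

/-- `P ↦ Φ(P(p + x))` -/
noncomputable def SS (Φ : T ≃ₐ[ℂ] T) (p : Fin 2 → ℂ) : P2 →ₐ[ℂ] T :=
  (Φ : T →ₐ[ℂ] T).comp (cT.comp (translate p))

theorem SS_apply (Φ : T ≃ₐ[ℂ] T) (p : Fin 2 → ℂ) (P : P2) :
    SS Φ p P = Φ ((translate p P : P2) : T) := rfl

/-- the chain rule -/
theorem chain (S : P2 →ₐ[ℂ] T) (i : Fin 2) (P : P2) : pderiv ℂ i (S P) =
    S (MvPolynomial.pderiv 0 P) * pderiv ℂ i (S (MvPolynomial.X 0)) +
      S (MvPolynomial.pderiv 1 P) * pderiv ℂ i (S (MvPolynomial.X 1)) := by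
  induction P using MvPolynomial.induction_on with
  | C a =>
    have h1 : S (MvPolynomial.C a) = C a := S.commutes a
    rw [h1, pderiv_C, MvPolynomial.pderiv_C, MvPolynomial.pderiv_C, map_zero]
    ring
  | add p q hp hq =>
    rw [map_add, map_add, map_add, map_add, map_add, map_add, hp, hq]
    ring
  | mul_X p k hp =>
    rw [map_mul, Derivation.leibniz, hp, Derivation.leibniz, Derivation.leibniz]
    simp only [smul_eq_mul, map_add, map_mul]
    fin_cases k
    · simp only [Fin.zero_eta, MvPolynomial.pderiv_X_self, map_one,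
        MvPolynomial.pderiv_X_of_ne (show (0 : Fin 2) ≠ 1 by decide), map_zero]
      ring
    · simp only [Fin.mk_one, MvPolynomial.pderiv_X_self, map_one,
        MvPolynomial.pderiv_X_of_ne (show (1 : Fin 2) ≠ 0 by decide), map_zero]
      ring

/-- the pull-back of a 1-form -/
noncomputable def pull (S : P2 →ₐ[ℂ] T) (ω : Fin 2 → P2) (i : Fin 2) : T :=
  S (ω 0) * pderiv ℂ i (S (MvPolynomial.X 0)) + S (ω 1) * pderiv ℂ i (S (MvPolynomial.X 1))

/-- the Jacobian determinant -/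
noncomputable def JJ (S : P2 →ₐ[ℂ] T) : T :=
  pderiv ℂ 0 (S (MvPolynomial.X 0)) * pderiv ℂ 1 (S (MvPolynomial.X 1)) -
    pderiv ℂ 0 (S (MvPolynomial.X 1)) * pderiv ℂ 1 (S (MvPolynomial.X 0))

theorem pd_comm (i j : Fin 2) (z : T) : pderiv ℂ i (pderiv ℂ j z) = pderiv ℂ j (pderiv ℂ i z) := by
  ext m
  rw [coeff_pderiv, coeff_pderiv, coeff_pderiv, coeff_pderiv]
  by_cases h : i = j
  · rw [h]
  · rw [Finsupp.add_apply, Finsupp.add_apply, Finsupp.single_eq_of_ne (fun h' => h h'.symm),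
      Finsupp.single_eq_of_ne h, add_right_comm]
    push_cast
    ring

theorem pull_curl (S : P2 →ₐ[ℂ] T) (ω : Fin 2 → P2) :
    pderiv ℂ 0 (pull S ω 1) - pderiv ℂ 1 (pull S ω 0) =
      S (MvPolynomial.pderiv 0 (ω 1) - MvPolynomial.pderiv 1 (ω 0)) * JJ S := by
  unfold pull JJ
  simp only [map_add, map_sub, Derivation.leibniz, smul_eq_mul]
  rw [chain S 0 (ω 0), chain S 0 (ω 1), chain S 1 (ω 0), chain S 1 (ω 1),
    pd_comm 1 0 (S (MvPolynomial.X 0)), pd_comm 1 0 (S (MvPolynomial.X 1))]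
  ring

theorem pull_wedge (S : P2 →ₐ[ℂ] T) (η ω : Fin 2 → P2) :
    pull S η 0 * pull S ω 1 - pull S η 1 * pull S ω 0 = S (η 0 * ω 1 - η 1 * ω 0) * JJ S := by
  unfold pull JJ
  simp only [map_sub, map_mul]
  ring

theorem pull_inv0 (S : P2 →ₐ[ℂ] T) (ω : Fin 2 → P2) :
    S (ω 0) * JJ S = pderiv ℂ 1 (S (MvPolynomial.X 1)) * pull S ω 0 -
      pderiv ℂ 0 (S (MvPolynomial.X 1)) * pull S ω 1 := by
  unfold pull JJ
  ring

theorem pull_inv1 (S : P2 →ₐ[ℂ] T) (ω : Fin 2 → P2) :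
    S (ω 1) * JJ S = pderiv ℂ 0 (S (MvPolynomial.X 0)) * pull S ω 1 -
      pderiv ℂ 1 (S (MvPolynomial.X 0)) * pull S ω 0 := by
  unfold pull JJ
  ring

theorem JJ_unit (Φ : T ≃ₐ[ℂ] T) (p : Fin 2 → ℂ) : IsUnit (JJ (SS Φ p)) := by
  have h : ∀ t i : Fin 2, pderiv ℂ i (SS Φ p (MvPolynomial.X t)) = pderiv ℂ i (Φ (X t)) := by
    intro t i
    have ht : translate p (MvPolynomial.X t) = MvPolynomial.X t + MvPolynomial.C (p t) :=
      MvPolynomial.aeval_X _ _
    rw [SS_apply, ht, MvPolynomial.coe_add, map_add, map_add,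
      MvPolynomial.coe_X, MvPolynomial.coe_C]
    have h3 : Φ (C (p t)) = C (p t) := Φ.commutes _
    rw [h3, pderiv_C, add_zero]
  unfold JJ
  rw [h, h, h, h]
  exact jac_unit Φ

end pull

end Pool.Agent.U184
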