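import Pool.Agent.U184.Chart

set_option autoImplicit false

/-! # The local lemma in a chart -/

namespace Pool.Agent.U184

open MvPowerSeries Pool.Agent.W574.SM

/-- `α A_t + j ∂_t F` -/
noncomputable def th (α : ℂ) (A : Fin 2 → P2) (F : P2) (j : ℕ) (t : Fin 2) : P2 :=
  MvPolynomial.C α * A t + (j : P2) * MvPolynomial.pderiv t F

/-- the assumptions in a chart: `F` is the reduced equation of `f = 0`, and `A = F df / f` -/
structure ChartHyp (f F : P2) (A : Fin 2 → P2) (α : ℂ) : Prop where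
  hf0 : f ≠ 0
  hFf : F ∣ f
  hA : ∀ t, f * A t = F * MvPolynomial.pderiv t f
  red : ∀ j : ℕ, ∃ κ : Fin 2 → P2, ∀ a, F ∣ (κ 0 * th α A F j 0 + κ 1 * th α A F j 1) * a → F ∣ a

section translation

theorem translate_X (p : Fin 2 → ℂ) (i : Fin 2) :
    W574.SM.translate p (MvPolynomial.X i) = MvPolynomial.X i + MvPolynomial.C (p i) :=
  MvPolynomial.aeval_X _ _

theorem translate_neg (p : Fin 2 → ℂ) (P : P2) : W574.SM.translate p (W574.SM.translate (-p) P) = P := by
  have h : (W574.SM.translate p).comp (W574.SM.translate (-p)) = AlgHom.id ℂ P2 := by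
    apply MvPolynomial.algHom_ext
    intro i
    rw [AlgHom.comp_apply, translate_X, map_add, translate_X]
    have : W574.SM.translate p (MvPolynomial.C ((-p) i)) = MvPolynomial.C ((-p) i) :=
      (W574.SM.translate p).commutes _
    rw [this, Pi.neg_apply, map_neg]
    simp
  exact congrArg (fun φ : P2 →ₐ[ℂ] P2 => φ P) h

theorem translate_neg' (p : Fin 2 → ℂ) (P : P2) : W574.SM.translate (-p) (W574.SM.translate p P) = P := by
  have := translate_neg (-p) P
  rwa [neg_neg] at this

theorem cc_translate (p : Fin 2 → ℂ) (P : P2) :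
    MvPolynomial.constantCoeff (W574.SM.translate p P) = MvPolynomial.eval p P := by
  induction P using MvPolynomial.induction_on with
  | C a =>
    have : W574.SM.translate p (MvPolynomial.C a) = MvPolynomial.C a := (W574.SM.translate p).commutes _
    rw [this, MvPolynomial.constantCoeff_C, MvPolynomial.eval_C]
  | add p q hp hq => rw [map_add, map_add, map_add, hp, hq]
  | mul_X q k hq =>
    rw [map_mul, map_mul, map_mul, hq, translate_X, map_add, MvPolynomial.constantCoeff_X,
      MvPolynomial.constantCoeff_C, zero_add, MvPolynomial.eval_X]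

end translation

section

variable {f F : P2} {A : Fin 2 → P2} {α : ℂ}

/-- `F` divides `ψ` if it divides the components of `ψ θ` -/
theorem red_pt (h : ChartHyp f F A α) (Φ : T ≃ₐ[ℂ] T) (p : Fin 2 → ℂ) (j : ℕ) (ψ : T)
    (hψ : ∀ i, SS Φ p F ∣ ψ * pull (SS Φ p) (th α A F j) i) : SS Φ p F ∣ ψ := by
  obtain ⟨κ, hκ⟩ := h.red j
  have hJ := JJ_unit Φ p
  have h0 : SS Φ p F ∣ ψ * SS Φ p (th α A F j 0) := by
    rw [← hJ.dvd_mul_right, mul_assoc, pull_inv0]
    have e : ψ * (pderiv ℂ 1 (SS Φ p (MvPolynomial.X 1)) * pull (SS Φ p) (th α A F j) 0 -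
        pderiv ℂ 0 (SS Φ p (MvPolynomial.X 1)) * pull (SS Φ p) (th α A F j) 1) =
        pderiv ℂ 1 (SS Φ p (MvPolynomial.X 1)) * (ψ * pull (SS Φ p) (th α A F j) 0) -
        pderiv ℂ 0 (SS Φ p (MvPolynomial.X 1)) * (ψ * pull (SS Φ p) (th α A F j) 1) := by ring
    rw [e]
    exact dvd_sub (Dvd.dvd.mul_left (hψ 0) _) (Dvd.dvd.mul_left (hψ 1) _)
  have h1 : SS Φ p F ∣ ψ * SS Φ p (th α A F j 1) := by
    rw [← hJ.dvd_mul_right, mul_assoc, pull_inv1]
    have e : ψ * (pderiv ℂ 0 (SS Φ p (MvPolynomial.X 0)) * pull (SS Φ p) (th α A F j) 1 -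
        pderiv ℂ 1 (SS Φ p (MvPolynomial.X 0)) * pull (SS Φ p) (th α A F j) 0) =
        pderiv ℂ 0 (SS Φ p (MvPolynomial.X 0)) * (ψ * pull (SS Φ p) (th α A F j) 1) -
        pderiv ℂ 1 (SS Φ p (MvPolynomial.X 0)) * (ψ * pull (SS Φ p) (th α A F j) 0) := by ring
    rw [e]
    exact dvd_sub (Dvd.dvd.mul_left (hψ 1) _) (Dvd.dvd.mul_left (hψ 0) _)
  set θ : P2 := κ 0 * th α A F j 0 + κ 1 * th α A F j 1 with hθ
  have h2 : SS Φ p F ∣ SS Φ p θ * ψ := by
    rw [hθ, map_add, map_mul, map_mul]
    have e : (SS Φ p (κ 0) * SS Φ p (th α A F j 0) + SS Φ p (κ 1) * SS Φ p (th α A F j 1)) * ψ =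
        SS Φ p (κ 0) * (ψ * SS Φ p (th α A F j 0)) +
        SS Φ p (κ 1) * (ψ * SS Φ p (th α A F j 1)) := by ring
    rw [e]
    exact dvd_add (Dvd.dvd.mul_left h0 _) (Dvd.dvd.mul_left h1 _)
  have h3 : ((W574.SM.translate p F : P2) : T) ∣ ((W574.SM.translate p θ : P2) : T) * Φ.symm ψ := by
    have := map_dvd Φ.symm h2
    rw [map_mul, SS_apply, SS_apply, AlgEquiv.symm_apply_apply, AlgEquiv.symm_apply_apply] at this
    exact this
  have h4 := red_flat (W574.SM.translate p F) (W574.SM.translate p θ) (fun a ha => by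
    have h5 := map_dvd (W574.SM.translate (-p)) ha
    rw [map_mul, translate_neg', translate_neg'] at h5
    have h6 := map_dvd (W574.SM.translate p) (hκ _ h5)
    rwa [translate_neg] at h6) _ h3
  have h5 := map_dvd Φ h4
  rw [AlgEquiv.apply_symm_apply] at h5
  exact h5

theorem weight_wt (w : Fin 2 → ℕ) (m : Fin 2 →₀ ℕ) : Finsupp.weight w m = wt w m := by
  rw [Finsupp.weight_apply, Finsupp.sum_fintype, Fin.sum_univ_two]
  · rfl
  · intro i; rw [zero_smul]

theorem WH_of_poly {w : Fin 2 → ℕ} {n : ℕ} {g : P2} (hg : MvPolynomial.IsWeightedHomogeneous w g n) :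
    WH w 0 n (g : T) := by
  intro m hm
  rw [MvPolynomial.coeff_coe] at hm
  rw [add_zero, ← weight_wt]
  exact hg hm

/-- The local data at a weighted homogeneous singularity. -/
theorem mk_data (h : ChartHyp f F A α) (p : Fin 2 → ℂ) (hp : MvPolynomial.eval p F = 0)
    (Φ : T ≃ₐ[ℂ] T) (w : Fin 2 → ℕ) (Ng NG : ℕ) (g G : P2) (hw : ∀ i, 0 < w i)
    (hg : MvPolynomial.IsWeightedHomogeneous w g Ng)
    (hG : MvPolynomial.IsWeightedHomogeneous w G NG)
    (hΦg : Φ ((W574.SM.translate p f : P2) : T) = (g : T))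
    (hΦG : Associated (Φ ((W574.SM.translate p F : P2) : T)) (G : T)) :
    ∃ (U V : T) (B : Fin 2 → T), V * U = 1 ∧ SS Φ p F = U * (G : T) ∧
      (∀ i, pull (SS Φ p) A i = U * B i) ∧ LocData w NG Ng α (G : T) B := by
  obtain ⟨u, hu⟩ := hΦG
  have hFG : SS Φ p F = (↑u⁻¹ : T) * (G : T) := by
    rw [← hu, SS_apply, mul_comm, mul_assoc, Units.mul_inv, mul_one]
  have hfg : SS Φ p f = (g : T) := hΦg
  have hS : Function.Injective (SS Φ p) := by
    intro a b hab
    rw [SS_apply, SS_apply] at hab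
    have h1 := Φ.injective hab
    have h2 := MvPolynomial.coe_injective _ _ h1
    have h3 := congrArg (W574.SM.translate (-p)) h2
    rwa [translate_neg', translate_neg'] at h3
  have hg0 : (g : T) ≠ 0 := by
    rw [← hfg]
    intro h0
    exact h.hf0 (hS (by rw [h0, map_zero]))
  have hF0 : F ≠ 0 := fun h0 => h.hf0 (by
    have := h.hFf
    rw [h0] at this
    exact zero_dvd_iff.1 this)
  have hG0 : (G : T) ≠ 0 := by
    intro h0
    rw [h0, mul_zero] at hFG
    exact hF0 (hS (by rw [hFG, map_zero]))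
  -- the form
  let B : Fin 2 → T := fun i => (u : T) * pull (SS Φ p) A i
  have hB : ∀ i, pull (SS Φ p) A i = (↑u⁻¹ : T) * B i := by
    intro i
    simp only [B]
    rw [← mul_assoc, Units.inv_mul, one_mul]
  have hgB : ∀ i, (g : T) * B i = (G : T) * pderiv ℂ i (g : T) := by
    intro i
    have h1 : (g : T) * pull (SS Φ p) A i = SS Φ p F * pderiv ℂ i (g : T) := by
      rw [← hfg, chain (SS Φ p) i f]
      unfold pull
      have a0 := congrArg (SS Φ p) (h.hA 0)
      have a1 := congrArg (SS Φ p) (h.hA 1)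
      rw [map_mul, map_mul] at a0 a1
      linear_combination pderiv ℂ i (SS Φ p (MvPolynomial.X 0)) * a0 +
        pderiv ℂ i (SS Φ p (MvPolynomial.X 1)) * a1
    rw [hB, hFG] at h1
    have h2 : (u : T) * (↑u⁻¹ : T) = 1 := Units.mul_inv u
    linear_combination (u : T) * h1 - ((g : T) * B i - (G : T) * pderiv ℂ i (g : T)) * h2
  have hgW := WH_of_poly hg
  have hGW := WH_of_poly hG
  have hBW : ∀ i, WH w (w i) NG (B i) := by
    intro i m hm
    classical
    let c : ℕ → ℂ := fun e => if e + w i = Ng + NG then 0 else 1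
    have h1 : dg w c ((G : T) * pderiv ℂ i (g : T)) = 0 := by
      ext m'
      rw [coeff_dg, map_zero]
      by_cases hm' : wt w m' + w i = Ng + NG
      · simp only [c, if_pos hm', zero_mul]
      · have : coeff m' ((G : T) * pderiv ℂ i (g : T)) = 0 := by
          by_contra hne
          rw [coeff_mul] at hne
          obtain ⟨x, hx, hx0⟩ := Finset.exists_ne_zero_of_sum_ne_zero hne
          have a1 := hGW _ (left_ne_zero_of_mul hx0)
          have a2 := WH_pderiv hgW i _ (right_ne_zero_of_mul hx0)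
          apply hm'
          rw [← Finset.HasAntidiagonal.mem_antidiagonal.1 hx, wt_add]
          omega
        rw [this, mul_zero]
    rw [← hgB i] at h1
    have h2 := dg_mul hgW c (B i)
    simp only [add_zero] at h2
    rw [h2] at h1
    have h3 := (mul_eq_zero.1 h1).resolve_left hg0
    have h4 := congrArg (coeff m) h3
    rw [coeff_dg, map_zero] at h4
    have h5 := (mul_eq_zero.1 h4).resolve_right hm
    simp only [c] at h5
    split_ifs at h5 with h6
    · omega
    · exact absurd h5 one_ne_zero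
  have hχ : (w 0 : T) * X 0 * B 0 + (w 1 : T) * X 1 * B 1 = (Ng : T) * (G : T) := by
    apply mul_left_cancel₀ hg0
    have h1 := euler w (g : T)
    have h2 : dg w (fun e => (e : ℂ)) (g : T) = (Ng : T) * (g : T) := by
      ext m
      have h0 : ((Ng : T)) = C (Ng : ℂ) := by rw [map_natCast]
      rw [coeff_dg, h0, coeff_C_mul]
      by_cases hm : coeff m (g : T) = 0
      · rw [hm, mul_zero, mul_zero]
      · have := hgW m hm
        rw [add_zero] at this
        rw [this]
    rw [h2] at h1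
    linear_combination ((w 0 : T) * X 0) * hgB 0 + ((w 1 : T) * X 1) * hgB 1 + (G : T) * h1
  have hNg : Ng ≠ 0 := by
    intro h0
    have h1 : constantCoeff (g : T) = 0 := by
      rw [← hfg, SS_apply, cc_Phi]
      change MvPolynomial.constantCoeff (W574.SM.translate p f) = 0
      rw [cc_translate]
      obtain ⟨q, hq⟩ := h.hFf
      rw [hq, map_mul, hp, zero_mul]
    apply hg0
    ext m
    rw [map_zero]
    by_contra hm
    have h2 := hgW m hm
    rw [h0, add_zero, wt] at h2
    have h3 : m 0 = 0 := by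
      have := hw 0
      rcases Nat.eq_zero_or_pos (m 0) with h | h
      · exact h
      · have := Nat.mul_pos h this
        omega
    have h4 : m 1 = 0 := by
      have := hw 1
      rcases Nat.eq_zero_or_pos (m 1) with h | h
      · exact h
      · have := Nat.mul_pos h this
        omega
    have h5 : m = 0 := by
      ext i
      fin_cases i
      · exact h3
      · exact h4
    rw [h5, coeff_zero_eq_constantCoeff_apply] at hm
    exact hm h1
  refine ⟨↑u⁻¹, ↑u, B, Units.mul_inv u, hFG, hB, ⟨hGW, hG0, hBW, hχ, hNg, ?_⟩⟩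
  intro j ψ hψ
  have h1 : SS Φ p F ∣ ψ := by
    refine red_pt h Φ p j ψ fun i => ?_
    have h2 : pull (SS Φ p) (th α A F j) i = C α * pull (SS Φ p) A i +
        (j : T) * pderiv ℂ i (SS Φ p F) := by
      rw [chain (SS Φ p) i F]
      unfold pull th
      have h3 : SS Φ p (MvPolynomial.C α) = C α := (SS Φ p).commutes α
      simp only [map_add, map_mul, h3, map_natCast]
      ring
    obtain ⟨y, hy⟩ := hψ i
    rw [h2, hB, hFG, Derivation.leibniz, smul_eq_mul, smul_eq_mul]
    have h4 : ψ * (C α * ((↑u⁻¹ : T) * B i) + (j : T) * ((↑u⁻¹ : T) * pderiv ℂ i (G : T) +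
        (G : T) * pderiv ℂ i (↑u⁻¹ : T))) = (G : T) * ((↑u⁻¹ : T) * y +
        (j : T) * ψ * pderiv ℂ i (↑u⁻¹ : T)) := by
      linear_combination (↑u⁻¹ : T) * hy
    rw [h4]
    rw [Units.mul_left_dvd]
    exact dvd_mul_right _ _
  rw [hFG, Units.mul_left_dvd] at h1
  exact h1

end

end Pool.Agent.U184
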