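import Pool.Agent.U184.Chart2

set_option autoImplicit false

/-! # Formal solutions at the singular points -/

namespace Pool.Agent.U184

open MvPowerSeries

/-- The form `Ξ` is locally, with respect to the formal coordinates `S`, of the shape
`F ^ k ω' + F dφ - φ (α A + (k - 1) dF)`. -/
def LS (S : P2 →ₐ[ℂ] T) (α : ℂ) (A : Fin 2 → P2) (F : P2) (k : ℕ) (Ξ : Fin 2 → P2) : Prop :=
  ∃ (φ : T) (ω' : Fin 2 → T), ∀ i, pull S Ξ i = S F ^ k * ω' i + S F * pderiv ℂ i φ -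
    φ * (C α * pull S A i + ((k : T) - 1) * pderiv ℂ i (S F))

variable {f F : P2} {A : Fin 2 → P2} {α : ℂ}

theorem pull_th (S : P2 →ₐ[ℂ] T) (α : ℂ) (A : Fin 2 → P2) (F : P2) (j : ℕ) (i : Fin 2) :
    pull S (th α A F j) i = C α * pull S A i + (j : T) * pderiv ℂ i (S F) := by
  rw [chain S i F]
  unfold pull th
  have h3 : S (MvPolynomial.C α) = C α := S.commutes α
  simp only [map_add, map_mul, h3, map_natCast]
  ring

theorem pow_deriv (U : T) (i : Fin 2) (n : ℕ) :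
    U * pderiv ℂ i (U ^ n) = (n : T) * U ^ n * pderiv ℂ i U := by
  rw [Derivation.leibniz_pow, smul_eq_mul, nsmul_eq_mul]
  rcases n with _ | n
  · simp
  · rw [Nat.add_sub_cancel, pow_succ]
    ring

/-- **Formal solutions at weighted homogeneous singularities.** -/
theorem loc_chart (h : ChartHyp f F A α) (p : Fin 2 → ℂ) (hp : MvPolynomial.eval p F = 0)
    (hW : WHSing f F p) : ∃ Φ : T ≃ₐ[ℂ] T, ∀ (n : ℕ) (ω ω1 : Fin 2 → P2) (h0 h1 : P2),
      F * (MvPolynomial.pderiv 0 (ω 1) - MvPolynomial.pderiv 1 (ω 0)) -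
        (th α A F (n + 1) 0 * ω 1 - th α A F (n + 1) 1 * ω 0) = F ^ (n + 2) * h0 →
      F * (MvPolynomial.pderiv 0 (ω1 1) - MvPolynomial.pderiv 1 (ω1 0)) -
        (th α A F (n + 1) 0 * ω1 1 - th α A F (n + 1) 1 * ω1 0) +
        (A 0 * ω 1 - A 1 * ω 0) = F ^ (n + 2) * h1 →
      LS (SS Φ p) α A F (n + 1) ω := by
  obtain ⟨Φ, w, Ng, NG, g, G, hw, hg, hG, hΦg, hΦG⟩ := hW
  obtain ⟨U, V, B, hVU, hFG, hB, hL⟩ := mk_data h p hp Φ w Ng NG g G hw hg hG hΦg hΦG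
  refine ⟨Φ, fun n ω ω1 h0 h1 e0 e1 => ?_⟩
  set S := SS Φ p with hS
  -- the pulled back equations
  have p0 := congrArg S e0
  have p1 := congrArg S e1
  rw [map_sub, map_mul, map_mul] at p0
  rw [map_add, map_sub, map_mul, map_mul] at p1
  rw [map_pow] at p0 p1
  have q0 : S F * (pderiv ℂ 0 (pull S ω 1) - pderiv ℂ 1 (pull S ω 0)) -
      (pull S (th α A F (n + 1)) 0 * pull S ω 1 - pull S (th α A F (n + 1)) 1 * pull S ω 0) =
      S F ^ (n + 2) * (S h0 * JJ S) := by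
    rw [pull_curl, pull_wedge]
    linear_combination JJ S * p0
  have q1 : S F * (pderiv ℂ 0 (pull S ω1 1) - pderiv ℂ 1 (pull S ω1 0)) -
      (pull S (th α A F (n + 1)) 0 * pull S ω1 1 - pull S (th α A F (n + 1)) 1 * pull S ω1 0) +
      (pull S A 0 * pull S ω 1 - pull S A 1 * pull S ω 0) =
      S F ^ (n + 2) * (S h1 * JJ S) := by
    rw [pull_curl, pull_wedge, pull_wedge]
    linear_combination JJ S * p1
  have hU0 : U ≠ 0 := by
    rintro rfl
    rw [mul_zero] at hVU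
    exact zero_ne_one hVU
  have hVUp : V ^ (n + 1) * U ^ (n + 1) = 1 := by rw [← mul_pow, hVU, one_pow]
  -- the gauged forms
  obtain ⟨x, hx⟩ : ∃ x : Fin 2 → T, ∀ i, pull S ω i = U ^ (n + 1) * x i :=
    ⟨fun i => V ^ (n + 1) * pull S ω i, fun i => by linear_combination -(pull S ω i) * hVUp⟩
  obtain ⟨y, hy⟩ : ∃ y : Fin 2 → T, ∀ i, pull S ω1 i = U ^ (n + 1) * y i :=
    ⟨fun i => V ^ (n + 1) * pull S ω1 i, fun i => by linear_combination -(pull S ω1 i) * hVUp⟩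
  have hUd := fun i => pow_deriv U i (n + 1)
  have hdx : ∀ (i : Fin 2) (z : T), pderiv ℂ i (U ^ (n + 1) * z) =
      U ^ (n + 1) * pderiv ℂ i z + z * pderiv ℂ i (U ^ (n + 1)) := by
    intro i z
    rw [Derivation.leibniz, smul_eq_mul, smul_eq_mul]
  have hdG : ∀ (i : Fin 2), pderiv ℂ i (U * (G : T)) =
      U * pderiv ℂ i (G : T) + (G : T) * pderiv ℂ i U := by
    intro i
    rw [Derivation.leibniz, smul_eq_mul, smul_eq_mul]
  have r0 : (G : T) * (pderiv ℂ 0 (x 1) - pderiv ℂ 1 (x 0)) -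
      ((C α * B 0 + ((n + 1 : ℕ) : T) * pderiv ℂ 0 (G : T)) * x 1 -
        (C α * B 1 + ((n + 1 : ℕ) : T) * pderiv ℂ 1 (G : T)) * x 0) =
      (G : T) ^ (n + 2) * (S h0 * JJ S) := by
    apply mul_left_cancel₀ (pow_ne_zero (n + 2) hU0)
    rw [pull_th, pull_th, hx, hx, hFG, hB, hB, hdx, hdx, hdG, hdG, mul_pow] at q0
    have u0 := hUd 0
    have u1 := hUd 1
    linear_combination q0 - (G : T) * x 1 * u0 + (G : T) * x 0 * u1
  have r1 : (G : T) * (pderiv ℂ 0 (y 1) - pderiv ℂ 1 (y 0)) -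
      ((C α * B 0 + ((n + 1 : ℕ) : T) * pderiv ℂ 0 (G : T)) * y 1 -
        (C α * B 1 + ((n + 1 : ℕ) : T) * pderiv ℂ 1 (G : T)) * y 0) +
      (B 0 * x 1 - B 1 * x 0) =
      (G : T) ^ (n + 2) * (S h1 * JJ S) := by
    apply mul_left_cancel₀ (pow_ne_zero (n + 2) hU0)
    rw [pull_th, pull_th, hx, hx, hy, hy, hFG, hB, hB, hdx, hdx, hdG, hdG, mul_pow] at q1
    have u0 := hUd 0
    have u1 := hUd 1
    linear_combination q1 - (G : T) * y 1 * u0 + (G : T) * y 0 * u1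
  obtain ⟨φ, ω', hφ⟩ := loc_main hL n x y _ _ r0 r1
  refine ⟨U ^ n * φ, ω', fun i => ?_⟩
  have u2 := pow_deriv U i n
  rw [hx, hφ, hFG, hB, Derivation.leibniz, hdG, smul_eq_mul, smul_eq_mul, mul_pow]
  push_cast
  linear_combination (-(G : T) * φ) * u2

/-- The formal solutions are inherited. -/
theorem LS_step (h : ChartHyp f F A α) (p : Fin 2 → ℂ) (Φ : T ≃ₐ[ℂ] T) (n : ℕ)
    (Ξ Ξ' : Fin 2 → P2) (φ0 : P2) (hF0 : SS Φ p F ≠ 0)
    (hΞ : ∀ t, F * Ξ' t = Ξ t + F * MvPolynomial.pderiv t φ0 - φ0 * th α A F n t)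
    (hL : LS (SS Φ p) α A F (n + 1) Ξ) : LS (SS Φ p) α A F n Ξ' := by
  obtain ⟨φ, ω', hφ⟩ := hL
  set S := SS Φ p with hS
  have h1 : ∀ i, S F * pull S Ξ' i = S F ^ (n + 1) * ω' i + S F * pderiv ℂ i (φ + S φ0) -
      (φ + S φ0) * (C α * pull S A i + (n : T) * pderiv ℂ i (S F)) := by
    intro i
    have a0 := congrArg S (hΞ 0)
    have a1 := congrArg S (hΞ 1)
    simp only [map_mul, map_add, map_sub] at a0 a1
    have a2 := hφ i
    have a3 := pull_th S α A F n i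
    have a4 := chain S i φ0
    rw [map_add, a4, ← a3]
    push_cast at a2
    have a5 : pull S Ξ i = S F ^ (n + 1) * ω' i + S F * pderiv ℂ i φ -
        φ * pull S (th α A F n) i := by
      rw [a2, a3]; ring
    unfold pull at a5 ⊢
    linear_combination a5 + pderiv ℂ i (S (MvPolynomial.X 0)) * a0 +
      pderiv ℂ i (S (MvPolynomial.X 1)) * a1
  obtain ⟨η, hη⟩ : S F ∣ φ + S φ0 := by
    refine red_pt h Φ p n _ fun i => ?_
    rw [pull_th]
    exact ⟨S F ^ n * ω' i + pderiv ℂ i (φ + S φ0) - pull S Ξ' i, by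
      linear_combination h1 i⟩
  refine ⟨η, ω', fun i => ?_⟩
  apply mul_left_cancel₀ hF0
  rw [h1, hη, Derivation.leibniz, smul_eq_mul, smul_eq_mul]
  ring

/-- The formal solutions give local solutions. -/
theorem LS_use (p : Fin 2 → ℂ) (Φ : T ≃ₐ[ℂ] T) (n : ℕ) (Ξ κ : Fin 2 → P2)
    (hL : LS (SS Φ p) α A F (n + 1) Ξ) : ∃ a b d : P2, MvPolynomial.eval p a ≠ 0 ∧
      a * (κ 0 * Ξ 0 + κ 1 * Ξ 1) =
        b * (κ 0 * th α A F n 0 + κ 1 * th α A F n 1) + d * F := by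
  obtain ⟨φ, ω', hφ⟩ := hL
  set S := SS Φ p with hS
  obtain ⟨j, hj⟩ := JJ_unit Φ p
  have h1 : ∀ i, pull S Ξ i = -φ * pull S (th α A F n) i +
      S F * (S F ^ n * ω' i + pderiv ℂ i φ) := by
    intro i
    rw [hφ, pull_th]
    push_cast
    ring
  have h2 : ∀ x : T, x * JJ S * (↑j⁻¹ : T) = x := by
    intro x
    rw [← hj, mul_assoc, Units.mul_inv, mul_one]
  obtain ⟨z0, hz0⟩ : ∃ z, S (Ξ 0) = -φ * S (th α A F n 0) + S F * z := by
    have a1 := pull_inv0 S Ξ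
    have a2 := pull_inv0 S (th α A F n)
    rw [h1, h1] at a1
    refine ⟨(pderiv ℂ 1 (S (MvPolynomial.X 1)) * (S F ^ n * ω' 0 + pderiv ℂ 0 φ) -
      pderiv ℂ 0 (S (MvPolynomial.X 1)) * (S F ^ n * ω' 1 + pderiv ℂ 1 φ)) * (↑j⁻¹ : T), ?_⟩
    have a3 := h2 (S (Ξ 0))
    have a4 := h2 (S (th α A F n 0))
    rw [← a3, a1]
    linear_combination (φ * (↑j⁻¹ : T)) * a2 - φ * a4
  obtain ⟨z1, hz1⟩ : ∃ z, S (Ξ 1) = -φ * S (th α A F n 1) + S F * z := by
    have a1 := pull_inv1 S Ξ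
    have a2 := pull_inv1 S (th α A F n)
    rw [h1, h1] at a1
    refine ⟨(pderiv ℂ 0 (S (MvPolynomial.X 0)) * (S F ^ n * ω' 1 + pderiv ℂ 1 φ) -
      pderiv ℂ 1 (S (MvPolynomial.X 0)) * (S F ^ n * ω' 0 + pderiv ℂ 0 φ)) * (↑j⁻¹ : T), ?_⟩
    have a3 := h2 (S (Ξ 1))
    have a4 := h2 (S (th α A F n 1))
    rw [← a3, a1]
    linear_combination (φ * (↑j⁻¹ : T)) * a2 - φ * a4
  have h3 : S (κ 0 * Ξ 0 + κ 1 * Ξ 1) = -φ * S (κ 0 * th α A F n 0 + κ 1 * th α A F n 1) +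
      (S (κ 0) * z0 + S (κ 1) * z1) * S F := by
    simp only [map_add, map_mul]
    rw [hz0, hz1]
    ring
  generalize κ 0 * Ξ 0 + κ 1 * Ξ 1 = W at h3 ⊢
  generalize κ 0 * th α A F n 0 + κ 1 * th α A F n 1 = E at h3 ⊢
  generalize S (κ 0) * z0 + S (κ 1) * z1 = z at h3
  have h4 := congrArg Φ.symm h3
  rw [map_add, map_mul, map_mul, hS, SS_apply, SS_apply, SS_apply, AlgEquiv.symm_apply_apply,
    AlgEquiv.symm_apply_apply, AlgEquiv.symm_apply_apply] at h4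
  obtain ⟨a, b, d, ha, habd⟩ := colon_flat _ _ _ _ _ h4
  refine ⟨W574.SM.translate (-p) a, W574.SM.translate (-p) b, W574.SM.translate (-p) d, ?_, ?_⟩
  · have h5 := cc_translate p (W574.SM.translate (-p) a)
    rw [translate_neg] at h5
    rw [← h5]
    exact ha
  · have h5 := congrArg (W574.SM.translate (-p)) habd
    rw [map_mul, map_add, map_mul, map_mul, translate_neg', translate_neg', translate_neg'] at h5
    exact h5

end Pool.Agent.U184
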