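import Mathlib

set_option autoImplicit false

/-! # Change of the denominators -/

namespace Pool.Agent.U184

open MvPolynomial

variable {σ : Type}

theorem pow_deriv' (U : MvPolynomial σ ℂ) (i : σ) (n : ℕ) :
    U * pderiv i (U ^ n) = (n : MvPolynomial σ ℂ) * U ^ n * pderiv i U := by
  rw [Derivation.leibniz_pow, smul_eq_mul, nsmul_eq_mul]
  rcases n with _ | n
  · simp
  · rw [Nat.add_sub_cancel, pow_succ]
    ring

theorem chg_term (f F Q : MvPolynomial σ ℂ) (hf0 : f ≠ 0) (hF0 : F ≠ 0) (M N : ℕ)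
    (hQ : F ^ M = f * Q) (l : σ) (A : MvPolynomial σ ℂ) (hA : f * A = F * pderiv l f) (α : ℂ)
    (v u : MvPolynomial σ ℂ) :
    f ^ (N + 1) * (F * pderiv l (Q ^ N * v) -
      (C α * A + ((M * N : ℕ) : MvPolynomial σ ℂ) * pderiv l F) * (Q ^ N * v) + A * (Q ^ N * u)) =
    F ^ (M * N + 1) * (f * pderiv l v + C (-α - N) * (v * pderiv l f) + u * pderiv l f) := by
  have h1 : f ^ N * Q ^ N = F ^ (M * N) := by rw [← mul_pow, ← hQ, ← pow_mul]
  have h2 := congrArg (pderiv l) h1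
  rw [Derivation.leibniz, smul_eq_mul, smul_eq_mul] at h2
  have h3 := pow_deriv' F l (M * N)
  have h4 := pow_deriv' f l N
  have hC : (C (-α - N) : MvPolynomial σ ℂ) = -C α - (N : MvPolynomial σ ℂ) := by
    rw [map_sub, map_neg, map_natCast]
  rw [hC, Derivation.leibniz, smul_eq_mul, smul_eq_mul]
  set K : MvPolynomial σ ℂ := ((M * N : ℕ) : MvPolynomial σ ℂ)
  have h5 : f * (F * (f ^ N * pderiv l (Q ^ N))) = v * 0 + f * (K * F ^ (M * N) * pderiv l F) -
      F * Q ^ N * ((N : MvPolynomial σ ℂ) * f ^ N * pderiv l f) := by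
    linear_combination f * F * h2 + f * h3 - F * Q ^ N * h4
  rw [pow_succ f, pow_succ F]
  linear_combination v * h5 + (f * F * pderiv l v - v * (N : MvPolynomial σ ℂ) * F * pderiv l f
    - C α * F * pderiv l f * v - K * pderiv l F * f * v + F * pderiv l f * u) * h1 +
    (u * Q ^ N * f ^ N - C α * f ^ N * Q ^ N * v) * hA

/-- **Change of the denominators.** -/
theorem chg [Fintype σ] (f F Q : MvPolynomial σ ℂ) (hf0 : f ≠ 0) (hF0 : F ≠ 0) (M N : ℕ)
    (hQ : F ^ M = f * Q) (A : σ → MvPolynomial σ ℂ) (hA : ∀ l, f * A l = F * pderiv l f) (α : ℂ)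
    (v u : σ → MvPolynomial σ ℂ) (h : MvPolynomial σ ℂ)
    (he : f * ∑ l, pderiv l (v l) + C (-α - N) * ∑ l, v l * pderiv l f +
      ∑ l, u l * pderiv l f = f ^ (N + 1) * h) :
    F * ∑ l, pderiv l (Q ^ N * v l) - ∑ l, (C α * A l +
      ((M * N : ℕ) : MvPolynomial σ ℂ) * pderiv l F) * (Q ^ N * v l) +
      ∑ l, A l * (Q ^ N * u l) = F ^ (M * N + 1) * h := by
  apply mul_left_cancel₀ (pow_ne_zero (N + 1) hf0)
  have h1 := Finset.sum_congr (rfl : (Finset.univ : Finset σ) = Finset.univ)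
    fun l _ => chg_term f F Q hf0 hF0 M N hQ l (A l) (hA l) α (v l) (u l)
  rw [← Finset.mul_sum, ← Finset.mul_sum, Finset.sum_add_distrib, Finset.sum_sub_distrib,
    Finset.sum_add_distrib, Finset.sum_add_distrib, ← Finset.mul_sum, ← Finset.mul_sum,
    ← Finset.mul_sum, he] at h1
  rw [h1]
  ring

end Pool.Agent.U184
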