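import Pool.Agent.U184.Core2
import Pool.Agent.N127.PB.Pairs

set_option autoImplicit false

/-! # The root `-3/d` for linear systems with a non-resonant member -/

namespace Pool.Agent.U184

open MvPolynomial Pool.Agent.H628R4.TP Pool.Agent.W574.HS Pool.Agent.W574.CN Pool.Agent.W574.MO
open Pool.Agent.N127.PB (stmA stmAI)

/-- if all `f_j` vanish then `G(f) = 0` -/
theorem exists_ne_of_aeval {ι σ : Type} (f : ι → MvPolynomial σ ℂ) (G : MvPolynomial ι ℂ) (m : ℕ)
    (hm : 0 < m) (hG : G.IsHomogeneous m) (h : aeval f G ≠ 0) : ∃ j, f j ≠ 0 := by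
  by_contra hall
  push Not at hall
  apply h
  have e : f = fun _ => 0 := funext hall
  rw [e]
  have h1 : aeval (fun _ : ι => (0 : MvPolynomial σ ℂ)) G = C (constantCoeff G) := aeval_zero' G
  rw [h1]
  have h4 : constantCoeff G = 0 := by
    rw [constantCoeff_eq]
    by_contra hne
    have := hG hne
    simp at this
    omega
  rw [h4, map_zero]

theorem nr_ne {ι : Type} (f : ι → MvPolynomial (Fin 3) ℂ) (d : ℕ) (h : NRMember f d) :
    ∃ j, f j ≠ 0 := by
  obtain ⟨m, G, hm, hG, ⟨_, _, h0, _⟩, _⟩ := h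
  exact exists_ne_of_aeval f G m hm hG h0

/-- **The root `-3/d`** for the hypersurface `∑ y_j f_j(x) = 0`. -/
theorem root_nr_form {ι : Type} [Fintype ι] (f : ι → MvPolynomial (Fin 3) ℂ) (d : ℕ) (hd : 0 < d)
    (hf : ∀ j, (f j).IsHomogeneous d) (b : Polynomial ℂ) (hb : IsBFunction (univ f) b)
    (hc : NRMember f d) : b.eval (-3 / (d : ℂ)) = 0 := by
  classical
  obtain ⟨j, hj⟩ := nr_ne f d hc
  exact root_nr f d hd hf _ (stmA ι (Fin 3) f d hd hf (univ_ne_zero _ ⟨j, hj⟩) b hb _) hc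

/-- **The root `-3/d`** for the ideal `(f_j)`. -/
theorem root_nr_ideal {ι : Type} [Fintype ι] (f : ι → MvPolynomial (Fin 3) ℂ) (d : ℕ) (hd : 0 < d)
    (hf : ∀ j, (f j).IsHomogeneous d) (b : Polynomial ℂ)
    (hb : Pool.Agent.W574.SM.IsFunctionalEq f b) (hc : NRMember f d) :
    b.eval (-3 / (d : ℂ)) = 0 := by
  classical
  obtain ⟨j, hj⟩ := nr_ne f d hc
  exact root_nr f d hd hf _
    (stmAI f d hd hf (univ_ne_zero _ ⟨j, hj⟩) b (Pool.Agent.W366.SI.taskI1' f b hb) _) hc

/-- the denominators -/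
theorem den_nr {M : Type} [CommRing M] (L : Mˣ) {ι : Type} [Fintype ι]
    (f : ι → MvPolynomial (Fin 3) ℂ) (d : ℕ) (hd : 0 < d) (b : Polynomial ℂ)
    (hb : b.eval (-3 / (d : ℂ)) = 0)
    (Z : PowerSeries M) (hZ : Z ∈ DenRing L (ConePair f d b)) : Z ∈ DenRing L (RootPair b) := by
  have h : DenRing L (ConePair f d b) ≤ DenRing L (RootPair b) := by
    refine Subring.closure_mono (Set.union_subset_union_right _ ?_)
    rintro u ⟨a, n, ha, hn, hK, hu⟩
    refine ⟨a, n, ha, hn, ?_, hu⟩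
    rcases hK with h1 | ⟨h1, h2⟩
    · exact h1
    · rw [RootPair]
      have ha0 : (a : ℂ) ≠ 0 := by exact_mod_cast (by omega : a ≠ 0)
      have hd0 : (d : ℂ) ≠ 0 := by exact_mod_cast hd.ne'
      have h3 : (3 : ℂ) * a = d * n := by exact_mod_cast h1
      have h4 : -(n : ℂ) / a = -3 / d := by
        field_simp
        linear_combination h3
      rw [h4]
      exact hb
  exact h hZ

end Pool.Agent.U184
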