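import Pool.Agent.U184.ConeDefs
import Pool.Agent.U184.CI
import Pool.Agent.U184.Sys

set_option autoImplicit false
set_option linter.unusedSectionVars false

/-! # Iterated cones: the root `-(n + 1) / d` -/

namespace Pool.Agent.U184

open MvPolynomial Pool.Agent.W574.SM Pool.Agent.R852.PP Pool.Agent.TH192.DT Pool.Agent.N103.V
open Pool.Agent.W574.HS Pool.Agent.N127.TW
open Pool.Agent.H628R4.TP (IsBFunction IsLocalBFunction)
open Pool.Agent.Y229.RE (trans trans_local)
open Pool.Agent.Y229.PS (formal_of_local IsFormalBFunction)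

theorem PeriodMember.good {σ ι : Type} [Fintype σ] {F : ι → MvPolynomial σ ℂ}
    (h : PeriodMember F) : GoodMember F := by
  obtain ⟨m, k, e, g, hm, hk, hg, h0, hp, hmem⟩ := h
  obtain ⟨G, hG, hGg⟩ := exists_form_of_mem F m _ hmem
  exact ⟨m, k, e, G, g, hm, hk, hG, hg, h0, hGg, Or.inr hp⟩

/-- multiplication of a linear system by a polynomial -/
theorem mul_mem_span {σ ι : Type} (h : MvPolynomial σ ℂ) (P : ι → MvPolynomial σ ℂ) (m : ℕ)
    (x : MvPolynomial σ ℂ) (hx : x ∈ Submodule.span ℂ (Set.range P) ^ m) :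
    h ^ m * x ∈ Submodule.span ℂ (Set.range fun J => h * P J) ^ m := by
  induction m generalizing x with
  | zero =>
    rw [pow_zero] at hx
    rw [pow_zero, pow_zero, one_mul]
    exact hx
  | succ m ih =>
    rw [pow_succ] at hx
    refine Submodule.mul_induction_on hx ?_ ?_
    · intro u hu v hv
      have hv' : h * v ∈ Submodule.span ℂ (Set.range fun J => h * P J) := by
        refine Submodule.span_induction ?_ ?_ ?_ ?_ hv
        · rintro _ ⟨j, rfl⟩
          exact Submodule.subset_span ⟨j, rfl⟩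
        · rw [mul_zero]
          exact Submodule.zero_mem _
        · intro a b _ _ ha hb
          rw [mul_add]
          exact Submodule.add_mem _ ha hb
        · intro c a _ ha
          rw [mul_smul_comm]
          exact Submodule.smul_mem _ _ ha
      have e1 : h ^ (m + 1) * (u * v) = (h ^ m * u) * (h * v) := by ring
      rw [e1, pow_succ]
      exact Submodule.mul_mem_mul (ih u hu) hv'
    · intro u v hu hv
      rw [mul_add]
      exact Submodule.add_mem _ hu hv

/-- products of powers of members -/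
theorem prod_mem_prodFam {σ τ : Type} [Fintype τ] [DecidableEq τ] {κ : τ → Type} (a : τ → ℕ)
    (f : (t : τ) → κ t → MvPolynomial σ ℂ) (m : ℕ) (u : τ → MvPolynomial σ ℂ)
    (hu : ∀ t, u t ∈ Submodule.span ℂ (Set.range (f t)) ^ m) :
    ∏ t, u t ^ a t ∈ Submodule.span ℂ (Set.range
      (prodFam fun q : Σ t, Fin (a t) => f q.1)) ^ m := by
  have h1 : (∏ t, Submodule.span ℂ (Set.range (f t)) ^ a t) ≤
      Submodule.span ℂ (Set.range (prodFam fun q : Σ t, Fin (a t) => f q.1)) := by
    refine le_trans (le_of_eq ?_) (prod_span_le _)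
    rw [Fintype.prod_sigma]
    refine Finset.prod_congr rfl fun t _ => ?_
    simp
  refine pow_le_pow_left' h1 m ?_
  rw [← Finset.prod_pow]
  refine mem_prod _ _ fun t => ?_
  rw [← pow_mul, mul_comm, pow_mul]
  exact Submodule.pow_mem_pow _ (hu t) _

/-- a form with positive real values in suitable linear coordinates has a period -/
theorem period_of_pos_mat {σ : Type} [Fintype σ] [DecidableEq σ] [Nonempty σ]
    (A : Matrix σ σ ℂ) (hA : A.det ≠ 0) (H : MvPolynomial σ ℂ) (D : ℕ) (hD : 0 < D)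
    (hH : H.IsHomogeneous D)
    (hval : ∀ x : σ → ℝ, x ≠ 0 → ∃ r : ℝ, 0 < r ∧ eval (A.mulVec fun i => (x i : ℂ)) H = r) :
    HasPeriod H := by
  classical
  refine period_linear A hA H (period_of_pos _ _ hD ?_ ?_)
  · have h1 := hH.aeval (fun i => ∑ j, C (A i j) * X j : σ → MvPolynomial σ ℂ)
      (fun i => (IsHomogeneous.sum _ _ 1 fun j _ => by
        have := (isHomogeneous_C σ (A i j)).mul (isHomogeneous_X ℂ j)
        rwa [zero_add] at this))
    rwa [one_mul] at h1
  · intro x hx0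
    obtain ⟨r, hr, hr2⟩ := hval x hx0
    refine ⟨r, hr, ?_⟩
    rw [← hr2]
    unfold ev
    have h1 : ∀ p : MvPolynomial σ ℂ, eval (fun i => (x i : ℂ))
        (aeval (fun i => ∑ j, C (A i j) * X j : σ → MvPolynomial σ ℂ) p) =
          eval (A.mulVec fun i => (x i : ℂ)) p := by
      intro p
      induction p using MvPolynomial.induction_on with
      | C c =>
        have h2 : aeval (fun i => ∑ j, C (A i j) * X j : σ → MvPolynomial σ ℂ) (C c) = C c :=
          aeval_C _ _
        rw [h2, eval_C, eval_C]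
      | add p q hp hq => rw [map_add, map_add, hp, hq, map_add]
      | mul_X p i hp =>
        rw [map_mul, map_mul, hp, map_mul, eval_X, aeval_X, map_sum]
        congr 1
        rw [Matrix.mulVec, dotProduct]
        refine Finset.sum_congr rfl fun j _ => ?_
        rw [map_mul, eval_C, eval_X]
    exact h1 H

theorem RealCone.member {N : ℕ} {C : ConeData N} (h : RealCone C) :
    PeriodMember (gen C.a C.h C.f) := by
  classical
  obtain ⟨A, hA, hx⟩ := h
  set u : Fin C.m → MvPolynomial (Fin (C.n + 1)) ℂ := fun t => ∑ j, C.f t j ^ 2 with hu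
  set H : MvPolynomial (Fin (C.n + 1)) ℂ := C.h ^ 2 * ∏ t, u t ^ C.a t with hH
  have hHh : H.IsHomogeneous (C.dh * 2 + ∑ t, (C.δ t * 2) * C.a t) := by
    rw [hH]
    refine (C.hh.pow 2).mul (IsHomogeneous.prod _ _ _ fun t _ => IsHomogeneous.pow ?_ _)
    exact IsHomogeneous.sum _ _ _ fun j _ => (C.hf t j).pow 2
  have hpos : 0 < C.dh * 2 + ∑ t, (C.δ t * 2) * C.a t := by
    have h1 := C.hd
    have h2 : ∑ t, (C.δ t * 2) * C.a t = 2 * ∑ t, C.a t * C.δ t := by
      rw [Finset.mul_sum]
      refine Finset.sum_congr rfl fun t _ => ?_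
      ring
    rw [h2]
    omega
  have hval : ∀ x : Fin (C.n + 1) → ℝ, x ≠ 0 →
      ∃ r : ℝ, 0 < r ∧ eval (A.mulVec fun i => (x i : ℂ)) H = r := by
    intro x hx0
    obtain ⟨⟨r0, hr0, hr0'⟩, hf⟩ := hx x hx0
    have h1 : ∀ t, ∃ r : ℝ, 0 < r ∧ eval (A.mulVec fun i => (x i : ℂ)) (u t ^ C.a t) = r := by
      intro t
      obtain ⟨h2, j0, hj0⟩ := hf t
      choose r hr using h2
      refine ⟨(∑ j, r j ^ 2) ^ C.a t, ?_, ?_⟩
      · have hr0 : r j0 ≠ 0 := by
          intro h0
          rw [hr, h0, Complex.ofReal_zero] at hj0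
          exact hj0 rfl
        refine pow_pos ?_ _
        exact lt_of_lt_of_le (by positivity)
          (Finset.single_le_sum (f := fun j => r j ^ 2) (fun _ _ => sq_nonneg _)
            (Finset.mem_univ j0))
      · rw [map_pow, Complex.ofReal_pow]
        congr 1
        simp only [hu]
        rw [map_sum, Complex.ofReal_sum]
        refine Finset.sum_congr rfl fun j _ => ?_
        rw [map_pow, hr, Complex.ofReal_pow]
    choose r hr hr2 using h1
    refine ⟨r0 ^ 2 * ∏ t, r t, mul_pos (by positivity) (Finset.prod_pos fun t _ => hr t), ?_⟩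
    rw [hH, map_mul, map_pow, map_prod, hr0']
    push_cast
    congr 1
    exact Finset.prod_congr rfl fun t _ => hr2 t
  have hH0 : H ≠ 0 := by
    intro h0
    obtain ⟨r, hr, hr2⟩ := hval (fun _ => 1) (fun h1 => one_ne_zero (congrFun h1 0))
    rw [h0, map_zero] at hr2
    exact hr.ne' (Complex.ofReal_eq_zero.1 hr2.symm)
  refine ⟨2, 1, _, H, two_pos, one_pos, hHh, hH0, period_of_pos_mat A hA H _ hpos hHh hval, ?_⟩
  rw [pow_one, hH]
  refine mul_mem_span C.h _ 2 _ (prod_mem_prodFam C.a C.f 2 u fun t => ?_)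
  rw [hu]
  refine Submodule.sum_mem _ fun j _ => ?_
  exact Submodule.pow_mem_pow _ (Submodule.subset_span (Set.mem_range_self j)) _

theorem CICone.member {N : ℕ} {C : ConeData N} (h : CICone C) :
    PeriodMember (gen C.a C.h C.f) := by
  classical
  obtain ⟨hdh, t₀, ht, hδ, H⟩ := h
  obtain ⟨c, hc⟩ : ∃ c : ℂ, C.h = MvPolynomial.C c := by
    have h1 := C.hh
    rw [hdh] at h1
    exact ⟨coeff 0 C.h, totalDegree_eq_zero_iff_eq_C.1
      ((totalDegree_zero_iff_isHomogeneous _).2 h1)⟩
  have hc0 : c ≠ 0 := by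
    rintro rfl
    exact C.hh0 (by rw [hc, map_zero])
  obtain ⟨j0, _⟩ := C.hf0 t₀
  have : Nonempty (Fin (C.r t₀)) := ⟨j0⟩
  obtain ⟨g, hg, hgh, hg0, hI⟩ := ci_member (C.f t₀) (C.δ t₀) hδ (C.hf t₀) H
  refine ⟨1, C.a t₀, C.δ t₀, g, one_pos, C.ha t₀, hgh, hg0, period_of_iso g _ hgh hI, ?_⟩
  have h1 := prod_mem_prodFam C.a C.f 1 (fun _ => g) (fun t => by
    obtain rfl := ht t
    rw [pow_one]
    exact hg)
  have h2 : ∏ t, (fun _ => g : Fin C.m → MvPolynomial (Fin (C.n + 1)) ℂ) t ^ C.a t =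
      g ^ C.a t₀ := by
    rw [Finset.prod_eq_single t₀]
    · intro t _ h3
      exact absurd (ht t) h3
    · intro h3
      exact absurd (Finset.mem_univ _) h3
  rw [h2] at h1
  have h3 : C.h * g ^ C.a t₀ ∈ Submodule.span ℂ (Set.range (gen C.a C.h C.f)) ^ 1 := by
    have h5 := mul_mem_span C.h _ 1 _ h1
    rw [pow_one C.h] at h5
    exact h5
  have h4 : g ^ C.a t₀ = c⁻¹ • (C.h * g ^ C.a t₀) := by
    rw [hc, ← smul_eq_C_mul, smul_smul, inv_mul_cancel₀ hc0, one_smul]
  rw [h4]
  exact Submodule.smul_mem _ _ h3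

/-- the root `-(n + 1) / d` -/
theorem cone_root {N : ℕ} (C : ConeData N) (b : Polynomial ℂ) (hb : IsBFunction C.G b)
    (hc : ConeCond C) : b.eval (-((C.n : ℂ) + 1) / C.d) = 0 := by
  classical
  have hb1 : IsBFunction (form C.a C.h C.f) b := isB_of_rename C.ε _ b hb
  have : Nonempty (Fin C.m) := ⟨⟨0, C.hm⟩⟩
  have hgen := gen_homogeneous C.a C.h C.f C.dh C.δ C.hh C.hf
  obtain ⟨b', hbb, hb'⟩ := functionalEq_strong C.a C.h C.f C.hh0 C.hf0 ⟨0, C.hm⟩
    (C.ha _).ne' b hb1
  have hper : PeriodMember (gen C.a C.h C.f) → b.eval (-((C.n : ℂ) + 1) / C.d) = 0 := by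
    intro hp
    rw [hbb, Polynomial.eval_mul]
    refine mul_eq_zero_of_right _ ?_
    have h1 := root_good_ideal (gen C.a C.h C.f) _ C.hd (by rw [Fintype.card_fin]; omega)
      hgen b' hb' hp.good
    rw [Fintype.card_fin] at h1
    rw [← h1]
    congr 1
    rw [ConeData.d]
    push_cast
    ring
  rcases hc with hc | hc | hc | hc | ⟨hn, hc⟩
  · exact root_top C.a C.h C.f C.dh C.δ C.hh C.hf C.hh0 C.hf0 C.ha C.hd b hb1 hc
  · exact hper hc
  · exact hper hc.member
  · exact hper hc.member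
  · rw [hbb, Polynomial.eval_mul]
    refine mul_eq_zero_of_right _ ?_
    have hF : ∀ J, (rename (Fin.cast hn) (gen C.a C.h C.f J)).IsHomogeneous C.d := fun J =>
      (hgen J).rename_isHomogeneous
    have hb2 : IsFunctionalEq (fun J => rename (Fin.cast hn) (gen C.a C.h C.f J)) b' :=
      Pool.Agent.W574.RO.functionalEq_equiv (finCongr hn).symm (Equiv.refl _) _ _ (fun J => by
        rw [Equiv.refl_apply, rename_rename]
        have : ((finCongr hn).symm : Fin 3 → Fin (C.n + 1)) ∘ (Fin.cast hn) = id := by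
          funext i
          rfl
        rw [this, rename_id]
        rfl) b' hb'
    have h2 := root_nr_ideal _ _ C.hd hF b' hb2 hc
    rw [← h2]
    congr 1
    have h3 : (C.n : ℂ) = 2 := by
      have : C.n = 2 := by omega
      rw [this]
      norm_num
    rw [h3]
    change (-(2 + 1) : ℂ) / (C.d : ℂ) = -3 / (C.d : ℂ)
    norm_num

/-- the factor of the exceptional divisor -/
theorem tfac_reg2 {N : ℕ} (C : ConeData N) {b : Polynomial ℂ} (hb : IsBFunction C.G b) (e : ℕ)
    {s₀ : ℂ} (hne : b.eval s₀ ≠ 0) (hc : s₀ ≠ -((C.n : ℂ) + 1) / C.d ∨ ConeCond C) :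
    tfac e C.d (C.n + 1) ∈ Pool.Agent.W574.SM.Reg s₀ := by
  classical
  unfold tfac
  split_ifs with hed
  · refine fac_mem C.d (C.n + 1) s₀ fun h0 => ?_
    have hdc : (C.d : ℂ) ≠ 0 := Nat.cast_ne_zero.2 C.hd.ne'
    have h1 : s₀ = -((C.n : ℂ) + 1) / C.d := by
      rw [eq_div_iff hdc]
      push_cast at h0
      linear_combination h0
    rcases hc with hc | hc
    · exact hc h1
    · apply hne
      rw [h1]
      exact cone_root C b hb hc
  · exact Subring.zero_mem _

/-- The zeta functions of these germs are regular at `s₀` if `b(s₀) ≠ 0`. -/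
theorem ConeGerm2.reg {N : ℕ} {e : ℕ} (he : 1 ≤ e) {s₀ : ℂ} {g : MvPowerSeries (Fin N) ℂ}
    {z : RatFunc ℂ} (h : ConeGerm2 e s₀ g z) {b : Polynomial ℂ} (hne : b.eval s₀ ≠ 0) :
    IsFormalBFunction g b → z ∈ Pool.Agent.W574.SM.Reg s₀ := by
  induction h with
  | susp g σ F Z hg hZ => exact fun hb => germ_reg hZ hg hb he hne
  | cone g C hg hc l p z χ₀ χ hz ih =>
    intro hb
    have hG := C.isB_of_germ hg hb
    refine Subring.mul_mem _ (tfac_reg2 C hG e hne hc) (sum_reg z (fun i => ?_) χ₀ χ)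
    exact ih i (formal_of_local (trans_local (p i) hG))

end Pool.Agent.U184
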