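import Pool.Agent.U184.Defs

set_option autoImplicit false

/-! # Members without resonance of the powers of a linear system of ternary forms -/

namespace Pool.Agent.U184

open MvPolynomial Pool.Agent.W574.SM Pool.Agent.W574.CN

/-- The germ at the point `p` of the plane curve `f = 0` is weighted homogeneous and not resonant
with respect to `e`: there are a formal change of coordinates at `p` (an automorphism `Φ` of
`ℂ⟦u, v⟧`), positive weights of the variables and weighted homogeneous polynomials `g` and `G` in
`u` and `v` such that `f` becomes `g` and `F` becomes a unit times `G`, and the degree `n` of `g` is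
such that `3 n / e` is not an integer. It is applied to the reduced equation `F` of `f = 0`. -/
def NRSing (e : ℕ) (f F : MvPolynomial (Fin 2) ℂ) (p : Fin 2 → ℂ) : Prop :=
  ∃ (Φ : MvPowerSeries (Fin 2) ℂ ≃ₐ[ℂ] MvPowerSeries (Fin 2) ℂ) (w : Fin 2 → ℕ) (n N : ℕ)
    (g G : MvPolynomial (Fin 2) ℂ),
    (∀ i, 0 < w i) ∧ MvPolynomial.IsWeightedHomogeneous w g n ∧
    MvPolynomial.IsWeightedHomogeneous w G N ∧
    Φ (translate p f : MvPolynomial (Fin 2) ℂ) = (g : MvPowerSeries (Fin 2) ℂ) ∧
    Associated (Φ (translate p F : MvPolynomial (Fin 2) ℂ)) (G : MvPowerSeries (Fin 2) ℂ) ∧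
    ¬ e ∣ 3 * n

/-- `f` is a form of degree `e > 0` in three variables, `f ≠ 0`, and the singularities of the plane
projective curve `f = 0` are weighted homogeneous and not resonant: `F` is the reduced equation of
this curve (a squarefree form with `F ∣ f ∣ F ^ M`), and `NRSing` holds at every singular point of
`F = 0` (the charts `x_i = 1` of the projective plane are used). -/
def NRForm (f : MvPolynomial (Fin 3) ℂ) (e : ℕ) : Prop :=
  0 < e ∧ f.IsHomogeneous e ∧ f ≠ 0 ∧ ∃ (F : MvPolynomial (Fin 3) ℂ) (D M : ℕ),
    F.IsHomogeneous D ∧ Squarefree F ∧ F ∣ f ∧ f ∣ F ^ M ∧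
    ∀ (i : Fin 3) (p : Fin 2 → ℂ), MvPolynomial.eval p (deh i F) = 0 →
      (∀ t, MvPolynomial.eval p (MvPolynomial.pderiv t (deh i F)) = 0) →
      NRSing e (deh i f) (deh i F) p

/-- Let `f_j` be forms of degree `d` in three variables. There is a form `g = G(f)`, where `G` is a
form of degree `m > 0` in variables `z_j` (for `m = 1`: `g` is a linear combination of the `f_j`, a
member of the linear system), such that the singularities of the curve `g = 0` are weighted
homogeneous and not resonant (`NRForm`; the degree of `g` is `d m`), and such that there is no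
linear vector field `v` of trace zero with `v(g) = g` (`NoField`). -/
def NRMember {ι : Type} (f : ι → MvPolynomial (Fin 3) ℂ) (d : ℕ) : Prop :=
  ∃ (m : ℕ) (G : MvPolynomial ι ℂ), 0 < m ∧ G.IsHomogeneous m ∧ NRForm (aeval f G) (d * m) ∧
    NoField (aeval f G)

end Pool.Agent.U184
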