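import Pool.Agent.N127.TW.Cone
import Pool.Agent.U184.Defs3

set_option autoImplicit false

/-! # Iterated cones: definitions -/

namespace Pool.Agent.U184

open MvPolynomial Pool.Agent.R852.PP Pool.Agent.TH192.DT Pool.Agent.N103.V Pool.Agent.N127.TW
open Pool.Agent.Y229.RE (trans)

/-- Let `F_j` be polynomials in the variables `x_i`, `i ∈ σ` (`n` variables). There are integers
`m, k ≥ 1` and a form `g ≠ 0` such that `g ^ k` is a linear combination of products of `m` of the `F_j`,
and such that the class of `dx = dx_1 ... dx_n` in `H ^ n(Ω, d - dg ∧)`, where `Ω` is the de Rham complex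
of the polynomial ring, is not zero: there is a linear functional `Λ` on the polynomials with
`Λ(1) = 1` and `Λ(∂_i h) = Λ(∂_i g h)` for all `i` and `h` (`HasPeriod`). For instance, this is so if the
projective hypersurface `g = 0` is smooth, or if `g > 0` on `ℝ ^ n` without the origin. -/
def PeriodMember {σ ι : Type} (F : ι → MvPolynomial σ ℂ) : Prop :=
  ∃ (m k e : ℕ) (g : MvPolynomial σ ℂ), 0 < m ∧ 0 < k ∧ g.IsHomogeneous e ∧ g ≠ 0 ∧
    (∃ Λ : MvPolynomial σ ℂ →ₗ[ℂ] ℂ, (∀ i h, Λ (pderiv i h) = Λ (pderiv i g * h)) ∧ Λ 1 = 1) ∧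
    g ^ k ∈ Submodule.span ℂ (Set.range F) ^ m

/-- `h` and the `f_{t,j}` are real, `h` has no real zero, and for each `t` the `f_{t,j}` have no common
real zero, in suitable linear coordinates: there is an invertible complex matrix `A` such that, for
all real vectors `x ≠ 0`, the number `h(A x)` is real and not zero, and the numbers `f_{t,j}(A x)` are
real, and for each `t` not all zero. -/
def RealCone {N : ℕ} (C : ConeData N) : Prop :=
  ∃ A : Matrix (Fin (C.n + 1)) (Fin (C.n + 1)) ℂ, A.det ≠ 0 ∧
    ∀ x : Fin (C.n + 1) → ℝ, x ≠ 0 →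
      (∃ r : ℝ, r ≠ 0 ∧ eval (A.mulVec fun i => (x i : ℂ)) C.h = r) ∧
      ∀ t, (∀ j, ∃ r : ℝ, eval (A.mulVec fun i => (x i : ℂ)) (C.f t j) = r) ∧
        ∃ j, eval (A.mulVec fun i => (x i : ℂ)) (C.f t j) ≠ 0

/-- `G = (∑_j y_j f_j) ^ a` up to a constant, where the `f_j` are of the same degree `≥ 2` and define a
smooth complete intersection: at each common zero `z ≠ 0` of the `f_j` their gradients are linearly
independent (`SmoothCI`). -/
def CICone {N : ℕ} (C : ConeData N) : Prop :=
  C.dh = 0 ∧ ∃ t₀ : Fin C.m, (∀ t, t = t₀) ∧ 2 ≤ C.δ t₀ ∧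
    ∀ z : Fin (C.n + 1) → ℂ, z ≠ 0 → (∀ j, eval z (C.f t₀ j) = 0) →
      ∀ c : Fin (C.r t₀) → ℂ, (∀ l, ∑ j, c j * eval z (pderiv l (C.f t₀ j)) = 0) → c = 0

/-- The condition for the root `-(n + 1) / d`. Let `F_J` be the generators
`h ∏_t ∏_{i < a_t} f_{t, J(t, i)}` of the ideal `h ∏_t (f_{t,j})_j ^ a_t`. One of the following holds.

* `C.Cond`: `n + 1` of the `F_J` have a nonzero Jacobian determinant, or `n = 2` and the linear system
  of the `F_J` is composed with a pencil and satisfies one of the conditions `RootCond`.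
* `PeriodMember`: some power of a form `g` with a period is a linear combination of products of `m` of
  the `F_J`, `m ≥ 1`.
* `RealCone`: `h` and the `f_{t,j}` are real and have no real base points, in suitable linear
  coordinates.
* `CICone`: `h` is constant, there is one factor, and the `f_j` define a smooth complete intersection.
* `n = 2`, and the linear system of the `F_J` has a non-resonant member (`NRMember`). -/
def ConeCond {N : ℕ} (C : ConeData N) : Prop :=
  C.Cond ∨ PeriodMember (gen C.a C.h C.f) ∨ RealCone C ∨ CICone C ∨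
    ∃ hn : C.n + 1 = 3,
      NRMember (fun J : Ch (fun t => Fin (C.r t)) C.a => rename (Fin.cast hn) (gen C.a C.h C.f J)) C.d

/-- Germs `g` with their `e`-th twisted local topological zeta functions `z` (`e ≥ 1`), for a complex
number `s₀`:

* `susp`: `g` becomes, in formal coordinates and up to a unit, a polynomial of the class `𝓢`, whose
  twisted zeta functions are the `Z e` (`SusZeta`);
* `cone`: `g` becomes, in formal coordinates and up to a unit, a polynomial
  `G = h(x) ∏_t (∑_j y_{t,j} f_{t,j}(x)) ^ a_t`, where `h` and the `f_{t,j}` are forms in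
  `x = (x_0, ..., x_n)` (`ConeData`); then `z = [e ∣ d] / (d s + n + 1) * (χ_0 + ∑_i χ_i z_i)`, where the
  `z_i` are zeta functions of the germs of `G` at points `p_i`, which are again of the forms described
  here, and the `χ`s are integers. Here we ask that `s₀ ≠ -(n + 1) / d`, or that `ConeCond` holds.

For the second case, blow up the space `x = 0`. The exceptional divisor is `ℙ^n × ℂ^κ`, with `N = d` and
`ν = n + 1`; near a point `(Q, c)` the pull-back of `G` is `t ^ d G(q, y)`, where `t = 0` is the equation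
of the exceptional divisor and `q ≠ 0` is a point of the line `Q`. Over the origin we have `c = 0`, the
`p_i` are points `(q_i, 0)`, and the `χ_i` are the Euler characteristics of the sets of points `Q` of
`ℙ^n` where the zeta function of the germ of `G` at `(q, 0)` is `z_i` (`χ_0`: where `G(q, 0) ≠ 0`). -/
inductive ConeGerm2 {N : ℕ} (e : ℕ) (s₀ : ℂ) : MvPowerSeries (Fin N) ℂ → RatFunc ℂ → Prop
  | susp (g : MvPowerSeries (Fin N) ℂ) (σ : Type) (F : MvPolynomial σ ℂ) (Z : ℕ → RatFunc ℂ)
      (hg : BecomesAt g F) (hZ : SusZeta σ F 0 Z) : ConeGerm2 e s₀ g (Z e)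
  | cone (g : MvPowerSeries (Fin N) ℂ) (C : ConeData N) (hg : BecomesAt g C.G)
      (hc : s₀ ≠ -((C.n : ℂ) + 1) / C.d ∨ ConeCond C) (l : ℕ) (p : Fin l → Fin N → ℂ)
      (z : Fin l → RatFunc ℂ) (χ₀ : ℤ) (χ : Fin l → ℤ)
      (hz : ∀ i, ConeGerm2 e s₀ (trans (p i) C.G : MvPowerSeries (Fin N) ℂ) (z i)) :
      ConeGerm2 e s₀ g (tfac e C.d (C.n + 1) *
        ((χ₀ : RatFunc ℂ) + ∑ i, (χ i : RatFunc ℂ) * z i))

end Pool.Agent.U184
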