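import Pool.Agent.W574.CN.Deh

set_option autoImplicit false

/-! # Homogenization -/

namespace Pool.Agent.U184

open MvPolynomial Pool.Agent.W574.CN

variable {n : ℕ}

theorem eval_scale {σ : Type} [Fintype σ] {P : MvPolynomial σ ℂ} {N : ℕ} (hP : P.IsHomogeneous N)
    (r : ℂ) (x : σ → ℂ) : eval (fun i => r * x i) P = r ^ N * eval x P := by
  rw [eval_eq', eval_eq', Finset.mul_sum]
  refine Finset.sum_congr rfl fun m hm => ?_
  have h1 : ∑ i, m i = N := by
    have := hP (mem_support_iff.1 hm)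
    rw [Finsupp.weight_apply, Finsupp.sum_fintype] at this
    · simpa using this
    · intro i; simp
  have h2 : ∏ i, (r * x i) ^ m i = r ^ N * ∏ i, x i ^ m i := by
    simp only [mul_pow]
    rw [Finset.prod_mul_distrib, Finset.prod_pow_eq_pow_sum, h1]
  rw [h2]
  ring

theorem eval_deh (i : Fin (n + 1)) (q : Fin n → ℂ) (P : MvPolynomial (Fin (n + 1)) ℂ) :
    eval q (deh i P) = eval (Fin.insertNth i (1 : ℂ) q) P := by
  induction P using MvPolynomial.induction_on with
  | C a =>
    have : deh i (C a) = C a := (deh i).commutes a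
    rw [this, eval_C, eval_C]
  | add p q hp hq => rw [map_add, map_add, map_add, hp, hq]
  | mul_X p k hp =>
    rw [map_mul, map_mul, map_mul, hp, eval_X]
    congr 1
    rcases Fin.eq_self_or_eq_succAbove i k with rfl | ⟨u, rfl⟩
    · rw [deh_self, map_one, Fin.insertNth_apply_same]
    · rw [deh_succAbove, eval_X, Fin.insertNth_apply_succAbove]

/-- the value of a form at a point and the value of its dehomogenization -/
theorem eval_hom (i : Fin (n + 1)) (q : Fin (n + 1) → ℂ) (hq : q i ≠ 0)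
    {P : MvPolynomial (Fin (n + 1)) ℂ} {N : ℕ} (hP : P.IsHomogeneous N) :
    eval q P = q i ^ N * eval (fun t => q (i.succAbove t) / q i) (deh i P) := by
  rw [eval_deh, ← eval_scale hP]
  congr 2
  funext k
  rcases Fin.eq_self_or_eq_succAbove i k with rfl | ⟨u, rfl⟩
  · rw [Fin.insertNth_apply_same, mul_one]
  · rw [Fin.insertNth_apply_succAbove]
    field_simp

theorem deh_inj (i : Fin (n + 1)) {P : MvPolynomial (Fin (n + 1)) ℂ} {N : ℕ}
    (hP : P.IsHomogeneous N) (h : deh i P = 0) : P = 0 := by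
  have h1 : X i * P = 0 := by
    apply MvPolynomial.funext
    intro q
    rw [map_mul, eval_X, map_zero]
    by_cases hq : q i = 0
    · rw [hq, zero_mul]
    · rw [eval_hom i q hq hP, h, map_zero, mul_zero, mul_zero]
  exact (mul_eq_zero.1 h1).resolve_left (X_ne_zero i)

theorem hom_lift (i : Fin (n + 1)) (P : MvPolynomial (Fin n) ℂ) (K : ℕ)
    (hK : P.totalDegree ≤ K) : ∃ Q : MvPolynomial (Fin (n + 1)) ℂ, Q.IsHomogeneous K ∧
      deh i Q = P := by
  classical
  refine ⟨∑ m ∈ P.support, X i ^ (K - m.degree) * rename i.succAbove (monomial m (coeff m P)),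
    ?_, ?_⟩
  · refine IsHomogeneous.sum _ _ _ fun m hm => ?_
    have h1 : m.degree ≤ K := by
      refine le_trans ?_ hK
      exact le_totalDegree hm
    have h2 : (monomial m (coeff m P)).IsHomogeneous m.degree :=
      isHomogeneous_monomial _ rfl
    have h3 := ((isHomogeneous_X ℂ i).pow (K - m.degree)).mul
      (h2.rename_isHomogeneous (f := i.succAbove))
    rw [one_mul, Nat.sub_add_cancel h1] at h3
    exact h3
  · rw [map_sum]
    conv_rhs => rw [← support_sum_monomial_coeff P]
    refine Finset.sum_congr rfl fun m _ => ?_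
    rw [map_mul, map_pow, deh_self, one_pow, one_mul]
    have h : (deh i).comp (rename i.succAbove) = AlgHom.id ℂ (MvPolynomial (Fin n) ℂ) := by
      apply MvPolynomial.algHom_ext
      intro t
      rw [AlgHom.comp_apply, rename_X, deh_succAbove]
      rfl
    exact congrArg (fun φ : MvPolynomial (Fin n) ℂ →ₐ[ℂ] MvPolynomial (Fin n) ℂ =>
      φ (monomial m (coeff m P))) h

/-- **Lifting of relations**: a relation `a w = b θ + d F` in a chart is the dehomogenization of
such a relation. -/
theorem rel_lift (i : Fin (n + 1)) {w θ F : MvPolynomial (Fin (n + 1)) ℂ} {dw dθ dF : ℕ}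
    (hw : w.IsHomogeneous dw) (hθ : θ.IsHomogeneous dθ) (hF : F.IsHomogeneous dF)
    (a b d : MvPolynomial (Fin n) ℂ) (h : a * deh i w = b * deh i θ + d * deh i F) :
    ∃ (K : ℕ) (a' b' d' : MvPolynomial (Fin (n + 1)) ℂ), a'.IsHomogeneous K ∧ deh i a' = a ∧
      a' * w = b' * θ + d' * F := by
  set K := a.totalDegree + b.totalDegree + d.totalDegree + dθ + dF with hK
  obtain ⟨a', ha', ha⟩ := hom_lift i a K (by omega)
  obtain ⟨b', hb', hb⟩ := hom_lift i b (K + dw - dθ) (by omega)
  obtain ⟨d', hd', hd⟩ := hom_lift i d (K + dw - dF) (by omega)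
  refine ⟨K, a', b', d', ha', ha, ?_⟩
  have h1 := ha'.mul hw
  have h2 := hb'.mul hθ
  have h3 := hd'.mul hF
  have e2 : K + dw - dθ + dθ = K + dw := by omega
  have e3 : K + dw - dF + dF = K + dw := by omega
  rw [e2] at h2
  rw [e3] at h3
  have h4 := h1.sub (h2.add h3)
  have h5 := deh_inj i h4 (by
    rw [map_sub, map_add, map_mul, map_mul, map_mul, ha, hb, hd, h, sub_self])
  exact sub_eq_zero.1 h5

/-- nonzerodivisors modulo `F` and dehomogenization -/
theorem nzd_deh (i : Fin (n + 1)) {θ F : MvPolynomial (Fin (n + 1)) ℂ} {dθ dF : ℕ}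
    (hθ : θ.IsHomogeneous dθ) (hF : F.IsHomogeneous dF) (h : ∀ a, F ∣ θ * a → F ∣ a)
    (a : MvPolynomial (Fin n) ℂ) (ha : deh i F ∣ deh i θ * a) : deh i F ∣ a := by
  obtain ⟨b, hb⟩ := ha
  obtain ⟨K, a', b', d', ha', haa, he⟩ := rel_lift i (w := θ) (θ := 0) (F := F) (dθ := 0) hθ
    (isHomogeneous_zero _ _ _) hF a 0 b (by rw [map_zero, mul_zero, zero_add, mul_comm a, hb,
      mul_comm b])
  rw [mul_zero, zero_add] at he
  have h1 : F ∣ a' := h a' ⟨d', by rw [mul_comm θ, he, mul_comm]⟩
  have h2 := map_dvd (deh i) h1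
  rwa [haa] at h2

end Pool.Agent.U184
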