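import Pool.Agent.U184.Ext
import Pool.Agent.U184.Lift

set_option autoImplicit false

/-! # The functional equation of a form in three variables at `s = -3/d` -/

namespace Pool.Agent.U184

open MvPolynomial Pool.Agent.H628R4.TP Pool.Agent.N127.PB Pool.Agent.W574.CN Pool.Agent.W574.SM

/-- **The functional equation at `s = -3/d`, in `ℂ ^ 3`, and to first order in the charts.** -/
theorem ext_main (f : MvPolynomial (Fin 3) ℂ) (d : ℕ) (hd : 0 < d) (hf : f.IsHomogeneous d)
    (hf0 : f ≠ 0) (b : Polynomial ℂ) (hb : IsBFunction f b) :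
    ∃ (N : ℕ) (V : Fin 3 → MvPolynomial (Fin 3) ℂ), 0 < N ∧
      (∀ l, (V l).IsHomogeneous (d * N + 1)) ∧
      (f * ∑ l, pderiv l (V l) + C (-3 / (d : ℂ) - N) * ∑ l, V l * pderiv l f =
        f ^ (N + 1) * C (b.eval (-3 / (d : ℂ)))) ∧
      ∀ i : Fin 3, ∃ (w1 : Fin 2 → MvPolynomial (Fin 2) ℂ) (h1 : MvPolynomial (Fin 2) ℂ),
        deh i f * ∑ t, pderiv t (w1 t) + C (-3 / (d : ℂ) - N) * ∑ t, w1 t * pderiv t (deh i f) +
          ∑ t, (deh i (V (i.succAbove t)) - X t * deh i (V i)) * pderiv t (deh i f) =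
        deh i f ^ (N + 1) * h1 := by
  classical
  obtain ⟨S, u, hu, hS⟩ := ext_vf f d hd hf b hb
  obtain ⟨N, V, hVh, hV⟩ := ext_fam f d hf S u hu
  let Y : Fin 3 → ℕ → MvPolynomial (Fin 3) ℂ := fun l s =>
    homogeneousComponent (d * s + 1) (∑ m ∈ S, ((s : ℂ) ^ m) • u m l (f ^ (s + 1)))
  have hYh : ∀ l s, (Y l s).IsHomogeneous (d * s + 1) := fun l s =>
    homogeneousComponent_isHomogeneous _ _
  have hNF : ∀ i, NF (deh i f) fun s => deh i (Y i s) := fun i =>
    nf_chart i f d hf S (fun m => u m i) (fun m => hu m i)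
  choose M₀ hM₀ using fun i => ext_chart i f d hd b Y hYh hS N V hV (hNF i)
  set M := N + ∑ i, M₀ i + 1 with hM
  have hMi : ∀ i, M₀ i ≤ M := by
    intro i
    have : M₀ i ≤ ∑ i, M₀ i := Finset.single_le_sum (f := fun i => M₀ i)
      (fun _ _ => Nat.zero_le _) (Finset.mem_univ i)
    omega
  refine ⟨M, fun l => f ^ (M - N) * (V l).eval (C (-3 / (d : ℂ))), by omega, fun l => ?_, ?_,
    fun i => ?_⟩
  · have h1 := (hf.pow (M - N)).mul (eval_hom_family (V l) (d * N + 1) (hVh l) (-3 / (d : ℂ)))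
    have e : d * (M - N) + (d * N + 1) = d * M + 1 := by
      rw [← add_assoc, ← mul_add]; congr 2; omega
    rwa [e] at h1
  · have h1 := (id_and_deriv f hf0 M (fun l => Polynomial.C (f ^ (M - N)) * V l) (b.map C)
      (fun s hs => ?_) (-3 / (d : ℂ))).1
    · simp only [Polynomial.eval_mul, Polynomial.eval_C] at h1
      rw [h1, Polynomial.eval_map, Polynomial.eval₂_at_apply]
    · rw [Polynomial.eval_map, Polynomial.eval₂_at_apply, mul_comm, hS s]
      refine Finset.sum_congr rfl fun l _ => ?_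
      have e : s - M + (M - N) = s - N := by omega
      rw [hV l s (by omega), Polynomial.eval_mul, Polynomial.eval_C, ← mul_assoc, ← pow_add, e]
  · obtain ⟨w, h, hw, hw0⟩ := hM₀ i M (hMi i)
    have hg0 : deh i f ≠ 0 := fun h0 => hf0 (deh_inj i hf h0)
    refine ⟨fun t => (w t).derivative.eval (C (-3 / (d : ℂ))), h.derivative.eval (C (-3 / (d : ℂ))),
      ?_⟩
    have h1 := (id_and_deriv (deh i f) hg0 M w h hw (-3 / (d : ℂ))).2
    simp only [hw0] at h1
    rw [← h1]
    refine congrArg₂ (· + ·) rfl ?_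
    refine Finset.sum_congr rfl fun t _ => ?_
    rw [map_mul, map_mul, map_pow]
    ring

end Pool.Agent.U184
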