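import Pool.Agent.U184.Loc
import Pool.Agent.U184.Chart3

set_option autoImplicit false

/-! # The local lemma in the non-resonant case -/

namespace Pool.Agent.U184

open MvPowerSeries

section

variable {w : Fin 2 → ℕ} {NG Ng : ℕ} {α : ℂ} {G : T} {A : Fin 2 → T}

/-- **The local lemma**, if there is no resonance. -/
theorem loc_nr (h : LocData w NG Ng α G A) (n : ℕ)
    (hnr : ∀ e : ℕ, (e : ℂ) ≠ α * Ng + (n + 1 : ℕ) * NG) (ω : Fin 2 → T) (h0 : T)
    (e0 : G * (pderiv ℂ 0 (ω 1) - pderiv ℂ 1 (ω 0)) -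
      ((C α * A 0 + ((n + 1 : ℕ) : T) * pderiv ℂ 0 G) * ω 1 -
        (C α * A 1 + ((n + 1 : ℕ) : T) * pderiv ℂ 1 G) * ω 0) = G ^ (n + 2) * h0) :
    ∃ (φ : T) (ω' : Fin 2 → T), ∀ i, ω i = G ^ (n + 1) * ω' i + G * pderiv ℂ i φ -
      φ * (C α * A i + (n : T) * pderiv ℂ i G) := by
  have hχG := euler_G h
  have hχ := h.hχ
  have hG0 := h.hG0
  set E : ℂ := α * Ng + (n + 1 : ℕ) * NG with hE
  set Θ : Fin 2 → T := fun i => C α * A i + ((n + 1 : ℕ) : T) * pderiv ℂ i G with hΘ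
  set Θ' : Fin 2 → T := fun i => C α * A i + (n : T) * pderiv ℂ i G with hΘ'
  have hΘΘ : ∀ i, Θ i = Θ' i + pderiv ℂ i G := by
    intro i
    simp only [hΘ, hΘ']
    push_cast
    ring
  have hEC : C E = C α * (Ng : T) + ((n + 1 : ℕ) : T) * (NG : T) := by
    rw [hE, map_add, map_mul, map_mul]
    simp only [map_natCast]
  have hΘχ : (w 0 : T) * X 0 * Θ 0 + (w 1 : T) * X 1 * Θ 1 = C E * G := by
    rw [hEC]
    simp only [hΘ]
    linear_combination (C α) * hχ + ((n + 1 : ℕ) : T) * hχG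
  obtain ⟨c0, c1⟩ := contr w G Θ ω _ _ hΘχ e0
  set ψ : T := (w 0 : T) * X 0 * ω 0 + (w 1 : T) * X 1 * ω 1 with hψ
  obtain ⟨ψ', hψ'⟩ : G ∣ ψ := by
    refine h.red (n + 1) ψ fun i => ?_
    fin_cases i
    · exact ⟨pderiv ℂ 0 ψ - (w 1 : T) * X 1 * (G ^ (n + 1) * h0) -
        (dg w (fun e => (e : ℂ)) (ω 0) + (w 0 : T) * ω 0 - C E * ω 0), by
        have := c0
        simp only [hΘ] at this
        simp only [Fin.zero_eta]
        linear_combination this⟩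
    · exact ⟨pderiv ℂ 1 ψ + (w 0 : T) * X 0 * (G ^ (n + 1) * h0) -
        (dg w (fun e => (e : ℂ)) (ω 1) + (w 1 : T) * ω 1 - C E * ω 1), by
        have := c1
        simp only [hΘ] at this
        simp only [Fin.mk_one]
        linear_combination this⟩
  obtain ⟨τ, hτ0, hτ1⟩ : ∃ τ : Fin 2 → T, τ 0 = -((w 1 : T) * X 1) ∧ τ 1 = (w 0 : T) * X 0 :=
    ⟨![-((w 1 : T) * X 1), (w 0 : T) * X 0], rfl, rfl⟩
  have hdG : ∀ (i : Fin 2) (x : T), pderiv ℂ i (G * x) = G * pderiv ℂ i x + x * pderiv ℂ i G := by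
    intro i x
    rw [Derivation.leibniz, smul_eq_mul, smul_eq_mul]
  have b0 : ∀ i, dg w (fun e => (e : ℂ)) (ω i) + (w i : T) * ω i - C E * ω i =
      G * pderiv ℂ i ψ' - ψ' * Θ' i + G ^ (n + 1) * (h0 * τ i) := by
    intro i
    apply mul_left_cancel₀ hG0
    fin_cases i
    · simp only [Fin.zero_eta]
      rw [c0, hψ', hdG, hΘΘ, hτ0]
      ring
    · simp only [Fin.mk_one]
      rw [c1, hψ', hdG, hΘΘ, hτ1]
      ring
  let cc : ℕ → ℂ := fun e => ((e : ℂ) - E)⁻¹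
  have hcc : ∀ e : ℕ, cc e * ((e : ℂ) - E) = 1 := fun e =>
    inv_mul_cancel₀ (sub_ne_zero.2 (hnr e))
  have hL : ∀ (i : Fin 2) (x : T),
      dg w (fun e => cc (e + w i)) (dg w (fun e => (e : ℂ)) x + (w i : T) * x - C E * x) = x := by
    intro i x
    have a0 : dg w (fun e => (e : ℂ)) x + (w i : T) * x - C E * x =
        dg w (fun e => (((e + w i : ℕ) : ℂ) - E)) x := by
      ext m
      have a2 : ((w i : T)) = C (w i : ℂ) := by rw [map_natCast]
      rw [map_sub, map_add, coeff_dg, coeff_dg, a2, coeff_C_mul, coeff_C_mul]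
      push_cast
      ring
    have a3 : (fun e => cc (e + w i) * (((e + w i : ℕ) : ℂ) - E)) = fun _ => (1 : ℂ) := by
      funext e
      exact hcc _
    rw [a0, dg_dg, a3, dg_one]
  have r2 : ∀ i, ∃ x, ω i = G * pderiv ℂ i (dg w (fun e => cc (e + NG)) ψ') -
        dg w (fun e => cc (e + NG)) ψ' * Θ' i + G ^ (n + 1) * x := by
    intro i
    obtain ⟨x', hx'⟩ := key_dg h n (n + 1) cc i ψ' (h0 * τ i)
    have a1 := hL i (ω i)
    rw [b0 i] at a1
    simp only [hΘ'] at a1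
    rw [hx'] at a1
    exact ⟨x', a1.symm⟩
  choose x2 hx2 using r2
  refine ⟨dg w (fun e => cc (e + NG)) ψ', x2, fun i => ?_⟩
  have e3 := hx2 i
  simp only [hΘ'] at e3
  linear_combination e3

end

variable {f F : P2} {A : Fin 2 → P2} {α : ℂ}

/-- The formal solutions at a weighted homogeneous singularity without resonance. -/
theorem loc_chart_nr (h : ChartHyp f F A α) (p : Fin 2 → ℂ) (hp : MvPolynomial.eval p F = 0)
    (Φ : T ≃ₐ[ℂ] T) (w : Fin 2 → ℕ) (Ng NG : ℕ) (g G : P2) (hw : ∀ i, 0 < w i)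
    (hg : MvPolynomial.IsWeightedHomogeneous w g Ng)
    (hG : MvPolynomial.IsWeightedHomogeneous w G NG)
    (hΦg : Φ ((W574.SM.translate p f : P2) : T) = (g : T))
    (hΦG : Associated (Φ ((W574.SM.translate p F : P2) : T)) (G : T))
    (hnr : ∀ e n : ℕ, (e : ℂ) ≠ α * Ng + (n : ℕ)) :
    ∀ (n : ℕ) (ω : Fin 2 → P2) (h0 : P2),
      F * (MvPolynomial.pderiv 0 (ω 1) - MvPolynomial.pderiv 1 (ω 0)) -
        (th α A F (n + 1) 0 * ω 1 - th α A F (n + 1) 1 * ω 0) = F ^ (n + 2) * h0 →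
      LS (SS Φ p) α A F (n + 1) ω := by
  obtain ⟨U, V, B, hVU, hFG, hB, hL⟩ := mk_data h p hp Φ w Ng NG g G hw hg hG hΦg hΦG
  intro n ω h0 e0
  set S := SS Φ p with hS
  have p0 := congrArg S e0
  rw [map_sub, map_mul, map_mul] at p0
  rw [map_pow] at p0
  have q0 : S F * (pderiv ℂ 0 (pull S ω 1) - pderiv ℂ 1 (pull S ω 0)) -
      (pull S (th α A F (n + 1)) 0 * pull S ω 1 - pull S (th α A F (n + 1)) 1 * pull S ω 0) =
      S F ^ (n + 2) * (S h0 * JJ S) := by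
    rw [pull_curl, pull_wedge]
    linear_combination JJ S * p0
  have hU0 : U ≠ 0 := by
    rintro rfl
    rw [mul_zero] at hVU
    exact zero_ne_one hVU
  have hVUp : V ^ (n + 1) * U ^ (n + 1) = 1 := by rw [← mul_pow, hVU, one_pow]
  obtain ⟨x, hx⟩ : ∃ x : Fin 2 → T, ∀ i, pull S ω i = U ^ (n + 1) * x i :=
    ⟨fun i => V ^ (n + 1) * pull S ω i, fun i => by linear_combination -(pull S ω i) * hVUp⟩
  have hUd := fun i => pow_deriv U i (n + 1)
  have hdx : ∀ (i : Fin 2) (z : T), pderiv ℂ i (U ^ (n + 1) * z) =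
      U ^ (n + 1) * pderiv ℂ i z + z * pderiv ℂ i (U ^ (n + 1)) := by
    intro i z
    rw [Derivation.leibniz, smul_eq_mul, smul_eq_mul]
  have hdG : ∀ (i : Fin 2), pderiv ℂ i (U * (G : T)) =
      U * pderiv ℂ i (G : T) + (G : T) * pderiv ℂ i U := by
    intro i
    rw [Derivation.leibniz, smul_eq_mul, smul_eq_mul]
  have r0 : (G : T) * (pderiv ℂ 0 (x 1) - pderiv ℂ 1 (x 0)) -
      ((C α * B 0 + ((n + 1 : ℕ) : T) * pderiv ℂ 0 (G : T)) * x 1 -
        (C α * B 1 + ((n + 1 : ℕ) : T) * pderiv ℂ 1 (G : T)) * x 0) =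
      (G : T) ^ (n + 2) * (S h0 * JJ S) := by
    apply mul_left_cancel₀ (pow_ne_zero (n + 2) hU0)
    rw [pull_th, pull_th, hx, hx, hFG, hB, hB, hdx, hdx, hdG, hdG, mul_pow] at q0
    have u0 := hUd 0
    have u1 := hUd 1
    linear_combination q0 - (G : T) * x 1 * u0 + (G : T) * x 0 * u1
  obtain ⟨φ, ω', hφ⟩ := loc_nr hL n (fun e => by
    have h1 := hnr e ((n + 1) * NG)
    push_cast at h1 ⊢
    exact h1) x _ r0
  refine ⟨U ^ n * φ, ω', fun i => ?_⟩
  have u2 := pow_deriv U i n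
  rw [hx, hφ, hFG, hB, Derivation.leibniz, hdG, smul_eq_mul, smul_eq_mul, mul_pow]
  push_cast
  linear_combination (-(G : T) * φ) * u2

end Pool.Agent.U184
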