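import Pool.Agent.U184.Mel
import Pool.Agent.N127.PB.AI

set_option autoImplicit false

/-! # Functions of the members of a linear system, second part -/

namespace Pool.Agent.U184

open MvPolynomial Pool.Agent.H628R4.TP Pool.Agent.N127.PB Pool.Agent.W574.HS

variable {ι σ : Type} [Fintype ι] [Fintype σ]

theorem weight_bidegw (c : ι ⊕ σ →₀ ℕ) :
    Finsupp.weight (bidegw ι σ) c = (Multiset.card (yms c), (xpt c).degree) := by
  classical
  rw [Finsupp.weight_apply, Finsupp.sum_fintype _ _ (fun i => by rw [zero_smul]),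
    Fintype.sum_sum_type]
  have h1 : ∀ j : ι, c (Sum.inl j) • bidegw ι σ (Sum.inl j) = (ypt c j, 0) := by
    intro j
    rw [bidegw, Sum.elim_inl, ypt_apply]
    simp
  have h2 : ∀ j : σ, c (Sum.inr j) • bidegw ι σ (Sum.inr j) = (0, xpt c j) := by
    intro j
    rw [bidegw, Sum.elim_inr, xpt_apply]
    simp
  rw [Finset.sum_congr rfl fun j _ => h1 j, Finset.sum_congr rfl fun j _ => h2 j, yms,
    Finsupp.card_toMultiset, Finsupp.sum_fintype _ _ (fun i => rfl), Finsupp.degree_eq_sum]
  ext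
  · rw [Prod.fst_add, Prod.fst_sum, Prod.fst_sum]
    simp
  · rw [Prod.snd_add, Prod.snd_sum, Prod.snd_sum]
    simp

theorem TT_hom (f : ι → MvPolynomial σ ℂ) (d : ℕ) (hf : ∀ j, (f j).IsHomogeneous d)
    (G : MvPolynomial ι ℂ) (a : ℂ) (m : ℕ) (hm : 0 < m) (hG : G.IsHomogeneous m) (n e : ℕ)
    (V : MvPolynomial (ι ⊕ σ) ℂ) (hV : IsWeightedHomogeneous (bidegw ι σ) V (n, e)) :
    (TT f G a V).IsHomogeneous (e + d * ((m - 1) * n)) := by
  classical
  rw [V.as_sum, map_sum]
  refine IsHomogeneous.sum _ _ _ fun c hc => ?_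
  have h1 := hV (mem_support_iff.1 hc)
  rw [weight_bidegw, Prod.mk.injEq] at h1
  rw [TT_mon]
  refine IsHomogeneous.C_mul ?_ _
  refine IsHomogeneous.mul ?_ ?_
  · exact isHomogeneous_monomial _ h1.2
  · have h2 := PJ_hom G a m hm hG (yms c)
    rw [h1.1] at h2
    exact h2.aeval f hf

/-- the derivations with respect to `x` -/
theorem TT_dx (f : ι → MvPolynomial σ ℂ) (G : MvPolynomial ι ℂ) (a : ℂ) (n e : ℕ) (l : σ)
    (V : MvPolynomial (ι ⊕ σ) ℂ) (hV : IsWeightedHomogeneous (bidegw ι σ) V (n, e)) :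
    aeval f G * pderiv l (TT f G a V) + C (a - n) * pderiv l (aeval f G) * TT f G a V =
      aeval f G * TT f G a (pderiv (Sum.inr l) V) +
        TT f G a (pderiv (Sum.inr l) (univ f) * V) := by
  classical
  have hU : pderiv (Sum.inr l) (univ f) = ∑ k, X (Sum.inl k) * rename Sum.inr (pderiv l (f k)) := by
    rw [univ, map_sum]
    refine Finset.sum_congr rfl fun k _ => ?_
    rw [Derivation.leibniz, pderiv_X_of_ne (by simp), smul_zero, add_zero, smul_eq_mul]
    congr 1
    exact pderiv_rename Sum.inr_injective _ _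
  have key : ∀ c ∈ V.support, aeval f G * pderiv l (TT f G a (monomial c (coeff c V))) +
      C (a - n) * pderiv l (aeval f G) * TT f G a (monomial c (coeff c V)) =
      aeval f G * TT f G a (pderiv (Sum.inr l) (monomial c (coeff c V))) +
        TT f G a (pderiv (Sum.inr l) (univ f) * monomial c (coeff c V)) := by
    intro c hc
    have h1 := hV (mem_support_iff.1 hc)
    rw [weight_bidegw, Prod.mk.injEq] at h1
    have e1 : TT f G a (pderiv (Sum.inr l) (univ f) * monomial c (coeff c V)) =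
        C (coeff c V) * monomial (xpt c) 1 * (aeval f G * pderiv l (aeval f (PJ G a (yms c))) +
          C (a - n) * aeval f (PJ G a (yms c)) * pderiv l (aeval f G)) := by
      have e2 : ∀ k, X (Sum.inl k) * rename Sum.inr (pderiv l (f k)) * monomial c (coeff c V) =
          rename Sum.inr (pderiv l (f k)) * (X (Sum.inl k) * monomial c (coeff c V)) := by
        intro k; ring
      rw [hU, Finset.sum_mul, map_sum, pd_aeval f l G, pd_aeval f l (PJ G a (yms c)),
        Finset.mul_sum, Finset.mul_sum, ← Finset.sum_add_distrib, Finset.mul_sum]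
      refine Finset.sum_congr rfl fun k _ => ?_
      rw [e2, TT_rename, TT_X_inl, PJ_cons, map_add, map_mul, map_mul, map_mul, h1.1]
      have e3 : aeval f (C (a - n) : MvPolynomial ι ℂ) = C (a - n) := by
        rw [aeval_C]; rfl
      rw [e3]
      ring
    rw [e1, TT_pd, TT_mon, Derivation.leibniz, Derivation.leibniz, pderiv_C]
    simp only [smul_eq_mul, mul_zero, add_zero]
    ring
  have hs : ∀ L : MvPolynomial (ι ⊕ σ) ℂ →ₗ[ℂ] MvPolynomial σ ℂ,
      L V = ∑ c ∈ V.support, L (monomial c (coeff c V)) := by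
    intro L
    conv_lhs => rw [V.as_sum]
    rw [map_sum]
  let L1 : MvPolynomial (ι ⊕ σ) ℂ →ₗ[ℂ] MvPolynomial σ ℂ :=
    (LinearMap.mulLeft ℂ (aeval f G)).comp ((pderiv l : Derivation ℂ _ _).toLinearMap.comp
      (TT f G a)) + (LinearMap.mulLeft ℂ (C (a - n) * pderiv l (aeval f G))).comp (TT f G a)
  let L2 : MvPolynomial (ι ⊕ σ) ℂ →ₗ[ℂ] MvPolynomial σ ℂ :=
    (LinearMap.mulLeft ℂ (aeval f G)).comp ((TT f G a).comp
      (pderiv (Sum.inr l) : Derivation ℂ _ _).toLinearMap) +
      (TT f G a).comp (LinearMap.mulLeft ℂ (pderiv (Sum.inr l) (univ f)))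
  have h1 := hs L1
  have h2 := hs L2
  have h3 : ∑ c ∈ V.support, L1 (monomial c (coeff c V)) =
      ∑ c ∈ V.support, L2 (monomial c (coeff c V)) := Finset.sum_congr rfl key
  exact (h1.trans h3).trans h2.symm

/-- the multiplication by `∑ y_j f_j` -/
theorem TT_univ (f : ι → MvPolynomial σ ℂ) (G : MvPolynomial ι ℂ) (a : ℂ) (m : ℕ) (hm : 0 < m)
    (hG : G.IsHomogeneous m) (n e : ℕ)
    (V : MvPolynomial (ι ⊕ σ) ℂ) (hV : IsWeightedHomogeneous (bidegw ι σ) V (n, e)) :
    TT f G a (univ f * V) = C (m * a - n) * aeval f G * TT f G a V := by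
  classical
  have key : ∀ c ∈ V.support, TT f G a (univ f * monomial c (coeff c V)) =
      C (m * a - n) * aeval f G * TT f G a (monomial c (coeff c V)) := by
    intro c hc
    have h1 := hV (mem_support_iff.1 hc)
    rw [weight_bidegw, Prod.mk.injEq] at h1
    have e2 : ∀ k, X (Sum.inl k) * rename Sum.inr (f k) * monomial c (coeff c V) =
        rename Sum.inr (f k) * (X (Sum.inl k) * monomial c (coeff c V)) := by
      intro k; ring
    have e1 := congrArg (aeval f) (PJ_euler G a m hm hG (yms c))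
    rw [map_sum, map_mul, map_mul, h1.1] at e1
    have e3 : aeval f (C (m * a - n) : MvPolynomial ι ℂ) = C (m * a - n) := by
      rw [aeval_C]; rfl
    rw [e3] at e1
    simp only [map_mul, aeval_X] at e1
    rw [univ, Finset.sum_mul, map_sum, TT_mon]
    have e4 : C (m * a - n) * aeval f G * (C (coeff c V) * (monomial (xpt c) 1 *
        aeval f (PJ G a (yms c)))) = C (coeff c V) * monomial (xpt c) 1 *
        (C (m * a - n) * (aeval f G * aeval f (PJ G a (yms c)))) := by ring
    rw [e4, ← e1, Finset.mul_sum]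
    refine Finset.sum_congr rfl fun k _ => ?_
    rw [e2, TT_rename, TT_X_inl]
    ring
  have hs : ∀ L : MvPolynomial (ι ⊕ σ) ℂ →ₗ[ℂ] MvPolynomial σ ℂ,
      L V = ∑ c ∈ V.support, L (monomial c (coeff c V)) := by
    intro L
    conv_lhs => rw [V.as_sum]
    rw [map_sum]
  have h1 := hs ((TT f G a).comp (LinearMap.mulLeft ℂ (univ f)))
  have h2 := hs ((LinearMap.mulLeft ℂ (C (m * a - n) * aeval f G)).comp (TT f G a))
  have h3 : ∑ c ∈ V.support, ((TT f G a).comp (LinearMap.mulLeft ℂ (univ f)))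
      (monomial c (coeff c V)) = ∑ c ∈ V.support, ((LinearMap.mulLeft ℂ
        (C (m * a - n) * aeval f G)).comp (TT f G a)) (monomial c (coeff c V)) :=
    Finset.sum_congr rfl key
  exact (h1.trans h3).trans h2.symm

/-- **The transformation of the functional equation.** -/
theorem mel (f : ι → MvPolynomial σ ℂ) (d : ℕ) (hf : ∀ j, (f j).IsHomogeneous d)
    (G : MvPolynomial ι ℂ) (m : ℕ) (hm : 0 < m) (hG : G.IsHomogeneous m) (α β : ℂ)
    (hα : ∀ n : ℕ, α ≠ n) (h : HasEN f d α β) :
    ∃ (N : ℕ) (V : σ → MvPolynomial σ ℂ) (β' : ℂ), (β ≠ 0 → β' ≠ 0) ∧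
      (∀ l, (V l).IsHomogeneous (d * m * N + 1)) ∧
      aeval f G * ∑ l, pderiv l (V l) + C (α / m - N) * ∑ l, V l * pderiv l (aeval f G) =
        aeval f G ^ (N + 1) * C β' := by
  classical
  obtain ⟨N, V, hV, hE⟩ := h
  have hmc : (m : ℂ) ≠ 0 := Nat.cast_ne_zero.2 hm.ne'
  set a : ℂ := α / m with ha
  have hma : (m : ℂ) * a = α := by rw [ha]; field_simp
  set g := aeval f G with hg
  have hUh : ∀ n : ℕ, IsWeightedHomogeneous (bidegw ι σ) (univ f ^ n) (n, n * d) := by
    intro n
    have h1 : IsWeightedHomogeneous (bidegw ι σ) (univ f) (1, d) := by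
      rw [univ]
      refine IsWeightedHomogeneous.sum _ _ _ fun j _ => ?_
      have h2 := (isWeightedHomogeneous_X ℂ (bidegw ι σ) (Sum.inl j)).mul
        (rename_bihom (ι := ι) (hf j))
      have e : bidegw ι σ (Sum.inl j) + (0, d) = (1, d) := by
        rw [bidegw, Sum.elim_inl]; simp
      rwa [e] at h2
    have := h1.pow n
    simpa using this
  have hpow : ∀ n : ℕ, TT f G a (univ f ^ n) = C (∏ i ∈ Finset.range n, (α - i)) * g ^ n := by
    intro n
    induction n with
    | zero =>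
      have e : (univ f ^ 0 : MvPolynomial (ι ⊕ σ) ℂ) = monomial 0 1 := by
        rw [pow_zero]; rfl
      have e1 : xpt (0 : ι ⊕ σ →₀ ℕ) = 0 := by ext l; rfl
      have e2 : yms (0 : ι ⊕ σ →₀ ℕ) = 0 := by
        have : ypt (0 : ι ⊕ σ →₀ ℕ) = 0 := by ext l; rfl
        rw [yms, this, map_zero]
      rw [e, TT_mon, e1, e2, PJ_zero, map_one, Finset.prod_range_zero, pow_zero]
      simp
    | succ n ih =>
      rw [pow_succ', TT_univ f G a m hm hG n (n * d) _ (hUh n), ih, hma, ← hg,
        Finset.prod_range_succ, map_mul]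
      ring
  have h1 := congrArg (TT f G a) hE
  have hC : ∀ (c : ℂ) (W : MvPolynomial (ι ⊕ σ) ℂ), TT f G a (C c * W) = C c * TT f G a W := by
    intro c W
    rw [← smul_eq_C_mul, ← smul_eq_C_mul, map_smul]
  rw [hC, hpow, map_sum] at h1
  have h2 : ∀ l, TT f G a (univ f * pderiv (Sum.inr l) (V l) +
      C (α - N) * V l * pderiv (Sum.inr l) (univ f)) = C (α - N) * (g * pderiv l (TT f G a (V l)) +
        C (a - N) * (TT f G a (V l) * pderiv l g)) := by
    intro l
    have h3 : IsWeightedHomogeneous (bidegw ι σ) (pderiv (Sum.inr l) (V l)) (N, d * N) := by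
      have e : (N, d * N) + bidegw ι σ (Sum.inr l) = (N, d * N + 1) := by
        rw [bidegw, Sum.elim_inr]; simp
      exact (hV l).pderiv e
    have h4 := TT_dx f G a N (d * N + 1) l (V l) (hV l)
    have e5 : C (α - N) * V l * pderiv (Sum.inr l) (univ f) =
        C (α - N) * (pderiv (Sum.inr l) (univ f) * V l) := by ring
    rw [map_add, TT_univ f G a m hm hG N (d * N) _ h3, hma, e5, hC, ← hg]
    rw [← hg] at h4
    linear_combination (-(C (α - N) : MvPolynomial σ ℂ)) * h4
  rw [Finset.sum_congr rfl fun l _ => h2 l, ← Finset.mul_sum, Finset.sum_add_distrib,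
    ← Finset.mul_sum, ← Finset.mul_sum] at h1
  have hαN : α - N ≠ 0 := sub_ne_zero.2 (hα N)
  have hCN : (C (α - N)⁻¹ : MvPolynomial σ ℂ) * C (α - N) = 1 := by
    rw [← map_mul, inv_mul_cancel₀ hαN, map_one]
  refine ⟨N, fun l => TT f G a (V l), β * ∏ i ∈ Finset.range N, (α - i), fun hβ => ?_, fun l => ?_,
    ?_⟩
  · exact mul_ne_zero hβ (Finset.prod_ne_zero_iff.2 fun i _ => sub_ne_zero.2 (hα i))
  · have h3 := TT_hom f d hf G a m hm hG N (d * N + 1) (V l) (hV l)
    have e : d * N + 1 + d * ((m - 1) * N) = d * m * N + 1 := by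
      obtain ⟨m', rfl⟩ : ∃ m', m = m' + 1 := ⟨m - 1, by omega⟩
      rw [Nat.add_sub_cancel]
      ring
    rwa [e] at h3
  · rw [Finset.prod_range_succ, map_mul] at h1
    rw [map_mul]
    linear_combination (-(C (α - N)⁻¹ : MvPolynomial σ ℂ)) * h1 +
      (C β * C (∏ i ∈ Finset.range N, (α - i)) * g ^ (N + 1) -
        g * ∑ l, pderiv l (TT f G a (V l)) -
        C (a - N) * ∑ l, TT f G a (V l) * pderiv l g) * hCN

end Pool.Agent.U184
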