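import Pool.Agent.U184.Core
import Pool.Agent.U184.Loc2
import Pool.Agent.U184.Defs3
import Pool.Agent.U184.Mel2

set_option autoImplicit false

/-! # The root `-3/d` for linear systems of ternary forms -/

namespace Pool.Agent.U184

open MvPolynomial Pool.Agent.H628R4.TP Pool.Agent.W574.CN

theorem LS_init_nr {F : P3} {A : Fin 3 → P3} {α : ℂ} (i : Fin 3) (p : Fin 2 → ℂ)
    (Φ : T ≃ₐ[ℂ] T)
    (hΦ : ∀ (n : ℕ) (ω : Fin 2 → P2) (h0 : P2),
      deh i F * (MvPolynomial.pderiv 0 (ω 1) - MvPolynomial.pderiv 1 (ω 0)) -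
        (th α (cA A i) (deh i F) (n + 1) 0 * ω 1 - th α (cA A i) (deh i F) (n + 1) 1 * ω 0) =
          deh i F ^ (n + 2) * h0 →
      LS (SS Φ p) α (cA A i) (deh i F) (n + 1) ω)
    (n : ℕ) (Ξ : Fin 3 → P3) (h0 : P2)
    (c0 : deh i F * (pderiv 0 (deh i (Ξ (i.succAbove 1))) -
        pderiv 1 (deh i (Ξ (i.succAbove 0)))) -
      (th α (cA A i) (deh i F) (n + 1) 0 * deh i (Ξ (i.succAbove 1)) -
        th α (cA A i) (deh i F) (n + 1) 1 * deh i (Ξ (i.succAbove 0))) =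
          deh i F ^ (n + 2) * h0) :
    LS (SS Φ p) α (cA A i) (deh i F) (n + 1) (fun t => deh i (Ξ (i.succAbove t))) :=
  hΦ n _ h0 c0

/-- **The core theorem in the non-resonant case.** -/
theorem core_nr (f F : P3) (d D M : ℕ) (hd : 0 < d) (hf : f.IsHomogeneous d) (hf0 : f ≠ 0)
    (hF : F.IsHomogeneous D) (hsq : Squarefree F) (hFf : F ∣ f) (hM : f ∣ F ^ M)
    (hNR : ∀ (i : Fin 3) (p : Fin 2 → ℂ), eval p (deh i F) = 0 →
      (∀ t, eval p (pderiv t (deh i F)) = 0) → NRSing d (deh i f) (deh i F) p)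
    (N : ℕ) (V : Fin 3 → P3) (c : ℂ) (hN : 0 < N) (hVh : ∀ l, (V l).IsHomogeneous (d * N + 1))
    (hV0 : f * ∑ l, pderiv l (V l) + C (-3 / (d : ℂ) - N) * ∑ l, V l * pderiv l f =
      f ^ (N + 1) * C c) (hne : c ≠ 0) :
    ∃ v : Fin 3 → P3, (∀ l, (v l).IsHomogeneous 1) ∧ ∑ l, pderiv l (v l) = 0 ∧
      ∑ l, v l * pderiv l f = f := by
  classical
  obtain ⟨A, h⟩ := mk_GHyp f F d D M hd hf hf0 hF hsq hFf hM
  have hF0 := h.hF0
  have hD := h.hD
  obtain ⟨Q, hQ⟩ : f ∣ F ^ (M + 1) := hM.trans (pow_dvd_pow F (Nat.le_succ M))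
  have hV := hV0
  set α : ℂ := 3 / (d : ℂ) with hα
  have hαn : (-3 / (d : ℂ)) = -α := by rw [hα, neg_div]
  rw [hαn] at hV
  obtain ⟨n, hn⟩ : ∃ n, (M + 1) * N = n + 1 := by
    refine ⟨(M + 1) * N - 1, ?_⟩
    have : 0 < (M + 1) * N := Nat.mul_pos (Nat.succ_pos M) hN
    omega
  -- the degrees
  have hQh : Q.IsHomogeneous ((M + 1) * D - d) := by
    have h1 := hF.pow (M + 1)
    have h2 : d ≤ (M + 1) * D := by
      have h3 := totalDegree_le_of_dvd_of_isDomain (Dvd.intro Q hQ.symm)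
        (pow_ne_zero (M + 1) hF0)
      rw [hf.totalDegree hf0, h1.totalDegree (pow_ne_zero (M + 1) hF0)] at h3
      rwa [mul_comm] at h3
    apply hom_cancel hf0 hf
    rw [← hQ, Nat.add_sub_cancel' h2, mul_comm (M + 1) D]
    exact h1
  have hd2 : d ≤ (M + 1) * D := by
    have h1 := hF.pow (M + 1)
    have h3 := totalDegree_le_of_dvd_of_isDomain (Dvd.intro Q hQ.symm)
      (pow_ne_zero (M + 1) hF0)
    rw [hf.totalDegree hf0, h1.totalDegree (pow_ne_zero (M + 1) hF0)] at h3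
    rwa [mul_comm] at h3
  obtain ⟨V', hV'⟩ : ∃ V' : Fin 3 → P3, ∀ l, V' l = Q ^ N * V l := ⟨fun l => Q ^ N * V l, fun l => rfl⟩
  have hV'h : ∀ l, (V' l).IsHomogeneous ((n + 1) * D + 1) := by
    intro l
    have h1 := (hQh.pow N).mul (hVh l)
    have e : ((M + 1) * D - d) * N + (d * N + 1) = (n + 1) * D + 1 := by
      rw [← hn, ← add_assoc, ← add_mul, Nat.sub_add_cancel hd2]
      ring
    rw [e] at h1
    rw [hV']
    exact h1
  -- the equation in `ℂ ^ 3`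
  have hE := chg f F Q hf0 hF0 (M + 1) N hQ A h.hA α V (fun _ => 0) (C c) (by
    rw [← hV]; simp)
  rw [hn] at hE
  simp only [mul_zero, Finset.sum_const_zero, add_zero] at hE
  have hE' : F * ∑ l, pderiv l (V' l) - ∑ l, t3 α A F (n + 1) l * V' l =
      F ^ (n + 1 + 1) * C c := by
    simp only [hV']
    exact hE
  rw [Fin.sum_univ_three, Fin.sum_univ_three] at hE'
  have ht := t3_euler h (n + 1)
  rw [Fin.sum_univ_three] at ht
  have hEu : ∀ l, X 0 * pderiv 0 (V' l) + X 1 * pderiv 1 (V' l) + X 2 * pderiv 2 (V' l) =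
      C (((n + 1 : ℕ) : ℂ) * D + 1) * V' l := by
    intro l
    have := (hV'h l).sum_X_mul_pderiv
    rw [Fin.sum_univ_three, nsmul_eq_mul] at this
    rw [this]
    congr 1
    rw [map_add, map_mul, map_natCast, map_natCast, map_one]
    push_cast
    ring
  obtain ⟨Ξ, hΞ0, hΞ1, hΞ2⟩ : ∃ Ξ : Fin 3 → P3, Ξ 0 = V' 1 * X 2 - V' 2 * X 1 ∧
      Ξ 1 = V' 2 * X 0 - V' 0 * X 2 ∧ Ξ 2 = V' 0 * X 1 - V' 1 * X 0 :=
    ⟨![V' 1 * X 2 - V' 2 * X 1, V' 2 * X 0 - V' 0 * X 2, V' 0 * X 1 - V' 1 * X 0],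
      rfl, rfl, rfl⟩
  have hΞh : ∀ l, (Ξ l).IsHomogeneous ((n + 1) * D + 2) := by
    have hm : ∀ a b : Fin 3, (V' a * X b).IsHomogeneous ((n + 1) * D + 2) := fun a b =>
      (hV'h a).mul (isHomogeneous_X ℂ b)
    intro l
    have k0 : (Ξ 0).IsHomogeneous ((n + 1) * D + 2) := by
      rw [hΞ0]; exact (hm 1 2).sub (hm 2 1)
    have k1 : (Ξ 1).IsHomogeneous ((n + 1) * D + 2) := by
      rw [hΞ1]; exact (hm 2 0).sub (hm 0 2)
    have k2 : (Ξ 2).IsHomogeneous ((n + 1) * D + 2) := by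
      rw [hΞ2]; exact (hm 0 1).sub (hm 1 0)
    fin_cases l
    · exact k0
    · exact k1
    · exact k2
  have hΞx : ∑ l, X l * Ξ l = 0 := by
    rw [Fin.sum_univ_three, hΞ0, hΞ1, hΞ2]
    ring
  have hX : ∀ a b : Fin 3, a ≠ b → pderiv a (X b : P3) = 0 := fun a b hab =>
    pderiv_X_of_ne (fun h => hab h.symm)
  have h3 : (C (((n + 1 : ℕ) : ℂ) * D + 1) : P3) + 2 = C (3 + ((n + 1 : ℕ) : ℂ) * D) := by
    have : (2 : P3) = C 2 := (map_ofNat C 2).symm
    rw [this, ← map_add]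
    congr 1
    ring
  have hE0 : F * (pderiv 1 (Ξ 2) - pderiv 2 (Ξ 1)) -
      (t3 α A F (n + 1) 1 * Ξ 2 - t3 α A F (n + 1) 2 * Ξ 1) =
        -(C c * F ^ (n + 1 + 1) * X 0) := by
    rw [hΞ1, hΞ2]
    simp only [map_sub, Derivation.leibniz, smul_eq_mul, pderiv_X_self,
      hX 1 0 (by decide), hX 2 0 (by decide)]
    linear_combination F * hEu 0 - V' 0 * ht - X 0 * hE' + F * V' 0 * h3
  have hE1 : F * (pderiv 2 (Ξ 0) - pderiv 0 (Ξ 2)) -
      (t3 α A F (n + 1) 2 * Ξ 0 - t3 α A F (n + 1) 0 * Ξ 2) =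
        -(C c * F ^ (n + 1 + 1) * X 1) := by
    rw [hΞ0, hΞ2]
    simp only [map_sub, Derivation.leibniz, smul_eq_mul, pderiv_X_self,
      hX 2 1 (by decide), hX 0 1 (by decide)]
    linear_combination F * hEu 1 - V' 1 * ht - X 1 * hE' + F * V' 1 * h3
  have hE2 : F * (pderiv 0 (Ξ 1) - pderiv 1 (Ξ 0)) -
      (t3 α A F (n + 1) 0 * Ξ 1 - t3 α A F (n + 1) 1 * Ξ 0) =
        -(C c * F ^ (n + 1 + 1) * X 2) := by
    rw [hΞ0, hΞ1]
    simp only [map_sub, Derivation.leibniz, smul_eq_mul, pderiv_X_self,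
      hX 0 2 (by decide), hX 1 2 (by decide)]
    linear_combination F * hEu 2 - V' 2 * ht - X 2 * hE' + F * V' 2 * h3
  -- the coordinates at the singular points
  have hres : ∀ Ng : ℕ, ¬ d ∣ 3 * Ng → ∀ e n : ℕ, (e : ℂ) ≠ α * Ng + (n : ℕ) := by
    intro Ng hNg e n he
    have hdc : (d : ℂ) ≠ 0 := Nat.cast_ne_zero.2 hd.ne'
    have h1 : ((e * d : ℕ) : ℂ) = ((3 * Ng + n * d : ℕ) : ℂ) := by
      push_cast
      rw [he, hα]
      field_simp
    have h2 : e * d = 3 * Ng + n * d := by exact_mod_cast h1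
    apply hNg
    have h3 : d ∣ 3 * Ng + n * d := by rw [← h2]; exact Dvd.intro_left e rfl
    exact (Nat.dvd_add_left (Dvd.intro_left n rfl)).1 h3
  have hloc : ∀ (i : Fin 3) (p : Fin 2 → ℂ), ∃ Φ : T ≃ₐ[ℂ] T, SingPt F i p →
      ∀ (n : ℕ) (ω : Fin 2 → P2) (h0 : P2),
      deh i F * (MvPolynomial.pderiv 0 (ω 1) - MvPolynomial.pderiv 1 (ω 0)) -
        (th α (cA A i) (deh i F) (n + 1) 0 * ω 1 - th α (cA A i) (deh i F) (n + 1) 1 * ω 0) =
          deh i F ^ (n + 2) * h0 →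
      LS (SS Φ p) α (cA A i) (deh i F) (n + 1) ω := by
    intro i p
    by_cases hs : SingPt F i p
    · obtain ⟨Φ, w, Ng, NG, g, G, hw, hg, hG, hΦg, hΦG, hnr⟩ := hNR i p hs.1 hs.2
      exact ⟨Φ, fun _ => loc_chart_nr (chart_hyp h i) p hs.1 Φ w Ng NG g G hw hg hG hΦg hΦG
        (hres Ng hnr)⟩
    · exact ⟨AlgEquiv.refl, fun hs' => absurd hs' hs⟩
  choose Φ hΦ using hloc
  have hinit : ∀ i p, SingPt F i p → LS (SS (Φ i p) p) α (cA A i) (deh i F) (n + 1)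
      (fun t => deh i (Ξ (i.succAbove t))) := by
    intro i p hs
    have hC1 : ∀ (i : Fin 3) (a : ℂ), deh i (C a) = C a := fun i a => (deh i).commutes a
    fin_cases i
    · have e0 : (0 : Fin 3).succAbove 0 = 1 := rfl
      have e1 : (0 : Fin 3).succAbove 1 = 2 := rfl
      refine LS_init_nr 0 p (Φ 0 p) (hΦ 0 p hs) n Ξ (-(C c)) ?_
      have h2 := congrArg (deh 0) hE0
      rw [map_sub, map_mul, map_sub, map_sub, map_mul, map_mul, map_neg, map_mul, map_mul,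
        map_pow, deh_self, hC1] at h2
      have d1 := deh_pderiv (0 : Fin 3) 0 (Ξ 2)
      have d2 := deh_pderiv (0 : Fin 3) 1 (Ξ 1)
      have d3 := deh_t3 (α := α) (A := A) (F := F) (0 : Fin 3) (n + 1) 0
      have d4 := deh_t3 (α := α) (A := A) (F := F) (0 : Fin 3) (n + 1) 1
      rw [e0] at d1 d3
      rw [e1] at d2 d4
      rw [d1, d2, d3, d4] at h2
      rw [e0, e1]
      linear_combination h2
    · have e0 : (1 : Fin 3).succAbove 0 = 0 := rfl
      have e1 : (1 : Fin 3).succAbove 1 = 2 := rfl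
      refine LS_init_nr 1 p (Φ 1 p) (hΦ 1 p hs) n Ξ (C c) ?_
      have h2 := congrArg (deh 1) hE1
      rw [map_sub, map_mul, map_sub, map_sub, map_mul, map_mul, map_neg, map_mul, map_mul,
        map_pow, deh_self, hC1] at h2
      have d1 := deh_pderiv (1 : Fin 3) 0 (Ξ 2)
      have d2 := deh_pderiv (1 : Fin 3) 1 (Ξ 0)
      have d3 := deh_t3 (α := α) (A := A) (F := F) (1 : Fin 3) (n + 1) 0
      have d4 := deh_t3 (α := α) (A := A) (F := F) (1 : Fin 3) (n + 1) 1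
      rw [e0] at d1 d3
      rw [e1] at d2 d4
      rw [d1, d2, d3, d4] at h2
      rw [e0, e1]
      linear_combination (-1 : P2) * h2
    · have e0 : (2 : Fin 3).succAbove 0 = 0 := rfl
      have e1 : (2 : Fin 3).succAbove 1 = 1 := rfl
      refine LS_init_nr 2 p (Φ 2 p) (hΦ 2 p hs) n Ξ (-(C c)) ?_
      have h2 := congrArg (deh 2) hE2
      rw [map_sub, map_mul, map_sub, map_sub, map_mul, map_mul, map_neg, map_mul, map_mul,
        map_pow, deh_self, hC1] at h2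
      have d1 := deh_pderiv (2 : Fin 3) 0 (Ξ 1)
      have d2 := deh_pderiv (2 : Fin 3) 1 (Ξ 0)
      have d3 := deh_t3 (α := α) (A := A) (F := F) (2 : Fin 3) (n + 1) 0
      have d4 := deh_t3 (α := α) (A := A) (F := F) (2 : Fin 3) (n + 1) 1
      rw [e0] at d1 d3
      rw [e1] at d2 d4
      rw [d1, d2, d3, d4] at h2
      rw [e0, e1]
      linear_combination h2
  obtain ⟨v, hv1, hv2, hv3⟩ := glob_ind h Φ c (n + 1) Ξ hΞh hΞx (fun l => by
    fin_cases l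
    · exact hE0
    · exact hE1
    · exact hE2) hinit
  have hcd : c * (d : ℂ) ≠ 0 := mul_ne_zero hne (Nat.cast_ne_zero.2 hd.ne')
  refine ⟨fun l => C (-(c * d)⁻¹) * v l, fun l => (hv1 l).C_mul _, ?_, ?_⟩
  · have e : ∀ l, pderiv l (C (-(c * d)⁻¹) * v l) = C (-(c * d)⁻¹) * pderiv l (v l) := by
      intro l
      rw [Derivation.leibniz, pderiv_C, smul_zero, add_zero, smul_eq_mul]
    rw [Finset.sum_congr rfl fun l _ => e l, ← Finset.mul_sum, hv2, mul_zero]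
  · have e : ∑ l, C (-(c * d)⁻¹) * v l * pderiv l f =
        C (-(c * d)⁻¹) * ∑ l, v l * pderiv l f := by
      rw [Finset.mul_sum]
      exact Finset.sum_congr rfl fun l _ => by ring
    rw [e, hv3]
    have h5 : (C (-(c * (d : ℂ))⁻¹) : P3) * (C c * C (d : ℂ)) = -1 := by
      rw [← map_mul, ← map_mul, neg_mul, inv_mul_cancel₀ hcd, map_neg, map_one]
    linear_combination (-f) * h5

/-- **The root `-3/d`.** -/
theorem root_nr {ι : Type} [Fintype ι] (f : ι → P3) (d : ℕ) (hd : 0 < d)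
    (hf : ∀ j, (f j).IsHomogeneous d) (β : ℂ)
    (hEN : Pool.Agent.N127.PB.HasEN f d (-3 / (d : ℂ)) β) (h : NRMember f d) : β = 0 := by
  by_contra hβ
  obtain ⟨m, G, hm, hG, ⟨he, hgh, hg0, F, D, M, hF, hsq, hFf, hM, hNR⟩, hno⟩ := h
  have hdc : (d : ℂ) ≠ 0 := Nat.cast_ne_zero.2 hd.ne'
  have hmc : (m : ℂ) ≠ 0 := Nat.cast_ne_zero.2 hm.ne'
  obtain ⟨N, V, β', hβ', hVh, hV⟩ := mel f d hf G m hm hG (-3 / (d : ℂ)) β (fun n hn => by
    have h1 : (((3 : ℕ) + n * d : ℕ) : ℂ) = 0 := by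
      push_cast
      rw [← hn]
      field_simp
      ring
    have h2 : 3 + n * d = 0 := by exact_mod_cast h1
    omega) hEN
  have hβ0 := hβ' hβ
  set g := aeval f G with hg
  have ha : (-3 / (d : ℂ)) / m = -3 / ((d * m : ℕ) : ℂ) := by
    push_cast
    rw [div_div]
  rw [ha] at hV
  refine hno (core_nr g F (d * m) D M he hgh hg0 hF hsq hFf hM hNR (N + 1) (fun l => g * V l) β'
    (Nat.succ_pos N) (fun l => ?_) ?_ hβ0)
  · have h1 := hgh.mul (hVh l)
    have e : d * m + (d * m * N + 1) = d * m * (N + 1) + 1 := by ring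
    rwa [e] at h1
  · have h1 : ∑ l, pderiv l (g * V l) = g * ∑ l, pderiv l (V l) + ∑ l, V l * pderiv l g := by
      rw [Finset.mul_sum, ← Finset.sum_add_distrib]
      refine Finset.sum_congr rfl fun l _ => ?_
      rw [Derivation.leibniz, smul_eq_mul, smul_eq_mul]
    have h2 : ∑ l, g * V l * pderiv l g = g * ∑ l, V l * pderiv l g := by
      rw [Finset.mul_sum]
      exact Finset.sum_congr rfl fun l _ => by ring
    have h3 : (C (-3 / ((d * m : ℕ) : ℂ) - ((N + 1 : ℕ) : ℂ)) : P3) =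
        C (-3 / ((d * m : ℕ) : ℂ) - N) - 1 := by
      have : (1 : P3) = C 1 := (map_one C).symm
      rw [this, ← map_sub]
      congr 1
      push_cast
      ring
    rw [h1, h2, h3]
    linear_combination g * hV

end Pool.Agent.U184
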