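import Mathlib

set_option autoImplicit false

/-! # Diagonal operators on formal power series in two variables -/

namespace Pool.Agent.U184

open MvPowerSeries

/-- formal power series in two variables -/
abbrev T : Type := MvPowerSeries (Fin 2) ℂ

/-- the weight of an exponent -/
def wt (w : Fin 2 → ℕ) (m : Fin 2 →₀ ℕ) : ℕ := m 0 * w 0 + m 1 * w 1

theorem wt_add (w : Fin 2 → ℕ) (m n : Fin 2 →₀ ℕ) : wt w (m + n) = wt w m + wt w n := by
  simp only [wt, Finsupp.add_apply]; ring

theorem wt_single (w : Fin 2 → ℕ) (i : Fin 2) : wt w (Finsupp.single i 1) = w i := by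
  fin_cases i <;> simp [wt]

/-- the diagonal operator, which multiplies the monomials of weight `e` by `c e` -/
noncomputable def dg (w : Fin 2 → ℕ) (c : ℕ → ℂ) : T →ₗ[ℂ] T where
  toFun f := fun m => c (wt w m) * coeff m f
  map_add' f g := by
    ext m
    show c (wt w m) * coeff m (f + g) = c (wt w m) * coeff m f + c (wt w m) * coeff m g
    rw [map_add, mul_add]
  map_smul' r f := by
    ext m
    show c (wt w m) * coeff m (r • f) = r • (c (wt w m) * coeff m f)
    rw [map_smul, smul_eq_mul, smul_eq_mul]; ring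

theorem coeff_dg (w : Fin 2 → ℕ) (c : ℕ → ℂ) (m : Fin 2 →₀ ℕ) (f : T) :
    coeff m (dg w c f) = c (wt w m) * coeff m f := rfl

theorem dg_dg (w : Fin 2 → ℕ) (c c' : ℕ → ℂ) (f : T) :
    dg w c (dg w c' f) = dg w (fun e => c e * c' e) f := by
  ext m
  rw [coeff_dg, coeff_dg, coeff_dg]; ring

theorem dg_add (w : Fin 2 → ℕ) (c c' : ℕ → ℂ) (f : T) :
    dg w (fun e => c e + c' e) f = dg w c f + dg w c' f := by
  ext m
  rw [map_add, coeff_dg, coeff_dg, coeff_dg]; ring

theorem dg_one (w : Fin 2 → ℕ) (f : T) : dg w (fun _ => 1) f = f := by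
  ext m
  rw [coeff_dg, one_mul]

theorem dg_zero (w : Fin 2 → ℕ) (f : T) : dg w (fun _ => 0) f = 0 := by
  ext m
  rw [coeff_dg, zero_mul, map_zero]

theorem dg_const (w : Fin 2 → ℕ) (r : ℂ) (f : T) : dg w (fun _ => r) f = r • f := by
  ext m
  rw [coeff_dg, map_smul, smul_eq_mul]

/-- all exponents of `p` have the weight `N - j` -/
def WH (w : Fin 2 → ℕ) (j N : ℕ) (p : T) : Prop := ∀ m, coeff m p ≠ 0 → wt w m + j = N

theorem dg_mul {w : Fin 2 → ℕ} {j N : ℕ} {p : T} (hp : WH w j N p) (c : ℕ → ℂ) (f : T) :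
    dg w (fun e => c (e + j)) (p * f) = p * dg w (fun e => c (e + N)) f := by
  classical
  ext m
  rw [coeff_dg, coeff_mul, coeff_mul, Finset.mul_sum]
  refine Finset.sum_congr rfl fun x hx => ?_
  rw [coeff_dg]
  by_cases h : coeff x.1 p = 0
  · rw [h]; ring
  · have h1 := hp _ h
    have h2 : wt w m + j = wt w x.2 + N := by
      rw [← Finset.HasAntidiagonal.mem_antidiagonal.1 hx, wt_add, ← h1]; ring
    rw [h2]; ring

theorem dg_pderiv (w : Fin 2 → ℕ) (i : Fin 2) (c : ℕ → ℂ) (f : T) :
    dg w (fun e => c (e + w i)) (pderiv ℂ i f) = pderiv ℂ i (dg w c f) := by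
  ext m
  rw [coeff_dg, coeff_pderiv, coeff_pderiv, coeff_dg, wt_add, wt_single]; ring

/-- the Euler operator -/
theorem euler (w : Fin 2 → ℕ) (f : T) :
    (w 0 : T) * X 0 * pderiv ℂ 0 f + (w 1 : T) * X 1 * pderiv ℂ 1 f =
      dg w (fun e => (e : ℂ)) f := by
  have h : ∀ (i : Fin 2) (m : Fin 2 →₀ ℕ), coeff m ((w i : T) * X i * pderiv ℂ i f) =
      (w i : ℂ) * (m i * coeff m f) := by
    intro i m
    have h0 : ((w i : T)) = C (w i : ℂ) := by rw [map_natCast]
    rw [h0, mul_assoc, coeff_C_mul]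
    congr 1
    by_cases hm : m i = 0
    · rw [hm, Nat.cast_zero, zero_mul, mul_comm]
      rw [X, coeff_mul_monomial, if_neg]
      intro h
      have := h i
      rw [Finsupp.single_eq_same, hm] at this
      omega
    · obtain ⟨n, rfl⟩ : ∃ n, m = Finsupp.single i 1 + n := by
        refine ⟨m - Finsupp.single i 1, ?_⟩
        rw [add_tsub_cancel_of_le]
        intro j
        by_cases hj : j = i
        · subst hj; rw [Finsupp.single_eq_same]; omega
        · rw [Finsupp.single_eq_of_ne hj]; exact Nat.zero_le _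
      rw [X, coeff_add_monomial_mul, one_mul, coeff_pderiv, add_comm n]
      rw [Finsupp.add_apply, Finsupp.single_eq_same]
      push_cast
      ring
  ext m
  rw [map_add, h, h, coeff_dg, wt]
  push_cast
  ring

end Pool.Agent.U184
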