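import Pool.Agent.U184.Hc
import Pool.Agent.W574.CN.Deh2

set_option autoImplicit false

/-! # The functional equation of a form in three variables at `s = -3/d` -/

namespace Pool.Agent.U184

open MvPolynomial Pool.Agent.H628R4.TP Pool.Agent.N127.PB Pool.Agent.W574.CN Pool.Agent.W574.SM

section identities

variable {σ : Type}

theorem mapU_derivative (φ : MvPolynomial σ ℂ →ₗ[ℂ] MvPolynomial σ ℂ)
    (U : Polynomial (MvPolynomial σ ℂ)) :
    Polynomial.derivative (mapU φ U) = mapU φ (Polynomial.derivative U) := by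
  ext1 n
  rw [Polynomial.coeff_derivative, mapU_coeff, mapU_coeff, Polynomial.coeff_derivative]
  have h : ∀ a : MvPolynomial σ ℂ, a * ((n : MvPolynomial σ ℂ) + 1) = ((n : ℂ) + 1) • a := by
    intro a
    rw [smul_eq_C_mul, map_add, map_natCast, map_one, mul_comm]
  rw [h, h, map_smul]

/-- a polynomial identity in `s`, and its derivative -/
theorem id_and_deriv [Fintype σ] (g : MvPolynomial σ ℂ) (hg : g ≠ 0) (M : ℕ)
    (w : σ → Polynomial (MvPolynomial σ ℂ)) (h : Polynomial (MvPolynomial σ ℂ))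
    (hs : ∀ s : ℕ, M ≤ s → ∑ t, pderiv t (g ^ (s - M) * (w t).eval (C (s : ℂ))) =
      g ^ s * h.eval (C (s : ℂ))) (c : ℂ) :
    (g * ∑ t, pderiv t ((w t).eval (C c)) + C (c - M) * ∑ t, (w t).eval (C c) * pderiv t g =
      g ^ (M + 1) * h.eval (C c)) ∧
    (g * ∑ t, pderiv t ((w t).derivative.eval (C c)) +
      C (c - M) * ∑ t, (w t).derivative.eval (C c) * pderiv t g +
      ∑ t, (w t).eval (C c) * pderiv t g = g ^ (M + 1) * h.derivative.eval (C c)) := by
  let E : Polynomial (MvPolynomial σ ℂ) := Polynomial.C g *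
    (∑ t, mapU (pderiv t : Derivation ℂ (MvPolynomial σ ℂ) (MvPolynomial σ ℂ)).toLinearMap (w t)) +
    (Polynomial.X - Polynomial.C (C (M : ℂ))) * (∑ t, w t * Polynomial.C (pderiv t g)) -
    Polynomial.C (g ^ (M + 1)) * h
  have hE : ∀ c : ℂ, E.eval (C c) = g * ∑ t, pderiv t ((w t).eval (C c)) +
      C (c - M) * ∑ t, (w t).eval (C c) * pderiv t g - g ^ (M + 1) * h.eval (C c) := by
    intro c
    simp only [E, Polynomial.eval_sub, Polynomial.eval_add, Polynomial.eval_mul,
      Polynomial.eval_C, Polynomial.eval_finsetSum, Polynomial.eval_X, mapU_eval, map_sub]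
    rfl
  have hE0 : E = 0 := by
    apply Polynomial.eq_zero_of_infinite_isRoot
    refine Set.infinite_of_injective_forall_mem (f := fun m : ℕ => (C ((m + (M + 1) : ℕ) : ℂ) :
      MvPolynomial σ ℂ)) ?_ ?_
    · intro a b hab
      have := C_injective _ _ hab
      have h2 : a + (M + 1) = b + (M + 1) := by exact_mod_cast this
      omega
    · intro m
      set s := m + (M + 1) with hsm
      show E.eval (C (s : ℂ)) = 0
      rw [hE]
      have e1 := hs s (by omega)
      have e2 : g ^ (s - M - 1) * (g * ∑ t, pderiv t ((w t).eval (C (s : ℂ))) +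
          C ((s : ℂ) - M) * ∑ t, (w t).eval (C (s : ℂ)) * pderiv t g) =
          g ^ (s - M - 1) * (g ^ (M + 1) * h.eval (C (s : ℂ))) := by
        have e3 : g ^ (s - M - 1) * (g ^ (M + 1) * h.eval (C (s : ℂ))) =
            g ^ s * h.eval (C (s : ℂ)) := by
          rw [← mul_assoc, ← pow_add]; congr 2; omega
        rw [e3, ← e1, mul_add, Finset.mul_sum, Finset.mul_sum, Finset.mul_sum, Finset.mul_sum,
          ← Finset.sum_add_distrib]
        refine Finset.sum_congr rfl fun t _ => ?_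
        rw [Derivation.leibniz, Derivation.leibniz_pow, smul_eq_mul, smul_eq_mul, nsmul_eq_mul,
          smul_eq_mul]
        have e4 : g ^ (s - M) = g ^ (s - M - 1) * g := by
          rw [← pow_succ]; congr 1; omega
        have e5 : ((s - M : ℕ) : MvPolynomial σ ℂ) = C ((s : ℂ) - M) := by
          rw [nat_eq_C, Nat.cast_sub (by omega)]
        rw [e5, e4]
        ring
      rw [mul_left_cancel₀ (pow_ne_zero _ hg) e2, sub_self]
  refine ⟨?_, ?_⟩
  · have := hE c
    rw [hE0, Polynomial.eval_zero] at this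
    exact (sub_eq_zero.1 this.symm)
  · have hD := congrArg (fun E => (Polynomial.derivative E).eval (C c)) hE0
    simp only [E, Polynomial.derivative_sub, Polynomial.derivative_add, Polynomial.derivative_mul,
      Polynomial.derivative_C, Polynomial.derivative_X, zero_mul, zero_add, Polynomial.derivative_sum,
      mapU_derivative, sub_zero, mul_zero, add_zero, Polynomial.eval_sub, Polynomial.eval_add,
      Polynomial.eval_mul, Polynomial.eval_C, Polynomial.eval_finsetSum, Polynomial.eval_X,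
      mapU_eval, Polynomial.derivative_zero, Polynomial.eval_zero, one_mul] at hD
    have e1 : ∀ t : σ, (pderiv t : Derivation ℂ (MvPolynomial σ ℂ) (MvPolynomial σ ℂ)).toLinearMap
        ((w t).derivative.eval (C c)) = pderiv t ((w t).derivative.eval (C c)) := fun t => rfl
    simp only [e1] at hD
    rw [map_sub]
    linear_combination hD

end identities

section chart

/-- the component of degree `d s + 1` in a chart -/
theorem nf_chart (i : Fin 3) (f : MvPolynomial (Fin 3) ℂ) (d : ℕ) (hf : f.IsHomogeneous d)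
    (S : Finset ℕ) (u : ℕ → Module.End ℂ (MvPolynomial (Fin 3) ℂ))
    (hu : ∀ m, u m ∈ weylS (Fin 3)) :
    NF (deh i f) fun s => deh i (homogeneousComponent (d * s + 1)
      (∑ m ∈ S, ((s : ℂ) ^ m) • u m (f ^ (s + 1)))) := by
  classical
  have hfun : (fun s : ℕ => deh i (homogeneousComponent (d * s + 1)
      (∑ m ∈ S, ((s : ℂ) ^ m) • u m (f ^ (s + 1))))) = fun s : ℕ => ∑ m ∈ S,
      (Polynomial.X ^ m : Polynomial ℂ).eval (s : ℂ) •
        deh i (homogeneousComponent (d * s + 1) (u m (f ^ (s + 1)))) := by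
    funext s
    rw [map_sum, map_sum]
    refine Finset.sum_congr rfl fun m _ => ?_
    rw [map_smul, map_smul, Polynomial.eval_pow, Polynomial.eval_X]
  rw [hfun]
  refine NF_sum S _ fun m _ => NF_poly ?_ _
  obtain ⟨κ, hκ, w, Φ, hΦ, hq⟩ := gr_weyl i (u m) (hu m)
  have hfun2 : (fun s : ℕ => deh i (homogeneousComponent (d * s + 1) (u m (f ^ (s + 1))))) =
      fun s : ℕ => ∑ k ∈ (Finset.univ : Finset κ).filter (fun k => w k = 1 - (d : ℤ)),
        Φ k ((d * (s + 1) : ℕ) : ℤ) (deh i f ^ (s + 1)) := by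
    funext s
    obtain ⟨q, hq1, hq2⟩ := hq ((d * (s + 1) : ℕ) : ℤ) (f ^ (s + 1))
      (Or.inr ⟨d * (s + 1), rfl, hf.pow (s + 1)⟩)
    rw [hq1, map_sum, map_sum, Finset.sum_filter]
    refine Finset.sum_congr rfl fun k _ => ?_
    rw [comp_homZ (hq2 k).1]
    by_cases hk : w k = 1 - (d : ℤ)
    · rw [if_pos hk, if_pos, (hq2 k).2, map_pow]
      rw [hk]; push_cast; ring
    · rw [if_neg hk, if_neg, map_zero]
      intro h'
      apply hk
      push_cast at h'
      linarith
  rw [hfun2]
  refine NF_sum _ _ fun k _ => ?_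
  obtain ⟨ι, hι, p, R, hR⟩ := hΦ k
  have hfun3 : (fun s : ℕ => Φ k ((d * (s + 1) : ℕ) : ℤ) (deh i f ^ (s + 1))) =
      fun s : ℕ => ∑ j ∈ (Finset.univ : Finset ι),
        ((p j).comp (Polynomial.C (d : ℂ) * (Polynomial.X + 1))).eval (s : ℂ) •
          (R j : Module.End ℂ (MvPolynomial (Fin 2) ℂ)) (deh i f ^ (s + 1)) := by
    funext s
    rw [hR, LinearMap.sum_apply]
    refine Finset.sum_congr rfl fun j _ => ?_
    rw [LinearMap.smul_apply, Polynomial.eval_comp]
    congr 2
    simp
  rw [hfun3]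
  refine NF_sum _ _ fun j _ => NF_poly ?_ _
  exact NF_op (deh i f) _ (R j).2

theorem eval_map_deh (i : Fin 3) (V : Polynomial (MvPolynomial (Fin 3) ℂ)) (c : ℂ) :
    (V.map (deh i : MvPolynomial (Fin 3) ℂ →+* MvPolynomial (Fin 2) ℂ)).eval (C c) =
      deh i (V.eval (C c)) := by
  have h : (C c : MvPolynomial (Fin 2) ℂ) =
      (deh i : MvPolynomial (Fin 3) ℂ →+* MvPolynomial (Fin 2) ℂ) (C c) :=
    ((deh i).commutes c).symm
  rw [h, Polynomial.eval_map, Polynomial.eval₂_at_apply]
  rfl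

/-- **The functional equation in a chart.** -/
theorem ext_chart (i : Fin 3) (f : MvPolynomial (Fin 3) ℂ) (d : ℕ) (hd : 0 < d)
    (b : Polynomial ℂ) (Y : Fin 3 → ℕ → MvPolynomial (Fin 3) ℂ)
    (hYh : ∀ l s, (Y l s).IsHomogeneous (d * s + 1))
    (hY : ∀ s : ℕ, C (b.eval (s : ℂ)) * f ^ s = ∑ l, pderiv l (Y l s))
    (N : ℕ) (V : Fin 3 → Polynomial (MvPolynomial (Fin 3) ℂ))
    (hV : ∀ (l : Fin 3) (s : ℕ), N ≤ s → Y l s = f ^ (s - N) * (V l).eval (C (s : ℂ)))
    (hNF : NF (deh i f) fun s => deh i (Y i s)) : ∃ M₀ : ℕ, ∀ M, M₀ ≤ M →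
      ∃ (w : Fin 2 → Polynomial (MvPolynomial (Fin 2) ℂ))
        (h : Polynomial (MvPolynomial (Fin 2) ℂ)),
        (∀ s : ℕ, M ≤ s → ∑ t, pderiv t (deh i f ^ (s - M) * (w t).eval (C (s : ℂ))) =
          deh i f ^ s * h.eval (C (s : ℂ))) ∧
        ∀ t, (w t).eval (C (-3 / (d : ℂ))) = deh i f ^ (M - N) *
          (deh i ((V (i.succAbove t)).eval (C (-3 / (d : ℂ)))) -
            X t * deh i ((V i).eval (C (-3 / (d : ℂ))))) := by
  obtain ⟨M₁, hM₁⟩ := NF_mono hNF
  refine ⟨M₁ + N, fun M hM => ?_⟩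
  obtain ⟨c, z, hz⟩ := hM₁ M (by omega)
  set g := deh i f with hg
  let dh : MvPolynomial (Fin 3) ℂ →+* MvPolynomial (Fin 2) ℂ := deh i
  let L : Polynomial (MvPolynomial (Fin 2) ℂ) :=
    Polynomial.C (C (d : ℂ)) * Polynomial.X + Polynomial.C (C 3)
  have hL : ∀ r : ℂ, L.eval (C r) = C ((d : ℂ) * r + 3) := by
    intro r
    simp only [L, Polynomial.eval_add, Polynomial.eval_mul, Polynomial.eval_C, Polynomial.eval_X,
      map_add, map_mul]
  refine ⟨fun t => Polynomial.C (g ^ (M - N)) * ((V (i.succAbove t)).map dh -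
    Polynomial.C (X t) * (V i).map dh) + L * z t,
    b.map C - L * c * Polynomial.C g, fun s hs => ?_, fun t => ?_⟩
  · have h1 := congrArg (deh i) (hY s)
    rw [map_mul, map_pow, Fin.sum_univ_succAbove _ i, map_add, map_sum] at h1
    have hC : deh i (C (b.eval (s : ℂ))) = C (b.eval (s : ℂ)) := (deh i).commutes _
    rw [hC, ← hg] at h1
    have h2 : deh i (pderiv i (Y i s)) = ((d : ℂ) * s + 1) • deh i (Y i s) -
        ∑ t, X t * pderiv t (deh i (Y i s)) := by
      have := deh_euler i (N := ((d * s + 1 : ℕ) : ℤ)) (g := Y i s)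
        (Or.inr ⟨d * s + 1, rfl, hYh i s⟩)
      rw [this]
      congr 2
      push_cast
      ring
    rw [h2] at h1
    simp only [deh_pderiv] at h1
    have hYd : ∀ l, deh i (Y l s) = g ^ (s - N) * ((V l).map dh).eval (C (s : ℂ)) := by
      intro l
      rw [hV l s (by omega), map_mul, map_pow, eval_map_deh]
    have h3 := hz s hs
    beta_reduce at h3
    have h4 : ∑ t, pderiv t (g ^ (s - M) * (Polynomial.C (g ^ (M - N)) *
        ((V (i.succAbove t)).map dh - Polynomial.C (X t) * (V i).map dh) + L * z t).eval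
          (C (s : ℂ))) = ∑ t, pderiv t (deh i (Y (i.succAbove t) s) - X t * deh i (Y i s)) +
        C ((d : ℂ) * s + 3) * ∑ t, pderiv t (g ^ (s - M) * (z t).eval (C (s : ℂ))) := by
      rw [Finset.mul_sum, ← Finset.sum_add_distrib]
      refine Finset.sum_congr rfl fun t _ => ?_
      rw [← smul_eq_C_mul, ← Derivation.map_smul, ← map_add, hYd, hYd, smul_eq_C_mul]
      congr 1
      simp only [Polynomial.eval_add, Polynomial.eval_mul, Polynomial.eval_C, Polynomial.eval_sub]
      rw [hL]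
      have e : g ^ (s - N) = g ^ (s - M) * g ^ (M - N) := by
        rw [← pow_add]; congr 1; omega
      rw [e]
      ring
    have h5 : ∑ t, pderiv t (deh i (Y (i.succAbove t) s) - X t * deh i (Y i s)) =
        ∑ t : Fin 2, pderiv t (deh i (Y (i.succAbove t) s)) - (2 * deh i (Y i s) +
          ∑ t, X t * pderiv t (deh i (Y i s))) := by
      have e2 : ∀ t : Fin 2, pderiv t (deh i (Y (i.succAbove t) s) - X t * deh i (Y i s)) =
          pderiv t (deh i (Y (i.succAbove t) s)) - (deh i (Y i s) +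
            X t * pderiv t (deh i (Y i s))) := by
        intro t
        rw [map_sub, Derivation.leibniz, pderiv_X_self, smul_eq_mul, smul_eq_mul]
        ring
      rw [Finset.sum_congr rfl fun t _ => e2 t, Finset.sum_sub_distrib, Finset.sum_add_distrib]
      congr 2
      rw [Finset.sum_const, Finset.card_univ, Fintype.card_fin, nsmul_eq_mul]
      norm_num
    rw [h4, h5]
    have h6 : (b.map C - L * c * Polynomial.C g : Polynomial (MvPolynomial (Fin 2) ℂ)).eval
        (C (s : ℂ)) = C (b.eval (s : ℂ)) - C ((d : ℂ) * s + 3) * c.eval (C (s : ℂ)) * g := by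
      rw [Polynomial.eval_sub, Polynomial.eval_mul, Polynomial.eval_mul, hL, Polynomial.eval_C,
        Polynomial.eval_map, Polynomial.eval₂_at_apply]
    rw [h6]
    rw [smul_eq_C_mul] at h1
    have h7 : C ((d : ℂ) * s + 3) = (C ((d : ℂ) * s + 1) + 2 : MvPolynomial (Fin 2) ℂ) := by
      have : (2 : MvPolynomial (Fin 2) ℂ) = C 2 := by rw [map_ofNat]
      rw [this, ← map_add]; congr 1; ring
    rw [h7]
    linear_combination (-1 : MvPolynomial (Fin 2) ℂ) * h1 -
      (C ((d : ℂ) * s + 1) + 2) * h3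
  · have hd0 : (d : ℂ) ≠ 0 := Nat.cast_ne_zero.2 hd.ne'
    rw [Polynomial.eval_add, Polynomial.eval_mul, Polynomial.eval_mul, hL, Polynomial.eval_C,
      Polynomial.eval_sub, Polynomial.eval_mul, Polynomial.eval_C, eval_map_deh, eval_map_deh]
    have : (d : ℂ) * (-3 / (d : ℂ)) + 3 = 0 := by field_simp; ring
    rw [this, map_zero, zero_mul, add_zero]

end chart

end Pool.Agent.U184
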