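import Pool.Agent.U184.Top2

set_option autoImplicit false

/-! # Smooth complete intersections: the second exceptional divisor -/

namespace Pool.Agent.U184

open MvPolynomial Pool.Agent.Y228.RR Pool.Agent.R852.SC

theorem ci_rees {σ κ : Type} [Fintype σ] [DecidableEq σ] [Fintype κ] [DecidableEq κ] [Nonempty κ]
    (f : κ → MvPolynomial σ ℂ) (H : SmoothCI f) (a : ℕ) (ha : a ≠ 0) (p : σ → ℂ) (hp : p ≠ 0)
    (hfp : ∀ j, eval p (f j) = 0) :
    FromRees (fun _ : Unit => f) (fun _ => a) 1 (Fintype.card κ) a := by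
  have h := rees_of_smooth (fun _ : Unit => f) (fun _ => a) (Fintype.card κ) (fun _ => 1) p
    (ci_smooth f H p hp hfp) (by
      rw [Fintype.sum_unique, mul_one]
      omega)
  rw [Fintype.sum_unique, mul_one] at h
  exact h

end Pool.Agent.U184
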