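import Pool.Agent.U184.Norm

set_option autoImplicit false

/-! # Homogeneous components -/

namespace Pool.Agent.U184

open MvPolynomial Pool.Agent.H628R4.TP Pool.Agent.N127.PB

variable {σ : Type}

theorem hc_mul {p : MvPolynomial σ ℂ} {n : ℕ} (hp : p.IsHomogeneous n) (q : MvPolynomial σ ℂ)
    (m : ℕ) : homogeneousComponent (n + m) (p * q) = p * homogeneousComponent m q := by
  classical
  ext d
  rw [coeff_homogeneousComponent, coeff_mul, coeff_mul]
  split_ifs with h
  · refine Finset.sum_congr rfl fun x hx => ?_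
    rw [coeff_homogeneousComponent]
    by_cases hp0 : coeff x.1 p = 0
    · rw [hp0, zero_mul, zero_mul]
    · have h1 : x.1.degree = n := by
        by_contra hne
        exact hp0 (hp.coeff_eq_zero hne)
      rw [Finset.HasAntidiagonal.mem_antidiagonal] at hx
      rw [← hx, map_add, h1] at h
      rw [if_pos (add_left_cancel h)]
  · symm
    refine Finset.sum_eq_zero fun x hx => ?_
    rw [coeff_homogeneousComponent]
    by_cases hp0 : coeff x.1 p = 0
    · rw [hp0, zero_mul]
    · have h1 : x.1.degree = n := by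
        by_contra hne
        exact hp0 (hp.coeff_eq_zero hne)
      rw [Finset.HasAntidiagonal.mem_antidiagonal] at hx
      rw [if_neg, mul_zero]
      intro h2
      apply h
      rw [← hx, map_add, h1, h2]

theorem hc_mul_zero {p : MvPolynomial σ ℂ} {n : ℕ} (hp : p.IsHomogeneous n)
    (q : MvPolynomial σ ℂ) (m : ℕ) (hm : m < n) : homogeneousComponent m (p * q) = 0 := by
  classical
  ext d
  rw [coeff_homogeneousComponent, coeff_mul, coeff_zero]
  split_ifs with h
  · refine Finset.sum_eq_zero fun x hx => ?_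
    by_cases hp0 : coeff x.1 p = 0
    · rw [hp0, zero_mul]
    · exfalso
      have h1 : x.1.degree = n := by
        by_contra hne
        exact hp0 (hp.coeff_eq_zero hne)
      rw [Finset.HasAntidiagonal.mem_antidiagonal] at hx
      rw [← hx, map_add, h1] at h
      omega
  · rfl

theorem hc_pderiv (i : σ) (q : MvPolynomial σ ℂ) (m : ℕ) :
    homogeneousComponent m (pderiv i q) = pderiv i (homogeneousComponent (m + 1) q) := by
  classical
  ext d
  rw [coeff_homogeneousComponent, coeff_pderiv, coeff_pderiv, coeff_homogeneousComponent]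
  have h : (d + Finsupp.single i 1).degree = d.degree + 1 := by
    rw [map_add, Finsupp.degree_single]
  rw [h]
  by_cases hd : d.degree = m
  · rw [if_pos hd, if_pos (by rw [hd])]
  · rw [if_neg hd, if_neg (by omega), zero_mul]

/-- the degree of a family with homogeneous coefficients -/
theorem eval_hom_family (U : Polynomial (MvPolynomial σ ℂ)) (n : ℕ)
    (h : ∀ i, (U.coeff i).IsHomogeneous n) (c : ℂ) : (U.eval (C c)).IsHomogeneous n := by
  rw [Polynomial.eval_eq_sum, Polynomial.sum_def]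
  refine IsHomogeneous.sum _ _ _ fun i _ => ?_
  rw [← map_pow, mul_comm]
  exact (h i).C_mul _

/-- **The functional equation of a form, in terms of vector fields.** -/
theorem ext_vf [Fintype σ] (f : MvPolynomial σ ℂ) (d : ℕ) (hd : 0 < d) (hf : f.IsHomogeneous d)
    (b : Polynomial ℂ) (hb : IsBFunction f b) :
    ∃ (S : Finset ℕ) (u : ℕ → σ → Module.End ℂ (MvPolynomial σ ℂ)),
      (∀ m l, u m l ∈ weylS σ) ∧ ∀ s : ℕ, C (b.eval (s : ℂ)) * f ^ s =
        ∑ l, pderiv l (homogeneousComponent (d * s + 1)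
          (∑ m ∈ S, ((s : ℂ) ^ m) • u m l (f ^ (s + 1)))) := by
  classical
  obtain ⟨P, hP⟩ := hb
  choose p u hu hdec using fun m => normal (P m).1 (P m).2
  refine ⟨P.support, u, hu, fun s => ?_⟩
  have hfp : ∀ n : ℕ, (f ^ n).IsHomogeneous (d * n) := fun n => hf.pow n
  have e1 := congrArg (homogeneousComponent (d * s)) (hP s)
  rw [homogeneousComponent_C_mul, homogeneousComponent_eq_self (hfp s)] at e1
  rw [e1, Finsupp.sum]
  have e2 : (∑ m ∈ P.support, ((s : ℂ) ^ m) •
      ((P m : Module.End ℂ (MvPolynomial σ ℂ))) (f ^ (s + 1))) =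
      (∑ m ∈ P.support, ((s : ℂ) ^ m) • (p m * f ^ (s + 1))) +
      ∑ l, pderiv l (∑ m ∈ P.support, ((s : ℂ) ^ m) • u m l (f ^ (s + 1))) := by
    have e3 : ∀ l, pderiv l (∑ m ∈ P.support, ((s : ℂ) ^ m) • u m l (f ^ (s + 1))) =
        ∑ m ∈ P.support, ((s : ℂ) ^ m) • pderiv l (u m l (f ^ (s + 1))) := by
      intro l
      rw [map_sum]
      refine Finset.sum_congr rfl fun m _ => ?_
      rw [Derivation.map_smul]
    rw [Finset.sum_congr rfl fun l _ => e3 l, Finset.sum_comm, ← Finset.sum_add_distrib]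
    refine Finset.sum_congr rfl fun m _ => ?_
    rw [hdec m (f ^ (s + 1)), smul_add, Finset.smul_sum]
  rw [e2, map_add, map_sum, map_sum]
  have e4 : ∀ m ∈ P.support, homogeneousComponent (d * s)
      (((s : ℂ) ^ m) • (p m * f ^ (s + 1))) = 0 := by
    intro m _
    rw [map_smul, mul_comm (p m), hc_mul_zero (hfp (s + 1)) _ _ (by nlinarith), smul_zero]
  rw [Finset.sum_eq_zero e4, zero_add]
  refine Finset.sum_congr rfl fun l _ => ?_
  rw [hc_pderiv]

/-- the vector fields as families -/
theorem ext_fam [Fintype σ] (f : MvPolynomial σ ℂ) (d : ℕ) (hf : f.IsHomogeneous d)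
    (S : Finset ℕ) (u : ℕ → σ → Module.End ℂ (MvPolynomial σ ℂ))
    (hu : ∀ m l, u m l ∈ weylS σ) : ∃ (N : ℕ) (V : σ → Polynomial (MvPolynomial σ ℂ)),
      (∀ l i, ((V l).coeff i).IsHomogeneous (d * N + 1)) ∧ ∀ (l : σ) (s : ℕ), N ≤ s →
        homogeneousComponent (d * s + 1) (∑ m ∈ S, ((s : ℂ) ^ m) • u m l (f ^ (s + 1))) =
          f ^ (s - N) * (V l).eval (C (s : ℂ)) := by
  classical
  choose N' U' hU' using fun (m : ℕ) (l : σ) => stmA2 σ (u m l) (hu m l) f
  obtain ⟨N, hN⟩ : ∃ N : ℕ, ∀ m ∈ S, ∀ l, N' m l ≤ N + 1 := by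
    refine ⟨∑ m ∈ S, ∑ l, N' m l, fun m hm l => ?_⟩
    have a1 : N' m l ≤ ∑ l, N' m l := Finset.single_le_sum (f := fun l => N' m l)
      (fun _ _ => Nat.zero_le _) (Finset.mem_univ l)
    have a2 : ∑ l, N' m l ≤ ∑ m ∈ S, ∑ l, N' m l :=
      Finset.single_le_sum (f := fun m => ∑ l, N' m l) (fun _ _ => Nat.zero_le _) hm
    omega
  let W : σ → Polynomial (MvPolynomial σ ℂ) := fun l => ∑ m ∈ S,
    Polynomial.X ^ m * (Polynomial.C (f ^ (N + 1 - N' m l)) *
      (U' m l).comp (Polynomial.X + 1))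
  have hW : ∀ (l : σ) (s : ℕ), N ≤ s →
      ∑ m ∈ S, ((s : ℂ) ^ m) • u m l (f ^ (s + 1)) =
        f ^ (s - N) * (W l).eval (C (s : ℂ)) := by
    intro l s hs
    simp only [W, Polynomial.eval_finsetSum, Finset.mul_sum]
    refine Finset.sum_congr rfl fun m hm => ?_
    have hNm := hN m hm l
    rw [hU' m l (s + 1) (by omega)]
    rw [Polynomial.eval_mul, Polynomial.eval_mul, Polynomial.eval_pow, Polynomial.eval_X,
      Polynomial.eval_C, Polynomial.eval_comp, Polynomial.eval_add, Polynomial.eval_X,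
      Polynomial.eval_one, ← map_pow, smul_eq_C_mul]
    have e1 : s + 1 - N' m l = (s - N) + (N + 1 - N' m l) := by omega
    rw [e1, pow_add]
    have e2 : ((s + 1 : ℕ) : MvPolynomial σ ℂ) = C (s : ℂ) + 1 := by
      push_cast; rw [map_natCast]
    rw [e2]
    ring
  refine ⟨N, fun l => mapU (homogeneousComponent (d * N + 1)) (W l), fun l i => ?_,
    fun l s hs => ?_⟩
  · rw [mapU_coeff]
    exact homogeneousComponent_isHomogeneous _ _
  · rw [hW l s hs, mapU_eval, ← hc_mul (hf.pow (s - N))]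
    congr 2
    have : d * s = d * (s - N) + d * N := by rw [← mul_add, Nat.sub_add_cancel hs]
    rw [this]; ring

end Pool.Agent.U184
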