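import Mathlib

set_option autoImplicit false

/-! # The ideal of two coprime forms in three variables is saturated -/

namespace Pool.Agent.U184

open MvPolynomial

theorem X_pow_dvd (i j : Fin 3) (hij : i ≠ j) (M : ℕ) (a b : MvPolynomial (Fin 3) ℂ)
    (h : X j ^ M * a = X i ^ M * b) : X i ^ M ∣ a := by
  have hp : Prime (X i : MvPolynomial (Fin 3) ℂ) := X_prime
  refine hp.pow_dvd_of_dvd_mul_left M (a := X j ^ M) ?_ ⟨b, h⟩
  intro h1
  have h2 := hp.dvd_of_dvd_pow h1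
  rw [X_dvd_X] at h2
  exact hij h2

theorem mem_two (M : ℕ) (e a b : MvPolynomial (Fin 3) ℂ)
    (h : X 2 ^ M * e = X 1 ^ M * a - X 0 ^ M * b) :
    ∃ g0 g1 : MvPolynomial (Fin 3) ℂ, e = X 1 ^ M * g0 - X 0 ^ M * g1 := by
  classical
  have hS : (fun s : Fin 3 →₀ ℕ => monomial s (1 : ℂ)) ''
      ({Finsupp.single 0 M, Finsupp.single 1 M} : Set (Fin 3 →₀ ℕ)) = {X 0 ^ M, X 1 ^ M} := by
    rw [Set.image_pair, X_pow_eq_monomial, X_pow_eq_monomial]
  have h1 : X 2 ^ M * e ∈ Ideal.span ((fun s : Fin 3 →₀ ℕ => monomial s (1 : ℂ)) ''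
      ({Finsupp.single 0 M, Finsupp.single 1 M} : Set (Fin 3 →₀ ℕ))) := by
    rw [hS, Ideal.mem_span_pair]
    exact ⟨-b, a, by rw [h]; ring⟩
  rw [mem_ideal_span_monomial_image] at h1
  have h2 : e ∈ Ideal.span ((fun s : Fin 3 →₀ ℕ => monomial s (1 : ℂ)) ''
      ({Finsupp.single 0 M, Finsupp.single 1 M} : Set (Fin 3 →₀ ℕ))) := by
    rw [mem_ideal_span_monomial_image]
    intro m hm
    have h3 : Finsupp.single 2 M + m ∈ (X 2 ^ M * e).support := by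
      rw [mem_support_iff, X_pow_eq_monomial, coeff_monomial_mul, one_mul]
      exact mem_support_iff.1 hm
    obtain ⟨s, hs, hsm⟩ := h1 _ h3
    refine ⟨s, hs, ?_⟩
    rw [Set.mem_insert_iff, Set.mem_singleton_iff] at hs
    rcases hs with rfl | rfl
    · rw [Finsupp.single_le_iff, Finsupp.add_apply, Finsupp.single_eq_of_ne (by decide),
        zero_add] at hsm
      rwa [Finsupp.single_le_iff]
    · rw [Finsupp.single_le_iff, Finsupp.add_apply, Finsupp.single_eq_of_ne (by decide),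
        zero_add] at hsm
      rwa [Finsupp.single_le_iff]
  rw [hS, Ideal.mem_span_pair] at h2
  obtain ⟨x, y, hxy⟩ := h2
  exact ⟨y, -x, by rw [← hxy]; ring⟩

/-- **The ideal `(θ, F)` is saturated.** -/
theorem koszul (θ F w : MvPolynomial (Fin 3) ℂ) (hF0 : F ≠ 0) (hreg : ∀ a, F ∣ θ * a → F ∣ a)
    (M : ℕ) (a b : Fin 3 → MvPolynomial (Fin 3) ℂ) (h : ∀ l, X l ^ M * w = a l * θ + b l * F) :
    ∃ φ τ, w = φ * θ + τ * F := by
  have e : ∀ i j : Fin 3, ∃ e, X j ^ M * a i - X i ^ M * a j = F * e := by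
    intro i j
    have h1 : F ∣ θ * (X j ^ M * a i - X i ^ M * a j) :=
      ⟨X i ^ M * b j - X j ^ M * b i, by linear_combination X i ^ M * h j - X j ^ M * h i⟩
    exact hreg _ h1
  obtain ⟨e01, h01⟩ := e 0 1
  obtain ⟨e02, h02⟩ := e 0 2
  obtain ⟨e12, h12⟩ := e 1 2
  have h2 : X 2 ^ M * e01 = X 1 ^ M * e02 - X 0 ^ M * e12 := by
    apply mul_left_cancel₀ hF0
    linear_combination (-(X 2 ^ M : MvPolynomial (Fin 3) ℂ)) * h01 +
      (X 1 ^ M : MvPolynomial (Fin 3) ℂ) * h02 - (X 0 ^ M : MvPolynomial (Fin 3) ℂ) * h12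
  obtain ⟨g0, g1, hg⟩ := mem_two M e01 e02 e12 h2
  have hX : ∀ i : Fin 3, (X i ^ M : MvPolynomial (Fin 3) ℂ) ≠ 0 := fun i =>
    pow_ne_zero _ (X_ne_zero i)
  have h3 : X 1 ^ M * (a 0 - F * g0) = X 0 ^ M * (a 1 - F * g1) := by
    rw [hg] at h01
    linear_combination h01
  obtain ⟨a', ha'⟩ := X_pow_dvd 0 1 (by decide) M _ _ h3
  have h4 : a 1 - F * g1 = X 1 ^ M * a' := by
    apply mul_left_cancel₀ (hX 0)
    rw [← h3, ha']
    ring
  have h5 : X 0 ^ M * (w - a' * θ) = F * (b 0 + g0 * θ) := by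
    linear_combination h 0 + θ * ha'
  have h6 : X 1 ^ M * (w - a' * θ) = F * (b 1 + g1 * θ) := by
    linear_combination h 1 + θ * h4
  have h7 : X 1 ^ M * (b 0 + g0 * θ) = X 0 ^ M * (b 1 + g1 * θ) := by
    apply mul_left_cancel₀ hF0
    linear_combination (-(X 1 ^ M : MvPolynomial (Fin 3) ℂ)) * h5 +
      (X 0 ^ M : MvPolynomial (Fin 3) ℂ) * h6
  obtain ⟨τ, hτ⟩ := X_pow_dvd 0 1 (by decide) M _ _ h7
  refine ⟨a', τ, ?_⟩
  apply mul_left_cancel₀ (hX 0)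
  rw [hτ] at h5
  linear_combination h5

end Pool.Agent.U184
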