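import Pool.Agent.U184.Prim
import Pool.Agent.U184.Lift
import Pool.Agent.U184.Koszul
import Pool.Agent.U184.Hc

set_option autoImplicit false

/-! # The global step -/

namespace Pool.Agent.U184

open MvPolynomial

/-- polynomials in three variables -/
abbrev P3 : Type := MvPolynomial (Fin 3) ℂ

/-- The assumptions: `f` is a form of degree `d`, `F` its reduced equation, of degree `D`,
`A = F df / f`, and `α = 3/d`. -/
structure GHyp (f F : P3) (A : Fin 3 → P3) (α : ℂ) (d D : ℕ) : Prop where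
  hf0 : f ≠ 0
  hF0 : F ≠ 0
  hD : 0 < D
  hf : f.IsHomogeneous d
  hF : F.IsHomogeneous D
  hFf : F ∣ f
  hsq : Squarefree F
  hA : ∀ l, f * A l = F * pderiv l f
  hAh : ∀ l, (A l).IsHomogeneous (D - 1)
  hα : ∀ m j : ℕ, 1 ≤ m → α * m + j ≠ 0
  hαd : α * d = 3

/-- `α A_l + j ∂_l F` -/
noncomputable def t3 (α : ℂ) (A : Fin 3 → P3) (F : P3) (j : ℕ) (l : Fin 3) : P3 :=
  C α * A l + (j : P3) * pderiv l F

variable {f F : P3} {A : Fin 3 → P3} {α : ℂ} {d D : ℕ}

theorem t3_hom (h : GHyp f F A α d D) (j : ℕ) (l : Fin 3) :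
    (t3 α A F j l).IsHomogeneous (D - 1) := by
  have h1 : ((j : P3)) = C (j : ℂ) := by rw [map_natCast]
  rw [t3, h1]
  exact ((h.hAh l).C_mul _).add (h.hF.pderiv.C_mul _)

theorem A_euler (h : GHyp f F A α d D) : ∑ l, X l * A l = C (d : ℂ) * F := by
  apply mul_left_cancel₀ h.hf0
  have h1 := h.hf.sum_X_mul_pderiv
  rw [nsmul_eq_mul] at h1
  have h2 : f * ∑ l, X l * A l = F * ∑ l, X l * pderiv l f := by
    rw [Finset.mul_sum, Finset.mul_sum]
    refine Finset.sum_congr rfl fun l _ => ?_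
    linear_combination X l * h.hA l
  rw [h2, h1, map_natCast]
  ring

theorem t3_euler (h : GHyp f F A α d D) (j : ℕ) :
    ∑ l, X l * t3 α A F j l = C (3 + (j : ℂ) * D) * F := by
  have h1 := h.hF.sum_X_mul_pderiv
  rw [nsmul_eq_mul] at h1
  have h2 : ∑ l, X l * t3 α A F j l = C α * ∑ l, X l * A l +
      (j : P3) * ∑ l, X l * pderiv l F := by
    rw [Finset.mul_sum, Finset.mul_sum, ← Finset.sum_add_distrib]
    refine Finset.sum_congr rfl fun l _ => ?_
    rw [t3]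
    ring
  rw [h2, h1, A_euler h, ← mul_assoc, ← map_mul, h.hαd, map_add, map_mul, map_natCast,
    map_natCast]
  ring

/-- the structure at a prime factor of `F` -/
theorem prime3 (h : GHyp f F A α d D) (P : P3) (hP : Prime P) (hPF : P ∣ F) :
    ∃ (m : ℕ) (F' : P3), 1 ≤ m ∧ F = P * F' ∧ ¬ P ∣ F' ∧
      (∀ j l, P ∣ t3 α A F j l - C (α * m + j) * F' * pderiv l P) ∧
      ∀ l, P ∣ pderiv l F - F' * pderiv l P := by
  obtain ⟨m, F', hm, hF, hPF', hA⟩ := prime_struct f F P h.hf0 h.hsq h.hFf hP hPF A h.hA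
  have h1 : ∀ l, P ∣ pderiv l F - F' * pderiv l P := by
    intro l
    rw [hF, Derivation.leibniz, smul_eq_mul, smul_eq_mul]
    exact ⟨pderiv l F', by ring⟩
  refine ⟨m, F', hm, hF, hPF', fun j l => ?_, h1⟩
  have e : t3 α A F j l - C (α * m + j) * F' * pderiv l P =
      C α * (A l - (m : P3) * F' * pderiv l P) + (j : P3) * (pderiv l F - F' * pderiv l P) := by
    rw [t3, map_add, map_mul, map_natCast, map_natCast]
    ring
  rw [e]
  exact dvd_add (Dvd.dvd.mul_left (hA l) _) (Dvd.dvd.mul_left (h1 l) _)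

theorem dvd_C_mul {P a : P3} (r : ℂ) (hr : r ≠ 0) (h : P ∣ C r * a) : P ∣ a := by
  have h1 : a = C r⁻¹ * (C r * a) := by
    rw [← mul_assoc, ← map_mul, inv_mul_cancel₀ hr, map_one, one_mul]
  rw [h1]
  exact Dvd.dvd.mul_left h _

theorem exists_c (h : GHyp f F A α d D) (j : ℕ) :
    ∃ c : Fin 3 → ℂ, ∀ a, F ∣ (∑ l, C (c l) * t3 α A F j l) * a → F ∣ a := by
  refine exists_comb F h.hF0 h.hsq _ fun P hP hPF => ?_
  obtain ⟨m, F', hm, hF, hPF', h1, h2⟩ := prime3 h P hP hPF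
  obtain ⟨l, hl⟩ := exists_pd hP.irreducible
  refine ⟨l, fun h3 => ?_⟩
  have h4 : P ∣ C (α * m + j) * F' * pderiv l P := by
    have := dvd_sub h3 (h1 j l)
    rwa [sub_sub_cancel] at this
  rw [mul_assoc] at h4
  rcases hP.dvd_or_dvd (dvd_C_mul _ (h.hα m j hm) h4) with h5 | h5
  · exact hPF' h5
  · exact hl h5

/-- the cross relations -/
theorem cross (h : GHyp f F A α d D) (j j' : ℕ) (Ξ : Fin 3 → P3)
    (hc : ∀ l m, F ∣ t3 α A F j l * Ξ m - t3 α A F j m * Ξ l) (l m : Fin 3) :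
    F ∣ t3 α A F j' l * Ξ m - t3 α A F j' m * Ξ l := by
  refine sqf_dvd F _ h.hF0 h.hsq fun P hP hPF => ?_
  obtain ⟨k, F', hk, hF, hPF', h1, h2⟩ := prime3 h P hP hPF
  have h3 : P ∣ pderiv l P * Ξ m - pderiv m P * Ξ l := by
    have h4 : P ∣ C (α * k + j) * (F' * (pderiv l P * Ξ m - pderiv m P * Ξ l)) := by
      have h5 := hPF.trans (hc l m)
      obtain ⟨x, hx⟩ := h1 j l
      obtain ⟨y, hy⟩ := h1 j m
      obtain ⟨z, hz⟩ := h5
      exact ⟨z - x * Ξ m + y * Ξ l, by linear_combination hz - Ξ m * hx + Ξ l * hy⟩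
    rcases hP.dvd_or_dvd (dvd_C_mul _ (h.hα k j hk) h4) with h5 | h5
    · exact absurd h5 hPF'
    · exact h5
  obtain ⟨x, hx⟩ := h1 j' l
  obtain ⟨y, hy⟩ := h1 j' m
  obtain ⟨z, hz⟩ := h3
  exact ⟨x * Ξ m - y * Ξ l + C (α * k + j') * F' * z, by
    linear_combination Ξ m * hx - Ξ l * hy + C (α * k + j') * F' * hz⟩

/-- **The global step.** -/
theorem glob_step (h : GHyp f F A α d D) (n e : ℕ) (Ξ : Fin 3 → P3)
    (hΞ : ∀ l, (Ξ l).IsHomogeneous (e + (D - 1)))
    (hc : ∀ l m, F ∣ t3 α A F n l * Ξ m - t3 α A F n m * Ξ l)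
    (hloc : ∀ (c : Fin 3 → ℂ) (q : Fin 3 → ℂ), q ≠ 0 → eval q F = 0 →
      (∀ l, eval q (pderiv l F) = 0) → ∃ a b b' : P3, eval q a ≠ 0 ∧
        a * (∑ l, C (c l) * Ξ l) = b * (∑ l, C (c l) * t3 α A F n l) + b' * F) :
    ∃ φ : P3, φ.IsHomogeneous e ∧ ∀ l, F ∣ Ξ l - φ * t3 α A F n l := by
  classical
  obtain ⟨c, hreg⟩ := exists_c h n
  set w : P3 := ∑ l, C (c l) * Ξ l with hw
  set θ : P3 := ∑ l, C (c l) * t3 α A F n l with hθ
  have hwh : w.IsHomogeneous (e + (D - 1)) :=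
    IsHomogeneous.sum _ _ _ fun l _ => (hΞ l).C_mul _
  have hθh : θ.IsHomogeneous (D - 1) :=
    IsHomogeneous.sum _ _ _ fun l _ => (t3_hom h n l).C_mul _
  -- `w θ_m = θ Ξ_m` modulo `F`
  have hwθ : ∀ m, F ∣ w * t3 α A F n m - θ * Ξ m := by
    intro m
    have e1 : w * t3 α A F n m - θ * Ξ m =
        ∑ l, C (c l) * (-(t3 α A F n l * Ξ m - t3 α A F n m * Ξ l)) := by
      rw [hw, hθ, Finset.sum_mul, Finset.sum_mul, ← Finset.sum_sub_distrib]
      refine Finset.sum_congr rfl fun l _ => ?_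
      ring
    rw [e1]
    exact Finset.dvd_sum fun l _ => Dvd.dvd.mul_left ((hc l m).neg_right) _
  -- the ideal of the `a` with `a w ∈ (θ, F)`
  let J : Ideal P3 := Submodule.comap (LinearMap.mulLeft P3 w) (Ideal.span {θ, F})
  have hJ : ∀ a, a ∈ J ↔ ∃ b b', a * w = b * θ + b' * F := by
    intro a
    show w * a ∈ Ideal.span {θ, F} ↔ _
    rw [Ideal.mem_span_pair]
    constructor
    · rintro ⟨b, b', hbb⟩; exact ⟨b, b', by rw [hbb, mul_comm]⟩
    · rintro ⟨b, b', hbb⟩; exact ⟨b, b', by rw [← hbb, mul_comm]⟩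
  have hFJ : F ∈ J := (hJ F).2 ⟨0, w, by ring⟩
  have htJ : ∀ m, t3 α A F n m ∈ J := by
    intro m
    obtain ⟨x, hx⟩ := hwθ m
    exact (hJ _).2 ⟨Ξ m, x, by linear_combination hx⟩
  have hzero : ∀ q ∈ zeroLocus (K := ℂ) J, q = 0 := by
    intro q hq
    by_contra hq0
    have hqJ : ∀ a ∈ J, eval q a = 0 := by
      intro a ha
      exact hq a ha
    have hqF := hqJ F hFJ
    have hqt := fun m => hqJ _ (htJ m)
    obtain ⟨P, hP, hPF, hPq⟩ : ∃ P, Prime P ∧ P ∣ F ∧ eval q P = 0 := by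
      obtain ⟨s, hs, hsF⟩ := UniqueFactorizationMonoid.exists_prime_factors F h.hF0
      have h1 : eval q s.prod = 0 := by
        obtain ⟨x, hx⟩ := hsF.symm.dvd
        rw [hx, map_mul, hqF, zero_mul]
      rw [map_multiset_prod, Multiset.prod_eq_zero_iff, Multiset.mem_map] at h1
      obtain ⟨P, hPs, hPq⟩ := h1
      exact ⟨P, hs P hPs, (Multiset.dvd_prod hPs).trans hsF.dvd, hPq⟩
    obtain ⟨m, F', hm, hF, hPF', h1, h2⟩ := prime3 h P hP hPF
    have hz : ∀ {x y : P3}, P ∣ x - y → eval q x = eval q y := by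
      rintro x y ⟨z, hz⟩
      have := congrArg (eval q) hz
      rw [map_sub, map_mul, hPq, zero_mul] at this
      exact sub_eq_zero.1 this
    have hdF : ∀ l, eval q (pderiv l F) = 0 := by
      intro l
      rw [hz (h2 l)]
      have h3 := hz (h1 n l)
      rw [hqt l, mul_assoc, map_mul, eval_C] at h3
      rcases mul_eq_zero.1 h3.symm with h4 | h4
      · exact absurd h4 (h.hα m n hm)
      · exact h4
    obtain ⟨a, b, b', ha, hab⟩ := hloc c q hq0 hqF hdF
    exact ha (hqJ a ((hJ a).2 ⟨b, b', hab⟩))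
  have hrad : ∀ l : Fin 3, ∃ M : ℕ, (X l : P3) ^ M ∈ J := by
    intro l
    have h1 : (X l : P3) ∈ vanishingIdeal ℂ (zeroLocus ℂ J) := by
      rw [mem_vanishingIdeal_iff]
      intro q hq
      rw [hzero q hq]
      simp
    rw [vanishingIdeal_zeroLocus_eq_radical] at h1
    exact h1
  choose M hM using hrad
  have hM' : ∀ l : Fin 3, (X l : P3) ^ (∑ l, M l) ∈ J := by
    intro l
    have h1 : M l ≤ ∑ l, M l := Finset.single_le_sum (f := fun l => M l)
      (fun _ _ => Nat.zero_le _) (Finset.mem_univ l)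
    rw [← Nat.sub_add_cancel h1, pow_add]
    exact J.mul_mem_left _ (hM l)
  choose a b hab using fun l => (hJ _).1 (hM' l)
  obtain ⟨φ, τ, hφ⟩ := koszul θ F w h.hF0 hreg _ a b hab
  -- the homogeneous component
  have hφ' : w = homogeneousComponent e φ * θ +
      homogeneousComponent (e + (D - 1)) (τ * F) := by
    have h1 := congrArg (homogeneousComponent (e + (D - 1))) hφ
    rw [homogeneousComponent_eq_self hwh, map_add, mul_comm φ θ, add_comm e (D - 1),
      hc_mul hθh, add_comm (D - 1) e] at h1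
    rw [h1]
    ring
  have hτ : F ∣ homogeneousComponent (e + (D - 1)) (τ * F) := by
    rw [mul_comm]
    by_cases hle : D ≤ e + (D - 1)
    · obtain ⟨r, hr⟩ := Nat.exists_eq_add_of_le hle
      rw [hr, hc_mul h.hF]
      exact dvd_mul_right _ _
    · rw [hc_mul_zero h.hF _ _ (by omega)]
      exact dvd_zero _
  refine ⟨homogeneousComponent e φ, homogeneousComponent_isHomogeneous _ _, fun l => ?_⟩
  apply hreg
  obtain ⟨x, hx⟩ := hwθ l
  obtain ⟨y, hy⟩ := hτ
  rw [hy] at hφ'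
  exact ⟨y * t3 α A F n l - x, by
    linear_combination t3 α A F n l * hφ' - hx⟩

end Pool.Agent.U184
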