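import Pool.Agent.U184.Glob
import Pool.Agent.U184.Chart3

set_option autoImplicit false

/-! # The induction on the order of the pole -/

namespace Pool.Agent.U184

open MvPolynomial Pool.Agent.W574.CN

variable {f F : P3} {A : Fin 3 → P3} {α : ℂ} {d D : ℕ}

/-- the form `A` in the chart `x_i = 1` -/
noncomputable def cA (A : Fin 3 → P3) (i : Fin 3) (t : Fin 2) : P2 := deh i (A (i.succAbove t))

theorem deh_t3 (i : Fin 3) (j : ℕ) (t : Fin 2) :
    deh i (t3 α A F j (i.succAbove t)) = th α (cA A i) (deh i F) j t := by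
  have h1 : deh i (C α) = C α := (deh i).commutes α
  rw [t3, th, cA, map_add, map_mul, map_mul, h1, map_natCast, deh_pderiv]

theorem deh_comb (i : Fin 3) (c : Fin 3 → ℂ) (Ξ : Fin 3 → P3) (R : P3)
    (hx : ∑ l, X l * Ξ l = R) : deh i (∑ l, C (c l) * Ξ l) =
      (C (c (i.succAbove 0)) - C (c i) * X 0) * deh i (Ξ (i.succAbove 0)) +
      (C (c (i.succAbove 1)) - C (c i) * X 1) * deh i (Ξ (i.succAbove 1)) +
      C (c i) * deh i R := by
  have h1 : ∀ a : ℂ, deh i (C a) = C a := fun a => (deh i).commutes a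
  have h2 := congrArg (deh i) hx
  rw [map_sum, Fin.sum_univ_succAbove _ i, Fin.sum_univ_two, map_mul, map_mul, map_mul, deh_self,
    deh_succAbove, deh_succAbove] at h2
  rw [map_sum, Fin.sum_univ_succAbove _ i, Fin.sum_univ_two, map_mul, map_mul, map_mul, h1, h1,
    h1, ← h2]
  ring

/-- the assumptions in the charts -/
theorem chart_hyp (h : GHyp f F A α d D) (i : Fin 3) :
    ChartHyp (deh i f) (deh i F) (cA A i) α where
  hf0 := fun h0 => h.hf0 (deh_inj i h.hf h0)
  hFf := map_dvd _ h.hFf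
  hA := fun t => by
    have := congrArg (deh i) (h.hA (i.succAbove t))
    rw [map_mul, map_mul, deh_pderiv] at this
    exact this
  red := fun j => by
    obtain ⟨c, hc⟩ := exists_c h j
    refine ⟨fun t => C (c (i.succAbove t)) - C (c i) * X t, fun a ha => ?_⟩
    have hθ : (∑ l, C (c l) * t3 α A F j l).IsHomogeneous (D - 1) :=
      IsHomogeneous.sum _ _ _ fun l _ => (t3_hom h j l).C_mul _
    refine nzd_deh i hθ h.hF hc a ?_
    rw [deh_comb i c _ _ (t3_euler h j), deh_t3, deh_t3, map_mul]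
    obtain ⟨x, hx⟩ := ha
    exact ⟨x + C (c i) * deh i (C (3 + (j : ℂ) * D)) * a, by linear_combination hx⟩

theorem SS_inj (Φ : T ≃ₐ[ℂ] T) (p : Fin 2 → ℂ) : Function.Injective (SS Φ p) := by
  intro a b hab
  rw [SS_apply, SS_apply] at hab
  have h1 := Φ.injective hab
  have h2 := MvPolynomial.coe_injective _ _ h1
  have h3 := congrArg (W574.SM.translate (-p)) h2
  rwa [translate_neg', translate_neg'] at h3

theorem hom_cancel {σ : Type} {F x : MvPolynomial σ ℂ} {D m : ℕ} (hF0 : F ≠ 0)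
    (hF : F.IsHomogeneous D) (h : (F * x).IsHomogeneous (D + m)) : x.IsHomogeneous m := by
  have h1 := homogeneousComponent_eq_self h
  rw [hc_mul hF] at h1
  have h2 := mul_left_cancel₀ hF0 h1
  rw [← h2]
  exact homogeneousComponent_isHomogeneous _ _

/-- `A` is `F` times a closed form -/
theorem A_closed (h : GHyp f F A α d D) (a b : Fin 3) :
    F * (pderiv a (A b) - pderiv b (A a)) = pderiv a F * A b - pderiv b F * A a := by
  apply mul_left_cancel₀ h.hf0
  have h1 := congrArg (pderiv a) (h.hA b)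
  have h2 := congrArg (pderiv b) (h.hA a)
  rw [Derivation.leibniz, Derivation.leibniz] at h1 h2
  simp only [smul_eq_mul] at h1 h2
  rw [Pool.Agent.N127.PB.A1.pd_comm b a] at h2
  linear_combination F * h1 - F * h2 - (pderiv a F + A a) * h.hA b + (pderiv b F + A b) * h.hA a

/-- the singular points in the charts -/
def SingPt (F : P3) (i : Fin 3) (p : Fin 2 → ℂ) : Prop :=
  eval p (deh i F) = 0 ∧ ∀ t, eval p (pderiv t (deh i F)) = 0

theorem sing_of (h : GHyp f F A α d D) (q : Fin 3 → ℂ) (i : Fin 3) (hq : q i ≠ 0)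
    (h0 : eval q F = 0) (h1 : ∀ l, eval q (pderiv l F) = 0) :
    SingPt F i (fun t => q (i.succAbove t) / q i) := by
  constructor
  · have := eval_hom i q hq h.hF
    rw [h0] at this
    exact (mul_eq_zero.1 this.symm).resolve_left (pow_ne_zero _ hq)
  · intro t
    have := eval_hom i q hq (h.hF.pderiv (i := i.succAbove t))
    rw [h1, deh_pderiv] at this
    exact (mul_eq_zero.1 this.symm).resolve_left (pow_ne_zero _ hq)

theorem hloc_of (h : GHyp f F A α d D) (n : ℕ) (Ξ : Fin 3 → P3) (e : ℕ)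
    (hΞ : ∀ l, (Ξ l).IsHomogeneous e) (hx : ∑ l, X l * Ξ l = 0)
    (Φ : Fin 3 → (Fin 2 → ℂ) → (T ≃ₐ[ℂ] T))
    (hL : ∀ i p, SingPt F i p → LS (SS (Φ i p) p) α (cA A i) (deh i F) (n + 1)
      (fun t => deh i (Ξ (i.succAbove t))))
    (c : Fin 3 → ℂ) (q : Fin 3 → ℂ) (hq0 : q ≠ 0) (hq1 : eval q F = 0)
    (hq2 : ∀ l, eval q (pderiv l F) = 0) : ∃ a b b' : P3, eval q a ≠ 0 ∧
      a * (∑ l, C (c l) * Ξ l) = b * (∑ l, C (c l) * t3 α A F n l) + b' * F := by
  obtain ⟨i, hi⟩ : ∃ i, q i ≠ 0 := by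
    by_contra hcon
    push Not at hcon
    exact hq0 (funext hcon)
  obtain ⟨a, b, b', ha, hab⟩ := LS_use (α := α) (F := deh i F) (A := cA A i) _ _ n _
    (fun t => C (c (i.succAbove t)) - C (c i) * X t) (hL i _ (sing_of h q i hi hq1 hq2))
  have hw : (∑ l, C (c l) * Ξ l).IsHomogeneous e :=
    IsHomogeneous.sum _ _ _ fun l _ => (hΞ l).C_mul _
  have hθ : (∑ l, C (c l) * t3 α A F n l).IsHomogeneous (D - 1) :=
    IsHomogeneous.sum _ _ _ fun l _ => (t3_hom h n l).C_mul _
  obtain ⟨K, a', b1, b2, ha', haa, hrel⟩ := rel_lift i hw hθ h.hF a b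
    (b' - b * C (c i) * deh i (C (3 + (n : ℂ) * D))) (by
      rw [deh_comb i c _ _ hx, deh_comb i c _ _ (t3_euler h n), deh_t3, deh_t3, map_zero, map_mul]
      linear_combination hab)
  refine ⟨a', b1, b2, ?_, hrel⟩
  rw [eval_hom i q hi ha', haa]
  exact mul_ne_zero (pow_ne_zero _ hi) ha

theorem pairs3 (F : P3) (t Ξ : Fin 3 → P3)
    (hcr : ∀ l, F ∣ t (l + 1) * Ξ (l + 2) - t (l + 2) * Ξ (l + 1)) :
    ∀ l m, F ∣ t l * Ξ m - t m * Ξ l := by
  have c0 : F ∣ t 1 * Ξ 2 - t 2 * Ξ 1 := hcr 0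
  have c1 : F ∣ t 2 * Ξ 0 - t 0 * Ξ 2 := hcr 1
  have c2 : F ∣ t 0 * Ξ 1 - t 1 * Ξ 0 := hcr 2
  have hz : ∀ x : P3, F ∣ x - x := fun x => by rw [sub_self]; exact dvd_zero F
  have hn : ∀ x y : P3, F ∣ x - y → F ∣ y - x := fun x y hxy => by
    rw [← neg_sub]; exact hxy.neg_right
  intro l m
  fin_cases l <;> fin_cases m
  · exact hz _
  · exact c2
  · exact hn _ _ c1
  · exact hn _ _ c2
  · exact hz _
  · exact c0
  · exact c1
  · exact hn _ _ c0
  · exact hz _

/-- **The induction.** -/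
theorem glob_ind (h : GHyp f F A α d D) (Φ : Fin 3 → (Fin 2 → ℂ) → (T ≃ₐ[ℂ] T)) (c : ℂ) (k : ℕ) :
    ∀ Ξ : Fin 3 → P3, (∀ l, (Ξ l).IsHomogeneous (k * D + 2)) → ∑ l, X l * Ξ l = 0 →
    (∀ l, F * (pderiv (l + 1) (Ξ (l + 2)) - pderiv (l + 2) (Ξ (l + 1))) -
      (t3 α A F k (l + 1) * Ξ (l + 2) - t3 α A F k (l + 2) * Ξ (l + 1)) =
        -(C c * F ^ (k + 1) * X l)) →
    (∀ i p, SingPt F i p → LS (SS (Φ i p) p) α (cA A i) (deh i F) k
      (fun t => deh i (Ξ (i.succAbove t)))) →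
    ∃ v : Fin 3 → P3, (∀ l, (v l).IsHomogeneous 1) ∧ ∑ l, pderiv l (v l) = 0 ∧
      ∑ l, v l * pderiv l f = -(C c * C (d : ℂ) * f) := by
  induction k with
  | zero =>
    intro Ξ hΞ hx hE _
    refine ⟨fun l => pderiv (l + 1) (Ξ (l + 2)) - pderiv (l + 2) (Ξ (l + 1)), fun l => ?_, ?_, ?_⟩
    · have h1 := fun a b : Fin 3 => (hΞ a).pderiv (i := b)
      simp only [zero_mul, zero_add] at h1
      exact (h1 _ _).sub (h1 _ _)
    · rw [Fin.sum_univ_three]
      simp only [Fin.isValue, zero_add, Fin.reduceAdd, map_sub]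
      rw [Pool.Agent.N127.PB.A1.pd_comm 1 0, Pool.Agent.N127.PB.A1.pd_comm 2 0,
        Pool.Agent.N127.PB.A1.pd_comm 2 1]
      ring
    · apply mul_left_cancel₀ h.hF0
      apply mul_left_cancel₀ h.hF0
      have e0 := hE 0
      have e1 := hE 1
      have e2 := hE 2
      have h1 := A_euler h
      rw [Fin.sum_univ_three] at h1 ⊢
      simp only [Fin.isValue, zero_add, Fin.reduceAdd, t3, Nat.cast_zero, zero_mul, add_zero,
        pow_one] at e0 e1 e2 ⊢
      set v0 := pderiv 1 (Ξ 2) - pderiv 2 (Ξ 1)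
      set v1 := pderiv 2 (Ξ 0) - pderiv 0 (Ξ 2)
      set v2 := pderiv 0 (Ξ 1) - pderiv 1 (Ξ 0)
      linear_combination (-(F * v0)) * h.hA 0 - (F * v1) * h.hA 1 - (F * v2) * h.hA 2 +
        f * A 0 * e0 + f * A 1 * e1 + f * A 2 * e2 - f * C c * F * h1
  | succ n ih =>
    intro Ξ hΞ hx hE hL
    have hcr : ∀ l, F ∣ t3 α A F (n + 1) (l + 1) * Ξ (l + 2) -
        t3 α A F (n + 1) (l + 2) * Ξ (l + 1) := by
      intro l
      exact ⟨pderiv (l + 1) (Ξ (l + 2)) - pderiv (l + 2) (Ξ (l + 1)) + C c * F ^ (n + 1) * X l, by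
        linear_combination (-1 : P3) * hE l⟩
    have hcr' := pairs3 F (t3 α A F (n + 1)) Ξ hcr
    have hdeg : (n + 1) * D + 2 = (n * D + 3) + (D - 1) := by
      have := h.hD
      rw [add_mul, one_mul]
      omega
    obtain ⟨φ, hφh, hφ⟩ := glob_step h n (n * D + 3) Ξ (fun l => by rw [← hdeg]; exact hΞ l)
      (cross h (n + 1) n Ξ hcr') (hloc_of h n Ξ _ hΞ hx Φ hL)
    choose y hy using hφ
    obtain ⟨Ξ', hΞ'⟩ : ∃ Ξ' : Fin 3 → P3, ∀ l, F * Ξ' l = Ξ l + F * pderiv l φ -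
        φ * t3 α A F n l :=
      ⟨fun l => y l + pderiv l φ, fun l => by linear_combination (-1 : P3) * hy l⟩
    refine ih Ξ' (fun l => ?_) ?_ (fun l => ?_) (fun i p hp => ?_)
    · apply hom_cancel h.hF0 h.hF
      rw [hΞ' l]
      have e1 : D + (n * D + 2) = (n + 1) * D + 2 := by ring
      rw [e1]
      refine ((hΞ l).add ?_).sub ?_
      · have := h.hF.mul (hφh.pderiv (i := l))
        have e2 : D + (n * D + 3 - 1) = (n + 1) * D + 2 := by
          have : n * D + 3 - 1 = n * D + 2 := by omega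
          rw [this]; ring
        rwa [e2] at this
      · have := hφh.mul (t3_hom h n l)
        rwa [← hdeg] at this
    · apply mul_left_cancel₀ h.hF0
      have h1 : F * ∑ l, X l * Ξ' l = ∑ l, X l * Ξ l + F * ∑ l, X l * pderiv l φ -
          φ * ∑ l, X l * t3 α A F n l := by
        rw [Finset.mul_sum, Finset.mul_sum, Finset.mul_sum, ← Finset.sum_add_distrib,
          ← Finset.sum_sub_distrib]
        refine Finset.sum_congr rfl fun l _ => ?_
        linear_combination X l * hΞ' l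
      rw [h1, hx, hφh.sum_X_mul_pderiv, t3_euler h n, nsmul_eq_mul, map_add, map_mul, map_natCast,
        map_natCast]
      have h3 : (C (3 : ℂ) : P3) = 3 := map_ofNat C 3
      rw [h3]
      push_cast
      ring
    · apply mul_left_cancel₀ h.hF0
      have a1 := congrArg (pderiv (l + 1)) (hΞ' (l + 2))
      have a2 := congrArg (pderiv (l + 2)) (hΞ' (l + 1))
      have a3 := hE l
      have a4 := A_closed h (l + 1) (l + 2)
      have a5 := hΞ' (l + 1)
      have a6 := hΞ' (l + 2)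
      have hCα : ∀ x : Fin 3, pderiv x (C α : P3) = 0 := fun x => pderiv_C
      simp only [t3, map_add, map_sub, Derivation.leibniz, smul_eq_mul, hCα,
        Derivation.map_natCast, mul_zero, add_zero] at a1 a2 a3 a5 a6 ⊢
      rw [Pool.Agent.N127.PB.A1.pd_comm (l + 2) (l + 1) φ,
        Pool.Agent.N127.PB.A1.pd_comm (l + 2) (l + 1) F] at a2
      push_cast at a3
      linear_combination F * a1 - F * a2 + a3 - φ * C α * a4 -
        (pderiv (l + 1) F + C α * A (l + 1) + (n : P3) * pderiv (l + 1) F) * a6 +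
        (pderiv (l + 2) F + C α * A (l + 2) + (n : P3) * pderiv (l + 2) F) * a5
    · have hF0 : deh i F ≠ 0 := fun h0 => h.hF0 (deh_inj i h.hF h0)
      refine LS_step (chart_hyp h i) p (Φ i p) n _ _ (deh i φ) (fun h0 => hF0 ?_) (fun t => ?_)
        (hL i p hp)
      · exact SS_inj (Φ i p) p (by rw [h0, map_zero])
      · have := congrArg (deh i) (hΞ' (i.succAbove t))
        rw [map_mul, map_sub, map_add, map_mul, map_mul, deh_pderiv, deh_t3] at this
        exact this

end Pool.Agent.U184
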