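import Pool.Agent.U184.LZ1

set_option autoImplicit false
set_option linter.unusedSectionVars false

/-! # Contributions of points with general factors -/

namespace Pool.Agent.U184

open MvPolynomial Pool.Agent.W574.SM

/-- As `LocalZeta`, with a general factor `Φ a n` instead of `1 / (n + a s)`. -/
inductive LocF {ι : Type} (Φ : ℕ → ℕ → RatFunc ℂ) :
    (ι → MvPolynomial (Fin 2) ℂ) → ℕ → ℕ → ℕ → ℕ → RatFunc ℂ → Prop
  | unit (g : ι → MvPolynomial (Fin 2) ℂ) (a₀ n₀ a₁ n₁ : ℕ) (j : ι)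
      (hj : constantCoeff (g j) ≠ 0) :
      LocF Φ g a₀ n₀ a₁ n₁ (Φ a₀ n₀ * Φ a₁ n₁)
  | curveV (g : ι → MvPolynomial (Fin 2) ℂ) (a₀ n₀ m : ℕ) (hm : 1 ≤ m)
      (h : MvPolynomial (Fin 2) ℂ) (k : ι → MvPolynomial (Fin 2) ℂ)
      (hg : ∀ j, g j = h ^ m * k j) (h0 : constantCoeff h = 0)
      (h1 : constantCoeff (pderiv 1 h) ≠ 0) (j : ι) (hj : constantCoeff (k j) ≠ 0) :
      LocF Φ g a₀ n₀ 0 1 (Φ a₀ n₀ * Φ m 1)
  | curveU (g : ι → MvPolynomial (Fin 2) ℂ) (a₁ n₁ m : ℕ) (hm : 1 ≤ m)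
      (h : MvPolynomial (Fin 2) ℂ) (k : ι → MvPolynomial (Fin 2) ℂ)
      (hg : ∀ j, g j = h ^ m * k j) (h0 : constantCoeff h = 0)
      (h1 : constantCoeff (pderiv 0 h) ≠ 0) (j : ι) (hj : constantCoeff (k j) ≠ 0) :
      LocF Φ g 0 1 a₁ n₁ (Φ a₁ n₁ * Φ m 1)
  | blowup (g : ι → MvPolynomial (Fin 2) ℂ) (a₀ n₀ a₁ n₁ m : ℕ) (hm : 1 ≤ m)
      (gc : ℂ → ι → MvPolynomial (Fin 2) ℂ) (gI : ι → MvPolynomial (Fin 2) ℂ)
      (hgc : ∀ c j, aeval (chart c) (g j) = X 0 ^ m * gc c j)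
      (hgI : ∀ j, aeval chartI (g j) = X 1 ^ m * gI j)
      (S : Finset ℂ) (h0S : 0 ∈ S) (hS : ∀ c ∉ S, ∃ j, constantCoeff (gc c j) ≠ 0)
      (Zc : ℂ → RatFunc ℂ) (ZI : RatFunc ℂ)
      (h0 : LocF Φ (gc 0) (a₀ + a₁ + m) (n₀ + n₁) a₁ n₁ (Zc 0))
      (hc : ∀ c ∈ S, c ≠ 0 → LocF Φ (gc c) (a₀ + a₁ + m) (n₀ + n₁) 0 1 (Zc c))
      (hI : LocF Φ gI a₀ n₀ (a₀ + a₁ + m) (n₀ + n₁) ZI) :
      LocF Φ g a₀ n₀ a₁ n₁
        (ZI + ∑ c ∈ S, Zc c + (1 - (S.card : RatFunc ℂ)) * Φ (a₀ + a₁ + m) (n₀ + n₁))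

/-- The properties of the factors. -/
structure FData (Φ : ℕ → ℕ → RatFunc ℂ) : Prop where
  one : Φ 0 1 = 1
  add : ∀ a n b l, 1 ≤ n → 1 ≤ l → Φ (a + b) (n + l) * (Φ a n + Φ b l) = Φ a n * Φ b l

variable {ι : Type} {Φ : ℕ → ℕ → RatFunc ℂ}

theorem LocF.unit_val {g : ι → MvPolynomial (Fin 2) ℂ} {a₀ n₀ a₁ n₁ : ℕ} {Z : RatFunc ℂ}
    (h : LocF Φ g a₀ n₀ a₁ n₁ Z) (hj : ∃ j, constantCoeff (g j) ≠ 0) :
    Z = Φ a₀ n₀ * Φ a₁ n₁ := by
  obtain ⟨j, hj⟩ := hj
  cases h with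
  | unit _ _ _ _ _ _ => rfl
  | curveV _ _ _ m hm p k hg h0 =>
    exfalso
    apply hj
    rw [hg, map_mul, map_pow, h0, zero_pow (by omega), zero_mul]
  | curveU _ _ _ m hm p k hg h0 =>
    exfalso
    apply hj
    rw [hg, map_mul, map_pow, h0, zero_pow (by omega), zero_mul]
  | blowup _ _ _ _ _ m hm gc gI hgc =>
    exfalso
    apply hj
    rw [← cc_chart 0, hgc 0 j, map_mul, map_pow, constantCoeff_X, zero_pow (by omega), zero_mul]

/-- smooth curves transversal to `u = 0` -/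
theorem LocF.curveV_val (hΦ : FData Φ) {g : ι → MvPolynomial (Fin 2) ℂ} {a₀ n₀ a₁ n₁ : ℕ} {Z : RatFunc ℂ}
    (h : LocF Φ g a₀ n₀ a₁ n₁ Z) : a₁ = 0 → n₁ = 1 → 1 ≤ n₀ → ∀ (m : ℕ)
    (p : MvPolynomial (Fin 2) ℂ) (k : ι → MvPolynomial (Fin 2) ℂ), 1 ≤ m →
    (∀ j, g j = p ^ m * k j) → constantCoeff p = 0 → constantCoeff (pderiv 1 p) ≠ 0 →
    (∃ j, constantCoeff (k j) ≠ 0) → Z = Φ a₀ n₀ * Φ m 1 := by
  classical
  induction h with
  | unit g a₀ n₀ a₁ n₁ j hj =>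
    intro _ _ _ m p k hm hg h0 h1 hk
    exfalso
    apply hj
    rw [hg, map_mul, map_pow, h0, zero_pow (by omega), zero_mul]
  | curveV g a₀ n₀ m' hm' p' k' hg' h0' h1' j hj =>
    intro _ _ _ m p k hm hg h0 h1 hk
    have e : m = m' := line_order 0 1 m m' p p' k k' (fun j => by rw [← hg, hg']) h0 h0'
      (by simpa using h1) (by simpa using h1') hk ⟨j, hj⟩
    rw [e]
  | curveU g a₁ n₁ m' hm' p' k' hg' h0' h1' j hj =>
    intro ha hn _ m p k hm hg h0 h1 hk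
    subst ha hn
    have e : m = m' := by
      by_cases hv : constantCoeff (pderiv 1 p') = 0
      · refine line_order 1 ((1 - constantCoeff (pderiv 0 p)) / constantCoeff (pderiv 1 p)) m m'
          p p' k k' (fun j => by rw [← hg, hg']) h0 h0' ?_ ?_ hk ⟨j, hj⟩
        · rw [div_mul_cancel₀ _ h1, one_mul, add_sub_cancel]
          exact one_ne_zero
        · rw [hv, mul_zero, add_zero, one_mul]
          exact h1'
      · exact line_order 0 1 m m' p p' k k' (fun j => by rw [← hg, hg']) h0 h0'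
          (by simpa using h1) (by simpa using hv) hk ⟨j, hj⟩
    rw [e]
  | blowup g a₀ n₀ a₁ n₁ m' hm' gc gI hgc hgI S h0S hS Zc ZI h0c hc hI ih0 ihc ihI =>
    intro ha hn hn0 m p k hm hg h0 h1 hk
    subst ha hn
    obtain ⟨hmm, hq, qI, hqI, hqI1, _⟩ := blow_data hg h0 (Or.inr h1) hk hgc hgI hS
    subst hmm
    obtain ⟨j0, hj0⟩ := hk
    set c₀ : ℂ := -(constantCoeff (pderiv 0 p)) / constantCoeff (pderiv 1 p) with hc₀
    have hval : ∀ c, constantCoeff (pderiv 0 p) + c * constantCoeff (pderiv 1 p) =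
        (c - c₀) * constantCoeff (pderiv 1 p) := by
      intro c
      rw [hc₀, sub_mul, div_mul_cancel₀ _ h1]
      ring
    have hcS : c₀ ∈ S := by
      by_contra hcon
      obtain ⟨j, hj⟩ := hS c₀ hcon
      obtain ⟨q, hq1, hq2, _⟩ := hq c₀
      apply hj
      rw [hq1, map_mul, map_pow, hq2, hval, sub_self, zero_mul, zero_pow (by omega), zero_mul]
    have hunit : ∀ c, c ≠ c₀ → ∃ j, constantCoeff (gc c j) ≠ 0 := by
      intro c hcc
      obtain ⟨q, hq1, hq2, _⟩ := hq c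
      refine ⟨j0, ?_⟩
      rw [hq1, map_mul, map_pow, hq2, hval, cc_chart]
      exact mul_ne_zero (pow_ne_zero _ (mul_ne_zero (sub_ne_zero.2 hcc) h1)) hj0
    have hI1 : ZI = Φ a₀ n₀ * Φ (a₀ + 0 + m') (n₀ + 1) := by
      refine LocF.unit_val hI ⟨j0, ?_⟩
      rw [hqI, map_mul, map_pow, hqI1, cc_chartI]
      exact mul_ne_zero (pow_ne_zero _ h1) hj0
    have hz0 : Zc c₀ = Φ (a₀ + 0 + m') (n₀ + 1) * Φ m' 1 := by
      obtain ⟨q, hq1, hq2, hq3⟩ := hq c₀
      rw [hval, sub_self, zero_mul] at hq2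
      by_cases hc00 : c₀ = 0
      · rw [hc00] at hq1 ⊢
        exact ih0 rfl rfl (by omega) m' q (fun j => aeval (chart 0) (k j)) hm' hq1 hq2
          (by rw [hq3]; exact h1) ⟨j0, by rw [cc_chart]; exact hj0⟩
      · exact ihc c₀ hcS hc00 rfl rfl (by omega) m' q (fun j => aeval (chart c₀) (k j)) hm' hq1 hq2
          (by rw [hq3]; exact h1) ⟨j0, by rw [cc_chart]; exact hj0⟩
    have hz1 : ∀ c ∈ S, c ≠ c₀ → Zc c = Φ (a₀ + 0 + m') (n₀ + 1) := by
      intro c hcS' hcc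
      by_cases hc00 : c = 0
      · rw [hc00]
        have := LocF.unit_val h0c (hunit 0 (by rw [← hc00]; exact hcc))
        rw [this, hΦ.one, mul_one]
      · have := LocF.unit_val (hc c hcS' hc00) (hunit c hcc)
        rw [this, hΦ.one, mul_one]
    rw [add_assoc, sum_points S Zc c₀ hcS _ _ hz0 hz1, hI1, add_zero,
      ← hΦ.add a₀ n₀ m' 1 hn0 le_rfl]
    ring

/-- smooth curves transversal to `v = 0` -/
theorem LocF.curveU_val (hΦ : FData Φ) {g : ι → MvPolynomial (Fin 2) ℂ} {a₀ n₀ a₁ n₁ : ℕ} {Z : RatFunc ℂ}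
    (h : LocF Φ g a₀ n₀ a₁ n₁ Z) : a₀ = 0 → n₀ = 1 → 1 ≤ n₁ → ∀ (m : ℕ)
    (p : MvPolynomial (Fin 2) ℂ) (k : ι → MvPolynomial (Fin 2) ℂ), 1 ≤ m →
    (∀ j, g j = p ^ m * k j) → constantCoeff p = 0 → constantCoeff (pderiv 0 p) ≠ 0 →
    (∃ j, constantCoeff (k j) ≠ 0) → Z = Φ a₁ n₁ * Φ m 1 := by
  classical
  induction h with
  | unit g a₀ n₀ a₁ n₁ j hj =>
    intro _ _ _ m p k hm hg h0 h1 hk
    exfalso
    apply hj
    rw [hg, map_mul, map_pow, h0, zero_pow (by omega), zero_mul]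
  | curveU g a₀ n₀ m' hm' p' k' hg' h0' h1' j hj =>
    intro _ _ _ m p k hm hg h0 h1 hk
    have e : m = m' := line_order 1 0 m m' p p' k k' (fun j => by rw [← hg, hg']) h0 h0'
      (by simpa using h1) (by simpa using h1') hk ⟨j, hj⟩
    rw [e]
  | curveV g a₀ n₀ m' hm' p' k' hg' h0' h1' j hj =>
    intro ha hn _ m p k hm hg h0 h1 hk
    subst ha hn
    have e : m = m' := by
      by_cases hv : constantCoeff (pderiv 0 p') = 0
      · refine line_order ((1 - constantCoeff (pderiv 1 p)) / constantCoeff (pderiv 0 p)) 1 m m'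
          p p' k k' (fun j => by rw [← hg, hg']) h0 h0' ?_ ?_ hk ⟨j, hj⟩
        · rw [div_mul_cancel₀ _ h1, one_mul, sub_add_cancel]
          exact one_ne_zero
        · rw [hv, mul_zero, zero_add, one_mul]
          exact h1'
      · exact line_order 1 0 m m' p p' k k' (fun j => by rw [← hg, hg']) h0 h0'
          (by simpa using h1) (by simpa using hv) hk ⟨j, hj⟩
    rw [e]
  | blowup g a₀ n₀ a₁ n₁ m' hm' gc gI hgc hgI S h0S hS Zc ZI h0c hc hI ih0 ihc ihI =>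
    intro ha hn hn1 m p k hm hg h0 h1 hk
    subst ha hn
    obtain ⟨hmm, hq, qI, hqI, hqI1, hqI2⟩ := blow_data hg h0 (Or.inl h1) hk hgc hgI hS
    subst hmm
    obtain ⟨j0, hj0⟩ := hk
    have hF : Φ (0 + a₁ + m') (1 + n₁) * (Φ a₁ n₁ + Φ m' 1) = Φ a₁ n₁ * Φ m' 1 := by
      rw [zero_add, add_comm 1 n₁]
      exact hΦ.add a₁ n₁ m' 1 hn1 le_rfl
    have hunit0 : ∃ j, constantCoeff (gc 0 j) ≠ 0 := by
      obtain ⟨q, hq1, hq2, _⟩ := hq 0
      refine ⟨j0, ?_⟩
      rw [hq1, map_mul, map_pow, hq2, zero_mul, add_zero, cc_chart]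
      exact mul_ne_zero (pow_ne_zero _ h1) hj0
    have hz00 := LocF.unit_val h0c hunit0
    by_cases hv : constantCoeff (pderiv 1 p) = 0
    · -- the curve is tangent to the direction `u = 0`
      have hI1 : ZI = Φ (0 + a₁ + m') (1 + n₁) * Φ m' 1 :=
        ihI rfl rfl (by omega) m' qI (fun j => aeval chartI (k j)) hm' hqI (by rw [hqI1, hv])
          (by rw [hqI2]; exact h1) ⟨j0, by rw [cc_chartI]; exact hj0⟩
      have hz1 : ∀ c ∈ S, c ≠ 0 → Zc c = Φ (0 + a₁ + m') (1 + n₁) := by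
        intro c hcS hcc
        have h3 : ∃ j, constantCoeff (gc c j) ≠ 0 := by
          obtain ⟨q, hq1, hq2, _⟩ := hq c
          refine ⟨j0, ?_⟩
          rw [hq1, map_mul, map_pow, hq2, hv, mul_zero, add_zero, cc_chart]
          exact mul_ne_zero (pow_ne_zero _ h1) hj0
        have := LocF.unit_val (hc c hcS hcc) h3
        rw [this, hΦ.one, mul_one]
      rw [add_assoc, sum_points S Zc 0 h0S _ _ hz00 hz1, hI1, ← hF]
      ring
    · set c₀ : ℂ := -(constantCoeff (pderiv 0 p)) / constantCoeff (pderiv 1 p) with hc₀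
      have hc₀0 : c₀ ≠ 0 := div_ne_zero (neg_ne_zero.2 h1) hv
      have hval : ∀ c, constantCoeff (pderiv 0 p) + c * constantCoeff (pderiv 1 p) =
          (c - c₀) * constantCoeff (pderiv 1 p) := by
        intro c
        rw [hc₀, sub_mul, div_mul_cancel₀ _ hv]
        ring
      have hcS : c₀ ∈ S := by
        by_contra hcon
        obtain ⟨j, hj⟩ := hS c₀ hcon
        obtain ⟨q, hq1, hq2, _⟩ := hq c₀
        apply hj
        rw [hq1, map_mul, map_pow, hq2, hval, sub_self, zero_mul, zero_pow (by omega), zero_mul]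
      have hI1 : ZI = Φ 0 1 * Φ (0 + a₁ + m') (1 + n₁) := by
        refine LocF.unit_val hI ⟨j0, ?_⟩
        rw [hqI, map_mul, map_pow, hqI1, cc_chartI]
        exact mul_ne_zero (pow_ne_zero _ hv) hj0
      have hz0 : Zc c₀ = Φ (0 + a₁ + m') (1 + n₁) * Φ m' 1 := by
        obtain ⟨q, hq1, hq2, hq3⟩ := hq c₀
        rw [hval, sub_self, zero_mul] at hq2
        exact LocF.curveV_val hΦ (hc c₀ hcS hc₀0) rfl rfl (by omega) m' q
          (fun j => aeval (chart c₀) (k j)) hm' hq1 hq2 (by rw [hq3]; exact hv)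
          ⟨j0, by rw [cc_chart]; exact hj0⟩
      have hz1 : ∀ c ∈ S, c ≠ c₀ → c ≠ 0 → Zc c = Φ (0 + a₁ + m') (1 + n₁) := by
        intro c hcS' hcc hc00
        have h3 : ∃ j, constantCoeff (gc c j) ≠ 0 := by
          obtain ⟨q, hq1, hq2, _⟩ := hq c
          refine ⟨j0, ?_⟩
          rw [hq1, map_mul, map_pow, hq2, hval, cc_chart]
          exact mul_ne_zero (pow_ne_zero _ (mul_ne_zero (sub_ne_zero.2 hcc) hv)) hj0
        have := LocF.unit_val (hc c hcS' hc00) h3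
        rw [this, hΦ.one, mul_one]
      set F := Φ (0 + a₁ + m') (1 + n₁) with hFdef
      have hsum : ∑ c ∈ S, Zc c = F * Φ a₁ n₁ + F * Φ m' 1 + ((S.card : RatFunc ℂ) - 2) * F := by
        rw [← Finset.add_sum_erase S Zc h0S, ← Finset.add_sum_erase (S.erase 0) Zc
          (Finset.mem_erase.2 ⟨hc₀0, hcS⟩), hz00, hz0,
          Finset.sum_congr rfl fun c hc' => hz1 c
            (Finset.mem_of_mem_erase (Finset.mem_of_mem_erase hc'))
            (Finset.ne_of_mem_erase hc') (Finset.ne_of_mem_erase (Finset.mem_of_mem_erase hc')),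
          Finset.sum_const, Finset.card_erase_of_mem (Finset.mem_erase.2 ⟨hc₀0, hcS⟩),
          Finset.card_erase_of_mem h0S, nsmul_eq_mul]
        have h3 : 2 ≤ S.card := by
          have : ({0, c₀} : Finset ℂ) ⊆ S := by
            intro x hx
            rcases Finset.mem_insert.1 hx with rfl | hx
            · exact h0S
            · rw [Finset.mem_singleton.1 hx]; exact hcS
          have h4 := Finset.card_le_card this
          rwa [Finset.card_pair hc₀0.symm] at h4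
        have h4 : ((S.card - 1 - 1 : ℕ) : RatFunc ℂ) = (S.card : RatFunc ℂ) - 2 := by
          rw [Nat.sub_sub, Nat.cast_sub h3]
          push_cast
          ring
        rw [h4]
        ring
      rw [hsum, hI1, hΦ.one, one_mul, ← hF]
      ring

/-- **The contribution of a point is unique.** -/
theorem LocF.unique (hΦ : FData Φ) {g : ι → MvPolynomial (Fin 2) ℂ} {a₀ n₀ a₁ n₁ : ℕ} {Z : RatFunc ℂ}
    (h : LocF Φ g a₀ n₀ a₁ n₁ Z) : 1 ≤ n₀ → 1 ≤ n₁ → ∀ Z' : RatFunc ℂ,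
    LocF Φ g a₀ n₀ a₁ n₁ Z' → Z' = Z := by
  classical
  induction h with
  | unit g a₀ n₀ a₁ n₁ j hj => exact fun _ _ Z' h' => LocF.unit_val h' ⟨j, hj⟩
  | curveV g a₀ n₀ m hm p k hg h0 h1 j hj =>
    exact fun hn _ Z' h' => LocF.curveV_val hΦ h' rfl rfl hn m p k hm hg h0 h1 ⟨j, hj⟩
  | curveU g a₁ n₁ m hm p k hg h0 h1 j hj =>
    exact fun _ hn Z' h' => LocF.curveU_val hΦ h' rfl rfl hn m p k hm hg h0 h1 ⟨j, hj⟩
  | blowup g a₀ n₀ a₁ n₁ m hm gc gI hgc hgI S h0S hS Zc ZI h0c hc hI ih0 ihc ihI =>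
    intro hn0 hn1 Z' h'
    have hme := LocF.blowup g a₀ n₀ a₁ n₁ m hm gc gI hgc hgI S h0S hS Zc ZI h0c hc hI
    cases h' with
    | unit _ _ _ _ _ j hj => exact (LocF.unit_val hme ⟨j, hj⟩).symm
    | curveV _ _ _ m' hm' p k hg h0 h1 j hj =>
      exact (LocF.curveV_val hΦ hme rfl rfl hn0 m' p k hm' hg h0 h1 ⟨j, hj⟩).symm
    | curveU _ _ _ m' hm' p k hg h0 h1 j hj =>
      exact (LocF.curveU_val hΦ hme rfl rfl hn1 m' p k hm' hg h0 h1 ⟨j, hj⟩).symm
    | blowup _ _ _ _ _ m' hm' gc' gI' hgc' hgI' S' h0S' hS' Zc' ZI' h0c' hc' hI' =>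
      obtain ⟨c, hcc⟩ := Infinite.exists_notMem_finset (S ∪ S')
      rw [Finset.mem_union, not_or] at hcc
      obtain ⟨e, _⟩ := xpow_unique 0 m m' (gc c) (gc' c) (fun j => by rw [← hgc, ← hgc'])
        (hS c hcc.1) (hS' c hcc.2)
      subst e
      have egc : gc' = gc := by
        funext c j
        apply mul_left_cancel₀ (pow_ne_zero m (X_ne_zero (R := ℂ) (0 : Fin 2)))
        rw [← hgc, ← hgc']
      have egI : gI' = gI := by
        funext j
        apply mul_left_cancel₀ (pow_ne_zero m (X_ne_zero (R := ℂ) (1 : Fin 2)))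
        rw [← hgI, ← hgI']
      subst egc egI
      have eI : ZI' = ZI := ihI hn0 (by omega) ZI' hI'
      have e0 : Zc' 0 = Zc 0 := ih0 (by omega) hn1 _ h0c'
      set F := Φ (a₀ + a₁ + m) (n₀ + n₁) with hF
      -- the sums
      set w : ℂ → RatFunc ℂ := fun c => if c ∈ S then Zc c else F with hw
      have h1 : ∀ c ∈ S', Zc' c = w c := by
        intro c hc1
        by_cases hcS : c ∈ S
        · simp only [hw, if_pos hcS]
          by_cases hc0 : c = 0
          · rw [hc0, e0]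
          · exact ihc c hcS hc0 (by omega) le_rfl _ (hc' c hc1 hc0)
        · simp only [hw, if_neg hcS]
          have hc0 : c ≠ 0 := fun h => hcS (h ▸ h0S)
          rw [LocF.unit_val (hc' c hc1 hc0) (hS c hcS), hΦ.one, mul_one]
      have h2 : ∀ c ∈ S, Zc c = w c := fun c hcS => by simp only [hw, if_pos hcS]
      have h3 : ∀ c ∈ S \ S', w c = F := by
        intro c hc1
        rw [Finset.mem_sdiff] at hc1
        have hc0 : c ≠ 0 := fun h => hc1.2 (h ▸ h0S')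
        rw [← h2 c hc1.1, LocF.unit_val (hc c hc1.1 hc0) (hS' c hc1.2), hΦ.one, mul_one]
      have h4 : ∀ c ∈ S' \ S, w c = F := by
        intro c hc1
        rw [Finset.mem_sdiff] at hc1
        simp only [hw, if_neg hc1.2]
      have key : ∀ A B : Finset ℂ, (∀ c ∈ B \ A, w c = F) →
          ∑ c ∈ A, w c + (1 - (A.card : RatFunc ℂ)) * F =
            ∑ c ∈ A ∪ B, w c + (1 - ((A ∪ B).card : RatFunc ℂ)) * F := by
        intro A B hAB
        rw [← Finset.sum_sdiff (Finset.subset_union_left (s₁ := A) (s₂ := B)),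
          Finset.union_sdiff_left, Finset.sum_congr rfl hAB, Finset.sum_const, nsmul_eq_mul]
        have h5 : ((A ∪ B).card : RatFunc ℂ) = (A.card : RatFunc ℂ) + ((B \ A).card : RatFunc ℂ) := by
          rw [← Nat.cast_add]
          congr 1
          rw [← Finset.union_sdiff_left, ← Finset.card_sdiff_add_card_eq_card
            (Finset.subset_union_left (s₁ := A) (s₂ := B)), add_comm]
        rw [h5]
        ring
      have e1 : ∑ c ∈ S', Zc' c = ∑ c ∈ S', w c := Finset.sum_congr rfl h1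
      have e2 : ∑ c ∈ S, Zc c = ∑ c ∈ S, w c := Finset.sum_congr rfl h2
      have e3 := key S S' h4
      have e4 := key S' S h3
      rw [Finset.union_comm S' S] at e4
      rw [eI, e1, e2, add_assoc, add_assoc, e3, e4]

end Pool.Agent.U184
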