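import Pool.Agent.U184.LZ1

set_option autoImplicit false

/-! # The contributions of weighted homogeneous points -/

namespace Pool.Agent.U184

open MvPolynomial Pool.Agent.W574.SM

/-- The contribution of a point with normal crossings. -/
theorem lz_mono (i j a₀ n₀ a₁ n₁ : ℕ) (k : MvPolynomial (Fin 2) ℂ) (hk : constantCoeff k ≠ 0)
    (hi : i = 0 ∨ (a₀ = 0 ∧ n₀ = 1)) (hj : j = 0 ∨ (a₁ = 0 ∧ n₁ = 1)) :
    LocalZeta (fun _ : Unit => X 0 ^ i * X 1 ^ j * k) a₀ n₀ a₁ n₁
      (fac (a₀ + i) n₀ * fac (a₁ + j) n₁) := by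
  rcases Nat.eq_zero_or_pos i with rfl | hi0
  · rcases Nat.eq_zero_or_pos j with rfl | hj0
    · rw [add_zero, add_zero]
      exact LocalZeta.unit _ _ _ _ _ () (by simpa using hk)
    · obtain ⟨rfl, rfl⟩ : a₁ = 0 ∧ n₁ = 1 := hj.resolve_left (by omega)
      rw [add_zero, zero_add]
      exact LocalZeta.curveV _ _ _ j hj0 (X 1) (fun _ => k) (fun _ => by ring)
        (by simp) (by simp) () hk
  · obtain ⟨rfl, rfl⟩ : a₀ = 0 ∧ n₀ = 1 := hi.resolve_left (by omega)
    rcases Nat.eq_zero_or_pos j with rfl | hj0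
    · rw [add_zero, zero_add, mul_comm (fac i 1)]
      exact LocalZeta.curveU _ _ _ i hi0 (X 0) (fun _ => k) (fun _ => by ring)
        (by simp) (by simp) () hk
    · obtain ⟨rfl, rfl⟩ : a₁ = 0 ∧ n₁ = 1 := hj.resolve_left (by omega)
      rw [zero_add, zero_add]
      have h := LocalZeta.blowup (fun _ : Unit => X 0 ^ i * X 1 ^ j * k) 0 1 0 1 (i + j)
        (by omega) (fun c _ => (X 1 + C c) ^ j * aeval (chart c) k)
        (fun _ => X 0 ^ i * aeval chartI k)
        (fun c _ => by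
          rw [map_mul, map_mul, map_pow, map_pow, aeval_X, aeval_X]
          simp only [chart, Matrix.cons_val_zero, Matrix.cons_val_one]
          rw [mul_pow]
          ring)
        (fun _ => by
          rw [map_mul, map_mul, map_pow, map_pow, aeval_X, aeval_X]
          simp only [chartI, Matrix.cons_val_zero, Matrix.cons_val_one]
          rw [mul_pow]
          ring)
        {0} (Finset.mem_singleton_self 0)
        (fun c hc => ⟨(), by
          rw [Finset.mem_singleton] at hc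
          rw [map_mul, map_pow, cc_chart, map_add, constantCoeff_X, constantCoeff_C, zero_add]
          exact mul_ne_zero (pow_ne_zero _ hc) hk⟩)
        (fun _ => fac (0 + 0 + (i + j)) (1 + 1) * fac j 1)
        (fac (0 + 0 + (i + j)) (1 + 1) * fac i 1)
        (LocalZeta.curveV _ _ _ j hj0 (X 1) (fun _ => aeval (chart 0) k)
          (fun _ => by rw [map_zero, add_zero]) (by simp) (by simp) ()
          (by rw [cc_chart]; exact hk))
        (fun c hc hc0 => absurd (Finset.mem_singleton.1 hc) hc0)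
        (LocalZeta.curveU _ _ _ i hi0 (X 0) (fun _ => aeval chartI k)
          (fun _ => rfl) (by simp) (by simp) () (by rw [cc_chartI]; exact hk))
      rw [Finset.sum_singleton, Finset.card_singleton, Nat.cast_one, sub_self, zero_mul, add_zero,
        zero_add, zero_add, ← mul_add, fac_add i 1 j 1 le_rfl le_rfl] at h
      exact h

/-- `∏_t (u ^ p - t v ^ r) ^ (m t)` -/
noncomputable def QQ (s : Finset ℂ) (mu : ℂ → ℕ) (p r : ℕ) : MvPolynomial (Fin 2) ℂ :=
  ∏ t ∈ s, (X 0 ^ p - C t * X 1 ^ r) ^ mu t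

/-- `∑_t (1 / (1 + m_t s) - 1)` -/
noncomputable def RR (s : Finset ℂ) (mu : ℂ → ℕ) : RatFunc ℂ := ∑ t ∈ s, (fac (mu t) 1 - 1)

theorem prod_pull {s : Finset ℂ} {mu : ℂ → ℕ} (x : MvPolynomial (Fin 2) ℂ)
    (y : ℂ → MvPolynomial (Fin 2) ℂ) (l : ℕ) :
    ∏ t ∈ s, (x ^ l * y t) ^ mu t = x ^ (l * ∑ t ∈ s, mu t) * ∏ t ∈ s, y t ^ mu t := by
  rw [Finset.mul_sum, ← Finset.prod_pow_eq_pow_sum, ← Finset.prod_mul_distrib]
  refine Finset.prod_congr rfl fun t _ => ?_
  rw [mul_pow, ← pow_mul]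

theorem cc_prod {s : Finset ℂ} {mu : ℂ → ℕ} (y : ℂ → MvPolynomial (Fin 2) ℂ)
    (h : ∀ t ∈ s, constantCoeff (y t) ≠ 0) : constantCoeff (∏ t ∈ s, y t ^ mu t) ≠ 0 := by
  rw [map_prod]
  refine Finset.prod_ne_zero_iff.2 fun t ht => ?_
  rw [map_pow]
  exact pow_ne_zero _ (h t ht)

/-- The case `p = r = 1`. -/
theorem lz_base (s : Finset ℂ) (mu : ℂ → ℕ) (hs : (0 : ℂ) ∉ s) (hmu : ∀ t ∈ s, 1 ≤ mu t)
    (hne : s.Nonempty) (κ : ℂ) (hκ : κ ≠ 0) (i j a₀ n₀ a₁ n₁ : ℕ)
    (hi : i = 0 ∨ (a₀ = 0 ∧ n₀ = 1)) (hj : j = 0 ∨ (a₁ = 0 ∧ n₁ = 1)) :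
    LocalZeta (fun _ : Unit => C κ * (X 0 ^ i * X 1 ^ j) * QQ s mu 1 1) a₀ n₀ a₁ n₁
      (fac (a₀ + i + (a₁ + j) + ∑ t ∈ s, mu t) (n₀ + n₁) *
        (fac (a₀ + i) n₀ + fac (a₁ + j) n₁ + RR s mu)) := by
  classical
  set K := ∑ t ∈ s, mu t with hK
  have hK1 : 1 ≤ K := by
    obtain ⟨t, ht⟩ := hne
    exact le_trans (hmu t ht) (Finset.single_le_sum (f := mu) (fun _ _ => Nat.zero_le _) ht)
  set F := fac (a₀ + i + (a₁ + j) + K) (n₀ + n₁) with hF
  have hEa : a₀ + a₁ + (i + j + K) = a₀ + i + (a₁ + j) + K := by ring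
  have h := LocalZeta.blowup (fun _ : Unit => C κ * (X 0 ^ i * X 1 ^ j) * QQ s mu 1 1)
    a₀ n₀ a₁ n₁ (i + j + K) (by omega)
    (fun c _ => C κ * (X 1 + C c) ^ j * ∏ t ∈ s, (1 - C t * (X 1 + C c)) ^ mu t)
    (fun _ => C κ * X 0 ^ i * ∏ t ∈ s, (X 0 - C t) ^ mu t)
    (fun c _ => by
      have e : ∏ t ∈ s, (X 0 - C t * (X 0 * (X 1 + C c)) : MvPolynomial (Fin 2) ℂ) ^ mu t =
          X 0 ^ K * ∏ t ∈ s, (1 - C t * (X 1 + C c)) ^ mu t := by
        have := prod_pull (s := s) (mu := mu) (X 0) (fun t => 1 - C t * (X 1 + C c)) 1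
        rw [one_mul] at this
        rw [← this]
        refine Finset.prod_congr rfl fun t _ => ?_
        congr 1
        ring
      rw [QQ, map_mul, map_mul, map_mul, map_pow, map_pow, aeval_X, aeval_X, map_prod, algHom_C,
        algebraMap_eq]
      simp only [map_pow, map_sub, map_mul, aeval_X, algHom_C, algebraMap_eq, chart,
        Matrix.cons_val_zero, Matrix.cons_val_one, pow_one]
      rw [e, mul_pow]
      ring)
    (fun _ => by
      have e : ∏ t ∈ s, (X 0 * X 1 - C t * X 1 : MvPolynomial (Fin 2) ℂ) ^ mu t =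
          X 1 ^ K * ∏ t ∈ s, (X 0 - C t) ^ mu t := by
        have := prod_pull (s := s) (mu := mu) (X 1) (fun t => X 0 - C t) 1
        rw [one_mul] at this
        rw [← this]
        refine Finset.prod_congr rfl fun t _ => ?_
        congr 1
        ring
      rw [QQ, map_mul, map_mul, map_mul, map_pow, map_pow, aeval_X, aeval_X, map_prod, algHom_C,
        algebraMap_eq]
      simp only [map_pow, map_sub, map_mul, aeval_X, algHom_C, algebraMap_eq, chartI,
        Matrix.cons_val_zero, Matrix.cons_val_one, pow_one]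
      rw [e, mul_pow]
      ring)
    (insert 0 (s.image fun t => t⁻¹)) (Finset.mem_insert_self _ _)
    (fun c hc => ⟨(), by
      rw [Finset.mem_insert, not_or] at hc
      rw [map_mul, map_mul, map_pow, map_add, constantCoeff_X, constantCoeff_C, constantCoeff_C,
        zero_add]
      refine mul_ne_zero (mul_ne_zero hκ (pow_ne_zero _ hc.1)) (cc_prod _ fun t ht => ?_)
      rw [map_sub, map_mul, map_add, constantCoeff_X, constantCoeff_C, constantCoeff_C, map_one,
        zero_add]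
      intro h0
      apply hc.2
      rw [Finset.mem_image]
      refine ⟨t, ht, ?_⟩
      have h1 : t * c = 1 := by linear_combination -h0
      exact (eq_inv_of_mul_eq_one_right h1).symm⟩)
    (fun c => if c = 0 then F * fac (a₁ + j) n₁ else F * fac (mu c⁻¹) 1)
    (fac (a₀ + i) n₀ * F)
    (by
      rw [if_pos rfl]
      have h1 := lz_mono 0 j (a₀ + a₁ + (i + j + K)) (n₀ + n₁) a₁ n₁
        (C κ * ∏ t ∈ s, (1 - C t * (X 1 + C 0)) ^ mu t) (by
          rw [map_mul, constantCoeff_C]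
          refine mul_ne_zero hκ (cc_prod _ fun t ht => ?_)
          simp) (Or.inl rfl) hj
      rw [add_zero, hEa] at h1
      rw [hEa]
      convert h1 using 2
      rw [map_zero]
      ring)
    (fun c hc hc0 => by
      rw [if_neg hc0]
      obtain ⟨t, ht, rfl⟩ := Finset.mem_image.1 ((Finset.mem_insert.1 hc).resolve_left hc0)
      have ht0 : t ≠ 0 := fun h0 => hs (h0 ▸ ht)
      rw [inv_inv]
      have h1 := lz_mono 0 (mu t) (a₀ + a₁ + (i + j + K)) (n₀ + n₁) 0 1
        (C κ * (X 1 + C t⁻¹) ^ j * C (-t) ^ mu t *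
          ∏ t' ∈ s.erase t, (1 - C t' * (X 1 + C t⁻¹)) ^ mu t') (by
          rw [map_mul, map_mul, map_mul, map_pow, map_pow, map_add, constantCoeff_X,
            constantCoeff_C, constantCoeff_C, constantCoeff_C, zero_add]
          refine mul_ne_zero (mul_ne_zero (mul_ne_zero hκ (pow_ne_zero _ (inv_ne_zero ht0)))
            (pow_ne_zero _ (neg_ne_zero.2 ht0))) (cc_prod _ fun t' ht' => ?_)
          rw [map_sub, map_mul, map_add, constantCoeff_X, constantCoeff_C, constantCoeff_C, map_one,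
            zero_add]
          intro h0
          apply Finset.ne_of_mem_erase ht'
          have h2 : t' * t⁻¹ = 1 := by linear_combination -h0
          rw [← div_eq_mul_inv, div_eq_one_iff_eq ht0] at h2
          exact h2) (Or.inl rfl) (Or.inr ⟨rfl, rfl⟩)
      rw [add_zero, zero_add, hEa] at h1
      rw [hEa]
      convert h1 using 2
      rw [← Finset.mul_prod_erase s _ ht]
      have e : (1 - C t * (X 1 + C t⁻¹) : MvPolynomial (Fin 2) ℂ) = X 1 * C (-t) := by
        have e1 : (C t * C t⁻¹ : MvPolynomial (Fin 2) ℂ) = 1 := by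
          rw [← C_mul, mul_inv_cancel₀ ht0, map_one]
        rw [map_neg]
        linear_combination -e1
      rw [e, mul_pow]
      ring)
    (by
      have h1 := lz_mono i 0 a₀ n₀ (a₀ + a₁ + (i + j + K)) (n₀ + n₁)
        (C κ * ∏ t ∈ s, (X 0 - C t) ^ mu t) (by
          rw [map_mul, constantCoeff_C]
          refine mul_ne_zero hκ (cc_prod _ fun t ht => ?_)
          rw [map_sub, constantCoeff_X, constantCoeff_C, zero_sub]
          exact neg_ne_zero.2 fun h0 => hs (h0 ▸ ht)) hi (Or.inl rfl)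
      rw [add_zero, hEa] at h1
      rw [hEa]
      convert h1 using 2
      ring)
  have h0im : (0 : ℂ) ∉ s.image fun t => t⁻¹ := by
    intro h0
    obtain ⟨t, ht, h1⟩ := Finset.mem_image.1 h0
    rw [inv_eq_zero] at h1
    exact hs (h1 ▸ ht)
  have hinj : Set.InjOn (fun t : ℂ => t⁻¹) s := fun x _ y _ hxy => inv_injective hxy
  rw [Finset.sum_insert h0im, if_pos rfl, Finset.card_insert_of_notMem h0im,
    Finset.sum_image hinj, Finset.card_image_of_injOn hinj, hEa] at h
  have e : ∑ t ∈ s, (if t⁻¹ = 0 then F * fac (a₁ + j) n₁ else F * fac (mu (t⁻¹)⁻¹) 1) =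
      F * (RR s mu + s.card) := by
    rw [RR, Finset.sum_sub_distrib, Finset.sum_const, nsmul_eq_mul, mul_one, sub_add_cancel,
      Finset.mul_sum]
    refine Finset.sum_congr rfl fun t ht => ?_
    have ht0 : t⁻¹ ≠ 0 := inv_ne_zero fun h0 => hs (h0 ▸ ht)
    rw [if_neg ht0, inv_inv]
  rw [e, ← hF] at h
  convert h using 1
  push_cast
  ring

end Pool.Agent.U184
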