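import Pool.Agent.U184.LZ2

set_option autoImplicit false

/-! # The contribution of a weighted homogeneous point of a plane curve -/

namespace Pool.Agent.U184

open MvPolynomial Pool.Agent.W574.SM

theorem val_gt (N1 N2 n₀ n₁ r e K : ℕ) (R : RatFunc ℂ) (h0 : 1 ≤ n₀) (h1 : 1 ≤ n₁) (hr : 1 ≤ r) :
    fac N1 n₀ * fac (N1 + N2 + r * K) (n₀ + n₁) +
      fac (r * (N1 + N2 + r * K) + e * N2 + e * r * K) (r * (n₀ + n₁) + e * n₁) *
        (e * fac (N1 + N2 + r * K) (n₀ + n₁) + R) =
    fac (r * N1 + (r + e) * N2 + (r + e) * r * K) (r * n₀ + (r + e) * n₁) *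
      ((r + e : ℕ) * fac N1 n₀ + R) := by
  have e1 : r * (N1 + N2 + r * K) + e * N2 + e * r * K = r * N1 + (r + e) * N2 + (r + e) * r * K := by
    ring
  have e2 : r * (n₀ + n₁) + e * n₁ = r * n₀ + (r + e) * n₁ := by ring
  rw [e1, e2]
  have hA := dn_ne N1 n₀ h0
  have hC := dn_ne (N1 + N2 + r * K) (n₀ + n₁) (by omega)
  have hE := dn_ne (r * N1 + (r + e) * N2 + (r + e) * r * K) (r * n₀ + (r + e) * n₁)
    (by nlinarith)
  unfold fac
  have key : ((r * n₀ + (r + e) * n₁ : ℕ) : RatFunc ℂ) +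
        ((r * N1 + (r + e) * N2 + (r + e) * r * K : ℕ) : RatFunc ℂ) * RatFunc.X =
      ((r + e : ℕ) : RatFunc ℂ) * (((n₀ + n₁ : ℕ) : RatFunc ℂ) + ((N1 + N2 + r * K : ℕ) : RatFunc ℂ) * RatFunc.X) -
        (e : RatFunc ℂ) * ((n₀ : RatFunc ℂ) + (N1 : RatFunc ℂ) * RatFunc.X) := by
    push_cast
    ring
  generalize hA' : ((n₀ : RatFunc ℂ) + (N1 : RatFunc ℂ) * RatFunc.X) = A at *
  generalize hC' : (((n₀ + n₁ : ℕ) : RatFunc ℂ) + ((N1 + N2 + r * K : ℕ) : RatFunc ℂ) * RatFunc.X)
    = C' at *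
  generalize hE' : ((r * n₀ + (r + e) * n₁ : ℕ) : RatFunc ℂ) +
        ((r * N1 + (r + e) * N2 + (r + e) * r * K : ℕ) : RatFunc ℂ) * RatFunc.X = E at *
  field_simp
  rw [key]
  push_cast
  ring

theorem val_lt (N1 N2 n₀ n₁ p e K : ℕ) (R : RatFunc ℂ) (h0 : 1 ≤ n₀) (h1 : 1 ≤ n₁) (hp : 1 ≤ p) :
    fac N2 n₁ * fac (N1 + N2 + p * K) (n₀ + n₁) +
      fac (e * N1 + p * (N1 + N2 + p * K) + p * e * K) (e * n₀ + p * (n₀ + n₁)) *
        (e * fac (N1 + N2 + p * K) (n₀ + n₁) + R) =
    fac ((p + e) * N1 + p * N2 + p * (p + e) * K) ((p + e) * n₀ + p * n₁) *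
      ((p + e : ℕ) * fac N2 n₁ + R) := by
  have e1 : e * N1 + p * (N1 + N2 + p * K) + p * e * K = (p + e) * N1 + p * N2 + p * (p + e) * K := by
    ring
  have e2 : e * n₀ + p * (n₀ + n₁) = (p + e) * n₀ + p * n₁ := by ring
  rw [e1, e2]
  have hA := dn_ne N2 n₁ h1
  have hC := dn_ne (N1 + N2 + p * K) (n₀ + n₁) (by omega)
  have hE := dn_ne ((p + e) * N1 + p * N2 + p * (p + e) * K) ((p + e) * n₀ + p * n₁)
    (by nlinarith)
  unfold fac
  have key : (((p + e) * n₀ + p * n₁ : ℕ) : RatFunc ℂ) +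
        (((p + e) * N1 + p * N2 + p * (p + e) * K : ℕ) : RatFunc ℂ) * RatFunc.X =
      ((p + e : ℕ) : RatFunc ℂ) * (((n₀ + n₁ : ℕ) : RatFunc ℂ) + ((N1 + N2 + p * K : ℕ) : RatFunc ℂ) * RatFunc.X) -
        (e : RatFunc ℂ) * ((n₁ : RatFunc ℂ) + (N2 : RatFunc ℂ) * RatFunc.X) := by
    push_cast
    ring
  generalize hA' : ((n₁ : RatFunc ℂ) + (N2 : RatFunc ℂ) * RatFunc.X) = A at *
  generalize hC' : (((n₀ + n₁ : ℕ) : RatFunc ℂ) + ((N1 + N2 + p * K : ℕ) : RatFunc ℂ) * RatFunc.X)
    = C' at *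
  generalize hE' : (((p + e) * n₀ + p * n₁ : ℕ) : RatFunc ℂ) +
        (((p + e) * N1 + p * N2 + p * (p + e) * K : ℕ) : RatFunc ℂ) * RatFunc.X = E at *
  field_simp
  rw [key]
  push_cast
  ring

theorem sum_mu_pos {s : Finset ℂ} {mu : ℂ → ℕ} (hmu : ∀ t ∈ s, 1 ≤ mu t) (hne : s.Nonempty) :
    1 ≤ ∑ t ∈ s, mu t := by
  obtain ⟨t, ht⟩ := hne
  exact le_trans (hmu t ht) (Finset.single_le_sum (f := mu) (fun _ _ => Nat.zero_le _) ht)

/-- The contribution of the point: the ideal `u ^ a₀ v ^ a₁ (g)`, where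
`g = κ u ^ i v ^ j ∏_t (u ^ p - t v ^ r) ^ (m_t)`. -/
theorem lz_main (s : Finset ℂ) (mu : ℂ → ℕ) (hs : (0 : ℂ) ∉ s) (hmu : ∀ t ∈ s, 1 ≤ mu t)
    (hne : s.Nonempty) (κ : ℂ) (hκ : κ ≠ 0) (n : ℕ) : ∀ (p r : ℕ), p + r ≤ n → 1 ≤ p → 1 ≤ r →
    Nat.Coprime p r → ∀ (i j a₀ n₀ a₁ n₁ : ℕ), 1 ≤ n₀ → 1 ≤ n₁ →
    (i = 0 ∨ (a₀ = 0 ∧ n₀ = 1)) → (j = 0 ∨ (a₁ = 0 ∧ n₁ = 1)) →
    LocalZeta (fun _ : Unit => C κ * (X 0 ^ i * X 1 ^ j) * QQ s mu p r) a₀ n₀ a₁ n₁
      (fac (r * (a₀ + i) + p * (a₁ + j) + p * r * ∑ t ∈ s, mu t) (r * n₀ + p * n₁) *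
        (p * fac (a₀ + i) n₀ + r * fac (a₁ + j) n₁ + RR s mu)) := by
  classical
  induction n with
  | zero => intro p r h hp hr; omega
  | succ n ih =>
    intro p r h hp hr hcop i j a₀ n₀ a₁ n₁ hn₀ hn₁ hi hj
    set K := ∑ t ∈ s, mu t with hK
    have hK1 : 1 ≤ K := sum_mu_pos hmu hne
    rcases Nat.lt_trichotomy p r with hlt | heq | hgt
    · -- `p < r`
      obtain ⟨e', rfl⟩ : ∃ e', r = p + e' := ⟨r - p, by omega⟩
      have hcop' : Nat.Coprime p e' := by
        rw [Nat.coprime_self_add_right] at hcop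
        exact hcop
      have hpK : 1 ≤ p * K := Nat.mul_pos hp hK1
      have h := LocalZeta.blowup (fun _ : Unit => C κ * (X 0 ^ i * X 1 ^ j) * QQ s mu p (p + e'))
        a₀ n₀ a₁ n₁ (i + j + p * K) (by omega)
        (fun c _ => C κ * (X 1 + C c) ^ j *
          ∏ t ∈ s, (1 - C t * (X 0 ^ e' * (X 1 + C c) ^ (p + e'))) ^ mu t)
        (fun _ => C κ * X 0 ^ i * QQ s mu p e')
        (fun c _ => by
          have e0 : ∏ t ∈ s, ((X 0 : MvPolynomial (Fin 2) ℂ) ^ p -
              C t * (X 0 * (X 1 + C c)) ^ (p + e')) ^ mu t =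
              X 0 ^ (p * K) *
                ∏ t ∈ s, (1 - C t * (X 0 ^ e' * (X 1 + C c) ^ (p + e'))) ^ mu t := by
            rw [← prod_pull (s := s) (mu := mu) (X 0)
              (fun t => 1 - C t * (X 0 ^ e' * (X 1 + C c) ^ (p + e'))) p]
            refine Finset.prod_congr rfl fun t _ => ?_
            congr 1
            rw [mul_pow, pow_add]
            ring
          rw [QQ, map_mul, map_mul, map_mul, map_pow, map_pow, aeval_X, aeval_X, map_prod, algHom_C,
            algebraMap_eq]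
          simp only [map_pow, map_sub, map_mul, aeval_X, algHom_C, algebraMap_eq, chart,
            Matrix.cons_val_zero, Matrix.cons_val_one]
          rw [e0, mul_pow]
          ring)
        (fun _ => by
          have e0 : ∏ t ∈ s, (((X 0 : MvPolynomial (Fin 2) ℂ) * X 1) ^ p -
              C t * X 1 ^ (p + e')) ^ mu t = X 1 ^ (p * K) * QQ s mu p e' := by
            rw [QQ, ← prod_pull (s := s) (mu := mu) (X 1) (fun t => X 0 ^ p - C t * X 1 ^ e') p]
            refine Finset.prod_congr rfl fun t _ => ?_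
            congr 1
            rw [mul_pow, pow_add]
            ring
          rw [QQ, map_mul, map_mul, map_mul, map_pow, map_pow, aeval_X, aeval_X, map_prod, algHom_C,
            algebraMap_eq]
          simp only [map_pow, map_sub, map_mul, aeval_X, algHom_C, algebraMap_eq, chartI,
            Matrix.cons_val_zero, Matrix.cons_val_one]
          rw [e0, mul_pow]
          ring)
        {0} (Finset.mem_singleton_self 0)
        (fun c hc => ⟨(), by
          rw [Finset.mem_singleton] at hc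
          rw [map_mul, map_mul, map_pow, map_add, constantCoeff_X, constantCoeff_C, constantCoeff_C,
            zero_add]
          refine mul_ne_zero (mul_ne_zero hκ (pow_ne_zero _ hc)) (cc_prod _ fun t ht => ?_)
          simp [zero_pow (by omega : e' ≠ 0)]⟩)
        (fun _ => fac (a₀ + a₁ + (i + j + p * K)) (n₀ + n₁) * fac (a₁ + j) n₁)
        (fac (e' * (a₀ + i) + p * (a₀ + a₁ + (i + j + p * K) + 0) + p * e' * K)
            (e' * n₀ + p * (n₀ + n₁)) *
          (p * fac (a₀ + i) n₀ + e' * fac (a₀ + a₁ + (i + j + p * K) + 0) (n₀ + n₁) + RR s mu))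
        (by
          have h1 := lz_mono 0 j (a₀ + a₁ + (i + j + p * K)) (n₀ + n₁) a₁ n₁
            (C κ * ∏ t ∈ s, (1 - C t * (X 0 ^ e' * (X 1 + C 0) ^ (p + e'))) ^ mu t) (by
              rw [map_mul, constantCoeff_C]
              refine mul_ne_zero hκ (cc_prod _ fun t ht => ?_)
              simp [zero_pow (by omega : e' ≠ 0)]) (Or.inl rfl) hj
          rw [add_zero] at h1
          convert h1 using 2
          rw [map_zero]
          ring)
        (fun c hc hc0 => absurd (Finset.mem_singleton.1 hc) hc0)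
        (by
          have h1 := ih p e' (by omega) hp (by omega) hcop' i 0 a₀ n₀
            (a₀ + a₁ + (i + j + p * K)) (n₀ + n₁) hn₀ (by omega) hi (Or.inl rfl)
          convert h1 using 2
          ring)
      rw [Finset.sum_singleton, Finset.card_singleton, Nat.cast_one, sub_self, zero_mul,
        add_zero] at h
      have hv := val_lt (a₀ + i) (a₁ + j) n₀ n₁ p e' K (p * fac (a₀ + i) n₀ + RR s mu) hn₀ hn₁ hp
      have hN : a₀ + a₁ + (i + j + p * K) = a₀ + i + (a₁ + j) + p * K := by ring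
      rw [add_zero, hN] at h
      convert h using 1
      linear_combination -hv
    · -- `p = r = 1`
      subst heq
      have hp1 : p = 1 := by rwa [Nat.coprime_self] at hcop
      subst hp1
      have h := lz_base s mu hs hmu hne κ hκ i j a₀ n₀ a₁ n₁ hi hj
      simp only [one_mul, Nat.cast_one]
      exact h
    · -- `p > r`
      obtain ⟨e', rfl⟩ : ∃ e', p = r + e' := ⟨p - r, by omega⟩
      have hcop' : Nat.Coprime e' r := by
        rw [Nat.coprime_self_add_left] at hcop
        exact hcop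
      have hpK : 1 ≤ r * K := Nat.mul_pos hr hK1
      have h := LocalZeta.blowup (fun _ : Unit => C κ * (X 0 ^ i * X 1 ^ j) * QQ s mu (r + e') r)
        a₀ n₀ a₁ n₁ (i + j + r * K) (by omega)
        (fun c _ => C κ * (X 1 + C c) ^ j *
          ∏ t ∈ s, (X 0 ^ e' - C t * (X 1 + C c) ^ r) ^ mu t)
        (fun _ => C κ * X 0 ^ i * ∏ t ∈ s, (X 0 ^ (r + e') * X 1 ^ e' - C t) ^ mu t)
        (fun c _ => by
          have e0 : ∏ t ∈ s, ((X 0 : MvPolynomial (Fin 2) ℂ) ^ (r + e') -
              C t * (X 0 * (X 1 + C c)) ^ r) ^ mu t =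
              X 0 ^ (r * K) * ∏ t ∈ s, (X 0 ^ e' - C t * (X 1 + C c) ^ r) ^ mu t := by
            rw [← prod_pull (s := s) (mu := mu) (X 0)
              (fun t => X 0 ^ e' - C t * (X 1 + C c) ^ r) r]
            refine Finset.prod_congr rfl fun t _ => ?_
            congr 1
            rw [mul_pow, pow_add]
            ring
          rw [QQ, map_mul, map_mul, map_mul, map_pow, map_pow, aeval_X, aeval_X, map_prod, algHom_C,
            algebraMap_eq]
          simp only [map_pow, map_sub, map_mul, aeval_X, algHom_C, algebraMap_eq, chart,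
            Matrix.cons_val_zero, Matrix.cons_val_one]
          rw [e0, mul_pow]
          ring)
        (fun _ => by
          have e0 : ∏ t ∈ s, (((X 0 : MvPolynomial (Fin 2) ℂ) * X 1) ^ (r + e') -
              C t * X 1 ^ r) ^ mu t =
              X 1 ^ (r * K) * ∏ t ∈ s, (X 0 ^ (r + e') * X 1 ^ e' - C t) ^ mu t := by
            rw [← prod_pull (s := s) (mu := mu) (X 1)
              (fun t => X 0 ^ (r + e') * X 1 ^ e' - C t) r]
            refine Finset.prod_congr rfl fun t _ => ?_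
            congr 1
            rw [mul_pow, pow_add (X 1)]
            ring
          rw [QQ, map_mul, map_mul, map_mul, map_pow, map_pow, aeval_X, aeval_X, map_prod, algHom_C,
            algebraMap_eq]
          simp only [map_pow, map_sub, map_mul, aeval_X, algHom_C, algebraMap_eq, chartI,
            Matrix.cons_val_zero, Matrix.cons_val_one]
          rw [e0, mul_pow]
          ring)
        {0} (Finset.mem_singleton_self 0)
        (fun c hc => ⟨(), by
          rw [Finset.mem_singleton] at hc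
          rw [map_mul, map_mul, map_pow, map_add, constantCoeff_X, constantCoeff_C, constantCoeff_C,
            zero_add]
          refine mul_ne_zero (mul_ne_zero hκ (pow_ne_zero _ hc)) (cc_prod _ fun t ht => ?_)
          have ht0 : t ≠ 0 := fun h0 => hs (h0 ▸ ht)
          simp [zero_pow (by omega : e' ≠ 0), ht0, hc]⟩)
        (fun _ => fac (r * (a₀ + a₁ + (i + j + r * K) + 0) + e' * (a₁ + j) + e' * r * K)
            (r * (n₀ + n₁) + e' * n₁) *
          (e' * fac (a₀ + a₁ + (i + j + r * K) + 0) (n₀ + n₁) + r * fac (a₁ + j) n₁ + RR s mu))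
        (fac (a₀ + i) n₀ * fac (a₀ + a₁ + (i + j + r * K)) (n₀ + n₁))
        (by
          have h1 := ih e' r (by omega) (by omega) hr hcop' 0 j
            (a₀ + a₁ + (i + j + r * K)) (n₀ + n₁) a₁ n₁ (by omega) hn₁ (Or.inl rfl) hj
          convert h1 using 2
          rw [QQ, map_zero, add_zero]
          ring)
        (fun c hc hc0 => absurd (Finset.mem_singleton.1 hc) hc0)
        (by
          have h1 := lz_mono i 0 a₀ n₀ (a₀ + a₁ + (i + j + r * K)) (n₀ + n₁)
            (C κ * ∏ t ∈ s, (X 0 ^ (r + e') * X 1 ^ e' - C t) ^ mu t) (by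
              rw [map_mul, constantCoeff_C]
              refine mul_ne_zero hκ (cc_prod _ fun t ht => ?_)
              have ht0 : t ≠ 0 := fun h0 => hs (h0 ▸ ht)
              simp [zero_pow (by omega : e' ≠ 0), ht0]) hi (Or.inl rfl)
          rw [add_zero (a₀ + a₁ + (i + j + r * K))] at h1
          convert h1 using 2
          ring)
      rw [Finset.sum_singleton, Finset.card_singleton, Nat.cast_one, sub_self, zero_mul,
        add_zero] at h
      have hv := val_gt (a₀ + i) (a₁ + j) n₀ n₁ r e' K (r * fac (a₁ + j) n₁ + RR s mu) hn₀ hn₁ hr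
      have hN : a₀ + a₁ + (i + j + r * K) = a₀ + i + (a₁ + j) + r * K := by ring
      rw [add_zero, hN] at h
      convert h using 1
      linear_combination -hv

end Pool.Agent.U184
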