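import Pool.Agent.U184.LF2
import Pool.Agent.U184.LZ3
import Pool.Agent.N103.PointA

set_option autoImplicit false
set_option linter.unusedSectionVars false

/-! # The twisted contribution of a weighted homogeneous point of a plane curve -/

namespace Pool.Agent.U184

open MvPolynomial Pool.Agent.W574.SM
open Pool.Agent.N103 (facT)

theorem fdata_T (e : ℕ) : FData (facT e) where
  one := by
    rw [facT, if_pos (dvd_zero e)]
    unfold fac
    simp
  add := by
    intro a n b l hn hl
    unfold facT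
    by_cases ha : e ∣ a
    · by_cases hb : e ∣ b
      · rw [if_pos ha, if_pos hb, if_pos (dvd_add ha hb)]
        exact fac_add a n b l hn hl
      · rw [if_pos ha, if_neg hb, if_neg (fun h => hb ((Nat.dvd_add_right ha).1 h))]
        ring
    · by_cases hb : e ∣ b
      · rw [if_neg ha, if_pos hb, if_neg (fun h => ha ((Nat.dvd_add_left hb).1 h))]
        ring
      · rw [if_neg ha, if_neg hb]
        ring

/-- The value of the twisted contribution. -/
noncomputable def VT (e : ℕ) (s : Finset ℂ) (mu : ℂ → ℕ) (p r N1 n0 N2 n1 : ℕ) : RatFunc ℂ :=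
  fac (r * N1 + p * N2 + p * r * ∑ t ∈ s, mu t) (r * n0 + p * n1) *
    ((if e ∣ N1 ∧ e ∣ N2 + r * ∑ t ∈ s, mu t then (p : RatFunc ℂ) * fac N1 n0 else 0) +
      (if e ∣ N2 ∧ e ∣ N1 + p * ∑ t ∈ s, mu t then (r : RatFunc ℂ) * fac N2 n1 else 0) +
      (if e ∣ r * N1 + p * N2 + p * r * ∑ t ∈ s, mu t then RRF (facT e) s mu else 0))

theorem vt_base (e : ℕ) (s : Finset ℂ) (mu : ℂ → ℕ) (N1 n0 N2 n1 : ℕ) :
    facT e (N1 + N2 + ∑ t ∈ s, mu t) (n0 + n1) * (facT e N1 n0 + facT e N2 n1 +
      RRF (facT e) s mu) = VT e s mu 1 1 N1 n0 N2 n1 := by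
  unfold VT
  set K := ∑ t ∈ s, mu t with hK
  simp only [one_mul, Nat.cast_one]
  by_cases hD : e ∣ N1 + N2 + K
  · have c1 : (e ∣ N1 ∧ e ∣ N2 + K) ↔ e ∣ N1 := by
      refine ⟨fun h => h.1, fun h => ⟨h, ?_⟩⟩
      rw [add_assoc] at hD
      exact (Nat.dvd_add_right h).1 hD
    have c2 : (e ∣ N2 ∧ e ∣ N1 + K) ↔ e ∣ N2 := by
      refine ⟨fun h => h.1, fun h => ⟨h, ?_⟩⟩
      have h1 : N1 + N2 + K = N2 + (N1 + K) := by ring
      rw [h1] at hD
      exact (Nat.dvd_add_right h).1 hD
    rw [if_pos hD]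
    simp only [c1, c2]
    unfold facT
    rw [if_pos hD]
  · have c1 : ¬ (e ∣ N1 ∧ e ∣ N2 + K) := fun h => hD (by
      rw [add_assoc]
      exact dvd_add h.1 h.2)
    have c2 : ¬ (e ∣ N2 ∧ e ∣ N1 + K) := fun h => hD (by
      have h1 : N1 + N2 + K = N2 + (N1 + K) := by ring
      rw [h1]
      exact dvd_add h.1 h.2)
    rw [if_neg hD, if_neg c1, if_neg c2]
    have h0 : facT e (N1 + N2 + K) (n0 + n1) = 0 := by
      unfold facT
      rw [if_neg hD]
    rw [h0]
    ring

theorem vt_lt (e : ℕ) (s : Finset ℂ) (mu : ℂ → ℕ) (p e' N1 n0 N2 n1 : ℕ) (h0 : 1 ≤ n0)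
    (h1 : 1 ≤ n1) (hp : 1 ≤ p) :
    facT e (N1 + N2 + p * ∑ t ∈ s, mu t) (n0 + n1) * facT e N2 n1 +
      VT e s mu p e' N1 n0 (N1 + N2 + p * ∑ t ∈ s, mu t) (n0 + n1) =
    VT e s mu p (p + e') N1 n0 N2 n1 := by
  unfold VT
  set K := ∑ t ∈ s, mu t with hK
  have eD : e' * N1 + p * (N1 + N2 + p * K) + p * e' * K =
      (p + e') * N1 + p * N2 + p * (p + e') * K := by ring
  have eν : e' * n0 + p * (n0 + n1) = (p + e') * n0 + p * n1 := by ring
  have c1 : (e ∣ N1 ∧ e ∣ N1 + N2 + p * K + e' * K) ↔ (e ∣ N1 ∧ e ∣ N2 + (p + e') * K) := by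
    refine and_congr_right fun h => ?_
    have h2 : N1 + N2 + p * K + e' * K = N1 + (N2 + (p + e') * K) := by ring
    rw [h2, Nat.dvd_add_right h]
  have c2 : (e ∣ N1 + N2 + p * K ∧ e ∣ N1 + p * K) ↔ (e ∣ N2 ∧ e ∣ N1 + p * K) := by
    refine and_congr_left fun h => ?_
    have h2 : N1 + N2 + p * K = N2 + (N1 + p * K) := by ring
    rw [h2, Nat.dvd_add_left h]
  rw [eD, eν]
  simp only [c1, c2]
  have hv := val_lt N1 N2 n0 n1 p e' K 0 h0 h1 hp
  rw [eD, eν, add_zero, add_zero] at hv
  by_cases h2 : e ∣ N2 ∧ e ∣ N1 + p * K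
  · have h3 : e ∣ N1 + N2 + p * K := (c2.2 h2).1
    have f1 : facT e (N1 + N2 + p * K) (n0 + n1) = fac (N1 + N2 + p * K) (n0 + n1) := by
      unfold facT
      rw [if_pos h3]
    have f2 : facT e N2 n1 = fac N2 n1 := by
      unfold facT
      rw [if_pos h2.1]
    rw [if_pos h2, if_pos h2, f1, f2]
    linear_combination hv
  · have f0 : facT e (N1 + N2 + p * K) (n0 + n1) * facT e N2 n1 = 0 := by
      unfold facT
      by_cases h4 : e ∣ N2
      · have h5 : ¬ e ∣ N1 + N2 + p * K := by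
          intro h6
          apply h2
          refine ⟨h4, ?_⟩
          have h7 : N1 + N2 + p * K = N2 + (N1 + p * K) := by ring
          rw [h7] at h6
          exact (Nat.dvd_add_right h4).1 h6
        rw [if_neg h5, zero_mul]
      · rw [if_neg h4, mul_zero]
    rw [if_neg h2, if_neg h2, f0]
    ring

theorem vt_gt (e : ℕ) (s : Finset ℂ) (mu : ℂ → ℕ) (r e' N1 n0 N2 n1 : ℕ) (h0 : 1 ≤ n0)
    (h1 : 1 ≤ n1) (hr : 1 ≤ r) :
    facT e N1 n0 * facT e (N1 + N2 + r * ∑ t ∈ s, mu t) (n0 + n1) +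
      VT e s mu e' r (N1 + N2 + r * ∑ t ∈ s, mu t) (n0 + n1) N2 n1 =
    VT e s mu (r + e') r N1 n0 N2 n1 := by
  unfold VT
  set K := ∑ t ∈ s, mu t with hK
  have eD : r * (N1 + N2 + r * K) + e' * N2 + e' * r * K =
      r * N1 + (r + e') * N2 + (r + e') * r * K := by ring
  have eν : r * (n0 + n1) + e' * n1 = r * n0 + (r + e') * n1 := by ring
  have c1 : (e ∣ N1 + N2 + r * K ∧ e ∣ N2 + r * K) ↔ (e ∣ N1 ∧ e ∣ N2 + r * K) := by
    refine and_congr_left fun h => ?_
    rw [add_assoc, Nat.dvd_add_left h]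
  have c2 : (e ∣ N2 ∧ e ∣ N1 + N2 + r * K + e' * K) ↔ (e ∣ N2 ∧ e ∣ N1 + (r + e') * K) := by
    refine and_congr_right fun h => ?_
    have h2 : N1 + N2 + r * K + e' * K = N2 + (N1 + (r + e') * K) := by ring
    rw [h2, Nat.dvd_add_right h]
  rw [eD, eν]
  simp only [c1, c2]
  have hv := val_gt N1 N2 n0 n1 r e' K 0 h0 h1 hr
  rw [eD, eν, add_zero, add_zero] at hv
  by_cases h2 : e ∣ N1 ∧ e ∣ N2 + r * K
  · have h3 : e ∣ N1 + N2 + r * K := (c1.2 h2).1
    have f1 : facT e (N1 + N2 + r * K) (n0 + n1) = fac (N1 + N2 + r * K) (n0 + n1) := by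
      unfold facT
      rw [if_pos h3]
    have f2 : facT e N1 n0 = fac N1 n0 := by
      unfold facT
      rw [if_pos h2.1]
    rw [if_pos h2, if_pos h2, f1, f2]
    linear_combination hv
  · have f0 : facT e N1 n0 * facT e (N1 + N2 + r * K) (n0 + n1) = 0 := by
      unfold facT
      by_cases h4 : e ∣ N1
      · have h5 : ¬ e ∣ N1 + N2 + r * K := by
          intro h6
          apply h2
          refine ⟨h4, ?_⟩
          rw [add_assoc] at h6
          exact (Nat.dvd_add_right h4).1 h6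
        rw [if_neg h5, mul_zero]
      · rw [if_neg h4, zero_mul]
    rw [if_neg h2, if_neg h2, f0]
    ring

/-- The contribution of the point: the ideal `u ^ a₀ v ^ a₁ (g)`, where
`g = κ u ^ i v ^ j ∏_t (u ^ p - t v ^ r) ^ (m_t)`. -/
theorem lf_main (e : ℕ) (s : Finset ℂ) (mu : ℂ → ℕ) (hs : (0 : ℂ) ∉ s) (hmu : ∀ t ∈ s, 1 ≤ mu t)
    (hne : s.Nonempty) (κ : ℂ) (hκ : κ ≠ 0) (n : ℕ) : ∀ (p r : ℕ), p + r ≤ n → 1 ≤ p → 1 ≤ r →
    Nat.Coprime p r → ∀ (i j a₀ n₀ a₁ n₁ : ℕ), 1 ≤ n₀ → 1 ≤ n₁ →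
    (i = 0 ∨ (a₀ = 0 ∧ n₀ = 1)) → (j = 0 ∨ (a₁ = 0 ∧ n₁ = 1)) →
    LocF (facT e) (fun _ : Unit => C κ * (X 0 ^ i * X 1 ^ j) * QQ s mu p r) a₀ n₀ a₁ n₁
      (VT e s mu p r (a₀ + i) n₀ (a₁ + j) n₁) := by
  classical
  induction n with
  | zero => intro p r h hp hr; omega
  | succ n ih =>
    intro p r h hp hr hcop i j a₀ n₀ a₁ n₁ hn₀ hn₁ hi hj
    set K := ∑ t ∈ s, mu t with hK
    have hK1 : 1 ≤ K := sum_mu_pos hmu hne
    rcases Nat.lt_trichotomy p r with hlt | heq | hgt
    · -- `p < r`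
      obtain ⟨e', rfl⟩ : ∃ e', r = p + e' := ⟨r - p, by omega⟩
      have hcop' : Nat.Coprime p e' := by
        rw [Nat.coprime_self_add_right] at hcop
        exact hcop
      have hpK : 1 ≤ p * K := Nat.mul_pos hp hK1
      have h := LocF.blowup (fun _ : Unit => C κ * (X 0 ^ i * X 1 ^ j) * QQ s mu p (p + e'))
        a₀ n₀ a₁ n₁ (i + j + p * K) (by omega)
        (fun c _ => C κ * (X 1 + C c) ^ j *
          ∏ t ∈ s, (1 - C t * (X 0 ^ e' * (X 1 + C c) ^ (p + e'))) ^ mu t)
        (fun _ => C κ * X 0 ^ i * QQ s mu p e')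
        (fun c _ => by
          have e0 : ∏ t ∈ s, ((X 0 : MvPolynomial (Fin 2) ℂ) ^ p -
              C t * (X 0 * (X 1 + C c)) ^ (p + e')) ^ mu t =
              X 0 ^ (p * K) *
                ∏ t ∈ s, (1 - C t * (X 0 ^ e' * (X 1 + C c) ^ (p + e'))) ^ mu t := by
            rw [← prod_pull (s := s) (mu := mu) (X 0)
              (fun t => 1 - C t * (X 0 ^ e' * (X 1 + C c) ^ (p + e'))) p]
            refine Finset.prod_congr rfl fun t _ => ?_
            congr 1
            rw [mul_pow, pow_add]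
            ring
          rw [QQ, map_mul, map_mul, map_mul, map_pow, map_pow, aeval_X, aeval_X, map_prod, algHom_C,
            algebraMap_eq]
          simp only [map_pow, map_sub, map_mul, aeval_X, algHom_C, algebraMap_eq, chart,
            Matrix.cons_val_zero, Matrix.cons_val_one]
          rw [e0, mul_pow]
          ring)
        (fun _ => by
          have e0 : ∏ t ∈ s, (((X 0 : MvPolynomial (Fin 2) ℂ) * X 1) ^ p -
              C t * X 1 ^ (p + e')) ^ mu t = X 1 ^ (p * K) * QQ s mu p e' := by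
            rw [QQ, ← prod_pull (s := s) (mu := mu) (X 1) (fun t => X 0 ^ p - C t * X 1 ^ e') p]
            refine Finset.prod_congr rfl fun t _ => ?_
            congr 1
            rw [mul_pow, pow_add]
            ring
          rw [QQ, map_mul, map_mul, map_mul, map_pow, map_pow, aeval_X, aeval_X, map_prod, algHom_C,
            algebraMap_eq]
          simp only [map_pow, map_sub, map_mul, aeval_X, algHom_C, algebraMap_eq, chartI,
            Matrix.cons_val_zero, Matrix.cons_val_one]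
          rw [e0, mul_pow]
          ring)
        {0} (Finset.mem_singleton_self 0)
        (fun c hc => ⟨(), by
          rw [Finset.mem_singleton] at hc
          rw [map_mul, map_mul, map_pow, map_add, constantCoeff_X, constantCoeff_C, constantCoeff_C,
            zero_add]
          refine mul_ne_zero (mul_ne_zero hκ (pow_ne_zero _ hc)) (cc_prod _ fun t ht => ?_)
          simp [zero_pow (by omega : e' ≠ 0)]⟩)
        (fun _ => facT e (a₀ + a₁ + (i + j + p * K)) (n₀ + n₁) * facT e (a₁ + j) n₁)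
        (VT e s mu p e' (a₀ + i) n₀ (a₀ + a₁ + (i + j + p * K) + 0) (n₀ + n₁))
        (by
          have h1 := lf_mono (fdata_T e) 0 j (a₀ + a₁ + (i + j + p * K)) (n₀ + n₁) a₁ n₁
            (C κ * ∏ t ∈ s, (1 - C t * (X 0 ^ e' * (X 1 + C 0) ^ (p + e'))) ^ mu t) (by
              rw [map_mul, constantCoeff_C]
              refine mul_ne_zero hκ (cc_prod _ fun t ht => ?_)
              simp [zero_pow (by omega : e' ≠ 0)]) (Or.inl rfl) hj
          rw [add_zero] at h1
          convert h1 using 2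
          rw [map_zero]
          ring)
        (fun c hc hc0 => absurd (Finset.mem_singleton.1 hc) hc0)
        (by
          have h1 := ih p e' (by omega) hp (by omega) hcop' i 0 a₀ n₀
            (a₀ + a₁ + (i + j + p * K)) (n₀ + n₁) hn₀ (by omega) hi (Or.inl rfl)
          convert h1 using 2
          ring)
      rw [Finset.sum_singleton, Finset.card_singleton, Nat.cast_one, sub_self, zero_mul,
        add_zero] at h
      have hv := vt_lt e s mu p e' (a₀ + i) n₀ (a₁ + j) n₁ hn₀ hn₁ hp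
      have hN : a₀ + a₁ + (i + j + p * K) = a₀ + i + (a₁ + j) + p * K := by ring
      rw [add_zero, hN] at h
      rw [← hv]
      convert h using 1
      ring
    · -- `p = r = 1`
      subst heq
      have hp1 : p = 1 := by rwa [Nat.coprime_self] at hcop
      subst hp1
      have h := lf_base (fdata_T e) s mu hs hmu hne κ hκ i j a₀ n₀ a₁ n₁ hi hj
      rw [vt_base] at h
      exact h
    · -- `p > r`
      obtain ⟨e', rfl⟩ : ∃ e', p = r + e' := ⟨p - r, by omega⟩
      have hcop' : Nat.Coprime e' r := by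
        rw [Nat.coprime_self_add_left] at hcop
        exact hcop
      have hpK : 1 ≤ r * K := Nat.mul_pos hr hK1
      have h := LocF.blowup (fun _ : Unit => C κ * (X 0 ^ i * X 1 ^ j) * QQ s mu (r + e') r)
        a₀ n₀ a₁ n₁ (i + j + r * K) (by omega)
        (fun c _ => C κ * (X 1 + C c) ^ j *
          ∏ t ∈ s, (X 0 ^ e' - C t * (X 1 + C c) ^ r) ^ mu t)
        (fun _ => C κ * X 0 ^ i * ∏ t ∈ s, (X 0 ^ (r + e') * X 1 ^ e' - C t) ^ mu t)
        (fun c _ => by
          have e0 : ∏ t ∈ s, ((X 0 : MvPolynomial (Fin 2) ℂ) ^ (r + e') -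
              C t * (X 0 * (X 1 + C c)) ^ r) ^ mu t =
              X 0 ^ (r * K) * ∏ t ∈ s, (X 0 ^ e' - C t * (X 1 + C c) ^ r) ^ mu t := by
            rw [← prod_pull (s := s) (mu := mu) (X 0)
              (fun t => X 0 ^ e' - C t * (X 1 + C c) ^ r) r]
            refine Finset.prod_congr rfl fun t _ => ?_
            congr 1
            rw [mul_pow, pow_add]
            ring
          rw [QQ, map_mul, map_mul, map_mul, map_pow, map_pow, aeval_X, aeval_X, map_prod, algHom_C,
            algebraMap_eq]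
          simp only [map_pow, map_sub, map_mul, aeval_X, algHom_C, algebraMap_eq, chart,
            Matrix.cons_val_zero, Matrix.cons_val_one]
          rw [e0, mul_pow]
          ring)
        (fun _ => by
          have e0 : ∏ t ∈ s, (((X 0 : MvPolynomial (Fin 2) ℂ) * X 1) ^ (r + e') -
              C t * X 1 ^ r) ^ mu t =
              X 1 ^ (r * K) * ∏ t ∈ s, (X 0 ^ (r + e') * X 1 ^ e' - C t) ^ mu t := by
            rw [← prod_pull (s := s) (mu := mu) (X 1)
              (fun t => X 0 ^ (r + e') * X 1 ^ e' - C t) r]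
            refine Finset.prod_congr rfl fun t _ => ?_
            congr 1
            rw [mul_pow, pow_add (X 1)]
            ring
          rw [QQ, map_mul, map_mul, map_mul, map_pow, map_pow, aeval_X, aeval_X, map_prod, algHom_C,
            algebraMap_eq]
          simp only [map_pow, map_sub, map_mul, aeval_X, algHom_C, algebraMap_eq, chartI,
            Matrix.cons_val_zero, Matrix.cons_val_one]
          rw [e0, mul_pow]
          ring)
        {0} (Finset.mem_singleton_self 0)
        (fun c hc => ⟨(), by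
          rw [Finset.mem_singleton] at hc
          rw [map_mul, map_mul, map_pow, map_add, constantCoeff_X, constantCoeff_C, constantCoeff_C,
            zero_add]
          refine mul_ne_zero (mul_ne_zero hκ (pow_ne_zero _ hc)) (cc_prod _ fun t ht => ?_)
          have ht0 : t ≠ 0 := fun h0 => hs (h0 ▸ ht)
          simp [zero_pow (by omega : e' ≠ 0), ht0, hc]⟩)
        (fun _ => VT e s mu e' r (a₀ + a₁ + (i + j + r * K) + 0) (n₀ + n₁) (a₁ + j) n₁)
        (facT e (a₀ + i) n₀ * facT e (a₀ + a₁ + (i + j + r * K)) (n₀ + n₁))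
        (by
          have h1 := ih e' r (by omega) (by omega) hr hcop' 0 j
            (a₀ + a₁ + (i + j + r * K)) (n₀ + n₁) a₁ n₁ (by omega) hn₁ (Or.inl rfl) hj
          convert h1 using 2
          rw [QQ, map_zero, add_zero]
          ring)
        (fun c hc hc0 => absurd (Finset.mem_singleton.1 hc) hc0)
        (by
          have h1 := lf_mono (fdata_T e) i 0 a₀ n₀ (a₀ + a₁ + (i + j + r * K)) (n₀ + n₁)
            (C κ * ∏ t ∈ s, (X 0 ^ (r + e') * X 1 ^ e' - C t) ^ mu t) (by
              rw [map_mul, constantCoeff_C]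
              refine mul_ne_zero hκ (cc_prod _ fun t ht => ?_)
              have ht0 : t ≠ 0 := fun h0 => hs (h0 ▸ ht)
              simp [zero_pow (by omega : e' ≠ 0), ht0]) hi (Or.inl rfl)
          rw [add_zero (a₀ + a₁ + (i + j + r * K))] at h1
          convert h1 using 2
          ring)
      rw [Finset.sum_singleton, Finset.card_singleton, Nat.cast_one, sub_self, zero_mul,
        add_zero] at h
      have hv := vt_gt e s mu r e' (a₀ + i) n₀ (a₁ + j) n₁ hn₀ hn₁ hr
      have hN : a₀ + a₁ + (i + j + r * K) = a₀ + i + (a₁ + j) + r * K := by ring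
      rw [add_zero, hN] at h
      rw [← hv]
      convert h using 1

end Pool.Agent.U184
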