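import Pool.Agent.W574.SM.Reg

set_option autoImplicit false

/-! # The contribution of a point to the topological zeta function is unique -/

namespace Pool.Agent.U184

open MvPolynomial Pool.Agent.W574.SM

theorem cc_chart (c : ℂ) (g : MvPolynomial (Fin 2) ℂ) :
    constantCoeff (aeval (chart c) g) = constantCoeff g := by
  induction g using MvPolynomial.induction_on with
  | C a => rw [algHom_C, algebraMap_eq]
  | add p q hp hq => rw [map_add, map_add, hp, hq, map_add]
  | mul_X p i hp =>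
    rw [map_mul, map_mul, hp, map_mul, aeval_X]
    congr 1
    fin_cases i
    · simp [chart]
    · simp [chart]

theorem cc_chartI (g : MvPolynomial (Fin 2) ℂ) :
    constantCoeff (aeval chartI g) = constantCoeff g := by
  induction g using MvPolynomial.induction_on with
  | C a => rw [algHom_C, algebraMap_eq]
  | add p q hp hq => rw [map_add, map_add, hp, hq, map_add]
  | mul_X p i hp =>
    rw [map_mul, map_mul, hp, map_mul, aeval_X]
    congr 1
    fin_cases i
    · simp [chartI]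
    · simp [chartI]

/-- the remainder after the constant term -/
theorem exists_split (p : MvPolynomial (Fin 2) ℂ) :
    ∃ A B : MvPolynomial (Fin 2) ℂ, p = C (constantCoeff p) + (X 0 * A + X 1 * B) := by
  induction p using MvPolynomial.induction_on with
  | C a => exact ⟨0, 0, by simp⟩
  | add p q hp hq =>
    obtain ⟨A, B, h1⟩ := hp
    obtain ⟨A', B', h2⟩ := hq
    refine ⟨A + A', B + B', ?_⟩
    rw [map_add, map_add]
    linear_combination h1 + h2
  | mul_X p i hp =>
    obtain ⟨A, B, h1⟩ := hp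
    fin_cases i
    · refine ⟨p, 0, ?_⟩
      simp [mul_comm]
    · refine ⟨0, p, ?_⟩
      simp [mul_comm]

theorem exists_split0 (p : MvPolynomial (Fin 2) ℂ) (h : constantCoeff p = 0) :
    ∃ A B : MvPolynomial (Fin 2) ℂ, p = X 0 * A + X 1 * B ∧
      constantCoeff A = constantCoeff (pderiv 0 p) ∧ constantCoeff B = constantCoeff (pderiv 1 p) := by
  obtain ⟨A, B, h1⟩ := exists_split p
  rw [h, map_zero, zero_add] at h1
  refine ⟨A, B, h1, ?_, ?_⟩
  · rw [h1]
    simp [Derivation.leibniz]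
  · rw [h1]
    simp [Derivation.leibniz]

theorem cc_pd_chart (c : ℂ) (p : MvPolynomial (Fin 2) ℂ) :
    constantCoeff (pderiv 1 (aeval (chart c) p)) = 0 := by
  obtain ⟨A, B, h1⟩ := exists_split p
  rw [h1]
  simp [chart, Derivation.leibniz]

theorem cc_pd_chartI (p : MvPolynomial (Fin 2) ℂ) :
    constantCoeff (pderiv 0 (aeval chartI p)) = 0 := by
  obtain ⟨A, B, h1⟩ := exists_split p
  rw [h1]
  simp [chartI, Derivation.leibniz]

/-- the transform of a curve -/
theorem div_chart (p : MvPolynomial (Fin 2) ℂ) (h : constantCoeff p = 0) (c : ℂ) :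
    ∃ q : MvPolynomial (Fin 2) ℂ, aeval (chart c) p = X 0 * q ∧
      constantCoeff q = constantCoeff (pderiv 0 p) + c * constantCoeff (pderiv 1 p) ∧
      constantCoeff (pderiv 1 q) = constantCoeff (pderiv 1 p) := by
  obtain ⟨A, B, h1, h2, h3⟩ := exists_split0 p h
  refine ⟨aeval (chart c) A + (X 1 + C c) * aeval (chart c) B, ?_, ?_, ?_⟩
  · conv_lhs => rw [h1]
    rw [map_add, map_mul, map_mul, aeval_X, aeval_X]
    simp only [chart, Matrix.cons_val_zero, Matrix.cons_val_one]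
    ring
  · rw [map_add, map_mul, cc_chart, cc_chart, h2, h3, map_add, constantCoeff_X, constantCoeff_C,
      zero_add]
  · rw [map_add, map_add, cc_pd_chart, zero_add, pderiv_mul, map_add, map_mul, map_mul, cc_chart,
      cc_pd_chart, h3]
    simp

theorem div_chartI (p : MvPolynomial (Fin 2) ℂ) (h : constantCoeff p = 0) :
    ∃ q : MvPolynomial (Fin 2) ℂ, aeval chartI p = X 1 * q ∧
      constantCoeff q = constantCoeff (pderiv 1 p) ∧
      constantCoeff (pderiv 0 q) = constantCoeff (pderiv 0 p) := by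
  obtain ⟨A, B, h1, h2, h3⟩ := exists_split0 p h
  refine ⟨X 0 * aeval chartI A + aeval chartI B, ?_, ?_, ?_⟩
  · conv_lhs => rw [h1]
    rw [map_add, map_mul, map_mul, aeval_X, aeval_X]
    simp only [chartI, Matrix.cons_val_zero, Matrix.cons_val_one]
    ring
  · rw [map_add, map_mul, cc_chartI, cc_chartI, h3, constantCoeff_X, zero_mul, zero_add]
  · rw [map_add, map_add, cc_pd_chartI, add_zero, pderiv_mul, map_add, map_mul, map_mul, cc_chartI,
      cc_pd_chartI, h2]
    simp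

/-- uniqueness of the exponent of `X i` -/
theorem xpow_unique {ι : Type} (i : Fin 2) (m m' : ℕ) (A B : ι → MvPolynomial (Fin 2) ℂ)
    (h : ∀ j, X i ^ m * A j = X i ^ m' * B j) (hA : ∃ j, constantCoeff (A j) ≠ 0)
    (hB : ∃ j, constantCoeff (B j) ≠ 0) : m = m' ∧ ∀ j, A j = B j := by
  have key : ∀ (m m' : ℕ) (A B : ι → MvPolynomial (Fin 2) ℂ),
      (∀ j, X i ^ m * A j = X i ^ m' * B j) → (∃ j, constantCoeff (A j) ≠ 0) → m' ≤ m := by
    intro m m' A B h ⟨j, hj⟩
    by_contra hlt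
    push Not at hlt
    obtain ⟨k, rfl⟩ := Nat.exists_eq_add_of_lt hlt
    have h1 := h j
    rw [show m + k + 1 = m + (k + 1) by ring, pow_add, mul_assoc] at h1
    have h2 := mul_left_cancel₀ (pow_ne_zero m (X_ne_zero i)) h1
    rw [h2, map_mul, map_pow, constantCoeff_X, zero_pow (Nat.succ_ne_zero k), zero_mul] at hj
    exact hj rfl
  have e : m = m' := le_antisymm (key m' m B A (fun j => (h j).symm) hB) (key m m' A B h hA)
  subst e
  exact ⟨rfl, fun j => mul_left_cancel₀ (pow_ne_zero m (X_ne_zero i)) (h j)⟩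

theorem dn_ne (a n : ℕ) (hn : 1 ≤ n) : ((n : RatFunc ℂ) + (a : RatFunc ℂ) * RatFunc.X) ≠ 0 := by
  have h : (n : RatFunc ℂ) + (a : RatFunc ℂ) * RatFunc.X =
      algebraMap (Polynomial ℂ) (RatFunc ℂ)
        (Polynomial.C (n : ℂ) + Polynomial.C (a : ℂ) * Polynomial.X) := by
    rw [map_add, map_mul, RatFunc.algebraMap_X, RatFunc.algebraMap_C, RatFunc.algebraMap_C,
      map_natCast, map_natCast]
  rw [h]
  apply RatFunc.algebraMap_ne_zero
  intro h0
  have h1 := congrArg (Polynomial.eval 0) h0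
  simp at h1
  omega

/-- `1 / (A B) = (1 / A + 1 / B) / (A + B)` -/
theorem fac_add (a n b l : ℕ) (hn : 1 ≤ n) (hl : 1 ≤ l) :
    fac (a + b) (n + l) * (fac a n + fac b l) = fac a n * fac b l := by
  have h1 := dn_ne a n hn
  have h2 := dn_ne b l hl
  have h3 := dn_ne (a + b) (n + l) (by omega)
  unfold fac
  push_cast at h3 ⊢
  field_simp
  ring

section

variable {ι : Type}

/-- the contribution if the ideal is trivial -/
theorem LocalZeta.unit_val {g : ι → MvPolynomial (Fin 2) ℂ} {a₀ n₀ a₁ n₁ : ℕ} {Z : RatFunc ℂ}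
    (h : LocalZeta g a₀ n₀ a₁ n₁ Z) (hj : ∃ j, constantCoeff (g j) ≠ 0) :
    Z = fac a₀ n₀ * fac a₁ n₁ := by
  obtain ⟨j, hj⟩ := hj
  cases h with
  | unit _ _ _ _ _ _ => rfl
  | curveV _ _ _ m hm p k hg h0 =>
    exfalso
    apply hj
    rw [hg, map_mul, map_pow, h0, zero_pow (by omega), zero_mul]
  | curveU _ _ _ m hm p k hg h0 =>
    exfalso
    apply hj
    rw [hg, map_mul, map_pow, h0, zero_pow (by omega), zero_mul]
  | blowup _ _ _ _ _ m hm gc gI hgc =>
    exfalso
    apply hj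
    rw [← cc_chart 0, hgc 0 j, map_mul, map_pow, constantCoeff_X, zero_pow (by omega), zero_mul]

/-- the order along a line -/
theorem line_order (α β : ℂ) (m m' : ℕ) (p p' : MvPolynomial (Fin 2) ℂ)
    (k k' : ι → MvPolynomial (Fin 2) ℂ) (h : ∀ j, p ^ m * k j = p' ^ m' * k' j)
    (h0 : constantCoeff p = 0) (h0' : constantCoeff p' = 0)
    (h1 : α * constantCoeff (pderiv 0 p) + β * constantCoeff (pderiv 1 p) ≠ 0)
    (h1' : α * constantCoeff (pderiv 0 p') + β * constantCoeff (pderiv 1 p') ≠ 0)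
    (hk : ∃ j, constantCoeff (k j) ≠ 0) (hk' : ∃ j, constantCoeff (k' j) ≠ 0) : m = m' := by
  -- restrict to the line `(α X 0, β X 0)`
  set ρ : MvPolynomial (Fin 2) ℂ →ₐ[ℂ] MvPolynomial (Fin 2) ℂ :=
    aeval ![C α * X 0, C β * X 0] with hρ
  have hcc : ∀ q, constantCoeff (ρ q) = constantCoeff q := by
    intro q
    induction q using MvPolynomial.induction_on with
    | C a => rw [algHom_C, algebraMap_eq]
    | add p q hp hq => rw [map_add, map_add, hp, hq, map_add]
    | mul_X p i hp =>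
      rw [map_mul, map_mul, hp, map_mul]
      congr 1
      fin_cases i
      · simp [hρ]
      · simp [hρ]
  have hd : ∀ q, constantCoeff q = 0 → ∃ r, ρ q = X 0 * r ∧
      constantCoeff r = α * constantCoeff (pderiv 0 q) + β * constantCoeff (pderiv 1 q) := by
    intro q hq
    obtain ⟨A, B, e1, e2, e3⟩ := exists_split0 q hq
    refine ⟨C α * ρ A + C β * ρ B, ?_, ?_⟩
    · conv_lhs => rw [e1]
      rw [map_add, map_mul, map_mul]
      simp only [hρ, aeval_X, Matrix.cons_val_zero, Matrix.cons_val_one]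
      ring
    · rw [map_add, map_mul, map_mul, constantCoeff_C, constantCoeff_C, hcc, hcc, e2, e3]
  obtain ⟨r, hr, hr1⟩ := hd p h0
  obtain ⟨r', hr', hr1'⟩ := hd p' h0'
  refine (xpow_unique 0 m m' (fun j => r ^ m * ρ (k j)) (fun j => r' ^ m' * ρ (k' j))
    (fun j => ?_) ?_ ?_).1
  · have h2 := congrArg ρ (h j)
    rw [map_mul, map_mul, map_pow, map_pow, hr, hr', mul_pow, mul_pow, mul_assoc, mul_assoc] at h2
    exact h2
  · obtain ⟨j, hj⟩ := hk
    refine ⟨j, ?_⟩
    rw [map_mul, map_pow, hcc, hr1]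
    exact mul_ne_zero (pow_ne_zero _ h1) hj
  · obtain ⟨j, hj⟩ := hk'
    refine ⟨j, ?_⟩
    rw [map_mul, map_pow, hcc, hr1']
    exact mul_ne_zero (pow_ne_zero _ h1') hj

/-- the data of the blow-up of a germ `p ^ m k`, where `p` is smooth -/
theorem blow_data {g : ι → MvPolynomial (Fin 2) ℂ} {m m' : ℕ} {p : MvPolynomial (Fin 2) ℂ}
    {k : ι → MvPolynomial (Fin 2) ℂ} (hg : ∀ j, g j = p ^ m * k j) (h0 : constantCoeff p = 0)
    (h1 : constantCoeff (pderiv 0 p) ≠ 0 ∨ constantCoeff (pderiv 1 p) ≠ 0)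
    (hk : ∃ j, constantCoeff (k j) ≠ 0)
    {gc : ℂ → ι → MvPolynomial (Fin 2) ℂ} {gI : ι → MvPolynomial (Fin 2) ℂ}
    (hgc : ∀ c j, aeval (chart c) (g j) = X 0 ^ m' * gc c j)
    (hgI : ∀ j, aeval chartI (g j) = X 1 ^ m' * gI j)
    {S : Finset ℂ} (hS : ∀ c ∉ S, ∃ j, constantCoeff (gc c j) ≠ 0) :
    m' = m ∧ (∀ c, ∃ q, (∀ j, gc c j = q ^ m * aeval (chart c) (k j)) ∧
      constantCoeff q = constantCoeff (pderiv 0 p) + c * constantCoeff (pderiv 1 p) ∧
      constantCoeff (pderiv 1 q) = constantCoeff (pderiv 1 p)) ∧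
    ∃ q, (∀ j, gI j = q ^ m * aeval chartI (k j)) ∧
      constantCoeff q = constantCoeff (pderiv 1 p) ∧
      constantCoeff (pderiv 0 q) = constantCoeff (pderiv 0 p) := by
  classical
  obtain ⟨j0, hj0⟩ := hk
  have hm : m' = m := by
    obtain ⟨c, hc⟩ := Infinite.exists_notMem_finset
      (S ∪ {-(constantCoeff (pderiv 0 p)) / constantCoeff (pderiv 1 p)})
    rw [Finset.mem_union, not_or, Finset.mem_singleton] at hc
    obtain ⟨q, hq, hq1, _⟩ := div_chart p h0 c
    have hne : constantCoeff q ≠ 0 := by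
      rw [hq1]
      intro h2
      by_cases hv : constantCoeff (pderiv 1 p) = 0
      · rw [hv, mul_zero, add_zero] at h2
        rcases h1 with h1 | h1
        · exact h1 h2
        · exact h1 hv
      · apply hc.2
        rw [eq_div_iff hv]
        linear_combination h2
    refine ((xpow_unique 0 m m' (fun j => q ^ m * aeval (chart c) (k j)) (gc c) (fun j => ?_) ?_
      (hS c hc.1)).1).symm
    · rw [← hgc, hg, map_mul, map_pow, hq, mul_pow, mul_assoc]
    · refine ⟨j0, ?_⟩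
      rw [map_mul, map_pow, cc_chart]
      exact mul_ne_zero (pow_ne_zero _ hne) hj0
  subst hm
  refine ⟨rfl, fun c => ?_, ?_⟩
  · obtain ⟨q, hq, hq1, hq2⟩ := div_chart p h0 c
    refine ⟨q, fun j => ?_, hq1, hq2⟩
    apply mul_left_cancel₀ (pow_ne_zero m' (X_ne_zero (R := ℂ) (0 : Fin 2)))
    rw [← hgc, hg, map_mul, map_pow, hq, mul_pow, mul_assoc]
  · obtain ⟨q, hq, hq1, hq2⟩ := div_chartI p h0
    refine ⟨q, fun j => ?_, hq1, hq2⟩
    apply mul_left_cancel₀ (pow_ne_zero m' (X_ne_zero (R := ℂ) (1 : Fin 2)))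
    rw [← hgI, hg, map_mul, map_pow, hq, mul_pow, mul_assoc]

/-- the sum over the points of the exceptional curve -/
theorem sum_points (S : Finset ℂ) (Zc : ℂ → RatFunc ℂ) (c₀ : ℂ) (hc₀ : c₀ ∈ S)
    (F z : RatFunc ℂ) (h1 : Zc c₀ = z) (h2 : ∀ c ∈ S, c ≠ c₀ → Zc c = F) :
    ∑ c ∈ S, Zc c + (1 - (S.card : RatFunc ℂ)) * F = z := by
  classical
  rw [← Finset.add_sum_erase S Zc hc₀, h1, Finset.sum_congr rfl fun c hc =>
    h2 c (Finset.mem_of_mem_erase hc) (Finset.ne_of_mem_erase hc), Finset.sum_const,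
    Finset.card_erase_of_mem hc₀, nsmul_eq_mul]
  have h3 : 1 ≤ S.card := Finset.card_pos.2 ⟨_, hc₀⟩
  rw [Nat.cast_sub h3]
  push_cast
  ring

/-- smooth curves transversal to `u = 0` -/
theorem LocalZeta.curveV_val {g : ι → MvPolynomial (Fin 2) ℂ} {a₀ n₀ a₁ n₁ : ℕ} {Z : RatFunc ℂ}
    (h : LocalZeta g a₀ n₀ a₁ n₁ Z) : a₁ = 0 → n₁ = 1 → 1 ≤ n₀ → ∀ (m : ℕ)
    (p : MvPolynomial (Fin 2) ℂ) (k : ι → MvPolynomial (Fin 2) ℂ), 1 ≤ m →
    (∀ j, g j = p ^ m * k j) → constantCoeff p = 0 → constantCoeff (pderiv 1 p) ≠ 0 →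
    (∃ j, constantCoeff (k j) ≠ 0) → Z = fac a₀ n₀ * fac m 1 := by
  classical
  induction h with
  | unit g a₀ n₀ a₁ n₁ j hj =>
    intro _ _ _ m p k hm hg h0 h1 hk
    exfalso
    apply hj
    rw [hg, map_mul, map_pow, h0, zero_pow (by omega), zero_mul]
  | curveV g a₀ n₀ m' hm' p' k' hg' h0' h1' j hj =>
    intro _ _ _ m p k hm hg h0 h1 hk
    have e : m = m' := line_order 0 1 m m' p p' k k' (fun j => by rw [← hg, hg']) h0 h0'
      (by simpa using h1) (by simpa using h1') hk ⟨j, hj⟩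
    rw [e]
  | curveU g a₁ n₁ m' hm' p' k' hg' h0' h1' j hj =>
    intro ha hn _ m p k hm hg h0 h1 hk
    subst ha hn
    have e : m = m' := by
      by_cases hv : constantCoeff (pderiv 1 p') = 0
      · refine line_order 1 ((1 - constantCoeff (pderiv 0 p)) / constantCoeff (pderiv 1 p)) m m'
          p p' k k' (fun j => by rw [← hg, hg']) h0 h0' ?_ ?_ hk ⟨j, hj⟩
        · rw [div_mul_cancel₀ _ h1, one_mul, add_sub_cancel]
          exact one_ne_zero
        · rw [hv, mul_zero, add_zero, one_mul]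
          exact h1'
      · exact line_order 0 1 m m' p p' k k' (fun j => by rw [← hg, hg']) h0 h0'
          (by simpa using h1) (by simpa using hv) hk ⟨j, hj⟩
    rw [e]
  | blowup g a₀ n₀ a₁ n₁ m' hm' gc gI hgc hgI S h0S hS Zc ZI h0c hc hI ih0 ihc ihI =>
    intro ha hn hn0 m p k hm hg h0 h1 hk
    subst ha hn
    obtain ⟨hmm, hq, qI, hqI, hqI1, _⟩ := blow_data hg h0 (Or.inr h1) hk hgc hgI hS
    subst hmm
    obtain ⟨j0, hj0⟩ := hk
    set c₀ : ℂ := -(constantCoeff (pderiv 0 p)) / constantCoeff (pderiv 1 p) with hc₀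
    have hval : ∀ c, constantCoeff (pderiv 0 p) + c * constantCoeff (pderiv 1 p) =
        (c - c₀) * constantCoeff (pderiv 1 p) := by
      intro c
      rw [hc₀, sub_mul, div_mul_cancel₀ _ h1]
      ring
    have hcS : c₀ ∈ S := by
      by_contra hcon
      obtain ⟨j, hj⟩ := hS c₀ hcon
      obtain ⟨q, hq1, hq2, _⟩ := hq c₀
      apply hj
      rw [hq1, map_mul, map_pow, hq2, hval, sub_self, zero_mul, zero_pow (by omega), zero_mul]
    have hunit : ∀ c, c ≠ c₀ → ∃ j, constantCoeff (gc c j) ≠ 0 := by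
      intro c hcc
      obtain ⟨q, hq1, hq2, _⟩ := hq c
      refine ⟨j0, ?_⟩
      rw [hq1, map_mul, map_pow, hq2, hval, cc_chart]
      exact mul_ne_zero (pow_ne_zero _ (mul_ne_zero (sub_ne_zero.2 hcc) h1)) hj0
    have hI1 : ZI = fac a₀ n₀ * fac (a₀ + 0 + m') (n₀ + 1) := by
      refine LocalZeta.unit_val hI ⟨j0, ?_⟩
      rw [hqI, map_mul, map_pow, hqI1, cc_chartI]
      exact mul_ne_zero (pow_ne_zero _ h1) hj0
    have hz0 : Zc c₀ = fac (a₀ + 0 + m') (n₀ + 1) * fac m' 1 := by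
      obtain ⟨q, hq1, hq2, hq3⟩ := hq c₀
      rw [hval, sub_self, zero_mul] at hq2
      by_cases hc00 : c₀ = 0
      · rw [hc00] at hq1 ⊢
        exact ih0 rfl rfl (by omega) m' q (fun j => aeval (chart 0) (k j)) hm' hq1 hq2
          (by rw [hq3]; exact h1) ⟨j0, by rw [cc_chart]; exact hj0⟩
      · exact ihc c₀ hcS hc00 rfl rfl (by omega) m' q (fun j => aeval (chart c₀) (k j)) hm' hq1 hq2
          (by rw [hq3]; exact h1) ⟨j0, by rw [cc_chart]; exact hj0⟩
    have hz1 : ∀ c ∈ S, c ≠ c₀ → Zc c = fac (a₀ + 0 + m') (n₀ + 1) := by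
      intro c hcS' hcc
      by_cases hc00 : c = 0
      · rw [hc00]
        have := LocalZeta.unit_val h0c (hunit 0 (by rw [← hc00]; exact hcc))
        rw [this, fac_zero_one, mul_one]
      · have := LocalZeta.unit_val (hc c hcS' hc00) (hunit c hcc)
        rw [this, fac_zero_one, mul_one]
    rw [add_assoc, sum_points S Zc c₀ hcS _ _ hz0 hz1, hI1, add_zero,
      ← fac_add a₀ n₀ m' 1 hn0 le_rfl]
    ring

/-- smooth curves transversal to `v = 0` -/
theorem LocalZeta.curveU_val {g : ι → MvPolynomial (Fin 2) ℂ} {a₀ n₀ a₁ n₁ : ℕ} {Z : RatFunc ℂ}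
    (h : LocalZeta g a₀ n₀ a₁ n₁ Z) : a₀ = 0 → n₀ = 1 → 1 ≤ n₁ → ∀ (m : ℕ)
    (p : MvPolynomial (Fin 2) ℂ) (k : ι → MvPolynomial (Fin 2) ℂ), 1 ≤ m →
    (∀ j, g j = p ^ m * k j) → constantCoeff p = 0 → constantCoeff (pderiv 0 p) ≠ 0 →
    (∃ j, constantCoeff (k j) ≠ 0) → Z = fac a₁ n₁ * fac m 1 := by
  classical
  induction h with
  | unit g a₀ n₀ a₁ n₁ j hj =>
    intro _ _ _ m p k hm hg h0 h1 hk
    exfalso
    apply hj
    rw [hg, map_mul, map_pow, h0, zero_pow (by omega), zero_mul]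
  | curveU g a₀ n₀ m' hm' p' k' hg' h0' h1' j hj =>
    intro _ _ _ m p k hm hg h0 h1 hk
    have e : m = m' := line_order 1 0 m m' p p' k k' (fun j => by rw [← hg, hg']) h0 h0'
      (by simpa using h1) (by simpa using h1') hk ⟨j, hj⟩
    rw [e]
  | curveV g a₀ n₀ m' hm' p' k' hg' h0' h1' j hj =>
    intro ha hn _ m p k hm hg h0 h1 hk
    subst ha hn
    have e : m = m' := by
      by_cases hv : constantCoeff (pderiv 0 p') = 0
      · refine line_order ((1 - constantCoeff (pderiv 1 p)) / constantCoeff (pderiv 0 p)) 1 m m'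
          p p' k k' (fun j => by rw [← hg, hg']) h0 h0' ?_ ?_ hk ⟨j, hj⟩
        · rw [div_mul_cancel₀ _ h1, one_mul, sub_add_cancel]
          exact one_ne_zero
        · rw [hv, mul_zero, zero_add, one_mul]
          exact h1'
      · exact line_order 1 0 m m' p p' k k' (fun j => by rw [← hg, hg']) h0 h0'
          (by simpa using h1) (by simpa using hv) hk ⟨j, hj⟩
    rw [e]
  | blowup g a₀ n₀ a₁ n₁ m' hm' gc gI hgc hgI S h0S hS Zc ZI h0c hc hI ih0 ihc ihI =>
    intro ha hn hn1 m p k hm hg h0 h1 hk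
    subst ha hn
    obtain ⟨hmm, hq, qI, hqI, hqI1, hqI2⟩ := blow_data hg h0 (Or.inl h1) hk hgc hgI hS
    subst hmm
    obtain ⟨j0, hj0⟩ := hk
    have hF : fac (0 + a₁ + m') (1 + n₁) * (fac a₁ n₁ + fac m' 1) = fac a₁ n₁ * fac m' 1 := by
      rw [zero_add, add_comm 1 n₁]
      exact fac_add a₁ n₁ m' 1 hn1 le_rfl
    have hunit0 : ∃ j, constantCoeff (gc 0 j) ≠ 0 := by
      obtain ⟨q, hq1, hq2, _⟩ := hq 0
      refine ⟨j0, ?_⟩
      rw [hq1, map_mul, map_pow, hq2, zero_mul, add_zero, cc_chart]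
      exact mul_ne_zero (pow_ne_zero _ h1) hj0
    have hz00 := LocalZeta.unit_val h0c hunit0
    by_cases hv : constantCoeff (pderiv 1 p) = 0
    · -- the curve is tangent to the direction `u = 0`
      have hI1 : ZI = fac (0 + a₁ + m') (1 + n₁) * fac m' 1 :=
        ihI rfl rfl (by omega) m' qI (fun j => aeval chartI (k j)) hm' hqI (by rw [hqI1, hv])
          (by rw [hqI2]; exact h1) ⟨j0, by rw [cc_chartI]; exact hj0⟩
      have hz1 : ∀ c ∈ S, c ≠ 0 → Zc c = fac (0 + a₁ + m') (1 + n₁) := by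
        intro c hcS hcc
        have h3 : ∃ j, constantCoeff (gc c j) ≠ 0 := by
          obtain ⟨q, hq1, hq2, _⟩ := hq c
          refine ⟨j0, ?_⟩
          rw [hq1, map_mul, map_pow, hq2, hv, mul_zero, add_zero, cc_chart]
          exact mul_ne_zero (pow_ne_zero _ h1) hj0
        have := LocalZeta.unit_val (hc c hcS hcc) h3
        rw [this, fac_zero_one, mul_one]
      rw [add_assoc, sum_points S Zc 0 h0S _ _ hz00 hz1, hI1, ← hF]
      ring
    · set c₀ : ℂ := -(constantCoeff (pderiv 0 p)) / constantCoeff (pderiv 1 p) with hc₀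
      have hc₀0 : c₀ ≠ 0 := div_ne_zero (neg_ne_zero.2 h1) hv
      have hval : ∀ c, constantCoeff (pderiv 0 p) + c * constantCoeff (pderiv 1 p) =
          (c - c₀) * constantCoeff (pderiv 1 p) := by
        intro c
        rw [hc₀, sub_mul, div_mul_cancel₀ _ hv]
        ring
      have hcS : c₀ ∈ S := by
        by_contra hcon
        obtain ⟨j, hj⟩ := hS c₀ hcon
        obtain ⟨q, hq1, hq2, _⟩ := hq c₀
        apply hj
        rw [hq1, map_mul, map_pow, hq2, hval, sub_self, zero_mul, zero_pow (by omega), zero_mul]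
      have hI1 : ZI = fac 0 1 * fac (0 + a₁ + m') (1 + n₁) := by
        refine LocalZeta.unit_val hI ⟨j0, ?_⟩
        rw [hqI, map_mul, map_pow, hqI1, cc_chartI]
        exact mul_ne_zero (pow_ne_zero _ hv) hj0
      have hz0 : Zc c₀ = fac (0 + a₁ + m') (1 + n₁) * fac m' 1 := by
        obtain ⟨q, hq1, hq2, hq3⟩ := hq c₀
        rw [hval, sub_self, zero_mul] at hq2
        exact LocalZeta.curveV_val (hc c₀ hcS hc₀0) rfl rfl (by omega) m' q
          (fun j => aeval (chart c₀) (k j)) hm' hq1 hq2 (by rw [hq3]; exact hv)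
          ⟨j0, by rw [cc_chart]; exact hj0⟩
      have hz1 : ∀ c ∈ S, c ≠ c₀ → c ≠ 0 → Zc c = fac (0 + a₁ + m') (1 + n₁) := by
        intro c hcS' hcc hc00
        have h3 : ∃ j, constantCoeff (gc c j) ≠ 0 := by
          obtain ⟨q, hq1, hq2, _⟩ := hq c
          refine ⟨j0, ?_⟩
          rw [hq1, map_mul, map_pow, hq2, hval, cc_chart]
          exact mul_ne_zero (pow_ne_zero _ (mul_ne_zero (sub_ne_zero.2 hcc) hv)) hj0
        have := LocalZeta.unit_val (hc c hcS' hc00) h3
        rw [this, fac_zero_one, mul_one]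
      set F := fac (0 + a₁ + m') (1 + n₁) with hFdef
      have hsum : ∑ c ∈ S, Zc c = F * fac a₁ n₁ + F * fac m' 1 + ((S.card : RatFunc ℂ) - 2) * F := by
        rw [← Finset.add_sum_erase S Zc h0S, ← Finset.add_sum_erase (S.erase 0) Zc
          (Finset.mem_erase.2 ⟨hc₀0, hcS⟩), hz00, hz0,
          Finset.sum_congr rfl fun c hc' => hz1 c
            (Finset.mem_of_mem_erase (Finset.mem_of_mem_erase hc'))
            (Finset.ne_of_mem_erase hc') (Finset.ne_of_mem_erase (Finset.mem_of_mem_erase hc')),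
          Finset.sum_const, Finset.card_erase_of_mem (Finset.mem_erase.2 ⟨hc₀0, hcS⟩),
          Finset.card_erase_of_mem h0S, nsmul_eq_mul]
        have h3 : 2 ≤ S.card := by
          have : ({0, c₀} : Finset ℂ) ⊆ S := by
            intro x hx
            rcases Finset.mem_insert.1 hx with rfl | hx
            · exact h0S
            · rw [Finset.mem_singleton.1 hx]; exact hcS
          have h4 := Finset.card_le_card this
          rwa [Finset.card_pair hc₀0.symm] at h4
        have h4 : ((S.card - 1 - 1 : ℕ) : RatFunc ℂ) = (S.card : RatFunc ℂ) - 2 := by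
          rw [Nat.sub_sub, Nat.cast_sub h3]
          push_cast
          ring
        rw [h4]
        ring
      rw [hsum, hI1, fac_zero_one, one_mul, ← hF]
      ring

/-- **The contribution of a point is unique.** -/
theorem LocalZeta.unique {g : ι → MvPolynomial (Fin 2) ℂ} {a₀ n₀ a₁ n₁ : ℕ} {Z : RatFunc ℂ}
    (h : LocalZeta g a₀ n₀ a₁ n₁ Z) : 1 ≤ n₀ → 1 ≤ n₁ → ∀ Z' : RatFunc ℂ,
    LocalZeta g a₀ n₀ a₁ n₁ Z' → Z' = Z := by
  classical
  induction h with
  | unit g a₀ n₀ a₁ n₁ j hj => exact fun _ _ Z' h' => LocalZeta.unit_val h' ⟨j, hj⟩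
  | curveV g a₀ n₀ m hm p k hg h0 h1 j hj =>
    exact fun hn _ Z' h' => LocalZeta.curveV_val h' rfl rfl hn m p k hm hg h0 h1 ⟨j, hj⟩
  | curveU g a₁ n₁ m hm p k hg h0 h1 j hj =>
    exact fun _ hn Z' h' => LocalZeta.curveU_val h' rfl rfl hn m p k hm hg h0 h1 ⟨j, hj⟩
  | blowup g a₀ n₀ a₁ n₁ m hm gc gI hgc hgI S h0S hS Zc ZI h0c hc hI ih0 ihc ihI =>
    intro hn0 hn1 Z' h'
    have hme := LocalZeta.blowup g a₀ n₀ a₁ n₁ m hm gc gI hgc hgI S h0S hS Zc ZI h0c hc hI
    cases h' with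
    | unit _ _ _ _ _ j hj => exact (LocalZeta.unit_val hme ⟨j, hj⟩).symm
    | curveV _ _ _ m' hm' p k hg h0 h1 j hj =>
      exact (LocalZeta.curveV_val hme rfl rfl hn0 m' p k hm' hg h0 h1 ⟨j, hj⟩).symm
    | curveU _ _ _ m' hm' p k hg h0 h1 j hj =>
      exact (LocalZeta.curveU_val hme rfl rfl hn1 m' p k hm' hg h0 h1 ⟨j, hj⟩).symm
    | blowup _ _ _ _ _ m' hm' gc' gI' hgc' hgI' S' h0S' hS' Zc' ZI' h0c' hc' hI' =>
      obtain ⟨c, hcc⟩ := Infinite.exists_notMem_finset (S ∪ S')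
      rw [Finset.mem_union, not_or] at hcc
      obtain ⟨e, _⟩ := xpow_unique 0 m m' (gc c) (gc' c) (fun j => by rw [← hgc, ← hgc'])
        (hS c hcc.1) (hS' c hcc.2)
      subst e
      have egc : gc' = gc := by
        funext c j
        apply mul_left_cancel₀ (pow_ne_zero m (X_ne_zero (R := ℂ) (0 : Fin 2)))
        rw [← hgc, ← hgc']
      have egI : gI' = gI := by
        funext j
        apply mul_left_cancel₀ (pow_ne_zero m (X_ne_zero (R := ℂ) (1 : Fin 2)))
        rw [← hgI, ← hgI']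
      subst egc egI
      have eI : ZI' = ZI := ihI hn0 (by omega) ZI' hI'
      have e0 : Zc' 0 = Zc 0 := ih0 (by omega) hn1 _ h0c'
      set F := fac (a₀ + a₁ + m) (n₀ + n₁) with hF
      -- the sums
      set w : ℂ → RatFunc ℂ := fun c => if c ∈ S then Zc c else F with hw
      have h1 : ∀ c ∈ S', Zc' c = w c := by
        intro c hc1
        by_cases hcS : c ∈ S
        · simp only [hw, if_pos hcS]
          by_cases hc0 : c = 0
          · rw [hc0, e0]
          · exact ihc c hcS hc0 (by omega) le_rfl _ (hc' c hc1 hc0)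
        · simp only [hw, if_neg hcS]
          have hc0 : c ≠ 0 := fun h => hcS (h ▸ h0S)
          rw [LocalZeta.unit_val (hc' c hc1 hc0) (hS c hcS), fac_zero_one, mul_one]
      have h2 : ∀ c ∈ S, Zc c = w c := fun c hcS => by simp only [hw, if_pos hcS]
      have h3 : ∀ c ∈ S \ S', w c = F := by
        intro c hc1
        rw [Finset.mem_sdiff] at hc1
        have hc0 : c ≠ 0 := fun h => hc1.2 (h ▸ h0S')
        rw [← h2 c hc1.1, LocalZeta.unit_val (hc c hc1.1 hc0) (hS' c hc1.2), fac_zero_one, mul_one]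
      have h4 : ∀ c ∈ S' \ S, w c = F := by
        intro c hc1
        rw [Finset.mem_sdiff] at hc1
        simp only [hw, if_neg hc1.2]
      have key : ∀ A B : Finset ℂ, (∀ c ∈ B \ A, w c = F) →
          ∑ c ∈ A, w c + (1 - (A.card : RatFunc ℂ)) * F =
            ∑ c ∈ A ∪ B, w c + (1 - ((A ∪ B).card : RatFunc ℂ)) * F := by
        intro A B hAB
        rw [← Finset.sum_sdiff (Finset.subset_union_left (s₁ := A) (s₂ := B)),
          Finset.union_sdiff_left, Finset.sum_congr rfl hAB, Finset.sum_const, nsmul_eq_mul]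
        have h5 : ((A ∪ B).card : RatFunc ℂ) = (A.card : RatFunc ℂ) + ((B \ A).card : RatFunc ℂ) := by
          rw [← Nat.cast_add]
          congr 1
          rw [← Finset.union_sdiff_left, ← Finset.card_sdiff_add_card_eq_card
            (Finset.subset_union_left (s₁ := A) (s₂ := B)), add_comm]
        rw [h5]
        ring
      have e1 : ∑ c ∈ S', Zc' c = ∑ c ∈ S', w c := Finset.sum_congr rfl h1
      have e2 : ∑ c ∈ S, Zc c = ∑ c ∈ S, w c := Finset.sum_congr rfl h2
      have e3 := key S S' h4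
      have e4 := key S' S h3
      rw [Finset.union_comm S' S] at e4
      rw [eI, e1, e2, add_assoc, add_assoc, e3, e4]

end

end Pool.Agent.U184
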