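import Pool.Agent.U184.Dg

set_option autoImplicit false

/-! # The local lemma: reduction of the pole order at a weighted homogeneous singularity -/

namespace Pool.Agent.U184

open MvPowerSeries

theorem WH_pderiv {w : Fin 2 → ℕ} {N : ℕ} {p : T} (hp : WH w 0 N p) (i : Fin 2) :
    WH w (w i) N (pderiv ℂ i p) := by
  intro m hm
  rw [coeff_pderiv] at hm
  have := hp _ (left_ne_zero_of_mul hm)
  rw [wt_add, wt_single] at this
  omega

theorem WH_C_mul {w : Fin 2 → ℕ} {j N : ℕ} {p : T} (hp : WH w j N p) (r : ℂ) :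
    WH w j N (C r * p) := by
  intro m hm
  rw [coeff_C_mul] at hm
  exact hp _ (right_ne_zero_of_mul hm)

theorem WH_add {w : Fin 2 → ℕ} {j N : ℕ} {p q : T} (hp : WH w j N p) (hq : WH w j N q) :
    WH w j N (p + q) := by
  intro m hm
  rw [map_add] at hm
  by_cases h : coeff m p = 0
  · rw [h, zero_add] at hm
    exact hq m hm
  · exact hp m h

theorem WH_mul {w : Fin 2 → ℕ} {N M : ℕ} {p q : T} (hp : WH w 0 N p) (hq : WH w 0 M q) :
    WH w 0 (N + M) (p * q) := by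
  classical
  intro m hm
  rw [coeff_mul] at hm
  obtain ⟨x, hx, hx0⟩ := Finset.exists_ne_zero_of_sum_ne_zero hm
  have h1 := hp _ (left_ne_zero_of_mul hx0)
  have h2 := hq _ (right_ne_zero_of_mul hx0)
  rw [← Finset.HasAntidiagonal.mem_antidiagonal.1 hx, wt_add]
  omega

theorem WH_one {w : Fin 2 → ℕ} : WH w 0 0 (1 : T) := by
  classical
  intro m hm
  rw [coeff_one] at hm
  have : m = 0 := by
    by_contra h
    exact hm (if_neg h)
  rw [this]
  simp [wt]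

theorem WH_pow {w : Fin 2 → ℕ} {N : ℕ} {p : T} (hp : WH w 0 N p) (k : ℕ) :
    WH w 0 (k * N) (p ^ k) := by
  induction k with
  | zero => rw [pow_zero, zero_mul]; exact WH_one
  | succ k ih =>
    rw [pow_succ, add_mul, one_mul]
    exact WH_mul ih hp

/-- The data of the local lemma. -/
structure LocData (w : Fin 2 → ℕ) (NG Ng : ℕ) (α : ℂ) (G : T) (A : Fin 2 → T) : Prop where
  hG : WH w 0 NG G
  hG0 : G ≠ 0
  hA : ∀ i, WH w (w i) NG (A i)
  hχ : (w 0 : T) * X 0 * A 0 + (w 1 : T) * X 1 * A 1 = (Ng : T) * G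
  hNg : Ng ≠ 0
  red : ∀ (j : ℕ) (ψ : T), (∀ i, G ∣ ψ * (C α * A i + (j : T) * pderiv ℂ i G)) → G ∣ ψ

section

variable {w : Fin 2 → ℕ} {NG Ng : ℕ} {α : ℂ} {G : T} {A : Fin 2 → T}

theorem euler_G (h : LocData w NG Ng α G A) :
    (w 0 : T) * X 0 * pderiv ℂ 0 G + (w 1 : T) * X 1 * pderiv ℂ 1 G = (NG : T) * G := by
  rw [euler]
  ext m
  have h0 : ((NG : T)) = C (NG : ℂ) := by rw [map_natCast]
  rw [coeff_dg, h0, coeff_C_mul]
  by_cases hm : coeff m G = 0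
  · rw [hm, mul_zero, mul_zero]
  · have := h.hG m hm
    rw [add_zero] at this
    rw [this]

/-- the contraction with the Euler field -/
theorem contr (w : Fin 2 → ℕ) (G : T) (Θ ω : Fin 2 → T) (r E : T)
    (hΘ : (w 0 : T) * X 0 * Θ 0 + (w 1 : T) * X 1 * Θ 1 = E * G)
    (h : G * (pderiv ℂ 0 (ω 1) - pderiv ℂ 1 (ω 0)) - (Θ 0 * ω 1 - Θ 1 * ω 0) = r) :
    (G * (dg w (fun e => (e : ℂ)) (ω 0) + (w 0 : T) * ω 0 - E * ω 0) =
      G * pderiv ℂ 0 ((w 0 : T) * X 0 * ω 0 + (w 1 : T) * X 1 * ω 1) -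
        ((w 0 : T) * X 0 * ω 0 + (w 1 : T) * X 1 * ω 1) * Θ 0 - (w 1 : T) * X 1 * r) ∧
    (G * (dg w (fun e => (e : ℂ)) (ω 1) + (w 1 : T) * ω 1 - E * ω 1) =
      G * pderiv ℂ 1 ((w 0 : T) * X 0 * ω 0 + (w 1 : T) * X 1 * ω 1) -
        ((w 0 : T) * X 0 * ω 0 + (w 1 : T) * X 1 * ω 1) * Θ 1 + (w 0 : T) * X 0 * r) := by
  have h10 : pderiv ℂ (1 : Fin 2) (X (0 : Fin 2) : T) = 0 := pderiv_X_of_ne (by decide)
  have h01 : pderiv ℂ (0 : Fin 2) (X (1 : Fin 2) : T) = 0 := pderiv_X_of_ne (by decide)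
  have d0 : pderiv ℂ (0 : Fin 2) ((w 0 : T) * X 0 * ω 0 + (w 1 : T) * X 1 * ω 1) =
      (w 0 : T) * ω 0 + (w 0 : T) * X 0 * pderiv ℂ 0 (ω 0) +
        (w 1 : T) * X 1 * pderiv ℂ 0 (ω 1) := by
    simp only [map_add, Derivation.leibniz, smul_eq_mul, Derivation.map_natCast, pderiv_X_self,
      h01]
    ring
  have d1 : pderiv ℂ (1 : Fin 2) ((w 0 : T) * X 0 * ω 0 + (w 1 : T) * X 1 * ω 1) =
      (w 0 : T) * X 0 * pderiv ℂ 1 (ω 0) + (w 1 : T) * ω 1 +
        (w 1 : T) * X 1 * pderiv ℂ 1 (ω 1) := by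
    simp only [map_add, Derivation.leibniz, smul_eq_mul, Derivation.map_natCast, pderiv_X_self,
      h10]
    ring
  have e0 := euler w (ω 0)
  have e1 := euler w (ω 1)
  rw [d0, d1, ← e0, ← e1, ← h]
  constructor
  · linear_combination (ω 0) * hΘ
  · linear_combination (ω 1) * hΘ

theorem iter (h : LocData w NG Ng α G A) (n : ℕ) (ψ : T)
    (hψ : ∀ i, G ^ (n + 1) ∣ G * pderiv ℂ i ψ - ψ * (C α * A i + (n : T) * pderiv ℂ i G)) :
    G ^ (n + 1) ∣ ψ := by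
  have key : ∀ j : ℕ, j ≤ n + 1 → G ^ j ∣ ψ := by
    intro j
    induction j with
    | zero => intro _; rw [pow_zero]; exact one_dvd _
    | succ j ih =>
      intro hj
      obtain ⟨η, rfl⟩ := ih (by omega)
      rw [pow_succ]
      refine mul_dvd_mul_left _ (h.red (n - j) η fun i => ?_)
      obtain ⟨y, hy⟩ := hψ i
      have h1 : G * pderiv ℂ i (G ^ j * η) = G ^ j * (G * pderiv ℂ i η + (j : T) * η *
          pderiv ℂ i G) := by
        rw [Derivation.leibniz, Derivation.leibniz_pow, smul_eq_mul, smul_eq_mul, nsmul_eq_mul,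
          smul_eq_mul]
        rcases j with _ | j
        · simp
        · rw [Nat.add_sub_cancel, pow_succ]
          ring
      have h2 : ((n - j : ℕ) : T) = (n : T) - (j : T) := by
        rw [Nat.cast_sub (by omega)]
      have h3 : G ^ (n + 1) = G ^ j * (G * G ^ (n - j)) := by
        rw [← pow_succ', ← pow_add]; congr 1; omega
      rw [h1, h3] at hy
      have h4 : G ^ j * (η * (C α * A i + ((n - j : ℕ) : T) * pderiv ℂ i G)) =
          G ^ j * (G * (pderiv ℂ i η - G ^ (n - j) * y)) := by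
        rw [h2]
        linear_combination (-1 : T) * hy
      exact ⟨_, mul_left_cancel₀ (pow_ne_zero _ h.hG0) h4⟩
  exact key (n + 1) le_rfl

theorem key_dg (h : LocData w NG Ng α G A) (n k : ℕ) (c : ℕ → ℂ) (i : Fin 2) (ψ x : T) :
    ∃ x' : T, dg w (fun e => c (e + w i)) (G * pderiv ℂ i ψ -
        ψ * (C α * A i + (n : T) * pderiv ℂ i G) + G ^ k * x) =
      G * pderiv ℂ i (dg w (fun e => c (e + NG)) ψ) - dg w (fun e => c (e + NG)) ψ *
        (C α * A i + (n : T) * pderiv ℂ i G) + G ^ k * x' := by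
  have hn : ((n : T)) = C (n : ℂ) := by rw [map_natCast]
  have h1 : WH w (w i) NG (C α * A i + (n : T) * pderiv ℂ i G) := by
    rw [hn]
    exact WH_add (WH_C_mul (h.hA i) α) (WH_C_mul (WH_pderiv h.hG i) _)
  refine ⟨dg w (fun e => c (e + k * NG + w i)) x, ?_⟩
  rw [map_add, map_sub]
  have a1 := dg_mul h.hG (fun e => c (e + w i)) (pderiv ℂ i ψ)
  have a2 := dg_pderiv w i (fun e => c (e + NG)) ψ
  have a3 := dg_mul h1 c ψ
  have a4 := dg_mul (WH_pow h.hG k) (fun e => c (e + w i)) x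
  simp only [add_zero] at a1 a4
  have a5 : (fun e => c (e + NG + w i)) = fun e => c (e + w i + NG) := by
    funext e; congr 1; omega
  rw [a1, a5, a2, mul_comm ψ, a3, a4]
  ring

/-- **The local lemma.** -/
theorem loc_main (h : LocData w NG Ng α G A) (n : ℕ) (ω ω1 : Fin 2 → T) (h0 h1 : T)
    (e0 : G * (pderiv ℂ 0 (ω 1) - pderiv ℂ 1 (ω 0)) -
      ((C α * A 0 + ((n + 1 : ℕ) : T) * pderiv ℂ 0 G) * ω 1 -
        (C α * A 1 + ((n + 1 : ℕ) : T) * pderiv ℂ 1 G) * ω 0) = G ^ (n + 2) * h0)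
    (e1 : G * (pderiv ℂ 0 (ω1 1) - pderiv ℂ 1 (ω1 0)) -
      ((C α * A 0 + ((n + 1 : ℕ) : T) * pderiv ℂ 0 G) * ω1 1 -
        (C α * A 1 + ((n + 1 : ℕ) : T) * pderiv ℂ 1 G) * ω1 0) +
      (A 0 * ω 1 - A 1 * ω 0) = G ^ (n + 2) * h1) :
    ∃ (φ : T) (ω' : Fin 2 → T), ∀ i, ω i = G ^ (n + 1) * ω' i + G * pderiv ℂ i φ -
      φ * (C α * A i + (n : T) * pderiv ℂ i G) := by
  have hχG := euler_G h
  have hχ := h.hχ
  have hG0 := h.hG0
  set E : ℂ := α * Ng + (n + 1 : ℕ) * NG with hE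
  set Θ : Fin 2 → T := fun i => C α * A i + ((n + 1 : ℕ) : T) * pderiv ℂ i G with hΘ
  set Θ' : Fin 2 → T := fun i => C α * A i + (n : T) * pderiv ℂ i G with hΘ'
  have hΘΘ : ∀ i, Θ i = Θ' i + pderiv ℂ i G := by
    intro i
    simp only [hΘ, hΘ']
    push_cast
    ring
  have hEC : C E = C α * (Ng : T) + ((n + 1 : ℕ) : T) * (NG : T) := by
    rw [hE, map_add, map_mul, map_mul]
    simp only [map_natCast]
  have hΘχ : (w 0 : T) * X 0 * Θ 0 + (w 1 : T) * X 1 * Θ 1 = C E * G := by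
    rw [hEC]
    simp only [hΘ]
    linear_combination (C α) * hχ + ((n + 1 : ℕ) : T) * hχG
  -- the contraction of `ω`
  obtain ⟨c0, c1⟩ := contr w G Θ ω _ _ hΘχ e0
  set ψ : T := (w 0 : T) * X 0 * ω 0 + (w 1 : T) * X 1 * ω 1 with hψ
  obtain ⟨ψ', hψ'⟩ : G ∣ ψ := by
    refine h.red (n + 1) ψ fun i => ?_
    fin_cases i
    · exact ⟨pderiv ℂ 0 ψ - (w 1 : T) * X 1 * (G ^ (n + 1) * h0) -
        (dg w (fun e => (e : ℂ)) (ω 0) + (w 0 : T) * ω 0 - C E * ω 0), by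
        have := c0
        simp only [hΘ] at this
        simp only [Fin.zero_eta]
        linear_combination this⟩
    · exact ⟨pderiv ℂ 1 ψ + (w 0 : T) * X 0 * (G ^ (n + 1) * h0) -
        (dg w (fun e => (e : ℂ)) (ω 1) + (w 1 : T) * ω 1 - C E * ω 1), by
        have := c1
        simp only [hΘ] at this
        simp only [Fin.mk_one]
        linear_combination this⟩
  -- the functions `τ`
  obtain ⟨τ, hτ0, hτ1⟩ : ∃ τ : Fin 2 → T, τ 0 = -((w 1 : T) * X 1) ∧ τ 1 = (w 0 : T) * X 0 :=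
    ⟨![-((w 1 : T) * X 1), (w 0 : T) * X 0], rfl, rfl⟩
  have hdG : ∀ (i : Fin 2) (x : T), pderiv ℂ i (G * x) = G * pderiv ℂ i x + x * pderiv ℂ i G := by
    intro i x
    rw [Derivation.leibniz, smul_eq_mul, smul_eq_mul]
  have b0 : ∀ i, dg w (fun e => (e : ℂ)) (ω i) + (w i : T) * ω i - C E * ω i =
      G * pderiv ℂ i ψ' - ψ' * Θ' i + G ^ (n + 1) * (h0 * τ i) := by
    intro i
    apply mul_left_cancel₀ hG0
    fin_cases i
    · simp only [Fin.zero_eta]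
      rw [c0, hψ', hdG, hΘΘ, hτ0]
      ring
    · simp only [Fin.mk_one]
      rw [c1, hψ', hdG, hΘΘ, hτ1]
      ring
  -- the contraction of `ω1`
  have e1' : G * (pderiv ℂ 0 (ω1 1) - pderiv ℂ 1 (ω1 0)) - (Θ 0 * ω1 1 - Θ 1 * ω1 0) =
      G ^ (n + 2) * h1 - (A 0 * ω 1 - A 1 * ω 0) := by
    linear_combination e1
  obtain ⟨f0, f1⟩ := contr w G Θ ω1 _ _ hΘχ e1'
  set ρ : T := (w 0 : T) * X 0 * ω1 0 + (w 1 : T) * X 1 * ω1 1 with hρ
  have hψ2 : (w 0 : T) * X 0 * ω 0 + (w 1 : T) * X 1 * ω 1 = G * ψ' := hψ'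
  have f0' : G * (dg w (fun e => (e : ℂ)) (ω1 0) + (w 0 : T) * ω1 0 - C E * ω1 0) =
      G * pderiv ℂ 0 ρ - ρ * Θ 0 + G ^ (n + 2) * (h1 * τ 0) - (Ng : T) * G * ω 0 +
        G * ψ' * A 0 := by
    rw [f0, hτ0]
    linear_combination (-(ω 0)) * hχ + (A 0) * hψ2
  have f1' : G * (dg w (fun e => (e : ℂ)) (ω1 1) + (w 1 : T) * ω1 1 - C E * ω1 1) =
      G * pderiv ℂ 1 ρ - ρ * Θ 1 + G ^ (n + 2) * (h1 * τ 1) - (Ng : T) * G * ω 1 +
        G * ψ' * A 1 := by
    rw [f1, hτ1]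
    linear_combination (-(ω 1)) * hχ + (A 1) * hψ2
  obtain ⟨ρ', hρ'⟩ : G ∣ ρ := by
    refine h.red (n + 1) ρ fun i => ?_
    fin_cases i
    · exact ⟨pderiv ℂ 0 ρ + G ^ (n + 1) * (h1 * τ 0) - (Ng : T) * ω 0 + ψ' * A 0 -
        (dg w (fun e => (e : ℂ)) (ω1 0) + (w 0 : T) * ω1 0 - C E * ω1 0), by
        have := f0'
        simp only [hΘ] at this
        simp only [Fin.zero_eta]
        linear_combination this⟩
    · exact ⟨pderiv ℂ 1 ρ + G ^ (n + 1) * (h1 * τ 1) - (Ng : T) * ω 1 + ψ' * A 1 -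
        (dg w (fun e => (e : ℂ)) (ω1 1) + (w 1 : T) * ω1 1 - C E * ω1 1), by
        have := f1'
        simp only [hΘ] at this
        simp only [Fin.mk_one]
        linear_combination this⟩
  have b1 : ∀ i, dg w (fun e => (e : ℂ)) (ω1 i) + (w i : T) * ω1 i - C E * ω1 i =
      G * pderiv ℂ i ρ' - ρ' * Θ' i + G ^ (n + 1) * (h1 * τ i) - (Ng : T) * ω i +
        A i * ψ' := by
    intro i
    apply mul_left_cancel₀ hG0
    fin_cases i
    · simp only [Fin.zero_eta]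
      rw [f0', hρ', hdG, hΘΘ]
      ring
    · simp only [Fin.mk_one]
      rw [f1', hρ', hdG, hΘΘ]
      ring
  -- the operators
  have hL : ∀ (c : ℕ → ℂ) (i : Fin 2) (x : T),
      dg w (fun e => c (e + w i)) (dg w (fun e => (e : ℂ)) x + (w i : T) * x - C E * x) =
        dg w (fun e => c (e + w i) * (((e + w i : ℕ) : ℂ) - E)) x := by
    intro c i x
    have a0 : dg w (fun e => (e : ℂ)) x + (w i : T) * x - C E * x =
        dg w (fun e => (((e + w i : ℕ) : ℂ) - E)) x := by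
      ext m
      have a2 : ((w i : T)) = C (w i : ℂ) := by rw [map_natCast]
      rw [map_sub, map_add, coeff_dg, coeff_dg, a2, coeff_C_mul, coeff_C_mul]
      push_cast
      ring
    rw [a0, dg_dg]
  classical
  let δ : ℕ → ℂ := fun e => if (e : ℂ) = E then 1 else 0
  let cc : ℕ → ℂ := fun e => if (e : ℂ) = E then 0 else ((e : ℂ) - E)⁻¹
  have hδ0 : ∀ e : ℕ, δ e * ((e : ℂ) - E) = 0 := by
    intro e
    by_cases he : (e : ℂ) = E
    · rw [he, sub_self, mul_zero]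
    · simp only [δ, if_neg he, zero_mul]
  have hcc : ∀ e : ℕ, cc e * ((e : ℂ) - E) + δ e = 1 := by
    intro e
    by_cases he : (e : ℂ) = E
    · simp only [cc, δ, if_pos he, zero_mul, zero_add]
    · simp only [cc, δ, if_neg he, add_zero]
      exact inv_mul_cancel₀ (sub_ne_zero.2 he)
  -- resonance
  obtain ⟨y, hy⟩ : G ^ (n + 1) ∣ dg w (fun e => δ (e + NG)) ψ' := by
    refine iter h n _ fun i => ?_
    obtain ⟨x', hx'⟩ := key_dg h n (n + 1) δ i ψ' (h0 * τ i)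
    have a1 := hL δ i (ω i)
    rw [b0 i] at a1
    simp only [hΘ'] at a1
    rw [hx'] at a1
    have a2 : (fun e => δ (e + w i) * (((e + w i : ℕ) : ℂ) - E)) = fun _ => (0 : ℂ) := by
      funext e
      exact hδ0 _
    rw [a2, dg_zero] at a1
    exact ⟨-x', by linear_combination a1⟩
  have r1 : ∀ i, ∃ x, (Ng : T) * dg w (fun e => δ (e + w i)) (ω i) =
      G * pderiv ℂ i (dg w (fun e => δ (e + NG)) ρ') -
        dg w (fun e => δ (e + NG)) ρ' * Θ' i + G ^ (n + 1) * x := by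
    intro i
    obtain ⟨x', hx'⟩ := key_dg h n (n + 1) δ i ρ' (h1 * τ i)
    have a1 := hL δ i (ω1 i)
    rw [b1 i] at a1
    simp only [hΘ'] at a1
    rw [map_add, map_sub, hx'] at a1
    have a2 : (fun e => δ (e + w i) * (((e + w i : ℕ) : ℂ) - E)) = fun _ => (0 : ℂ) := by
      funext e
      exact hδ0 _
    rw [a2, dg_zero, dg_mul (h.hA i) δ ψ', hy] at a1
    have a3 : dg w (fun e => δ (e + w i)) ((Ng : T) * ω i) =
        (Ng : T) * dg w (fun e => δ (e + w i)) (ω i) := by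
      have a4 : ((Ng : T)) = C (Ng : ℂ) := by rw [map_natCast]
      rw [a4, ← smul_eq_C_mul, ← smul_eq_C_mul, map_smul]
    rw [a3] at a1
    refine ⟨x' + A i * y, ?_⟩
    simp only [hΘ']
    linear_combination (-1 : T) * a1
  choose x1 hx1 using r1
  have r2 : ∀ i, ∃ x, ω i = dg w (fun e => δ (e + w i)) (ω i) +
      (G * pderiv ℂ i (dg w (fun e => cc (e + NG)) ψ') -
        dg w (fun e => cc (e + NG)) ψ' * Θ' i + G ^ (n + 1) * x) := by
    intro i
    obtain ⟨x', hx'⟩ := key_dg h n (n + 1) cc i ψ' (h0 * τ i)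
    have a1 := hL cc i (ω i)
    rw [b0 i] at a1
    simp only [hΘ'] at a1
    rw [hx'] at a1
    refine ⟨x', ?_⟩
    simp only [hΘ']
    rw [a1, ← dg_add]
    have a2 : (fun e => δ (e + w i) + cc (e + w i) * (((e + w i : ℕ) : ℂ) - E)) =
        fun _ => (1 : ℂ) := by
      funext e
      rw [add_comm]
      exact hcc _
    rw [a2, dg_one]
  choose x2 hx2 using r2
  have hNg : (C ((Ng : ℂ)⁻¹) : T) * (Ng : T) = 1 := by
    have a4 : ((Ng : T)) = C (Ng : ℂ) := by rw [map_natCast]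
    rw [a4, ← map_mul, inv_mul_cancel₀ (Nat.cast_ne_zero.2 h.hNg), map_one]
  refine ⟨dg w (fun e => cc (e + NG)) ψ' + C ((Ng : ℂ)⁻¹) * dg w (fun e => δ (e + NG)) ρ',
    fun i => x2 i + C ((Ng : ℂ)⁻¹) * x1 i, fun i => ?_⟩
  have d1 : pderiv ℂ i (dg w (fun e => cc (e + NG)) ψ' +
      C ((Ng : ℂ)⁻¹) * dg w (fun e => δ (e + NG)) ρ') =
      pderiv ℂ i (dg w (fun e => cc (e + NG)) ψ') +
      C ((Ng : ℂ)⁻¹) * pderiv ℂ i (dg w (fun e => δ (e + NG)) ρ') := by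
    rw [map_add, Derivation.leibniz, pderiv_C, smul_zero, add_zero, smul_eq_mul]
  rw [d1]
  have e2 := hx1 i
  have e3 := hx2 i
  simp only [hΘ'] at e2 e3
  linear_combination e3 + (C ((Ng : ℂ)⁻¹)) * e2 - dg w (fun e => δ (e + w i)) (ω i) * hNg

end

end Pool.Agent.U184
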