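import Pool.Agent.N127.PB.Stm2

set_option autoImplicit false

/-! # Functions of the members of a linear system

Let `f_j` be forms of degree `d`, and let `Φ(z)` be a homogeneous function of degree `α` in
variables `z_j`. Then `y ^ J (∑ y_j f_j) ^ (α - |J|) ↦ (∂ ^ J Φ)(f)` is compatible with the
derivations with respect to `x`. For `Φ = G ^ a`, where `G` is a form of degree `m` and `a m = α`,
this transforms the functional equation of `∑ y_j f_j` at `s = α` into an equation for
`g = G(f)`. -/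

namespace Pool.Agent.U184

open MvPolynomial Pool.Agent.H628R4.TP Pool.Agent.N127.PB Pool.Agent.W574.HS

section PJ

variable {ι : Type}

theorem pdc {κ : Type} (i j : κ) (p : MvPolynomial κ ℂ) :
    pderiv i (pderiv j p) = pderiv j (pderiv i p) := by
  classical
  induction p using MvPolynomial.induction_on with
  | C a => simp only [pderiv_C, map_zero]
  | add p q hp hq => simp only [map_add, hp, hq]
  | mul_X p k hp =>
    have hX : ∀ t : κ, pderiv t (X k : MvPolynomial κ ℂ) = C (if k = t then 1 else 0) := by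
      intro t
      rw [pderiv_X]
      by_cases h : k = t
      · subst h; simp
      · simp [h]
    simp only [Derivation.leibniz, smul_eq_mul, map_add, hX, pderiv_C, mul_zero, hp]
    ring

/-- the operators `P G ^ (a - n) ↦ ∂_k (P G ^ (a - n))` -/
noncomputable def DD (G : MvPolynomial ι ℂ) (a : ℂ) (k : ι) (p : ℕ → MvPolynomial ι ℂ) :
    ℕ → MvPolynomial ι ℂ
  | 0 => 0
  | n + 1 => G * pderiv k (p n) + C (a - n) * p n * pderiv k G

theorem DD_zero (G : MvPolynomial ι ℂ) (a : ℂ) (k : ι) (p : ℕ → MvPolynomial ι ℂ) :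
    DD G a k p 0 = 0 := rfl

theorem DD_succ (G : MvPolynomial ι ℂ) (a : ℂ) (k : ι) (p : ℕ → MvPolynomial ι ℂ) (n : ℕ) :
    DD G a k p (n + 1) = G * pderiv k (p n) + C (a - n) * p n * pderiv k G := rfl

theorem DD_comm (G : MvPolynomial ι ℂ) (a : ℂ) (k l : ι) (p : ℕ → MvPolynomial ι ℂ) :
    DD G a k (DD G a l p) = DD G a l (DD G a k p) := by
  funext n
  rcases n with _ | _ | n
  · rw [DD_zero, DD_zero]
  · rw [DD_succ, DD_succ, DD_zero, DD_zero, map_zero, map_zero]
    simp only [mul_zero, zero_mul]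
  · have h1 : (C (a - ((n + 1 : ℕ) : ℂ)) : MvPolynomial ι ℂ) = C (a - n) - 1 := by
      have : (1 : MvPolynomial ι ℂ) = C 1 := (map_one C).symm
      rw [this, ← map_sub]
      congr 1
      push_cast
      ring
    have hc : ∀ t : ι, pderiv t (C (a - (n : ℂ)) : MvPolynomial ι ℂ) = 0 := fun t => pderiv_C
    have h2 := pdc k l (p n)
    have h3 := pdc k l G
    rw [DD_succ, DD_succ, DD_succ, DD_succ, h1]
    generalize p n = q at h2 ⊢
    have hc' := hc k
    have hc'' := hc l
    generalize (C (a - (n : ℂ)) : MvPolynomial ι ℂ) = z at hc' hc'' ⊢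
    simp only [map_add, Derivation.leibniz, smul_eq_mul, hc', hc'', h2, h3]
    ring

instance (G : MvPolynomial ι ℂ) (a : ℂ) : LeftCommutative (DD G a) := ⟨DD_comm G a⟩

/-- the derivatives of `G ^ a`, divided by `G ^ (a - |s|)` -/
noncomputable def PJ (G : MvPolynomial ι ℂ) (a : ℂ) (s : Multiset ι) : MvPolynomial ι ℂ :=
  Multiset.foldr (DD G a) (fun n => if n = 0 then 1 else 0) s (Multiset.card s)

theorem PJ_zero (G : MvPolynomial ι ℂ) (a : ℂ) : PJ G a 0 = 1 := by
  simp [PJ]

theorem PJ_cons (G : MvPolynomial ι ℂ) (a : ℂ) (k : ι) (s : Multiset ι) :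
    PJ G a (k ::ₘ s) = G * pderiv k (PJ G a s) +
      C (a - (Multiset.card s : ℕ)) * PJ G a s * pderiv k G := by
  rw [PJ, Multiset.foldr_cons, Multiset.card_cons]
  rfl

theorem PJ_hom (G : MvPolynomial ι ℂ) (a : ℂ) (m : ℕ) (hm : 0 < m) (hG : G.IsHomogeneous m)
    (s : Multiset ι) : (PJ G a s).IsHomogeneous ((m - 1) * Multiset.card s) := by
  induction s using Multiset.induction_on with
  | empty =>
    rw [PJ_zero, Multiset.card_zero, mul_zero]
    exact isHomogeneous_one _ _
  | cons k s ih =>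
    rw [PJ_cons, Multiset.card_cons]
    refine IsHomogeneous.add ?_ ?_
    · by_cases h0 : (m - 1) * Multiset.card s = 0
      · rw [h0] at ih
        rw [totalDegree_eq_zero_iff_eq_C.1 (Nat.le_zero.1 ih.totalDegree_le), pderiv_C, mul_zero]
        exact isHomogeneous_zero _ _ _
      · have h1 := hG.mul (ih.pderiv (i := k))
        have e : m + ((m - 1) * Multiset.card s - 1) = (m - 1) * (Multiset.card s + 1) := by
          rw [mul_add, mul_one]
          omega
        rwa [e] at h1
    · have h1 := (ih.C_mul (a - (Multiset.card s : ℕ))).mul (hG.pderiv (i := k))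
      have e : (m - 1) * Multiset.card s + (m - 1) = (m - 1) * (Multiset.card s + 1) := by
        rw [mul_add, mul_one]
      rwa [e] at h1

theorem PJ_euler [Fintype ι] (G : MvPolynomial ι ℂ) (a : ℂ) (m : ℕ) (hm : 0 < m)
    (hG : G.IsHomogeneous m) (s : Multiset ι) :
    ∑ k, X k * PJ G a (k ::ₘ s) = C (m * a - (Multiset.card s : ℕ)) * (G * PJ G a s) := by
  have h1 := hG.sum_X_mul_pderiv
  have h2 := (PJ_hom G a m hm hG s).sum_X_mul_pderiv
  rw [nsmul_eq_mul] at h1 h2
  have h3 : ∑ k, X k * PJ G a (k ::ₘ s) = G * ∑ k, X k * pderiv k (PJ G a s) +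
      C (a - (Multiset.card s : ℕ)) * PJ G a s * ∑ k, X k * pderiv k G := by
    rw [Finset.mul_sum, Finset.mul_sum, ← Finset.sum_add_distrib]
    refine Finset.sum_congr rfl fun k _ => ?_
    rw [PJ_cons]
    ring
  rw [h3, h1, h2]
  have h4 : (((m - 1) * Multiset.card s : ℕ) : MvPolynomial ι ℂ) =
      C (((m : ℂ) - 1) * (Multiset.card s : ℕ)) := by
    rw [← map_natCast (C : ℂ →+* MvPolynomial ι ℂ), Nat.cast_mul, Nat.cast_sub hm, Nat.cast_one]
  have h5 : ((m : ℕ) : MvPolynomial ι ℂ) = C (m : ℂ) := by rw [map_natCast]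
  rw [h4, h5]
  have h6 : (C (m * a - (Multiset.card s : ℕ)) : MvPolynomial ι ℂ) =
      C (((m : ℂ) - 1) * (Multiset.card s : ℕ)) + C (a - (Multiset.card s : ℕ)) * C (m : ℂ) := by
    rw [← map_mul, ← map_add]
    congr 1
    ring
  rw [h6]
  ring

end PJ

section TT

variable {ι σ : Type}

/-- the exponent of `x` -/
noncomputable def xpt (c : ι ⊕ σ →₀ ℕ) : σ →₀ ℕ :=
  c.comapDomain Sum.inr Sum.inr_injective.injOn

/-- the exponent of `y` -/
noncomputable def ypt (c : ι ⊕ σ →₀ ℕ) : ι →₀ ℕ :=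
  c.comapDomain Sum.inl Sum.inl_injective.injOn

/-- the exponent of `y`, as a multiset -/
noncomputable def yms (c : ι ⊕ σ →₀ ℕ) : Multiset ι := Finsupp.toMultiset (ypt c)

theorem xpt_apply (c : ι ⊕ σ →₀ ℕ) (l : σ) : xpt c l = c (Sum.inr l) := rfl

theorem ypt_apply (c : ι ⊕ σ →₀ ℕ) (l : ι) : ypt c l = c (Sum.inl l) := rfl

/-- the transformation -/
noncomputable def TT (f : ι → MvPolynomial σ ℂ) (G : MvPolynomial ι ℂ) (a : ℂ) :
    MvPolynomial (ι ⊕ σ) ℂ →ₗ[ℂ] MvPolynomial σ ℂ :=
  (basisMonomials (ι ⊕ σ) ℂ).constr ℂ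
    (fun c => monomial (xpt c) 1 * aeval f (PJ G a (yms c)))

theorem TT_mon (f : ι → MvPolynomial σ ℂ) (G : MvPolynomial ι ℂ) (a : ℂ) (c : ι ⊕ σ →₀ ℕ)
    (r : ℂ) : TT f G a (monomial c r) =
      C r * (monomial (xpt c) 1 * aeval f (PJ G a (yms c))) := by
  have h1 : (monomial c r : MvPolynomial (ι ⊕ σ) ℂ) = r • basisMonomials (ι ⊕ σ) ℂ c := by
    rw [coe_basisMonomials, smul_monomial, smul_eq_mul, mul_one]
  rw [h1, map_smul, TT, Module.Basis.constr_basis, smul_eq_C_mul]

theorem xpt_inl (k : ι) (c : ι ⊕ σ →₀ ℕ) : xpt (Finsupp.single (Sum.inl k) 1 + c) = xpt c := by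
  classical
  ext l
  rw [xpt_apply, Finsupp.add_apply, Finsupp.single_apply, if_neg (by simp), zero_add, xpt_apply]

theorem yms_inl (k : ι) (c : ι ⊕ σ →₀ ℕ) :
    yms (Finsupp.single (Sum.inl k) 1 + c) = k ::ₘ yms c := by
  classical
  have h : ypt (Finsupp.single (Sum.inl k) 1 + c) = Finsupp.single k 1 + ypt c := by
    ext l
    rw [ypt_apply, Finsupp.add_apply, Finsupp.add_apply, Finsupp.single_apply,
      Finsupp.single_apply, ypt_apply]
    congr 1
    by_cases h : k = l
    · subst h; simp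
    · rw [if_neg h, if_neg (fun h' => h (Sum.inl_injective h'))]
  rw [yms, h, map_add, Finsupp.toMultiset_single, one_smul, Multiset.singleton_add]
  rfl

theorem xpt_inr (k : σ) (c : ι ⊕ σ →₀ ℕ) :
    xpt (Finsupp.single (Sum.inr k) 1 + c) = Finsupp.single k 1 + xpt c := by
  classical
  ext l
  rw [xpt_apply, Finsupp.add_apply, Finsupp.add_apply, Finsupp.single_apply,
    Finsupp.single_apply, xpt_apply]
  congr 1
  by_cases h : k = l
  · subst h; simp
  · rw [if_neg h, if_neg (fun h' => h (Sum.inr_injective h'))]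

theorem yms_inr (k : σ) (c : ι ⊕ σ →₀ ℕ) : yms (Finsupp.single (Sum.inr k) 1 + c) = yms c := by
  classical
  have h : ypt (Finsupp.single (Sum.inr k) 1 + c) = ypt c := by
    ext l
    rw [ypt_apply, Finsupp.add_apply, Finsupp.single_apply, if_neg (by simp), zero_add, ypt_apply]
  rw [yms, h, yms]

theorem TT_X_inl (f : ι → MvPolynomial σ ℂ) (G : MvPolynomial ι ℂ) (a : ℂ) (k : ι)
    (c : ι ⊕ σ →₀ ℕ) (r : ℂ) : TT f G a (X (Sum.inl k) * monomial c r) =
      C r * (monomial (xpt c) 1 * aeval f (PJ G a (k ::ₘ yms c))) := by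
  rw [X, monomial_mul, one_mul, TT_mon, xpt_inl, yms_inl]

theorem TT_X_inr (f : ι → MvPolynomial σ ℂ) (G : MvPolynomial ι ℂ) (a : ℂ) (l : σ)
    (V : MvPolynomial (ι ⊕ σ) ℂ) : TT f G a (X (Sum.inr l) * V) = X l * TT f G a V := by
  induction V using MvPolynomial.monomial_add_induction_on with
  | C r =>
    have e : (C r : MvPolynomial (ι ⊕ σ) ℂ) = monomial 0 r := rfl
    rw [e, X, monomial_mul, one_mul, TT_mon, TT_mon, xpt_inr, yms_inr, X, ← mul_assoc, ← mul_assoc,
      ← mul_assoc]
    congr 1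
    rw [mul_comm (monomial (Finsupp.single l 1) 1), mul_assoc, monomial_mul, one_mul, add_comm]
  | monomial_add c r p hc hr ih =>
    rw [mul_add, map_add, map_add, ih, mul_add]
    congr 1
    rw [X, monomial_mul, one_mul, TT_mon, TT_mon, xpt_inr, yms_inr, X, ← mul_assoc, ← mul_assoc,
      ← mul_assoc]
    congr 1
    rw [mul_comm (monomial (Finsupp.single l 1) 1), mul_assoc, monomial_mul, one_mul, add_comm]

theorem TT_rename (f : ι → MvPolynomial σ ℂ) (G : MvPolynomial ι ℂ) (a : ℂ)
    (p : MvPolynomial σ ℂ) (V : MvPolynomial (ι ⊕ σ) ℂ) :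
    TT f G a (rename Sum.inr p * V) = p * TT f G a V := by
  induction p using MvPolynomial.induction_on generalizing V with
  | C r => rw [rename_C, ← smul_eq_C_mul, ← smul_eq_C_mul, map_smul]
  | add p q hp hq => rw [map_add, add_mul, map_add, hp, hq, add_mul]
  | mul_X p l hp =>
    have e : rename Sum.inr (p * X l) * V = rename Sum.inr p * (X (Sum.inr l) * V) := by
      rw [map_mul (rename Sum.inr), rename_X, mul_assoc]
    rw [e, hp, TT_X_inr, mul_assoc]

theorem TT_pd (f : ι → MvPolynomial σ ℂ) (G : MvPolynomial ι ℂ) (a : ℂ) (l : σ)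
    (c : ι ⊕ σ →₀ ℕ) (r : ℂ) : TT f G a (pderiv (Sum.inr l) (monomial c r)) =
      C r * (pderiv l (monomial (xpt c) 1) * aeval f (PJ G a (yms c))) := by
  classical
  rw [pderiv_monomial, pderiv_monomial, TT_mon, one_mul]
  have h1 : xpt (c - Finsupp.single (Sum.inr l) 1) = xpt c - Finsupp.single l 1 := by
    ext k
    rw [xpt_apply, Finsupp.tsub_apply, Finsupp.tsub_apply, xpt_apply, Finsupp.single_apply,
      Finsupp.single_apply]
    congr 1
    by_cases h : l = k
    · subst h; simp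
    · rw [if_neg h, if_neg (fun h' => h (Sum.inr_injective h'))]
  have h2 : ypt (c - Finsupp.single (Sum.inr l) 1) = ypt c := by
    ext k
    rw [ypt_apply, Finsupp.tsub_apply, Finsupp.single_apply, if_neg (by simp), Nat.sub_zero,
      ypt_apply]
  have h3 : (monomial (xpt c - Finsupp.single l 1) ((xpt c l : ℕ) : ℂ) : MvPolynomial σ ℂ) =
      C ((xpt c l : ℕ) : ℂ) * monomial (xpt c - Finsupp.single l 1) 1 := by
    rw [C_mul_monomial, mul_one]
  rw [h1, h3, xpt_apply, map_mul, yms, h2, ← yms]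
  ring

/-- the chain rule -/
theorem pd_aeval [Fintype ι] (f : ι → MvPolynomial σ ℂ) (l : σ) (P : MvPolynomial ι ℂ) :
    pderiv l (aeval f P) = ∑ k, pderiv l (f k) * aeval f (pderiv k P) := by
  classical
  induction P using MvPolynomial.induction_on with
  | C a =>
    rw [aeval_C]
    have : algebraMap ℂ (MvPolynomial σ ℂ) a = C a := rfl
    rw [this, pderiv_C]
    symm
    exact Finset.sum_eq_zero fun k _ => by rw [pderiv_C, map_zero, mul_zero]
  | add p q hp hq =>
    rw [map_add, map_add, hp, hq, ← Finset.sum_add_distrib]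
    exact Finset.sum_congr rfl fun k _ => by rw [map_add, map_add]; ring
  | mul_X p i hp =>
    rw [map_mul, aeval_X, Derivation.leibniz, hp, smul_eq_mul, smul_eq_mul]
    have h : ∀ k, pderiv l (f k) * aeval f (pderiv k (p * X i)) =
        f i * (pderiv l (f k) * aeval f (pderiv k p)) +
          if k = i then aeval f p * pderiv l (f i) else 0 := by
      intro k
      rw [Derivation.leibniz, smul_eq_mul, smul_eq_mul, map_add, map_mul, map_mul, aeval_X]
      by_cases h : k = i
      · subst h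
        rw [pderiv_X_self, if_pos rfl, map_one]
        ring
      · rw [pderiv_X_of_ne (fun h' => h h'.symm), if_neg h, map_zero]
        ring
    rw [Finset.sum_congr rfl fun k _ => h k, Finset.sum_add_distrib, Finset.sum_ite_eq',
      if_pos (Finset.mem_univ i), Finset.mul_sum]
    ring

end TT

end Pool.Agent.U184
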