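import Pool.Agent.U184.Per2
import Pool.Agent.U184.Bert
import Pool.Agent.W574.MO.Cone
import Pool.Agent.R852.PP.FE
import Pool.Agent.R852.SC.Main

set_option autoImplicit false

/-! # The root `-n/d`: products of powers of linear systems -/

namespace Pool.Agent.U184

open MvPolynomial Pool.Agent.H628R4.TP Pool.Agent.W574.HS Pool.Agent.W574.SM
  Pool.Agent.TH192.DT Pool.Agent.Y228.RR Pool.Agent.Y231.RF Pool.Agent.R852.SC

section mem

variable {σ : Type}

/-- the elements of `L ^ m` are the values of the forms of degree `m` -/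
theorem exists_form_of_mem {ι : Type} (f : ι → MvPolynomial σ ℂ) (m : ℕ) (x : MvPolynomial σ ℂ)
    (hx : x ∈ Submodule.span ℂ (Set.range f) ^ m) :
    ∃ G : MvPolynomial ι ℂ, G.IsHomogeneous m ∧ aeval f G = x := by
  induction m generalizing x with
  | zero =>
    rw [pow_zero, Submodule.mem_one] at hx
    obtain ⟨c, rfl⟩ := hx
    exact ⟨C c, isHomogeneous_C _ _, aeval_C _ _⟩
  | succ m ih =>
    rw [pow_succ] at hx
    refine Submodule.mul_induction_on hx ?_ ?_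
    · intro u hu v hv
      obtain ⟨G, hG, rfl⟩ := ih u hu
      have hv' : ∃ L : MvPolynomial ι ℂ, L.IsHomogeneous 1 ∧ aeval f L = v := by
        refine Submodule.span_induction ?_ ?_ ?_ ?_ hv
        · rintro _ ⟨j, rfl⟩
          exact ⟨X j, isHomogeneous_X _ _, aeval_X _ _⟩
        · exact ⟨0, isHomogeneous_zero _ _ _, map_zero _⟩
        · rintro _ _ _ _ ⟨L1, h1, rfl⟩ ⟨L2, h2, rfl⟩
          exact ⟨L1 + L2, h1.add h2, map_add _ _ _⟩
        · rintro c _ _ ⟨L1, h1, rfl⟩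
          refine ⟨C c * L1, ?_, by rw [map_mul, aeval_C, Algebra.smul_def]⟩
          have := (isHomogeneous_C ι c).mul h1
          rwa [zero_add] at this
      obtain ⟨L, hL, rfl⟩ := hv'
      exact ⟨G * L, hG.mul hL, map_mul _ _ _⟩
    · rintro _ _ ⟨G1, h1, rfl⟩ ⟨G2, h2, rfl⟩
      exact ⟨G1 + G2, h1.add h2, map_add _ _ _⟩

theorem mem_prod {τ : Type} [Fintype τ] (L : τ → Submodule ℂ (MvPolynomial σ ℂ))
    (x : τ → MvPolynomial σ ℂ) (hx : ∀ t, x t ∈ L t) : ∏ t, x t ∈ ∏ t, L t := by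
  classical
  have h : ∀ s : Finset τ, ∏ t ∈ s, x t ∈ ∏ t ∈ s, L t := by
    intro s
    induction s using Finset.induction_on with
    | empty =>
      rw [Finset.prod_empty, Finset.prod_empty]
      exact Submodule.one_le.1 le_rfl
    | insert t s ht ih =>
      rw [Finset.prod_insert ht, Finset.prod_insert ht]
      exact Submodule.mul_mem_mul (hx t) ih
  exact h _

/-- products of the linear systems -/
theorem prod_span_le {τ : Type} [Fintype τ] [DecidableEq τ] {κ : τ → Type}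
    (f : (t : τ) → κ t → MvPolynomial σ ℂ) :
    ∏ t, Submodule.span ℂ (Set.range (f t)) ≤ Submodule.span ℂ (Set.range (prodFam f)) := by
  rw [Submodule.prod_span]
  refine Submodule.span_mono ?_
  intro x hx
  rw [Set.mem_finsetProd] at hx
  obtain ⟨g, hg, rfl⟩ := hx
  choose j hj using fun t => hg (Finset.mem_univ t)
  exact ⟨j, by unfold prodFam; exact Finset.prod_congr rfl fun t _ => hj t⟩

end mem

variable {σ T : Type} [Fintype σ] [Fintype T] {κ : T → Type}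

/-- Let `L_t` be the linear system spanned by the forms `g t j`, `j ∈ κ t`, and let
`L = ∏ t, L_t ^ a t` be spanned by the products. There are integers `m, k ≥ 1` and a form `h ≠ 0` such
that `h ^ k ∈ L ^ m`, and such that the class of `dx_1 ... dx_n` in `H ^ n(Ω, d - dh ∧)` is not zero
(`HasPeriod`), for instance because the projective hypersurface `h = 0` is smooth, or because
`h > 0` on `ℝ ^ n` without the origin. -/
def GoodSystem (g : (t : T) → κ t → MvPolynomial σ ℂ) (a : T → ℕ) : Prop :=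
  ∃ (m k e : ℕ) (h : MvPolynomial σ ℂ), 0 < m ∧ 0 < k ∧ h.IsHomogeneous e ∧ h ≠ 0 ∧
    HasPeriod h ∧ h ^ k ∈ (∏ t, Submodule.span ℂ (Set.range (g t)) ^ a t) ^ m

theorem GoodSystem.good [DecidableEq T] {g : (t : T) → κ t → MvPolynomial σ ℂ} {a : T → ℕ}
    (h : GoodSystem g a) : GoodMember (prodFam fun q : Σ t, Fin (a t) => g q.1) := by
  obtain ⟨m, k, e, h, hm, hk, hh, h0, hp, hmem⟩ := h
  have h1 : (∏ t, Submodule.span ℂ (Set.range (g t)) ^ a t) ≤
      Submodule.span ℂ (Set.range (prodFam fun q : Σ t, Fin (a t) => g q.1)) := by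
    refine le_trans (le_of_eq ?_) (prod_span_le _)
    rw [Fintype.prod_sigma]
    refine Finset.prod_congr rfl fun t _ => ?_
    simp
  obtain ⟨G, hG, hGh⟩ := exists_form_of_mem _ m _ (pow_le_pow_left' h1 m hmem)
  exact ⟨m, k, e, G, h, hm, hk, hG, hh, h0, hGh, Or.inr hp⟩

/-- There is a form `h ≠ 0` such that the class of `dx_1 ... dx_n` in `H ^ n(Ω, d - dh ∧)` is not zero,
and such that for every `t` some power `h ^ k` is in some power `L_t ^ m` (`k, m ≥ 1`) of the linear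
system `L_t` spanned by the `g t j`. -/
def CommonMember (g : (t : T) → κ t → MvPolynomial σ ℂ) : Prop :=
  ∃ (e : ℕ) (h : MvPolynomial σ ℂ), h.IsHomogeneous e ∧ h ≠ 0 ∧ HasPeriod h ∧
    ∀ t, ∃ m k : ℕ, 0 < m ∧ 0 < k ∧ h ^ k ∈ Submodule.span ℂ (Set.range (g t)) ^ m

theorem CommonMember.good {g : (t : T) → κ t → MvPolynomial σ ℂ}
    (h : CommonMember g) (a : T → ℕ) (ha : ∃ t, a t ≠ 0) : GoodSystem g a := by
  classical
  obtain ⟨e, h, hh, h0, hp, hm⟩ := h
  choose m k hm0 hk0 hmem using hm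
  set M : ℕ := ∏ t, m t with hM
  have hMpos : 0 < M := Finset.prod_pos fun t _ => hm0 t
  have hdvd : ∀ t, m t ∣ M := fun t => Finset.dvd_prod_of_mem _ (Finset.mem_univ t)
  refine ⟨M, ∑ t, k t * (M / m t) * a t, e, h, hMpos, ?_, hh, h0, hp, ?_⟩
  · obtain ⟨t, ht⟩ := ha
    refine lt_of_lt_of_le (Nat.mul_pos (Nat.mul_pos (hk0 t) ?_) (Nat.pos_of_ne_zero ht))
      (Finset.single_le_sum (f := fun t => k t * (M / m t) * a t) (fun _ _ => Nat.zero_le _)
        (Finset.mem_univ t))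
    exact Nat.div_pos (Nat.le_of_dvd hMpos (hdvd t)) (hm0 t)
  · rw [← Finset.prod_pow_eq_pow_sum, ← Finset.prod_pow]
    have h1 : ∀ t, (h ^ (k t * (M / m t) * a t)) ∈
        (Submodule.span ℂ (Set.range (g t)) ^ a t) ^ M := by
      intro t
      have h2 : (h ^ k t) ^ (M / m t) ∈ (Submodule.span ℂ (Set.range (g t)) ^ m t) ^ (M / m t) :=
        Submodule.pow_mem_pow _ (hmem t) _
      rw [← pow_mul (Submodule.span ℂ (Set.range (g t))), Nat.mul_div_cancel' (hdvd t)] at h2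
      have h3 := Submodule.pow_mem_pow _ h2 (a t)
      rw [← pow_mul (Submodule.span ℂ (Set.range (g t))), mul_comm M,
        pow_mul (Submodule.span ℂ (Set.range (g t)))] at h3
      rw [pow_mul, pow_mul]
      exact h3
    exact mem_prod _ _ h1

section roots

variable [DecidableEq σ] [DecidableEq T] [∀ t, Fintype (κ t)] [∀ t, DecidableEq (κ t)]

theorem fam_homog {g : (t : T) → κ t → MvPolynomial σ ℂ} {δ : T → ℕ}
    (hg : ∀ t j, (g t j).IsHomogeneous (δ t)) (a : T → ℕ) (J : (q : Σ t, Fin (a t)) → κ q.1) :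
    (prodFam (fun q : Σ t, Fin (a t) => g q.1) J).IsHomogeneous (∑ t, a t * δ t) := by
  have h1 : (prodFam (fun q : Σ t, Fin (a t) => g q.1) J).IsHomogeneous
      (∑ q : Σ t, Fin (a t), δ q.1) := by
    unfold prodFam
    exact IsHomogeneous.prod _ _ _ fun q _ => hg q.1 (J q)
  have h2 : (∑ q : Σ t, Fin (a t), δ q.1) = ∑ t, a t * δ t := by
    rw [Fintype.sum_sigma]
    refine Finset.sum_congr rfl fun t _ => ?_
    simp
  rw [← h2]
  exact h1

theorem sum_pos_of {δ : T → ℕ} (hδ : ∀ t, 0 < δ t) {a : T → ℕ} (ha : ∃ t, a t ≠ 0) :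
    0 < ∑ t, a t * δ t := by
  obtain ⟨t, ht⟩ := ha
  exact lt_of_lt_of_le (Nat.mul_pos (Nat.pos_of_ne_zero ht) (hδ t))
    (Finset.single_le_sum (f := fun t => a t * δ t) (fun _ _ => Nat.zero_le _) (Finset.mem_univ t))

/-- the root `-n / N_0` for the ideal -/
theorem root_sys_ideal (g : (t : T) → κ t → MvPolynomial σ ℂ) (δ : T → ℕ) (hδ : ∀ t, 0 < δ t)
    (hg : ∀ t j, (g t j).IsHomogeneous (δ t)) (hg0 : ∀ t, ∃ j, g t j ≠ 0) (a : T → ℕ)
    (ha : ∃ t, a t ≠ 0) (hG : GoodSystem g a) (b : Polynomial ℂ)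
    (hb : IsFunctionalEq (prodFam fun q : Σ t, Fin (a t) => g q.1) b) :
    b.eval (-(Fintype.card σ : ℂ) / ((∑ t, a t * δ t : ℕ) : ℂ)) = 0 := by
  have : Nonempty T := ⟨ha.choose⟩
  have := nonempty_of g δ hδ hg hg0
  exact root_good_ideal _ _ (sum_pos_of hδ ha) Fintype.card_pos (fam_homog hg a) b hb hG.good

/-- the root `-n / N_0` for the product of the powers of the forms -/
theorem root_sys_form (g : (t : T) → κ t → MvPolynomial σ ℂ) (δ : T → ℕ) (hδ : ∀ t, 0 < δ t)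
    (hg : ∀ t j, (g t j).IsHomogeneous (δ t)) (hg0 : ∀ t, ∃ j, g t j ≠ 0) (a : T → ℕ)
    (ha : ∃ t, a t ≠ 0) (hG : GoodSystem g a) (b : Polynomial ℂ)
    (hb : IsBFunction (powProd a g) b) :
    b.eval (-(Fintype.card σ : ℂ) / ((∑ t, a t * δ t : ℕ) : ℂ)) = 0 := by
  obtain ⟨t0, ht0⟩ := id ha
  obtain ⟨P, hP⟩ := hb
  have h1 := locEq_of_powProd a g t0 ht0 b 1 P (fun s => by rw [one_mul]; exact hP s)
  have h2 : hat (1 : MvPolynomial ((Σ t, κ t) ⊕ σ) ℂ) 0 = 1 := by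
    rw [hat_one, if_pos rfl]
  rw [h2] at h1
  exact root_sys_ideal g δ hδ hg hg0 a ha hG b (Pool.Agent.R852.PP.functional_of_loc _ _ h1)

theorem powProd_homog (g : (t : T) → κ t → MvPolynomial σ ℂ) (δ : T → ℕ)
    (hg : ∀ t j, (g t j).IsHomogeneous (δ t)) (a : T → ℕ) :
    (powProd a g).IsHomogeneous (∑ t, (1 + δ t) * a t) := by
  unfold powProd
  refine IsHomogeneous.prod _ _ _ fun t _ => ?_
  refine IsHomogeneous.pow ?_ _
  unfold blockForm
  exact IsHomogeneous.sum _ _ _ fun j _ =>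
    (isHomogeneous_X ℂ _).mul ((hg t j).rename_isHomogeneous)

theorem bfun_of_local_sys (g : (t : T) → κ t → MvPolynomial σ ℂ) (δ : T → ℕ)
    (hg : ∀ t j, (g t j).IsHomogeneous (δ t)) (hg0 : ∀ t, ∃ j, g t j ≠ 0) (a : T → ℕ)
    (b : Polynomial ℂ) (hb : IsLocalBFunction (powProd a g) b) : IsBFunction (powProd a g) b :=
  Pool.Agent.W574.MO.global_of_local _ (powProd_ne a g hg0) _ (powProd_homog g δ hg a) b hb

theorem eval_eq_of_mul {b : Polynomial ℂ} {n N₀ ν N : ℕ} (hN₀ : 0 < N₀) (hN : 0 < N)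
    (h : ν * N₀ = n * N) (hb : b.eval (-(n : ℂ) / (N₀ : ℂ)) = 0) :
    b.eval (-(ν : ℂ) / (N : ℂ)) = 0 := by
  have h0 : (N₀ : ℂ) ≠ 0 := Nat.cast_ne_zero.2 hN₀.ne'
  have h1 : (N : ℂ) ≠ 0 := Nat.cast_ne_zero.2 hN.ne'
  have h2 : (ν : ℂ) * N₀ = n * N := by exact_mod_cast h
  have h3 : (-(ν : ℂ) / (N : ℂ)) = -(n : ℂ) / (N₀ : ℂ) := by
    rw [div_eq_div_iff h1 h0]
    linear_combination -h2
  rw [h3]
  exact hb

/-- the roots of the components, global -/
theorem comp_global (g : (t : T) → κ t → MvPolynomial σ ℂ) (δ : T → ℕ) (hδ : ∀ t, 0 < δ t)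
    (hg : ∀ t j, (g t j).IsHomogeneous (δ t)) (hg0 : ∀ t, ∃ j, g t j ≠ 0) (a : T → ℕ)
    (ha : ∃ t, a t ≠ 0) (hG : GoodSystem g a) (b : Polynomial ℂ)
    (hb : IsBFunction (powProd a g) b) (ν N : ℕ) (hN : 0 < N)
    (h : ν * ∑ t, a t * δ t = Fintype.card σ * N ∨ FromRees g a 1 ν N) :
    b.eval (-(ν : ℂ) / (N : ℂ)) = 0 := by
  rcases h with h | h
  · exact eval_eq_of_mul (sum_pos_of hδ ha) hN h (root_sys_form g δ hδ hg hg0 a ha hG b hb)
  · obtain ⟨H, hH, hHb⟩ := locEq_global a g b hb ha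
    exact root_of_from a g b H hHb _ _ hN (h.congr hH)

/-- the roots of the components, local -/
theorem comp_local (g : (t : T) → κ t → MvPolynomial σ ℂ) (δ : T → ℕ) (hδ : ∀ t, 0 < δ t)
    (hg : ∀ t j, (g t j).IsHomogeneous (δ t)) (hg0 : ∀ t, ∃ j, g t j ≠ 0) (a : T → ℕ)
    (ha : ∃ t, a t ≠ 0) (hG : GoodSystem g a) (b : Polynomial ℂ)
    (hb : IsLocalBFunction (powProd a g) b) (ν N : ℕ) (hN : 0 < N)
    (h : ν * ∑ t, a t * δ t = Fintype.card σ * N ∨ FromRees g a 1 ν N) :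
    b.eval (-(ν : ℂ) / (N : ℂ)) = 0 :=
  comp_global g δ hδ hg hg0 a ha hG b (bfun_of_local_sys g δ hg hg0 a b hb) ν N hN h

end roots

end Pool.Agent.U184
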