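import Pool.Agent.U841.SN.Defs2

set_option autoImplicit false

/-! # Multiplicities of tuples on the blow-up of points -/

namespace Pool.Agent.U184

open MvPolynomial Pool.Agent.U841.SN

/-- The multiplicities of the functions `F j = ∏ t, f t ^ A j t` after the blow-up of the points
of `S`: the multiplicity of `F j` at `p` along the exceptional divisor over `p`, and `A j t` along the
strict transform of `f t = 0`. -/
noncomputable def mulM {σ T J : Type} [Fintype T] (S : Finset (σ → ℂ)) (f : T → MvPolynomial σ ℂ)
    (A : J → T → ℕ) : S ⊕ T → J → ℕ :=
  Sum.elim (fun p j => ∑ t, A j t * multAt p.1 (f t)) fun t j => A j t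

end Pool.Agent.U184
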