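import Pool.Agent.U841.SN.Top2
import Pool.Agent.Y231.RF.Tup
import Pool.Agent.U184.NTDefs

set_option autoImplicit false

/-! # Tuples, twisted and motivic zeta functions of hypersurfaces whose tangent cones have normal
crossings (the roots are in the library `U841.SN`) -/

namespace Pool.Agent.U184

open MvPolynomial Pool.Agent.H628R4.TP Pool.Agent.TH192.DT Pool.Agent.R852.BM Pool.Agent.U841.SN
  Pool.Agent.Y231.RF

variable {n : ℕ} {T J : Type} [Fintype T] [Fintype J]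

theorem prod_prodPow (f : T → MvPolynomial (Fin n) ℂ) (A : J → T → ℕ) (k : J → ℕ) :
    ∏ j, prodPow f (A j) ^ k j = prodPow f fun t => ∑ j, k j * A j t := by
  unfold prodPow
  simp_rw [← Finset.prod_pow, ← pow_mul]
  rw [Finset.prod_comm]
  refine Finset.prod_congr rfl fun t _ => ?_
  rw [Finset.prod_pow_eq_pow_sum]
  congr 1
  exact Finset.sum_congr rfl fun j _ => mul_comm _ _

theorem mulM_sum (S : Finset (Fin n → ℂ)) (f : T → MvPolynomial (Fin n) ℂ) (A : J → T → ℕ)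
    (k : J → ℕ) (o : S ⊕ T) :
    mulS S f (fun t => ∑ j, k j * A j t) o = ∑ j, k j * mulM S f A o j := by
  rcases o with p | t
  · change ∑ t, (∑ j, k j * A j t) * multAt p.1 (f t) = ∑ j, k j * ∑ t, A j t * multAt p.1 (f t)
    simp_rw [Finset.sum_mul, Finset.mul_sum]
    rw [Finset.sum_comm]
    exact Finset.sum_congr rfl fun j _ => Finset.sum_congr rfl fun t _ => mul_assoc _ _ _
  · rfl

/-- **Tuples.** -/
theorem nt_tuple (hn : 2 ≤ n) (f : T → MvPolynomial (Fin n) ℂ)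
    (hu : ∀ t, ¬ IsUnit (f t)) (hcone : ∀ p, ConesCrossAt f p) (S : Finset (Fin n → ℂ))
    (hS : ∀ p, p ∈ S → ¬ CrossAt f p) (A : J → T → ℕ) (hA : ∀ t, ∃ j, 0 < A j t)
    (χ : Finset (S ⊕ T) → ℤ) (z : J → ℂ)
    (hz : z ∈ PolarLocus (topM (nuS n S T) (mulM S f A) χ)) :
    ∃ o, ∑ j, (mulM S f A o j : ℂ) * z j + (nuS n S T o : ℂ) = 0 ∧
      ∀ k : J → ℕ, (∀ j, 0 < k j) → ∀ b : Polynomial ℂ,
        IsBFunction (∏ j, prodPow f (A j) ^ k j) b →
        b.eval (-(nuS n S T o : ℂ) / ∑ j, (k j : ℂ) * (mulM S f A o j : ℂ)) = 0 := by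
  obtain ⟨o, ho⟩ := polar_topM (nuS n S T) (nuS_pos S hn) (mulM S f A) χ z hz
  refine ⟨o, ho, fun k hk b hb => ?_⟩
  rw [prod_prodPow] at hb
  have ha : ∀ t, 0 < ∑ j, k j * A j t := by
    intro t
    obtain ⟨j, hj⟩ := hA t
    exact Finset.sum_pos' (fun _ _ => Nat.zero_le _) ⟨j, Finset.mem_univ j, Nat.mul_pos (hk j) hj⟩
  have h := glob_cand hn ha hcone S hS hu b hb o
  rw [mulM_sum] at h
  push_cast at h
  exact h

/-- **Twisted.** -/
theorem nt_twisted (hn : 2 ≤ n) (f : T → MvPolynomial (Fin n) ℂ)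
    (hu : ∀ t, ¬ IsUnit (f t)) (hcone : ∀ p, ConesCrossAt f p) (S : Finset (Fin n → ℂ))
    (hS : ∀ p, p ∈ S → ¬ CrossAt f p) (a : T → ℕ) (ha : ∀ t, 0 < a t)
    (b : Polynomial ℂ) (hb : IsBFunction (prodPow f a) b) (e : ℕ)
    (χ : Finset (S ⊕ T) → ℤ) (s₀ : ℂ)
    (hs : (twZ e (nuS n S T) (mulS S f a) χ).denom.eval s₀ = 0) : b.eval s₀ = 0 := by
  obtain ⟨χ', h⟩ := twZ_eq e (nuS n S T) (mulS S f a) χ
  rw [h] at hs
  exact glob_top hn ha hcone S hS hu b hb χ' s₀ hs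

/-- **Local motivic, with a set of pairs.** -/
theorem nt_loc_mot (hn : 2 ≤ n) (f : T → MvPolynomial (Fin n) ℂ) (p : Fin n → ℂ)
    (hcone : ConesCrossAt f p) (a : T → ℕ) (ha : ∀ t, 0 < a t) :
    ∃ 𝒮 : Finset (ℤ × ℤ),
      (∀ q ∈ 𝒮, q.1 < 0 ∧ 0 < q.2 ∧ ∀ b : Polynomial ℂ,
        IsLocalBFunction (shiftP p (prodPow f a)) b → b.eval ((q.1 : ℂ) / q.2) = 0) ∧
      ∀ (I : Type) [Fintype I] (κ : I → Option T) (R : Type) [CommRing R] (u : Rˣ)
        (c : Finset {i // 0 < (mulP p f a ∘ κ) i} → R),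
        (∀ J, c J ≠ 0 → ∀ i ∈ J, OverP p f (κ i.1)) →
        dlZ u (nuB n T ∘ κ) (mulP p f a ∘ κ) c ∈ ratU u (𝒮 : Set (ℤ × ℤ)) := by
  classical
  refine ⟨(Finset.univ.filter fun o : Option T => 0 < mulP p f a o ∧ OverP p f o).image
    fun o => (-(nuB n T o : ℤ), (mulP p f a o : ℤ)), fun q hq => ?_, fun I _ κ R _ u c hc => ?_⟩
  · obtain ⟨o, ho, rfl⟩ := Finset.mem_image.1 hq
    obtain ⟨h1, h2⟩ := (Finset.mem_filter.1 ho).2
    refine ⟨?_, ?_, fun b hb => ?_⟩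
    · have := nuB_pos (T := T) hn o
      change -(nuB n T o : ℤ) < 0
      omega
    · change (0 : ℤ) < (mulP p f a o : ℤ)
      exact_mod_cast h1
    · have h := loc_cand' hn ha p hcone b hb o h2
      push_cast
      exact h
  · refine dlZ_mem_of u _ _ c _ fun J hJ i hi => ?_
    exact Finset.mem_coe.2 (Finset.mem_image.2 ⟨κ i.1, Finset.mem_filter.2 ⟨Finset.mem_univ _,
      i.2, hc J hJ i hi⟩, rfl⟩)

end Pool.Agent.U184
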