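import Pool.Agent.N127.PB.A
import Pool.Agent.N127.PB.A1
import Pool.Agent.N127.PB.A2

set_option autoImplicit false

/-! # Normal ordering in the Weyl algebra -/

namespace Pool.Agent.U184

open MvPolynomial Pool.Agent.H628R4.TP Pool.Agent.N127.PB

variable {σ : Type}

theorem mulLeft_weyl (p : MvPolynomial σ ℂ) : LinearMap.mulLeft ℂ p ∈ weylS σ := by
  induction p using MvPolynomial.induction_on with
  | C a =>
    have e : LinearMap.mulLeft ℂ (C a : MvPolynomial σ ℂ) = algebraMap ℂ _ a := by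
      refine LinearMap.ext fun g => ?_
      rw [LinearMap.mulLeft_apply, Module.algebraMap_end_apply, smul_eq_C_mul]
    rw [e]
    exact Subalgebra.algebraMap_mem _ a
  | add p q hp hq =>
    have e : LinearMap.mulLeft ℂ (p + q) = LinearMap.mulLeft ℂ p + LinearMap.mulLeft ℂ q := by
      refine LinearMap.ext fun g => ?_
      rw [LinearMap.add_apply, LinearMap.mulLeft_apply, LinearMap.mulLeft_apply,
        LinearMap.mulLeft_apply, add_mul]
    rw [e]
    exact add_mem hp hq
  | mul_X p k hp =>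
    have e : LinearMap.mulLeft ℂ (p * X k) = LinearMap.mulLeft ℂ p * A1.mX k := by
      refine LinearMap.ext fun g => ?_
      rw [Module.End.mul_apply, LinearMap.mulLeft_apply, LinearMap.mulLeft_apply, A1.mX_apply,
        mul_assoc]
    rw [e]
    exact mul_mem hp (A1.mX_weyl k)

/-- sums of compositions `∂_l ∘ ⋯ ∘ ∂_m ∘ p` -/
inductive GN : Module.End ℂ (MvPolynomial σ ℂ) → Prop
  | base (p : MvPolynomial σ ℂ) : GN (LinearMap.mulLeft ℂ p)
  | add (u v : Module.End ℂ (MvPolynomial σ ℂ)) (hu : GN u) (hv : GN v) : GN (u + v)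
  | der (l : σ) (u : Module.End ℂ (MvPolynomial σ ℂ)) (hu : GN u) : GN (A1.dE l * u)

theorem GN_weyl {u : Module.End ℂ (MvPolynomial σ ℂ)} (h : GN u) : u ∈ weylS σ := by
  induction h with
  | base p => exact mulLeft_weyl p
  | add u v _ _ hu hv => exact add_mem hu hv
  | der l u _ hu => exact mul_mem (A1.dE_weyl _) hu

theorem GN_shape [Fintype σ] {u : Module.End ℂ (MvPolynomial σ ℂ)} (h : GN u) :
    ∃ (p : MvPolynomial σ ℂ) (v : σ → Module.End ℂ (MvPolynomial σ ℂ)),
      (∀ l, v l ∈ weylS σ) ∧ u = LinearMap.mulLeft ℂ p + ∑ l, A1.dE l * v l := by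
  classical
  induction h with
  | base p => exact ⟨p, fun _ => 0, fun _ => zero_mem _, by simp⟩
  | add u v _ _ hu hv =>
    obtain ⟨a, b, hb, e⟩ := hu
    obtain ⟨a', b', hb', e'⟩ := hv
    refine ⟨a + a', fun l => b l + b' l, fun l => add_mem (hb l) (hb' l), ?_⟩
    have e2 : LinearMap.mulLeft ℂ (a + a') = LinearMap.mulLeft ℂ a + LinearMap.mulLeft ℂ a' := by
      refine LinearMap.ext fun g => ?_
      rw [LinearMap.add_apply, LinearMap.mulLeft_apply, LinearMap.mulLeft_apply,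
        LinearMap.mulLeft_apply, add_mul]
    rw [e, e', e2]
    simp only [mul_add, Finset.sum_add_distrib]
    abel
  | der l u hu _ =>
    refine ⟨0, fun k => if k = l then u else 0, fun k => ?_, ?_⟩
    · show (if k = l then u else 0) ∈ weylS σ
      split_ifs
      · exact GN_weyl hu
      · exact zero_mem _
    · have e2 : LinearMap.mulLeft ℂ (0 : MvPolynomial σ ℂ) = 0 := by
        refine LinearMap.ext fun g => ?_
        rw [LinearMap.mulLeft_apply, zero_mul, LinearMap.zero_apply]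
      rw [e2]
      simp only [mul_ite, mul_zero, Finset.sum_ite_eq', Finset.mem_univ, if_true, zero_add]

theorem GN_smul (c : ℂ) {u : Module.End ℂ (MvPolynomial σ ℂ)} (h : GN u) : GN (c • u) := by
  induction h with
  | base p =>
    have e : c • LinearMap.mulLeft ℂ p = LinearMap.mulLeft ℂ (C c * p) := by
      refine LinearMap.ext fun g => ?_
      rw [LinearMap.smul_apply, LinearMap.mulLeft_apply, LinearMap.mulLeft_apply, smul_eq_C_mul,
        mul_assoc]
    rw [e]
    exact GN.base _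
  | add u v _ _ hu hv =>
    rw [smul_add]
    exact GN.add _ _ hu hv
  | der l u _ hu =>
    rw [← mul_smul_comm]
    exact GN.der l _ hu

theorem GN_mX (i : σ) {u : Module.End ℂ (MvPolynomial σ ℂ)} (h : GN u) : GN (A1.mX i * u) := by
  induction h with
  | base p =>
    have e : A1.mX i * LinearMap.mulLeft ℂ p = LinearMap.mulLeft ℂ (X i * p) := by
      refine LinearMap.ext fun g => ?_
      rw [Module.End.mul_apply, LinearMap.mulLeft_apply, LinearMap.mulLeft_apply, A1.mX_apply,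
        mul_assoc]
    rw [e]
    exact GN.base _
  | add u v _ _ hu hv =>
    rw [mul_add]
    exact GN.add _ _ hu hv
  | der l u hu' hu =>
    obtain ⟨c, hc⟩ := A1.mX_dE i l
    have e : A1.mX i * (A1.dE l * u) = A1.dE l * (A1.mX i * u) + (-c) • u := by
      have e1 : (-c) • u = -(c • u) := neg_smul c u
      rw [← mul_assoc, hc, sub_mul, mul_assoc, smul_mul_assoc, one_mul, e1, sub_eq_add_neg]
    rw [e]
    exact GN.add _ _ (GN.der l _ hu) (GN_smul _ hu')

theorem GN_mul {w : Module.End ℂ (MvPolynomial σ ℂ)} (hw : w ∈ weylS σ) :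
    ∀ u : Module.End ℂ (MvPolynomial σ ℂ), GN u → GN (w * u) := by
  unfold weylS at hw
  induction hw using Algebra.adjoin_induction with
  | mem x hx =>
    intro u hu
    rcases hx with ⟨i, rfl⟩ | ⟨i, rfl⟩
    · exact GN_mX i hu
    · exact GN.der i _ hu
  | algebraMap r =>
    intro u hu
    have e : algebraMap ℂ (Module.End ℂ (MvPolynomial σ ℂ)) r * u = r • u := by
      rw [Algebra.smul_def]
    rw [e]
    exact GN_smul _ hu
  | add x y _ _ hx hy =>
    intro u hu
    rw [add_mul]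
    exact GN.add _ _ (hx u hu) (hy u hu)
  | mul x y _ _ hx hy =>
    intro u hu
    rw [mul_assoc]
    exact hx _ (hy _ hu)

/-- **Normal order.** -/
theorem normal [Fintype σ] (w : Module.End ℂ (MvPolynomial σ ℂ)) (hw : w ∈ weylS σ) :
    ∃ (p : MvPolynomial σ ℂ) (v : σ → Module.End ℂ (MvPolynomial σ ℂ)),
      (∀ l, v l ∈ weylS σ) ∧ ∀ g, w g = p * g + ∑ l, pderiv l (v l g) := by
  have h := GN_mul hw (LinearMap.mulLeft ℂ 1) (GN.base 1)
  have e0 : w * LinearMap.mulLeft ℂ (1 : MvPolynomial σ ℂ) = w := by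
    refine LinearMap.ext fun g => ?_
    rw [Module.End.mul_apply, LinearMap.mulLeft_apply, one_mul]
  rw [e0] at h
  obtain ⟨p, v, hv, e⟩ := GN_shape h
  refine ⟨p, v, hv, fun g => ?_⟩
  rw [e, LinearMap.add_apply, LinearMap.sum_apply, LinearMap.mulLeft_apply]
  rfl

/-- the families `c(s) f ^ (s + 1) + ∑ ∂_t (f ^ (s - M) z_t(s))` -/
def NF [Fintype σ] (f : MvPolynomial σ ℂ) (Z : ℕ → MvPolynomial σ ℂ) : Prop :=
  ∃ (M : ℕ) (c : Polynomial (MvPolynomial σ ℂ)) (z : σ → Polynomial (MvPolynomial σ ℂ)),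
    ∀ s : ℕ, M ≤ s → Z s = c.eval (C (s : ℂ)) * f ^ (s + 1) +
      ∑ t, pderiv t (f ^ (s - M) * (z t).eval (C (s : ℂ)))

theorem NF_mono [Fintype σ] {f : MvPolynomial σ ℂ} {Z : ℕ → MvPolynomial σ ℂ} (h : NF f Z) :
    ∃ M₀ : ℕ, ∀ M, M₀ ≤ M → ∃ (c : Polynomial (MvPolynomial σ ℂ))
      (z : σ → Polynomial (MvPolynomial σ ℂ)), ∀ s : ℕ, M ≤ s →
        Z s = c.eval (C (s : ℂ)) * f ^ (s + 1) +
          ∑ t, pderiv t (f ^ (s - M) * (z t).eval (C (s : ℂ))) := by
  obtain ⟨M₀, c, z, h⟩ := h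
  refine ⟨M₀, fun M hM => ⟨c, fun t => Polynomial.C (f ^ (M - M₀)) * z t, fun s hs => ?_⟩⟩
  rw [h s (by omega)]
  congr 1
  refine Finset.sum_congr rfl fun t _ => ?_
  rw [Polynomial.eval_mul, Polynomial.eval_C, ← mul_assoc, ← pow_add]
  congr 3
  omega

theorem NF_zero [Fintype σ] (f : MvPolynomial σ ℂ) : NF f fun _ => 0 :=
  ⟨0, 0, fun _ => 0, fun s _ => by simp⟩

theorem NF_add [Fintype σ] {f : MvPolynomial σ ℂ} {Z W : ℕ → MvPolynomial σ ℂ} (hZ : NF f Z)
    (hW : NF f W) : NF f fun s => Z s + W s := by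
  obtain ⟨M1, h1⟩ := NF_mono hZ
  obtain ⟨M2, h2⟩ := NF_mono hW
  obtain ⟨c, z, h⟩ := h1 (M1 + M2) (by omega)
  obtain ⟨c', z', h'⟩ := h2 (M1 + M2) (by omega)
  refine ⟨M1 + M2, c + c', fun t => z t + z' t, fun s hs => ?_⟩
  beta_reduce
  rw [h s hs, h' s hs]
  have e : ∑ t, pderiv t (f ^ (s - (M1 + M2)) * (z t + z' t).eval (C (s : ℂ))) =
      ∑ t, pderiv t (f ^ (s - (M1 + M2)) * (z t).eval (C (s : ℂ))) +
      ∑ t, pderiv t (f ^ (s - (M1 + M2)) * (z' t).eval (C (s : ℂ))) := by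
    rw [← Finset.sum_add_distrib]
    refine Finset.sum_congr rfl fun t _ => ?_
    rw [Polynomial.eval_add, mul_add, map_add]
  rw [e, Polynomial.eval_add]
  ring

theorem NF_sum [Fintype σ] {κ : Type} (S : Finset κ) {f : MvPolynomial σ ℂ}
    (Z : κ → ℕ → MvPolynomial σ ℂ) (h : ∀ k ∈ S, NF f (Z k)) : NF f fun s => ∑ k ∈ S, Z k s := by
  classical
  induction S using Finset.induction_on with
  | empty => simpa using NF_zero f
  | insert a S ha ih =>
    simp only [Finset.sum_insert ha]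
    exact NF_add (h a (Finset.mem_insert_self a S))
      (ih fun k hk => h k (Finset.mem_insert_of_mem hk))

/-- multiplication by a polynomial in `s` -/
theorem NF_poly [Fintype σ] {f : MvPolynomial σ ℂ} {Z : ℕ → MvPolynomial σ ℂ} (hZ : NF f Z)
    (p : Polynomial ℂ) : NF f fun s => p.eval (s : ℂ) • Z s := by
  obtain ⟨M, c, z, h⟩ := hZ
  have hp : ∀ s : ℕ, (p.map C : Polynomial (MvPolynomial σ ℂ)).eval (C (s : ℂ)) =
      C (p.eval (s : ℂ)) := by
    intro s
    rw [Polynomial.eval_map, Polynomial.eval₂_at_apply]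
  refine ⟨M, p.map C * c, fun t => p.map C * z t, fun s hs => ?_⟩
  beta_reduce
  rw [h s hs, smul_add, Finset.smul_sum, Polynomial.eval_mul, hp, smul_eq_C_mul, mul_assoc]
  congr 1
  refine Finset.sum_congr rfl fun t _ => ?_
  rw [Polynomial.eval_mul, hp, ← Derivation.map_smul, smul_eq_C_mul]
  congr 1
  ring

/-- operators applied to the powers of `f` -/
theorem NF_op [Fintype σ] (f : MvPolynomial σ ℂ) (w : Module.End ℂ (MvPolynomial σ ℂ))
    (hw : w ∈ weylS σ) : NF f fun s => w (f ^ (s + 1)) := by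
  classical
  obtain ⟨p, v, hv, h⟩ := normal w hw
  choose N' U' hU' using fun l : σ => stmA2 σ (v l) (hv l) f
  set N := ∑ l, N' l with hN
  have hNl : ∀ l, N' l ≤ N := fun l => Finset.single_le_sum (f := fun l => N' l)
    (fun _ _ => Nat.zero_le _) (Finset.mem_univ l)
  refine ⟨N, Polynomial.C p, fun l => Polynomial.C (f ^ (N + 1 - N' l)) *
    (U' l).comp (Polynomial.X + 1), fun s hs => ?_⟩
  beta_reduce
  rw [h, Polynomial.eval_C]
  congr 1
  refine Finset.sum_congr rfl fun l _ => ?_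
  have hl := hNl l
  rw [hU' l (s + 1) (by omega), Polynomial.eval_mul, Polynomial.eval_C, Polynomial.eval_comp,
    Polynomial.eval_add, Polynomial.eval_X, Polynomial.eval_one, ← mul_assoc, ← pow_add]
  have e1 : s - N + (N + 1 - N' l) = s + 1 - N' l := by omega
  have e2 : ((s + 1 : ℕ) : MvPolynomial σ ℂ) = C (s : ℂ) + 1 := by
    push_cast; rw [map_natCast]
  rw [e1, e2]

end Pool.Agent.U184
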