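import Pool.Agent.U184.Zeta
import Pool.Agent.Y230.PS.Cone2
import Pool.Agent.Y230.PS.Auto
import Pool.Agent.Y230.PT.Final

set_option autoImplicit false
set_option linter.unusedSectionVars false
set_option linter.unusedVariables false

/-! # The `p`-adic zeta functions of ternary forms, for every prime -/

namespace Pool.Agent.U184

open MeasureTheory MvPolynomial Pool.Agent.W427.SMC Pool.Agent.Y230.PT Pool.Agent.Y230.PS
open scoped ENNReal
open Pool.Agent.Y230.RE Pool.Agent.W574.SM Pool.Agent.W574.CN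
open Pool.Agent.H628R4.TP (IsBFunction)

attribute [local instance] msZ bsZ

variable {p : ℕ} [Fact p.Prime]

/-- the polynomial over `ℚ_p`, as a family with one member -/
noncomputable def fam (p : ℕ) [Fact p.Prime] {σ : Type} (f : MvPolynomial σ ℚ) :
    Fin 1 → MvPolynomial σ ℚ_[p] := fun _ => map (algebraMap ℚ ℚ_[p]) f

theorem FF_fam {V : Type} [Fintype V] (F : MvPolynomial V ℚ) (s : ℝ) :
    FF (fam p F) s = ((∫⁻ x : V → ℤ_[p], N p s (eval₂ (algebraMap ℚ ℚ_[p])
      (fun i => inc p (x i)) F) ∂(Measure.pi fun _ : V => mu p)).toReal : ℂ) := by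
  unfold FF FZ
  congr 2
  refine lintegral_congr fun x => ?_
  unfold N sz
  congr 2
  have h : (fun j : Fin 1 => eval (fun i => inc p (x i)) (fam p F j)) =
      fun _ : Fin 1 => eval₂ (algebraMap ℚ ℚ_[p]) (fun i => inc p (x i)) F := by
    funext j
    change eval _ (map _ F) = _
    rw [eval_map]
  refine (congrArg norm h).trans ?_
  exact pi_norm_const _

theorem functionalEq_fin {σ : Type} (f : MvPolynomial σ ℂ) (b : Polynomial ℂ)
    (hb : IsBFunction f b) : IsFunctionalEq (fun _ : Fin 1 => f) b := by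
  classical
  obtain ⟨P, hP⟩ := hb
  refine ⟨{fun _ => 1}, fun _ => P.mapDomain (fun m => Finsupp.single 0 m), ?_, ?_⟩
  · intro c hc
    rw [Finset.mem_singleton] at hc
    subst hc
    simp
  · intro s
    rw [Finset.sum_singleton]
    simp only [Finset.univ_unique, Finset.sum_singleton, Finset.prod_singleton,
      Fin.default_eq_zero]
    rw [hP (s 0)]
    have h1 : ((if (1 : ℤ) < 0 then (s 0).choose (-1 : ℤ).toNat else 1 : ℕ) : ℂ) = 1 := by
      norm_num
    have h2 : ((s 0 : ℤ) + 1).toNat = s 0 + 1 := by omega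
    rw [h1, h2, map_one, one_mul, applyAt]
    rw [Finsupp.sum_mapDomain_index]
    · refine Finsupp.sum_congr fun m _ => ?_
      simp only [Finset.univ_unique, Finset.prod_singleton, Fin.default_eq_zero,
        Finsupp.single_eq_same]
    · intro β
      simp
    · intro β Q1 Q2
      simp [smul_add]

theorem map_dehK (φ : ℚ_[p] →+* ℂ) (i : Fin 3) (c : Fin 2 → ℚ_[p])
    (f : MvPolynomial (Fin 3) ℚ) :
    (fun j : Fin 1 => map φ (scl c (fun j => dehK i (fam p f j)) j)) =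
      fun _ : Fin 1 => sclC (fun k => φ (c k)) (deh i (map (algebraMap ℚ ℂ) f)) := by
  have hφ : φ.comp (algebraMap ℚ ℚ_[p]) = algebraMap ℚ ℂ := RingHom.ext_rat _ _
  funext j
  have h3 : ((map φ).comp ((aeval (fun i => C (c i) * X i) :
      MvPolynomial (Fin 2) ℚ_[p] →ₐ[ℚ_[p]] MvPolynomial (Fin 2) ℚ_[p]) :
        MvPolynomial (Fin 2) ℚ_[p] →+* MvPolynomial (Fin 2) ℚ_[p])).comp
        ((dehK i : MvPolynomial (Fin 3) ℚ_[p] →ₐ[ℚ_[p]] MvPolynomial (Fin 2) ℚ_[p]) :
          MvPolynomial (Fin 3) ℚ_[p] →+* MvPolynomial (Fin 2) ℚ_[p]) =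
      ((sclC (fun i => φ (c i)) : MvPolynomial (Fin 2) ℂ →+* MvPolynomial (Fin 2) ℂ).comp
        ((deh i : MvPolynomial (Fin 3) ℂ →ₐ[ℂ] MvPolynomial (Fin 2) ℂ) :
          MvPolynomial (Fin 3) ℂ →+* MvPolynomial (Fin 2) ℂ)).comp (map φ) := by
    apply MvPolynomial.ringHom_ext
    · intro a
      simp [sclC, dehK, deh]
    · intro k
      simp only [RingHom.comp_apply, map_X, RingHom.coe_coe]
      unfold dehK deh
      rw [aeval_X, aeval_X]
      induction k using Fin.succAboveCases i with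
      | x => rw [Fin.insertNth_apply_same, Fin.insertNth_apply_same, map_one, map_one, map_one]
      | p k => rw [Fin.insertNth_apply_succAbove, Fin.insertNth_apply_succAbove]; simp [sclC]
  have h4 := congrArg (fun ψ : MvPolynomial (Fin 3) ℚ_[p] →+* MvPolynomial (Fin 2) ℂ =>
    ψ (map (algebraMap ℚ ℚ_[p]) f)) h3
  refine Eq.trans h4 ?_
  change sclC _ (deh i (map φ (map (algebraMap ℚ ℚ_[p]) f))) = _
  rw [map_map, hφ]

theorem dehK_ne (i : Fin 3) (f : MvPolynomial (Fin 3) ℚ) (d : ℕ) (hf : f.IsHomogeneous d)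
    (hf0 : f ≠ 0) (φ : ℚ_[p] →+* ℂ) (c : Fin 2 → ℚ_[p]) (hc : ∀ k, c k ≠ 0) :
    ∃ j, scl c (fun j => dehK i (fam p f j)) j ≠ 0 := by
  refine ⟨0, fun h0 => ?_⟩
  have h1 := congrFun (map_dehK φ i c f) 0
  rw [h0, map_zero] at h1
  have h2 : deh i (map (algebraMap ℚ ℂ) f) = 0 := by
    have h3 : sclC (fun k => (φ (c k))⁻¹) (sclC (fun k => φ (c k))
        (deh i (map (algebraMap ℚ ℂ) f))) = deh i (map (algebraMap ℚ ℂ) f) := by
      have h5 : ((sclC (fun k => (φ (c k))⁻¹)).comp (sclC fun k => φ (c k)) :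
          MvPolynomial (Fin 2) ℂ →ₐ[ℂ] MvPolynomial (Fin 2) ℂ) = AlgHom.id ℂ _ := by
        apply MvPolynomial.algHom_ext
        intro k
        have hk : φ (c k) ≠ 0 := (map_ne_zero φ).2 (hc k)
        simp only [sclC, AlgHom.comp_apply, aeval_X, map_mul, algHom_C, AlgHom.id_apply]
        rw [algebraMap_eq, ← mul_assoc, ← C_mul, mul_inv_cancel₀ hk, C_1, one_mul]
      exact congrArg (fun ψ : MvPolynomial (Fin 2) ℂ →ₐ[ℂ] MvPolynomial (Fin 2) ℂ =>
        ψ (deh i (map (algebraMap ℚ ℂ) f))) h5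
    rw [← h1, map_zero] at h3
    exact h3.symm
  have h3 := deh_inj i (hf.map (algebraMap ℚ ℂ)) h2
  exact hf0 (map_injective _ (algebraMap ℚ ℂ).injective (by rw [h3, map_zero]))

/-- **The zeta function of a ternary form.** -/
theorem FR_tern (f : MvPolynomial (Fin 3) ℚ) (d : ℕ) (hd : 0 < d) (hf : f.IsHomogeneous d)
    (hf0 : f ≠ 0) (b : Polynomial ℂ) (hb0 : b ≠ 0)
    (hb : IsBFunction (map (algebraMap ℚ ℂ) f) b) :
    FR p (fun T => (if T ^ d = (p : ℂ) ^ 3 then 1 else 0) +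
      (b.rootMultiplicity ((rr p T : ℝ) : ℂ) : ℕ∞)) (FF (fam p f)) := by
  classical
  obtain ⟨φ⟩ := exists_emb p
  have h := FR_cone (p := p) (n := 2) (fam p f) d hd (fun _ => hf.map _)
    (fun T => (b.rootMultiplicity ((rr p T : ℝ) : ℂ) : ℕ∞))
    (fun T => (if T ^ d = (p : ℂ) ^ 3 then 1 else 0) +
      (b.rootMultiplicity ((rr p T : ℝ) : ℂ) : ℕ∞)) (fun T hT => le_rfl) (fun i c hc => ?_)
    (fun _ => 1) (fun _ => one_ne_zero)
  · rwa [scl_one] at h
  · refine FR_plane φ _ (dehK_ne i f d hf hf0 φ c hc) _ fun T hT => ⟨b, hb0, ?_, le_rfl⟩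
    rw [map_dehK φ i c f]
    exact functionalEq_scl (fun k => φ (c k)) (fun k => (map_ne_zero φ).2 (hc k))
      (fun _ : Fin 1 => deh i (map (algebraMap ℚ ℂ) f)) b
      (functionalEq_deh i (fun _ : Fin 1 => map (algebraMap ℚ ℂ) f) d (fun _ => hf.map _) b
        (functionalEq_fin _ b hb))

theorem hom_of_map (f : MvPolynomial (Fin 3) ℚ) (d : ℕ)
    (hf : (map (algebraMap ℚ ℂ) f).IsHomogeneous d) : f.IsHomogeneous d := by
  intro m hm
  apply hf
  rw [coeff_map]
  exact (map_ne_zero _).2 hm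

theorem ne_of_map (f : MvPolynomial (Fin 3) ℚ) (hf : map (algebraMap ℚ ℂ) f ≠ 0) : f ≠ 0 := by
  rintro rfl
  exact hf (map_zero _)

/-- the real part of the candidate pole of the exceptional divisor -/
theorem rr_d3 (d : ℕ) (hd : 0 < d) (T : ℂ) (h : T ^ d = (p : ℂ) ^ 3) : rr p T = -3 / (d : ℝ) := by
  have hp : (1 : ℝ) < p := by exact_mod_cast (Fact.out : p.Prime).one_lt
  have hl : Real.log p ≠ 0 := (Real.log_pos hp).ne'
  have hdR : (d : ℝ) ≠ 0 := by exact_mod_cast hd.ne'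
  have h1 := congrArg (fun z => Real.log ‖z‖) h
  simp only [norm_pow, Complex.norm_natCast, Real.log_pow] at h1
  unfold rr
  rw [div_eq_div_iff hl hdR]
  push_cast at h1
  linear_combination -h1

/-- the rational function, and the orders of its poles -/
theorem tern_rat (f : MvPolynomial (Fin 3) ℚ) (m : ℂ → ℕ∞) (h : FR p m (FF (fam p f))) :
    ∃ D P : Polynomial ℂ, D ≠ 0 ∧ (∀ s : ℝ, 0 ≤ s →
      D.eval ((tr' p s : ℝ) : ℂ) * ((∫⁻ x : Fin 3 → ℤ_[p], N p s (eval₂ (algebraMap ℚ ℚ_[p])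
        (fun i => inc p (x i)) f) ∂(Measure.pi fun _ : Fin 3 => mu p)).toReal : ℂ) =
          P.eval ((tr' p s : ℝ) : ℂ)) ∧
      ∀ T0, T0 ≠ 0 → (D.rootMultiplicity T0 : ℕ∞) ≤ tr m T0 := by
  obtain ⟨D, P, hD, h3, h4⟩ := h.rat
  refine ⟨D, P, hD, fun s hs => ?_, h4⟩
  rw [← FF_fam]
  exact h3 s hs

/-- **The real parts of the poles**, for every prime `p` -/
theorem mero_root (f : MvPolynomial (Fin 3) ℚ) (d : ℕ) (hd : 0 < d) (hf : f.IsHomogeneous d)
    (hf0 : f ≠ 0) (b : Polynomial ℂ) (hb : IsBFunction (map (algebraMap ℚ ℂ) f) b)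
    (Z : ℂ → ℂ) (hZ : MeromorphicOn Z Set.univ)
    (hZp : ∀ s : ℝ, 0 < s → Z s = zetaQ p f s) (s₀ : ℂ) (hs : meromorphicOrderAt Z s₀ < 0)
    (hc : s₀.re ≠ -3 / d ∨ (WHForm (map (algebraMap ℚ ℂ) f) d ∧
      NoField (map (algebraMap ℚ ℂ) f))) : b.eval (s₀.re : ℂ) = 0 := by
  by_cases hb0 : b = 0
  · rw [hb0, Polynomial.eval_zero]
  have hfr := FR_tern (p := p) f d hd hf hf0 b hb0 hb
  obtain ⟨D, P, hD0, h1, h2⟩ := tern_rat f _ hfr
  have h3 := mero_bound p D P hD0 Z hZ (fun s hs => by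
    rw [pw_real, hZp s hs, zetaQ_eq, h1 s hs.le]) s₀
  have h5 : rr p (pw p s₀) = s₀.re := pw_norm p s₀
  have h6 := h2 _ (pw_ne_zero p s₀)
  have hn : D.rootMultiplicity (pw p s₀) ≠ 0 := by
    intro h0
    rw [h0] at h3
    exact absurd (lt_of_le_of_lt h3 hs) (by simp)
  unfold Pool.Agent.Y230.PS.tr at h6
  by_cases h7 : ‖pw p s₀‖ ≤ 1
  · rw [if_pos h7] at h6
    exact absurd (by exact_mod_cast le_antisymm h6 bot_le : D.rootMultiplicity (pw p s₀) = 0) hn
  · rw [if_neg h7] at h6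
    by_cases h8 : (pw p s₀) ^ d = (p : ℂ) ^ 3
    · have h9 := rr_d3 (p := p) d hd _ h8
      rw [h5] at h9
      rcases hc with hc | hc
      · exact absurd h9 hc
      · have h10 := root_d3 _ d hc b hb
        rw [h9]
        push_cast
        exact h10
    · beta_reduce at h6
      rw [if_neg h8, h5, zero_add] at h6
      have h9 : D.rootMultiplicity (pw p s₀) ≤ b.rootMultiplicity (s₀.re : ℂ) := by
        exact_mod_cast h6
      have h10 : b.rootMultiplicity (s₀.re : ℂ) ≠ 0 := by omega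
      by_contra hne
      exact h10 (Polynomial.rootMultiplicity_eq_zero hne)

/-- **The orders of the poles**, for every prime `p` -/
theorem mero_mult (f : MvPolynomial (Fin 3) ℚ) (d : ℕ) (hd : 0 < d) (hf : f.IsHomogeneous d)
    (hf0 : f ≠ 0) (b : Polynomial ℂ) (hb0 : b ≠ 0) (hb : IsBFunction (map (algebraMap ℚ ℂ) f) b)
    (Z : ℂ → ℂ) (hZ : MeromorphicOn Z Set.univ)
    (hZp : ∀ s : ℝ, 0 < s → Z s = zetaQ p f s) (s₀ : ℂ)
    (hc : s₀.re ≠ -3 / d ∨ ((WHForm (map (algebraMap ℚ ℂ) f) d ∧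
      NoField (map (algebraMap ℚ ℂ) f)) ∧ ∀ i : Fin 3, ∃ b' : Polynomial ℂ,
      IsBFunction (deh i (map (algebraMap ℚ ℂ) f)) b' ∧ b'.eval (-3 / (d : ℂ)) ≠ 0)) :
    ((-(b.rootMultiplicity (s₀.re : ℂ) : ℤ) : ℤ) : WithTop ℤ) ≤ meromorphicOrderAt Z s₀ := by
  classical
  suffices hk : ∃ m : ℂ → ℕ∞, FR p m (FF (fam p f)) ∧ (1 < ‖pw p s₀‖ →
      m (pw p s₀) ≤ (b.rootMultiplicity (s₀.re : ℂ) : ℕ∞)) by
    obtain ⟨m, hfr, hm⟩ := hk
    obtain ⟨D, P, hD0, h1, h2⟩ := tern_rat f _ hfr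
    have h3 := mero_bound p D P hD0 Z hZ (fun s hs => by
      rw [pw_real, hZp s hs, zetaQ_eq, h1 s hs.le]) s₀
    refine le_trans ?_ h3
    have h6 := h2 _ (pw_ne_zero p s₀)
    have h7 : D.rootMultiplicity (pw p s₀) ≤ b.rootMultiplicity (s₀.re : ℂ) := by
      unfold Pool.Agent.Y230.PS.tr at h6
      split_ifs at h6 with h7
      · have : D.rootMultiplicity (pw p s₀) = 0 := by
          exact_mod_cast le_antisymm h6 bot_le
        rw [this]
        exact Nat.zero_le _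
      · exact_mod_cast h6.trans (hm (not_le.1 h7))
    exact_mod_cast neg_le_neg (Int.ofNat_le.2 h7)
  have h5 : rr p (pw p s₀) = s₀.re := pw_norm p s₀
  rcases hc with hc | ⟨hv, hch⟩
  · refine ⟨_, FR_tern (p := p) f d hd hf hf0 b hb0 hb, fun _ => ?_⟩
    rw [if_neg, zero_add, h5]
    intro h8
    apply hc
    rw [← h5]
    exact rr_d3 d hd _ h8
  · obtain ⟨φ⟩ := exists_emb p
    choose b' hb' hb'n using hch
    refine ⟨fun T => (if T ^ d = (p : ℂ) ^ 3 then 1 else 0) + (if rr p T = -3 / (d : ℝ) then 0 else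
      (b.rootMultiplicity ((rr p T : ℝ) : ℂ) : ℕ∞)), ?_, ?_⟩
    · have h := FR_cone (p := p) (n := 2) (fam p f) d hd (fun _ => hf.map _)
        (fun T => if rr p T = -3 / (d : ℝ) then 0 else
          (b.rootMultiplicity ((rr p T : ℝ) : ℂ) : ℕ∞))
        (fun T => (if T ^ d = (p : ℂ) ^ 3 then 1 else 0) + (if rr p T = -3 / (d : ℝ) then 0 else
          (b.rootMultiplicity ((rr p T : ℝ) : ℂ) : ℕ∞))) (fun T hT => le_rfl)
        (fun i c hc => ?_) (fun _ => 1) (fun _ => one_ne_zero)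
      · rwa [scl_one] at h
      · refine FR_plane φ _ (dehK_ne i f d hf hf0 φ c hc) _ fun T hT => ?_
        rw [map_dehK φ i c f]
        by_cases hr : rr p T = -3 / (d : ℝ)
        · refine ⟨b' i, fun h0 => hb'n i (by rw [h0, Polynomial.eval_zero]),
            functionalEq_scl (fun k => φ (c k)) (fun k => (map_ne_zero φ).2 (hc k))
              (fun _ : Fin 1 => deh i (map (algebraMap ℚ ℂ) f)) (b' i)
              (functionalEq_fin _ (b' i) (hb' i)), ?_⟩
          rw [if_pos hr, hr, Polynomial.rootMultiplicity_eq_zero]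
          · simp
          · intro h0
            apply hb'n i
            have h1 : ((-3 / (d : ℝ) : ℝ) : ℂ) = -3 / (d : ℂ) := by push_cast; ring
            rw [← h1]
            exact h0
        · refine ⟨b, hb0, functionalEq_scl (fun k => φ (c k)) (fun k => (map_ne_zero φ).2 (hc k))
            (fun _ : Fin 1 => deh i (map (algebraMap ℚ ℂ) f)) b
            (functionalEq_deh i (fun _ : Fin 1 => map (algebraMap ℚ ℂ) f) d (fun _ => hf.map _) b
              (functionalEq_fin _ b hb)), ?_⟩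
          rw [if_neg hr]
    · intro _
      beta_reduce
      rw [h5]
      by_cases hr : s₀.re = -3 / (d : ℝ)
      · rw [if_pos hr, add_zero]
        have h10 := root_d3 _ d hv b hb
        have h11 : ((s₀.re : ℝ) : ℂ) = -3 / (d : ℂ) := by rw [hr]; push_cast; ring
        rw [h11]
        have h12 : 1 ≤ b.rootMultiplicity (-3 / (d : ℂ)) := by
          rw [Nat.one_le_iff_ne_zero, Ne, Polynomial.rootMultiplicity_eq_zero_iff]
          intro h13
          exact hb0 (h13 h10)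
        split_ifs
        · exact_mod_cast h12
        · exact bot_le
      · rw [if_neg hr, if_neg, zero_add]
        intro h8
        apply hr
        rw [← h5]
        exact rr_d3 d hd _ h8

theorem castZ (F : MvPolynomial (Fin 3) ℤ) : map (Int.castRingHom ℂ) F =
    map (algebraMap ℚ ℂ) (map (Int.castRingHom ℚ) F) := by
  rw [map_map]
  congr 1

/-- the condition on a candidate pole -/
theorem root_of_mult (f : MvPolynomial (Fin 3) ℚ) (d : ℕ) (hd : 0 < d) (b : Polynomial ℂ)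
    (hb : IsBFunction (map (algebraMap ℚ ℂ) f) b) (T : ℂ) (n : ℕ) (hn : n ≠ 0)
    (hT : (n : ℕ∞) ≤ Pool.Agent.Y230.PS.tr (fun T => (if T ^ d = (p : ℂ) ^ 3 then 1 else 0) +
      (b.rootMultiplicity ((rr p T : ℝ) : ℂ) : ℕ∞)) T)
    (hc : rr p T ≠ -3 / d ∨ (WHForm (map (algebraMap ℚ ℂ) f) d ∧
      NoField (map (algebraMap ℚ ℂ) f))) :
    b.eval ((rr p T : ℝ) : ℂ) = 0 := by
  unfold Pool.Agent.Y230.PS.tr at hT
  by_cases h7 : ‖T‖ ≤ 1
  · rw [if_pos h7] at hT
    exact absurd (by exact_mod_cast le_antisymm hT bot_le : n = 0) hn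
  · rw [if_neg h7] at hT
    by_cases h8 : T ^ d = (p : ℂ) ^ 3
    · have h9 := rr_d3 (p := p) d hd _ h8
      rcases hc with hc | hc
      · exact absurd h9 hc
      · have h10 := root_d3 _ d hc b hb
        rw [h9]
        push_cast
        exact h10
    · beta_reduce at hT
      rw [if_neg h8, zero_add] at hT
      have h9 : n ≤ b.rootMultiplicity ((rr p T : ℝ) : ℂ) := by
        exact_mod_cast hT
      have h10 : b.rootMultiplicity ((rr p T : ℝ) : ℂ) ≠ 0 := by omega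
      by_contra hne
      exact h10 (Polynomial.rootMultiplicity_eq_zero hne)

theorem ne_map (F : MvPolynomial (Fin 3) ℤ) (h : F ≠ 0) : map (Int.castRingHom ℚ) F ≠ 0 := by
  intro h0
  exact h (map_injective _ (RingHom.injective_int _) (by rw [h0, map_zero]))

/-- **The Poincare series**, for every prime `p` -/
theorem poin_tern (F : MvPolynomial (Fin 3) ℤ) (d : ℕ) (hd : 0 < d) (hF : F.IsHomogeneous d)
    (hF0 : F ≠ 0) (b : Polynomial ℂ) (hb0 : b ≠ 0)
    (hb : IsBFunction (map (Int.castRingHom ℂ) F) b) :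
    ∃ Φ : RatFunc ℂ, ((Φ.denom : Polynomial ℂ) : PowerSeries ℂ) * poincare p F =
        ((Φ.num : Polynomial ℂ) : PowerSeries ℂ) ∧
      ∀ T₀ : ℂ, Φ.denom.eval T₀ = 0 →
        (-Real.log ‖T₀‖ / Real.log p ≠ -3 / d ∨ (WHForm (map (Int.castRingHom ℂ) F) d ∧
          NoField (map (Int.castRingHom ℂ) F))) →
        b.eval ((-Real.log ‖T₀‖ / Real.log p : ℝ) : ℂ) = 0 := by
  classical
  rw [castZ] at hb ⊢
  set f : MvPolynomial (Fin 3) ℚ := map (Int.castRingHom ℚ) F with hf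
  have hfr := FR_tern (p := p) f d hd (hF.map _) (ne_map F hF0) b hb0 hb
  obtain ⟨D, P, hD0, h1, h2⟩ := tern_rat f _ hfr
  obtain ⟨Φ, h3, h4, h5⟩ := poincare_of p F D P hD0 (fun s hs => by
    rw [← h1 s hs]
    simp only [tau_N]
    rfl)
  refine ⟨Φ, h3, fun T hT0 hc => ?_⟩
  have hd : Φ.denom ≠ 0 := Φ.denom_ne_zero
  have h6 : Φ.denom.rootMultiplicity T ≠ 0 := by
    rw [Ne, Polynomial.rootMultiplicity_eq_zero_iff]
    intro h
    exact hd (h hT0)
  have hT : T ≠ 0 := by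
    rintro rfl
    exact h6 h4
  exact root_of_mult f d (by assumption) b hb T (D.rootMultiplicity T)
    (by have := h5 T; omega) (h2 T hT) hc

/-- the Igusa zeta function of a polynomial with integral coefficients -/
theorem igusa_zetaQ (F : MvPolynomial (Fin 3) ℤ) (s : ℝ) :
    igusaZeta p F (s : ℂ) = zetaQ p (map (Int.castRingHom ℚ) F) (s : ℂ) := by
  rw [igusaZeta_eq, zetaQ_eq]
  simp only [tau_N]

end Pool.Agent.U184
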