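import Pool.Agent.U184.Mel2

set_option autoImplicit false

/-! # The root `-n/d`: members with a period -/

namespace Pool.Agent.U184

open MvPolynomial Pool.Agent.H628R4.TP Pool.Agent.W574.HS

variable {σ : Type} [Fintype σ]

/-- The class of `dx = dx_1 ... dx_n` in `H ^ n(Ω, d - dg ∧)`, where `Ω` is the de Rham complex of the
polynomial ring, is not zero: there is a linear functional `Λ` on the polynomials with `Λ(1) = 1` and
`Λ(∂_i h) = Λ(∂_i g h)` for all `i` and `h` (an algebraic version of `h ↦ ∫ h exp(-g) dx`). -/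
def HasPeriod (g : MvPolynomial σ ℂ) : Prop :=
  ∃ Λ : MvPolynomial σ ℂ →ₗ[ℂ] ℂ, (∀ i h, Λ (pderiv i h) = Λ (pderiv i g * h)) ∧ Λ 1 = 1

/-- Euler's identity -/
theorem per_euler {g : MvPolynomial σ ℂ} {e : ℕ} (hg : g.IsHomogeneous e)
    (Λ : MvPolynomial σ ℂ →ₗ[ℂ] ℂ) (hΛ : ∀ i h, Λ (pderiv i h) = Λ (pderiv i g * h))
    {k : ℕ} {H : MvPolynomial σ ℂ} (hH : H.IsHomogeneous k) :
    (e : ℂ) * Λ (g * H) = ((Fintype.card σ : ℂ) + k) * Λ H := by
  have h1 := hg.sum_X_mul_pderiv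
  have h2 := hH.sum_X_mul_pderiv
  have h3 : (e : ℂ) * Λ (g * H) = Λ ((e • g) * H) := by
    rw [smul_mul_assoc, map_nsmul, nsmul_eq_mul]
  rw [h3, ← h1, Finset.sum_mul, map_sum]
  have h4 : ∀ i, Λ (X i * pderiv i g * H) = Λ H + Λ (X i * pderiv i H) := by
    intro i
    have e1 : X i * pderiv i g * H = pderiv i g * (X i * H) := by ring
    rw [e1, ← hΛ i, pderiv_mul, pderiv_X_self, one_mul, map_add]
  have h5 : ∑ i, Λ (X i * pderiv i H) = (k : ℂ) * Λ H := by
    rw [← map_sum, h2, map_nsmul, nsmul_eq_mul]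
  rw [Finset.sum_congr rfl fun i _ => h4 i, Finset.sum_add_distrib, h5, Finset.sum_const,
    Finset.card_univ, nsmul_eq_mul, add_mul]

theorem per_pow {g : MvPolynomial σ ℂ} {e : ℕ} (hg : g.IsHomogeneous e)
    (hn : 0 < Fintype.card σ)
    (Λ : MvPolynomial σ ℂ →ₗ[ℂ] ℂ) (hΛ : ∀ i h, Λ (pderiv i h) = Λ (pderiv i g * h))
    (h1 : Λ 1 = 1) (k : ℕ) : Λ (g ^ k) ≠ 0 := by
  induction k with
  | zero => rw [pow_zero, h1]; exact one_ne_zero
  | succ k ih =>
    intro h0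
    have h2 := per_euler hg Λ hΛ (hg.pow k)
    rw [← pow_succ', h0, mul_zero] at h2
    have h3 : ((Fintype.card σ : ℂ) + ((e * k : ℕ) : ℂ)) ≠ 0 := by
      have : (((Fintype.card σ + e * k : ℕ)) : ℂ) ≠ 0 := Nat.cast_ne_zero.2 (by omega)
      push_cast at this ⊢
      exact this
    exact (mul_ne_zero h3 ih) h2.symm

/-- **The equation of a power of a form with a period.** -/
theorem per_core (g : MvPolynomial σ ℂ) (e k : ℕ) (he : 0 < e) (hk : 0 < k)
    (hg : g.IsHomogeneous e) (hg0 : g ≠ 0) (hn : 0 < Fintype.card σ) (hp : HasPeriod g)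
    (N : ℕ) (V : σ → MvPolynomial σ ℂ) (β : ℂ)
    (hV : ∀ l, (V l).IsHomogeneous (k * e * N + 1))
    (hE : g ^ k * ∑ l, pderiv l (V l) + C (-(Fintype.card σ : ℂ) / ((k * e : ℕ) : ℂ) - N) *
      ∑ l, V l * pderiv l (g ^ k) = (g ^ k) ^ (N + 1) * C β) : β = 0 := by
  classical
  obtain ⟨Λ, hΛ, h1⟩ := hp
  obtain ⟨k, rfl⟩ : ∃ k', k = k' + 1 := ⟨k - 1, by omega⟩
  have hec : (e : ℂ) ≠ 0 := Nat.cast_ne_zero.2 he.ne'
  have hkc : ((k + 1 : ℕ) : ℂ) ≠ 0 := Nat.cast_ne_zero.2 (Nat.succ_ne_zero k)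
  have hpd : ∀ l, pderiv l (g ^ (k + 1)) = C ((k + 1 : ℕ) : ℂ) * g ^ k * pderiv l g := by
    intro l
    rw [Derivation.leibniz_pow, Nat.add_sub_cancel, smul_eq_mul, nsmul_eq_mul, map_natCast]
    ring
  have h2 : g * ∑ l, pderiv l (V l) + C (-(Fintype.card σ : ℂ) / e - ((k + 1) * N : ℕ)) *
      ∑ l, V l * pderiv l g = g ^ ((k + 1) * N + 1) * C β := by
    apply mul_left_cancel₀ (pow_ne_zero k hg0)
    have e1 : ∑ l, V l * pderiv l (g ^ (k + 1)) =
        C ((k + 1 : ℕ) : ℂ) * g ^ k * ∑ l, V l * pderiv l g := by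
      rw [Finset.mul_sum]
      refine Finset.sum_congr rfl fun l _ => ?_
      rw [hpd]
      ring
    rw [e1] at hE
    have e2 : (C (-(Fintype.card σ : ℂ) / e - ((k + 1) * N : ℕ)) : MvPolynomial σ ℂ) =
        C (-(Fintype.card σ : ℂ) / (((k + 1) * e : ℕ) : ℂ) - N) * C ((k + 1 : ℕ) : ℂ) := by
      rw [← map_mul]
      congr 1
      push_cast at hkc ⊢
      field_simp
    rw [e2]
    linear_combination hE
  have h3 := congrArg Λ h2
  have hdiv : (∑ l, pderiv l (V l)).IsHomogeneous ((k + 1) * e * N) := by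
    refine IsHomogeneous.sum _ _ _ fun l _ => ?_
    have := (hV l).pderiv (i := l)
    rwa [Nat.add_sub_cancel] at this
  have h4 := per_euler hg Λ hΛ hdiv
  have hC : ∀ (c : ℂ) (W : MvPolynomial σ ℂ), Λ (C c * W) = c * Λ W := by
    intro c W
    rw [← smul_eq_C_mul, map_smul, smul_eq_mul]
  have h5 : Λ (∑ l, V l * pderiv l g) = Λ (∑ l, pderiv l (V l)) := by
    rw [map_sum, map_sum]
    refine Finset.sum_congr rfl fun l _ => ?_
    rw [hΛ, mul_comm]
  rw [map_add, hC, h5, mul_comm (g ^ _) (C β), hC] at h3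
  have h6 := per_pow hg hn Λ hΛ h1 ((k + 1) * N + 1)
  have h7 : (e : ℂ) * (β * Λ (g ^ ((k + 1) * N + 1))) = 0 := by
    rw [← h3]
    push_cast at h4 ⊢
    field_simp
    linear_combination h4
  rcases mul_eq_zero.1 h7 with h8 | h8
  · exact absurd h8 hec
  · exact (mul_eq_zero.1 h8).resolve_right h6

/-- Let `f_j` be forms of degree `d` in the variables `x_i`, `i ∈ σ`. There are a form `g ≠ 0` and
integers `k, m ≥ 1` such that `g ^ k = G(f)`, where `G` is a form of degree `m` in variables `z_j`, and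
such that the class of `dx` in `H ^ n(Ω, d - dg ∧)` is not zero (`HasPeriod`). -/
def PerMember {ι : Type} (f : ι → MvPolynomial σ ℂ) : Prop :=
  ∃ (m k e : ℕ) (G : MvPolynomial ι ℂ) (g : MvPolynomial σ ℂ), 0 < m ∧ 0 < k ∧
    G.IsHomogeneous m ∧ g.IsHomogeneous e ∧ g ≠ 0 ∧ aeval f G = g ^ k ∧ HasPeriod g

/-- **The root `-n/d`.** -/
theorem root_per {ι : Type} [Fintype ι] (f : ι → MvPolynomial σ ℂ) (d : ℕ) (hd : 0 < d)
    (hn : 0 < Fintype.card σ) (hf : ∀ j, (f j).IsHomogeneous d) (β : ℂ)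
    (hEN : Pool.Agent.N127.PB.HasEN f d (-(Fintype.card σ : ℂ) / (d : ℂ)) β)
    (h : PerMember f) : β = 0 := by
  by_contra hβ
  obtain ⟨m, k, e, G, g, hm, hk, hG, hg, hg0, hGg, hp⟩ := h
  have hdc : (d : ℂ) ≠ 0 := Nat.cast_ne_zero.2 hd.ne'
  have hmc : (m : ℂ) ≠ 0 := Nat.cast_ne_zero.2 hm.ne'
  obtain ⟨N, V, β', hβ', hVh, hV⟩ := mel f d hf G m hm hG _ β (fun n hn' => by
    have h1 : ((Fintype.card σ + n * d : ℕ) : ℂ) = 0 := by
      push_cast
      rw [← hn']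
      field_simp
      ring
    have h2 : Fintype.card σ + n * d = 0 := by exact_mod_cast h1
    omega) hEN
  have hdeg : k * e = d * m := by
    have h1 : (aeval f G).IsHomogeneous (d * m) := hG.aeval f hf
    rw [hGg] at h1
    have h2 := hg.pow k
    have h3 := h1.inj_right h2 (pow_ne_zero k hg0)
    rw [mul_comm]
    exact h3.symm
  have he : 0 < e := by
    rcases Nat.eq_zero_or_pos e with h0 | h0
    · rw [h0, mul_zero] at hdeg
      have := Nat.mul_pos hd hm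
      omega
    · exact h0
  rw [hGg] at hV
  have ha : (-(Fintype.card σ : ℂ) / (d : ℂ)) / m = -(Fintype.card σ : ℂ) / ((k * e : ℕ) : ℂ) := by
    rw [hdeg]
    push_cast
    rw [div_div]
  rw [ha] at hV
  exact hβ' hβ (per_core g e k he hk hg hg0 hn hp N V β' (fun l => by
    rw [hdeg]; exact hVh l) hV)

end Pool.Agent.U184
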