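import Pool.Agent.U184.Per
import Pool.Agent.N138.SU.W4a
import Pool.Agent.N138.SU.W4b
import Pool.Agent.N127.PB.Final
import Pool.Agent.N127.PB.AI
import Pool.Agent.W366.SI.I1
import Pool.Agent.W574.CN.Cone

set_option autoImplicit false

/-! # The root `-n/d`: members with an isolated critical point -/

namespace Pool.Agent.U184

open MvPolynomial Pool.Agent.H628R4.TP Pool.Agent.W574.HS
open Pool.Agent.N127.PB (stmA stmAI)

variable {σ : Type} [Fintype σ]

/-- The form `g` of degree `e ≥ 2` has an isolated critical point at the origin: the partial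
derivatives of `g` have no common zero `z ≠ 0` (the projective hypersurface `g = 0` is smooth). -/
def IsoForm (g : MvPolynomial σ ℂ) (e : ℕ) : Prop :=
  2 ≤ e ∧ ∀ z : σ → ℂ, (∀ i, eval z (pderiv i g) = 0) → z = 0

/-- a form with an isolated critical point has a period -/
theorem period_of_iso (g : MvPolynomial σ ℂ) (e : ℕ) (hg : g.IsHomogeneous e) (h : IsoForm g e) :
    HasPeriod g := by
  obtain ⟨he, hz⟩ := h
  refine Pool.Agent.N138.SU.W4b.t Pool.Agent.N138.SU.W4a.t g (fun _ => 1) e (fun _ => one_pos)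
    (by omega) hg (fun i => ?_) hz
  rw [constantCoeff_eq]
  by_contra h0
  have h1 := (hg.pderiv (i := i)) h0
  simp at h1
  omega

/-- Let `f_j` be forms of degree `d` in the variables `x_i`, `i ∈ σ` (`n` variables). There are
integers `k, m ≥ 1`, a form `G` of degree `m` in variables `z_j`, and a form `g ≠ 0` of degree `e` (so
that `k e = d m`) with `G(f) = g ^ k`, such that the projective hypersurface `g = 0` is smooth
(`IsoForm`) or, more generally, the class of `dx_1 ... dx_n` in `H ^ n(Ω, d - dg ∧)` is not zero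
(`HasPeriod`). For `m = k = 1`: a member `g` of the linear system spanned by the `f_j`. -/
def GoodMember {ι : Type} (f : ι → MvPolynomial σ ℂ) : Prop :=
  ∃ (m k e : ℕ) (G : MvPolynomial ι ℂ) (g : MvPolynomial σ ℂ), 0 < m ∧ 0 < k ∧
    G.IsHomogeneous m ∧ g.IsHomogeneous e ∧ g ≠ 0 ∧ aeval f G = g ^ k ∧
    (IsoForm g e ∨ HasPeriod g)

theorem GoodMember.per {ι : Type} {f : ι → MvPolynomial σ ℂ} (h : GoodMember f) :
    PerMember f := by
  obtain ⟨m, k, e, G, g, hm, hk, hG, hg, hg0, hGg, hp | hp⟩ := h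
  · exact ⟨m, k, e, G, g, hm, hk, hG, hg, hg0, hGg, period_of_iso g e hg hp⟩
  · exact ⟨m, k, e, G, g, hm, hk, hG, hg, hg0, hGg, hp⟩

theorem GoodMember.ne {ι : Type} {f : ι → MvPolynomial σ ℂ} (h : GoodMember f) :
    ∃ j, f j ≠ 0 := by
  obtain ⟨m, k, e, G, g, hm, hk, hG, hg, hg0, hGg, _⟩ := h
  by_contra hall
  push Not at hall
  have e1 : f = fun _ => 0 := funext hall
  have h1 : aeval (fun _ : ι => (0 : MvPolynomial σ ℂ)) G = C (constantCoeff G) := aeval_zero' G
  have h4 : constantCoeff G = 0 := by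
    rw [constantCoeff_eq]
    by_contra hne
    have := hG hne
    simp at this
    omega
  rw [e1, h1, h4, map_zero] at hGg
  exact pow_ne_zero k hg0 hGg.symm

/-- **The root `-n/d`** for the hypersurface `∑ y_j f_j(x) = 0`. -/
theorem root_good_form {ι : Type} [Fintype ι] (f : ι → MvPolynomial σ ℂ) (d : ℕ) (hd : 0 < d)
    (hn : 0 < Fintype.card σ) (hf : ∀ j, (f j).IsHomogeneous d) (b : Polynomial ℂ)
    (hb : IsBFunction (univ f) b) (hc : GoodMember f) :
    b.eval (-(Fintype.card σ : ℂ) / (d : ℂ)) = 0 := by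
  classical
  obtain ⟨j, hj⟩ := hc.ne
  exact root_per f d hd hn hf _ (stmA ι σ f d hd hf (univ_ne_zero _ ⟨j, hj⟩) b hb _) hc.per

/-- **The root `-n/d`** for the ideal `(f_j)`. -/
theorem root_good_ideal {ι : Type} [Fintype ι] (f : ι → MvPolynomial σ ℂ) (d : ℕ) (hd : 0 < d)
    (hn : 0 < Fintype.card σ) (hf : ∀ j, (f j).IsHomogeneous d) (b : Polynomial ℂ)
    (hb : Pool.Agent.W574.SM.IsFunctionalEq f b) (hc : GoodMember f) :
    b.eval (-(Fintype.card σ : ℂ) / (d : ℂ)) = 0 := by
  classical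
  obtain ⟨j, hj⟩ := hc.ne
  exact root_per f d hd hn hf _
    (stmAI f d hd hf (univ_ne_zero _ ⟨j, hj⟩) b (Pool.Agent.W366.SI.taskI1' f b hb) _) hc.per

end Pool.Agent.U184
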