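import Pool.Agent.U184.Per2

set_option autoImplicit false

/-! # Forms with a period -/

namespace Pool.Agent.U184

open MvPolynomial

section sum

variable {σ τ : Type}

/-- the functional on the polynomials in both sets of variables -/
noncomputable def lamS (L1 : MvPolynomial σ ℂ →ₗ[ℂ] ℂ) (L2 : MvPolynomial τ ℂ →ₗ[ℂ] ℂ) :
    MvPolynomial (σ ⊕ τ) ℂ →ₗ[ℂ] ℂ :=
  (basisMonomials (σ ⊕ τ) ℂ).constr ℂ fun s =>
    L1 (monomial (Finsupp.sumFinsuppEquivProdFinsupp s).1 1) *
      L2 (monomial (Finsupp.sumFinsuppEquivProdFinsupp s).2 1)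

theorem lamS_monomial (L1 : MvPolynomial σ ℂ →ₗ[ℂ] ℂ) (L2 : MvPolynomial τ ℂ →ₗ[ℂ] ℂ)
    (s : (σ ⊕ τ) →₀ ℕ) (c : ℂ) : lamS L1 L2 (monomial s c) =
      c * (L1 (monomial (Finsupp.sumFinsuppEquivProdFinsupp s).1 1) *
        L2 (monomial (Finsupp.sumFinsuppEquivProdFinsupp s).2 1)) := by
  have h1 : (monomial s c : MvPolynomial (σ ⊕ τ) ℂ) = c • basisMonomials (σ ⊕ τ) ℂ s := by
    rw [coe_basisMonomials, smul_monomial, smul_eq_mul, mul_one]
  rw [h1, map_smul, lamS, Module.Basis.constr_basis, smul_eq_mul]

theorem prod_of_monomial (s : (σ ⊕ τ) →₀ ℕ) (c : ℂ) : (monomial s c : MvPolynomial (σ ⊕ τ) ℂ) =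
    rename Sum.inl (monomial (Finsupp.sumFinsuppEquivProdFinsupp s).1 c) *
      rename Sum.inr (monomial (Finsupp.sumFinsuppEquivProdFinsupp s).2 1) := by
  rw [rename_monomial, rename_monomial, monomial_mul, mul_one]
  refine congrArg (fun w : (σ ⊕ τ) →₀ ℕ => (monomial w c : MvPolynomial (σ ⊕ τ) ℂ)) ?_
  ext x
  rw [Finsupp.add_apply]
  rcases x with x | x
  · rw [Finsupp.mapDomain_apply Sum.inl_injective, Finsupp.mapDomain_of_notMem_range, add_zero]
    · rfl
    · rintro ⟨y, hy⟩
      exact Sum.inr_ne_inl hy
  · rw [Finsupp.mapDomain_apply Sum.inr_injective, Finsupp.mapDomain_of_notMem_range, zero_add]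
    · rfl
    · rintro ⟨y, hy⟩
      exact Sum.inl_ne_inr hy

theorem lamS_mul (L1 : MvPolynomial σ ℂ →ₗ[ℂ] ℂ) (L2 : MvPolynomial τ ℂ →ₗ[ℂ] ℂ)
    (p : MvPolynomial σ ℂ) (q : MvPolynomial τ ℂ) :
    lamS L1 L2 (rename Sum.inl p * rename Sum.inr q) = L1 p * L2 q := by
  induction p using MvPolynomial.induction_on' with
  | monomial a c =>
    induction q using MvPolynomial.induction_on' with
    | monomial b e =>
      rw [rename_monomial, rename_monomial, monomial_mul, lamS_monomial]
      have h1 : Finsupp.sumFinsuppEquivProdFinsupp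
          (Finsupp.mapDomain Sum.inl a + Finsupp.mapDomain Sum.inr b) = (a, b) := by
        rw [Equiv.apply_eq_iff_eq_symm_apply]
        ext x
        rw [Finsupp.add_apply]
        rcases x with x | x
        · rw [Finsupp.mapDomain_apply Sum.inl_injective, Finsupp.mapDomain_of_notMem_range, add_zero]
          · rfl
          · rintro ⟨y, hy⟩
            exact Sum.inr_ne_inl hy
        · rw [Finsupp.mapDomain_apply Sum.inr_injective, Finsupp.mapDomain_of_notMem_range, zero_add]
          · rfl
          · rintro ⟨y, hy⟩
            exact Sum.inl_ne_inr hy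
      rw [h1]
      have h2 : L1 (monomial a c) = c * L1 (monomial a 1) := by
        rw [← smul_eq_mul, ← map_smul, smul_monomial, smul_eq_mul, mul_one]
      have h3 : L2 (monomial b e) = e * L2 (monomial b 1) := by
        rw [← smul_eq_mul, ← map_smul, smul_monomial, smul_eq_mul, mul_one]
      rw [h2, h3]
      ring
    | add q1 q2 h1 h2 => rw [map_add, mul_add, map_add, h1, h2, map_add, mul_add]
  | add p1 p2 h1 h2 => rw [map_add, add_mul, map_add, h1, h2, map_add, add_mul]

theorem pderiv_inl_rename_inr (i : σ) (q : MvPolynomial τ ℂ) :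
    pderiv (Sum.inl i) (rename Sum.inr q : MvPolynomial (σ ⊕ τ) ℂ) = 0 := by
  classical
  apply pderiv_eq_zero_of_notMem_vars
  intro h
  obtain ⟨y, _, hy⟩ := Finset.mem_image.1 (vars_rename _ _ h)
  exact Sum.inr_ne_inl hy

theorem pderiv_inr_rename_inl (i : τ) (q : MvPolynomial σ ℂ) :
    pderiv (Sum.inr i) (rename Sum.inl q : MvPolynomial (σ ⊕ τ) ℂ) = 0 := by
  classical
  apply pderiv_eq_zero_of_notMem_vars
  intro h
  obtain ⟨y, _, hy⟩ := Finset.mem_image.1 (vars_rename _ _ h)
  exact Sum.inl_ne_inr hy

/-- **Sums in separate variables.** -/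
theorem period_sum (g1 : MvPolynomial σ ℂ) (g2 : MvPolynomial τ ℂ) (h1 : HasPeriod g1)
    (h2 : HasPeriod g2) : HasPeriod (rename Sum.inl g1 + rename Sum.inr g2) := by
  obtain ⟨L1, hL1, h11⟩ := h1
  obtain ⟨L2, hL2, h22⟩ := h2
  refine ⟨lamS L1 L2, ?_, ?_⟩
  · intro i h
    induction h using MvPolynomial.induction_on' with
    | monomial s c =>
      rw [prod_of_monomial]
      set P := monomial (Finsupp.sumFinsuppEquivProdFinsupp s).1 c with hP
      set Q := (monomial (Finsupp.sumFinsuppEquivProdFinsupp s).2 1 : MvPolynomial τ ℂ) with hQ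
      rcases i with i | i
      · rw [pderiv_mul, pderiv_inl_rename_inr, mul_zero, add_zero, map_add,
          pderiv_inl_rename_inr, add_zero, pderiv_rename Sum.inl_injective,
          pderiv_rename Sum.inl_injective, lamS_mul, ← mul_assoc, ← map_mul, lamS_mul, hL1]
      · rw [pderiv_mul, pderiv_inr_rename_inl, zero_mul, zero_add, map_add,
          pderiv_inr_rename_inl, zero_add, pderiv_rename Sum.inr_injective,
          pderiv_rename Sum.inr_injective, lamS_mul, mul_left_comm, ← map_mul, lamS_mul, hL2]
    | add p q hp hq => rw [map_add, map_add, mul_add, map_add, hp, hq]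
  · have h3 := lamS_mul L1 L2 1 1
    rw [map_one, map_one, one_mul, h11, h22, one_mul] at h3
    exact h3

end sum

/-- **The product of at least two variables.** -/
theorem period_prod {σ : Type} [Fintype σ] (hσ : 2 ≤ Fintype.card σ) :
    HasPeriod (∏ i : σ, X i : MvPolynomial σ ℂ) := by
  classical
  set diag : (σ →₀ ℕ) → Prop := fun s => ∀ i j, s i = s j with hdiag
  obtain ⟨i0⟩ : Nonempty σ := Fintype.card_pos_iff.1 (by omega)
  set L : MvPolynomial σ ℂ →ₗ[ℂ] ℂ := (basisMonomials σ ℂ).constr ℂ fun s =>
    if diag s then ((s i0).factorial : ℂ) else 0 with hL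
  have hLm : ∀ s c, L (monomial s c) = c * if diag s then ((s i0).factorial : ℂ) else 0 := by
    intro s c
    have h1 : (monomial s c : MvPolynomial σ ℂ) = c • basisMonomials σ ℂ s := by
      rw [coe_basisMonomials, smul_monomial, smul_eq_mul, mul_one]
    rw [h1, map_smul, hL, Module.Basis.constr_basis, smul_eq_mul]
  set u : σ →₀ ℕ := Finsupp.equivFunOnFinite.symm fun _ => 1 with hu
  have hui : ∀ i, u i = 1 := fun i => rfl
  have hprod : ∀ i : σ, pderiv i (∏ i : σ, X i : MvPolynomial σ ℂ) =
      monomial (u - Finsupp.single i 1) 1 := by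
    intro i
    have h1 : (∏ i : σ, X i : MvPolynomial σ ℂ) = monomial u 1 := by
      rw [monomial_eq, C_1, one_mul, Finsupp.prod_fintype _ _ (fun _ => pow_zero _)]
      refine Finset.prod_congr rfl fun j _ => ?_
      rw [hui, pow_one]
    rw [h1, pderiv_monomial, hui, Nat.cast_one, one_mul]
  refine ⟨L, ?_, ?_⟩
  · intro i h
    induction h using MvPolynomial.induction_on' with
    | monomial s c =>
      rw [hprod, pderiv_monomial, monomial_mul, one_mul, hLm, hLm]
      obtain ⟨j, hj⟩ : ∃ j, j ≠ i := by
        by_contra hcon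
        push Not at hcon
        have : Fintype.card σ ≤ 1 := Fintype.card_le_one_iff.2 fun a b => by
          rw [hcon a, hcon b]
        omega
      set t : σ →₀ ℕ := u - Finsupp.single i 1 + s with ht
      have hti : t i = s i := by
        rw [ht, Finsupp.add_apply, Finsupp.tsub_apply, hui, Finsupp.single_eq_same]
        omega
      have htj : ∀ j, j ≠ i → t j = s j + 1 := by
        intro j hj
        rw [ht, Finsupp.add_apply, Finsupp.tsub_apply, hui, Finsupp.single_eq_of_ne hj]
        omega
      rcases Nat.eq_zero_or_pos (s i) with h0 | h0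
      · rw [h0, Nat.cast_zero, mul_zero, zero_mul, if_neg, mul_zero]
        intro hd
        have := hd i j
        rw [hti, htj j hj, h0] at this
        omega
      · have hsi : ∀ l, (s - Finsupp.single i 1 : σ →₀ ℕ) l = if l = i then s i - 1 else s l := by
          intro l
          rw [Finsupp.tsub_apply]
          split_ifs with hl
          · rw [hl, Finsupp.single_eq_same]
          · rw [Finsupp.single_eq_of_ne hl]
            omega
        have hiff : diag (s - Finsupp.single i 1) ↔ diag t := by
          constructor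
          · intro hd a b
            have h1 := hd a b
            rw [hsi, hsi] at h1
            by_cases ha : a = i
            · by_cases hb : b = i
              · rw [ha, hb]
              · rw [if_pos ha, if_neg hb] at h1
                rw [ha, hti, htj b hb]
                omega
            · by_cases hb : b = i
              · rw [if_neg ha, if_pos hb] at h1
                rw [hb, hti, htj a ha]
                omega
              · rw [if_neg ha, if_neg hb] at h1
                rw [htj a ha, htj b hb]
                omega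
          · intro hd a b
            have h1 := hd a b
            rw [hsi, hsi]
            by_cases ha : a = i
            · by_cases hb : b = i
              · rw [ha, hb]
              · rw [ha, hti, htj b hb] at h1
                rw [if_pos ha, if_neg hb]
                omega
            · by_cases hb : b = i
              · rw [hb, hti, htj a ha] at h1
                rw [if_neg ha, if_pos hb]
                omega
              · rw [htj a ha, htj b hb] at h1
                rw [if_neg ha, if_neg hb]
                omega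
        by_cases hd : diag t
        · rw [if_pos (hiff.2 hd), if_pos hd]
          have h1 : (s - Finsupp.single i 1 : σ →₀ ℕ) i0 = s i - 1 := by
            rw [(hiff.2 hd) i0 i, hsi, if_pos rfl]
          have h2 : t i0 = s i := by rw [hd i0 i, hti]
          rw [h1, h2]
          obtain ⟨n, hn⟩ : ∃ n, s i = n + 1 := ⟨s i - 1, by omega⟩
          rw [hn, Nat.add_sub_cancel, Nat.factorial_succ]
          push_cast
          ring
        · rw [if_neg (fun h => hd (hiff.1 h)), if_neg hd, mul_zero, mul_zero]
    | add p q hp hq => rw [map_add, map_add, mul_add, map_add, hp, hq]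
  · have h1 : (1 : MvPolynomial σ ℂ) = monomial 0 1 := rfl
    rw [h1, hLm, if_pos]
    · simp
    · intro a b
      rfl

end Pool.Agent.U184
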