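import Mathlib

set_option autoImplicit false

/-! # Prime factors and logarithmic derivatives -/

namespace Pool.Agent.U184

open MvPolynomial

variable {σ : Type}

/-- an irreducible polynomial does not divide all of its derivatives -/
theorem exists_pd {q : MvPolynomial σ ℂ} (hq : Irreducible q) : ∃ i, ¬ q ∣ pderiv i q := by
  classical
  by_contra hcon
  push Not at hcon
  have h0 : ∀ i, pderiv i q = 0 := by
    intro i
    by_contra hne
    have h1 := totalDegree_le_of_dvd_of_isDomain (hcon i) hne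
    obtain ⟨m, hm, hms⟩ := Finset.exists_mem_eq_sup (pderiv i q).support
      (support_nonempty.2 hne) (fun s => s.sum fun _ e => e)
    have h2 : (pderiv i q).totalDegree = m.sum fun _ e => e := hms
    have h3 : m + Finsupp.single i 1 ∈ q.support := by
      rw [mem_support_iff] at hm ⊢
      rw [coeff_pderiv] at hm
      exact left_ne_zero_of_mul hm
    have h4 := le_totalDegree h3
    have h5 : ((m + Finsupp.single i 1).sum fun _ e => e) = (m.sum fun _ e => e) + 1 := by
      rw [Finsupp.sum_add_index' (fun _ => rfl) (fun _ _ _ => rfl), Finsupp.sum_single_index rfl]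
    omega
  have hsup : ∀ m ∈ q.support, m = 0 := by
    intro m hm
    ext i
    by_contra hi
    rw [Finsupp.coe_zero, Pi.zero_apply] at hi
    have h1 : m - Finsupp.single i 1 + Finsupp.single i 1 = m := by
      apply tsub_add_cancel_of_le
      rw [Finsupp.single_le_iff]
      omega
    have h2 := coeff_pderiv (i := i) q (m - Finsupp.single i 1)
    rw [h0 i, coeff_zero, h1] at h2
    have h3 := (mul_eq_zero.1 h2.symm).resolve_left (mem_support_iff.1 hm)
    exact Nat.cast_add_one_ne_zero _ h3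
  have hC : q = C (coeff 0 q) := by
    ext m
    rw [coeff_C]
    split_ifs with h
    · rw [h]
    · by_contra hne
      exact h (hsup m (mem_support_iff.2 hne)).symm
  have hne := hq.ne_zero
  apply hq.not_isUnit
  rw [hC] at hne ⊢
  have : coeff 0 q ≠ 0 := by
    intro h
    rw [h, map_zero] at hne
    exact hne rfl
  exact (isUnit_iff_ne_zero.2 this).map C

/-- `f` divides `F ∂f` -/
theorem dvd_F_mul (F : MvPolynomial σ ℂ) (l : σ) (f : MvPolynomial σ ℂ) :
    f ≠ 0 → (∀ P, Prime P → P ∣ f → P ∣ F) → f ∣ F * pderiv l f := by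
  induction f using UniqueFactorizationMonoid.induction_on_prime with
  | h₁ => intro h; exact absurd rfl h
  | h₂ x hx => intro _ _; exact hx.dvd
  | h₃ g P hg hP ih =>
    intro _ h
    have h1 := ih hg fun Q hQ hQg => h Q hQ (Dvd.dvd.mul_left hQg P)
    have h2 := h P hP (dvd_mul_right _ _)
    rw [Derivation.leibniz, smul_eq_mul, smul_eq_mul]
    have e : F * (P * pderiv l g + g * pderiv l P) =
        P * (F * pderiv l g) + F * g * pderiv l P := by ring
    rw [e]
    refine dvd_add (mul_dvd_mul_left P h1) (Dvd.dvd.mul_right (mul_dvd_mul h2 dvd_rfl) _)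

theorem exists_A (f F : MvPolynomial σ ℂ) (hf0 : f ≠ 0) (M : ℕ) (hM : f ∣ F ^ M) :
    ∃ A : σ → MvPolynomial σ ℂ, ∀ l, f * A l = F * pderiv l f := by
  have h : ∀ P, Prime P → P ∣ f → P ∣ F := fun P hP hPf => hP.dvd_of_dvd_pow (hPf.trans hM)
  choose A hA using fun l => dvd_F_mul F l f hf0 h
  exact ⟨A, fun l => (hA l).symm⟩

/-- the structure at a prime factor -/
theorem prime_struct (f F P : MvPolynomial σ ℂ) (hf0 : f ≠ 0) (hsq : Squarefree F) (hFf : F ∣ f)
    (hP : Prime P) (hPF : P ∣ F) (A : σ → MvPolynomial σ ℂ)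
    (hA : ∀ l, f * A l = F * pderiv l f) : ∃ (m : ℕ) (F' : MvPolynomial σ ℂ), 1 ≤ m ∧
      F = P * F' ∧ ¬ P ∣ F' ∧ ∀ l, P ∣ A l - (m : MvPolynomial σ ℂ) * F' * pderiv l P := by
  obtain ⟨F', rfl⟩ := hPF
  obtain ⟨m, f', hnd, hf⟩ := WfDvdMonoid.max_power_factor hf0 hP.irreducible
  have hm : m ≠ 0 := by
    rintro rfl
    rw [pow_zero, one_mul] at hf
    apply hnd
    rw [← hf]
    exact (dvd_mul_right P F').trans hFf
  have hP' : ¬ P ∣ F' := by
    intro h
    exact hP.not_isUnit (hsq P (mul_dvd_mul_left P h))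
  refine ⟨m, F', by omega, rfl, hP', fun l => ?_⟩
  obtain ⟨n, rfl⟩ : ∃ n, m = n + 1 := ⟨m - 1, by omega⟩
  have h1 := hA l
  rw [hf, Derivation.leibniz, Derivation.leibniz_pow, smul_eq_mul, smul_eq_mul, nsmul_eq_mul,
    smul_eq_mul, Nat.add_sub_cancel] at h1
  have h2 : f' * A l = F' * (((n + 1 : ℕ) : MvPolynomial σ ℂ) * pderiv l P * f' +
      P * pderiv l f') := by
    apply mul_left_cancel₀ (pow_ne_zero (n + 1) hP.ne_zero)
    rw [pow_succ] at h1 ⊢
    linear_combination h1
  have h3 : P ∣ f' * (A l - ((n + 1 : ℕ) : MvPolynomial σ ℂ) * F' * pderiv l P) :=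
    ⟨F' * pderiv l f', by linear_combination h2⟩
  exact (hP.dvd_or_dvd h3).resolve_left hnd

/-- divisibility by a squarefree polynomial -/
theorem sqf_dvd (F : MvPolynomial σ ℂ) : ∀ x : MvPolynomial σ ℂ, F ≠ 0 → Squarefree F →
    (∀ P, Prime P → P ∣ F → P ∣ x) → F ∣ x := by
  induction F using UniqueFactorizationMonoid.induction_on_prime with
  | h₁ => intro x h; exact absurd rfl h
  | h₂ u hu => intro x _ _ _; exact hu.dvd
  | h₃ g P hg hP ih =>
    intro x _ hsq h
    obtain ⟨y, rfl⟩ := h P hP (dvd_mul_right _ _)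
    refine mul_dvd_mul_left P (ih y hg (hsq.squarefree_of_dvd (dvd_mul_left _ _)) ?_)
    intro Q hQ hQg
    rcases hQ.dvd_or_dvd (h Q hQ (Dvd.dvd.mul_left hQg P)) with h1 | h1
    · exfalso
      obtain ⟨z, hz⟩ := h1
      rcases hP.irreducible.isUnit_or_isUnit hz with h2 | h2
      · exact hQ.not_isUnit h2
      · have h3 : P ∣ g := by
          obtain ⟨u, hu⟩ := h2
          have : Q = P * ↑u⁻¹ := by rw [hz, ← hu, mul_assoc, Units.mul_inv, mul_one]
          rw [this] at hQg
          exact (dvd_mul_right _ _).trans hQg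
        exact hP.not_isUnit (hsq P (mul_dvd_mul_left P h3))
    · exact h1

/-- a linear combination which is prime to `F` -/
theorem exists_comb [Fintype σ] [DecidableEq σ] (F : MvPolynomial σ ℂ) (hF0 : F ≠ 0)
    (hsq : Squarefree F) (Θ : σ → MvPolynomial σ ℂ)
    (h : ∀ P, Prime P → P ∣ F → ∃ l, ¬ P ∣ Θ l) :
    ∃ c : σ → ℂ, ∀ a, F ∣ (∑ l, C (c l) * Θ l) * a → F ∣ a := by
  classical
  obtain ⟨s, hs, hsF⟩ := UniqueFactorizationMonoid.exists_prime_factors F hF0
  let p : {b // b ∈ s.toFinset} → Submodule ℂ (σ → ℂ) := fun b =>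
    { carrier := {c | b.1 ∣ ∑ l, C (c l) * Θ l}
      add_mem' := by
        intro c c' hc hc'
        have e : ∑ l, C ((c + c') l) * Θ l = (∑ l, C (c l) * Θ l) + ∑ l, C (c' l) * Θ l := by
          rw [← Finset.sum_add_distrib]
          refine Finset.sum_congr rfl fun l _ => ?_
          rw [Pi.add_apply, map_add, add_mul]
        show b.1 ∣ ∑ l, C ((c + c') l) * Θ l
        rw [e]
        exact dvd_add hc hc'
      zero_mem' := by
        show b.1 ∣ ∑ l, C ((0 : σ → ℂ) l) * Θ l
        simp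
      smul_mem' := by
        intro r c hc
        have e : ∑ l, C ((r • c) l) * Θ l = C r * ∑ l, C (c l) * Θ l := by
          rw [Finset.mul_sum]
          refine Finset.sum_congr rfl fun l _ => ?_
          rw [Pi.smul_apply, smul_eq_mul, map_mul, mul_assoc]
        show b.1 ∣ ∑ l, C ((r • c) l) * Θ l
        rw [e]
        exact Dvd.dvd.mul_left hc _ }
  by_cases hU : (⋃ b, (p b : Set (σ → ℂ))) = Set.univ
  · obtain ⟨b, hb⟩ := Subspace.exists_eq_top_of_iUnion_eq_univ hU
    exfalso
    have hbs : b.1 ∈ s := Multiset.mem_toFinset.1 b.2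
    obtain ⟨l, hl⟩ := h b.1 (hs _ hbs) ((Multiset.dvd_prod hbs).trans hsF.dvd)
    apply hl
    have h1 : Pi.single l (1 : ℂ) ∈ p b := by rw [hb]; exact Submodule.mem_top
    have h2 : b.1 ∣ ∑ k, C ((Pi.single l (1 : ℂ) : σ → ℂ) k) * Θ k := h1
    rw [Finset.sum_eq_single l] at h2
    · rwa [Pi.single_eq_same, map_one, one_mul] at h2
    · intro k _ hk
      rw [Pi.single_eq_of_ne hk, map_zero, zero_mul]
    · intro hh; exact absurd (Finset.mem_univ l) hh
  · obtain ⟨c, hc⟩ := (Set.ne_univ_iff_exists_notMem _).1 hU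
    refine ⟨c, fun a ha => sqf_dvd F a hF0 hsq fun P hP hPF => ?_⟩
    rcases hP.dvd_or_dvd (hPF.trans ha) with h1 | h1
    · exfalso
      obtain ⟨b, hbs, hPb⟩ := hP.exists_mem_multiset_dvd (hPF.trans hsF.symm.dvd)
      apply hc
      rw [Set.mem_iUnion]
      refine ⟨⟨b, Multiset.mem_toFinset.2 hbs⟩, ?_⟩
      have h2 : b ∣ P :=
        (hP.irreducible.associated_of_dvd (hs b hbs).irreducible hPb).symm.dvd
      exact h2.trans h1
    · exact h1

end Pool.Agent.U184
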