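import Pool.Agent.U184.CI
import Pool.Agent.R852.BM.Defs
import Pool.Agent.R852.SC.Poly

set_option autoImplicit false

/-! # Poles of zeta functions and the root `-n/d` -/

namespace Pool.Agent.U184

open MvPolynomial Pool.Agent.H628R4.TP Pool.Agent.W574.HS Pool.Agent.W574.SM
  Pool.Agent.TH192.DT Pool.Agent.Y228.RR Pool.Agent.Y231.RF Pool.Agent.R852.SC
  Pool.Agent.R852.BM Pool.Agent.TH187.SA

variable {σ T I : Type} [Fintype σ] [DecidableEq σ] [Fintype T] [DecidableEq T] [Fintype I]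
  {κ : T → Type} [∀ t, Fintype (κ t)] [∀ t, DecidableEq (κ t)]

/-- Let the `g t j` be forms of degree `δ t` in `n` variables. The number `ν / N` is equal to
`n / ∑ t, a t * δ t` (this is so for the exceptional divisor of the blow-up of the origin), or it
comes from a Rees divisor of the product of the ideals `I_t = (g t j)_j` with `a t ≠ 0`
(`FromRees`). -/
def ConeOrRees (g : (t : T) → κ t → MvPolynomial σ ℂ) (δ : T → ℕ) (a : T → ℕ) (ν N : ℕ) : Prop :=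
  ν * ∑ t, a t * δ t = Fintype.card σ * N ∨ FromRees g a 1 ν N

theorem ex_ne_of_pos {a m : T → ℕ} (h : 0 < ∑ t, a t * m t) : ∃ t, a t ≠ 0 := by
  obtain ⟨t, _, ht⟩ := Finset.exists_ne_zero_of_sum_ne_zero h.ne'
  exact ⟨t, left_ne_zero_of_mul ht⟩

/-- the roots of the components -/
theorem sys_root (g : (t : T) → κ t → MvPolynomial σ ℂ) (δ : T → ℕ) (hδ : ∀ t, 0 < δ t)
    (hg : ∀ t j, (g t j).IsHomogeneous (δ t)) (hg0 : ∀ t, ∃ j, g t j ≠ 0) (a : T → ℕ)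
    (hG : GoodSystem g a) (k : I → ℕ) (m : I → T → ℕ) (b : Polynomial ℂ)
    (hb : IsBFunction (powProd a g) b) (x : I ⊕ T) (hx : 0 < mulR a m x)
    (hE : ∀ i, x = Sum.inl i → ConeOrRees g δ a (k i + 1) (∑ t, a t * m i t)) :
    b.eval (-(nuR k T x : ℂ) / mulR a m x) = 0 := by
  rcases x with i | t
  · have hpos : 0 < ∑ t, a t * m i t := hx
    exact comp_global g δ hδ hg hg0 a (ex_ne_of_pos hpos) hG b hb (k i + 1) _ hpos (hE i rfl)
  · have ht : 0 < a t := hx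
    have h := (powData_global a g hg0 b hb).strict t 0 ht
    rw [Nat.cast_zero, add_zero] at h
    change b.eval (-((1 : ℕ) : ℂ) / a t) = 0
    rw [Nat.cast_one]
    exact h

/-- **Topological zeta functions.** -/
theorem sys_top (g : (t : T) → κ t → MvPolynomial σ ℂ) (δ : T → ℕ) (hδ : ∀ t, 0 < δ t)
    (hg : ∀ t j, (g t j).IsHomogeneous (δ t)) (hg0 : ∀ t, ∃ j, g t j ≠ 0) (a : T → ℕ)
    (hG : GoodSystem g a) (k : I → ℕ) (m : I → T → ℕ) (χ : Finset (I ⊕ T) → ℤ)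
    (hE : ∀ i, 0 < ∑ t, a t * m i t → (∃ J, χ J ≠ 0 ∧ Sum.inl i ∈ J) →
      ConeOrRees g δ a (k i + 1) (∑ t, a t * m i t))
    (s₀ : ℂ) (hs : (topZ (nuR k T) (mulR a m) χ).denom.eval s₀ = 0)
    (b : Polynomial ℂ) (hb : IsBFunction (powProd a g) b) : b.eval s₀ = 0 := by
  obtain ⟨J, hJ, x, hx, hN, rfl⟩ := pole_topZ' _ _ χ (nuR_pos k) s₀ hs
  refine sys_root g δ hδ hg hg0 a hG k m b hb x hN ?_
  rintro i rfl
  exact hE i hN ⟨J, hJ, hx⟩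

/-- **Twisted topological zeta functions.** -/
theorem sys_tw (g : (t : T) → κ t → MvPolynomial σ ℂ) (δ : T → ℕ) (hδ : ∀ t, 0 < δ t)
    (hg : ∀ t j, (g t j).IsHomogeneous (δ t)) (hg0 : ∀ t, ∃ j, g t j ≠ 0) (a : T → ℕ)
    (hG : GoodSystem g a) (k : I → ℕ) (m : I → T → ℕ) (χ : Finset (I ⊕ T) → ℤ) (e : ℕ)
    (hE : ∀ i, 0 < ∑ t, a t * m i t → e ∣ ∑ t, a t * m i t →
      (∃ J, χ J ≠ 0 ∧ Sum.inl i ∈ J) → ConeOrRees g δ a (k i + 1) (∑ t, a t * m i t))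
    (s₀ : ℂ) (hs : (twZ e (nuR k T) (mulR a m) χ).denom.eval s₀ = 0)
    (b : Polynomial ℂ) (hb : IsBFunction (powProd a g) b) : b.eval s₀ = 0 := by
  classical
  have h1 : twZ e (nuR k T) (mulR a m) χ = topZ (nuR k T) (mulR a m)
      (fun I => if I.Nonempty ∧ ∀ i ∈ I, e ∣ mulR a m i then χ I else 0) := by
    rw [twZ, topZ, Finset.sum_filter]
    refine Finset.sum_congr rfl fun I _ => ?_
    split_ifs
    · rfl
    · simp
  rw [h1] at hs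
  refine sys_top g δ hδ hg hg0 a hG k m _ (fun i hi hJ => ?_) s₀ hs b hb
  obtain ⟨J, hJ, hiJ⟩ := hJ
  by_cases hc : J.Nonempty ∧ ∀ i ∈ J, e ∣ mulR a m i
  · rw [if_pos hc] at hJ
    exact hE i hi (hc.2 _ hiJ) ⟨J, hJ, hiJ⟩
  · rw [if_neg hc] at hJ
    exact absurd rfl hJ

/-- **Motivic zeta functions.** -/
theorem sys_mot (g : (t : T) → κ t → MvPolynomial σ ℂ) (δ : T → ℕ) (hδ : ∀ t, 0 < δ t)
    (hg : ∀ t j, (g t j).IsHomogeneous (δ t)) (hg0 : ∀ t, ∃ j, g t j ≠ 0) (a : T → ℕ)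
    (hG : GoodSystem g a) (k : I → ℕ) (m : I → T → ℕ) {R : Type} [CommRing R] (u : Rˣ)
    (χ : Finset {x // 0 < mulR a m x} → R)
    (hE : ∀ i, (∃ J, χ J ≠ 0 ∧ ∃ x ∈ J, x.1 = Sum.inl i) →
      ConeOrRees g δ a (k i + 1) (∑ t, a t * m i t))
    (b : Polynomial ℂ)
    (hb : IsBFunction (powProd a g) b ∨ IsLocalBFunction (powProd a g) b) :
    dlZ u (nuR k T) (mulR a m) χ ∈ ratU u (RootPairs b) ∧
      ∀ s₀ : ℚ, IsPoleU u (dlZ u (nuR k T) (mulR a m) χ) s₀ → b.eval (s₀ : ℂ) = 0 := by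
  have hb' : IsBFunction (powProd a g) b := by
    rcases hb with hb | hb
    · exact hb
    · exact bfun_of_local_sys g δ hg hg0 a b hb
  have h1 : dlZ u (nuR k T) (mulR a m) χ ∈ ratU u (RootPairs b) := by
    refine dlZ_mem_of u _ _ χ _ fun J hJ x hx => ?_
    obtain ⟨x, hx0⟩ := x
    refine ⟨?_, ?_, ?_⟩
    · change -(nuR k T x : ℤ) < 0
      have := nuR_pos (T := T) k x
      omega
    · change (0 : ℤ) < (mulR a m x : ℤ)
      exact_mod_cast hx0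
    · change b.eval (((-(nuR k T x : ℤ) : ℤ) : ℂ) / ((mulR a m x : ℤ) : ℂ)) = 0
      push_cast
      refine sys_root g δ hδ hg hg0 a hG k m b hb' x hx0 ?_
      rintro i rfl
      exact hE i ⟨J, hJ, _, hx, rfl⟩
  exact ⟨h1, fun s₀ hs₀ => root_of_poleU u h1 hs₀⟩

/-- **One finite set of pairs.** -/
theorem sys_set (g : (t : T) → κ t → MvPolynomial σ ℂ) (δ : T → ℕ) (hδ : ∀ t, 0 < δ t)
    (hg : ∀ t j, (g t j).IsHomogeneous (δ t)) (hg0 : ∀ t, ∃ j, g t j ≠ 0) (a : T → ℕ)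
    (hG : GoodSystem g a) (k : I → ℕ) (m : I → T → ℕ) {R : Type} [CommRing R] (u : Rˣ)
    (χ : Finset {x // 0 < mulR a m x} → R)
    (hE : ∀ i, (∃ J, χ J ≠ 0 ∧ ∃ x ∈ J, x.1 = Sum.inl i) →
      ConeOrRees g δ a (k i + 1) (∑ t, a t * m i t)) :
    ∃ 𝒮 : Finset (ℤ × ℤ), dlZ u (nuR k T) (mulR a m) χ ∈ ratU u (𝒮 : Set (ℤ × ℤ)) ∧
      ∀ q ∈ 𝒮, q.1 < 0 ∧ 0 < q.2 ∧
        ∀ b : Polynomial ℂ, (IsBFunction (powProd a g) b ∨ IsLocalBFunction (powProd a g) b) →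
          b.eval ((q.1 : ℂ) / q.2) = 0 := by
  classical
  set 𝒮 : Finset (ℤ × ℤ) := (Finset.univ.filter fun x : {x // 0 < mulR a m x} =>
    ∃ J, χ J ≠ 0 ∧ x ∈ J).image fun x => (-(nuR k T x.1 : ℤ), (mulR a m x.1 : ℤ)) with h𝒮
  refine ⟨𝒮, dlZ_mem_of u _ _ χ _ fun J hJ x hx => ?_, fun q hq => ?_⟩
  · exact Finset.mem_coe.2 (Finset.mem_image.2
      ⟨x, Finset.mem_filter.2 ⟨Finset.mem_univ _, J, hJ, hx⟩, rfl⟩)
  · obtain ⟨⟨x, hx0⟩, hx1, rfl⟩ := Finset.mem_image.1 hq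
    obtain ⟨J, hJ, hx⟩ := (Finset.mem_filter.1 hx1).2
    refine ⟨?_, ?_, ?_⟩
    · change -(nuR k T x : ℤ) < 0
      have := nuR_pos (T := T) k x
      omega
    · change (0 : ℤ) < (mulR a m x : ℤ)
      exact_mod_cast hx0
    · intro b hb
      have hb' : IsBFunction (powProd a g) b := by
        rcases hb with hb | hb
        · exact hb
        · exact bfun_of_local_sys g δ hg hg0 a b hb
      change b.eval (((-(nuR k T x : ℤ) : ℤ) : ℂ) / ((mulR a m x : ℤ) : ℂ)) = 0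
      push_cast
      refine sys_root g δ hδ hg hg0 a hG k m b hb' x hx0 ?_
      rintro i rfl
      exact hE i ⟨J, hJ, _, hx, rfl⟩

/-- the roots of the components, for ideals -/
theorem sys_root_ideal (g : (t : T) → κ t → MvPolynomial σ ℂ) (δ : T → ℕ) (hδ : ∀ t, 0 < δ t)
    (hg : ∀ t j, (g t j).IsHomogeneous (δ t)) (hg0 : ∀ t, ∃ j, g t j ≠ 0) (a : T → ℕ)
    (hG : GoodSystem g a) (b : Polynomial ℂ)
    (hb : IsFunctionalEq (prodFam fun q : Σ t, Fin (a t) => g q.1) b) (ν : ℕ) (m : T → ℕ)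
    (hm : 0 < ∑ t, a t * m t) (hE : ConeOrRees g δ a ν (∑ t, a t * m t)) :
    b.eval (-(ν : ℂ) / ((∑ t, a t * m t : ℕ) : ℂ)) = 0 := by
  rcases hE with h | h
  · exact eval_eq_of_mul (sum_pos_of hδ (ex_ne_of_pos hm)) hm h
      (root_sys_ideal g δ hδ hg hg0 a (ex_ne_of_pos hm) hG b hb)
  · exact root_of_from a g b 1 (isLocEq_of_isFunctionalEq hb) _ _ hm h

/-- **Topological zeta functions of ideals.** -/
theorem sys_top_ideal (g : (t : T) → κ t → MvPolynomial σ ℂ) (δ : T → ℕ) (hδ : ∀ t, 0 < δ t)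
    (hg : ∀ t j, (g t j).IsHomogeneous (δ t)) (hg0 : ∀ t, ∃ j, g t j ≠ 0) (a : T → ℕ)
    (hG : GoodSystem g a) (k : I → ℕ) (m : I → T → ℕ) (χ : Finset I → ℤ)
    (hE : ∀ i, 0 < ∑ t, a t * m i t → ConeOrRees g δ a (k i + 1) (∑ t, a t * m i t))
    (b : Polynomial ℂ) (hb : IsFunctionalEq (prodFam fun q : Σ t, Fin (a t) => g q.1) b) :
    (∀ s₀ : ℂ, (topZ (fun i => k i + 1) (fun i => ∑ t, a t * m i t) χ).denom.eval s₀ = 0 →
      b.eval s₀ = 0) ∧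
    ((∀ J, χ J ≠ 0 → ∀ i ∈ J, ∀ j ∈ J, i ≠ j → 0 < ∑ t, a t * m i t → 0 < ∑ t, a t * m j t →
        (k i + 1) * ∑ t, a t * m j t ≠ (k j + 1) * ∑ t, a t * m i t) →
      ∃ P : Polynomial ℂ, algebraMap (Polynomial ℂ) (RatFunc ℂ) b *
        topZ (fun i => k i + 1) (fun i => ∑ t, a t * m i t) χ =
          algebraMap (Polynomial ℂ) (RatFunc ℂ) P) := by
  classical
  have hr : ∀ i, 0 < ∑ t, a t * m i t →
      b.eval (-((k i + 1 : ℕ) : ℂ) / ((∑ t, a t * m i t : ℕ) : ℂ)) = 0 := fun i hi =>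
    sys_root_ideal g δ hδ hg hg0 a hG b hb (k i + 1) (m i) hi (hE i hi)
  refine ⟨fun s₀ hs₀ => ?_, fun hd => ?_⟩
  · obtain ⟨J, _, i, _, hN, rfl⟩ := pole_topZ' _ _ χ (fun _ => Nat.succ_pos _) s₀ hs₀
    exact hr i hN
  · exact topZ_mul _ _ (fun _ => Nat.succ_pos _) χ b hr hd

/-- **Motivic zeta functions of ideals.** -/
theorem sys_mot_ideal (g : (t : T) → κ t → MvPolynomial σ ℂ) (δ : T → ℕ) (hδ : ∀ t, 0 < δ t)
    (hg : ∀ t j, (g t j).IsHomogeneous (δ t)) (hg0 : ∀ t, ∃ j, g t j ≠ 0) (a : T → ℕ)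
    (hG : GoodSystem g a) (k : I → ℕ) (m : I → T → ℕ) {R : Type} [CommRing R] (u : Rˣ)
    (χ : Finset {i // 0 < ∑ t, a t * m i t} → R)
    (hE : ∀ i, (∃ J, χ J ≠ 0 ∧ ∃ x ∈ J, x.1 = i) →
      ConeOrRees g δ a (k i + 1) (∑ t, a t * m i t))
    (b : Polynomial ℂ) (hb : IsFunctionalEq (prodFam fun q : Σ t, Fin (a t) => g q.1) b) :
    dlZ u (fun i => k i + 1) (fun i => ∑ t, a t * m i t) χ ∈ ratU u (RootPairs b) ∧
      ∀ s₀ : ℚ, IsPoleU u (dlZ u (fun i => k i + 1) (fun i => ∑ t, a t * m i t) χ) s₀ →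
        b.eval (s₀ : ℂ) = 0 := by
  have h1 : dlZ u (fun i => k i + 1) (fun i => ∑ t, a t * m i t) χ ∈ ratU u (RootPairs b) := by
    refine dlZ_mem_of u _ _ χ _ fun J hJ x hx => ?_
    obtain ⟨i, hi⟩ := x
    refine ⟨?_, ?_, ?_⟩
    · change -((k i + 1 : ℕ) : ℤ) < 0
      omega
    · change (0 : ℤ) < ((∑ t, a t * m i t : ℕ) : ℤ)
      exact_mod_cast hi
    · have h := sys_root_ideal g δ hδ hg hg0 a hG b hb (k i + 1) (m i) hi
        (hE i ⟨J, hJ, _, hx, rfl⟩)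
      change b.eval (((-((k i + 1 : ℕ) : ℤ) : ℤ) : ℂ) / (((∑ t, a t * m i t : ℕ) : ℤ) : ℂ)) = 0
      push_cast at h ⊢
      exact h
  exact ⟨h1, fun s₀ hs₀ => root_of_poleU u h1 hs₀⟩

end Pool.Agent.U184
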