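import Pool.Agent.U334.TC.Fe
import Pool.Agent.U184.Defs

set_option autoImplicit false
set_option linter.unusedSectionVars false

/-! # Ternary forms which are semi-invariant under a torus -/

namespace Pool.Agent.U184

open MvPolynomial Pool.Agent.U334.TC

/-! ## Homogeneous polynomials in two variables split into linear factors -/

theorem homogenize_pow_lin (t : ℂ) (k : ℕ) :
    ((Polynomial.X - Polynomial.C t) ^ k).homogenize k =
      (X 0 - C t * X 1 : MvPolynomial (Fin 2) ℂ) ^ k := by
  have h1 : (Polynomial.X - Polynomial.C t).homogenize 1 =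
      (X 0 - C t * X 1 : MvPolynomial (Fin 2) ℂ) := by
    rw [Polynomial.homogenize_sub, Polynomial.homogenize_X one_ne_zero, Polynomial.homogenize_C]
    simp
  have h2 := Polynomial.homogenize_finsetProd (R := ℂ) (s := Finset.range k)
    (p := fun _ => Polynomial.X - Polynomial.C t) (n := fun _ => 1)
    (fun i _ => Polynomial.natDegree_X_sub_C_le t)
  simp only [Finset.prod_const, Finset.sum_const, Finset.card_range, smul_eq_mul, mul_one, h1] at h2
  exact h2

theorem hom_split (P : Polynomial ℂ) (hP : P.coeff 0 ≠ 0) :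
    ∃ (s : Finset ℂ) (mu : ℂ → ℕ), (0 : ℂ) ∉ s ∧ (∀ t ∈ s, 1 ≤ mu t) ∧
      P.homogenize P.natDegree = C P.leadingCoeff *
        ∏ t ∈ s, (X 0 - C t * X 1 : MvPolynomial (Fin 2) ℂ) ^ mu t ∧
      ∑ t ∈ s, mu t = P.natDegree := by
  classical
  have hP0 : P ≠ 0 := by
    rintro rfl
    exact hP (Polynomial.coeff_zero 0)
  have hs := IsAlgClosed.splits P
  have h1 := hs.eq_prod_roots
  rw [Finset.prod_multiset_map_count] at h1
  have h2 : ∑ t ∈ P.roots.toFinset, P.roots.count t = P.natDegree := by
    rw [Multiset.toFinset_sum_count_eq, hs.natDegree_eq_card_roots]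
  refine ⟨P.roots.toFinset, fun t => P.roots.count t, ?_, ?_, ?_, h2⟩
  · rw [Multiset.mem_toFinset, Polynomial.mem_roots hP0, Polynomial.IsRoot,
      ← Polynomial.coeff_zero_eq_eval_zero]
    exact hP
  · intro t ht
    exact Multiset.one_le_count_iff_mem.2 (Multiset.mem_toFinset.1 ht)
  · conv_lhs => rw [h1]
    rw [Polynomial.homogenize_C_mul]
    congr 1
    have h3 : (Polynomial.C P.leadingCoeff *
        ∏ t ∈ P.roots.toFinset, (Polynomial.X - Polynomial.C t) ^ P.roots.count t).natDegree =
        ∑ t ∈ P.roots.toFinset, P.roots.count t := by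
      rw [← h1, h2]
    rw [h3, Polynomial.homogenize_finsetProd]
    · refine Finset.prod_congr rfl fun t _ => homogenize_pow_lin t _
    · intro t _
      refine le_trans Polynomial.natDegree_pow_le ?_
      calc P.roots.count t * (Polynomial.X - Polynomial.C t).natDegree
          ≤ P.roots.count t * 1 := Nat.mul_le_mul_left _ (Polynomial.natDegree_X_sub_C_le t)
        _ = _ := mul_one _

/-- the exponent vector -/
noncomputable def ev (a b c : ℕ) : Fin 3 →₀ ℕ := Finsupp.equivFunOnFinite.symm ![a, b, c]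

theorem ev_mono (a b c : ℕ) (x : ℂ) :
    monomial (ev a b c) x = C x * (X 0 ^ a * X 1 ^ b * X 2 ^ c) := by
  have h : ev a b c = Finsupp.single 0 a + Finsupp.single 1 b + Finsupp.single 2 c := by
    ext i
    fin_cases i <;> simp [ev]
  rw [h, X_pow_eq_monomial, X_pow_eq_monomial, X_pow_eq_monomial, monomial_mul, monomial_mul,
    C_mul_monomial]
  simp

theorem ev_self (m : Fin 3 →₀ ℕ) (a b c : ℕ) (h0 : m 0 = a) (h1 : m 1 = b) (h2 : m 2 = c) :
    m = ev a b c := by
  ext i
  fin_cases i <;> simp [ev, h0, h1, h2]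

/-- **The shape of a ternary form whose exponents lie on a line.** -/
theorem line_shape (g : MvPolynomial (Fin 3) ℂ) (hg : g ≠ 0) (p q : ℕ) (hq : 1 ≤ q)
    (hline : ∀ m ∈ g.support, ∀ m' ∈ g.support, ∃ j : ℤ, (m 0 : ℤ) - m' 0 = j * p ∧
      (m 1 : ℤ) - m' 1 = j * q ∧ (m 2 : ℤ) - m' 2 = -(j * (p + q))) :
    ∃ (κ : ℂ) (a b c : ℕ) (s : Finset ℂ) (mu : ℂ → ℕ), κ ≠ 0 ∧ (0 : ℂ) ∉ s ∧
      (∀ t ∈ s, 1 ≤ mu t) ∧
      g = C κ * (X 0 ^ a * X 1 ^ b * X 2 ^ c) *
        ∏ t ∈ s, (X 0 ^ p * X 1 ^ q - C t * X 2 ^ (p + q)) ^ mu t ∧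
      ∃ m ∈ g.support, m 0 = a ∧ m 1 = b ∧ m 2 = c + (p + q) * ∑ t ∈ s, mu t := by
  classical
  have hne : g.support.Nonempty := MvPolynomial.support_nonempty.2 hg
  obtain ⟨m0, hm0, hmax⟩ := Finset.exists_max_image g.support (fun m => m 2) hne
  obtain ⟨m1, hm1, hmin⟩ := Finset.exists_min_image g.support (fun m => m 2) hne
  have hr : (0 : ℤ) < p + q := by omega
  obtain ⟨J', hJ0, hJ1, hJ2⟩ := hline m1 hm1 m0 hm0
  have hJ' : 0 ≤ J' := by
    have := hmax m1 hm1
    by_contra hlt
    have h3 : J' * (p + q) < 0 := mul_neg_of_neg_of_pos (by omega) hr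
    omega
  obtain ⟨J, rfl⟩ := Int.eq_ofNat_of_zero_le hJ'
  set a := m0 0 with ha
  set b := m0 1 with hb
  set c := m1 2 with hc
  have hm02 : m0 2 = c + (p + q) * J := by
    zify
    linarith
  -- the exponents
  have hsupp : ∀ m ∈ g.support, ∃ j ∈ Finset.range (J + 1),
      m = ev (a + p * j) (b + q * j) (c + (p + q) * (J - j)) := by
    intro m hm
    obtain ⟨j', h0, h1, h2⟩ := hline m hm m0 hm0
    have hj0 : 0 ≤ j' := by
      have := hmax m hm
      by_contra hlt
      have h3 : j' * (p + q) < 0 := mul_neg_of_neg_of_pos (by omega) hr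
      omega
    obtain ⟨j, rfl⟩ := Int.eq_ofNat_of_zero_le hj0
    have hjJ : j ≤ J := by
      have h4 := hmin m hm
      have h5 : (j : ℤ) * (p + q) ≤ J * (p + q) := by
        have : (c : ℤ) ≤ m 2 := by exact_mod_cast h4
        linarith
      have h6 := le_of_mul_le_mul_right h5 hr
      exact_mod_cast h6
    refine ⟨j, Finset.mem_range.2 (by omega), ev_self m _ _ _ ?_ ?_ ?_⟩
    · zify
      linarith
    · zify
      linarith
    · zify [hjJ]
      have : (m0 2 : ℤ) = c + (p + q) * J := by exact_mod_cast hm02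
      linarith
  set P : Polynomial ℂ := ∑ j ∈ Finset.range (J + 1), Polynomial.monomial j
    (coeff (ev (a + p * j) (b + q * j) (c + (p + q) * (J - j))) g) with hP
  have hPc : ∀ j ∈ Finset.range (J + 1), P.coeff j =
      coeff (ev (a + p * j) (b + q * j) (c + (p + q) * (J - j))) g := by
    intro j hj
    rw [hP, Polynomial.finsetSum_coeff, Finset.sum_eq_single j]
    · rw [Polynomial.coeff_monomial, if_pos rfl]
    · intro i _ hi
      rw [Polynomial.coeff_monomial, if_neg hi]
    · intro h
      exact absurd hj h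
  have hP0 : P.coeff 0 ≠ 0 := by
    rw [hPc 0 (Finset.mem_range.2 (by omega))]
    rw [← ev_self m0 _ _ _ (by rw [mul_zero, add_zero]) (by rw [mul_zero, add_zero])
      (by rw [Nat.sub_zero, hm02])]
    exact mem_support_iff.1 hm0
  have hPJ : P.coeff J ≠ 0 := by
    rw [hPc J (Finset.mem_range.2 (by omega))]
    rw [← ev_self m1 _ _ _ (by zify; linarith) (by zify; linarith)
      (by rw [Nat.sub_self, mul_zero, add_zero])]
    exact mem_support_iff.1 hm1
  have hdeg : P.natDegree = J := by
    refine le_antisymm ?_ (Polynomial.le_natDegree_of_ne_zero hPJ)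
    rw [hP]
    refine Polynomial.natDegree_sum_le_of_forall_le _ _ fun j hj => ?_
    exact (Polynomial.natDegree_monomial_le _).trans (by rw [Finset.mem_range] at hj; omega)
  obtain ⟨s, mu, hs0, hmu, hsp, hsum⟩ := hom_split P hP0
  rw [hdeg] at hsp hsum
  refine ⟨P.leadingCoeff, a, b, c, s, mu, ?_, hs0, hmu, ?_, m0, hm0, rfl, rfl, ?_⟩
  · rw [Polynomial.leadingCoeff, hdeg]
    exact hPJ
  · have h1 := congrArg (aeval ![(X 0 ^ p * X 1 ^ q : MvPolynomial (Fin 3) ℂ), X 2 ^ (p + q)]) hsp
    rw [map_mul, map_prod, algHom_C, algebraMap_eq] at h1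
    simp only [map_pow, map_sub, map_mul, aeval_X, algHom_C, algebraMap_eq, Matrix.cons_val_zero,
      Matrix.cons_val_one] at h1
    rw [mul_comm (C P.leadingCoeff) (X 0 ^ a * X 1 ^ b * X 2 ^ c), mul_assoc, ← h1]
    -- both sides are sums over the exponents
    have h2 : g = ∑ j ∈ Finset.range (J + 1),
        monomial (ev (a + p * j) (b + q * j) (c + (p + q) * (J - j))) (P.coeff j) := by
      have hinj : Set.InjOn (fun j : ℕ => ev (a + p * j) (b + q * j) (c + (p + q) * (J - j)))
          (Finset.range (J + 1)) := by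
        intro j _ j' _ hjj
        have h3 := DFunLike.congr_fun hjj 1
        simp only [ev, Finsupp.equivFunOnFinite_symm_apply_apply, Matrix.cons_val_one] at h3
        have h4 : q * j = q * j' := by simpa using h3
        exact Nat.eq_of_mul_eq_mul_left (by omega) h4
      conv_lhs => rw [← support_sum_monomial_coeff g]
      have e3 : ∑ j ∈ Finset.range (J + 1),
          monomial (ev (a + p * j) (b + q * j) (c + (p + q) * (J - j))) (P.coeff j) =
          ∑ j ∈ Finset.range (J + 1), monomial (ev (a + p * j) (b + q * j) (c + (p + q) * (J - j)))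
            (coeff (ev (a + p * j) (b + q * j) (c + (p + q) * (J - j))) g) :=
        Finset.sum_congr rfl fun j hj => by rw [hPc j hj]
      rw [e3]
      rw [← Finset.sum_image (s := Finset.range (J + 1))
        (g := fun j : ℕ => ev (a + p * j) (b + q * j) (c + (p + q) * (J - j)))
        (f := fun m => monomial m (coeff m g)) hinj]
      refine Finset.sum_subset ?_ ?_
      · intro m hm
        obtain ⟨j, hj, h⟩ := hsupp m hm
        exact Finset.mem_image.2 ⟨j, hj, h.symm⟩
      · intro m _ hm
        rw [notMem_support_iff.1 hm, map_zero]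
    rw [Polynomial.homogenize, map_sum, Finset.Nat.sum_antidiagonal_eq_sum_range_succ_mk,
      Finset.mul_sum]
    conv_lhs => rw [h2]
    refine Finset.sum_congr rfl fun j hj => ?_
    have hjJ : j ≤ J := by
      rw [Finset.mem_range] at hj
      omega
    rw [ev_mono, aeval_monomial, algebraMap_eq, Finsupp.prod_fintype _ _ (by simp), Fin.prod_univ_two]
    simp only [Matrix.cons_val_zero, Matrix.cons_val_one]
    have e0 : (Finsupp.update (Finsupp.single (0 : Fin 2) j) 1 (J - j)) 0 = j := by
      rw [Finsupp.coe_update, Function.update_of_ne (by decide), Finsupp.single_eq_same]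
    have e1 : (Finsupp.update (Finsupp.single (0 : Fin 2) j) 1 (J - j)) 1 = J - j := by
      rw [Finsupp.coe_update, Function.update_self]
    rw [e0, e1, pow_add, pow_add, pow_add, mul_pow, ← pow_mul, ← pow_mul, ← pow_mul]
    ring
  · rw [hsum]
    exact hm02

end Pool.Agent.U184
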