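import Pool.Agent.U184.Tor1

set_option autoImplicit false
set_option linter.unusedSectionVars false

/-! # Ternary forms which are semi-invariant under a torus: the direction of the exponents -/

namespace Pool.Agent.U184

open MvPolynomial Pool.Agent.U334.TC

theorem perm_sign (δ : Fin 3 → ℤ) (h0 : δ 0 + δ 1 + δ 2 = 0) (hne : δ 0 ≠ 0 ∨ δ 1 ≠ 0) :
    ∃ (σ : Equiv.Perm (Fin 3)) (ε : ℤ), (ε = 1 ∨ ε = -1) ∧ 0 ≤ ε * δ (σ 0) ∧ 0 < ε * δ (σ 1) := by
  by_contra hc
  have key : ∀ (σ : Equiv.Perm (Fin 3)) (ε : ℤ), (ε = 1 ∨ ε = -1) →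
      ¬ (0 ≤ ε * δ (σ 0) ∧ 0 < ε * δ (σ 1)) := fun σ ε he h => hc ⟨σ, ε, he, h.1, h.2⟩
  have a1 := key 1 1 (Or.inl rfl)
  have a2 := key 1 (-1) (Or.inr rfl)
  have b1 := key (Equiv.swap 0 1) 1 (Or.inl rfl)
  have b2 := key (Equiv.swap 0 1) (-1) (Or.inr rfl)
  have c1 := key (Equiv.swap 1 2) 1 (Or.inl rfl)
  have c2 := key (Equiv.swap 1 2) (-1) (Or.inr rfl)
  have d1 := key (Equiv.swap 0 2) 1 (Or.inl rfl)
  have d2 := key (Equiv.swap 0 2) (-1) (Or.inr rfl)
  have e1 := key (finRotate 3) 1 (Or.inl rfl)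
  have e2 := key (finRotate 3) (-1) (Or.inr rfl)
  have f1 := key (finRotate 3).symm 1 (Or.inl rfl)
  have f2 := key (finRotate 3).symm (-1) (Or.inr rfl)
  rw [show (1 : Equiv.Perm (Fin 3)) 0 = 0 from rfl, show (1 : Equiv.Perm (Fin 3)) 1 = 1 from rfl]
    at a1 a2
  rw [show (Equiv.swap (0 : Fin 3) 1) 0 = 1 from by decide,
    show (Equiv.swap (0 : Fin 3) 1) 1 = 0 from by decide] at b1 b2
  rw [show (Equiv.swap (1 : Fin 3) 2) 0 = 0 from by decide,
    show (Equiv.swap (1 : Fin 3) 2) 1 = 2 from by decide] at c1 c2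
  rw [show (Equiv.swap (0 : Fin 3) 2) 0 = 2 from by decide,
    show (Equiv.swap (0 : Fin 3) 2) 1 = 1 from by decide] at d1 d2
  rw [show (finRotate 3) 0 = 1 from by decide,
    show (finRotate 3) 1 = 2 from by decide] at e1 e2
  rw [show (finRotate 3).symm 0 = 2 from by decide,
    show (finRotate 3).symm 1 = 0 from by decide] at f1 f2
  omega

/-- The direction of the exponents. -/
theorem dir (α : Fin 3 → ℂ) (hα : α 0 + α 1 + α 2 = 0) (S : Finset (Fin 3 →₀ ℕ))
    (hne : S.Nonempty) (d : ℕ) (hd : ∀ m ∈ S, m 0 + m 1 + m 2 = d)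
    (hw : ∀ m ∈ S, (m 0 : ℂ) * α 0 + m 1 * α 1 + m 2 * α 2 = 1) :
    ∃ (σ : Equiv.Perm (Fin 3)) (p q : ℕ), ((p = 0 ∧ q = 1) ∨ (1 ≤ p ∧ 1 ≤ q ∧ Nat.Coprime p q)) ∧
      (∀ m ∈ S, ∀ m' ∈ S, ∃ j : ℤ, (m (σ 0) : ℤ) - m' (σ 0) = j * p ∧
        (m (σ 1) : ℤ) - m' (σ 1) = j * q ∧ (m (σ 2) : ℤ) - m' (σ 2) = -(j * (p + q))) ∧
      ∀ m ∈ S, (d : ℤ) * (q - p) ≠ 3 * (q * m (σ 0) - p * m (σ 1)) := by
  classical
  have hsum : ∀ (σ : Equiv.Perm (Fin 3)) (x : Fin 3 → ℤ), x (σ 0) + x (σ 1) + x (σ 2) =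
      x 0 + x 1 + x 2 := by
    intro σ x
    have h := Equiv.sum_comp σ x
    rw [Fin.sum_univ_three, Fin.sum_univ_three] at h
    exact h
  have hsumC : ∀ (σ : Equiv.Perm (Fin 3)) (x : Fin 3 → ℂ), x (σ 0) + x (σ 1) + x (σ 2) =
      x 0 + x 1 + x 2 := by
    intro σ x
    have h := Equiv.sum_comp σ x
    rw [Fin.sum_univ_three, Fin.sum_univ_three] at h
    exact h
  by_cases hsub : ∀ m ∈ S, ∀ m' ∈ S, m = m'
  · -- a monomial
    obtain ⟨m, hm⟩ := hne
    obtain ⟨i, hi⟩ : ∃ i, (d : ℤ) ≠ 3 * m i := by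
      by_contra hc
      push Not at hc
      have h0 : (m 0 : ℂ) = d / 3 := by
        have := hc 0
        have h1 : (d : ℂ) = 3 * m 0 := by exact_mod_cast this
        rw [h1]; ring
      have h1 : (m 1 : ℂ) = d / 3 := by
        have := hc 1
        have h1 : (d : ℂ) = 3 * m 1 := by exact_mod_cast this
        rw [h1]; ring
      have h2 : (m 2 : ℂ) = d / 3 := by
        have := hc 2
        have h1 : (d : ℂ) = 3 * m 2 := by exact_mod_cast this
        rw [h1]; ring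
      have h3 := hw m hm
      rw [h0, h1, h2] at h3
      have h4 : (d : ℂ) / 3 * (α 0 + α 1 + α 2) = 1 := by linear_combination h3
      rw [hα, mul_zero] at h4
      exact zero_ne_one h4
    refine ⟨Equiv.swap 0 i, 0, 1, Or.inl ⟨rfl, rfl⟩, ?_, ?_⟩
    · intro m1 h1 m2 h2
      rw [hsub m1 h1 m2 h2]
      exact ⟨0, by simp, by simp, by simp⟩
    · intro m1 h1
      rw [hsub m1 h1 m hm, Equiv.swap_apply_left]
      simpa using hi
  · -- a line
    push Not at hsub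
    obtain ⟨m1, hm1, m2, hm2, hne12⟩ := hsub
    have hα2 : α 0 - α 2 ≠ 0 ∨ α 1 - α 2 ≠ 0 := by
      by_contra hc
      push Not at hc
      have e0 : α 0 = 0 := by linear_combination hα / 3 + 2 * hc.1 / 3 - hc.2 / 3
      have e1 : α 1 = 0 := by linear_combination hα / 3 - hc.1 / 3 + 2 * hc.2 / 3
      have e2 : α 2 = 0 := by linear_combination hα / 3 - hc.1 / 3 - hc.2 / 3
      have h3 := hw m1 hm1
      rw [e0, e1, e2] at h3
      simp at h3
    -- differences
    have hdif : ∀ m ∈ S, ∀ m' ∈ S, (α 0 - α 2) * ((m 0 : ℂ) - m' 0) +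
        (α 1 - α 2) * ((m 1 : ℂ) - m' 1) = 0 := by
      intro m hm m' hm'
      have h1 := hw m hm
      have h2 := hw m' hm'
      have h3 : (m 2 : ℂ) = d - m 0 - m 1 := by
        rw [← hd m hm]; push_cast; ring
      have h4 : (m' 2 : ℂ) = d - m' 0 - m' 1 := by
        rw [← hd m' hm']; push_cast; ring
      rw [h3] at h1
      rw [h4] at h2
      linear_combination h1 - h2
    have hdet : ∀ m ∈ S, ∀ m' ∈ S, ∀ n ∈ S, ∀ n' ∈ S,
        ((m 0 : ℤ) - m' 0) * ((n 1 : ℤ) - n' 1) = ((m 1 : ℤ) - m' 1) * ((n 0 : ℤ) - n' 0) := by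
      intro m hm m' hm' n hn n' hn'
      have h1 := hdif m hm m' hm'
      have h2 := hdif n hn n' hn'
      have h3 : ((m 0 : ℂ) - m' 0) * ((n 1 : ℂ) - n' 1) = ((m 1 : ℂ) - m' 1) * ((n 0 : ℂ) - n' 0) := by
        rcases hα2 with h | h
        · apply mul_left_cancel₀ h
          linear_combination ((n 1 : ℂ) - n' 1) * h1 - ((m 1 : ℂ) - m' 1) * h2
        · apply mul_left_cancel₀ h
          linear_combination ((m 0 : ℂ) - m' 0) * h2 - ((n 0 : ℂ) - n' 0) * h1
      exact_mod_cast h3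
    set D0 : ℤ := (m1 0 : ℤ) - m2 0 with hD0
    set D1 : ℤ := (m1 1 : ℤ) - m2 1 with hD1
    have hDne : D0 ≠ 0 ∨ D1 ≠ 0 := by
      by_contra hc
      push Not at hc
      apply hne12
      have h3 := hd m1 hm1
      have h4 := hd m2 hm2
      ext i
      fin_cases i
      · have := hc.1; simp only [Fin.zero_eta]; omega
      · have := hc.2; simp only [Fin.mk_one]; omega
      · have h5 := hc.1; have h6 := hc.2; simp only [Fin.reduceFinMk]; omega
    have hg0 : (Int.gcd D0 D1 : ℤ) ≠ 0 := by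
      intro h
      rw [Int.natCast_eq_zero, Int.gcd_eq_zero_iff] at h
      rcases hDne with h' | h'
      · exact h' h.1
      · exact h' h.2
    obtain ⟨δ0, hδ0⟩ := Int.gcd_dvd_left D0 D1
    obtain ⟨δ1, hδ1⟩ := Int.gcd_dvd_right D0 D1
    -- Bezout
    have hbez : ∃ u v : ℤ, u * δ0 + v * δ1 = 1 := by
      refine ⟨Int.gcdA D0 D1, Int.gcdB D0 D1, ?_⟩
      apply mul_left_cancel₀ hg0
      have h1 := Int.gcd_eq_gcd_ab D0 D1
      linear_combination -h1 - Int.gcdA D0 D1 * hδ0 - Int.gcdB D0 D1 * hδ1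
    obtain ⟨u, v, huv⟩ := hbez
    have hδne : δ0 ≠ 0 ∨ δ1 ≠ 0 := by
      by_contra hc
      push Not at hc
      rw [hc.1, hc.2] at huv
      simp at huv
    -- all differences are multiples
    have hmul : ∀ m ∈ S, ∀ m' ∈ S, ∃ j : ℤ, (m 0 : ℤ) - m' 0 = j * δ0 ∧
        (m 1 : ℤ) - m' 1 = j * δ1 ∧ (m 2 : ℤ) - m' 2 = j * (-δ0 - δ1) := by
      intro m hm m' hm'
      have h1 := hdet m hm m' hm' m1 hm1 m2 hm2
      have h2 : ((m 0 : ℤ) - m' 0) * δ1 = ((m 1 : ℤ) - m' 1) * δ0 := by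
        apply mul_left_cancel₀ hg0
        linear_combination h1 - ((m 0 : ℤ) - m' 0) * hδ1 + ((m 1 : ℤ) - m' 1) * hδ0
      have h3 : (m 0 : ℤ) + m 1 + m 2 = d := by exact_mod_cast hd m hm
      have h4 : (m' 0 : ℤ) + m' 1 + m' 2 = d := by exact_mod_cast hd m' hm'
      have e0 : (m 0 : ℤ) - m' 0 = (u * ((m 0 : ℤ) - m' 0) + v * ((m 1 : ℤ) - m' 1)) * δ0 := by
        linear_combination -((m 0 : ℤ) - m' 0) * huv + v * h2
      have e1 : (m 1 : ℤ) - m' 1 = (u * ((m 0 : ℤ) - m' 0) + v * ((m 1 : ℤ) - m' 1)) * δ1 := by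
        linear_combination -((m 1 : ℤ) - m' 1) * huv - u * h2
      refine ⟨_, e0, e1, ?_⟩
      linear_combination h3 - h4 - e0 - e1
    -- the sign
    obtain ⟨σ, ε, hε, hs0, hs1⟩ := perm_sign ![δ0, δ1, -δ0 - δ1] (by simp) (by simpa using hδne)
    set δ : Fin 3 → ℤ := ![δ0, δ1, -δ0 - δ1] with hδ
    have hε2 : ε * ε = 1 := by rcases hε with h | h <;> rw [h] <;> rfl
    obtain ⟨p, hp⟩ := Int.eq_ofNat_of_zero_le hs0
    obtain ⟨q, hq⟩ := Int.eq_ofNat_of_zero_le hs1.le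
    have hq1 : 1 ≤ q := by omega
    have hδs : δ (σ 0) + δ (σ 1) + δ (σ 2) = 0 := by
      rw [hsum σ δ, hδ]
      simp
    have hmul' : ∀ m ∈ S, ∀ m' ∈ S, ∃ j : ℤ, (m (σ 0) : ℤ) - m' (σ 0) = j * p ∧
        (m (σ 1) : ℤ) - m' (σ 1) = j * q ∧ (m (σ 2) : ℤ) - m' (σ 2) = -(j * (p + q)) := by
      intro m hm m' hm'
      obtain ⟨j, h0, h1, h2⟩ := hmul m hm m' hm'
      have h3 : ∀ i : Fin 3, (m i : ℤ) - m' i = j * δ i := by
        intro i
        fin_cases i
        · simpa [hδ] using h0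
        · simpa [hδ] using h1
        · simpa [hδ] using h2
      have e0 : (m (σ 0) : ℤ) - m' (σ 0) = j * ε * p := by
        rw [h3, ← hp]; linear_combination -j * δ (σ 0) * hε2
      have e1 : (m (σ 1) : ℤ) - m' (σ 1) = j * ε * q := by
        rw [h3, ← hq]; linear_combination -j * δ (σ 1) * hε2
      refine ⟨j * ε, e0, e1, ?_⟩
      rw [h3]
      have e2 := h3 (σ 0)
      have e3 := h3 (σ 1)
      linear_combination j * hδs + e2 - e0 + e3 - e1
    have hcop : IsCoprime (p : ℤ) (q : ℤ) := by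
      have h1 : ∀ i : Fin 3, ∃ x y : ℤ, x * p + y * q = δ i := by
        have hh0 : δ (σ 0) = ε * p := by rw [← hp]; linear_combination -δ (σ 0) * hε2
        have hh1 : δ (σ 1) = ε * q := by rw [← hq]; linear_combination -δ (σ 1) * hε2
        intro i
        obtain ⟨k, rfl⟩ := σ.surjective i
        fin_cases k
        · exact ⟨ε, 0, by simp [hh0]⟩
        · exact ⟨0, ε, by simp [hh1]⟩
        · exact ⟨-ε, -ε, by
            simp only [Fin.reduceFinMk]
            linear_combination -hδs + hh0 + hh1⟩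
      obtain ⟨x0, y0, h0⟩ := h1 0
      obtain ⟨x1, y1, h2⟩ := h1 1
      have e0 : δ 0 = δ0 := by simp [hδ]
      have e1 : δ 1 = δ1 := by simp [hδ]
      rw [e0] at h0
      rw [e1] at h2
      exact ⟨u * x0 + v * x1, u * y0 + v * y1, by linear_combination huv + u * h0 + v * h2⟩
    refine ⟨σ, p, q, ?_, hmul', ?_⟩
    · rcases Nat.eq_zero_or_pos p with rfl | hp1
      · left
        refine ⟨rfl, ?_⟩
        rw [Nat.cast_zero, isCoprime_zero_left] at hcop
        have h3 : (q : ℤ) = 1 := by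
          rcases Int.isUnit_iff.1 hcop with h | h <;> omega
        exact_mod_cast h3
      · right
        exact ⟨hp1, hq1, Nat.isCoprime_iff_coprime.1 hcop⟩
    · -- the character
      intro m hm hdeg
      have hβ : α (σ 0) + α (σ 1) + α (σ 2) = 0 := by rw [hsumC σ α]; exact hα
      have hwσ : ∀ m ∈ S, (m (σ 0) : ℂ) * α (σ 0) + m (σ 1) * α (σ 1) + m (σ 2) * α (σ 2) = 1 := by
        intro m hm
        have h := hsumC σ (fun i => (m i : ℂ) * α i)
        rw [hw m hm] at h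
        exact h
      have hdσ : ∀ m ∈ S, (m (σ 0) : ℂ) + m (σ 1) + m (σ 2) = d := by
        intro m hm
        have h := hsumC σ (fun i => (m i : ℂ))
        rw [← hd m hm]
        push_cast
        exact h
      -- the direction is orthogonal to the weights
      obtain ⟨j, h0, h1, h2⟩ := hmul' m1 hm1 m2 hm2
      have hj : j ≠ 0 := by
        rintro rfl
        apply hne12
        ext i
        obtain ⟨k, rfl⟩ := σ.surjective i
        fin_cases k
        · simp only [Fin.zero_eta]; omega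
        · simp only [Fin.mk_one]; omega
        · simp only [Fin.reduceFinMk]; omega
      have hjC : (j : ℂ) ≠ 0 := by exact_mod_cast hj
      have horth : (p : ℂ) * α (σ 0) + q * α (σ 1) - (p + q) * α (σ 2) = 0 := by
        apply mul_left_cancel₀ hjC
        have k0 : (m1 (σ 0) : ℂ) - m2 (σ 0) = j * p := by exact_mod_cast h0
        have k1 : (m1 (σ 1) : ℂ) - m2 (σ 1) = j * q := by exact_mod_cast h1
        have k2 : (m1 (σ 2) : ℂ) - m2 (σ 2) = -(j * (p + q)) := by exact_mod_cast h2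
        linear_combination hwσ m1 hm1 - hwσ m2 hm2 - α (σ 0) * k0 - α (σ 1) * k1 - α (σ 2) * k2
      have hw1 := hwσ m hm
      have hd1 := hdσ m hm
      have hdegC : (d : ℂ) * (q - p) = 3 * (q * m (σ 0) - p * m (σ 1)) := by exact_mod_cast hdeg
      have hfin : ((p : ℂ) + 2 * q) = 0 := by
        have e2 : α (σ 2) = -α (σ 0) - α (σ 1) := by linear_combination hβ
        rw [e2] at horth hw1
        have e3 : (m (σ 2) : ℂ) = d - m (σ 0) - m (σ 1) := by linear_combination hd1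
        rw [e3] at hw1
        linear_combination (-(p : ℂ) - 2 * q) * hw1 +
          ((m (σ 0) : ℂ) + 2 * m (σ 1) - d) * horth - α (σ 0) * hdegC
      have hfin' : p + 2 * q = 0 := by exact_mod_cast hfin
      omega

end Pool.Agent.U184
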