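import Pool.Agent.W574.CN.Defs

set_option autoImplicit false

/-! # The topological zeta function of a form in three variables -/

namespace Pool.Agent.U184

open MvPolynomial Pool.Agent.W574.SM Pool.Agent.W574.CN

/-- The linear substitution `f ↦ f(A x)`. -/
noncomputable def linSub (A : Matrix (Fin 3) (Fin 3) ℂ) :
    MvPolynomial (Fin 3) ℂ →ₐ[ℂ] MvPolynomial (Fin 3) ℂ :=
  aeval fun i => ∑ k, C (A i k) * X k

/-- Localization at isolated fixed points. The form `g` of degree `d` in `x = X 0`, `y = X 1`,
`z = X 2` is semi-invariant for the torus `(λ ^ (α₀) x, λ ^ (α₁) y, λ ^ (α₂) z)` (all its monomials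
have the same weight), where the three weights are distinct, so that the coordinate points
`[1 : 0 : 0]`, `[0 : 1 : 0]`, `[0 : 0 : 1]` are the only fixed points on the projective plane. Then
the topological zeta function of `g` is `(z₀ + z₁ + z₂) / (d s + 3)`, where `z_i` is the
contribution of the `i`-th coordinate point, that is, the local topological zeta function of
`g |_{x_i = 1}` at the origin: the contribution of the points of `ℙ²` is constant on the orbits, and
the orbits which are not points have the Euler characteristic zero. -/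
def IsolatedLocalization (g : MvPolynomial (Fin 3) ℂ) (d : ℕ) (Z : RatFunc ℂ) : Prop :=
  ∀ (α : Fin 3 → ℤ) (w : ℤ), Function.Injective α →
    (∀ m ∈ g.support, ∑ i, α i * (m i : ℤ) = w) →
    ∃ z : Fin 3 → RatFunc ℂ, (∀ i, LocalZeta (fun _ : Unit => deh i g) 0 1 0 1 (z i)) ∧
      Z = (∑ i, z i) * fac d 3

/-- Localization at a fixed point and a fixed line. If `g = x ^ a h(y, z)`, then the torus
`(λ x, y, z)` fixes the point `[1 : 0 : 0]` and the points `[0 : 1 : 0]`, `[0 : c : 1]` of the line
`x = 0`, and the other orbits have the Euler characteristic zero. So the topological zeta function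
of `g` is `(z₀ + z₁ + ∑_{c ∈ S} w_c + (1 - |S|) / (1 + a s)) / (d s + 3)`, where `z₀`, `z₁`, `w_c` are
the contributions of the points `[1 : 0 : 0]`, `[0 : 1 : 0]`, `[0 : c : 1]`, and `S` is a finite set
which contains all `c` with `h(c, 1) = 0`; the contribution of the points `[0 : c : 1]`, `c ∉ S`, is
`1 / (1 + a s)`, and the Euler characteristic of this set is `1 - |S|`. -/
def LineLocalization (g : MvPolynomial (Fin 3) ℂ) (d : ℕ) (Z : RatFunc ℂ) : Prop :=
  ∀ (a : ℕ) (h : MvPolynomial (Fin 2) ℂ), g = X 0 ^ a * rename Fin.succ h →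
    ∃ (z₀ z₁ : RatFunc ℂ) (S : Finset ℂ) (w : ℂ → RatFunc ℂ),
      LocalZeta (fun _ : Unit => deh 0 g) 0 1 0 1 z₀ ∧
      LocalZeta (fun _ : Unit => deh 1 g) 0 1 0 1 z₁ ∧
      (∀ c ∈ S, LocalZeta (fun _ : Unit => translate ![0, c] (deh 2 g)) 0 1 0 1 (w c)) ∧
      (∀ c ∉ S, eval ![c, 1] h ≠ 0) ∧
      Z = (z₀ + z₁ + ∑ c ∈ S, w c + (1 - (S.card : RatFunc ℂ)) * fac a 1) * fac d 3

/-- `Z` is the topological zeta function of the form `f` of degree `d` in three variables, in the
following sense: it is the sum of the contributions of the points of the projective plane, times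
`1 / (d s + 3)` (`ConeZeta`), and if there is a torus acting linearly for which `f` is
semi-invariant, then the Euler characteristics of the strata of the plane are computed by the
localization at the fixed points: for all linear coordinates of `ℂ ^ 3`, the formulas
`IsolatedLocalization` and `LineLocalization` hold. The topological zeta function of `f` has these
properties. -/
def TernTopZeta (f : MvPolynomial (Fin 3) ℂ) (d : ℕ) (Z : RatFunc ℂ) : Prop :=
  ConeZeta (fun _ : Unit => f) d Z ∧
  ∀ A B : Matrix (Fin 3) (Fin 3) ℂ, A * B = 1 →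
    IsolatedLocalization (linSub A f) d Z ∧ LineLocalization (linSub A f) d Z

end Pool.Agent.U184
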