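import Pool.Agent.U184.Tor2
import Pool.Agent.U184.TorDefs

set_option autoImplicit false
set_option linter.unusedSectionVars false

/-! # Ternary forms with a vector field: the shape -/

namespace Pool.Agent.U184

open MvPolynomial Pool.Agent.U334.TC

/-- a linear form -/
theorem lin_eq3 {n : ℕ} (v : MvPolynomial (Fin n) ℂ) (hv : v.IsHomogeneous 1) :
    v = ∑ k, C (coeff (Finsupp.single k 1) v) * X k := by
  classical
  ext m
  rw [coeff_sum]
  simp only [coeff_C_mul, coeff_X]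
  by_cases hm : coeff m v = 0
  · rw [hm]
    symm
    refine Finset.sum_eq_zero fun k _ => ?_
    split_ifs with h
    · rw [h, hm, zero_mul]
    · rw [mul_zero]
  · have h1 : m.degree = 1 := by
      rw [Finsupp.degree_eq_weight_one]
      exact hv hm
    obtain ⟨k, hk⟩ := (Finsupp.sum_eq_one_iff m).1 h1
    rw [Finset.sum_eq_single k]
    · rw [if_pos hk.symm, mul_one, hk]
    · intro l _ hl
      rw [if_neg, mul_zero]
      rw [hk]
      intro h
      exact hl (Finsupp.single_left_injective one_ne_zero h)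
    · simp

/-- the matrix of the vector field -/
theorem field_matrix3 (f : MvPolynomial (Fin 3) ℂ) (hv : ¬ NoField f) :
    ∃ A : Matrix (Fin 3) (Fin 3) ℂ, A.trace = 0 ∧ LD A f = f := by
  obtain ⟨v, hv1, hv2, hv3⟩ := not_not.1 hv
  refine ⟨Matrix.of fun l k => coeff (Finsupp.single k 1) (v l), ?_, ?_⟩
  · have h1 : ∀ l, pderiv l (v l) = C (coeff (Finsupp.single l 1) (v l)) := by
      intro l
      conv_lhs => rw [lin_eq3 (v l) (hv1 l)]
      rw [map_sum, Finset.sum_eq_single l]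
      · rw [Derivation.leibniz, pderiv_X_self, pderiv_C, smul_zero, add_zero, smul_eq_mul, mul_one]
      · intro b _ hb
        rw [Derivation.leibniz, pderiv_X_of_ne hb, pderiv_C, smul_zero, smul_zero, add_zero]
      · simp
    rw [Finset.sum_congr rfl fun l _ => h1 l, ← map_sum, C_eq_zero] at hv2
    exact hv2
  · rw [LD_eq]
    refine Eq.trans ?_ hv3
    refine Finset.sum_congr rfl fun l _ => ?_
    congr 1
    exact (lin_eq3 (v l) (hv1 l)).symm

theorem linSub_eq (A : Matrix (Fin 3) (Fin 3) ℂ) (f : MvPolynomial (Fin 3) ℂ) :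
    linSub A f = sbm A f := rfl

/-- the permutation matrix -/
noncomputable def pm (τ : Equiv.Perm (Fin 3)) : Matrix (Fin 3) (Fin 3) ℂ :=
  Matrix.of fun i k => if k = τ i then 1 else 0

theorem pm_mul (τ : Equiv.Perm (Fin 3)) : pm τ * pm τ.symm = 1 := by
  ext i k
  rw [Matrix.mul_apply, Finset.sum_eq_single (τ i)]
  · simp only [pm, Matrix.of_apply, if_true, one_mul, Equiv.symm_apply_apply, Matrix.one_apply,
      eq_comm]
  · intro j _ hj
    simp [pm, hj]
  · simp

theorem sbm_pm (τ : Equiv.Perm (Fin 3)) (f : MvPolynomial (Fin 3) ℂ) :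
    sbm (pm τ) f = rename τ f := by
  have h : sbm (pm τ) = rename τ := by
    apply MvPolynomial.algHom_ext
    intro i
    rw [sbm_X, rename_X, Finset.sum_eq_single (τ i)]
    · simp [pm]
    · intro j _ hj
      simp [pm, hj]
    · simp
  rw [h]

theorem sbm_hom (A : Matrix (Fin 3) (Fin 3) ℂ) (f : MvPolynomial (Fin 3) ℂ) (d : ℕ)
    (hf : f.IsHomogeneous d) : (sbm A f).IsHomogeneous d := by
  have h := hf.aeval (fun i => ∑ k, C (A i k) * X k) (n := 1) (fun i => by
    refine MvPolynomial.IsHomogeneous.sum _ _ _ fun k _ => ?_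
    have := (isHomogeneous_C (Fin 3) (A i k)).mul (isHomogeneous_X ℂ k)
    rwa [zero_add] at this)
  rwa [one_mul] at h

/-- The normal form. -/
structure Shape (g : MvPolynomial (Fin 3) ℂ) (d : ℕ) (κ : ℂ) (a b c p q : ℕ) (s : Finset ℂ)
    (mu : ℂ → ℕ) : Prop where
  pq : (p = 0 ∧ q = 1) ∨ (1 ≤ p ∧ 1 ≤ q ∧ Nat.Coprime p q)
  hκ : κ ≠ 0
  hs : (0 : ℂ) ∉ s
  hmu : ∀ t ∈ s, 1 ≤ mu t
  eq : g = C κ * (X 0 ^ a * X 1 ^ b * X 2 ^ c) *
        ∏ t ∈ s, (X 0 ^ p * X 1 ^ q - C t * X 2 ^ (p + q)) ^ mu t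
  deg : a + b + (c + (p + q) * ∑ t ∈ s, mu t) = d
  char : (d : ℤ) * (q - p) ≠ 3 * (q * a - p * b)
  wt : ∀ m ∈ g.support, (q : ℤ) * m 0 + -(p : ℤ) * m 1 + 0 * m 2 = q * a - p * b

theorem torus_shape (f : MvPolynomial (Fin 3) ℂ) (d : ℕ) (hf : f.IsHomogeneous d) (hf0 : f ≠ 0)
    (hv : ¬ NoField f) : ∃ (A B : Matrix (Fin 3) (Fin 3) ℂ), A * B = 1 ∧
      ∃ (κ : ℂ) (a b c p q : ℕ) (s : Finset ℂ) (mu : ℂ → ℕ),
        Shape (linSub A f) d κ a b c p q s mu := by
  classical
  obtain ⟨M, htr, hM⟩ := field_matrix3 f hv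
  obtain ⟨α, h, h', N, hh', hh'', hMh, hN, hNb⟩ := eigen M
  -- the trace
  have hα : α 0 + α 1 + α 2 = 0 := by
    have h1 : M = h * (Matrix.diagonal α + N) * h' := by
      rw [← hMh, Matrix.mul_assoc, hh', Matrix.mul_one]
    rw [h1, Matrix.trace_mul_comm, ← Matrix.mul_assoc, hh'', Matrix.one_mul, Matrix.trace_add,
      Matrix.trace_diagonal, (Matrix.isNilpotent_trace_of_isNilpotent hN).eq_zero, add_zero,
      Fin.sum_univ_three] at htr
    exact htr
  set g := sbm h f with hg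
  have hgd : g.IsHomogeneous d := sbm_hom h f d hf
  have hg0 : g ≠ 0 := by
    intro h0
    apply hf0
    have h1 := sbm_sbm h h' f
    rw [hh', sbm_one, ← hg, h0, map_zero] at h1
    exact h1.symm
  have hwt : ∀ m ∈ g.support, (m 0 : ℂ) * α 0 + m 1 * α 1 + m 2 * α 2 = 1 := by
    intro m hm
    have h1 := weight_one α N hN hNb g (by
      rw [hg, LD_sbm M (Matrix.diagonal α + N) h hMh.symm f, hM]) m (mem_support_iff.1 hm)
    rw [Fin.sum_univ_three] at h1
    exact h1
  have hdm : ∀ m ∈ g.support, m 0 + m 1 + m 2 = d := by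
    intro m hm
    have h1 : m.degree = d := by
      rw [Finsupp.degree_eq_weight_one]
      exact hgd (mem_support_iff.1 hm)
    rw [Finsupp.degree_eq_sum, Fin.sum_univ_three] at h1
    exact h1
  obtain ⟨σ, p, q, hpq, hline, hchar⟩ := dir α hα g.support (MvPolynomial.support_nonempty.2 hg0) d
    hdm hwt
  -- the permuted form
  have hA : (h * pm σ.symm) * (pm σ * h') = 1 := by
    have h2 := pm_mul σ.symm
    rw [Equiv.symm_symm] at h2
    rw [Matrix.mul_assoc, ← Matrix.mul_assoc (pm σ.symm), h2, Matrix.one_mul, hh']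
  have hG : linSub (h * pm σ.symm) f = rename σ.symm g := by
    rw [linSub_eq, ← sbm_sbm, sbm_pm]
  have hsupp : ∀ n ∈ (rename σ.symm g).support, ∃ m ∈ g.support, ∀ i, n i = m (σ i) := by
    intro n hn
    rw [support_rename_of_injective σ.symm.injective, Finset.mem_image] at hn
    obtain ⟨m, hm, rfl⟩ := hn
    refine ⟨m, hm, fun i => ?_⟩
    have h1 := Finsupp.mapDomain_apply σ.symm.injective m (σ i)
    rw [Equiv.symm_apply_apply] at h1
    exact h1
  have hq1 : 1 ≤ q := by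
    rcases hpq with ⟨_, rfl⟩ | ⟨_, h1, _⟩
    · exact le_rfl
    · exact h1
  have hG0 : rename σ.symm g ≠ 0 := by
    intro h0
    apply hg0
    exact rename_injective _ σ.symm.injective (by rw [h0, map_zero])
  have hline' : ∀ m ∈ (rename σ.symm g).support, ∀ m' ∈ (rename σ.symm g).support, ∃ j : ℤ,
      (m 0 : ℤ) - m' 0 = j * p ∧ (m 1 : ℤ) - m' 1 = j * q ∧
      (m 2 : ℤ) - m' 2 = -(j * (p + q)) := by
    intro m hm m' hm'
    obtain ⟨n, hn, h1⟩ := hsupp m hm
    obtain ⟨n', hn', h1'⟩ := hsupp m' hm'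
    rw [h1, h1, h1, h1', h1', h1']
    exact hline n hn n' hn'
  obtain ⟨κ, a, b, c, s, mu, hκ, hs, hmu, heq, m, hm, hma, hmb, hmc⟩ :=
    line_shape (rename σ.symm g) hG0 p q hq1 hline'
  obtain ⟨n, hn, hnm⟩ := hsupp m hm
  refine ⟨h * pm σ.symm, pm σ * h', hA, κ, a, b, c, p, q, s, mu, ?_⟩
  rw [hG]
  refine ⟨hpq, hκ, hs, hmu, heq, ?_, ?_, ?_⟩
  · have h1 := hdm n hn
    have h2 := Equiv.sum_comp σ (fun i => n i)
    rw [Fin.sum_univ_three, Fin.sum_univ_three] at h2
    rw [← hnm, ← hnm, ← hnm, hma, hmb, hmc] at h2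
    omega
  · have h1 := hchar n hn
    rw [← hnm, ← hnm, hma, hmb] at h1
    exact h1
  · intro m' hm'
    obtain ⟨j, h0, h1, _⟩ := hline' m' hm' m hm
    rw [hma] at h0
    rw [hmb] at h1
    linear_combination q * h0 - p * h1

end Pool.Agent.U184
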