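import Pool.Agent.U184.Tor3
import Pool.Agent.U184.LZ3
import Pool.Agent.U184.Zeta

set_option autoImplicit false
set_option linter.unusedSectionVars false

/-! # The zeta function of a semi-invariant ternary form is regular at `-3/d` -/

namespace Pool.Agent.U184

open MvPolynomial Pool.Agent.W574.SM Pool.Agent.W574.CN Pool.Agent.U334.TC
open Pool.Agent.H628R4.TP (IsBFunction)

/-! ## The charts -/

theorem deh_00 : deh (n := 2) 0 (X 0) = 1 := by
  rw [deh, aeval_X]; rfl
theorem deh_01 : deh (n := 2) 0 (X 1) = X 0 := by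
  rw [deh, aeval_X]; rfl
theorem deh_02 : deh (n := 2) 0 (X 2) = X 1 := by
  rw [deh, aeval_X]; rfl
theorem deh_10 : deh (n := 2) 1 (X 0) = X 0 := by
  rw [deh, aeval_X]; rfl
theorem deh_11 : deh (n := 2) 1 (X 1) = 1 := by
  rw [deh, aeval_X]; rfl
theorem deh_12 : deh (n := 2) 1 (X 2) = X 1 := by
  rw [deh, aeval_X]; rfl
theorem deh_20 : deh (n := 2) 2 (X 0) = X 0 := by
  rw [deh, aeval_X]; rfl
theorem deh_21 : deh (n := 2) 2 (X 1) = X 1 := by
  rw [deh, aeval_X]; rfl
theorem deh_22 : deh (n := 2) 2 (X 2) = 1 := by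
  rw [deh, aeval_X]; rfl

theorem deh_C' (i : Fin 3) (x : ℂ) : deh (n := 2) i (C x) = C x := by
  rw [algHom_C, algebraMap_eq]

section shape

variable {g : MvPolynomial (Fin 3) ℂ} {d : ℕ} {κ : ℂ} {a b c p q : ℕ} {s : Finset ℂ} {mu : ℂ → ℕ}

theorem Shape.deh0 (h : Shape g d κ a b c p q s mu) :
    deh 0 g = C κ * (X 0 ^ b * X 1 ^ c) * QQ s mu q (p + q) := by
  rw [h.eq, map_mul, map_mul, map_mul, map_mul, map_prod, map_pow, map_pow, map_pow, deh_00,
    deh_01, deh_02, deh_C', one_pow, one_mul, QQ]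
  congr 1
  refine Finset.prod_congr rfl fun t _ => ?_
  rw [map_pow, map_sub, map_mul, map_mul, map_pow, map_pow, map_pow, deh_00,
    deh_01, deh_02, deh_C', one_pow, one_mul]

theorem Shape.deh1 (h : Shape g d κ a b c p q s mu) :
    deh 1 g = C κ * (X 0 ^ a * X 1 ^ c) * QQ s mu p (p + q) := by
  rw [h.eq, map_mul, map_mul, map_mul, map_mul, map_prod, map_pow, map_pow, map_pow, deh_10,
    deh_11, deh_12, deh_C', one_pow, mul_one, QQ]
  congr 1
  refine Finset.prod_congr rfl fun t _ => ?_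
  rw [map_pow, map_sub, map_mul, map_mul, map_pow, map_pow, map_pow, deh_10,
    deh_11, deh_12, deh_C', one_pow, mul_one]

theorem Shape.deh2 (h : Shape g d κ a b c p q s mu) :
    deh 2 g = X 0 ^ a * X 1 ^ b * (C κ * ∏ t ∈ s, (X 0 ^ p * X 1 ^ q - C t) ^ mu t) := by
  have e : ∏ t ∈ s, deh 2 ((X 0 ^ p * X 1 ^ q - C t * X 2 ^ (p + q)) ^ mu t) =
      ∏ t ∈ s, (X 0 ^ p * X 1 ^ q - C t : MvPolynomial (Fin 2) ℂ) ^ mu t := by
    refine Finset.prod_congr rfl fun t _ => ?_
    rw [map_pow, map_sub, map_mul, map_mul, map_pow, map_pow, map_pow, deh_20,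
      deh_21, deh_22, deh_C', one_pow, mul_one]
  rw [h.eq, map_mul, map_mul, map_mul, map_mul, map_prod, map_pow, map_pow, map_pow, deh_20,
    deh_21, deh_22, deh_C', one_pow, mul_one, e]
  ring

end shape

/-! ## Values -/

theorem fac_01 : fac 0 1 = 1 := by
  unfold fac
  simp

theorem val_mono (i j p r : ℕ) (hp : 1 ≤ p) (hr : 1 ≤ r) :
    fac (r * i + p * j) (r + p) * (p * fac i 1 + r * fac j 1) = fac i 1 * fac j 1 := by
  have h1 := dn_ne i 1 le_rfl
  have h2 := dn_ne j 1 le_rfl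
  have h3 := dn_ne (r * i + p * j) (r + p) (by omega)
  unfold fac
  have key : ((r + p : ℕ) : RatFunc ℂ) + ((r * i + p * j : ℕ) : RatFunc ℂ) * RatFunc.X =
      (r : RatFunc ℂ) * (((1 : ℕ) : RatFunc ℂ) + (i : RatFunc ℂ) * RatFunc.X) +
        (p : RatFunc ℂ) * (((1 : ℕ) : RatFunc ℂ) + (j : RatFunc ℂ) * RatFunc.X) := by
    push_cast
    ring
  generalize hA' : (((1 : ℕ) : RatFunc ℂ) + (i : RatFunc ℂ) * RatFunc.X) = A at *
  generalize hB' : (((1 : ℕ) : RatFunc ℂ) + (j : RatFunc ℂ) * RatFunc.X) = B at *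
  generalize hE' : ((r + p : ℕ) : RatFunc ℂ) + ((r * i + p * j : ℕ) : RatFunc ℂ) * RatFunc.X = E at *
  field_simp
  rw [key]
  ring

theorem lz_gen (s : Finset ℂ) (mu : ℂ → ℕ) (hs : (0 : ℂ) ∉ s) (hmu : ∀ t ∈ s, 1 ≤ mu t)
    (κ : ℂ) (hκ : κ ≠ 0) (p r : ℕ) (hp : 1 ≤ p) (hr : 1 ≤ r) (hcop : Nat.Coprime p r) (i j : ℕ) :
    LocalZeta (fun _ : Unit => C κ * (X 0 ^ i * X 1 ^ j) * QQ s mu p r) 0 1 0 1
      (fac (r * i + p * j + p * r * ∑ t ∈ s, mu t) (r + p) *
        (p * fac i 1 + r * fac j 1 + RR s mu)) := by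
  rcases s.eq_empty_or_nonempty with rfl | hne
  · have h1 := lz_mono i j 0 1 0 1 (C κ) (by rwa [constantCoeff_C]) (Or.inr ⟨rfl, rfl⟩)
      (Or.inr ⟨rfl, rfl⟩)
    have h2 := val_mono i j p r hp hr
    simp only [zero_add] at h1
    simp only [QQ, RR, Finset.sum_empty, Finset.prod_empty, mul_zero, add_zero, mul_one]
    rw [h2]
    convert h1 using 2
    ring
  · have h1 := lz_main s mu hs hmu hne κ hκ (p + r) p r le_rfl hp hr hcop i j 0 1 0 1 le_rfl le_rfl
      (Or.inr ⟨rfl, rfl⟩) (Or.inr ⟨rfl, rfl⟩)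
    simpa only [zero_add, mul_one] using h1

/-- the identity for isolated fixed points -/
theorem iso_id {F : Type} [Field F] (A B C' E D1 D2 R p q : F) (hA : A ≠ 0) (hB : B ≠ 0)
    (hE : E ≠ 0) (h1 : D1 ≠ 0) (h2 : D2 ≠ 0) (e1 : D1 = q * A - p * B + p * E)
    (e2 : D2 = p * B - q * A + q * E) :
    (1 / D2 * (q * (1 / B) + (p + q) * (1 / C') + R) +
      1 / D1 * (p * (1 / A) + (p + q) * (1 / C') + R) + 1 / A * (1 / B)) * (1 / E) =
    ((p + q) * (1 / D2 * (q * (1 / B) + (p + q) * (1 / C') + R)) + p * (1 / A * (1 / B))) *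
      (1 / D1) := by
  set X := (p + q) * (1 / C') + R with hX
  set z0 := 1 / D2 * (q * (1 / B) + (p + q) * (1 / C') + R) with hz0
  set z1 := 1 / D1 * (p * (1 / A) + (p + q) * (1 / C') + R) with hz1
  have k0 : D2 * z0 = q * (1 / B) + X := by
    rw [hz0, hX]; field_simp; ring
  have k1 : D1 * z1 = p * (1 / A) + X := by
    rw [hz1, hX]; field_simp; ring
  have kA : 1 / A * A = 1 := by field_simp
  have kB : 1 / B * B = 1 := by field_simp
  have key : (z0 + z1 + 1 / A * (1 / B)) * D1 = E * ((p + q) * z0 + p * (1 / A * (1 / B))) := by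
    linear_combination k1 - k0 + z0 * (e1 + e2) + (1 / A * (1 / B)) * e1 + q * (1 / B) * kA -
      p * (1 / A) * kB
  rw [mul_one_div (z0 + z1 + 1 / A * (1 / B)) E,
    mul_one_div ((p + q) * z0 + p * (1 / A * (1 / B))) D1, div_eq_div_iff hE h1, key]
  ring

theorem val_iso (a b c p q K : ℕ) (R : RatFunc ℂ) (hp : 1 ≤ p) (hq : 1 ≤ q) :
    (fac ((p + q) * b + q * c + q * (p + q) * K) (p + q + q) *
        (q * fac b 1 + (p + q : ℕ) * fac c 1 + R) +
      fac ((p + q) * a + p * c + p * (p + q) * K) (p + q + p) *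
        (p * fac a 1 + (p + q : ℕ) * fac c 1 + R) + fac a 1 * fac b 1) *
        fac (a + b + (c + (p + q) * K)) 3 =
    ((p + q : ℕ) * (fac ((p + q) * b + q * c + q * (p + q) * K) (p + q + q) *
        (q * fac b 1 + (p + q : ℕ) * fac c 1 + R)) + p * (fac a 1 * fac b 1)) *
        fac ((p + q) * a + p * c + p * (p + q) * K) (p + q + p) := by
  have hA := dn_ne a 1 le_rfl
  have hB := dn_ne b 1 le_rfl
  have hE := dn_ne (a + b + (c + (p + q) * K)) 3 (by omega)
  have h1 := dn_ne ((p + q) * a + p * c + p * (p + q) * K) (p + q + p) (by omega)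
  have h2 := dn_ne ((p + q) * b + q * c + q * (p + q) * K) (p + q + q) (by omega)
  have h := iso_id (F := RatFunc ℂ) (((1 : ℕ) : RatFunc ℂ) + (a : RatFunc ℂ) * RatFunc.X)
    (((1 : ℕ) : RatFunc ℂ) + (b : RatFunc ℂ) * RatFunc.X)
    (((1 : ℕ) : RatFunc ℂ) + (c : RatFunc ℂ) * RatFunc.X)
    (((3 : ℕ) : RatFunc ℂ) + ((a + b + (c + (p + q) * K) : ℕ) : RatFunc ℂ) * RatFunc.X)
    (((p + q + p : ℕ) : RatFunc ℂ) +
      (((p + q) * a + p * c + p * (p + q) * K : ℕ) : RatFunc ℂ) * RatFunc.X)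
    (((p + q + q : ℕ) : RatFunc ℂ) +
      (((p + q) * b + q * c + q * (p + q) * K : ℕ) : RatFunc ℂ) * RatFunc.X) R p q hA hB hE h1 h2
    (by push_cast; ring) (by push_cast; ring)
  unfold fac
  have hc : ((p + q : ℕ) : RatFunc ℂ) = (p : RatFunc ℂ) + q := by push_cast; ring
  rw [hc]
  exact h

/-! ## Regularity of the contributions -/

theorem translate_zero (f : MvPolynomial (Fin 2) ℂ) :
    Pool.Agent.W574.SM.translate ![0, 0] f = f := by
  have h : Pool.Agent.W574.SM.translate ![0, 0] = AlgHom.id ℂ _ := by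
    apply MvPolynomial.algHom_ext
    intro i
    rw [Pool.Agent.W574.SM.translate, aeval_X]
    fin_cases i <;> simp
  rw [h]
  rfl

theorem reg_point (g : MvPolynomial (Fin 3) ℂ) (d : ℕ) (hg : g.IsHomogeneous d)
    (bb : Polynomial ℂ) (hb : IsFunctionalEq (fun _ : Unit => g) bb) (s0 : ℂ)
    (hne : bb.eval s0 ≠ 0) (i : Fin 3) (P : Fin 2 → ℂ) (z : RatFunc ℂ)
    (hz : LocalZeta (fun _ : Unit => Pool.Agent.W574.SM.translate P (deh i g)) 0 1 0 1 z) : z ∈ Reg s0 := by
  refine mem_Reg_of_denom s0 z fun h0 => hne ?_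
  refine plane_main (fun _ : Unit => deh i g) bb
    (functionalEq_deh i (fun _ : Unit => g) d (fun _ => hg) bb hb) z ?_ s0 h0
  refine ⟨0, 0, Fin.elim0, Fin.elim0, Fin.elim0, {P}, fun _ => z, fun i => i.elim0, ?_, ?_⟩
  · intro P' hP'
    rw [Finset.mem_singleton.1 hP']
    exact hz
  · simp

theorem reg_origin (g : MvPolynomial (Fin 3) ℂ) (d : ℕ) (hg : g.IsHomogeneous d)
    (bb : Polynomial ℂ) (hb : IsFunctionalEq (fun _ : Unit => g) bb) (s0 : ℂ)
    (hne : bb.eval s0 ≠ 0) (i : Fin 3) (z : RatFunc ℂ)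
    (hz : LocalZeta (fun _ : Unit => deh i g) 0 1 0 1 z) : z ∈ Reg s0 :=
  reg_point g d hg bb hb s0 hne i ![0, 0] z (by
    have : (fun _ : Unit => Pool.Agent.W574.SM.translate ![0, 0] (deh i g)) = fun _ : Unit => deh i g := by
      funext _
      rw [translate_zero]
    rw [this]
    exact hz)

section main

variable {g : MvPolynomial (Fin 3) ℂ} {d : ℕ} {κ : ℂ} {a b c p q : ℕ} {s : Finset ℂ} {mu : ℂ → ℕ}

/-- isolated fixed points -/
theorem iso_reg (h : Shape g d κ a b c p q s mu) (hd : 0 < d) (hp : 1 ≤ p) (hq : 1 ≤ q)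
    (hcop : Nat.Coprime p q) (hg : g.IsHomogeneous d) (Z : RatFunc ℂ)
    (hZ : IsolatedLocalization g d Z) (bb : Polynomial ℂ)
    (hb : IsFunctionalEq (fun _ : Unit => g) bb) (hne : bb.eval (-3 / (d : ℂ)) ≠ 0) :
    Z ∈ Reg (-3 / (d : ℂ)) := by
  obtain ⟨z, hz, hZe⟩ := hZ ![q, -p, 0] (q * a - p * b) (by
    intro i j hij
    fin_cases i <;> fin_cases j <;> simp at hij ⊢ <;> omega) (by
    intro m hm
    rw [Fin.sum_univ_three]
    exact h.wt m hm)
  set K := ∑ t ∈ s, mu t with hK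
  have hr : 1 ≤ p + q := by omega
  have v0 : z 0 = fac ((p + q) * b + q * c + q * (p + q) * K) (p + q + q) *
      (q * fac b 1 + (p + q : ℕ) * fac c 1 + RR s mu) := by
    have h1 := lz_gen s mu h.hs h.hmu κ h.hκ q (p + q) hq hr
      (by rw [Nat.coprime_add_self_right]; exact hcop.symm) b c
    have h2 := hz 0
    rw [h.deh0] at h2
    exact LocalZeta.unique h1 le_rfl le_rfl _ h2
  have v1 : z 1 = fac ((p + q) * a + p * c + p * (p + q) * K) (p + q + p) *
      (p * fac a 1 + (p + q : ℕ) * fac c 1 + RR s mu) := by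
    have h1 := lz_gen s mu h.hs h.hmu κ h.hκ p (p + q) hp hr
      (by rw [Nat.coprime_self_add_right]; exact hcop) a c
    have h2 := hz 1
    rw [h.deh1] at h2
    exact LocalZeta.unique h1 le_rfl le_rfl _ h2
  have v2 : z 2 = fac a 1 * fac b 1 := by
    have h1 := lz_mono a b 0 1 0 1 (C κ * ∏ t ∈ s, (X 0 ^ p * X 1 ^ q - C t) ^ mu t) (by
      rw [map_mul, constantCoeff_C]
      refine mul_ne_zero h.hκ (cc_prod _ fun t ht => ?_)
      have ht0 : t ≠ 0 := fun h0 => h.hs (h0 ▸ ht)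
      simp [zero_pow (by omega : p ≠ 0), ht0]) (Or.inr ⟨rfl, rfl⟩) (Or.inr ⟨rfl, rfl⟩)
    have h2 := hz 2
    rw [h.deh2] at h2
    have h3 := LocalZeta.unique h1 le_rfl le_rfl _ h2
    rwa [zero_add, zero_add] at h3
  have r0 := reg_origin g d hg bb hb _ hne 0 _ (hz 0)
  have r2 := reg_origin g d hg bb hb _ hne 2 _ (hz 2)
  have hval := val_iso a b c p q K (RR s mu) hp hq
  rw [h.deg, ← v0, ← v1, ← v2] at hval
  have hZ' : Z = (((p + q : ℕ) : RatFunc ℂ) * z 0 + (p : RatFunc ℂ) * z 2) *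
      fac ((p + q) * a + p * c + p * (p + q) * K) (p + q + p) := by
    rw [hZe, Fin.sum_univ_three]
    exact hval
  rw [hZ']
  refine (Reg _).mul_mem ((Reg _).add_mem ((Reg _).mul_mem (natCast_mem _ _) r0)
    ((Reg _).mul_mem (natCast_mem _ _) r2)) (fac_mem _ _ _ ?_)
  intro h0
  apply h.char
  have hdc : (d : ℂ) ≠ 0 := Nat.cast_ne_zero.2 hd.ne'
  have hdeg : (a : ℂ) + b + (c + (p + q) * K) = d := by
    have := h.deg
    exact_mod_cast this
  have h1 : (d : ℂ) * (q - p) = 3 * (q * a - p * b) := by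
    push_cast at h0
    field_simp at h0
    have h2 : ((p : ℂ) + q + p) * d = 3 * ((p + q) * a + p * c + p * (p + q) * K) := by
      linear_combination h0
    linear_combination h2 + 3 * p * hdeg
  exact_mod_cast h1

/-- a fixed line -/
theorem line_reg (h : Shape g d κ a b c 0 1 s mu) (hd : 0 < d) (hg : g.IsHomogeneous d)
    (Z : RatFunc ℂ) (hZ : LineLocalization g d Z) (bb : Polynomial ℂ)
    (hb : IsFunctionalEq (fun _ : Unit => g) bb) (hne : bb.eval (-3 / (d : ℂ)) ≠ 0) :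
    Z ∈ Reg (-3 / (d : ℂ)) := by
  classical
  obtain ⟨z₀, z₁, S, w, hz0, hz1, hw, hS, hZe⟩ := hZ a
    (C κ * (X 0 ^ b * X 1 ^ c) * ∏ t ∈ s, (X 0 - C t * X 1) ^ mu t) (by
      rw [h.eq, map_mul, map_mul, map_mul, map_pow, map_pow, rename_X, rename_X, rename_C, map_prod]
      have e : ∏ t ∈ s, rename Fin.succ ((X 0 - C t * X 1 : MvPolynomial (Fin 2) ℂ) ^ mu t) =
          ∏ t ∈ s, (X 0 ^ 0 * X 1 ^ 1 - C t * X 2 ^ (0 + 1) : MvPolynomial (Fin 3) ℂ) ^ mu t := by
        refine Finset.prod_congr rfl fun t _ => ?_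
        rw [map_pow, map_sub, map_mul, rename_X, rename_X, rename_C, pow_zero, one_mul, pow_one,
          zero_add, pow_one]
        rfl
      rw [e]
      have e1 : (Fin.succ (0 : Fin 2)) = (1 : Fin 3) := rfl
      have e2 : (Fin.succ (1 : Fin 2)) = (2 : Fin 3) := rfl
      rw [e1, e2]
      ring)
  set K := ∑ t ∈ s, mu t with hK
  have v0 : z₀ = fac (b + c + K) 2 * (fac b 1 + fac c 1 + RR s mu) := by
    have h1 := lz_gen s mu h.hs h.hmu κ h.hκ 1 1 le_rfl le_rfl (Nat.coprime_one_left 1) b c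
    rw [h.deh0] at hz0
    have h2 := LocalZeta.unique h1 le_rfl le_rfl _ hz0
    simpa only [one_mul, Nat.cast_one] using h2
  have v1 : z₁ = fac a 1 * fac c 1 := by
    have h1 := lz_mono a c 0 1 0 1 (C κ * QQ s mu 0 1) (by
      rw [map_mul, constantCoeff_C, QQ]
      refine mul_ne_zero h.hκ (cc_prod _ fun t ht => ?_)
      simp) (Or.inr ⟨rfl, rfl⟩) (Or.inr ⟨rfl, rfl⟩)
    rw [h.deh1] at hz1
    have e : (fun _ : Unit => C κ * (X 0 ^ a * X 1 ^ c) * QQ s mu 0 (0 + 1)) =
        fun _ : Unit => X 0 ^ a * X 1 ^ c * (C κ * QQ s mu 0 1) := by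
      funext _
      rw [zero_add]
      ring
    rw [e] at hz1
    have h3 := LocalZeta.unique h1 le_rfl le_rfl _ hz1
    rwa [zero_add, zero_add] at h3
  -- the points of the line
  set M : ℂ → ℕ := fun e => if e = 0 then b else if e ∈ s then mu e else 0 with hM
  have vw : ∀ e ∈ S, w e = fac a 1 * fac (M e) 1 := by
    intro e he
    have h2 := hw e he
    have h3 : Pool.Agent.W574.SM.translate ![0, e] (deh 2 g) = X 0 ^ a * (X 1 + C e) ^ b *
        (C κ * ∏ t ∈ s, (X 1 + C e - C t) ^ mu t) := by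
      have t0 : Pool.Agent.W574.SM.translate ![0, e] (X 0) = X 0 := by
        rw [Pool.Agent.W574.SM.translate, aeval_X]; simp
      have t1 : Pool.Agent.W574.SM.translate ![0, e] (X 1) = X 1 + C e := by
        rw [Pool.Agent.W574.SM.translate, aeval_X]; simp
      have t2 : ∀ x : ℂ, Pool.Agent.W574.SM.translate ![0, e] (C x) = C x := by
        intro x
        rw [algHom_C, algebraMap_eq]
      have t3 : ∏ t ∈ s, Pool.Agent.W574.SM.translate ![0, e]
          ((X 0 ^ 0 * X 1 ^ 1 - C t : MvPolynomial (Fin 2) ℂ) ^ mu t) =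
          ∏ t ∈ s, (X 1 + C e - C t : MvPolynomial (Fin 2) ℂ) ^ mu t := by
        refine Finset.prod_congr rfl fun t _ => ?_
        rw [map_pow, map_sub, map_mul, map_pow, map_pow, t0, t1, t2, pow_zero, one_mul, pow_one]
      rw [h.deh2, map_mul, map_mul, map_mul, map_prod, map_pow, map_pow, t0, t1, t2, t3]
    rw [h3] at h2
    by_cases he0 : e = 0
    · subst he0
      have h1 := lz_mono a b 0 1 0 1 (C κ * ∏ t ∈ s, (X 1 + C 0 - C t) ^ mu t) (by
        rw [map_mul, constantCoeff_C]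
        refine mul_ne_zero h.hκ (cc_prod _ fun t ht => ?_)
        have ht0 : t ≠ 0 := fun h0 => h.hs (h0 ▸ ht)
        simp [ht0]) (Or.inr ⟨rfl, rfl⟩) (Or.inr ⟨rfl, rfl⟩)
      rw [C_0, add_zero] at h2
      simp only [C_0, add_zero] at h1
      have h4 := LocalZeta.unique h1 le_rfl le_rfl _ (by simpa only [C_0, add_zero] using h2)
      rw [h4, hM]
      simp
    · by_cases hes : e ∈ s
      · have h1 := lz_mono a (mu e) 0 1 0 1
          (C κ * (X 1 + C e) ^ b * ∏ t ∈ s.erase e, (X 1 + C e - C t) ^ mu t) (by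
          rw [map_mul, map_mul, map_pow, map_add, constantCoeff_C, constantCoeff_C,
            constantCoeff_X, zero_add]
          refine mul_ne_zero (mul_ne_zero h.hκ (pow_ne_zero _ he0)) (cc_prod _ fun t ht => ?_)
          rw [map_sub, map_add, constantCoeff_C, constantCoeff_C, constantCoeff_X, zero_add]
          exact sub_ne_zero.2 (Finset.ne_of_mem_erase ht).symm)
          (Or.inr ⟨rfl, rfl⟩) (Or.inr ⟨rfl, rfl⟩)
        have e4 : (fun _ : Unit => X 0 ^ a * (X 1 + C e) ^ b *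
            (C κ * ∏ t ∈ s, (X 1 + C e - C t : MvPolynomial (Fin 2) ℂ) ^ mu t)) =
            fun _ : Unit => X 0 ^ a * X 1 ^ mu e *
              (C κ * (X 1 + C e) ^ b * ∏ t ∈ s.erase e, (X 1 + C e - C t) ^ mu t) := by
          funext _
          rw [← Finset.mul_prod_erase s _ hes, add_sub_cancel_right]
          ring
        rw [e4] at h2
        have h4 := LocalZeta.unique h1 le_rfl le_rfl _ h2
        rw [h4, hM]
        simp [he0, hes]
      · have h1 := lz_mono a 0 0 1 0 1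
          ((X 1 + C e) ^ b * (C κ * ∏ t ∈ s, (X 1 + C e - C t) ^ mu t)) (by
          rw [map_mul, map_mul, map_pow, map_add, constantCoeff_C, constantCoeff_C,
            constantCoeff_X, zero_add]
          refine mul_ne_zero (pow_ne_zero _ he0) (mul_ne_zero h.hκ (cc_prod _ fun t ht => ?_))
          rw [map_sub, map_add, constantCoeff_C, constantCoeff_C, constantCoeff_X, zero_add]
          exact sub_ne_zero.2 (fun h0 => hes (h0 ▸ ht)))
          (Or.inr ⟨rfl, rfl⟩) (Or.inr ⟨rfl, rfl⟩)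
        have e4 : (fun _ : Unit => X 0 ^ a * (X 1 + C e) ^ b *
            (C κ * ∏ t ∈ s, (X 1 + C e - C t : MvPolynomial (Fin 2) ℂ) ^ mu t)) =
            fun _ : Unit => X 0 ^ a * X 1 ^ 0 *
              ((X 1 + C e) ^ b * (C κ * ∏ t ∈ s, (X 1 + C e - C t) ^ mu t)) := by
          funext _
          ring
        rw [e4] at h2
        have h4 := LocalZeta.unique h1 le_rfl le_rfl _ h2
        rw [h4, hM]
        simp [he0, hes]
  -- the sum over the line
  have hsum : ∑ e ∈ S, w e + (1 - (S.card : RatFunc ℂ)) * fac a 1 =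
      fac a 1 * (fac b 1 + RR s mu) := by
    have e1 : ∑ e ∈ S, w e = ∑ e ∈ S, fac a 1 * (fac (M e) 1 - 1) + S.card * fac a 1 := by
      rw [← nsmul_eq_mul, ← Finset.sum_const, ← Finset.sum_add_distrib]
      refine Finset.sum_congr rfl fun e he => ?_
      rw [vw e he]
      ring
    have e2 : ∑ e ∈ S, (fac (M e) 1 - 1) = ∑ e ∈ insert 0 s, (fac (M e) 1 - 1) := by
      have e3 : ∑ e ∈ S, (fac (M e) 1 - 1) = ∑ e ∈ S ∪ insert 0 s, (fac (M e) 1 - 1) := by
        refine Finset.sum_subset Finset.subset_union_left fun e he heS => ?_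
        have he' : e ∈ insert 0 s := (Finset.mem_union.1 he).resolve_left heS
        have h5 := hS e heS
        have h6 : M e = 0 := by
          rcases Finset.mem_insert.1 he' with rfl | hes
          · simp only [hM, if_true]
            by_contra hb0
            apply h5
            simp [zero_pow hb0]
          · exfalso
            apply h5
            rw [map_mul, map_prod, Finset.prod_eq_zero hes, mul_zero]
            have := h.hmu e hes
            simp [zero_pow (by omega : mu e ≠ 0)]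
        rw [h6, fac_01, sub_self]
      have e4 : ∑ e ∈ insert 0 s, (fac (M e) 1 - 1) = ∑ e ∈ S ∪ insert 0 s, (fac (M e) 1 - 1) := by
        refine Finset.sum_subset Finset.subset_union_right fun e he hes => ?_
        rw [Finset.mem_insert, not_or] at hes
        have h6 : M e = 0 := by simp only [hM, if_neg hes.1, if_neg hes.2]
        rw [h6, fac_01, sub_self]
      rw [e3, e4]
    have e5 : ∑ e ∈ insert 0 s, (fac (M e) 1 - 1) = fac b 1 - 1 + RR s mu := by
      rw [Finset.sum_insert h.hs, RR]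
      congr 1
      · simp [hM]
      · refine Finset.sum_congr rfl fun e he => ?_
        have he0 : e ≠ 0 := fun h0 => h.hs (h0 ▸ he)
        simp only [hM, if_neg he0, if_pos he]
    rw [e1, ← Finset.mul_sum, e2, e5]
    ring
  have hE := dn_ne d 3 (by omega)
  have hA := dn_ne a 1 le_rfl
  have hD := dn_ne (b + c + K) 2 (by omega)
  have hdegN : a + (b + c + K) = d := by
    have := h.deg
    rw [zero_add, one_mul] at this
    omega
  have hfa : fac a 1 * fac (b + c + K) 2 = fac d 3 * (fac a 1 + fac (b + c + K) 2) := by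
    have h1 := fac_add a 1 (b + c + K) 2 le_rfl (by omega)
    rw [hdegN] at h1
    exact h1.symm
  have hDne : fac (b + c + K) 2 ≠ 0 := by
    unfold fac
    exact one_div_ne_zero hD
  have hfin : Z = z₀ * fac a 1 := by
    rw [hZe]
    have h7 : z₀ + z₁ + ∑ e ∈ S, w e + (1 - (S.card : RatFunc ℂ)) * fac a 1 =
        (fac (b + c + K) 2 + fac a 1) * (fac b 1 + fac c 1 + RR s mu) := by
      rw [add_assoc (z₀ + z₁), hsum, v0, v1]
      ring
    rw [h7, v0]
    linear_combination -(fac b 1 + fac c 1 + RR s mu) * hfa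
  rw [hfin]
  refine (Reg _).mul_mem (reg_origin g d hg bb hb _ hne 0 _ hz0) (fac_mem _ _ _ ?_)
  intro h0
  apply h.char
  have hdc : (d : ℂ) ≠ 0 := Nat.cast_ne_zero.2 hd.ne'
  have h1 : (d : ℂ) = 3 * a := by
    push_cast at h0
    field_simp at h0
    linear_combination h0
  have h2 : (d : ℤ) = 3 * a := by exact_mod_cast h1
  simp [h2]

end main

/-- **The zeta function is regular at `-3/d`** if there is a vector field and `b(-3/d) ≠ 0`. -/
theorem field_reg (f : MvPolynomial (Fin 3) ℂ) (d : ℕ) (hd : 0 < d) (hf : f.IsHomogeneous d)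
    (hf0 : f ≠ 0) (hv : ¬ NoField f) (Z : RatFunc ℂ) (hZ : TernTopZeta f d Z) (bb : Polynomial ℂ)
    (hb : IsBFunction f bb) (hne : bb.eval (-3 / (d : ℂ)) ≠ 0) : Z ∈ Reg (-3 / (d : ℂ)) := by
  obtain ⟨A, B, hAB, κ, a, b, c, p, q, s, mu, hsh⟩ := torus_shape f d hf hf0 hv
  have hdet : A.det ≠ 0 := by
    intro h0
    have h1 := congrArg Matrix.det hAB
    rw [Matrix.det_mul, h0, zero_mul, Matrix.det_one] at h1
    exact zero_ne_one h1
  have hfe : IsFunctionalEq (fun _ : Unit => linSub A f) bb :=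
    functionalEq_sbm A hdet (fun _ : Unit => f) bb (functionalEq_unit f bb hb)
  have hg : (linSub A f).IsHomogeneous d := sbm_hom A f d hf
  obtain ⟨h1, h2⟩ := hZ.2 A B hAB
  rcases hsh.pq with ⟨rfl, rfl⟩ | ⟨hp, hq, hcop⟩
  · exact line_reg hsh hd hg Z h2 bb hfe hne
  · exact iso_reg hsh hd hp hq hcop hg Z h1 bb hfe hne

/-- **The strong monodromy conjecture for ternary forms with weighted homogeneous
singularities.** -/
theorem top_full (f : MvPolynomial (Fin 3) ℂ) (d : ℕ) (hd : 0 < d) (hf : f.IsHomogeneous d)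
    (hf0 : f ≠ 0) (b : Polynomial ℂ) (hb : IsBFunction f b) (Z : RatFunc ℂ)
    (hZ : TernTopZeta f d Z) (s₀ : ℂ) (hs₀ : Z.denom.eval s₀ = 0)
    (hc : s₀ ≠ -3 / d ∨ WHForm f d) : b.eval s₀ = 0 := by
  by_cases h3 : s₀ = -3 / d
  · rcases hc with hc | hc
    · exact absurd h3 hc
    · by_cases hv : NoField f
      · rw [h3]
        exact root_d3 f d ⟨hc, hv⟩ b hb
      · by_contra hne
        rw [h3] at hne hs₀
        exact Reg_denom _ _ (field_reg f d hd hf hf0 hv Z hZ b hb hne) hs₀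
  · exact top_main f d hd hf b hb Z hZ.1 s₀ hs₀ (Or.inl h3)

end Pool.Agent.U184
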