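import Pool.Agent.U184.Zeta
import Pool.Agent.N103.Main
import Pool.Agent.N127.TW.Tuple

set_option autoImplicit false
set_option linter.unusedSectionVars false

/-! # Twisted zeta functions, and zeta functions of tuples, for ternary forms with weighted
homogeneous singularities

The functional equation of a form in three variables gives functional equations of its
dehomogenizations, as in `Pool.Agent.U184.Zeta`; here they are used for the twisted local zeta
functions of the library (`Pool.Agent.N103`). The lifting of the operators (`weyl_lift'`) is as in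
`Pool.Agent.Y230.TH.Mlt`, and `isB_of_unit` as in `Pool.Agent.Y229.LP2`. -/

namespace Pool.Agent.U184

open MvPolynomial Pool.Agent.W574.SM Pool.Agent.W574.CN Pool.Agent.W574.MO Pool.Agent.N103
open Pool.Agent.H628R4.TP (IsBFunction weylS)

section single

variable {σ : Type}

theorem unit_eq (f : MvPolynomial σ ℂ) (b : Polynomial ℂ)
    (h : IsFunctionalEq (fun _ : Unit => f) b) :
    ∃ (L : ℕ) (m : Fin L → ℕ) (Q : Fin L → weyl σ), ∀ s : ℕ,
      C (b.eval (s : ℂ)) * f ^ s =
        ∑ i, ((s : ℂ) ^ m i) • (Q i : Module.End ℂ (MvPolynomial σ ℂ)) (f ^ (s + 1)) := by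
  classical
  obtain ⟨S, P, hS, hP⟩ := h
  set t := S.sigma fun c => (P c).support with ht
  refine ⟨t.card, fun i => (t.equivFin.symm i : (_ : Unit → ℤ) × (Unit →₀ ℕ)).2 (),
    fun i => P (t.equivFin.symm i : (_ : Unit → ℤ) × (Unit →₀ ℕ)).1
      (t.equivFin.symm i : (_ : Unit → ℤ) × (Unit →₀ ℕ)).2, fun s => ?_⟩
  have h1 := hP (fun _ => s)
  simp only [Finset.univ_unique, Finset.sum_singleton, Finset.prod_singleton,
    PUnit.default_eq_unit] at h1
  have he := Equiv.sum_comp t.equivFin.symm fun x : t =>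
    ((s : ℂ) ^ ((x : (_ : Unit → ℤ) × (Unit →₀ ℕ)).2 ())) •
      (P (x : (_ : Unit → ℤ) × (Unit →₀ ℕ)).1 (x : (_ : Unit → ℤ) × (Unit →₀ ℕ)).2 :
        Module.End ℂ (MvPolynomial σ ℂ)) (f ^ (s + 1))
  rw [h1, he, Finset.sum_coe_sort t fun x : (_ : Unit → ℤ) × (Unit →₀ ℕ) =>
    ((s : ℂ) ^ (x.2 ())) • (P x.1 x.2 : Module.End ℂ (MvPolynomial σ ℂ)) (f ^ (s + 1)), ht,
    Finset.sum_sigma]
  refine Finset.sum_congr rfl fun c hc => ?_
  have hc1 : c () = 1 := by
    have := hS c hc
    simpa using this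
  rw [applyAt, Finsupp.sum]
  refine Finset.sum_congr rfl fun β _ => ?_
  have h2 : ((s : ℤ) + c ()).toNat = s + 1 := by rw [hc1]; omega
  simp only [Finset.univ_unique, Finset.prod_singleton, PUnit.default_eq_unit]
  rw [h2, hc1, if_neg (by norm_num), Nat.cast_one, map_one (C : ℂ →+* MvPolynomial σ ℂ), one_mul]

theorem isB_of_unit (f : MvPolynomial σ ℂ) (b : Polynomial ℂ)
    (h : IsFunctionalEq (fun _ : Unit => f) b) : IsBFunction f b := by
  classical
  obtain ⟨L, m, Q, hQ⟩ := unit_eq f b h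
  refine ⟨∑ i, Finsupp.single (m i) ⟨(Q i).1, (Q i).2⟩, fun s => ?_⟩
  rw [hQ s, ← Finsupp.sum_finsetSum_index]
  · refine Finset.sum_congr rfl fun i _ => ?_
    rw [Finsupp.sum_single_index]
    exact smul_zero _
  · intro a
    exact smul_zero _
  · intro a A B
    rw [← smul_add]
    rfl

theorem pderiv_inl_rename' {τ : Type} (i : σ) (p : MvPolynomial σ ℂ) :
    pderiv (Sum.inl i : σ ⊕ τ) (rename Sum.inl p) = rename Sum.inl (pderiv i p) := by
  classical
  induction p using MvPolynomial.induction_on with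
  | C a => simp
  | add p q hp hq => simp only [map_add, hp, hq]
  | mul_X p j hp =>
    rw [map_mul, rename_X, Derivation.leibniz, Derivation.leibniz, hp, map_add, smul_eq_mul,
      smul_eq_mul, smul_eq_mul, smul_eq_mul, map_mul, map_mul, rename_X, pderiv_X, pderiv_X]
    congr 2
    by_cases h : i = j
    · subst h
      simp
    · rw [Pi.single_eq_of_ne (fun h' => h (Sum.inl_injective h'.symm)),
        Pi.single_eq_of_ne (Ne.symm h), map_zero]

/-- lifting operators -/
theorem weyl_lift' {κ : Type} (Q : Module.End ℂ (MvPolynomial σ ℂ)) (hQ : Q ∈ weylS σ) :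
    ∃ Q' ∈ weylS (σ ⊕ κ), ∀ q : MvPolynomial σ ℂ,
      Q' (MvPolynomial.rename Sum.inl q) = MvPolynomial.rename Sum.inl (Q q) := by
  classical
  induction hQ using Algebra.adjoin_induction with
  | mem R h =>
    rcases h with ⟨i, rfl⟩ | ⟨i, rfl⟩
    · refine ⟨_, Algebra.subset_adjoin (Or.inl ⟨Sum.inl i, rfl⟩), fun q => ?_⟩
      change MvPolynomial.X (Sum.inl i) * MvPolynomial.rename Sum.inl q =
        MvPolynomial.rename Sum.inl (MvPolynomial.X i * q)
      rw [map_mul, MvPolynomial.rename_X]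
    · refine ⟨_, Algebra.subset_adjoin (Or.inr ⟨Sum.inl i, rfl⟩), fun q => ?_⟩
      exact pderiv_inl_rename' i q
  | algebraMap r =>
    refine ⟨algebraMap ℂ _ r, Subalgebra.algebraMap_mem _ _, fun q => ?_⟩
    change r • MvPolynomial.rename Sum.inl q = MvPolynomial.rename Sum.inl (r • q)
    rw [map_smul]
  | add R R' _ _ h h' =>
    obtain ⟨S, hS, e⟩ := h
    obtain ⟨S', hS', e'⟩ := h'
    exact ⟨S + S', Subalgebra.add_mem _ hS hS', fun q => by
      rw [LinearMap.add_apply, e, e', LinearMap.add_apply, map_add]⟩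
  | mul R R' _ _ h h' =>
    obtain ⟨S, hS, e⟩ := h
    obtain ⟨S', hS', e'⟩ := h'
    exact ⟨S * S', Subalgebra.mul_mem _ hS hS', fun q => by
      rw [Module.End.mul_apply, e', e, Module.End.mul_apply]⟩

theorem isB_rename' {κ : Type} (F : MvPolynomial σ ℂ) (b : Polynomial ℂ) (h : IsBFunction F b) :
    IsBFunction (MvPolynomial.rename Sum.inl F : MvPolynomial (σ ⊕ κ) ℂ) b := by
  classical
  obtain ⟨P, hP⟩ := h
  have hl : ∀ m : ℕ, ∃ Q' ∈ weylS (σ ⊕ κ), ∀ q : MvPolynomial σ ℂ,
      Q' (MvPolynomial.rename Sum.inl q) = MvPolynomial.rename Sum.inl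
        ((P m : Module.End ℂ (MvPolynomial σ ℂ)) q) := fun m => weyl_lift' (P m).1 (P m).2
  choose Q hQ hQ2 using hl
  refine ⟨∑ m ∈ P.support, Finsupp.single m ⟨Q m, hQ m⟩, fun s => ?_⟩
  rw [← Finsupp.sum_finsetSum_index]
  · have h1 := congrArg (MvPolynomial.rename Sum.inl : MvPolynomial σ ℂ →
      MvPolynomial (σ ⊕ κ) ℂ) (hP s)
    rw [map_mul, MvPolynomial.rename_C, map_pow, Finsupp.sum, map_sum] at h1
    rw [h1]
    refine Finset.sum_congr rfl fun m _ => ?_
    rw [Finsupp.sum_single_index (by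
      rw [ZeroMemClass.coe_zero, LinearMap.zero_apply, smul_zero])]
    change _ = ((s : ℂ) ^ m) • Q m (MvPolynomial.rename Sum.inl F ^ (s + 1))
    rw [← map_pow, hQ2, map_smul]
  · intro a
    rw [ZeroMemClass.coe_zero, LinearMap.zero_apply, smul_zero]
  · intro a A B
    rw [← smul_add]
    rfl

end single

/-- the functional equation of a form gives the ones of its dehomogenizations -/
theorem isB_deh (f : MvPolynomial (Fin 3) ℂ) (d : ℕ) (hf : f.IsHomogeneous d) (b : Polynomial ℂ)
    (hb : IsBFunction f b) (i : Fin 3) : IsBFunction (deh i f) b :=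
  isB_of_unit _ b (functionalEq_deh i (fun _ : Unit => f) d (fun _ => hf) b
    (functionalEq_unit f b hb))

theorem FF_one (h : MvPolynomial (Fin 2) ℂ) (a : ℕ) :
    FF h (fun _ : Option Empty => (1 : MvPolynomial (Fin 2) ℂ)) a =
      (rename Sum.inl h : MvPolynomial (Fin 2 ⊕ Empty) ℂ) := by
  rw [FF, lin]
  simp

/-- the local contributions are regular -/
theorem germ_reg (f : MvPolynomial (Fin 3) ℂ) (d : ℕ) (hf : f.IsHomogeneous d) (hf0 : f ≠ 0)
    (b : Polynomial ℂ) (hb : IsBFunction f b) (s₀ : ℂ) (hne : b.eval s₀ ≠ 0) (e : ℕ) (he : 1 ≤ e)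
    (i : Fin 3) (P : Fin 2 → ℂ) (a : ℕ) (ha : 1 ≤ a) (Z : RatFunc ℂ)
    (hZ : PointZeta (κ := Empty) (facT e) 1 (deh i f) (fun _ => 1) a P (fun j => j.elim) Z) :
    Z ∈ Reg s₀ := by
  have h0 : deh i f ≠ 0 := fun h => hf0 (deh_inj i hf h)
  have hb' : IsBFunction (FF (deh i f) (fun _ : Option Empty => (1 : MvPolynomial (Fin 2) ℂ)) a)
      b := by
    rw [FF_one]
    exact isB_rename' _ b (isB_deh f d hf b hb i)
  have hF : FF (deh i f) (fun _ : Option Empty => (1 : MvPolynomial (Fin 2) ℂ)) a ≠ 0 := by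
    rw [FF_one]
    exact fun h => h0 (rename_injective _ Sum.inl_injective (by rw [h, map_zero]))
  exact point_reg (heq_of_bfun _ b hb') hF (by rw [map_one]; exact one_ne_zero) ha hne
    (zdata_tw e he s₀) hZ

end Pool.Agent.U184
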