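import Pool.Agent.N103.PointA
import Pool.Agent.W574.CN.Defs
import Pool.Agent.N103.TDefs

set_option autoImplicit false

/-! # The twisted topological zeta function of a form in three variables, and the topological zeta
function of a tuple of such forms -/

namespace Pool.Agent.U184

open MvPolynomial Pool.Agent.W574.SM Pool.Agent.W574.CN Pool.Agent.N103

/-- `Z` is (of the form of) the `e`-th twisted topological zeta function
`∑_I χ(E_I°) ∏_{i ∈ I} 1 / (N_i s + ν_i)`, the sum over the `I ≠ ∅` such that `e` divides all `N_i`,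
`i ∈ I`, of a form `f` of degree `d` in three variables on an open set of `ℂ ^ 3`:
`Z = χ₀ + ∑_j χ_j z_j + [e ∣ d] / (d s + 3) * (χ₀' + ∑_j χ'_j z_j)` with integers `χ` (the Euler
characteristics of strata), and with contributions `z_j` of points.

Explanation. Blow up the origin of `ℂ ^ 3`; the exceptional divisor `P ^ 2` has `N = d`, `ν = 3`. Near a
point of `P ^ 2`, and also near a point `≠ 0` of `ℂ ^ 3` on the corresponding line, `f` is, up to a unit
and up to a power of the equation of the exceptional divisor, the polynomial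
`f |_{x_i = 1}` in two variables (`deh i f`), at a point `P` of the plane. Let `z` be the contribution of
`P` to the `e`-th twisted topological zeta function of this polynomial. It is computed by blowing up
points (`PointZeta`, with the local factors `facT e N ν = 1 / (N s + ν)` if `e ∣ N`, and `0` if not; the
second polynomial which occurs in `PointZeta` is the constant `1` here, and there are no variables
`y`). There are only finitely many different contributions `z_j`, each one on a constructible set
of points. -/
def TernTw (e : ℕ) (f : MvPolynomial (Fin 3) ℂ) (d : ℕ) (Z : RatFunc ℂ) : Prop :=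
  ∃ (l : ℕ) (i : Fin l → Fin 3) (P : Fin l → Fin 2 → ℂ) (z : Fin l → RatFunc ℂ)
    (χ₀ χ₀' : ℤ) (χ χ' : Fin l → ℤ),
    (∀ j, PointZeta (κ := Empty) (facT e) 1 (deh (i j) f) (fun _ => 1) 1 (P j) (fun k => k.elim)
      (z j)) ∧
    Z = ((χ₀ : RatFunc ℂ) + ∑ j, (χ j : RatFunc ℂ) * z j) +
      facT e d 3 * ((χ₀' : RatFunc ℂ) + ∑ j, (χ' j : RatFunc ℂ) * z j)

/-- `Z` is (of the form of) the topological zeta function
`∑_I χ(E_I°) ∏_{i ∈ I} 1 / (∑_t N_{i,t} s_t + ν_i)` of a tuple of forms `F_t` of degrees `d t` in three
variables: `Z = χ₀ + ∑_j χ_j z_j + (χ₀' + ∑_j χ'_j z_j) / (∑_t d_t s_t + 3)` with integers `χ`, and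
with contributions `z_j` of points `P` of the plane to the zeta function of the tuple of the
polynomials `F_t |_{x_i = 1}` in two variables (`deh i (F t)`), which are computed by blowing up points
(`PointZetaT`, with the local factors `facM N ν = 1 / (∑_t N_t s_t + ν)`; the polynomial
`f₀ + ∑ y_j f_j` which occurs in `PointZetaT` is the constant `1` here). The explanation is as in
`TernTw`. -/
def TernTuple {T : Type} [Fintype T] (F : T → MvPolynomial (Fin 3) ℂ) (d : T → ℕ)
    (Z : FractionRing (MvPolynomial T ℂ)) : Prop :=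
  ∃ (l : ℕ) (i : Fin l → Fin 3) (P : Fin l → Fin 2 → ℂ) (z : Fin l → FractionRing (MvPolynomial T ℂ))
    (χ₀ χ₀' : ℤ) (χ χ' : Fin l → ℤ),
    (∀ j, PointZetaT (κ := Empty) facM 1 (fun t => deh (i j) (F t)) (fun _ => 1) (fun _ => 1) (P j)
      (fun k => k.elim) (z j)) ∧
    Z = ((χ₀ : FractionRing (MvPolynomial T ℂ)) + ∑ j, (χ j : FractionRing (MvPolynomial T ℂ)) * z j) +
      facM d 3 * ((χ₀' : FractionRing (MvPolynomial T ℂ)) +
        ∑ j, (χ' j : FractionRing (MvPolynomial T ℂ)) * z j)

end Pool.Agent.U184
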