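import Pool.Agent.U184.Tw
import Pool.Agent.U184.TwDefs

set_option autoImplicit false
set_option linter.unusedSectionVars false

/-! # The twisted and the multi-variable zeta functions -/

namespace Pool.Agent.U184

open MvPolynomial Pool.Agent.W574.SM Pool.Agent.W574.CN Pool.Agent.W574.MO Pool.Agent.N103
open Pool.Agent.H628R4.TP (IsBFunction)
open Pool.Agent.N127.TW

theorem sum_reg' {s₀ : ℂ} {l : ℕ} (z : Fin l → RatFunc ℂ) (hz : ∀ i, z i ∈ Reg s₀) (χ₀ : ℤ)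
    (χ : Fin l → ℤ) : (χ₀ : RatFunc ℂ) + ∑ i, (χ i : RatFunc ℂ) * z i ∈ Reg s₀ :=
  (Reg s₀).add_mem (intCast_mem _ _) (Subring.sum_mem _ fun i _ =>
    (Reg s₀).mul_mem (intCast_mem _ _) (hz i))

/-- the factor of the exceptional divisor -/
theorem facT_d3 (f : MvPolynomial (Fin 3) ℂ) (d : ℕ) (hd : 0 < d) (b : Polynomial ℂ)
    (hb : IsBFunction f b) (s₀ : ℂ) (hne : b.eval s₀ ≠ 0)
    (hc : s₀ ≠ -3 / d ∨ (WHForm f d ∧ NoField f)) (e : ℕ) (he : 1 ≤ e) : facT e d 3 ∈ Reg s₀ := by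
  refine (zdata_tw e he s₀).reg d 3 (by norm_num) ?_
  intro h
  have hd0 : (d : ℂ) ≠ 0 := Nat.cast_ne_zero.2 hd.ne'
  have h3 : s₀ = -3 / d := by
    rw [eq_div_iff hd0]
    push_cast at h
    linear_combination h
  rcases hc with hc | hc
  · exact hc h3
  · apply hne
    rw [h3]
    exact root_d3 f d hc b hb

theorem tw_main (f : MvPolynomial (Fin 3) ℂ) (d : ℕ) (hd : 0 < d) (hf : f.IsHomogeneous d)
    (hf0 : f ≠ 0) (b : Polynomial ℂ) (hb : IsBFunction f b) (e : ℕ) (he : 1 ≤ e) (Z : RatFunc ℂ)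
    (hZ : TernTw e f d Z) (s₀ : ℂ) (hs₀ : Z.denom.eval s₀ = 0)
    (hc : s₀ ≠ -3 / d ∨ (WHForm f d ∧ NoField f)) : b.eval s₀ = 0 := by
  by_contra hne
  obtain ⟨l, i, P, z, χ₀, χ₀', χ, χ', hz, rfl⟩ := hZ
  have hz' : ∀ j, z j ∈ Reg s₀ := fun j =>
    germ_reg f d hf hf0 b hb s₀ hne e he (i j) (P j) 1 le_rfl (z j) (hz j)
  exact Reg_denom s₀ _ ((Reg s₀).add_mem (sum_reg' z hz' χ₀ χ) ((Reg s₀).mul_mem
    (facT_d3 f d hd b hb s₀ hne hc e he) (sum_reg' z hz' χ₀' χ'))) hs₀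

section Tuple

variable {T : Type} [Fintype T]

theorem hom_prod (F : T → MvPolynomial (Fin 3) ℂ) (d : T → ℕ) (hF : ∀ t, (F t).IsHomogeneous (d t))
    (n : T → ℕ) : (∏ t, F t ^ n t).IsHomogeneous (dot n d) := by
  have h : (∏ t, F t ^ n t).IsHomogeneous (∑ t, n t * d t) :=
    IsHomogeneous.prod _ _ _ fun t _ => by
      have := (hF t).pow (n t)
      rwa [mul_comm] at this
  exact h

theorem hasDen_tuple (F : T → MvPolynomial (Fin 3) ℂ) {l : ℕ} (i : Fin l → Fin 3)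
    (P : Fin l → Fin 2 → ℂ) (z : Fin l → FractionRing (MvPolynomial T ℂ))
    (hz : ∀ j, PointZetaT (κ := Empty) facM 1 (fun t => deh (i j) (F t)) (fun _ => 1) (fun _ => 1)
      (P j) (fun k => k.elim) (z j)) (χ₀ : ℤ) (χ : Fin l → ℤ) :
    HasDen ((χ₀ : FractionRing (MvPolynomial T ℂ)) +
      ∑ j, (χ j : FractionRing (MvPolynomial T ℂ)) * z j) :=
  (hasDen_int χ₀).add (HasDen.sum _ _ fun j _ =>
    (hasDen_int (χ j)).mul (hasDen_germ (hz j) le_rfl le_rfl))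

theorem spec_tuple [Nonempty T] (F : T → MvPolynomial (Fin 3) ℂ) (d : T → ℕ)
    (hF : ∀ t, (F t).IsHomogeneous (d t)) (hF0 : ∀ t, F t ≠ 0) (n : T → ℕ) (hn : ∀ t, 0 < n t)
    (b : Polynomial ℂ) (hb : IsBFunction (∏ t, F t ^ n t) b) (s₀ : ℂ) (hne : b.eval s₀ ≠ 0)
    (i : Fin 3) (P : Fin 2 → ℂ) (z : FractionRing (MvPolynomial T ℂ))
    (hz : PointZetaT (κ := Empty) facM 1 (fun t => deh i (F t)) (fun _ => 1) (fun _ => 1)
      P (fun k => k.elim) z) : ∃ z' : RatFunc ℂ, Spec n z z' ∧ z' ∈ Reg s₀ := by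
  classical
  obtain ⟨z', h1, h2⟩ := spec_germ n hn hz le_rfl le_rfl
  refine ⟨z', h2, ?_⟩
  have ha : 1 ≤ dot n (fun _ : T => 1) := by
    obtain ⟨t⟩ := ‹Nonempty T›
    exact dot_pos n _ hn t le_rfl
  have e0 : dot n (0 : T → ℕ) = 0 := dot_zero n
  have hp : (∏ t, F t ^ n t) ≠ 0 := Finset.prod_ne_zero_iff.2 fun t _ => pow_ne_zero _ (hF0 t)
  refine germ_reg (∏ t, F t ^ n t) (dot n d) (hom_prod F d hF n) hp b hb s₀ hne 1 le_rfl i P
    (dot n fun _ => 1) ha z' ?_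
  rw [PointZeta, facT_one]
  have e1 : ∏ t, (Pool.Agent.W574.SM.translate P) (deh i (F t)) ^ n t =
      Pool.Agent.W574.SM.translate P (deh i (∏ t, F t ^ n t)) := by
    rw [map_prod, map_prod]
    exact Finset.prod_congr rfl fun t _ => by rw [map_pow, map_pow]
  rw [e0, e1] at h1
  exact h1

theorem lineReg_part [Nonempty T] (F : T → MvPolynomial (Fin 3) ℂ) (d : T → ℕ)
    (hF : ∀ t, (F t).IsHomogeneous (d t)) (hF0 : ∀ t, F t ≠ 0) {l : ℕ} (i : Fin l → Fin 3)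
    (P : Fin l → Fin 2 → ℂ) (z : Fin l → FractionRing (MvPolynomial T ℂ))
    (hz : ∀ j, PointZetaT (κ := Empty) facM 1 (fun t => deh (i j) (F t)) (fun _ => 1) (fun _ => 1)
      (P j) (fun k => k.elim) (z j)) (χ₀ : ℤ) (χ : Fin l → ℤ) (n : T → ℕ) (hn : ∀ t, 0 < n t)
    (b : Polynomial ℂ) (hb : IsBFunction (∏ t, F t ^ n t) b) (s₀ : ℂ) (hne : b.eval s₀ ≠ 0) :
    ∃ Z' : RatFunc ℂ, Spec n ((χ₀ : FractionRing (MvPolynomial T ℂ)) +
      ∑ j, (χ j : FractionRing (MvPolynomial T ℂ)) * z j) Z' ∧ Z' ∈ Reg s₀ := by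
  choose z' h1 h2 using fun j => spec_tuple F d hF hF0 n hn b hb s₀ hne (i j) (P j) (z j) (hz j)
  exact ⟨_, (spec_int n χ₀).add (Spec.sum _ _ _ fun j _ => (spec_int n (χ j)).mul (h1 j)),
    sum_reg' z' h2 χ₀ χ⟩

/-- **The polar locus of the zeta function of a tuple of ternary forms.** -/
theorem tuple_main (F : T → MvPolynomial (Fin 3) ℂ) (d : T → ℕ) (hd : ∃ t, 0 < d t)
    (hF : ∀ t, (F t).IsHomogeneous (d t)) (hF0 : ∀ t, F t ≠ 0)
    (Z : FractionRing (MvPolynomial T ℂ)) (hZ : TernTuple F d Z) (z : T → ℂ) (hz : z ∈ Polar Z)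
    (hc : ∑ t, (d t : ℂ) * z t + 3 ≠ 0 ∨ ∀ n : T → ℕ, (∀ t, 0 < n t) →
      WHForm (∏ t, F t ^ n t) (∑ t, n t * d t) ∧ NoField (∏ t, F t ^ n t)) :
    ∃ (M : T → ℕ) (ν : ℕ), (∃ t, M t ≠ 0) ∧ 1 ≤ ν ∧ ∑ t, (M t : ℂ) * z t + ν = 0 ∧
      ∃ q : MvPolynomial T ℂ, q ≠ 0 ∧ ∀ n : T → ℕ, (∀ t, 0 < n t) →
        eval (fun t => (n t : ℂ)) q ≠ 0 → ∀ b : Polynomial ℂ,
          IsBFunction (∏ t, F t ^ n t) b →
            b.eval (-(ν : ℂ) / ∑ t, (n t : ℂ) * (M t : ℂ)) = 0 := by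
  classical
  obtain ⟨t0, ht0⟩ := hd
  have : Nonempty T := ⟨t0⟩
  obtain ⟨l, i, P, w, χ₀, χ₀', χ, χ', hw, rfl⟩ := hZ
  set A : FractionRing (MvPolynomial T ℂ) := (χ₀ : FractionRing (MvPolynomial T ℂ)) +
      ∑ j, (χ j : FractionRing (MvPolynomial T ℂ)) * w j with hA
  set A' : FractionRing (MvPolynomial T ℂ) := (χ₀' : FractionRing (MvPolynomial T ℂ)) +
      ∑ j, (χ' j : FractionRing (MvPolynomial T ℂ)) * w j with hA'
  have hdA : HasDen A := hasDen_tuple F i P w hw χ₀ χ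
  have hdA' : HasDen A' := hasDen_tuple F i P w hw χ₀' χ'
  rcases hc with hc | hc
  · -- multiply by the linear form
    have hlin : algebraMap _ (FractionRing (MvPolynomial T ℂ)) (linT d 3) ≠ 0 := by
      rw [Ne, IsFractionRing.to_map_eq_zero_iff]
      exact linT_ne d 3 (by norm_num)
    have e1 : algebraMap _ (FractionRing (MvPolynomial T ℂ)) (linT d 3) * (A + facM d 3 * A') =
        algebraMap _ (FractionRing (MvPolynomial T ℂ)) (linT d 3) * A + A' := by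
      rw [facM]
      field_simp
    have hz1 : z ∈ Polar (algebraMap _ (FractionRing (MvPolynomial T ℂ)) (linT d 3) * A + A') := by
      intro D E hDE
      have h1 := hz (D * linT d 3) E (by rw [map_mul, mul_assoc, e1, hDE])
      rw [map_mul, eval_linT] at h1
      refine (mul_eq_zero.1 h1).resolve_right ?_
      intro h2
      apply hc
      rw [ldot] at h2
      push_cast at h2
      exact h2
    have hden : HasDen (algebraMap _ (FractionRing (MvPolynomial T ℂ)) (linT d 3) * A + A') := by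
      refine HasDen.add (HasDen.mul ?_ hdA) hdA'
      exact ⟨0, fun p hp => absurd hp (Multiset.notMem_zero p), linT d 3, by simp [lins]⟩
    refine polar_of_lines (B := fun n b => IsBFunction (∏ t, F t ^ n t) b) hden ?_ z hz1
    intro n hn b hb s₀ hne
    obtain ⟨Z1, h1, h1'⟩ := lineReg_part F d hF hF0 i P w hw χ₀ χ n hn b hb s₀ hne
    obtain ⟨Z2, h2, h2'⟩ := lineReg_part F d hF hF0 i P w hw χ₀' χ' n hn b hb s₀ hne
    refine ⟨algebraMap _ (RatFunc ℂ) (evn n (linT d 3)) * Z1 + Z2, Spec.add (Spec.mul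
      ⟨linT d 3, 1, by rw [map_one]; exact one_ne_zero, by simp, by simp⟩ h1) h2,
      (Reg s₀).add_mem ((Reg s₀).mul_mem ⟨evn n (linT d 3), 1, by simp, by simp⟩ h1') h2'⟩
  · refine polar_of_lines (B := fun n b => IsBFunction (∏ t, F t ^ n t) b)
      (hdA.add ((hasDen_fac d 3 (by norm_num)).mul hdA')) ?_ z hz
    intro n hn b hb s₀ hne
    obtain ⟨Z1, h1, h1'⟩ := lineReg_part F d hF hF0 i P w hw χ₀ χ n hn b hb s₀ hne
    obtain ⟨Z2, h2, h2'⟩ := lineReg_part F d hF hF0 i P w hw χ₀' χ' n hn b hb s₀ hne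
    have hdn : 0 < dot n d := dot_pos n d hn t0 ht0
    have h3 := facT_d3 (∏ t, F t ^ n t) (dot n d) hdn b hb s₀ hne (Or.inr (hc n hn)) 1 le_rfl
    rw [facT_one] at h3
    exact ⟨Z1 + fac (dot n d) 3 * Z2, h1.add ((spec_fac n d 3 (by norm_num)).mul h2),
      (Reg s₀).add_mem h1' ((Reg s₀).mul_mem h3 h2')⟩

end Tuple

end Pool.Agent.U184
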