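import Pool.Agent.U184.TwTorDefs
import Pool.Agent.U184.Tw2
import Pool.Agent.U184.Tor4
import Pool.Agent.U184.LF3

set_option autoImplicit false
set_option linter.unusedSectionVars false

/-! # The twisted zeta function of a semi-invariant ternary form is regular at `-3/d` -/

namespace Pool.Agent.U184

open MvPolynomial Pool.Agent.W574.SM Pool.Agent.W574.CN Pool.Agent.U334.TC
open Pool.Agent.H628R4.TP (IsBFunction)
open Pool.Agent.N103 (facT PointZeta GermZeta HasType typeFactor fc zdata_tw)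

/-! ## Conversion -/

theorem one_split {i : Fin 2} {m : ℕ} {A : MvPolynomial (Fin 2) ℂ} (h : 1 = X i ^ m * A) :
    m = 0 ∧ A = 1 := by
  have hm : m = 0 := by
    by_contra hm
    have h1 := congrArg constantCoeff h
    rw [map_one, map_mul, map_pow, constantCoeff_X, zero_pow hm, zero_mul] at h1
    exact one_ne_zero h1
  subst hm
  refine ⟨rfl, ?_⟩
  rw [h, pow_zero, one_mul]

theorem type_false {k : Option Empty → MvPolynomial (Fin 2) ℂ} (hk : constantCoeff (k none) ≠ 0)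
    {t : Bool} (ht : HasType k t) : t = false := by
  cases t with
  | false => rfl
  | true => exact absurd ht.1 hk

theorem germ_to_locF {Φ : ℕ → ℕ → RatFunc ℂ} {h : MvPolynomial (Fin 2) ℂ}
    {g : Option Empty → MvPolynomial (Fin 2) ℂ} {a₀ n₀ a₁ n₁ : ℕ} {Z : RatFunc ℂ}
    (hz : GermZeta Φ 1 1 h g a₀ n₀ a₁ n₁ Z) : g none = 1 →
      LocF Φ (fun _ : Unit => h) a₀ n₀ a₁ n₁ Z := by
  induction hz with
  | unit h g a₀ n₀ a₁ n₁ hh t ht =>
    intro hg
    rw [type_false (by rw [hg, map_one]; exact one_ne_zero) ht, typeFactor, mul_one]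
    exact LocF.unit _ _ _ _ _ () hh
  | curveV h g a₀ n₀ mh mg hm q kh k hh hg h0 h1 hkh t ht =>
    intro hg1
    have e1 := hg none
    rw [hg1] at e1
    have hmg : mg = 0 := by
      by_contra hm0
      have h2 := congrArg constantCoeff e1
      rw [map_one, map_mul, map_pow, h0, zero_pow hm0, zero_mul] at h2
      exact one_ne_zero h2
    subst hmg
    rw [pow_zero, one_mul] at e1
    rw [type_false (by rw [← e1, map_one]; exact one_ne_zero) ht, typeFactor, mul_one, mul_zero,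
      add_zero]
    exact LocF.curveV _ _ _ mh (by omega) q (fun _ => kh) (fun _ => hh) h0 h1 () hkh
  | curveU h g a₁ n₁ mh mg hm q kh k hh hg h0 h1 hkh t ht =>
    intro hg1
    have e1 := hg none
    rw [hg1] at e1
    have hmg : mg = 0 := by
      by_contra hm0
      have h2 := congrArg constantCoeff e1
      rw [map_one, map_mul, map_pow, h0, zero_pow hm0, zero_mul] at h2
      exact one_ne_zero h2
    subst hmg
    rw [pow_zero, one_mul] at e1
    rw [type_false (by rw [← e1, map_one]; exact one_ne_zero) ht, typeFactor, mul_one, mul_zero,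
      add_zero]
    exact LocF.curveU _ _ _ mh (by omega) q (fun _ => kh) (fun _ => hh) h0 h1 () hkh
  | blowup h g a₀ n₀ a₁ n₁ mh mg hm hc gc hI gI hhc hgc hhI hgI S h0S t hS Zc ZI h0 hcS hZI ih0
      ihc ihI =>
    intro hg1
    have e0 : ∀ c, gc c none = 1 ∧ mg = 0 := by
      intro c
      have e1 := hgc c none
      rw [hg1, map_one] at e1
      exact ⟨(one_split e1).2, (one_split e1).1⟩
    have eI : gI none = 1 := by
      have e1 := hgI none
      rw [hg1, map_one] at e1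
      exact (one_split e1).2
    obtain ⟨c₁, hc₁⟩ := Infinite.exists_notMem_finset S
    have ht : t = false := type_false (by rw [(e0 c₁).1, map_one]; exact one_ne_zero) (hS c₁ hc₁).2
    have hmg : mg = 0 := (e0 0).2
    subst hmg
    rw [ht, typeFactor, mul_one]
    have hadd : mh + 1 * 0 = mh := by ring
    rw [hadd] at ih0 ihc ihI ⊢
    exact LocF.blowup (fun _ : Unit => h) a₀ n₀ a₁ n₁ mh (by omega) (fun c _ => hc c) (fun _ => hI)
      (fun c _ => hhc c) (fun _ => hhI) S h0S (fun c hc => ⟨(), (hS c hc).1⟩) Zc ZI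
      (ih0 (e0 0).1) (fun c hc hc0 => ihc c hc hc0 (e0 c).1) (ihI eI)

theorem tw_locF {e : ℕ} {g : MvPolynomial (Fin 2) ℂ} {P : Fin 2 → ℂ} {z : RatFunc ℂ}
    (h : TwPoint e g P z) :
    LocF (facT e) (fun _ : Unit => Pool.Agent.W574.SM.translate P g) 0 1 0 1 z := by
  refine germ_to_locF h ?_
  simp [fc]

theorem tw_locF0 {e : ℕ} {g : MvPolynomial (Fin 2) ℂ} {z : RatFunc ℂ}
    (h : TwPoint e g ![0, 0] z) : LocF (facT e) (fun _ : Unit => g) 0 1 0 1 z := by
  have h1 := tw_locF h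
  rwa [translate_zero] at h1

/-! ## Values -/

theorem lf_gen (e : ℕ) (s : Finset ℂ) (mu : ℂ → ℕ) (hs : (0 : ℂ) ∉ s) (hmu : ∀ t ∈ s, 1 ≤ mu t)
    (κ : ℂ) (hκ : κ ≠ 0) (p r : ℕ) (hp : 1 ≤ p) (hr : 1 ≤ r) (hcop : Nat.Coprime p r) (i j : ℕ) :
    LocF (facT e) (fun _ : Unit => C κ * (X 0 ^ i * X 1 ^ j) * QQ s mu p r) 0 1 0 1
      (VT e s mu p r i 1 j 1) := by
  rcases s.eq_empty_or_nonempty with rfl | hne
  · have h1 := lf_mono (fdata_T e) i j 0 1 0 1 (C κ) (by rwa [constantCoeff_C])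
      (Or.inr ⟨rfl, rfl⟩) (Or.inr ⟨rfl, rfl⟩)
    have h2 := val_mono i j p r hp hr
    simp only [zero_add] at h1
    have h3 : VT e ∅ mu p r i 1 j 1 = facT e i 1 * facT e j 1 := by
      unfold VT
      simp only [RRF, Finset.sum_empty, mul_zero, add_zero, mul_one, ite_self]
      unfold facT
      by_cases h4 : e ∣ i
      · by_cases h5 : e ∣ j
        · rw [if_pos ⟨h4, h5⟩, if_pos ⟨h5, h4⟩, if_pos h4, if_pos h5, h2]
        · rw [if_neg (fun h => h5 h.2), if_neg (fun h => h5 h.1), if_neg h5]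
          ring
      · rw [if_neg (fun h => h4 h.1), if_neg (fun h => h4 h.2), if_neg h4]
        ring
    rw [h3]
    simp only [QQ, Finset.prod_empty, mul_one]
    convert h1 using 2
    ring
  · have h1 := lf_main e s mu hs hmu hne κ hκ (p + r) p r le_rfl hp hr hcop i j 0 1 0 1 le_rfl le_rfl
      (Or.inr ⟨rfl, rfl⟩) (Or.inr ⟨rfl, rfl⟩)
    simpa only [zero_add] using h1

/-- the identity for isolated fixed points -/
theorem iso_id2 {F : Type} [Field F] (A B E D1 D2 I X p q : F) (hA : A ≠ 0) (hB : B ≠ 0)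
    (hE : E ≠ 0) (h1 : D1 ≠ 0) (h2 : D2 ≠ 0) (e1 : D1 = q * A - p * B + p * E)
    (e2 : D2 = p * B - q * A + q * E) :
    (1 / D2 * (q * (I * (1 / B)) + X) +
      1 / D1 * (p * (I * (1 / A)) + X) + I * (1 / A * (1 / B))) * (1 / E) =
    ((p + q) * (1 / D2 * (q * (I * (1 / B)) + X)) + p * (I * (1 / A * (1 / B)))) *
      (1 / D1) := by
  set z0 := 1 / D2 * (q * (I * (1 / B)) + X) with hz0
  set z1 := 1 / D1 * (p * (I * (1 / A)) + X) with hz1
  have k0 : D2 * z0 = q * (I * (1 / B)) + X := by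
    rw [hz0]; field_simp
  have k1 : D1 * z1 = p * (I * (1 / A)) + X := by
    rw [hz1]; field_simp
  have kA : 1 / A * A = 1 := by field_simp
  have kB : 1 / B * B = 1 := by field_simp
  have key : (z0 + z1 + I * (1 / A * (1 / B))) * D1 =
      E * ((p + q) * z0 + p * (I * (1 / A * (1 / B)))) := by
    linear_combination k1 - k0 + z0 * (e1 + e2) + (I * (1 / A * (1 / B))) * e1 +
      q * (I * (1 / B)) * kA - p * (I * (1 / A)) * kB
  rw [mul_one_div (z0 + z1 + I * (1 / A * (1 / B))) E,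
    mul_one_div ((p + q) * z0 + p * (I * (1 / A * (1 / B)))) D1, div_eq_div_iff hE h1, key]
  ring

theorem val_isoT (e : ℕ) (s : Finset ℂ) (mu : ℂ → ℕ) (a b c p q : ℕ) (hp : 1 ≤ p) (hq : 1 ≤ q)
    (hd : e ∣ a + b + (c + (p + q) * ∑ t ∈ s, mu t)) :
    (VT e s mu q (p + q) b 1 c 1 + VT e s mu p (p + q) a 1 c 1 + facT e a 1 * facT e b 1) *
        fac (a + b + (c + (p + q) * ∑ t ∈ s, mu t)) 3 =
    ((p + q : ℕ) * VT e s mu q (p + q) b 1 c 1 + p * (facT e a 1 * facT e b 1)) *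
        fac ((p + q) * a + p * c + p * (p + q) * ∑ t ∈ s, mu t) (p + q + p) := by
  set K := ∑ t ∈ s, mu t with hK
  -- the conditions
  have c1 : (e ∣ b ∧ e ∣ c + (p + q) * K) ↔ (e ∣ a ∧ e ∣ b) := by
    constructor
    · rintro ⟨h1, h2⟩
      refine ⟨?_, h1⟩
      have h3 : a + b + (c + (p + q) * K) = a + (b + (c + (p + q) * K)) := by ring
      rw [h3] at hd
      exact (Nat.dvd_add_left (dvd_add h1 h2)).1 hd
    · rintro ⟨h1, h2⟩
      exact ⟨h2, (Nat.dvd_add_right (dvd_add h1 h2)).1 hd⟩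
  have c1' : (e ∣ a ∧ e ∣ c + (p + q) * K) ↔ (e ∣ a ∧ e ∣ b) := by
    constructor
    · rintro ⟨h1, h2⟩
      refine ⟨h1, ?_⟩
      have h3 : a + b + (c + (p + q) * K) = b + (a + (c + (p + q) * K)) := by ring
      rw [h3] at hd
      exact (Nat.dvd_add_left (dvd_add h1 h2)).1 hd
    · rintro ⟨h1, h2⟩
      exact ⟨h1, (Nat.dvd_add_right (dvd_add h1 h2)).1 hd⟩
  have c2 : (e ∣ c ∧ e ∣ b + q * K) ↔ (e ∣ c ∧ e ∣ a + p * K) := by
    refine and_congr_right fun h1 => ?_
    have h3 : a + b + (c + (p + q) * K) = c + ((a + p * K) + (b + q * K)) := by ring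
    rw [h3, Nat.dvd_add_right h1] at hd
    exact ⟨fun h => (Nat.dvd_add_left h).1 hd, fun h => (Nat.dvd_add_right h).1 hd⟩
  have c3 : (e ∣ (p + q) * b + q * c + q * (p + q) * K) ↔
      (e ∣ (p + q) * a + p * c + p * (p + q) * K) := by
    have h3 : e ∣ ((p + q) * a + p * c + p * (p + q) * K) +
        ((p + q) * b + q * c + q * (p + q) * K) := by
      have h4 : ((p + q) * a + p * c + p * (p + q) * K) +
        ((p + q) * b + q * c + q * (p + q) * K) = (p + q) * (a + b + (c + (p + q) * K)) := by ring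
      rw [h4]
      exact Dvd.dvd.mul_left hd _
    exact ⟨fun h => (Nat.dvd_add_left h).1 h3, fun h => (Nat.dvd_add_right h).1 h3⟩
  unfold VT
  simp only [c1, c1', c2, c3, ← hK, mul_one]
  set I : RatFunc ℂ := if e ∣ a ∧ e ∣ b then 1 else 0 with hI
  have i1 : (if e ∣ a ∧ e ∣ b then (q : RatFunc ℂ) * fac b 1 else 0) = q * (I * fac b 1) := by
    rw [hI]; split_ifs <;> ring
  have i2 : (if e ∣ a ∧ e ∣ b then (p : RatFunc ℂ) * fac a 1 else 0) = p * (I * fac a 1) := by
    rw [hI]; split_ifs <;> ring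
  have i3 : facT e a 1 * facT e b 1 = I * (fac a 1 * fac b 1) := by
    rw [hI]
    unfold facT
    by_cases h4 : e ∣ a
    · by_cases h5 : e ∣ b
      · rw [if_pos h4, if_pos h5, if_pos ⟨h4, h5⟩]; ring
      · rw [if_pos h4, if_neg h5, if_neg (fun h => h5 h.2)]; ring
    · rw [if_neg h4, if_neg (fun h : e ∣ a ∧ e ∣ b => h4 h.1)]; ring
  rw [i1, i2, i3]
  set X : RatFunc ℂ := (if e ∣ c ∧ e ∣ a + p * K then ((p + q : ℕ) : RatFunc ℂ) * fac c 1 else 0) +
    (if e ∣ (p + q) * a + p * c + p * (p + q) * K then RRF (facT e) s mu else 0) with hX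
  have hA := dn_ne a 1 le_rfl
  have hB := dn_ne b 1 le_rfl
  have hE := dn_ne (a + b + (c + (p + q) * K)) 3 (by omega)
  have h1 := dn_ne ((p + q) * a + p * c + p * (p + q) * K) (p + q + p) (by omega)
  have h2 := dn_ne ((p + q) * b + q * c + q * (p + q) * K) (p + q + q) (by omega)
  have h := iso_id2 (F := RatFunc ℂ) (((1 : ℕ) : RatFunc ℂ) + (a : RatFunc ℂ) * RatFunc.X)
    (((1 : ℕ) : RatFunc ℂ) + (b : RatFunc ℂ) * RatFunc.X)
    (((3 : ℕ) : RatFunc ℂ) + ((a + b + (c + (p + q) * K) : ℕ) : RatFunc ℂ) * RatFunc.X)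
    (((p + q + p : ℕ) : RatFunc ℂ) +
      (((p + q) * a + p * c + p * (p + q) * K : ℕ) : RatFunc ℂ) * RatFunc.X)
    (((p + q + q : ℕ) : RatFunc ℂ) +
      (((p + q) * b + q * c + q * (p + q) * K : ℕ) : RatFunc ℂ) * RatFunc.X) I X p q hA hB hE h1 h2
    (by push_cast; ring) (by push_cast; ring)
  have hc : ((p + q : ℕ) : RatFunc ℂ) = (p : RatFunc ℂ) + q := by push_cast; ring
  rw [add_assoc (q * (I * fac b 1)), add_assoc (p * (I * fac a 1)), ← hX]
  rw [hc]
  unfold fac at h ⊢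
  exact h

section main

variable {g : MvPolynomial (Fin 3) ℂ} {d : ℕ} {κ : ℂ} {a b c p q : ℕ} {s : Finset ℂ} {mu : ℂ → ℕ}

/-- isolated fixed points -/
theorem iso_regT (h : Shape g d κ a b c p q s mu) (hd : 0 < d) (hp : 1 ≤ p) (hq : 1 ≤ q)
    (hcop : Nat.Coprime p q) (hg : g.IsHomogeneous d) (hg0 : g ≠ 0) (e : ℕ) (he : 1 ≤ e)
    (W : RatFunc ℂ) (hW : IsolatedLocTw e g W) (bb : Polynomial ℂ) (hb : IsBFunction g bb)
    (hne : bb.eval (-3 / (d : ℂ)) ≠ 0) : facT e d 3 * W ∈ Reg (-3 / (d : ℂ)) := by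
  obtain ⟨z, hz, hWe⟩ := hW ![q, -p, 0] (q * a - p * b) (by
    intro i j hij
    fin_cases i <;> fin_cases j <;> simp at hij ⊢ <;> omega) (by
    intro m hm
    rw [Fin.sum_univ_three]
    exact h.wt m hm)
  by_cases hed : e ∣ d
  swap
  · have h0 : facT e d 3 = 0 := by
      unfold facT
      rw [if_neg hed]
    rw [h0, zero_mul]
    exact (Reg _).zero_mem
  have hfd : facT e d 3 = fac d 3 := by
    unfold facT
    rw [if_pos hed]
  have hr : 1 ≤ p + q := by omega
  have v0 : z 0 = VT e s mu q (p + q) b 1 c 1 := by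
    have h1 := lf_gen e s mu h.hs h.hmu κ h.hκ q (p + q) hq hr
      (by rw [Nat.coprime_add_self_right]; exact hcop.symm) b c
    have h2 := tw_locF0 (hz 0)
    rw [h.deh0] at h2
    exact LocF.unique (fdata_T e) h1 le_rfl le_rfl _ h2
  have v1 : z 1 = VT e s mu p (p + q) a 1 c 1 := by
    have h1 := lf_gen e s mu h.hs h.hmu κ h.hκ p (p + q) hp hr
      (by rw [Nat.coprime_self_add_right]; exact hcop) a c
    have h2 := tw_locF0 (hz 1)
    rw [h.deh1] at h2
    exact LocF.unique (fdata_T e) h1 le_rfl le_rfl _ h2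
  have v2 : z 2 = facT e a 1 * facT e b 1 := by
    have h1 := lf_mono (fdata_T e) a b 0 1 0 1 (C κ * ∏ t ∈ s, (X 0 ^ p * X 1 ^ q - C t) ^ mu t) (by
      rw [map_mul, constantCoeff_C]
      refine mul_ne_zero h.hκ (cc_prod _ fun t ht => ?_)
      have ht0 : t ≠ 0 := fun h0 => h.hs (h0 ▸ ht)
      simp [zero_pow (by omega : p ≠ 0), ht0]) (Or.inr ⟨rfl, rfl⟩) (Or.inr ⟨rfl, rfl⟩)
    have h2 := tw_locF0 (hz 2)
    rw [h.deh2] at h2
    have h3 := LocF.unique (fdata_T e) h1 le_rfl le_rfl _ h2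
    rwa [zero_add, zero_add] at h3
  have r0 : z 0 ∈ Reg (-3 / (d : ℂ)) :=
    germ_reg g d hg hg0 bb hb _ hne e he 0 ![0, 0] 1 le_rfl _ (hz 0)
  have r2 : z 2 ∈ Reg (-3 / (d : ℂ)) :=
    germ_reg g d hg hg0 bb hb _ hne e he 2 ![0, 0] 1 le_rfl _ (hz 2)
  have hval := val_isoT e s mu a b c p q hp hq (by rw [h.deg]; exact hed)
  rw [h.deg, ← v0, ← v1, ← v2] at hval
  have hZ' : facT e d 3 * W = (((p + q : ℕ) : RatFunc ℂ) * z 0 + (p : RatFunc ℂ) * z 2) *
      fac ((p + q) * a + p * c + p * (p + q) * ∑ t ∈ s, mu t) (p + q + p) := by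
    rw [hWe, Fin.sum_univ_three, hfd, mul_comm]
    exact hval
  rw [hZ']
  refine (Reg _).mul_mem ((Reg _).add_mem ((Reg _).mul_mem (natCast_mem _ _) r0)
    ((Reg _).mul_mem (natCast_mem _ _) r2)) (fac_mem _ _ _ ?_)
  intro h0
  apply h.char
  have hdc : (d : ℂ) ≠ 0 := Nat.cast_ne_zero.2 hd.ne'
  set K := ∑ t ∈ s, mu t with hK
  have hdeg : (a : ℂ) + b + (c + (p + q) * K) = d := by
    have := h.deg
    exact_mod_cast this
  have h1 : (d : ℂ) * (q - p) = 3 * (q * a - p * b) := by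
    rw [Nat.cast_add, Nat.cast_add, Nat.cast_add, Nat.cast_add, Nat.cast_mul, Nat.cast_mul,
      Nat.cast_mul, Nat.cast_mul, Nat.cast_add] at h0
    field_simp at h0
    have h2 : ((p : ℂ) + q + p) * d = 3 * ((p + q) * a + p * c + p * (p + q) * K) := by
      linear_combination h0
    linear_combination h2 + 3 * p * hdeg
  exact_mod_cast h1

/-- a fixed line -/
theorem line_regT (h : Shape g d κ a b c 0 1 s mu) (hd : 0 < d) (hg : g.IsHomogeneous d)
    (hg0 : g ≠ 0) (e : ℕ) (he : 1 ≤ e) (W : RatFunc ℂ) (hW : LineLocTw e g W)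
    (bb : Polynomial ℂ) (hb : IsBFunction g bb) (hne : bb.eval (-3 / (d : ℂ)) ≠ 0) :
    facT e d 3 * W ∈ Reg (-3 / (d : ℂ)) := by
  classical
  obtain ⟨z₀, z₁, S, w, hz0', hz1', hw', hS, hWe⟩ := hW a
    (C κ * (X 0 ^ b * X 1 ^ c) * ∏ t ∈ s, (X 0 - C t * X 1) ^ mu t) (by
      rw [h.eq, map_mul, map_mul, map_mul, map_pow, map_pow, rename_X, rename_X, rename_C, map_prod]
      have e : ∏ t ∈ s, rename Fin.succ ((X 0 - C t * X 1 : MvPolynomial (Fin 2) ℂ) ^ mu t) =
          ∏ t ∈ s, (X 0 ^ 0 * X 1 ^ 1 - C t * X 2 ^ (0 + 1) : MvPolynomial (Fin 3) ℂ) ^ mu t := by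
        refine Finset.prod_congr rfl fun t _ => ?_
        rw [map_pow, map_sub, map_mul, rename_X, rename_X, rename_C, pow_zero, one_mul, pow_one,
          zero_add, pow_one]
        rfl
      rw [e]
      have e1 : (Fin.succ (0 : Fin 2)) = (1 : Fin 3) := rfl
      have e2 : (Fin.succ (1 : Fin 2)) = (2 : Fin 3) := rfl
      rw [e1, e2]
      ring)
  have hΦ := fdata_T e
  have hz0 := tw_locF0 hz0'
  have hz1 := tw_locF0 hz1'
  have hw := fun x hx => tw_locF (hw' x hx)
  set K := ∑ t ∈ s, mu t with hK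
  have hKe : VT e s mu 1 1 b 1 c 1 = facT e (b + c + K) 2 * (facT e b 1 + facT e c 1 +
      RRF (facT e) s mu) := (vt_base e s mu b 1 c 1).symm
  have v0 : z₀ = facT e (b + c + K) 2 * (facT e b 1 + facT e c 1 + RRF (facT e) s mu) := by
    have h1 := lf_gen e s mu h.hs h.hmu κ h.hκ 1 1 le_rfl le_rfl (Nat.coprime_one_left 1) b c
    rw [h.deh0] at hz0
    have h2 := LocF.unique hΦ h1 le_rfl le_rfl _ hz0
    rw [h2, hKe]
  have v1 : z₁ = facT e a 1 * facT e c 1 := by
    have h1 := lf_mono hΦ a c 0 1 0 1 (C κ * QQ s mu 0 1) (by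
      rw [map_mul, constantCoeff_C, QQ]
      refine mul_ne_zero h.hκ (cc_prod _ fun t ht => ?_)
      simp) (Or.inr ⟨rfl, rfl⟩) (Or.inr ⟨rfl, rfl⟩)
    rw [h.deh1] at hz1
    have e' : (fun _ : Unit => C κ * (X 0 ^ a * X 1 ^ c) * QQ s mu 0 (0 + 1)) =
        fun _ : Unit => X 0 ^ a * X 1 ^ c * (C κ * QQ s mu 0 1) := by
      funext _
      rw [zero_add]
      ring
    rw [e'] at hz1
    have h3 := LocF.unique hΦ h1 le_rfl le_rfl _ hz1
    rwa [zero_add, zero_add] at h3
  -- the points of the line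
  set M : ℂ → ℕ := fun x => if x = 0 then b else if x ∈ s then mu x else 0 with hM
  have vw : ∀ x ∈ S, w x = facT e a 1 * facT e (M x) 1 := by
    intro x hx
    have h2 := hw x hx
    have h3 : Pool.Agent.W574.SM.translate ![0, x] (deh 2 g) = X 0 ^ a * (X 1 + C x) ^ b *
        (C κ * ∏ t ∈ s, (X 1 + C x - C t) ^ mu t) := by
      have t0 : Pool.Agent.W574.SM.translate ![0, x] (X 0) = X 0 := by
        rw [Pool.Agent.W574.SM.translate, aeval_X]; simp
      have t1 : Pool.Agent.W574.SM.translate ![0, x] (X 1) = X 1 + C x := by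
        rw [Pool.Agent.W574.SM.translate, aeval_X]; simp
      have t2 : ∀ y : ℂ, Pool.Agent.W574.SM.translate ![0, x] (C y) = C y := by
        intro y
        rw [algHom_C, algebraMap_eq]
      have t3 : ∏ t ∈ s, Pool.Agent.W574.SM.translate ![0, x]
          ((X 0 ^ 0 * X 1 ^ 1 - C t : MvPolynomial (Fin 2) ℂ) ^ mu t) =
          ∏ t ∈ s, (X 1 + C x - C t : MvPolynomial (Fin 2) ℂ) ^ mu t := by
        refine Finset.prod_congr rfl fun t _ => ?_
        rw [map_pow, map_sub, map_mul, map_pow, map_pow, t0, t1, t2, pow_zero, one_mul, pow_one]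
      rw [h.deh2, map_mul, map_mul, map_mul, map_prod, map_pow, map_pow, t0, t1, t2, t3]
    rw [h3] at h2
    by_cases he0 : x = 0
    · subst he0
      have h1 := lf_mono hΦ a b 0 1 0 1 (C κ * ∏ t ∈ s, (X 1 + C 0 - C t) ^ mu t) (by
        rw [map_mul, constantCoeff_C]
        refine mul_ne_zero h.hκ (cc_prod _ fun t ht => ?_)
        have ht0 : t ≠ 0 := fun h0 => h.hs (h0 ▸ ht)
        simp [ht0]) (Or.inr ⟨rfl, rfl⟩) (Or.inr ⟨rfl, rfl⟩)
      rw [C_0, add_zero] at h2
      simp only [C_0, add_zero] at h1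
      have h4 := LocF.unique hΦ h1 le_rfl le_rfl _ (by simpa only [C_0, add_zero] using h2)
      rw [h4, hM]
      simp
    · by_cases hes : x ∈ s
      · have h1 := lf_mono hΦ a (mu x) 0 1 0 1
          (C κ * (X 1 + C x) ^ b * ∏ t ∈ s.erase x, (X 1 + C x - C t) ^ mu t) (by
          rw [map_mul, map_mul, map_pow, map_add, constantCoeff_C, constantCoeff_C,
            constantCoeff_X, zero_add]
          refine mul_ne_zero (mul_ne_zero h.hκ (pow_ne_zero _ he0)) (cc_prod _ fun t ht => ?_)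
          rw [map_sub, map_add, constantCoeff_C, constantCoeff_C, constantCoeff_X, zero_add]
          exact sub_ne_zero.2 (Finset.ne_of_mem_erase ht).symm)
          (Or.inr ⟨rfl, rfl⟩) (Or.inr ⟨rfl, rfl⟩)
        have e4 : (fun _ : Unit => X 0 ^ a * (X 1 + C x) ^ b *
            (C κ * ∏ t ∈ s, (X 1 + C x - C t : MvPolynomial (Fin 2) ℂ) ^ mu t)) =
            fun _ : Unit => X 0 ^ a * X 1 ^ mu x *
              (C κ * (X 1 + C x) ^ b * ∏ t ∈ s.erase x, (X 1 + C x - C t) ^ mu t) := by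
          funext _
          rw [← Finset.mul_prod_erase s _ hes, add_sub_cancel_right]
          ring
        rw [e4] at h2
        have h4 := LocF.unique hΦ h1 le_rfl le_rfl _ h2
        rw [h4, hM]
        simp [he0, hes]
      · have h1 := lf_mono hΦ a 0 0 1 0 1
          ((X 1 + C x) ^ b * (C κ * ∏ t ∈ s, (X 1 + C x - C t) ^ mu t)) (by
          rw [map_mul, map_mul, map_pow, map_add, constantCoeff_C, constantCoeff_C,
            constantCoeff_X, zero_add]
          refine mul_ne_zero (pow_ne_zero _ he0) (mul_ne_zero h.hκ (cc_prod _ fun t ht => ?_))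
          rw [map_sub, map_add, constantCoeff_C, constantCoeff_C, constantCoeff_X, zero_add]
          exact sub_ne_zero.2 (fun h0 => hes (h0 ▸ ht)))
          (Or.inr ⟨rfl, rfl⟩) (Or.inr ⟨rfl, rfl⟩)
        have e4 : (fun _ : Unit => X 0 ^ a * (X 1 + C x) ^ b *
            (C κ * ∏ t ∈ s, (X 1 + C x - C t : MvPolynomial (Fin 2) ℂ) ^ mu t)) =
            fun _ : Unit => X 0 ^ a * X 1 ^ 0 *
              ((X 1 + C x) ^ b * (C κ * ∏ t ∈ s, (X 1 + C x - C t) ^ mu t)) := by
          funext _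
          ring
        rw [e4] at h2
        have h4 := LocF.unique hΦ h1 le_rfl le_rfl _ h2
        rw [h4, hM]
        simp [he0, hes]
  -- the sum over the line
  have hsum : ∑ x ∈ S, w x + (1 - (S.card : RatFunc ℂ)) * facT e a 1 =
      facT e a 1 * (facT e b 1 + RRF (facT e) s mu) := by
    have e1 : ∑ x ∈ S, w x = ∑ x ∈ S, facT e a 1 * (facT e (M x) 1 - 1) + S.card * facT e a 1 := by
      rw [← nsmul_eq_mul, ← Finset.sum_const, ← Finset.sum_add_distrib]
      refine Finset.sum_congr rfl fun x hx => ?_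
      rw [vw x hx]
      ring
    have e2 : ∑ x ∈ S, (facT e (M x) 1 - 1) = ∑ x ∈ insert 0 s, (facT e (M x) 1 - 1) := by
      have e3 : ∑ x ∈ S, (facT e (M x) 1 - 1) = ∑ x ∈ S ∪ insert 0 s, (facT e (M x) 1 - 1) := by
        refine Finset.sum_subset Finset.subset_union_left fun x hx hxS => ?_
        have he' : x ∈ insert 0 s := (Finset.mem_union.1 hx).resolve_left hxS
        have h5 := hS x hxS
        have h6 : M x = 0 := by
          rcases Finset.mem_insert.1 he' with rfl | hes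
          · simp only [hM, if_true]
            by_contra hb0
            apply h5
            simp [zero_pow hb0]
          · exfalso
            apply h5
            rw [map_mul, map_prod, Finset.prod_eq_zero hes, mul_zero]
            have := h.hmu x hes
            simp [zero_pow (by omega : mu x ≠ 0)]
        rw [h6, hΦ.one, sub_self]
      have e4 : ∑ x ∈ insert 0 s, (facT e (M x) 1 - 1) =
          ∑ x ∈ S ∪ insert 0 s, (facT e (M x) 1 - 1) := by
        refine Finset.sum_subset Finset.subset_union_right fun x hx hxs => ?_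
        rw [Finset.mem_insert, not_or] at hxs
        have h6 : M x = 0 := by simp only [hM, if_neg hxs.1, if_neg hxs.2]
        rw [h6, hΦ.one, sub_self]
      rw [e3, e4]
    have e5 : ∑ x ∈ insert 0 s, (facT e (M x) 1 - 1) = facT e b 1 - 1 + RRF (facT e) s mu := by
      rw [Finset.sum_insert h.hs, RRF]
      congr 1
      · simp [hM]
      · refine Finset.sum_congr rfl fun x hx => ?_
        have he0 : x ≠ 0 := fun h0 => h.hs (h0 ▸ hx)
        simp only [hM, if_neg he0, if_pos hx]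
    rw [e1, ← Finset.mul_sum, e2, e5]
    ring
  have hdegN : a + (b + c + K) = d := by
    have := h.deg
    rw [zero_add, one_mul] at this
    omega
  have hfa : facT e a 1 * facT e (b + c + K) 2 = facT e d 3 * (facT e a 1 + facT e (b + c + K) 2) := by
    have h1 := hΦ.add a 1 (b + c + K) 2 le_rfl (by omega)
    rw [hdegN] at h1
    exact h1.symm
  have hfin : facT e d 3 * W = z₀ * facT e a 1 := by
    rw [hWe]
    have h7 : z₀ + z₁ + ∑ x ∈ S, w x + (1 - (S.card : RatFunc ℂ)) * facT e a 1 =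
        (facT e (b + c + K) 2 + facT e a 1) * (facT e b 1 + facT e c 1 + RRF (facT e) s mu) := by
      rw [add_assoc (z₀ + z₁), hsum, v0, v1]
      ring
    rw [h7, v0]
    linear_combination -(facT e b 1 + facT e c 1 + RRF (facT e) s mu) * hfa
  rw [hfin]
  refine (Reg _).mul_mem (germ_reg g d hg hg0 bb hb _ hne e he 0 ![0, 0] 1 le_rfl _ hz0') ?_
  refine (zdata_tw e he _).reg a 1 le_rfl ?_
  intro h0
  apply h.char
  have hdc : (d : ℂ) ≠ 0 := Nat.cast_ne_zero.2 hd.ne'
  have h1 : (d : ℂ) = 3 * a := by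
    push_cast at h0
    field_simp at h0
    linear_combination h0
  have h2 : (d : ℤ) = 3 * a := by exact_mod_cast h1
  simp [h2]

end main

/-- the part over the origin is regular at `-3/d` -/
theorem field_regT (f : MvPolynomial (Fin 3) ℂ) (d : ℕ) (hd : 0 < d) (hf : f.IsHomogeneous d)
    (hf0 : f ≠ 0) (hv : ¬ NoField f) (e : ℕ) (he : 1 ≤ e) (W : RatFunc ℂ)
    (hW : ∀ A B : Matrix (Fin 3) (Fin 3) ℂ, A * B = 1 →
        IsolatedLocTw e (linSub A f) W ∧ LineLocTw e (linSub A f) W) (bb : Polynomial ℂ)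
    (hb : IsBFunction f bb) (hne : bb.eval (-3 / (d : ℂ)) ≠ 0) :
    facT e d 3 * W ∈ Reg (-3 / (d : ℂ)) := by
  obtain ⟨A, B, hAB, κ, a, b, c, p, q, s, mu, hsh⟩ := torus_shape f d hf hf0 hv
  have hdet : A.det ≠ 0 := by
    intro h0
    have h1 := congrArg Matrix.det hAB
    rw [Matrix.det_mul, h0, zero_mul, Matrix.det_one] at h1
    exact zero_ne_one h1
  have hfe : IsBFunction (linSub A f) bb :=
    isB_of_unit _ bb (functionalEq_sbm A hdet (fun _ : Unit => f) bb (functionalEq_unit f bb hb))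
  have hg : (linSub A f).IsHomogeneous d := sbm_hom A f d hf
  have hg0 : linSub A f ≠ 0 := by
    intro h0
    apply hf0
    have h1 := sbm_sbm A B f
    have h0' : sbm A f = 0 := h0
    rw [hAB, sbm_one, h0', map_zero] at h1
    exact h1.symm
  obtain ⟨h1, h2⟩ := hW A B hAB
  rcases hsh.pq with ⟨rfl, rfl⟩ | ⟨hp, hq, hcop⟩
  · exact line_regT hsh hd hg hg0 e he W h2 bb hfe hne
  · exact iso_regT hsh hd hp hq hcop hg hg0 e he W h1 bb hfe hne

/-- **The twisted zeta functions.** -/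
theorem tw_full (f : MvPolynomial (Fin 3) ℂ) (d : ℕ) (hd : 0 < d) (hf : f.IsHomogeneous d)
    (hf0 : f ≠ 0) (b : Polynomial ℂ) (hb : IsBFunction f b) (e : ℕ) (he : 1 ≤ e) (Z : RatFunc ℂ)
    (hZ : TernTwFull e f d Z) (s₀ : ℂ) (hs₀ : Z.denom.eval s₀ = 0)
    (hc : s₀ ≠ -3 / d ∨ WHForm f d) : b.eval s₀ = 0 := by
  by_contra hne
  obtain ⟨l, i, P, z, χ₀, χ₀', χ, χ', W, hz, hW, rfl⟩ := hZ
  have hz' : ∀ j, z j ∈ Reg s₀ := fun j =>
    germ_reg f d hf hf0 b hb s₀ hne e he (i j) (P j) 1 le_rfl (z j) (hz j)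
  refine Reg_denom s₀ _ ((Reg s₀).add_mem (sum_reg' z hz' χ₀ χ) ?_) hs₀
  rcases hW with rfl | ⟨hW1, hW2⟩
  · rw [mul_zero]
    exact (Reg s₀).zero_mem
  · by_cases h3 : s₀ = -3 / d
    · rcases hc with hc | hc
      · exact absurd h3 hc
      · by_cases hv : NoField f
        · exact absurd (by rw [h3]; exact root_d3 f d ⟨hc, hv⟩ b hb) hne
        · rw [h3] at hne ⊢
          exact field_regT f d hd hf hf0 hv e he W hW2 b hb hne
    · rw [hW1]
      exact (Reg s₀).mul_mem (facT_d3 f d hd b hb s₀ hne (Or.inl h3) e he) (sum_reg' z hz' χ₀' χ')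

end Pool.Agent.U184
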