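import Pool.Agent.U184.TwDefs
import Pool.Agent.U184.TorDefs

set_option autoImplicit false

/-! # The twisted topological zeta function of a form in three variables -/

namespace Pool.Agent.U184

open MvPolynomial Pool.Agent.W574.SM Pool.Agent.W574.CN Pool.Agent.N103

/-- `z` is the contribution of the point `P` of the plane to the `e`-th twisted topological zeta
function of the polynomial `g` in two variables (`PointZeta` with the factors `facT e`, without
variables `y`). -/
def TwPoint (e : ℕ) (g : MvPolynomial (Fin 2) ℂ) (P : Fin 2 → ℂ) (z : RatFunc ℂ) : Prop :=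
  PointZeta (κ := Empty) (facT e) 1 g (fun _ => 1) 1 P (fun k => k.elim) z

/-- Localization at isolated fixed points, see `IsolatedLocalization`: if all monomials of `g` have
the same weight for three distinct integral weights, then the sum `W` of the contributions of the
points of the projective plane is the sum of the contributions of the coordinate points. -/
def IsolatedLocTw (e : ℕ) (g : MvPolynomial (Fin 3) ℂ) (W : RatFunc ℂ) : Prop :=
  ∀ (α : Fin 3 → ℤ) (w : ℤ), Function.Injective α →
    (∀ m ∈ g.support, ∑ i, α i * (m i : ℤ) = w) →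
    ∃ z : Fin 3 → RatFunc ℂ, (∀ i, TwPoint e (deh i g) ![0, 0] (z i)) ∧ W = ∑ i, z i

/-- Localization at a fixed point and a fixed line, see `LineLocalization`: if
`g = x ^ a h(y, z)`, then the sum `W` of the contributions of the points of the projective plane is
`z₀ + z₁ + ∑_{c ∈ S} w_c + (1 - |S|) facT e a 1`, where `z₀`, `z₁`, `w_c` are the contributions of the
points `[1 : 0 : 0]`, `[0 : 1 : 0]`, `[0 : c : 1]`, and `S` is a finite set which contains all `c`
with `h(c, 1) = 0`. -/
def LineLocTw (e : ℕ) (g : MvPolynomial (Fin 3) ℂ) (W : RatFunc ℂ) : Prop :=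
  ∀ (a : ℕ) (h : MvPolynomial (Fin 2) ℂ), g = X 0 ^ a * rename Fin.succ h →
    ∃ (z₀ z₁ : RatFunc ℂ) (S : Finset ℂ) (w : ℂ → RatFunc ℂ),
      TwPoint e (deh 0 g) ![0, 0] z₀ ∧ TwPoint e (deh 1 g) ![0, 0] z₁ ∧
      (∀ c ∈ S, TwPoint e (deh 2 g) ![0, c] (w c)) ∧
      (∀ c ∉ S, eval ![c, 1] h ≠ 0) ∧
      W = z₀ + z₁ + ∑ c ∈ S, w c + (1 - (S.card : RatFunc ℂ)) * facT e a 1

/-- `Z` is the `e`-th twisted topological zeta function
`∑_I χ(E_I°) ∏_{i ∈ I} 1 / (N_i s + ν_i)`, the sum over the `I ≠ ∅` such that `e` divides all `N_i`,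
`i ∈ I`, of a form `f` of degree `d` in three variables on an open set `U` of `ℂ ^ 3`, in the following
sense: `Z = χ₀ + ∑_j χ_j z_j + [e ∣ d] / (d s + 3) * W` with integers `χ` and with contributions `z_j`
of points (as in `TernTw`), and `W` is zero if the origin is not in `U`; otherwise `W` is the sum
of the contributions of the points of the exceptional divisor `P ^ 2` of the blow-up of the origin,
which is of the form `χ₀' + ∑_j χ'_j z_j`, and which satisfies the localization formulas for the
tori acting linearly on `ℂ ^ 3` for which `f` is semi-invariant: for all linear coordinates of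
`ℂ ^ 3`, `IsolatedLocTw` and `LineLocTw` hold (the orbits which are not points have the Euler
characteristic zero). -/
def TernTwFull (e : ℕ) (f : MvPolynomial (Fin 3) ℂ) (d : ℕ) (Z : RatFunc ℂ) : Prop :=
  ∃ (l : ℕ) (i : Fin l → Fin 3) (P : Fin l → Fin 2 → ℂ) (z : Fin l → RatFunc ℂ)
    (χ₀ χ₀' : ℤ) (χ χ' : Fin l → ℤ) (W : RatFunc ℂ),
    (∀ j, TwPoint e (deh (i j) f) (P j) (z j)) ∧
    (W = 0 ∨ (W = (χ₀' : RatFunc ℂ) + ∑ j, (χ' j : RatFunc ℂ) * z j ∧
      ∀ A B : Matrix (Fin 3) (Fin 3) ℂ, A * B = 1 →
        IsolatedLocTw e (linSub A f) W ∧ LineLocTw e (linSub A f) W)) ∧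
    Z = ((χ₀ : RatFunc ℂ) + ∑ j, (χ j : RatFunc ℂ) * z j) + facT e d 3 * W

end Pool.Agent.U184
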